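import Pool.Agent.H24.PM.Red

/-! Assembly of part 1. -/

namespace PM
open MeasureTheory Complex

/-- the mean over the imaginary line up to height T -/
noncomputable def meanT (γ p : ℝ) (N : ℕ) (T : ℝ) : ℝ :=
  (2 * T)⁻¹ * ∫ y in (-T)..T,
    ‖∑ n ∈ Finset.Icc 1 N, ((n.divisors.card : ℝ) ^ γ : ℝ) * (n : ℂ) ^ (-(1 / 2 : ℂ) - y * I)‖ ^ p

/-- the H^p (quasi) norm of D_(N,gamma) is v -/
def IsNorm (γ p : ℝ) (N : ℕ) (v : ℝ) : Prop :=
  0 ≤ v ∧ Filter.Tendsto (meanT γ p N) Filter.atTop (nhds (v ^ p))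

/-- the norms of D_(N,gamma) have exact order g(N) -/
def Order (γ p : ℝ) (g : ℕ → ℝ) : Prop := ∃ c C : ℝ, 0 < c ∧ 0 < C ∧ ∀ N : ℕ, 16 ≤ N →
  ∃ v : ℝ, IsNorm γ p N v ∧ c * g N ≤ v ∧ v ≤ C * g N

theorem order_of (hB : S_BOHR) {γ p : ℝ} (hp : 0 < p) {g : ℕ → ℝ} (hg : ∀ N, 16 ≤ N → 0 ≤ g N)
    {c C : ℝ} (hc : 0 < c) (hC : 0 < C)
    (h1 : ∀ N : ℕ, 16 ≤ N → c * (g N) ^ p ≤ ∫ ω : Om, ‖D γ N ω‖ ^ p ∂P)
    (h2 : ∀ N : ℕ, 16 ≤ N → ∫ ω : Om, ‖D γ N ω‖ ^ p ∂P ≤ C * (g N) ^ p) : Order γ p g := by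
  refine ⟨c ^ (1 / p), C ^ (1 / p), by positivity, by positivity, ?_⟩
  intro N hN
  have hnn : 0 ≤ ∫ ω : Om, ‖D γ N ω‖ ^ p ∂P := integral_nonneg (fun ω => by positivity)
  have hgp : (((g N) ^ p) ^ (1 / p)) = g N := by
    rw [← Real.rpow_mul (hg N hN), mul_one_div_cancel hp.ne', Real.rpow_one]
  refine ⟨(∫ ω : Om, ‖D γ N ω‖ ^ p ∂P) ^ (1 / p), ⟨by positivity, ?_⟩, ?_, ?_⟩
  · rw [← Real.rpow_mul hnn, one_div_mul_cancel hp.ne', Real.rpow_one]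
    exact hB γ p N hp
  · calc c ^ (1 / p) * g N = (c * (g N) ^ p) ^ (1 / p) := by
          rw [Real.mul_rpow hc.le (Real.rpow_nonneg (hg N hN) _), hgp]
      _ ≤ _ := Real.rpow_le_rpow (mul_nonneg hc.le (Real.rpow_nonneg (hg N hN) _)) (h1 N hN)
          (by positivity)
  · calc _ ≤ (C * (g N) ^ p) ^ (1 / p) := Real.rpow_le_rpow hnn (h2 N hN) (by positivity)
      _ = _ := by rw [Real.mul_rpow hC.le (Real.rpow_nonneg (hg N hN) _), hgp]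

theorem ASM (hUA : S_UA) (hUE : S_UE) (hUE1 : S_UE1) (hLE : S_LE) (hLE1 : S_LE1) (hLA : S_LA)
    (hB : S_BOHR) :
    (∀ γ p : ℝ, 0 < p → p ≤ 1 → (2 : ℝ) ^ γ * (1 + Real.sqrt (1 - p)) < 2 →
      Order γ p (fun N => (Real.log N) ^ ((2 : ℝ) ^ (2 * γ) * p / 4))) ∧
    (∀ γ p : ℝ, 0 < p → p < 1 → 1 < γ →
      Order γ p (fun N => (Real.log N) ^ ((2 : ℝ) ^ (2 * γ) / 4))) ∧
    (∀ γ : ℝ, 1 < γ →
      Order γ 1 (fun N => (Real.log N) ^ ((2 : ℝ) ^ (2 * γ) / 4) * Real.log (Real.log N))) := by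
  have hal : ∀ γ : ℝ, (2 : ℝ) ^ (2 * γ) = (al γ) ^ 2 := by
    intro γ
    unfold al
    rw [← Real.rpow_natCast, ← Real.rpow_mul (by norm_num)]
    congr 1
    push_cast
    ring
  have hlog : ∀ N : ℕ, 16 ≤ N → 0 ≤ Real.log N := fun N _ => Real.log_natCast_nonneg N
  refine ⟨?_, ?_, ?_⟩
  · intro γ p hp hp1 h
    obtain ⟨C, hC, h2⟩ := hUA γ p hp hp1 h
    obtain ⟨c, hc, h1⟩ := hLA γ p hp hp1
    apply order_of hB hp (fun N hN => Real.rpow_nonneg (hlog N hN) _) hc hC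
    · intro N hN
      rw [← Real.rpow_mul (hlog N hN), hal]
      have := h1 N (by omega)
      rwa [show (al γ) ^ 2 * p / 4 * p = (al γ) ^ 2 * p ^ 2 / 4 by ring]
    · intro N hN
      rw [← Real.rpow_mul (hlog N hN), hal]
      have := h2 N (by omega)
      rwa [show (al γ) ^ 2 * p / 4 * p = (al γ) ^ 2 * p ^ 2 / 4 by ring]
  · intro γ p hp hp1 h
    obtain ⟨C, hC, h2⟩ := hUE γ p hp hp1
    obtain ⟨c, hc, h1⟩ := hLE γ p h hp hp1
    apply order_of hB hp (fun N hN => Real.rpow_nonneg (hlog N hN) _) hc hC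
    · intro N hN
      rw [← Real.rpow_mul (hlog N hN), hal]
      have := h1 N (by omega)
      rwa [show (al γ) ^ 2 / 4 * p = (al γ) ^ 2 * p / 4 by ring]
    · intro N hN
      rw [← Real.rpow_mul (hlog N hN), hal]
      have := h2 N (by omega)
      rwa [show (al γ) ^ 2 / 4 * p = (al γ) ^ 2 * p / 4 by ring]
  · intro γ h
    obtain ⟨C, hC, h2⟩ := hUE1 γ
    obtain ⟨c, hc, h1⟩ := hLE1 γ h
    have hLL : ∀ N : ℕ, 16 ≤ N → 0 ≤ Real.log (Real.log N) := by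
      intro N hN
      apply Real.log_nonneg
      have hN' : (16 : ℝ) ≤ N := by exact_mod_cast hN
      rw [Real.le_log_iff_exp_le (by linarith)]
      linarith [Real.exp_one_lt_d9]
    apply order_of hB one_pos (fun N hN => mul_nonneg (Real.rpow_nonneg (hlog N hN) _)
      (hLL N hN)) hc hC
    · intro N hN
      rw [Real.rpow_one, hal]
      simp only [Real.rpow_one]
      exact h1 N hN
    · intro N hN
      rw [Real.rpow_one, hal]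
      simp only [Real.rpow_one]
      exact h2 N hN

end PM
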