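import Pool.Agent.H24.PM.Stmts

/-! Module BOHR: the mean over the imaginary line is the torus integral. -/

namespace PM
open MeasureTheory Complex

/-- the flow on the torus -/
noncomputable def bohrFl (y : ℝ) : Om := fun l => ((-(y * Real.log l) / (2 * Real.pi) : ℝ) : UnitAddCircle)

theorem bohr_zc (x : ℝ) : zc (x : UnitAddCircle) = Complex.exp (2 * Real.pi * I * x) := by
  unfold zc
  rw [fourier_coe_apply]
  congr 1
  push_cast
  ring

theorem bohr_zc_fl (y : ℝ) (l : ℕ) : zc (bohrFl y l) = Complex.exp (-(y * Real.log l : ℝ) * I) := by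
  unfold bohrFl
  rw [bohr_zc]
  congr 1
  have : (Real.pi : ℂ) ≠ 0 := by exact_mod_cast Real.pi_ne_zero
  push_cast
  field_simp

theorem bohr_chi_fl (y : ℝ) (n : ℕ) (_hn : n ≠ 0) :
    chi n (bohrFl y) = Complex.exp (-(y * Real.log n : ℝ) * I) := by
  unfold chi
  simp only [bohr_zc_fl, ← Complex.exp_nat_mul]
  rw [← Complex.exp_sum]
  congr 1
  have h := Real.log_nat_eq_sum_factorization n
  rw [h, Finsupp.sum, Nat.support_factorization]
  push_cast
  rw [Finset.mul_sum, ← Finset.sum_neg_distrib, Finset.sum_mul]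
  refine Finset.sum_congr rfl fun p _ => ?_
  ring

theorem bohr_fl_cont : Continuous bohrFl := by
  refine continuous_pi fun l => ?_
  unfold bohrFl
  exact (AddCircle.continuous_mk' 1).comp (by fun_prop)

/-- the mean of a trigonometric monomial -/
theorem bohr_mean (θ : ℝ) : Filter.Tendsto (fun T : ℝ => ((2 * T : ℝ) : ℂ)⁻¹ *
    ∫ y in (-T)..T, Complex.exp (-(y * θ : ℝ) * I)) Filter.atTop
    (nhds (if θ = 0 then 1 else 0)) := by
  split_ifs with h
  · subst h
    refine Filter.Tendsto.congr' (f₁ := fun _ => (1 : ℂ)) ?_ tendsto_const_nhds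
    filter_upwards [Filter.eventually_gt_atTop (0 : ℝ)] with T hT
    simp only [mul_zero, Complex.ofReal_zero, neg_zero, zero_mul, Complex.exp_zero,
      intervalIntegral.integral_const, sub_neg_eq_add]
    rw [← two_mul, Complex.real_smul, mul_one, inv_mul_cancel₀]
    exact_mod_cast (by positivity : (2 * T : ℝ) ≠ 0)
  · rw [tendsto_zero_iff_norm_tendsto_zero]
    have hθ : 0 < |θ| := abs_pos.2 h
    refine squeeze_zero_norm' (a := fun T : ℝ => |θ|⁻¹ * T⁻¹) ?_ ?_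
    · filter_upwards [Filter.eventually_gt_atTop (0 : ℝ)] with T hT
      have h1 : ∀ y : ℝ, Complex.exp (-(y * θ : ℝ) * I) = Complex.exp ((-(θ : ℂ) * I) * y) := by
        intro y
        congr 1
        push_cast
        ring
      simp only [h1]
      have hc : (-(θ : ℂ) * I) ≠ 0 := by
        simp [h]
      rw [integral_exp_mul_complex hc, norm_norm, norm_mul, norm_inv, norm_div]
      have h2 : ∀ y : ℝ, ‖Complex.exp ((-(θ : ℂ) * I) * y)‖ = 1 := by
        intro y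
        rw [Complex.norm_exp]
        simp
      have h3 : ‖(-(θ : ℂ) * I)‖ = |θ| := by
        simp
      have h4 : ‖((2 * T : ℝ) : ℂ)‖ = 2 * T := by
        rw [Complex.norm_real, Real.norm_of_nonneg (by positivity)]
      rw [h3, h4]
      have h5 := norm_sub_le (Complex.exp ((-(θ : ℂ) * I) * (T : ℝ)))
        (Complex.exp ((-(θ : ℂ) * I) * ((-T : ℝ) : ℂ)))
      rw [h2, h2] at h5
      calc (2 * T)⁻¹ * (‖Complex.exp ((-(θ : ℂ) * I) * (T : ℝ)) -
            Complex.exp ((-(θ : ℂ) * I) * ((-T : ℝ) : ℂ))‖ / |θ|)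
          ≤ (2 * T)⁻¹ * ((1 + 1) / |θ|) := by gcongr
        _ = |θ|⁻¹ * T⁻¹ := by field_simp; norm_num
    · have := (tendsto_inv_atTop_zero (𝕜 := ℝ)).const_mul (|θ|⁻¹)
      rwa [mul_zero] at this

/-- functions whose mean along the flow is the integral -/
def BohrV (f : Om → ℂ) : Prop := Continuous f ∧
  Filter.Tendsto (fun T : ℝ => ((2 * T : ℝ) : ℂ)⁻¹ * ∫ y in (-T)..T, f (bohrFl y)) Filter.atTop
    (nhds (∫ ω : Om, f ω ∂P))

theorem bohr_int {f : Om → ℂ} (h : Continuous f) : Integrable f P :=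
  h.integrable_of_hasCompactSupport (HasCompactSupport.of_compactSpace f)

theorem BohrV.add {f g : Om → ℂ} (hf : BohrV f) (hg : BohrV g) : BohrV (f + g) := by
  refine ⟨hf.1.add hg.1, ?_⟩
  have h := hf.2.add hg.2
  simp only [Pi.add_apply]
  rw [integral_add (bohr_int hf.1) (bohr_int hg.1)]
  refine h.congr fun T => ?_
  have h2 := intervalIntegral.integral_add (μ := volume) (a := -T) (b := T)
    (f := fun y => f (bohrFl y)) (g := fun y => g (bohrFl y))
    ((hf.1.comp bohr_fl_cont).intervalIntegrable _ _)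
    ((hg.1.comp bohr_fl_cont).intervalIntegrable _ _)
  rw [h2, mul_add]

theorem BohrV.smul {f : Om → ℂ} (c : ℂ) (hf : BohrV f) : BohrV (c • f) := by
  refine ⟨hf.1.const_smul c, ?_⟩
  have h := hf.2.const_mul c
  simp only [Pi.smul_apply, smul_eq_mul]
  rw [integral_const_mul]
  refine h.congr fun T => ?_
  rw [intervalIntegral.integral_const_mul]
  ring

/-- the products of characters and conjugate characters -/
def bohrS : Set (Om → ℂ) := {f | ∃ m n : ℕ, m ≠ 0 ∧ n ≠ 0 ∧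
  f = fun ω => chi m ω * (starRingEnd ℂ) (chi n ω)}

theorem bohr_S_V (hC : S_CHI) {f : Om → ℂ} (hf : f ∈ bohrS) : BohrV f := by
  obtain ⟨hmul, hnorm, hcont, horth⟩ := hC
  obtain ⟨m, n, hm, hn, rfl⟩ := hf
  refine ⟨(hcont m).mul (Complex.continuous_conj.comp (hcont n)), ?_⟩
  rw [horth m n hm hn]
  have h := bohr_mean (Real.log m - Real.log n)
  have e : (if Real.log m - Real.log n = 0 then (1 : ℂ) else 0) = if m = n then 1 else 0 := by
    have hm0 : (0 : ℝ) < m := by exact_mod_cast Nat.pos_of_ne_zero hm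
    have hn0 : (0 : ℝ) < n := by exact_mod_cast Nat.pos_of_ne_zero hn
    refine if_congr ?_ rfl rfl
    rw [sub_eq_zero]
    constructor
    · intro h
      exact_mod_cast Real.log_injOn_pos hm0 hn0 h
    · rintro rfl
      rfl
  rw [e] at h
  refine h.congr fun T => ?_
  congr 1
  refine intervalIntegral.integral_congr fun y _ => ?_
  simp only
  rw [bohr_chi_fl y m hm, bohr_chi_fl y n hn, ← Complex.exp_conj, ← Complex.exp_add]
  congr 1
  simp only [map_mul, map_neg, Complex.conj_ofReal, Complex.conj_I]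
  push_cast
  ring

theorem bohr_span_V (hC : S_CHI) {f : Om → ℂ} (hf : f ∈ Submodule.span ℂ bohrS) : BohrV f := by
  induction hf using Submodule.span_induction with
  | mem f hf => exact bohr_S_V hC hf
  | zero =>
    have h1 : (fun ω => chi 1 ω * (starRingEnd ℂ) (chi 1 ω)) ∈ bohrS :=
      ⟨1, 1, one_ne_zero, one_ne_zero, rfl⟩
    have h := (bohr_S_V hC h1).smul 0
    rwa [zero_smul] at h
  | add f g _ _ hf hg => exact hf.add hg
  | smul c f _ hf => exact hf.smul c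

theorem bohr_one : (1 : Om → ℂ) ∈ Submodule.span ℂ bohrS := by
  refine Submodule.subset_span ⟨1, 1, one_ne_zero, one_ne_zero, ?_⟩
  funext ω
  simp [chi]

theorem bohr_mul (hC : S_CHI) {f g : Om → ℂ} (hf : f ∈ Submodule.span ℂ bohrS)
    (hg : g ∈ Submodule.span ℂ bohrS) : f * g ∈ Submodule.span ℂ bohrS := by
  have h := Submodule.mul_mem_mul hf hg
  rw [Submodule.span_mul_span] at h
  refine Submodule.span_mono ?_ h
  rintro _ ⟨_, ⟨m, n, hm, hn, rfl⟩, _, ⟨m', n', hm', hn', rfl⟩, rfl⟩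
  refine ⟨m * m', n * n', mul_ne_zero hm hm', mul_ne_zero hn hn', ?_⟩
  funext ω
  simp only [Pi.mul_apply]
  rw [hC.1 m m' ω hm hm', hC.1 n n' ω hn hn', map_mul]
  ring

theorem bohr_D (γ : ℝ) (N : ℕ) : D γ N ∈ Submodule.span ℂ bohrS := by
  have e : D γ N = ∑ n ∈ Finset.Icc 1 N, (b γ n : ℂ) • fun ω => chi n ω * (starRingEnd ℂ) (chi 1 ω) := by
    funext ω
    simp [D, chi]
  rw [e]
  refine Submodule.sum_mem _ fun n hn => Submodule.smul_mem _ _ (Submodule.subset_span ?_)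
  exact ⟨n, 1, by have := (Finset.mem_Icc.1 hn).1; omega, one_ne_zero, rfl⟩

theorem bohr_Dc (γ : ℝ) (N : ℕ) :
    (fun ω => (starRingEnd ℂ) (D γ N ω)) ∈ Submodule.span ℂ bohrS := by
  have e : (fun ω => (starRingEnd ℂ) (D γ N ω)) =
      ∑ n ∈ Finset.Icc 1 N, (b γ n : ℂ) • fun ω => chi 1 ω * (starRingEnd ℂ) (chi n ω) := by
    funext ω
    simp [D, chi]
  rw [e]
  refine Submodule.sum_mem _ fun n hn => Submodule.smul_mem _ _ (Submodule.subset_span ?_)
  exact ⟨1, n, one_ne_zero, by have := (Finset.mem_Icc.1 hn).1; omega, rfl⟩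

theorem bohr_poly (hC : S_CHI) (γ : ℝ) (N : ℕ) (q : Polynomial ℝ) :
    (fun ω => ((q.eval (‖D γ N ω‖ ^ 2) : ℝ) : ℂ)) ∈ Submodule.span ℂ bohrS := by
  have h2 : (fun ω => ((‖D γ N ω‖ ^ 2 : ℝ) : ℂ)) ∈ Submodule.span ℂ bohrS := by
    have h := bohr_mul hC (bohr_D γ N) (bohr_Dc γ N)
    have e : (fun ω => ((‖D γ N ω‖ ^ 2 : ℝ) : ℂ)) =
        D γ N * fun ω => (starRingEnd ℂ) (D γ N ω) := by
      funext ω
      rw [Pi.mul_apply, Complex.mul_conj, Complex.normSq_eq_norm_sq]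
    rw [e]
    exact h
  have hk : ∀ k : ℕ, (fun ω => (((‖D γ N ω‖ ^ 2) ^ k : ℝ) : ℂ)) ∈ Submodule.span ℂ bohrS := by
    intro k
    induction k with
    | zero =>
      have e : (fun ω => (((‖D γ N ω‖ ^ 2) ^ 0 : ℝ) : ℂ)) = 1 := by
        funext ω
        simp
      rw [e]
      exact bohr_one
    | succ k ih =>
      have h := bohr_mul hC ih h2
      have e : (fun ω => (((‖D γ N ω‖ ^ 2) ^ (k + 1) : ℝ) : ℂ)) =
          (fun ω => (((‖D γ N ω‖ ^ 2) ^ k : ℝ) : ℂ)) * fun ω => ((‖D γ N ω‖ ^ 2 : ℝ) : ℂ) := by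
        funext ω
        rw [Pi.mul_apply, pow_succ]
        push_cast
        ring
      rw [e]
      exact h
  have e : (fun ω => ((q.eval (‖D γ N ω‖ ^ 2) : ℝ) : ℂ)) =
      ∑ k ∈ Finset.range (q.natDegree + 1), (q.coeff k : ℂ) •
        fun ω => (((‖D γ N ω‖ ^ 2) ^ k : ℝ) : ℂ) := by
    funext ω
    rw [Polynomial.eval_eq_sum_range, Finset.sum_apply]
    push_cast
    refine Finset.sum_congr rfl fun k _ => ?_
    simp
  rw [e]
  exact Submodule.sum_mem _ fun k _ => Submodule.smul_mem _ _ (hk k)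

theorem bohr_bd (hC : S_CHI) (γ : ℝ) (N : ℕ) (ω : Om) :
    ‖D γ N ω‖ ≤ ∑ n ∈ Finset.Icc 1 N, |b γ n| := by
  unfold D
  refine (norm_sum_le _ _).trans (Finset.sum_le_sum fun n _ => ?_)
  rw [norm_mul, hC.2.1, mul_one, Complex.norm_real, Real.norm_eq_abs]

theorem bohr_eq (γ : ℝ) (N : ℕ) (y : ℝ) :
    ∑ n ∈ Finset.Icc 1 N, ((n.divisors.card : ℝ) ^ γ : ℝ) * (n : ℂ) ^ (-(1 / 2 : ℂ) - y * I) =
      D γ N (bohrFl y) := by
  unfold D
  refine Finset.sum_congr rfl fun n hn => ?_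
  have hn1 : 1 ≤ n := (Finset.mem_Icc.1 hn).1
  have hn0 : (0 : ℝ) < n := by exact_mod_cast hn1
  have hnc : (n : ℂ) ≠ 0 := by exact_mod_cast (by omega : n ≠ 0)
  rw [bohr_chi_fl y n (by omega)]
  unfold b
  have h1 : (n : ℂ) ^ (-(1 / 2 : ℂ) - y * I) =
      ((Real.sqrt n)⁻¹ : ℝ) * Complex.exp (-(y * Real.log n : ℝ) * I) := by
    rw [sub_eq_add_neg, Complex.cpow_add _ _ hnc]
    congr 1
    · rw [Real.sqrt_eq_rpow, ← Real.rpow_neg hn0.le, Complex.ofReal_cpow hn0.le]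
      push_cast
      rfl
    · rw [Complex.cpow_def_of_ne_zero hnc, ← Complex.ofReal_natCast, ← Complex.ofReal_log hn0.le]
      congr 1
      push_cast
      ring
  rw [h1]
  push_cast
  ring

/-- **BOHR** -/
theorem BOHR (hC : S_CHI) : S_BOHR := by
  intro γ p N hp
  set B := ∑ n ∈ Finset.Icc 1 N, |b γ n| with hBdef
  have hDc : Continuous (D γ N) := (bohr_span_V hC (bohr_D γ N)).1
  have hB : ∀ ω, ‖D γ N ω‖ ^ 2 ∈ Set.Icc 0 (B ^ 2) := fun ω =>
    ⟨by positivity, pow_le_pow_left₀ (norm_nonneg _) (bohr_bd hC γ N ω) 2⟩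
  have hpow : ∀ ω, ‖D γ N ω‖ ^ p = (‖D γ N ω‖ ^ 2) ^ (p / 2) := by
    intro ω
    rw [← Real.rpow_natCast, ← Real.rpow_mul (norm_nonneg _)]
    congr 1
    push_cast
    ring
  have hfc : Continuous (fun ω => ‖D γ N ω‖ ^ p) := hDc.norm.rpow_const fun _ => Or.inr hp.le
  simp only [bohr_eq]
  rw [Metric.tendsto_atTop]
  intro ε hε
  obtain ⟨q, hq⟩ := exists_polynomial_near_of_continuousOn 0 (B ^ 2) (fun u => u ^ (p / 2))
    (Real.continuous_rpow_const (by positivity)).continuousOn (ε / 3) (by positivity)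
  have hqc : Continuous (fun ω => q.eval (‖D γ N ω‖ ^ 2)) :=
    q.continuous.comp (hDc.norm.pow 2)
  have hqd : ∀ ω, |q.eval (‖D γ N ω‖ ^ 2) - ‖D γ N ω‖ ^ p| < ε / 3 := fun ω => by
    rw [hpow]
    exact hq _ (hB ω)
  -- the mean of the polynomial
  have h1 : Filter.Tendsto (fun T : ℝ => (2 * T)⁻¹ *
      ∫ y in (-T)..T, q.eval (‖D γ N (bohrFl y)‖ ^ 2)) Filter.atTop
      (nhds (∫ ω : Om, q.eval (‖D γ N ω‖ ^ 2) ∂P)) := by
    have h2 := (bohr_span_V hC (bohr_poly hC γ N q)).2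
    beta_reduce at h2
    rw [integral_complex_ofReal] at h2
    have h3 := (Complex.continuous_re.tendsto _).comp h2
    rw [Complex.ofReal_re] at h3
    refine h3.congr fun T => ?_
    simp only [Function.comp]
    rw [intervalIntegral.integral_ofReal, ← Complex.ofReal_inv, ← Complex.ofReal_mul,
      Complex.ofReal_re]
  rw [Metric.tendsto_atTop] at h1
  obtain ⟨T0, hT0⟩ := h1 (ε / 3) (by positivity)
  refine ⟨max T0 1, fun T hT => ?_⟩
  have hT1 : 0 < T := lt_of_lt_of_le one_pos ((le_max_right _ _).trans hT)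
  have h2 := hT0 T ((le_max_left _ _).trans hT)
  have h3 : |(2 * T)⁻¹ * (∫ y in (-T)..T, ‖D γ N (bohrFl y)‖ ^ p) -
      (2 * T)⁻¹ * ∫ y in (-T)..T, q.eval (‖D γ N (bohrFl y)‖ ^ 2)| ≤ ε / 3 := by
    have h0 := intervalIntegral.integral_sub (μ := volume) (a := -T) (b := T)
      (f := fun y => ‖D γ N (bohrFl y)‖ ^ p) (g := fun y => q.eval (‖D γ N (bohrFl y)‖ ^ 2))
      ((hfc.comp bohr_fl_cont).intervalIntegrable _ _)
      ((hqc.comp bohr_fl_cont).intervalIntegrable _ _)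
    rw [← mul_sub, ← h0, abs_mul, abs_of_pos (by positivity)]
    have h4 := intervalIntegral.norm_integral_le_of_norm_le_const (a := -T) (b := T) (C := ε / 3)
      (f := fun y => ‖D γ N (bohrFl y)‖ ^ p - q.eval (‖D γ N (bohrFl y)‖ ^ 2)) (fun y _ => by
        rw [Real.norm_eq_abs, abs_sub_comm]
        exact (hqd _).le)
    rw [Real.norm_eq_abs, sub_neg_eq_add, abs_of_pos (by linarith : 0 < T + T)] at h4
    calc (2 * T)⁻¹ * |∫ y in (-T)..T, (‖D γ N (bohrFl y)‖ ^ p - q.eval (‖D γ N (bohrFl y)‖ ^ 2))|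
        ≤ (2 * T)⁻¹ * (ε / 3 * (T + T)) := by gcongr
      _ = ε / 3 := by field_simp; ring
  have h5 : |(∫ ω : Om, q.eval (‖D γ N ω‖ ^ 2) ∂P) - ∫ ω : Om, ‖D γ N ω‖ ^ p ∂P| ≤ ε / 3 := by
    have i1 : Integrable (fun ω => q.eval (‖D γ N ω‖ ^ 2)) P :=
      hqc.integrable_of_hasCompactSupport (HasCompactSupport.of_compactSpace _)
    have i2 : Integrable (fun ω => ‖D γ N ω‖ ^ p) P :=
      hfc.integrable_of_hasCompactSupport (HasCompactSupport.of_compactSpace _)
    rw [← integral_sub i1 i2]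
    have h6 := norm_integral_le_of_norm_le_const (μ := P) (C := ε / 3)
      (f := fun ω => q.eval (‖D γ N ω‖ ^ 2) - ‖D γ N ω‖ ^ p)
      (Filter.Eventually.of_forall fun ω => (hqd ω).le)
    rw [Real.norm_eq_abs] at h6
    simpa using h6
  rw [Real.dist_eq] at h2 ⊢
  rw [abs_le] at h3 h5
  rw [abs_lt] at h2 ⊢
  constructor <;> linarith [h2.1, h2.2, h3.1, h3.2, h5.1, h5.2]

end PM
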