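import Pool.Agent.H24.PM.Stmts
import Pool.Agent.H51.Rho.F

/-! Brun-Titchmarsh for project PM. -/

namespace PM
open Finset

theorem BT : S_BT := by
  obtain ⟨C, hC, hs⟩ := Pool.Agent.H85.Rho.sieve_ap
  refine ⟨2 * (C + 2), by positivity, ?_⟩
  intro x h hx hh
  have hh0 : 0 < h := by linarith
  set X := ⌊h⌋₊ + 1 with hX
  set b := ⌊x⌋₊ + 1 with hb
  have hX2 : 2 ≤ X := by
    have : 1 ≤ ⌊h⌋₊ := by
      rw [Nat.one_le_floor_iff]; linarith
    omega
  have hXle : (X : ℝ) ≤ 2 * h := by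
    rw [hX]; push_cast
    linarith [Nat.floor_le hh0.le]
  have hXge : h ≤ X := by
    rw [hX]; push_cast
    linarith [Nat.lt_floor_add_one h]
  have hX0 : (0 : ℝ) < X := by linarith
  have h1 := hs 2 le_rfl 1 b X hX2 (fun l hl _ h1 => by
    have := Nat.le_of_dvd one_pos h1
    have := hl.two_le
    omega)
  set Y := ⌊(X : ℝ) ^ (1 / 8 : ℝ)⌋₊ with hY
  have h2 : PrS x (x + h) ⊆ (((Finset.range X).filter (fun t => ∀ l ∈ Pool.Agent.H85.Rho.pr 2 Y,
      ¬ l ∣ b + 1 * t)).image (fun t => b + 1 * t)) ∪ Finset.Icc 1 Y := by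
    intro l hl
    unfold PrS at hl
    rw [Finset.mem_filter, Finset.mem_range, Nat.lt_succ_iff, Nat.le_floor_iff (by linarith)] at hl
    obtain ⟨h3, hlp, h4⟩ := hl
    rw [Finset.mem_union]
    rcases Nat.lt_or_ge Y l with h5 | h5
    · left
      rw [Finset.mem_image]
      have hbl : b ≤ l := by
        rw [hb, Nat.succ_le_iff]
        exact (Nat.floor_lt hx).mpr h4
      refine ⟨l - b, ?_, by omega⟩
      rw [Finset.mem_filter, Finset.mem_range]
      constructor
      · have h6 : ((l - b : ℕ) : ℝ) ≤ h := by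
          rw [Nat.cast_sub hbl]
          have h7 : x < (b : ℝ) := by rw [hb]; push_cast; exact Nat.lt_floor_add_one x
          linarith
        have h7 : l - b ≤ ⌊h⌋₊ := (Nat.le_floor_iff hh0.le).mpr h6
        omega
      · intro q hq hqd
        rw [show b + 1 * (l - b) = l by omega] at hqd
        have hq' := Pool.Agent.H85.Rho.mem_pr.mp hq
        have := (Nat.prime_dvd_prime_iff_eq hq'.2 hlp).mp hqd
        omega
    · right
      rw [Finset.mem_Icc]
      exact ⟨hlp.pos, h5⟩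
  have h3 : ((PrS x (x + h)).card : ℝ) ≤ C * X * Real.log 2 / Real.log X + Y := by
    have h4 := (Finset.card_le_card h2).trans (Finset.card_union_le _ _)
    rw [Nat.card_Icc] at h4
    have h5 := h4.trans (Nat.add_le_add_right Finset.card_image_le _)
    have h6 : ((PrS x (x + h)).card : ℝ) ≤ ((((Finset.range X).filter
        (fun t => ∀ l ∈ Pool.Agent.H85.Rho.pr 2 Y, ¬ l ∣ b + 1 * t)).card : ℕ) : ℝ) + (Y : ℕ) := by
      exact_mod_cast (by omega)
    refine h6.trans ?_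
    have : ((2 : ℕ) : ℝ) = 2 := by norm_num
    rw [this] at h1
    linarith
  have hlogh : 0 < Real.log h := Real.log_pos (by linarith)
  have hlog : Real.log h ≤ Real.log X := Real.log_le_log hh0 hXge
  have hlogX : 0 < Real.log X := hlogh.trans_le hlog
  have hX1 : (1 : ℝ) ≤ X := by exact_mod_cast (by omega : 1 ≤ X)
  have h4 : (Y : ℝ) ≤ 2 * X / Real.log X := by
    have a1 : (Y : ℝ) ≤ (X : ℝ) ^ (1 / 8 : ℝ) := Nat.floor_le (by positivity)
    have a2 : (X : ℝ) ^ (1 / 8 : ℝ) ≤ (X : ℝ) ^ (1 / 2 : ℝ) :=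
      Real.rpow_le_rpow_of_exponent_le hX1 (by norm_num)
    have a3 : Real.log X ≤ (X : ℝ) ^ (1 / 2 : ℝ) / (1 / 2) :=
      Real.log_le_rpow_div hX0.le (by norm_num)
    have a4 : (X : ℝ) ^ (1 / 2 : ℝ) * (X : ℝ) ^ (1 / 2 : ℝ) = X := by
      rw [← Real.rpow_add hX0]; norm_num
    rw [le_div_iff₀ hlogX]
    have a5 : 0 ≤ (X : ℝ) ^ (1 / 2 : ℝ) := by positivity
    calc (Y : ℝ) * Real.log X ≤ (X : ℝ) ^ (1 / 2 : ℝ) * ((X : ℝ) ^ (1 / 2 : ℝ) / (1 / 2)) :=
          mul_le_mul (a1.trans a2) a3 hlogX.le a5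
      _ = 2 * ((X : ℝ) ^ (1 / 2 : ℝ) * (X : ℝ) ^ (1 / 2 : ℝ)) := by ring
      _ = 2 * X := by rw [a4]
  have hlog2 : Real.log 2 ≤ 1 := by linarith [Real.log_two_lt_d9]
  have h5 : C * X * Real.log 2 / Real.log X ≤ C * X / Real.log X := by
    refine div_le_div_of_nonneg_right ?_ hlogX.le
    calc C * X * Real.log 2 ≤ C * X * 1 := mul_le_mul_of_nonneg_left hlog2 (by positivity)
      _ = C * X := mul_one _
  calc ((PrS x (x + h)).card : ℝ) ≤ C * X / Real.log X + 2 * X / Real.log X := by linarith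
    _ = (C + 2) * X / Real.log X := by ring
    _ ≤ (C + 2) * X / Real.log h :=
        div_le_div_of_nonneg_left (by positivity) hlogh hlog
    _ ≤ 2 * (C + 2) * h / Real.log h := by
        refine div_le_div_of_nonneg_right ?_ hlogh.le
        nlinarith
  
end PM
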