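import Pool.Agent.H24.PM.Stmts

/-! Bonami-Weissler inequality for Dirichlet polynomials, for project PM. -/

namespace PM
open MeasureTheory Complex

namespace Bws

theorem zc_norm (x : UnitAddCircle) : ‖zc x‖ = 1 := by
  unfold zc
  exact Circle.norm_coe _

theorem zc_cont : Continuous zc := by
  unfold zc
  exact (fourier 1).continuous

theorem hint {X : Type*} [TopologicalSpace X] [CompactSpace X] [MeasurableSpace X]
    [OpensMeasurableSpace X] (μ : Measure X) [IsFiniteMeasure μ]
    {E : Type*} [NormedAddCommGroup E] [SecondCountableTopologyEither X E] (f : X → E)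
    (hf : Continuous f) : Integrable f μ := by
  have h1 : HasCompactSupport f := HasCompactSupport.of_compactSpace f
  exact hf.integrable_of_hasCompactSupport h1

theorem mix_single (q : ℕ) (w : Om × Om) : mix {q} w = Function.update w.2 q (w.1 q) := by
  funext l
  unfold mix
  by_cases h : l = q
  · subst h
    simp
  · rw [Function.update_of_ne h]
    simp [h]

theorem coord (hMIX : S_MIX) (q : ℕ) (F : Om → ℝ) (hF : Continuous F) :
    ∫ ω : Om, F ω ∂P = ∫ ω : Om, (∫ x : UnitAddCircle, F (Function.update ω q x)) ∂P := by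
  have hm := hMIX {q}
  have hFi : Integrable F P := hint P F hF
  have h1 : ∫ ω : Om, F ω ∂P = ∫ w : Om × Om, F (mix {q} w) ∂(P.prod P) := by
    rw [← hm.map_eq, integral_map hm.measurable.aemeasurable
      hF.measurable.aestronglyMeasurable]
    rw [hm.map_eq]
  have hint2 : Integrable (fun w : Om × Om => F (mix {q} w)) (P.prod P) :=
    hm.integrable_comp_of_integrable hFi
  rw [h1, integral_prod_symm (fun w : Om × Om => F (mix {q} w)) hint2]
  refine integral_congr_ae (Filter.Eventually.of_forall fun ω => ?_)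
  simp only [mix_single]
  have h2 : MeasurePreserving (Function.eval q) P (volume : Measure UnitAddCircle) :=
    measurePreserving_eval_infinitePi (fun _ : ℕ => (volume : Measure UnitAddCircle)) q
  rw [← h2.map_eq, integral_map h2.measurable.aemeasurable]
  refine Continuous.aestronglyMeasurable ?_
  exact hF.comp (continuous_const.update q continuous_id)

theorem rev_mink {ι : Type*} (s : Finset ι) {κ : ℝ} (hκ : 0 < κ) (hκ1 : κ ≤ 1) (u : ι → ℝ)
    (v : ι → UnitAddCircle → ℝ) (hv : ∀ i ∈ s, Continuous (v i)) (hv0 : ∀ i ∈ s, ∀ x, 0 ≤ v i x)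
    (hu0 : ∀ i ∈ s, 0 ≤ u i) (h : ∀ i ∈ s, (u i) ^ κ ≤ ∫ x : UnitAddCircle, (v i x) ^ κ) :
    (∑ i ∈ s, u i) ^ κ ≤ ∫ x : UnitAddCircle, (∑ i ∈ s, v i x) ^ κ := by
  classical
  set t := s.filter (fun i => 0 < u i) with ht
  have hts : t ⊆ s := Finset.filter_subset _ _
  have hU : ∑ i ∈ s, u i = ∑ i ∈ t, u i := by
    rw [ht, Finset.sum_filter]
    refine Finset.sum_congr rfl fun i hi => ?_
    split_ifs with h1
    · rfl
    · exact le_antisymm (not_lt.mp h1) (hu0 i hi)
  have hnn : 0 ≤ ∫ x : UnitAddCircle, (∑ i ∈ s, v i x) ^ κ :=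
    integral_nonneg fun x => Real.rpow_nonneg (Finset.sum_nonneg fun i hi => hv0 i hi x) _
  rw [hU]
  set U := ∑ i ∈ t, u i with hUdef
  have hut : ∀ i ∈ t, 0 < u i := fun i hi => (Finset.mem_filter.mp hi).2
  have hUU : 0 ≤ U := Finset.sum_nonneg fun i hi => (hut i hi).le
  rcases hUU.eq_or_lt with hU0 | hU0
  · rw [← hU0, Real.zero_rpow hκ.ne']
    exact hnn
  have hpt : ∀ x : UnitAddCircle, ∑ i ∈ t, (u i / U * (U / u i) ^ κ) * (v i x) ^ κ ≤
      (∑ i ∈ s, v i x) ^ κ := by
    intro x
    have h1 := (Real.concaveOn_rpow hκ.le hκ1).le_map_sum (t := t) (w := fun i => u i / U)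
      (p := fun i => U / u i * v i x) (fun i hi => div_nonneg (hut i hi).le hU0.le)
      (by rw [← Finset.sum_div, ← hUdef, div_self hU0.ne'])
      (fun i hi => Set.mem_Ici.mpr (mul_nonneg (div_nonneg hU0.le (hut i hi).le)
        (hv0 i (hts hi) x)))
    simp only [smul_eq_mul] at h1
    have e1 : ∑ i ∈ t, u i / U * (U / u i * v i x) ^ κ =
        ∑ i ∈ t, (u i / U * (U / u i) ^ κ) * (v i x) ^ κ := by
      refine Finset.sum_congr rfl fun i hi => ?_
      rw [Real.mul_rpow (div_nonneg hU0.le (hut i hi).le) (hv0 i (hts hi) x)]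
      ring
    have e2 : ∑ i ∈ t, u i / U * (U / u i * v i x) = ∑ i ∈ t, v i x := by
      refine Finset.sum_congr rfl fun i hi => ?_
      have h5 := (hut i hi).ne'
      have h6 := hU0.ne'
      field_simp
    rw [e1, e2] at h1
    refine h1.trans ?_
    refine Real.rpow_le_rpow (Finset.sum_nonneg fun i hi => hv0 i (hts hi) x) ?_ hκ.le
    exact Finset.sum_le_sum_of_subset_of_nonneg hts fun i hi _ => hv0 i hi x
  have hc : ∀ i ∈ s, Continuous (fun x => (v i x) ^ κ) := fun i hi =>
    (hv i hi).rpow_const fun x => Or.inr hκ.le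
  have h2 : ∫ x : UnitAddCircle, ∑ i ∈ t, (u i / U * (U / u i) ^ κ) * (v i x) ^ κ ≤
      ∫ x : UnitAddCircle, (∑ i ∈ s, v i x) ^ κ := by
    refine integral_mono (hint _ _ ?_) (hint _ _ ?_) hpt
    · exact continuous_finsetSum _ fun i hi => continuous_const.mul (hc i (hts hi))
    · exact (continuous_finsetSum _ fun i hi => hv i hi).rpow_const fun x => Or.inr hκ.le
  refine le_trans ?_ h2
  have h7 : ∫ x : UnitAddCircle, ∑ i ∈ t, (u i / U * (U / u i) ^ κ) * (v i x) ^ κ =
      ∑ i ∈ t, (u i / U * (U / u i) ^ κ) * ∫ x : UnitAddCircle, (v i x) ^ κ := by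
    rw [integral_finsetSum]
    · simp only [integral_const_mul]
    · intro i hi
      exact hint _ _ (continuous_const.mul (hc i (hts hi)))
  rw [h7]
  calc U ^ κ = ∑ i ∈ t, (u i / U * (U / u i) ^ κ) * (u i) ^ κ := by
        have : ∀ i ∈ t, (u i / U * (U / u i) ^ κ) * (u i) ^ κ = u i / U * U ^ κ := by
          intro i hi
          rw [mul_assoc, ← Real.mul_rpow (div_nonneg hU0.le (hut i hi).le) (hut i hi).le,
            div_mul_cancel₀ _ (hut i hi).ne']
        rw [Finset.sum_congr rfl this, ← Finset.sum_mul, ← Finset.sum_div, ← hUdef,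
          div_self hU0.ne', one_mul]
    _ ≤ _ := by
        refine Finset.sum_le_sum fun i hi => ?_
        refine mul_le_mul_of_nonneg_left (h i (hts hi)) ?_
        exact mul_nonneg (div_nonneg (hut i hi).le hU0.le)
          (Real.rpow_nonneg (div_nonneg hU0.le (hut i hi).le) _)

/-- the part of the character outside S -/
noncomputable def ch (S : Finset ℕ) (n : ℕ) (ω : Om) : ℂ :=
  ∏ p ∈ n.primeFactors \ S, zc (ω p) ^ n.factorization p

/-- type of n on S -/
def cd (S D : Finset ℕ) (n : ℕ) : Prop := ∀ p ∈ S, n.factorization p = if p ∈ D then 1 else 0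

instance (S D : Finset ℕ) (n : ℕ) : Decidable (cd S D n) := by unfold cd; infer_instance

noncomputable def AS (N : ℕ) (a : ℕ → ℂ) (S D : Finset ℕ) (ω : Om) : ℂ :=
  ∑ n ∈ Finset.Icc 1 N, if cd S D n then a n * ch S n ω else 0

theorem ch_cont (S : Finset ℕ) (n : ℕ) : Continuous (ch S n) := by
  unfold ch
  have := zc_cont
  fun_prop

theorem AS_cont (N : ℕ) (a : ℕ → ℂ) (S D : Finset ℕ) : Continuous (AS N a S D) := by
  unfold AS
  refine continuous_finsetSum _ fun n _ => ?_
  split_ifs
  · exact continuous_const.mul (ch_cont S n)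
  · exact continuous_const

theorem ch_update {S : Finset ℕ} {q : ℕ} (hq : q ∉ S) (n : ℕ) (ω : Om) (x : UnitAddCircle) :
    ch S n (Function.update ω q x) = ch (insert q S) n ω * zc x ^ n.factorization q := by
  unfold ch
  by_cases h : q ∈ n.primeFactors
  · have h1 : n.primeFactors \ S = insert q (n.primeFactors \ insert q S) := by
      ext p
      simp only [Finset.mem_sdiff, Finset.mem_insert]
      constructor
      · rintro ⟨h1, h2⟩
        by_cases h3 : p = q
        · exact Or.inl h3
        · exact Or.inr ⟨h1, fun h4 => h4.elim h3 h2⟩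
      · rintro (rfl | ⟨h1, h2⟩)
        · exact ⟨h, hq⟩
        · exact ⟨h1, fun h4 => h2 (Or.inr h4)⟩
    rw [h1, Finset.prod_insert (by simp), Function.update_self, mul_comm]
    congr 1
    refine Finset.prod_congr rfl fun p hp => ?_
    rw [Function.update_of_ne]
    rintro rfl
    simp at hp
  · have h1 : n.primeFactors \ S = n.primeFactors \ insert q S := by
      ext p
      simp only [Finset.mem_sdiff, Finset.mem_insert]
      constructor
      · rintro ⟨h1, h2⟩
        refine ⟨h1, ?_⟩
        rintro (rfl | h4)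
        · exact h h1
        · exact h2 h4
      · rintro ⟨h1, h2⟩
        exact ⟨h1, fun h4 => h2 (Or.inr h4)⟩
    have h2 : n.factorization q = 0 :=
      Finsupp.notMem_support_iff.mp (by rw [Nat.support_factorization]; exact h)
    rw [h1, h2, pow_zero, mul_one]
    refine Finset.prod_congr rfl fun p hp => ?_
    rw [Function.update_of_ne]
    rintro rfl
    simp at hp

/-- the polynomial in the new variable -/
noncomputable def QS (N : ℕ) (a : ℕ → ℂ) (S D : Finset ℕ) (q : ℕ) (ω : Om) : Polynomial ℂ :=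
  ∑ n ∈ Finset.Icc 1 N, if cd S D n then
    Polynomial.monomial (n.factorization q) (a n * ch (insert q S) n ω) else 0

theorem QS_eval (N : ℕ) (a : ℕ → ℂ) {S : Finset ℕ} (D : Finset ℕ) {q : ℕ} (hq : q ∉ S) (ω : Om)
    (x : UnitAddCircle) : (QS N a S D q ω).eval (zc x) = AS N a S D (Function.update ω q x) := by
  unfold QS AS
  rw [Polynomial.eval_finsetSum]
  refine Finset.sum_congr rfl fun n _ => ?_
  split_ifs
  · rw [Polynomial.eval_monomial, ch_update hq]
    ring
  · simp

theorem QS_coeff0 (N : ℕ) (a : ℕ → ℂ) {S D : Finset ℕ} {q : ℕ} (hq : q ∉ D) (ω : Om) :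
    (QS N a S D q ω).coeff 0 = AS N a (insert q S) D ω := by
  unfold QS AS
  rw [Polynomial.finsetSum_coeff]
  refine Finset.sum_congr rfl fun n _ => ?_
  have h1 : cd (insert q S) D n ↔ n.factorization q = 0 ∧ cd S D n := by
    unfold cd
    rw [Finset.forall_mem_insert, if_neg hq]
  by_cases h2 : cd S D n
  · rw [if_pos h2, Polynomial.coeff_monomial]
    by_cases h3 : n.factorization q = 0
    · rw [if_pos h3, if_pos (h1.mpr ⟨h3, h2⟩)]
    · rw [if_neg h3, if_neg fun h => h3 (h1.mp h).1]
  · rw [if_neg h2, if_neg fun h => h2 (h1.mp h).2]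
    simp

theorem QS_coeff1 (N : ℕ) (a : ℕ → ℂ) {S D : Finset ℕ} {q : ℕ} (hq : q ∉ S) (ω : Om) :
    (QS N a S D q ω).coeff 1 = AS N a (insert q S) (insert q D) ω := by
  unfold QS AS
  rw [Polynomial.finsetSum_coeff]
  refine Finset.sum_congr rfl fun n _ => ?_
  have h1 : cd (insert q S) (insert q D) n ↔ n.factorization q = 1 ∧ cd S D n := by
    unfold cd
    rw [Finset.forall_mem_insert, if_pos (Finset.mem_insert_self _ _)]
    refine and_congr_right fun _ => forall₂_congr fun p hp => ?_
    have hpq : p ≠ q := by rintro rfl; exact hq hp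
    by_cases hpD : p ∈ D
    · rw [if_pos (Finset.mem_insert_of_mem hpD), if_pos hpD]
    · rw [if_neg (by rw [Finset.mem_insert]; exact fun h => h.elim hpq hpD), if_neg hpD]
  by_cases h2 : cd S D n
  · rw [if_pos h2, Polynomial.coeff_monomial]
    by_cases h3 : n.factorization q = 1
    · rw [if_pos h3, if_pos (h1.mpr ⟨h3, h2⟩)]
    · rw [if_neg h3, if_neg fun h => h3 (h1.mp h).1]
  · rw [if_neg h2, if_neg fun h => h2 (h1.mp h).2]
    simp

noncomputable def Phi (N : ℕ) (a : ℕ → ℂ) (κ : ℝ) (S : Finset ℕ) (ω : Om) : ℝ :=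
  ∑ D ∈ S.powerset, κ ^ D.card * ‖AS N a S D ω‖ ^ 2

theorem Phi_cont (N : ℕ) (a : ℕ → ℂ) (κ : ℝ) (S : Finset ℕ) : Continuous (Phi N a κ S) := by
  unfold Phi
  refine continuous_finsetSum _ fun D _ => ?_
  exact continuous_const.mul ((AS_cont N a S D).norm.pow 2)

theorem Phi_insert (N : ℕ) (a : ℕ → ℂ) (κ : ℝ) {S : Finset ℕ} {q : ℕ} (hq : q ∉ S) (ω : Om) :
    Phi N a κ (insert q S) ω = ∑ D ∈ S.powerset, κ ^ D.card *
      (‖(QS N a S D q ω).coeff 0‖ ^ 2 + κ * ‖(QS N a S D q ω).coeff 1‖ ^ 2) := by
  unfold Phi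
  rw [Finset.sum_powerset_insert hq, ← Finset.sum_add_distrib]
  refine Finset.sum_congr rfl fun D hD => ?_
  have hqD : q ∉ D := fun h => hq (Finset.mem_powerset.mp hD h)
  rw [QS_coeff0 N a hqD, QS_coeff1 N a hq, Finset.card_insert_of_notMem hqD]
  ring

theorem step (hBW1 : S_BW1) (N : ℕ) (a : ℕ → ℂ) {p : ℝ} (hp : 0 < p) (hp2 : p ≤ 2)
    {S : Finset ℕ} {q : ℕ} (hq : q ∉ S) (ω : Om) :
    (Phi N a (p / 2) (insert q S) ω) ^ (p / 2) ≤
      ∫ x : UnitAddCircle, (Phi N a (p / 2) S (Function.update ω q x)) ^ (p / 2) := by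
  have hκ : 0 < p / 2 := by positivity
  have hκ1 : p / 2 ≤ 1 := by linarith
  rw [Phi_insert N a _ hq]
  have h1 : ∀ x : UnitAddCircle, Phi N a (p / 2) S (Function.update ω q x) =
      ∑ D ∈ S.powerset, (p / 2) ^ D.card * ‖(QS N a S D q ω).eval (zc x)‖ ^ 2 := by
    intro x
    unfold Phi
    refine Finset.sum_congr rfl fun D _ => ?_
    rw [QS_eval N a D hq]
  simp only [h1]
  have hzc := zc_cont
  refine rev_mink _ hκ hκ1 _ (fun D x => (p / 2) ^ D.card * ‖(QS N a S D q ω).eval (zc x)‖ ^ 2)
    ?_ ?_ ?_ ?_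
  · intro D _
    refine continuous_const.mul (Continuous.pow (Continuous.norm ?_) 2)
    exact (Polynomial.continuous _).comp hzc
  · intro D _ x
    positivity
  · intro D _
    positivity
  · intro D _
    have h2 := hBW1 p hp hp2 (QS N a S D q ω)
    rw [Real.mul_rpow (by positivity) (by positivity)]
    have h3 : ∀ x : UnitAddCircle, ((p / 2) ^ D.card * ‖(QS N a S D q ω).eval (zc x)‖ ^ 2) ^ (p / 2) =
        ((p / 2) ^ D.card) ^ (p / 2) * ‖(QS N a S D q ω).eval (zc x)‖ ^ p := by
      intro x
      rw [Real.mul_rpow (by positivity) (by positivity)]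
      congr 1
      rw [← Real.rpow_natCast, ← Real.rpow_mul (norm_nonneg _)]
      congr 1
      push_cast
      ring
    simp only [h3]
    rw [integral_const_mul]
    exact mul_le_mul_of_nonneg_left h2 (by positivity)

theorem all (hBW1 : S_BW1) (hMIX : S_MIX) (N : ℕ) (a : ℕ → ℂ) {p : ℝ} (hp : 0 < p) (hp2 : p ≤ 2)
    (S : Finset ℕ) : ∫ ω : Om, (Phi N a (p / 2) S ω) ^ (p / 2) ∂P ≤
      ∫ ω : Om, ‖∑ n ∈ Finset.Icc 1 N, a n * chi n ω‖ ^ p ∂P := by
  classical
  have hκ : 0 < p / 2 := by positivity
  have hPc : ∀ S : Finset ℕ, Continuous (fun ω : Om => (Phi N a (p / 2) S ω) ^ (p / 2)) :=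
    fun S => (Phi_cont N a _ S).rpow_const fun _ => Or.inr hκ.le
  induction S using Finset.induction_on with
  | empty =>
    refine le_of_eq ?_
    refine integral_congr_ae (Filter.Eventually.of_forall fun ω => ?_)
    simp only [Phi, Finset.powerset_empty, Finset.sum_singleton, Finset.card_empty, pow_zero,
      one_mul]
    have h1 : AS N a ∅ ∅ ω = ∑ n ∈ Finset.Icc 1 N, a n * chi n ω := by
      unfold AS
      refine Finset.sum_congr rfl fun n _ => ?_
      rw [if_pos (by unfold cd; simp)]
      unfold ch chi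
      rw [Finset.sdiff_empty]
    rw [h1, ← Real.rpow_natCast, ← Real.rpow_mul (norm_nonneg _)]
    congr 1
    push_cast
    ring
  | insert q S hq ih =>
    refine le_trans ?_ ih
    rw [coord hMIX q _ (hPc S)]
    refine integral_mono (hint _ _ (hPc _)) ?_ fun ω => step hBW1 N a hp hp2 hq ω
    have h1 : Continuous (Function.uncurry fun (ω : Om) (x : UnitAddCircle) =>
        (Phi N a (p / 2) S (Function.update ω q x)) ^ (p / 2)) := by
      refine (hPc S).comp ?_
      exact continuous_fst.update q continuous_snd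
    have h2 := continuous_parametric_integral_of_continuous (μ := (volume : Measure UnitAddCircle))
      h1 (isCompact_univ)
    refine hint _ _ ?_
    simpa [Measure.restrict_univ] using h2

end Bws

open Bws in
theorem BW (hBW1 : S_BW1) (hMIX : S_MIX) : S_BW := by
  classical
  intro p hp hp2 N a
  have hκ : 0 < p / 2 := by positivity
  set S := (Finset.range (N + 1)).filter Nat.Prime with hS
  refine le_trans ?_ (all hBW1 hMIX N a hp hp2 S)
  have h1 : ∀ ω : Om, ∑ n ∈ (Finset.Icc 1 N).filter Squarefree,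
      ‖a n‖ ^ 2 * (p / 2) ^ n.primeFactors.card ≤ Phi N a (p / 2) S ω := by
    intro ω
    unfold Phi
    have hsub : ((Finset.Icc 1 N).filter Squarefree).image Nat.primeFactors ⊆ S.powerset := by
      intro D hD
      rw [Finset.mem_image] at hD
      obtain ⟨n, hn, rfl⟩ := hD
      rw [Finset.mem_filter, Finset.mem_Icc] at hn
      rw [Finset.mem_powerset]
      intro q hq
      rw [hS, Finset.mem_filter, Finset.mem_range]
      exact ⟨by have := Nat.le_of_mem_primeFactors hq; omega, Nat.prime_of_mem_primeFactors hq⟩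
    refine le_trans ?_ (Finset.sum_le_sum_of_subset_of_nonneg hsub fun D _ _ => by positivity)
    rw [Finset.sum_image]
    · refine Finset.sum_le_sum fun n hn => ?_
      rw [Finset.mem_filter, Finset.mem_Icc] at hn
      obtain ⟨⟨hn1, hnN⟩, hsq⟩ := hn
      have hfac : ∀ q : ℕ, n.factorization q = if q ∈ n.primeFactors then 1 else 0 := by
        intro q
        split_ifs with h
        · have h2 := hsq.natFactorization_le_one q
          have h3 : n.factorization q ≠ 0 :=
            Finsupp.mem_support_iff.mp (by rw [Nat.support_factorization]; exact h)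
          omega
        · exact Finsupp.notMem_support_iff.mp (by rw [Nat.support_factorization]; exact h)
      have hA : AS N a S n.primeFactors ω = a n := by
        unfold AS
        rw [Finset.sum_eq_single n]
        · rw [if_pos (show cd S n.primeFactors n from fun q _ => hfac q)]
          have : ch S n ω = 1 := by
            unfold ch
            rw [Finset.sdiff_eq_empty_iff_subset.mpr]
            · simp
            · exact Finset.mem_powerset.mp (hsub (Finset.mem_image_of_mem _
                (Finset.mem_filter.mpr ⟨Finset.mem_Icc.mpr ⟨hn1, hnN⟩, hsq⟩)))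
          rw [this, mul_one]
        · intro m hm hmn
          rw [Finset.mem_Icc] at hm
          rw [if_neg]
          intro hcd
          apply hmn
          refine Nat.eq_of_factorization_eq (by omega) (by omega) fun q => ?_
          by_cases hqS : q ∈ S
          · rw [hcd q hqS, ← hfac q]
          · have h0 : ∀ k : ℕ, 1 ≤ k → k ≤ N → k.factorization q = 0 := by
              intro k hk1 hk
              by_contra hne
              have h4 : q ∈ k.primeFactors := by
                rw [← Nat.support_factorization]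
                exact Finsupp.mem_support_iff.mpr hne
              apply hqS
              rw [hS, Finset.mem_filter, Finset.mem_range]
              exact ⟨by have := Nat.le_of_mem_primeFactors h4; omega,
                Nat.prime_of_mem_primeFactors h4⟩
            rw [h0 m hm.1 hm.2, h0 n hn1 hnN]
        · intro h
          exact absurd (Finset.mem_Icc.mpr ⟨hn1, hnN⟩) h
      rw [hA]
      exact le_of_eq (mul_comm _ _)
    · intro m hm n hn hmn
      rw [Finset.mem_coe, Finset.mem_filter] at hm hn
      have h2 := Nat.prod_primeFactors_of_squarefree hm.2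
      have h3 := Nat.prod_primeFactors_of_squarefree hn.2
      rw [← h2, ← h3]
      exact congrArg (fun D : Finset ℕ => ∏ q ∈ D, q) hmn
  have h0 : 0 ≤ ∑ n ∈ (Finset.Icc 1 N).filter Squarefree,
      ‖a n‖ ^ 2 * (p / 2) ^ n.primeFactors.card := Finset.sum_nonneg fun n _ => by positivity
  calc (∑ n ∈ (Finset.Icc 1 N).filter Squarefree,
        ‖a n‖ ^ 2 * (p / 2) ^ n.primeFactors.card) ^ (p / 2) =
      ∫ ω : Om, (∑ n ∈ (Finset.Icc 1 N).filter Squarefree,
        ‖a n‖ ^ 2 * (p / 2) ^ n.primeFactors.card) ^ (p / 2) ∂P := by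
        rw [integral_const]
        simp
    _ ≤ ∫ ω : Om, (Phi N a (p / 2) S ω) ^ (p / 2) ∂P := by
        refine integral_mono (integrable_const _) (hint _ _ ?_) fun ω => ?_
        · exact (Phi_cont N a _ S).rpow_const fun _ => Or.inr hκ.le
        · exact Real.rpow_le_rpow h0 (h1 ω) hκ.le

end PM
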