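import Pool.Agent.H24.PM.Stmts

/-! Bonami-Weissler inequality in one variable, for project PM. -/

namespace PM
open MeasureTheory Complex
open scoped ComplexConjugate

namespace Bw

theorem zc_coe (x : ℝ) : zc (x : UnitAddCircle) = Complex.exp (2 * Real.pi * I * x) := by
  unfold zc
  rw [fourier_coe_apply]
  congr 1
  push_cast
  ring

theorem zc_norm (x : UnitAddCircle) : ‖zc x‖ = 1 := by
  unfold zc
  exact Circle.norm_coe _

theorem zc_cont : Continuous zc := by
  unfold zc
  exact (fourier 1).continuous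

theorem avg_eq {E : Type*} [NormedAddCommGroup E] [NormedSpace ℝ E] (f : ℂ → E) :
    ∫ x : UnitAddCircle, f (zc x) = Real.circleAverage f 0 1 := by
  rw [← UnitAddCircle.intervalIntegral_preimage 0 (fun x : UnitAddCircle => f (zc x))]
  unfold Real.circleAverage
  have h := intervalIntegral.smul_integral_comp_mul_left (a := 0) (b := 1)
    (fun θ : ℝ => f (circleMap 0 1 θ)) (2 * Real.pi)
  rw [mul_zero, mul_one] at h
  rw [← h, smul_smul, inv_mul_cancel₀ (by positivity), one_smul]
  simp only [zero_add]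
  refine intervalIntegral.integral_congr fun θ _ => ?_
  simp only [zc_coe, circleMap]
  congr 1
  push_cast
  rw [zero_add, one_mul]
  congr 1
  ring

/-- analytic function attached to the zeros -/
noncomputable def gg (κ : ℝ) (t : Multiset ℂ) (z : ℂ) : ℂ :=
  (t.map (fun b => (1 - b * z) ^ (κ : ℂ))).prod

theorem gg_zero (κ : ℝ) (t : Multiset ℂ) : gg κ t 0 = 1 := by
  unfold gg
  simp

theorem gg_cons (κ : ℝ) (b : ℂ) (t : Multiset ℂ) :
    gg κ (b ::ₘ t) = fun z => (1 - b * z) ^ (κ : ℂ) * gg κ t z := by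
  funext z
  unfold gg
  rw [Multiset.map_cons, Multiset.prod_cons]

theorem gg_deriv (κ : ℝ) (t : Multiset ℂ) : HasDerivAt (gg κ t) (-(κ : ℂ) * t.sum) 0 := by
  induction t using Multiset.induction_on with
  | empty =>
    have : gg κ 0 = fun _ => 1 := by funext z; simp [gg]
    rw [this, Multiset.sum_zero, mul_zero]
    exact hasDerivAt_const _ _
  | cons b t ih =>
    rw [gg_cons, Multiset.sum_cons]
    have h1 : HasDerivAt (fun z : ℂ => 1 - b * z) (-b) 0 := by
      have := ((hasDerivAt_id (0 : ℂ)).const_mul b).const_sub 1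
      simpa using this
    have h2 := (h1.cpow_const (c := (κ : ℂ)) (by simp)).mul ih
    refine h2.congr_deriv ?_
    rw [gg_zero]
    simp
    ring

theorem gg_diff (κ : ℝ) (t : Multiset ℂ) (U : Set ℂ)
    (hU : ∀ b ∈ t, ∀ z ∈ U, 1 - b * z ∈ slitPlane) : DifferentiableOn ℂ (gg κ t) U := by
  induction t using Multiset.induction_on with
  | empty =>
    have : gg κ 0 = fun _ => 1 := by funext z; simp [gg]
    rw [this]
    exact differentiableOn_const _
  | cons b t ih =>
    rw [gg_cons]
    refine DifferentiableOn.mul ?_ (ih fun c hc => hU c (Multiset.mem_cons_of_mem hc))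
    intro z hz
    have h1 : DifferentiableAt ℂ (fun z : ℂ => 1 - b * z) z := by fun_prop
    exact (h1.cpow (differentiableAt_const _)
      (hU b (Multiset.mem_cons_self _ _) z hz)).differentiableWithinAt

/-- the modulus of the polynomial with given inverse zeros -/
noncomputable def mm (t : Multiset ℂ) (z : ℂ) : ℝ := (t.map (fun b => ‖1 - b * z‖)).prod

theorem gg_norm (κ : ℝ) (t : Multiset ℂ) (z : ℂ) : ‖gg κ t z‖ = (mm t z) ^ κ := by
  induction t using Multiset.induction_on with
  | empty => simp [gg, mm]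
  | cons b t ih =>
    rw [gg_cons, norm_mul, ih, norm_cpow_real]
    unfold mm
    rw [Multiset.map_cons, Multiset.prod_cons, Real.mul_rpow (norm_nonneg _)]
    refine Multiset.prod_nonneg fun a ha => ?_
    rw [Multiset.mem_map] at ha
    obtain ⟨c, _, rfl⟩ := ha
    exact norm_nonneg _

theorem mm_nonneg (t : Multiset ℂ) (z : ℂ) : 0 ≤ mm t z := by
  refine Multiset.prod_nonneg fun a ha => ?_
  rw [Multiset.mem_map] at ha
  obtain ⟨c, _, rfl⟩ := ha
  exact norm_nonneg _

theorem int_zc : ∫ x : UnitAddCircle, zc x = 0 := by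
  have h1 := avg_eq (E := ℂ) (fun z => z)
  rw [h1, DiffContOnCl.circleAverage]
  exact differentiable_id.diffContOnCl

/-- Bessel inequality -/
theorem bessel (G : UnitAddCircle → ℂ) (hG : Continuous G) :
    ‖∫ x : UnitAddCircle, G x‖ ^ 2 + ‖∫ x : UnitAddCircle, G x * conj (zc x)‖ ^ 2 ≤
      ∫ x : UnitAddCircle, ‖G x‖ ^ 2 := by
  set α := ∫ x : UnitAddCircle, G x with hα
  set β := ∫ x : UnitAddCircle, G x * conj (zc x) with hβ
  have hint : ∀ {E : Type} [NormedAddCommGroup E] (f : UnitAddCircle → E), Continuous f →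
      Integrable f := fun f hf => hf.integrable_of_hasCompactSupport
        (HasCompactSupport.of_compactSpace f)
  have h1 : ∀ x : UnitAddCircle, ‖G x - α - β * zc x‖ ^ 2 = ‖G x‖ ^ 2 + (‖α‖ ^ 2 + ‖β‖ ^ 2) -
      2 * (conj α * G x + conj β * (G x * conj (zc x)) - α * conj β * conj (zc x)).re := by
    intro x
    have hz : (zc x).re ^ 2 + (zc x).im ^ 2 = 1 := by
      have := Complex.normSq_eq_norm_sq (zc x)
      rw [zc_norm, Complex.normSq_apply] at this
      nlinarith
    simp only [← Complex.normSq_eq_norm_sq, Complex.normSq_apply, Complex.sub_re, Complex.sub_im,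
      Complex.add_re, Complex.mul_re, Complex.mul_im, Complex.conj_re, Complex.conj_im]
    linear_combination (β.re ^ 2 + β.im ^ 2) * hz
  have i1 : Integrable (fun x : UnitAddCircle => ‖G x‖ ^ 2) := hint _ (by fun_prop)
  have i2 : Integrable (fun x : UnitAddCircle => conj α * G x) := hint _ (by fun_prop)
  have hzc := zc_cont
  have i3 : Integrable (fun x : UnitAddCircle => conj β * (G x * conj (zc x))) :=
    hint _ (by fun_prop)
  have i4 : Integrable (fun x : UnitAddCircle => α * conj β * conj (zc x)) :=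
    hint _ (by fun_prop)
  have h2 : ∫ x : UnitAddCircle, ‖G x - α - β * zc x‖ ^ 2 =
      (∫ x : UnitAddCircle, ‖G x‖ ^ 2) + (‖α‖ ^ 2 + ‖β‖ ^ 2) -
      2 * (conj α * α + conj β * β - 0).re := by
    simp only [h1]
    rw [integral_sub, integral_add i1 (integrable_const _), integral_const, integral_const_mul]
    · congr 1
      · simp
      · congr 1
        have h3 := Complex.reCLM.integral_comp_comm ((i2.add i3).sub i4)
        simp only [Complex.reCLM_apply] at h3
        have h4 : ∫ x : UnitAddCircle, (conj α * G x + conj β * (G x * conj (zc x)) -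
            α * conj β * conj (zc x)) = conj α * α + conj β * β - 0 := by
          have i23 : Integrable (fun x : UnitAddCircle => conj α * G x +
            conj β * (G x * conj (zc x))) := i2.add i3
          rw [integral_sub i23 i4, integral_add i2 i3, integral_const_mul,
            integral_const_mul, integral_const_mul, integral_conj, int_zc, map_zero, mul_zero]
        rw [← h4]
        exact h3
    · exact i1.add (integrable_const _)
    · refine hint _ ?_
      fun_prop
  have h5 : 0 ≤ ∫ x : UnitAddCircle, ‖G x - α - β * zc x‖ ^ 2 :=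
    integral_nonneg fun x => by positivity
  rw [h2] at h5
  have h6 : (conj α * α + conj β * β - 0).re = ‖α‖ ^ 2 + ‖β‖ ^ 2 := by
    simp only [← Complex.normSq_eq_norm_sq, Complex.normSq_apply, Complex.sub_re,
      Complex.add_re, Complex.mul_re, Complex.conj_re, Complex.conj_im, Complex.zero_re]
    ring
  rw [h6] at h5
  linarith

theorem core {κ : ℝ} (hκ : 0 < κ) (hκ1 : κ ≤ 1) (t : Multiset ℂ) {r : ℝ} (hr0 : 0 ≤ r)
    (hr : r < 1) (ht : ∀ b ∈ t, ‖b‖ ≤ r) :
    (1 + κ * ‖t.sum‖ ^ 2) ^ κ ≤ ∫ x : UnitAddCircle, (mm t (zc x)) ^ (2 * κ) := by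
  set U : Set ℂ := {z | r * ‖z‖ < 1} with hU
  have hUo : IsOpen U := isOpen_lt (by fun_prop) continuous_const
  have hUs : Metric.closedBall (0 : ℂ) 1 ⊆ U := by
    intro z hz
    rw [mem_closedBall_zero_iff] at hz
    change r * ‖z‖ < 1
    nlinarith
  have hslit : ∀ b ∈ t, ∀ z ∈ U, 1 - b * z ∈ slitPlane := by
    intro b hb z hz
    have h1 : ‖b * z‖ < 1 := by
      rw [norm_mul]
      exact lt_of_le_of_lt (mul_le_mul_of_nonneg_right (ht b hb) (norm_nonneg _)) hz
    rw [Complex.mem_slitPlane_iff]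
    left
    have h2 := (Complex.abs_re_le_norm (b * z)).trans_lt h1
    rw [Complex.sub_re, Complex.one_re]
    linarith [(abs_lt.mp h2).2]
  have hd : DifferentiableOn ℂ (gg κ t) U := gg_diff κ t U hslit
  have hG : Continuous (fun x : UnitAddCircle => gg κ t (zc x)) := by
    refine hd.continuousOn.comp_continuous zc_cont fun x => hUs ?_
    rw [mem_closedBall_zero_iff, zc_norm]
  have hb := bessel (fun x => gg κ t (zc x)) hG
  have e1 : ∫ x : UnitAddCircle, gg κ t (zc x) = 1 := by
    rw [avg_eq (fun z => gg κ t z), DiffContOnCl.circleAverage, gg_zero]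
    rw [abs_one]
    exact hd.diffContOnCl_ball hUs
  have e2 : ∫ x : UnitAddCircle, gg κ t (zc x) * conj (zc x) = -(κ : ℂ) * t.sum := by
    have h1 : ∀ x : UnitAddCircle, gg κ t (zc x) * conj (zc x) = gg κ t (zc x) * (zc x)⁻¹ := by
      intro x
      rw [Complex.inv_def, Complex.normSq_eq_norm_sq, zc_norm]
      simp
    simp only [h1]
    rw [avg_eq (fun z => gg κ t z * z⁻¹), Real.circleAverage_eq_circleIntegral one_ne_zero]
    have h2 := two_pi_I_inv_smul_circleIntegral_sub_sq_inv_smul_of_differentiable hUo hUs hd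
      (Metric.mem_ball_self one_pos)
    rw [(gg_deriv κ t).deriv] at h2
    rw [← h2]
    congr 1
    refine circleIntegral.integral_congr zero_le_one fun z _ => ?_
    simp only [sub_zero, smul_eq_mul]
    rw [pow_two, mul_inv]
    ring
  rw [e1, e2, norm_one, norm_mul, norm_neg, Complex.norm_real, Real.norm_of_nonneg hκ.le] at hb
  have e3 : ∀ x : UnitAddCircle, ‖gg κ t (zc x)‖ ^ 2 = (mm t (zc x)) ^ (2 * κ) := by
    intro x
    rw [gg_norm, mul_comm 2 κ, Real.rpow_mul (mm_nonneg _ _)]
    norm_cast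
  simp only [e3] at hb
  refine le_trans ?_ hb
  have h3 := rpow_one_add_le_one_add_mul_self (s := κ * ‖t.sum‖ ^ 2)
    (by have : 0 ≤ κ * ‖t.sum‖ ^ 2 := by positivity
        linarith) hκ.le hκ1
  refine h3.trans (le_of_eq ?_)
  ring

theorem mm_cont (t : Multiset ℂ) :
    Continuous (fun q : ℝ × UnitAddCircle => mm (t.map (fun b => (q.1 : ℂ) * b)) (zc q.2)) := by
  have h1 : (fun q : ℝ × UnitAddCircle => mm (t.map (fun b => (q.1 : ℂ) * b)) (zc q.2)) =
      fun q : ℝ × UnitAddCircle => (t.map (fun b => ‖1 - (q.1 : ℂ) * b * zc q.2‖)).prod := by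
    funext q
    unfold mm
    rw [Multiset.map_map]
    rfl
  rw [h1]
  refine continuous_multiset_prod t fun b _ => ?_
  have := zc_cont
  fun_prop

theorem core' {κ : ℝ} (hκ : 0 < κ) (hκ1 : κ ≤ 1) (t : Multiset ℂ) (ht : ∀ b ∈ t, ‖b‖ ≤ 1) :
    (1 + κ * ‖t.sum‖ ^ 2) ^ κ ≤ ∫ x : UnitAddCircle, (mm t (zc x)) ^ (2 * κ) := by
  set L : ℝ → ℝ := fun r => (1 + κ * ‖(t.map (fun b => (r : ℂ) * b)).sum‖ ^ 2) ^ κ with hL
  set M : ℝ → ℝ := fun r => ∫ x : UnitAddCircle,
    (mm (t.map (fun b => (r : ℂ) * b)) (zc x)) ^ (2 * κ) with hM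
  have hMc : Continuous M := by
    have h1 : Continuous (Function.uncurry fun (r : ℝ) (x : UnitAddCircle) =>
        (mm (t.map (fun b => (r : ℂ) * b)) (zc x)) ^ (2 * κ)) := by
      refine Continuous.rpow_const (mm_cont t) fun q => Or.inr (by positivity)
    have h2 := continuous_parametric_integral_of_continuous (μ := (volume : Measure UnitAddCircle))
      h1 (isCompact_univ)
    simpa [Measure.restrict_univ] using h2
  have hLc : Continuous L := by
    have h1 : ∀ r : ℝ, (t.map (fun b => (r : ℂ) * b)).sum = (r : ℂ) * t.sum := by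
      intro r
      rw [Multiset.sum_map_mul_left, Multiset.map_id']
    simp only [hL, h1]
    refine Continuous.rpow_const (by fun_prop) fun q => Or.inr hκ.le
  have hcl : IsClosed {r : ℝ | L r ≤ M r} := isClosed_le hLc hMc
  have hsub : Set.Ico (0 : ℝ) 1 ⊆ {r : ℝ | L r ≤ M r} := by
    intro r hr
    refine core hκ hκ1 _ hr.1 hr.2 ?_
    intro b hb
    rw [Multiset.mem_map] at hb
    obtain ⟨c, hc, rfl⟩ := hb
    rw [norm_mul, Complex.norm_real, Real.norm_of_nonneg hr.1]
    have := mul_le_mul_of_nonneg_left (ht c hc) hr.1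
    linarith
  have h1 : (1 : ℝ) ∈ {r : ℝ | L r ≤ M r} := by
    have h2 := hcl.closure_subset_iff.mpr hsub
    rw [closure_Ico (by norm_num)] at h2
    exact h2 ⟨by norm_num, le_refl _⟩
  have h3 : t.map (fun b => ((1 : ℝ) : ℂ) * b) = t := by simp
  have h4 : L 1 ≤ M 1 := h1
  simp only [hL, hM] at h4
  rw [h3] at h4
  exact h4

/-- the functional -/
noncomputable def Ph (κ : ℝ) (Q : Polynomial ℂ) : ℝ := ‖Q.coeff 0‖ ^ 2 + κ * ‖Q.coeff 1‖ ^ 2

theorem one_step {κ : ℝ} (hκ : 0 ≤ κ) (hκ1 : κ ≤ 1) (H : Polynomial ℂ) {a : ℂ} (ha : ‖a‖ ≤ 1) :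
    Ph κ (H * (Polynomial.X - Polynomial.C a)) ≤
      Ph κ (H * (1 - Polynomial.C (conj a) * Polynomial.X)) := by
  have e1 : (H * (Polynomial.X - Polynomial.C a)).coeff 0 = -(a * H.coeff 0) := by
    rw [mul_sub, Polynomial.coeff_sub, Polynomial.coeff_mul_X_zero, Polynomial.coeff_mul_C]
    ring
  have e2 : (H * (Polynomial.X - Polynomial.C a)).coeff 1 = H.coeff 0 - a * H.coeff 1 := by
    rw [mul_sub, Polynomial.coeff_sub, Polynomial.coeff_mul_X, Polynomial.coeff_mul_C]
    ring
  have e3 : (H * (1 - Polynomial.C (conj a) * Polynomial.X)).coeff 0 = H.coeff 0 := by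
    rw [mul_sub, mul_one, Polynomial.coeff_sub, ← mul_assoc, Polynomial.coeff_mul_X_zero, sub_zero]
  have e4 : (H * (1 - Polynomial.C (conj a) * Polynomial.X)).coeff 1 =
      H.coeff 1 - conj a * H.coeff 0 := by
    rw [mul_sub, mul_one, Polynomial.coeff_sub, ← mul_assoc, Polynomial.coeff_mul_X,
      Polynomial.coeff_mul_C]
    ring
  unfold Ph
  rw [e1, e2, e3, e4]
  have ha2 : a.re ^ 2 + a.im ^ 2 ≤ 1 := by
    have h1 := Complex.normSq_eq_norm_sq a
    rw [Complex.normSq_apply] at h1
    nlinarith [norm_nonneg a]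
  simp only [← Complex.normSq_eq_norm_sq, Complex.normSq_apply, Complex.sub_re, Complex.sub_im,
    Complex.neg_re, Complex.neg_im, Complex.mul_re, Complex.mul_im, Complex.conj_re,
    Complex.conj_im]
  have h1 : 0 ≤ (1 - (a.re ^ 2 + a.im ^ 2)) * ((1 - κ) * ((H.coeff 0).re ^ 2 +
      (H.coeff 0).im ^ 2) + κ * ((H.coeff 1).re ^ 2 + (H.coeff 1).im ^ 2)) := by
    refine mul_nonneg (by linarith) (add_nonneg (mul_nonneg (by linarith) (by positivity))
      (by positivity))
  nlinarith [h1]

/-- polynomial with inverse zeros t -/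
noncomputable def pp (t : Multiset ℂ) : Polynomial ℂ :=
  (t.map (fun b => 1 - Polynomial.C b * Polynomial.X)).prod

theorem pp_eval (t : Multiset ℂ) (z : ℂ) : ‖(pp t).eval z‖ = mm t z := by
  unfold pp mm
  induction t using Multiset.induction_on with
  | empty => simp
  | cons b t ih =>
    rw [Multiset.map_cons, Multiset.prod_cons, Polynomial.eval_mul, norm_mul, ih,
      Multiset.map_cons, Multiset.prod_cons]
    simp

theorem pp_coeff (t : Multiset ℂ) : (pp t).coeff 0 = 1 ∧ (pp t).coeff 1 = -t.sum := by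
  unfold pp
  induction t using Multiset.induction_on with
  | empty =>
    simp [Polynomial.coeff_one]
  | cons b t ih =>
    rw [Multiset.map_cons, Multiset.prod_cons, mul_comm, mul_sub, mul_one, Polynomial.coeff_sub,
      Polynomial.coeff_sub, ← mul_assoc, Polynomial.coeff_mul_X_zero, Polynomial.coeff_mul_X,
      Polynomial.coeff_mul_C, ih.1, ih.2, Multiset.sum_cons]
    constructor <;> ring

theorem replace {κ : ℝ} (hκ : 0 ≤ κ) (hκ1 : κ ≤ 1) (s : Multiset ℂ) :
    ∃ (c : ℂ) (t : Multiset ℂ), (∀ b ∈ t, ‖b‖ ≤ 1) ∧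
      (∀ z : ℂ, ‖z‖ = 1 → ‖((s.map (fun a => Polynomial.X - Polynomial.C a)).prod).eval z‖ =
        ‖c‖ * mm t z) ∧
      ∀ H : Polynomial ℂ, Ph κ (H * (s.map (fun a => Polynomial.X - Polynomial.C a)).prod) ≤
        Ph κ (H * (Polynomial.C c * pp t)) := by
  induction s using Multiset.induction_on with
  | empty =>
    refine ⟨1, 0, by simp, ?_, ?_⟩
    · intro z _
      simp [mm]
    · intro H
      simp [pp]
  | cons a s ih =>
    obtain ⟨c, t, h1, h2, h3⟩ := ih
    by_cases ha : ‖a‖ ≤ 1
    · refine ⟨c, conj a ::ₘ t, ?_, ?_, ?_⟩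
      · intro b hb
        rw [Multiset.mem_cons] at hb
        rcases hb with rfl | hb
        · rw [Complex.norm_conj]; exact ha
        · exact h1 b hb
      · intro z hz
        rw [Multiset.map_cons, Multiset.prod_cons, Polynomial.eval_mul, norm_mul, h2 z hz]
        unfold mm
        rw [Multiset.map_cons, Multiset.prod_cons]
        have h4 : ‖Polynomial.eval z (Polynomial.X - Polynomial.C a)‖ = ‖1 - conj a * z‖ := by
          rw [Polynomial.eval_sub, Polynomial.eval_X, Polynomial.eval_C]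
          have h5 : z * conj z = 1 := by
            rw [Complex.mul_conj, Complex.normSq_eq_norm_sq, hz]
            norm_num
          have h6 : 1 - conj a * z = z * conj (z - a) := by
            rw [map_sub, mul_sub, h5]
            ring
          rw [h6, norm_mul, Complex.norm_conj, hz, one_mul]
        rw [h4]
        ring
      · intro H
        rw [Multiset.map_cons, Multiset.prod_cons, ← mul_assoc]
        refine (h3 _).trans ?_
        have h4 := one_step hκ hκ1 (H * (Polynomial.C c * pp t)) ha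
        unfold pp at h4 ⊢
        rw [Multiset.map_cons, Multiset.prod_cons]
        refine le_trans (le_of_eq ?_) (h4.trans (le_of_eq ?_))
        · congr 1; ring
        · congr 1; ring
    · push Not at ha
      have ha0 : a ≠ 0 := by
        rintro rfl
        rw [norm_zero] at ha
        linarith
      refine ⟨-a * c, a⁻¹ ::ₘ t, ?_, ?_, ?_⟩
      · intro b hb
        rw [Multiset.mem_cons] at hb
        rcases hb with rfl | hb
        · rw [norm_inv]
          exact inv_le_one_of_one_le₀ ha.le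
        · exact h1 b hb
      · intro z hz
        rw [Multiset.map_cons, Multiset.prod_cons, Polynomial.eval_mul, norm_mul, h2 z hz]
        unfold mm
        rw [Multiset.map_cons, Multiset.prod_cons]
        have h4 : ‖Polynomial.eval z (Polynomial.X - Polynomial.C a)‖ = ‖a‖ * ‖1 - a⁻¹ * z‖ := by
          rw [Polynomial.eval_sub, Polynomial.eval_X, Polynomial.eval_C, ← norm_mul, mul_sub,
            mul_one, mul_inv_cancel_left₀ ha0, norm_sub_rev]
        rw [h4, norm_mul, norm_neg]
        ring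
      · intro H
        rw [Multiset.map_cons, Multiset.prod_cons, ← mul_assoc]
        refine (h3 _).trans (le_of_eq ?_)
        congr 1
        unfold pp
        rw [Multiset.map_cons, Multiset.prod_cons]
        have h4 : Polynomial.X - Polynomial.C a =
            Polynomial.C (-a) * (1 - Polynomial.C a⁻¹ * Polynomial.X) := by
          rw [mul_sub, mul_one, ← mul_assoc, ← Polynomial.C_mul, neg_mul, mul_inv_cancel₀ ha0]
          simp
          ring
        rw [h4, Polynomial.C_mul]
        ring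

end Bw

open Bw in
theorem BW1 : S_BW1 := by
  intro p hp hp2 Q
  set κ := p / 2 with hκ
  have hκ0 : 0 < κ := by positivity
  have hκ1 : κ ≤ 1 := by rw [hκ]; linarith
  obtain ⟨c, t, h1, h2, h3⟩ := replace hκ0.le hκ1 Q.roots
  have hQ : Q = Polynomial.C Q.leadingCoeff *
      (Multiset.map (fun x => Polynomial.X - Polynomial.C x) Q.roots).prod :=
    (IsAlgClosed.splits Q).eq_prod_roots
  have h4 := h3 (Polynomial.C Q.leadingCoeff)
  rw [← hQ] at h4
  have h5 : Ph κ (Polynomial.C Q.leadingCoeff * (Polynomial.C c * pp t)) =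
      ‖Q.leadingCoeff * c‖ ^ 2 * (1 + κ * ‖t.sum‖ ^ 2) := by
    unfold Ph
    rw [← mul_assoc, ← Polynomial.C_mul, Polynomial.coeff_C_mul, Polynomial.coeff_C_mul,
      (pp_coeff t).1, (pp_coeff t).2]
    simp only [norm_mul, norm_neg, norm_one]
    ring
  rw [h5] at h4
  have h6 : ∀ x : UnitAddCircle, ‖Q.eval (zc x)‖ ^ p =
      ‖Q.leadingCoeff * c‖ ^ p * (mm t (zc x)) ^ (2 * κ) := by
    intro x
    have h7 : ‖Q.eval (zc x)‖ = ‖Q.leadingCoeff * c‖ * mm t (zc x) := by
      conv_lhs => rw [hQ]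
      rw [Polynomial.eval_mul, Polynomial.eval_C, norm_mul, h2 _ (zc_norm x), norm_mul]
      ring
    rw [h7, Real.mul_rpow (norm_nonneg _) (mm_nonneg _ _), show 2 * κ = p by rw [hκ]; ring]
  simp only [h6]
  rw [integral_const_mul]
  have h8 := core' hκ0 hκ1 t h1
  have h9 : ‖Q.leadingCoeff * c‖ ^ p = (‖Q.leadingCoeff * c‖ ^ 2) ^ κ := by
    rw [← Real.rpow_natCast, ← Real.rpow_mul (norm_nonneg _)]
    congr 1
    rw [hκ]
    push_cast
    ring
  calc (‖Q.coeff 0‖ ^ 2 + κ * ‖Q.coeff 1‖ ^ 2) ^ κ ≤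
      (‖Q.leadingCoeff * c‖ ^ 2 * (1 + κ * ‖t.sum‖ ^ 2)) ^ κ :=
        Real.rpow_le_rpow (by positivity) h4 hκ0.le
    _ = (‖Q.leadingCoeff * c‖ ^ 2) ^ κ * (1 + κ * ‖t.sum‖ ^ 2) ^ κ :=
        Real.mul_rpow (by positivity) (by positivity)
    _ ≤ ‖Q.leadingCoeff * c‖ ^ p * ∫ x : UnitAddCircle, (mm t (zc x)) ^ (2 * κ) := by
        rw [h9]
        exact mul_le_mul_of_nonneg_left h8 (by positivity)

end PM
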