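import Pool.Agent.H24.PM.Stmts

/-! The characters chi n: multiplicative, unimodular, continuous, orthonormal. -/

namespace PM
open MeasureTheory Complex

namespace AuxCHI

theorem chi_eq_subset (n : ℕ) (S : Finset ℕ) (hS : n.primeFactors ⊆ S) (ω : Om) :
    chi n ω = ∏ p ∈ S, (zc (ω p)) ^ (n.factorization p) := by
  unfold chi
  refine Finset.prod_subset hS (fun p _ hp => ?_)
  have : n.factorization p = 0 := by
    rw [← Finsupp.notMem_support_iff, Nat.support_factorization]
    exact hp
  rw [this, pow_zero]

theorem chi_mul' (m n : ℕ) (ω : Om) (hm : m ≠ 0) (hn : n ≠ 0) :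
    chi (m * n) ω = chi m ω * chi n ω := by
  rw [chi_eq_subset (m * n) (m.primeFactors ∪ n.primeFactors) (by rw [Nat.primeFactors_mul hm hn]),
    chi_eq_subset m (m.primeFactors ∪ n.primeFactors) Finset.subset_union_left,
    chi_eq_subset n (m.primeFactors ∪ n.primeFactors) Finset.subset_union_right,
    ← Finset.prod_mul_distrib]
  refine Finset.prod_congr rfl (fun p _ => ?_)
  rw [Nat.factorization_mul hm hn, Finsupp.add_apply, pow_add]

theorem zc_norm (x : UnitAddCircle) : ‖zc x‖ = 1 := by
  unfold zc
  rw [fourier_one]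
  exact Circle.norm_coe _

theorem zc_continuous : Continuous zc := by
  unfold zc
  exact (fourier 1).continuous

theorem chi_norm (n : ℕ) (ω : Om) : ‖chi n ω‖ = 1 := by
  unfold chi
  rw [norm_prod]
  refine Finset.prod_eq_one (fun p _ => ?_)
  rw [norm_pow, zc_norm, one_pow]

theorem chi_continuous (n : ℕ) : Continuous (chi n) := by
  unfold chi
  refine continuous_finsetProd _ (fun p _ => ?_)
  exact (zc_continuous.comp (continuous_apply p)).pow _

theorem zc_pow (x : UnitAddCircle) (a : ℕ) : zc x ^ a = fourier (a : ℤ) x := by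
  unfold zc
  induction a with
  | zero => simp
  | succ k ih =>
    rw [pow_succ, ih, ← fourier_add]
    push_cast
    rfl

theorem integral_zc (a b : ℕ) :
    ∫ x : UnitAddCircle, zc x ^ a * (starRingEnd ℂ) (zc x ^ b) = if a = b then 1 else 0 := by
  have h1 : ∀ x : UnitAddCircle, zc x ^ a * (starRingEnd ℂ) (zc x ^ b) =
      fourier ((a : ℤ) + -(b : ℤ)) x := by
    intro x
    rw [zc_pow, zc_pow, ← fourier_neg, ← fourier_add]
  simp_rw [h1]
  split_ifs with h
  · subst h
    simp
  · have hij : (a : ℤ) + -(b : ℤ) ≠ 0 := by omega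
    exact integral_eq_zero_of_add_right_eq_neg (μ := (volume : Measure UnitAddCircle))
      (fourier_add_half_inv_index hij one_pos)

end AuxCHI

open AuxCHI in
theorem CHI (hP : S_PROD) : S_CHI := by
  refine ⟨fun m n ω hm hn => chi_mul' m n ω hm hn, chi_norm, chi_continuous, ?_⟩
  intro m n hm hn
  have h1 : ∀ ω : Om, chi m ω * (starRingEnd ℂ) (chi n ω) =
      ∏ p ∈ m.primeFactors ∪ n.primeFactors,
        (fun (p : ℕ) (x : UnitAddCircle) => zc x ^ (m.factorization p) *
          (starRingEnd ℂ) (zc x ^ (n.factorization p))) p (ω p) := by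
    intro ω
    rw [chi_eq_subset m (m.primeFactors ∪ n.primeFactors) Finset.subset_union_left,
      chi_eq_subset n (m.primeFactors ∪ n.primeFactors) Finset.subset_union_right,
      map_prod, ← Finset.prod_mul_distrib]
  have h3 := hP (m.primeFactors ∪ n.primeFactors)
    (fun (p : ℕ) (x : UnitAddCircle) => zc x ^ (m.factorization p) *
          (starRingEnd ℂ) (zc x ^ (n.factorization p)))
    (fun l _ => (zc_continuous.pow _).mul
    (Complex.continuous_conj.comp (zc_continuous.pow _)))
  rw [integral_congr_ae (Filter.Eventually.of_forall h1), h3]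
  simp_rw [integral_zc]
  split_ifs with h
  · subst h
    simp
  · have h2 : ∃ p ∈ m.primeFactors ∪ n.primeFactors, m.factorization p ≠ n.factorization p := by
      by_contra hcon
      push Not at hcon
      apply h
      refine Nat.eq_of_factorization_eq hm hn (fun p => ?_)
      by_cases hp : p ∈ m.primeFactors ∪ n.primeFactors
      · exact hcon p hp
      · rw [Finset.mem_union, not_or] at hp
        rw [← Nat.support_factorization, ← Nat.support_factorization,
          Finsupp.notMem_support_iff, Finsupp.notMem_support_iff] at hp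
        rw [hp.1, hp.2]
    obtain ⟨p, hp, hne⟩ := h2
    exact Finset.prod_eq_zero hp (if_neg hne)

end PM
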