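import Pool.Agent.H24.PM.Stmts

set_option autoImplicit false

namespace PM
open MeasureTheory Complex

private theorem cir_prs {u v : ℝ} {l : ℕ} (h : l ∈ PrS u v) (hv : 0 ≤ v) :
    l.Prime ∧ u < l ∧ (l : ℝ) ≤ v := by
  unfold PrS at h
  rw [Finset.mem_filter, Finset.mem_range] at h
  refine ⟨h.2.1, h.2.2, ?_⟩
  have : l ≤ ⌊v⌋₊ := by omega
  exact (Nat.cast_le.2 this).trans (Nat.floor_le hv)

theorem CIR (hSUP : S_SUP) (hSHIFT : S_SHIFT) (hM1 : S_M1) (hCONT : S_CONT) : S_CIR := by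
  intro γ p0 hg M
  obtain ⟨c, C, hc, hC, hM⟩ := hM1 γ p0 hg M
  refine ⟨2 * C, by positivity, ?_⟩
  intro u v a σ0 t0 δ hu huv hδ hsd ha haM
  have hp0 : 4 * Real.exp 16 ≤ (p0 : ℝ) := hg.1
  have hp0' : 0 < (p0 : ℝ) := by
    have := Real.exp_pos 16
    linarith
  have hv0 : 0 < v := by linarith
  have hlogv : 16 < Real.log v := by
    rw [Real.lt_log_iff_exp_lt hv0]
    have := Real.exp_pos 16
    linarith
  have hsmall : |σ0| + 2 * δ < 1 / 2 := by
    by_contra hn
    push Not at hn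
    nlinarith
  have hprime : ∀ l ∈ PrS u v, l.Prime := fun l hl => (cir_prs hl hv0.le).1
  have hPA : PA p0 (PrS u v) := by
    intro l hl
    obtain ⟨h1, h2, h3⟩ := cir_prs hl hv0.le
    refine ⟨h1, ?_⟩
    have : (p0 : ℝ) < l := by linarith
    exact_mod_cast this
  have hsd' : ∀ l ∈ PrS u v, (|σ0| + 2 * δ) * Real.log l ≤ 8 := by
    intro l hl
    obtain ⟨h1, h2, h3⟩ := cir_prs hl hv0.le
    refine le_trans ?_ hsd
    apply mul_le_mul_of_nonneg_left _ (by positivity)
    exact Real.log_le_log (by linarith) h3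
  have hcosb : ∀ θ : ℝ, |σ0 + 2 * δ * Real.cos θ| ≤ |σ0| + 2 * δ := by
    intro θ
    have h1 := Real.abs_cos_le_one θ
    calc |σ0 + 2 * δ * Real.cos θ| ≤ |σ0| + |2 * δ * Real.cos θ| := abs_add_le _ _
      _ = |σ0| + 2 * δ * |Real.cos θ| := by
        rw [abs_mul, abs_of_pos (by positivity : (0:ℝ) < 2 * δ)]
      _ ≤ |σ0| + 2 * δ * 1 := by
        have := mul_le_mul_of_nonneg_left h1 (by positivity : (0:ℝ) ≤ 2 * δ)
        linarith
      _ = _ := by ring
  -- continuity
  have hf : ∀ t0 : ℝ, Continuous (fun q : Om × ℝ =>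
      ‖F γ (PrS u v) (σ0 + 2 * δ * Real.cos q.2) (t0 + 2 * δ * Real.sin q.2) q.1‖ ^ a) := by
    intro t0
    have h1 := hCONT γ (PrS u v) hprime
    have h2a : Continuous (fun q : Om × ℝ => σ0 + 2 * δ * Real.cos q.2) :=
      continuous_const.add (continuous_const.mul (Real.continuous_cos.comp continuous_snd))
    have h2b : Continuous (fun q : Om × ℝ => t0 + 2 * δ * Real.sin q.2) :=
      continuous_const.add (continuous_const.mul (Real.continuous_sin.comp continuous_snd))
    have h2 : Continuous (fun q : Om × ℝ =>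
        ((σ0 + 2 * δ * Real.cos q.2, t0 + 2 * δ * Real.sin q.2, q.1) : ℝ × ℝ × Om)) :=
      h2a.prodMk (h2b.prodMk continuous_fst)
    have hmem : ∀ q : Om × ℝ, ((σ0 + 2 * δ * Real.cos q.2, t0 + 2 * δ * Real.sin q.2, q.1) :
        ℝ × ℝ × Om) ∈ {q : ℝ × ℝ × Om | -(1 / 2) < q.1} := by
      intro q
      have := (abs_le.1 (hcosb q.2)).1
      rw [Set.mem_ofPred_eq]
      linarith
    have h3 := h1.comp_continuous h2 hmem
    exact h3.norm.rpow_const (fun _ => Or.inr ha.le)
  have hfU : Continuous (U γ (PrS u v) a σ0 t0 δ) := by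
    have h1 : Continuous (fun ω : Om => ∫ θ in (0 : ℝ)..(2 * Real.pi),
        ‖F γ (PrS u v) (σ0 + 2 * δ * Real.cos θ) (t0 + 2 * δ * Real.sin θ) ω‖ ^ a) :=
      intervalIntegral.continuous_parametric_intervalIntegral_of_continuous'
        (f := fun (ω : Om) (θ : ℝ) =>
          ‖F γ (PrS u v) (σ0 + 2 * δ * Real.cos θ) (t0 + 2 * δ * Real.sin θ) ω‖ ^ a)
        (hf t0) 0 (2 * Real.pi)
    exact continuous_const.mul h1
  have hU0 : ∀ ω, 0 ≤ U γ (PrS u v) a σ0 t0 δ ω := by
    intro ω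
    unfold U
    apply mul_nonneg (by positivity)
    apply intervalIntegral.integral_nonneg (by positivity)
    intro θ _
    positivity
  refine ⟨hfU.measurable, ?_, ?_, ?_, ?_⟩
  · obtain ⟨B, hB⟩ := (isCompact_univ (X := Om)).exists_bound_of_continuousOn hfU.continuousOn
    refine ⟨B, fun ω => ⟨hU0 ω, ?_⟩⟩
    have := hB ω (Set.mem_univ _)
    rw [Real.norm_eq_abs] at this
    exact (le_abs_self _).trans this
  · intro σ t ω h
    exact hSUP γ p0 hg (PrS u v) hPA a σ0 t0 δ ha hδ hsd' σ t h ω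
  · intro t1
    obtain ⟨s, hs⟩ := hSHIFT (t1 - t0)
    refine ⟨s, fun ω => ?_⟩
    unfold U
    congr 1
    apply intervalIntegral.integral_congr
    intro θ _
    have e : F γ (PrS u v) (σ0 + 2 * δ * Real.cos θ) (t1 + 2 * δ * Real.sin θ) ω =
        F γ (PrS u v) (σ0 + 2 * δ * Real.cos θ) (t0 + 2 * δ * Real.sin θ) (ω + s) := by
      unfold F
      apply Finset.prod_congr rfl
      intro l hl
      rw [← hs l (hprime l hl).pos]
      congr 2
      ring
    simp only [e]
  · have hint : Integrable (fun q : Om × ℝ =>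
        ‖F γ (PrS u v) (σ0 + 2 * δ * Real.cos q.2) (t0 + 2 * δ * Real.sin q.2) q.1‖ ^ a)
        (P.prod (volume.restrict (Set.Ioc 0 (2 * Real.pi)))) := by
      obtain ⟨B, hB⟩ := ((isCompact_univ (X := Om)).prod
        (isCompact_Icc (a := (0:ℝ)) (b := 2 * Real.pi))).exists_bound_of_continuousOn
        (hf t0).continuousOn
      refine Integrable.of_bound (hf t0).aestronglyMeasurable B ?_
      have h1 : ∀ᵐ q ∂(P.prod (volume.restrict (Set.Ioc 0 (2 * Real.pi)))),
          q ∈ (Set.univ : Set Om) ×ˢ Set.Ioc (0:ℝ) (2 * Real.pi) := by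
        have h2 : P.prod (volume.restrict (Set.Ioc 0 (2 * Real.pi))) =
            (P.prod volume).restrict ((Set.univ : Set Om) ×ˢ Set.Ioc (0:ℝ) (2 * Real.pi)) := by
          rw [← Measure.prod_restrict, Measure.restrict_univ]
        rw [h2]
        exact ae_restrict_mem (MeasurableSet.univ.prod measurableSet_Ioc)
      filter_upwards [h1] with q hq
      exact hB q ⟨hq.1, Set.Ioc_subset_Icc_self hq.2⟩
    have hsw := integral_integral_swap (f := fun (ω : Om) (θ : ℝ) =>
      ‖F γ (PrS u v) (σ0 + 2 * δ * Real.cos θ) (t0 + 2 * δ * Real.sin θ) ω‖ ^ a) hint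
    unfold U
    rw [integral_const_mul]
    simp_rw [intervalIntegral.integral_of_le (by positivity : (0:ℝ) ≤ 2 * Real.pi)]
    rw [hsw]
    have hle : ∀ θ : ℝ, ∫ ω : Om,
        ‖F γ (PrS u v) (σ0 + 2 * δ * Real.cos θ) (t0 + 2 * δ * Real.sin θ) ω‖ ^ a ∂P ≤
        C * (Real.log v / Real.log u) ^ ((al γ) ^ 2 * a ^ 2 / 4) := by
      intro θ
      refine (hM u v _ _ a hu huv ?_ ha.le haM).2
      refine le_trans ?_ hsd
      exact mul_le_mul_of_nonneg_right (hcosb θ) (by linarith)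
    have h4 : ∫ θ in Set.Ioc 0 (2 * Real.pi), ∫ ω : Om,
        ‖F γ (PrS u v) (σ0 + 2 * δ * Real.cos θ) (t0 + 2 * δ * Real.sin θ) ω‖ ^ a ∂P ≤
        ∫ θ in Set.Ioc 0 (2 * Real.pi), C * (Real.log v / Real.log u) ^ ((al γ) ^ 2 * a ^ 2 / 4) := by
      apply integral_mono_of_nonneg
      · exact Filter.Eventually.of_forall fun θ => integral_nonneg fun ω => by positivity
      · exact integrableOn_const measure_Ioc_lt_top.ne
      · exact Filter.Eventually.of_forall hle
    have h5 : ∫ θ in Set.Ioc 0 (2 * Real.pi), C * (Real.log v / Real.log u) ^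
        ((al γ) ^ 2 * a ^ 2 / 4) = 2 * Real.pi * (C * (Real.log v / Real.log u) ^
        ((al γ) ^ 2 * a ^ 2 / 4)) := by
      rw [setIntegral_const, Measure.real, Real.volume_Ioc, sub_zero,
        ENNReal.toReal_ofReal (by positivity), smul_eq_mul]
    rw [h5] at h4
    calc 1 / Real.pi * _ ≤ 1 / Real.pi * (2 * Real.pi * (C * (Real.log v / Real.log u) ^
        ((al γ) ^ 2 * a ^ 2 / 4))) := mul_le_mul_of_nonneg_left h4 (by positivity)
      _ = _ := by
        have := Real.pi_pos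
        field_simp

end PM
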