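import Pool.Agent.H24.PM.Stmts

namespace PM
open MeasureTheory Complex

lemma cnd_chi_dep (A : Set ℕ) (r : ℕ) (hr : ∀ l ∈ r.primeFactors, l ∉ A) (q : Om × Om) :
    chi r (mix A q) = chi r q.2 := by
  unfold chi
  apply Finset.prod_congr rfl
  intro l hl
  simp [mix, hr l hl]

lemma cnd_c_dep (A : Set ℕ) (c : Om → ℂ) (hc : DepOn A c) (q : Om × Om) :
    c (mix A q) = c q.1 := hc _ _ (fun l hl => by simp [mix, hl])

lemma cnd_int_cont {g : Om → ℝ} (hg : Continuous g) : Integrable g P := by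
  apply BoundedContinuousFunction.integrable P (BoundedContinuousFunction.mkOfCompact ⟨g, hg⟩)

lemma cnd_int_contC {g : Om → ℂ} (hg : Continuous g) : Integrable g P := by
  apply BoundedContinuousFunction.integrable P (BoundedContinuousFunction.mkOfCompact ⟨g, hg⟩)

lemma cnd_fub (hM : S_MIX) (A : Set ℕ) (g : Om → ℝ) (hg : Continuous g) :
    ∫ ω : Om, g ω ∂P = ∫ ω1 : Om, ∫ ω2 : Om, g (mix A (ω1, ω2)) ∂P ∂P := by
  have h := hM A
  have h1 : ∫ ω : Om, g ω ∂P = ∫ q : Om × Om, g (mix A q) ∂(P.prod P) := by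
    have h2 := integral_map (μ := P.prod P) (φ := mix A) h.aemeasurable (f := g)
      (by rw [h.map_eq]; exact hg.aestronglyMeasurable)
    rw [h.map_eq] at h2
    exact h2
  rw [h1]
  exact integral_prod _ ((h.integrable_comp hg.aestronglyMeasurable).mpr (cnd_int_cont hg))

lemma cnd_fub_int (hM : S_MIX) (A : Set ℕ) (g : Om → ℝ) (hg : Continuous g) :
    Integrable (fun ω1 : Om => ∫ ω2 : Om, g (mix A (ω1, ω2)) ∂P) P := by
  have h := hM A
  exact ((h.integrable_comp hg.aestronglyMeasurable).mpr (cnd_int_cont hg)).integral_prod_left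

/-- orthogonality -/
lemma cnd_orth (hC : S_CHI) (R : Finset ℕ) (hR : ∀ r ∈ R, r ≠ 0) (a : ℕ → ℂ) :
    ∫ ω : Om, ‖∑ r ∈ R, a r * chi r ω‖ ^ 2 ∂P = ∑ r ∈ R, ‖a r‖ ^ 2 := by
  obtain ⟨-, -, hcont, horth⟩ := hC
  have h1 : ∀ ω : Om, ((‖∑ r ∈ R, a r * chi r ω‖ ^ 2 : ℝ) : ℂ) =
      ∑ r ∈ R, ∑ s ∈ R, (a r * (starRingEnd ℂ) (a s)) * (chi r ω * (starRingEnd ℂ) (chi s ω)) := by
    intro ω
    rw [← Complex.normSq_eq_norm_sq, ← Complex.mul_conj, map_sum, Finset.sum_mul_sum]
    refine Finset.sum_congr rfl fun r _ => Finset.sum_congr rfl fun s _ => ?_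
    rw [map_mul]; ring
  have h2 : ((∫ ω : Om, ‖∑ r ∈ R, a r * chi r ω‖ ^ 2 ∂P : ℝ) : ℂ) =
      ((∑ r ∈ R, ‖a r‖ ^ 2 : ℝ) : ℂ) := by
    rw [← integral_complex_ofReal]
    simp_rw [h1]
    rw [integral_finset_sum]
    · push_cast
      refine Finset.sum_congr rfl fun r hr => ?_
      rw [integral_finset_sum]
      · have : ∀ s ∈ R, ∫ ω : Om, (a r * (starRingEnd ℂ) (a s)) *
            (chi r ω * (starRingEnd ℂ) (chi s ω)) ∂P =
            if r = s then (a r * (starRingEnd ℂ) (a s)) else 0 := by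
          intro s hs
          rw [integral_const_mul, horth r s (hR r hr) (hR s hs)]
          split_ifs <;> simp
        rw [Finset.sum_congr rfl this, Finset.sum_ite_eq R r]
        simp only [hr, if_true]
        rw [Complex.mul_conj, Complex.normSq_eq_norm_sq]
        push_cast
        rfl
      · intro s _
        apply cnd_int_contC
        exact continuous_const.mul ((hcont r).mul (Complex.continuous_conj.comp (hcont s)))
    · intro r _
      apply cnd_int_contC
      refine continuous_finset_sum _ fun s _ => ?_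
      exact continuous_const.mul ((hcont r).mul (Complex.continuous_conj.comp (hcont s)))
  exact_mod_cast h2

theorem CND (hM : S_MIX) (hC : S_CHI) : S_CND := by
  intro A R c w p hp hp2 hR hc
  have hcont := hC.2.2.1
  have hg : Continuous (fun ω : Om => ‖∑ r ∈ R, (w r : ℂ) * chi r ω * c r ω‖ ^ p) := by
    apply Continuous.rpow_const
    · apply Continuous.norm
      refine continuous_finset_sum _ fun r hr => ?_
      exact (continuous_const.mul (hcont r)).mul (hc r hr).1
    · intro _; right; exact hp.le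
  rw [cnd_fub hM A _ hg]
  apply integral_mono_of_nonneg
  · exact Filter.Eventually.of_forall fun ω => integral_nonneg fun _ => by positivity
  · apply cnd_int_cont
    apply Continuous.rpow_const
    · refine continuous_finset_sum _ fun r hr => ?_
      exact continuous_const.mul ((hc r hr).1.norm.pow 2)
    · intro _; right; positivity
  refine Filter.Eventually.of_forall fun ω1 => ?_
  simp only
  have h1 : ∀ ω2 : Om, ∑ r ∈ R, (w r : ℂ) * chi r (mix A (ω1, ω2)) * c r (mix A (ω1, ω2)) =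
      ∑ r ∈ R, ((w r : ℂ) * c r ω1) * chi r ω2 := by
    intro ω2
    refine Finset.sum_congr rfl fun r hr => ?_
    rw [cnd_chi_dep A r (hR r hr).2, cnd_c_dep A (c r) (hc r hr).2]
    ring
  simp_rw [h1]
  have hX : Continuous (fun ω2 : Om => ‖∑ r ∈ R, ((w r : ℂ) * c r ω1) * chi r ω2‖ ^ 2) := by
    apply Continuous.pow
    apply Continuous.norm
    refine continuous_finset_sum _ fun r hr => ?_
    exact continuous_const.mul (hcont r)
  have h2 : ∀ ω2 : Om, ‖∑ r ∈ R, ((w r : ℂ) * c r ω1) * chi r ω2‖ ^ p =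
      (‖∑ r ∈ R, ((w r : ℂ) * c r ω1) * chi r ω2‖ ^ 2) ^ (p / 2) := by
    intro ω2
    rw [← Real.rpow_natCast, ← Real.rpow_mul (norm_nonneg _)]
    congr 1
    push_cast
    ring
  simp_rw [h2]
  have h3 : ∑ r ∈ R, w r ^ 2 * ‖c r ω1‖ ^ 2 =
      ∫ ω2 : Om, ‖∑ r ∈ R, ((w r : ℂ) * c r ω1) * chi r ω2‖ ^ 2 ∂P := by
    rw [cnd_orth hC R (fun r hr => (hR r hr).1)]
    refine Finset.sum_congr rfl fun r hr => ?_
    rw [norm_mul, mul_pow, Complex.norm_real, Real.norm_eq_abs, sq_abs]
  rw [h3]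
  exact (Real.concaveOn_rpow (by positivity) (by linarith : p / 2 ≤ 1)).le_map_integral
    (Real.continuous_rpow_const (by positivity)).continuousOn isClosed_Ici
    (Filter.Eventually.of_forall fun ω2 => by simp only [Set.mem_Ici]; positivity)
    (cnd_int_cont hX) (cnd_int_cont (hX.rpow_const (fun _ => Or.inr (by positivity))))

end PM
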