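import Pool.Agent.H24.PM.CND

namespace PM
open MeasureTheory Complex

/-- number of divisors is at most 2 to the number of prime factors -/
lemma cnl_card_div (m : ℕ) (hm : m ≠ 0) : m.divisors.card ≤ 2 ^ m.primeFactorsList.length := by
  rw [Nat.card_divisors hm]
  have h1 : m.primeFactorsList.length = ∑ p ∈ m.primeFactors, m.factorization p := by
    rw [← ArithmeticFunction.cardFactors_apply, ArithmeticFunction.cardFactors_eq_sum_factorization]
    rfl
  rw [h1, ← Finset.prod_pow_eq_pow_sum]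
  apply Finset.prod_le_prod'
  intro p _
  exact Nat.succ_le_of_lt (Nat.lt_two_pow_self)

/-- fourth moment bound for polynomials of bounded degree -/
lemma cnl_fourth (hC : S_CHI) (K : ℕ) (R : Finset ℕ)
    (hR : ∀ r ∈ R, r ≠ 0 ∧ r.primeFactorsList.length ≤ K) (a : ℕ → ℂ) :
    ∫ ω : Om, (‖∑ r ∈ R, a r * chi r ω‖ ^ 2) ^ 2 ∂P ≤ 4 ^ K * (∑ r ∈ R, ‖a r‖ ^ 2) ^ 2 := by
  classical
  have hmul := hC.1
  -- the square
  set M : Finset ℕ := (R ×ˢ R).image (fun q => q.1 * q.2) with hM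
  set bb : ℕ → ℂ := fun m => ∑ q ∈ (R ×ˢ R).filter (fun q => q.1 * q.2 = m), a q.1 * a q.2 with hbb
  have hsq : ∀ ω : Om, (∑ r ∈ R, a r * chi r ω) ^ 2 = ∑ m ∈ M, bb m * chi m ω := by
    intro ω
    rw [sq, Finset.sum_mul_sum, ← Finset.sum_product']
    rw [← Finset.sum_fiberwise_of_maps_to (s := R ×ˢ R) (t := M) (g := fun q => q.1 * q.2)
      (fun q hq => Finset.mem_image_of_mem _ hq)]
    refine Finset.sum_congr rfl fun m _ => ?_
    rw [hbb, Finset.sum_mul]
    refine Finset.sum_congr rfl fun q hq => ?_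
    rw [Finset.mem_filter, Finset.mem_product] at hq
    rw [← hq.2, hmul q.1 q.2 ω (hR _ hq.1.1).1 (hR _ hq.1.2).1]
    ring
  have h0 : ∀ m ∈ M, m ≠ 0 := by
    intro m hm
    rw [hM, Finset.mem_image] at hm
    obtain ⟨q, hq, rfl⟩ := hm
    rw [Finset.mem_product] at hq
    exact mul_ne_zero (hR _ hq.1).1 (hR _ hq.2).1
  have h1 : ∀ ω : Om, (‖∑ r ∈ R, a r * chi r ω‖ ^ 2) ^ 2 = ‖∑ m ∈ M, bb m * chi m ω‖ ^ 2 := by
    intro ω
    rw [← hsq ω, norm_pow]
  simp_rw [h1]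
  rw [cnd_orth hC M h0 bb]
  -- Cauchy-Schwarz on each fibre
  have h2 : ∀ m ∈ M, ‖bb m‖ ^ 2 ≤ 4 ^ K *
      ∑ q ∈ (R ×ˢ R).filter (fun q => q.1 * q.2 = m), ‖a q.1‖ ^ 2 * ‖a q.2‖ ^ 2 := by
    intro m hm
    have hm0 := h0 m hm
    have hlen : m.primeFactorsList.length ≤ 2 * K := by
      rw [hM, Finset.mem_image] at hm
      obtain ⟨q, hq, rfl⟩ := hm
      rw [Finset.mem_product] at hq
      have := (Nat.perm_primeFactorsList_mul (hR _ hq.1).1 (hR _ hq.2).1).length_eq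
      rw [this, List.length_append]
      have h3 := (hR _ hq.1).2
      have h4 := (hR _ hq.2).2
      omega
    have hcard : (((R ×ˢ R).filter (fun q => q.1 * q.2 = m)).card : ℝ) ≤ 4 ^ K := by
      have h5 : ((R ×ˢ R).filter (fun q => q.1 * q.2 = m)).card ≤ m.divisors.card := by
        apply Finset.card_le_card_of_injOn (fun q => q.1)
        · intro q hq
          simp only [Finset.coe_filter, Finset.mem_product, Set.mem_ofPred_eq] at hq
          simp only [Finset.mem_coe, Nat.mem_divisors]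
          exact ⟨⟨q.2, hq.2.symm⟩, hm0⟩
        · intro q hq q' hq' h
          simp only [Finset.coe_filter, Finset.mem_product, Set.mem_ofPred_eq] at hq hq'
          have h6 : q.1 = q'.1 := h
          have h7 : q.1 * q.2 = q.1 * q'.2 := by rw [hq.2, h6, hq'.2]
          have h8 : q.2 = q'.2 := Nat.eq_of_mul_eq_mul_left (Nat.pos_of_ne_zero (hR _ hq.1.1).1) h7
          exact Prod.ext h6 h8
      have h9 : m.divisors.card ≤ 4 ^ K := by
        calc m.divisors.card ≤ 2 ^ m.primeFactorsList.length := cnl_card_div m hm0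
          _ ≤ 2 ^ (2 * K) := Nat.pow_le_pow_right (by norm_num) hlen
          _ = 4 ^ K := by rw [pow_mul]; norm_num
      exact_mod_cast h5.trans h9
    calc ‖bb m‖ ^ 2 ≤ (∑ q ∈ (R ×ˢ R).filter (fun q => q.1 * q.2 = m), ‖a q.1 * a q.2‖) ^ 2 := by
          gcongr
          exact norm_sum_le _ _
      _ ≤ (((R ×ˢ R).filter (fun q => q.1 * q.2 = m)).card : ℝ) *
          ∑ q ∈ (R ×ˢ R).filter (fun q => q.1 * q.2 = m), ‖a q.1 * a q.2‖ ^ 2 :=
          sq_sum_le_card_mul_sum_sq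
      _ ≤ 4 ^ K * ∑ q ∈ (R ×ˢ R).filter (fun q => q.1 * q.2 = m), ‖a q.1 * a q.2‖ ^ 2 := by
          gcongr
      _ = _ := by
          congr 1
          refine Finset.sum_congr rfl fun q _ => ?_
          rw [norm_mul, mul_pow]
  calc ∑ m ∈ M, ‖bb m‖ ^ 2 ≤ ∑ m ∈ M, 4 ^ K *
      ∑ q ∈ (R ×ˢ R).filter (fun q => q.1 * q.2 = m), ‖a q.1‖ ^ 2 * ‖a q.2‖ ^ 2 :=
        Finset.sum_le_sum h2
    _ = 4 ^ K * ∑ q ∈ R ×ˢ R, ‖a q.1‖ ^ 2 * ‖a q.2‖ ^ 2 := by
        rw [← Finset.mul_sum]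
        congr 1
        exact Finset.sum_fiberwise_of_maps_to (s := R ×ˢ R) (t := M) (g := fun q => q.1 * q.2)
          (fun q hq => Finset.mem_image_of_mem _ hq) _
    _ = _ := by
        rw [sq (∑ r ∈ R, ‖a r‖ ^ 2), Finset.sum_mul_sum, ← Finset.sum_product']

/-- lower bound of a small moment from the second moment -/
lemma cnl_lower (f : Om → ℝ) (hf : Continuous f) (hf0 : ∀ ω, 0 ≤ f ω) (q B : ℝ) (hq : 0 < q)
    (hq1 : q ≤ 1) (hB : 1 ≤ B) (h2 : ∫ ω : Om, f ω ^ 2 ∂P ≤ B * (∫ ω : Om, f ω ∂P) ^ 2) :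
    (1 / (4 * B)) * (∫ ω : Om, f ω ∂P) ^ q ≤ ∫ ω : Om, f ω ^ q ∂P := by
  set m := ∫ ω : Om, f ω ∂P with hm
  have hm0 : 0 ≤ m := integral_nonneg hf0
  rcases hm0.eq_or_lt with h | hmpos
  · rw [← h, Real.zero_rpow hq.ne', mul_zero]
    exact integral_nonneg fun ω => Real.rpow_nonneg (hf0 ω) _
  -- pointwise inequality
  have hpt : ∀ x : ℝ, 0 ≤ x → (1 / (2 * B)) * (m ^ q * (x / m - (x / m) ^ 2 / (2 * B))) ≤ x ^ q := by
    intro x hx
    set u := x / m with hu
    have hu0 : 0 ≤ u := by positivity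
    have hxu : x = m * u := by rw [hu]; field_simp
    rw [hxu, Real.mul_rpow hm0 hu0]
    have h3 : (1 / (2 * B)) * (u - u ^ 2 / (2 * B)) ≤ u ^ q := by
      rcases le_or_gt u (2 * B) with hle | hgt
      · rcases hu0.eq_or_lt with h0 | hupos
        · rw [← h0]; simp [Real.zero_rpow hq.ne']
        · have h4 : (1 / (2 * B)) * (u - u ^ 2 / (2 * B)) ≤ u / (2 * B) := by
            have : 0 ≤ (1 / (2 * B)) * (u ^ 2 / (2 * B)) := by positivity
            have h5 : (1 / (2 * B)) * (u - u ^ 2 / (2 * B)) =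
              u / (2 * B) - (1 / (2 * B)) * (u ^ 2 / (2 * B)) := by ring
            linarith
          have h6 : u / (2 * B) ≤ (u / (2 * B)) ^ q := by
            have h7 : u / (2 * B) ≤ 1 := by rw [div_le_one (by positivity)]; exact hle
            calc u / (2 * B) = (u / (2 * B)) ^ (1 : ℝ) := (Real.rpow_one _).symm
              _ ≤ (u / (2 * B)) ^ q := Real.rpow_le_rpow_of_exponent_ge (by positivity) h7 hq1
          have h8 : (u / (2 * B)) ^ q ≤ u ^ q := by
            apply Real.rpow_le_rpow (by positivity) _ hq.le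
            rw [div_le_iff₀ (by positivity)]
            nlinarith
          linarith
      · have h9 : u - u ^ 2 / (2 * B) ≤ 0 := by
          have : u ≤ u ^ 2 / (2 * B) := by
            rw [le_div_iff₀ (by positivity)]
            nlinarith
          linarith
        have h10 : (1 / (2 * B)) * (u - u ^ 2 / (2 * B)) ≤ 0 :=
          mul_nonpos_of_nonneg_of_nonpos (by positivity) h9
        exact h10.trans (Real.rpow_nonneg hu0 _)
    calc (1 / (2 * B)) * (m ^ q * (u - u ^ 2 / (2 * B))) =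
        m ^ q * ((1 / (2 * B)) * (u - u ^ 2 / (2 * B))) := by ring
      _ ≤ m ^ q * u ^ q := by gcongr
  have hint : ∫ ω : Om, (1 / (2 * B)) * (m ^ q * (f ω / m - (f ω / m) ^ 2 / (2 * B))) ∂P ≤
      ∫ ω : Om, f ω ^ q ∂P := by
    apply integral_mono
    · apply cnd_int_cont
      fun_prop
    · apply cnd_int_cont
      exact hf.rpow_const (fun _ => Or.inr hq.le)
    · intro ω
      exact hpt (f ω) (hf0 ω)
  refine le_trans ?_ hint
  rw [integral_const_mul, integral_const_mul, integral_sub, integral_div, integral_div]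
  · have h11 : ∫ ω : Om, (f ω / m) ^ 2 ∂P = (∫ ω : Om, f ω ^ 2 ∂P) / m ^ 2 := by
      simp_rw [div_pow]
      rw [integral_div]
    rw [h11, ← hm, div_self hmpos.ne']
    have h12 : (∫ ω : Om, f ω ^ 2 ∂P) / m ^ 2 / (2 * B) ≤ 1 / 2 := by
      rw [div_div, div_le_iff₀ (by positivity)]
      nlinarith
    have h13 : 0 ≤ m ^ q := Real.rpow_nonneg hm0 _
    calc 1 / (4 * B) * m ^ q = (1 / (2 * B)) * (m ^ q * (1 / 2)) := by field_simp; ring
      _ ≤ _ := by
        gcongr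
        linarith
  · exact cnd_int_cont (by fun_prop)
  · exact cnd_int_cont (by fun_prop)

theorem CNL (hM : S_MIX) (hC : S_CHI) : S_CNL := by
  intro K p hp hp2
  refine ⟨1 / (4 * 4 ^ K), by positivity, ?_⟩
  intro A R c w hR hc
  have hcont := hC.2.2.1
  have hg : Continuous (fun ω : Om => ‖∑ r ∈ R, (w r : ℂ) * chi r ω * c r ω‖ ^ p) := by
    apply Continuous.rpow_const
    · apply Continuous.norm
      refine continuous_finsetSum _ fun r hr => ?_
      exact (continuous_const.mul (hcont r)).mul (hc r hr).1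
    · intro _; right; exact hp.le
  rw [cnd_fub hM A _ hg, ← integral_const_mul]
  apply integral_mono_of_nonneg
  · exact Filter.Eventually.of_forall fun ω => by
      simp only [Pi.zero_apply]
      positivity
  · exact cnd_fub_int hM A _ hg
  refine Filter.Eventually.of_forall fun ω1 => ?_
  have h1 : ∀ ω2 : Om, ∑ r ∈ R, (w r : ℂ) * chi r (mix A (ω1, ω2)) * c r (mix A (ω1, ω2)) =
      ∑ r ∈ R, ((w r : ℂ) * c r ω1) * chi r ω2 := by
    intro ω2
    refine Finset.sum_congr rfl fun r hr => ?_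
    rw [cnd_chi_dep A r (hR r hr).2.2, cnd_c_dep A (c r) (hc r hr).2]
    ring
  beta_reduce
  simp_rw [h1]
  have hX : Continuous (fun ω2 : Om => ‖∑ r ∈ R, ((w r : ℂ) * c r ω1) * chi r ω2‖ ^ 2) := by
    apply Continuous.pow
    apply Continuous.norm
    refine continuous_finsetSum _ fun r hr => ?_
    exact continuous_const.mul (hcont r)
  have h2 : ∀ ω2 : Om, ‖∑ r ∈ R, ((w r : ℂ) * c r ω1) * chi r ω2‖ ^ p =
      (‖∑ r ∈ R, ((w r : ℂ) * c r ω1) * chi r ω2‖ ^ 2) ^ (p / 2) := by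
    intro ω2
    rw [← Real.rpow_natCast, ← Real.rpow_mul (norm_nonneg _)]
    congr 1
    push_cast
    ring
  simp_rw [h2]
  have h4 : ∑ r ∈ R, ‖(w r : ℂ) * c r ω1‖ ^ 2 = ∑ r ∈ R, w r ^ 2 * ‖c r ω1‖ ^ 2 := by
    refine Finset.sum_congr rfl fun r hr => ?_
    rw [norm_mul, mul_pow, Complex.norm_real, Real.norm_eq_abs, sq_abs]
  have h3 : ∑ r ∈ R, w r ^ 2 * ‖c r ω1‖ ^ 2 =
      ∫ ω2 : Om, ‖∑ r ∈ R, ((w r : ℂ) * c r ω1) * chi r ω2‖ ^ 2 ∂P := by
    rw [cnd_orth hC R (fun r hr => (hR r hr).1), h4]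
  have h5 := cnl_fourth hC K R (fun r hr => ⟨(hR r hr).1, (hR r hr).2.1⟩)
    (fun r => (w r : ℂ) * c r ω1)
  rw [h4, h3] at h5
  rw [h3]
  exact cnl_lower _ hX (fun _ => by positivity) (p / 2) (4 ^ K) (by positivity) (by linarith)
    (one_le_pow₀ (by norm_num)) h5

end PM
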