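import Pool.Agent.H24.PM.PhiAn

namespace PM
open MeasureTheory Complex

theorem CONT : S_CONT := by
  intro γ A hA
  unfold F
  refine continuousOn_finsetProd _ (fun l hl => ?_)
  intro q hq
  have hlp := hA l hl
  have hn : ‖pt q.1 q.2.1 l q.2.2‖ < 1 := by
    rw [norm_pt hlp.pos]
    refine Real.rpow_lt_one_of_one_lt_of_neg (by exact_mod_cast hlp.one_lt) ?_
    have : -(1 / 2) < q.1 := hq
    linarith
  exact ((phi_contAt γ hn).comp (f := fun q : ℝ × ℝ × Om => pt q.1 q.2.1 l q.2.2)
    (cont_pt hlp.pos).continuousAt).continuousWithinAt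

end PM
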