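import Pool.Agent.H24.PM.PLU

/-! Module CSL: a lower bound of the weighted mean square of the partial sums by one value of the
Euler product. -/

namespace PM
open MeasureTheory Complex

theorem csl_set {n : ℕ} (hn : 1 ≤ n) :
    (Set.Ioi (1 : ℝ) ∩ Set.Ici (n : ℝ) : Set ℝ) =ᵐ[volume] Set.Ioi (n : ℝ) := by
  have hn' : (1 : ℝ) ≤ n := by exact_mod_cast hn
  rw [Filter.eventuallyEq_set]
  have h : ∀ᵐ z : ℝ, z ≠ n := by
    rw [ae_iff]
    simp
  filter_upwards [h] with z hz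
  constructor
  · rintro ⟨_, h2⟩
    exact lt_of_le_of_ne h2 (Ne.symm hz)
  · intro h2
    have h3 : (n : ℝ) < z := h2
    exact ⟨lt_of_le_of_lt hn' h3, h3.le⟩

theorem csl_one {s : ℂ} (hs : 0 < s.re) {n : ℕ} (hn : 1 ≤ n) :
    ∫ z in Set.Ioi (1 : ℝ), Set.indicator (Set.Ici (n : ℝ)) (fun z : ℝ => (z : ℂ) ^ (-s - 1)) z =
      (n : ℂ) ^ (-s) / s := by
  have hn' : (0 : ℝ) < n := by exact_mod_cast hn
  rw [setIntegral_indicator measurableSet_Ici, setIntegral_congr_set (csl_set hn),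
    integral_Ioi_cpow_of_lt (by simp; linarith) hn']
  have hs0 : s ≠ 0 := fun h => by rw [h] at hs; simp at hs
  push_cast
  rw [sub_add_cancel, neg_div_neg_eq]

theorem csl_int {s : ℂ} (hs : 0 < s.re) (n : ℕ) (hn : 1 ≤ n) :
    IntegrableOn (Set.indicator (Set.Ici (n : ℝ)) (fun z : ℝ => (z : ℂ) ^ (-s - 1)))
      (Set.Ioi 1) := by
  refine Integrable.indicator ?_ measurableSet_Ici
  exact integrableOn_Ioi_cpow_of_lt (by simp; linarith) one_pos

theorem csl_norm {s : ℂ} (hs : 0 < s.re) {n : ℕ} (hn : 1 ≤ n) :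
    ∫ z in Set.Ioi (1 : ℝ), ‖Set.indicator (Set.Ici (n : ℝ))
      (fun z : ℝ => (z : ℂ) ^ (-s - 1)) z‖ = (n : ℝ) ^ (-s.re) / s.re := by
  have hn' : (0 : ℝ) < n := by exact_mod_cast hn
  have h1 : ∀ z ∈ Set.Ioi (1 : ℝ), ‖Set.indicator (Set.Ici (n : ℝ))
      (fun z : ℝ => (z : ℂ) ^ (-s - 1)) z‖ =
      Set.indicator (Set.Ici (n : ℝ)) (fun z : ℝ => z ^ (-s.re - 1)) z := by
    intro z hz
    have hz0 : (0 : ℝ) < z := lt_trans one_pos hz
    rw [norm_indicator_eq_indicator_norm]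
    by_cases h : z ∈ Set.Ici (n : ℝ)
    · rw [Set.indicator_of_mem h, Set.indicator_of_mem h,
        Complex.norm_cpow_eq_rpow_re_of_pos hz0]
      simp
    · rw [Set.indicator_of_notMem h, Set.indicator_of_notMem h]
  rw [setIntegral_congr_fun measurableSet_Ioi h1, setIntegral_indicator measurableSet_Ici,
    setIntegral_congr_set (csl_set hn), integral_Ioi_rpow_of_lt (by linarith) hn',
    sub_add_cancel, neg_div_neg_eq]

theorem CSL (hE : S_EUL) (hJ : S_JM) : S_CSL := by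
  intro γ A σ t ω hA hσ
  obtain ⟨s, hsdef⟩ : ∃ s : ℂ, s = ((2 * σ : ℝ) : ℂ) + t * I := ⟨_, rfl⟩
  have hre : s.re = 2 * σ := by rw [hsdef]; simp
  have hs : 0 < s.re := by rw [hre]; linarith
  have hnorm : ‖s‖ ^ 2 = (2 * σ) ^ 2 + t ^ 2 := by
    rw [← Complex.normSq_eq_norm_sq, Complex.normSq_apply, hsdef]
    simp
    ring
  have hs0 : s ≠ 0 := fun h => by rw [h] at hs; simp at hs
  have hspos : 0 < ‖s‖ := norm_pos_iff.2 hs0
  have hF : ∑' n : ℕ, plu_cf γ A ω n * (n : ℂ) ^ (-s) = F γ A (2 * σ) t ω := by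
    rw [hsdef]
    exact plu_F_eq hE γ A ω hA (2 * σ) t (by linarith)
  have hsum0 := plu_summable_cf0 hE γ A ω hA
  obtain ⟨g, hg⟩ : ∃ g : ℕ → ℝ → ℂ, g = fun n z => plu_cf γ A ω n *
      Set.indicator (Set.Ici (n : ℝ)) (fun z : ℝ => (z : ℂ) ^ (-s - 1)) z := ⟨_, rfl⟩
  have hgi : ∀ n, Integrable (g n) (volume.restrict (Set.Ioi 1)) := by
    intro n
    rcases Nat.eq_zero_or_pos n with rfl | hn
    · rw [hg]
      simp only [plu_cf_zero, zero_mul]
      exact integrable_zero _ _ _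
    · rw [hg]
      exact (csl_int hs n hn).const_mul _
  have hgn : ∀ n, ∫ z in Set.Ioi (1 : ℝ), ‖g n z‖ ≤ ‖plu_cf γ A ω n‖ * (1 / s.re) := by
    intro n
    rcases Nat.eq_zero_or_pos n with rfl | hn
    · rw [hg]
      simp [plu_cf_zero]
    · rw [hg]
      simp only [norm_mul]
      rw [integral_const_mul, csl_norm hs hn]
      refine mul_le_mul_of_nonneg_left ?_ (norm_nonneg _)
      refine div_le_div_of_nonneg_right ?_ hs.le
      have hn' : (1 : ℝ) ≤ n := by exact_mod_cast hn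
      exact Real.rpow_le_one_of_one_le_of_nonpos hn' (by linarith)
  have hgs : Summable (fun n => ∫ z in Set.Ioi (1 : ℝ), ‖g n z‖) :=
    Summable.of_nonneg_of_le (fun n => integral_nonneg fun z => norm_nonneg _) hgn
      (hsum0.mul_right _)
  have h1 := hasSum_integral_of_summable_integral_norm hgi hgs
  have h2 : ∀ n, ∫ z in Set.Ioi (1 : ℝ), g n z = plu_cf γ A ω n * (n : ℂ) ^ (-s) / s := by
    intro n
    rcases Nat.eq_zero_or_pos n with rfl | hn
    · rw [hg]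
      simp [plu_cf_zero]
    · rw [hg]
      simp only
      rw [integral_const_mul, csl_one hs hn, mul_div_assoc]
  have h3 : ∀ z : ℝ, 1 < z → ∑' n, g n z = DA γ A z ω * (z : ℂ) ^ (-s - 1) := by
    intro z hz
    rw [hg, plu_DA_eq, Finset.sum_mul]
    simp only
    rw [tsum_eq_sum (s := Finset.Icc 1 ⌊z⌋₊)]
    · refine Finset.sum_congr rfl fun n hn => ?_
      rw [Finset.mem_Icc] at hn
      rw [Set.indicator_of_mem]
      exact (Nat.le_floor_iff (by linarith)).1 hn.2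
    · intro n hn
      rw [Finset.mem_Icc, not_and_or] at hn
      rcases hn with hn | hn
      · have : n = 0 := by omega
        rw [this, plu_cf_zero, zero_mul]
      · rw [Set.indicator_of_notMem, mul_zero]
        intro h
        exact hn (Nat.le_floor h)
  have h4 : F γ A (2 * σ) t ω / s = ∫ z in Set.Ioi (1 : ℝ), DA γ A z ω * (z : ℂ) ^ (-s - 1) := by
    have h5 := h1.tsum_eq
    simp only [h2] at h5
    rw [tsum_div_const, hF] at h5
    rw [h5]
    exact setIntegral_congr_fun measurableSet_Ioi fun z hz => h3 z hz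
  obtain ⟨hJ1, ⟨B, hJ2⟩, hJ3, hJ4⟩ := hJ γ A σ hA (by linarith) hσ.ne'
  have hJD := (hJ4 hσ).2 ω
  have hz := integrableOn_Ioi_rpow_of_lt (a := -1 - 2 * σ) (by linarith) one_pos
  have hzv : ∫ z in Set.Ioi (1 : ℝ), z ^ (-1 - 2 * σ) = 1 / (2 * σ) := by
    rw [integral_Ioi_rpow_of_lt (by linarith) one_pos]
    have : -1 - 2 * σ + 1 = -(2 * σ) := by ring
    rw [this, neg_div_neg_eq, Real.one_rpow]
  have h5 : ∀ μ : ℝ, 0 < μ → ‖F γ A (2 * σ) t ω‖ / ‖s‖ ≤
      (μ * JD γ A σ ω + μ⁻¹ * (1 / (2 * σ))) / 2 := by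
    intro μ hμ
    rw [← norm_div, h4]
    refine (norm_integral_le_integral_norm _).trans ?_
    have h6 : ∫ z in Set.Ioi (1 : ℝ), (μ / 2 * (‖DA γ A z ω‖ ^ 2 * z ^ (-1 - 2 * σ)) +
        μ⁻¹ / 2 * z ^ (-1 - 2 * σ)) = (μ * JD γ A σ ω + μ⁻¹ * (1 / (2 * σ))) / 2 := by
      rw [integral_add (hJD.const_mul _) (hz.const_mul _), integral_const_mul,
        integral_const_mul, hzv]
      unfold JD
      ring
    rw [← h6]
    refine integral_mono_of_nonneg (Filter.Eventually.of_forall fun z => norm_nonneg _)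
      ((hJD.const_mul _).add (hz.const_mul _)) ?_
    refine (ae_restrict_iff' measurableSet_Ioi).2 (Filter.Eventually.of_forall fun z hz1 => ?_)
    have hz0 : (0 : ℝ) < z := lt_trans one_pos hz1
    simp only
    rw [norm_mul, Complex.norm_cpow_eq_rpow_re_of_pos hz0]
    have h7 : (-s - 1).re = -1 - 2 * σ := by
      simp [hre]
      ring
    rw [h7]
    have h8 : 0 ≤ z ^ (-1 - 2 * σ) := Real.rpow_nonneg hz0.le _
    have h9 : ‖DA γ A z ω‖ ≤ μ / 2 * ‖DA γ A z ω‖ ^ 2 + μ⁻¹ / 2 := by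
      have h10 : 0 ≤ (μ * ‖DA γ A z ω‖ - 1) ^ 2 * μ⁻¹ := by positivity
      have h11 : (μ * ‖DA γ A z ω‖ - 1) ^ 2 * μ⁻¹ =
          μ * ‖DA γ A z ω‖ ^ 2 - 2 * ‖DA γ A z ω‖ + μ⁻¹ := by
        field_simp
        ring
      linarith
    calc ‖DA γ A z ω‖ * z ^ (-1 - 2 * σ) ≤
        (μ / 2 * ‖DA γ A z ω‖ ^ 2 + μ⁻¹ / 2) * z ^ (-1 - 2 * σ) :=
          mul_le_mul_of_nonneg_right h9 h8
      _ = _ := by ring
  have hJD0 : 0 ≤ JD γ A σ ω := by
    unfold JD
    refine setIntegral_nonneg measurableSet_Ioi fun z hz1 => ?_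
    have hz0 : (0 : ℝ) < z := lt_trans one_pos hz1
    positivity
  rw [← hnorm]
  rcases (norm_nonneg (F γ A (2 * σ) t ω)).eq_or_lt with h0 | h0
  · rw [← h0]
    simpa using hJD0
  · have hX : 0 < ‖F γ A (2 * σ) t ω‖ / ‖s‖ := div_pos h0 hspos
    obtain ⟨X, hXdef⟩ : ∃ X : ℝ, X = ‖F γ A (2 * σ) t ω‖ / ‖s‖ := ⟨_, rfl⟩
    rw [← hXdef] at hX h5
    have h6 := h5 (1 / (2 * σ * X)) (by positivity)
    have h7 : 2 * σ * ‖F γ A (2 * σ) t ω‖ ^ 2 / ‖s‖ ^ 2 = 2 * σ * X ^ 2 := by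
      rw [hXdef, div_pow]
      ring
    rw [h7]
    have h8 : (1 / (2 * σ * X))⁻¹ * (1 / (2 * σ)) = X := by
      field_simp
    rw [h8] at h6
    have h9 : X ≤ 1 / (2 * σ * X) * JD γ A σ ω := by linarith
    have h10 : X * (2 * σ * X) ≤ JD γ A σ ω := by
      have := mul_le_mul_of_nonneg_left h9 (show (0 : ℝ) ≤ 2 * σ * X by positivity)
      calc X * (2 * σ * X) = 2 * σ * X * X := by ring
        _ ≤ 2 * σ * X * (1 / (2 * σ * X) * JD γ A σ ω) := this
        _ = JD γ A σ ω := by field_simp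
    linarith

end PM
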