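import Pool.Agent.H24.PM.Stmts

/-! Module EUL: the Euler product over the integers composed of primes of a finite set. -/

namespace PM
open MeasureTheory Complex

theorem eul_zc_norm (x : UnitAddCircle) : ‖zc x‖ = 1 := by
  unfold zc
  rw [fourier_apply]
  exact Circle.norm_coe _

theorem eul_chi_one (ω : Om) : chi 1 ω = 1 := by
  simp [chi]

theorem eul_chi_mul {m n : ℕ} (h : Nat.Coprime m n) (ω : Om) :
    chi (m * n) ω = chi m ω * chi n ω := by
  rcases Nat.eq_zero_or_pos m with rfl | hm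
  · have : n = 1 := by simpa using h
    subst this
    simp [chi]
  rcases Nat.eq_zero_or_pos n with rfl | hn
  · have : m = 1 := by simpa using h
    subst this
    simp [chi]
  unfold chi
  rw [h.primeFactors_mul, Finset.prod_union h.disjoint_primeFactors]
  congr 1
  · refine Finset.prod_congr rfl fun p hp => ?_
    rw [Nat.factorization_mul hm.ne' hn.ne', Finsupp.add_apply]
    have : n.factorization p = 0 := by
      refine Nat.factorization_eq_zero_of_not_dvd fun hd => ?_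
      have hp' := Nat.mem_primeFactors.1 hp
      have := Nat.dvd_gcd hp'.2.1 hd
      rw [h.gcd_eq_one] at this
      exact hp'.1.one_lt.ne' (Nat.dvd_one.1 this)
    rw [this, add_zero]
  · refine Finset.prod_congr rfl fun p hp => ?_
    rw [Nat.factorization_mul hm.ne' hn.ne', Finsupp.add_apply]
    have : m.factorization p = 0 := by
      refine Nat.factorization_eq_zero_of_not_dvd fun hd => ?_
      have hp' := Nat.mem_primeFactors.1 hp
      have := Nat.dvd_gcd hd hp'.2.1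
      rw [h.gcd_eq_one] at this
      exact hp'.1.one_lt.ne' (Nat.dvd_one.1 this)
    rw [this, zero_add]

theorem eul_chi_norm (n : ℕ) (ω : Om) : ‖chi n ω‖ = 1 := by
  unfold chi
  rw [norm_prod]
  exact Finset.prod_eq_one fun p _ => by rw [norm_pow, eul_zc_norm, one_pow]

theorem eul_b_nonneg (γ : ℝ) (n : ℕ) : 0 ≤ b γ n := by
  unfold b
  positivity

theorem eul_b_mul (γ : ℝ) {m n : ℕ} (h : Nat.Coprime m n) :
    b γ (m * n) = b γ m * b γ n := by
  unfold b
  rw [h.card_divisors_mul, Nat.cast_mul, Nat.cast_mul, Real.sqrt_mul (Nat.cast_nonneg m),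
    Real.mul_rpow (Nat.cast_nonneg _) (Nat.cast_nonneg _)]
  ring

theorem eul_b_pow (γ : ℝ) {p : ℕ} (hp : p.Prime) (k : ℕ) :
    b γ (p ^ k) = ((k : ℝ) + 1) ^ γ / (p : ℝ) ^ ((k : ℝ) / 2) := by
  unfold b
  rw [Nat.divisors_prime_pow hp, Finset.card_map, Finset.card_range, Real.sqrt_eq_rpow]
  congr 1
  · push_cast
    ring_nf
  · push_cast
    rw [← Real.rpow_natCast, ← Real.rpow_mul (Nat.cast_nonneg p)]
    ring_nf

/-- the summand -/
noncomputable def eulf (γ σ t : ℝ) (ω : Om) (n : ℕ) : ℂ :=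
  (b γ n : ℂ) * chi n ω * (n : ℂ) ^ (-(σ + t * I) : ℂ)

theorem eul_norm (γ σ t : ℝ) (ω : Om) (n : ℕ) : ‖eulf γ σ t ω n‖ = b γ n * (n : ℝ) ^ (-σ) := by
  unfold eulf
  rw [norm_mul, norm_mul, eul_chi_norm, mul_one, Complex.norm_real,
    Real.norm_of_nonneg (eul_b_nonneg γ n)]
  rcases Nat.eq_zero_or_pos n with rfl | hn
  · simp [b]
  · rw [Complex.norm_natCast_cpow_of_pos hn]
    simp

theorem eul_pow (γ σ t : ℝ) (ω : Om) {p : ℕ} (hp : p.Prime) (k : ℕ) :
    eulf γ σ t ω (p ^ k) = (((((k : ℝ) + 1) ^ γ : ℝ)) : ℂ) * (pt σ t p ω) ^ k := by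
  unfold eulf pt
  have hp0 : (p : ℂ) ≠ 0 := Nat.cast_ne_zero.2 hp.ne_zero
  have hchi : chi (p ^ k) ω = zc (ω p) ^ k := by
    unfold chi
    rcases Nat.eq_zero_or_pos k with rfl | hk
    · simp
    · rw [Nat.primeFactors_prime_pow hk.ne' hp, Finset.prod_singleton,
        hp.factorization_pow, Finsupp.single_eq_same]
  rw [hchi, eul_b_pow γ hp k, mul_pow]
  have e1 : ((p ^ k : ℕ) : ℂ) ^ (-(σ + t * I) : ℂ) = ((p : ℂ) ^ (-(σ + t * I) : ℂ)) ^ k := by
    rw [← Complex.cpow_nat_mul, Complex.natCast_cpow_natCast_mul]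
    push_cast
    rfl
  have e2 : (p : ℂ) ^ (-(1 / 2 + σ + t * I) : ℂ) =
      (p : ℂ) ^ (-(1 / 2) : ℂ) * (p : ℂ) ^ (-(σ + t * I) : ℂ) := by
    rw [← Complex.cpow_add _ _ hp0]
    congr 1
    ring
  have e3 : ((p : ℂ) ^ (-(1 / 2) : ℂ)) ^ k = ((((p : ℝ) ^ ((k : ℝ) / 2))⁻¹ : ℝ) : ℂ) := by
    rw [← Complex.cpow_nat_mul, ← Real.rpow_neg (Nat.cast_nonneg p),
      Complex.ofReal_cpow (Nat.cast_nonneg p)]
    push_cast
    congr 1
    ring
  rw [e1, e2, mul_pow, e3]
  push_cast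
  ring

theorem eul_pt_norm (σ t : ℝ) {p : ℕ} (hp : p.Prime) (ω : Om) :
    ‖pt σ t p ω‖ = (p : ℝ) ^ (-(1 / 2 + σ)) := by
  unfold pt
  rw [norm_mul, eul_zc_norm, one_mul, Complex.norm_natCast_cpow_of_pos hp.pos]
  simp

theorem eul_geom (γ : ℝ) {r : ℝ} (hr0 : 0 < r) (hr1 : r < 1) :
    Summable (fun k : ℕ => ((k : ℝ) + 1) ^ γ * r ^ k) := by
  have h1 : Summable (fun k : ℕ => (((k + 1 : ℕ)) : ℝ) ^ ⌈|γ|⌉₊ * r ^ (k + 1)) :=
    (summable_nat_add_iff (f := fun n : ℕ => (n : ℝ) ^ ⌈|γ|⌉₊ * r ^ n) 1).2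
      (summable_pow_mul_geometric_of_norm_lt_one ⌈|γ|⌉₊
        (by rw [Real.norm_of_nonneg hr0.le]; exact hr1))
  have h2 := h1.mul_left r⁻¹
  refine Summable.of_nonneg_of_le (fun k => by positivity) (fun k => ?_) h2
  have hk : (1 : ℝ) ≤ (k : ℝ) + 1 := by
    have : (0 : ℝ) ≤ (k : ℝ) := Nat.cast_nonneg k
    linarith
  have h3 : ((k : ℝ) + 1) ^ γ ≤ ((k : ℝ) + 1) ^ ⌈|γ|⌉₊ := by
    rw [← Real.rpow_natCast]
    exact Real.rpow_le_rpow_of_exponent_le hk ((le_abs_self γ).trans (Nat.le_ceil _))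
  have h4 : r⁻¹ * ((((k + 1 : ℕ)) : ℝ) ^ ⌈|γ|⌉₊ * r ^ (k + 1)) =
      ((k : ℝ) + 1) ^ ⌈|γ|⌉₊ * r ^ k := by
    push_cast
    field_simp
    ring
  rw [h4]
  exact mul_le_mul_of_nonneg_right h3 (by positivity)

theorem eul_indicator (A : Finset ℕ) {R : Type} [AddCommMonoid R] (f : ℕ → R)
    (h0 : f 0 = 0) : (fun n : ℕ => if n.primeFactors ⊆ A then f n else 0) =
    Set.indicator (Nat.factoredNumbers A) f := by
  funext n
  rcases Nat.eq_zero_or_pos n with rfl | hn
  · simp [h0, Set.indicator]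
  by_cases h : n.primeFactors ⊆ A
  · rw [if_pos h, Set.indicator_of_mem (Nat.mem_factoredNumbers_of_primeFactors_subset hn.ne' h)]
  · rw [if_neg h, Set.indicator_of_notMem]
    exact fun h' => h (Nat.primeFactors_subset_of_mem_factoredNumbers h')

theorem EUL : S_EUL := by
  intro γ A σ t ω hA hσ
  have h1 : eulf γ σ t ω 1 = 1 := by
    unfold eulf
    rw [eul_chi_one]
    simp [b]
  have hmul : ∀ {m n : ℕ}, Nat.Coprime m n → eulf γ σ t ω (m * n) =
      eulf γ σ t ω m * eulf γ σ t ω n := by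
    intro m n hmn
    unfold eulf
    rw [eul_b_mul γ hmn, eul_chi_mul hmn, Nat.cast_mul, Complex.natCast_mul_natCast_cpow]
    push_cast
    ring
  have hsum : ∀ {p : ℕ}, p.Prime → Summable (fun k : ℕ => ‖eulf γ σ t ω (p ^ k)‖) := by
    intro p hp
    have hr0 : (0 : ℝ) < (p : ℝ) ^ (-(1 / 2 + σ)) := Real.rpow_pos_of_pos (by exact_mod_cast hp.pos) _
    have hr1 : (p : ℝ) ^ (-(1 / 2 + σ)) < 1 :=
      Real.rpow_lt_one_of_one_lt_of_neg (by exact_mod_cast hp.one_lt) (by linarith)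
    refine (eul_geom γ hr0 hr1).congr fun k => ?_
    rw [eul_pow γ σ t ω hp, norm_mul, norm_pow, eul_pt_norm σ t hp, Complex.norm_real,
      Real.norm_of_nonneg (by positivity)]
  obtain ⟨h2, h3⟩ := EulerProduct.summable_and_hasSum_factoredNumbers_prod_filter_prime_tsum
    h1 hmul hsum A
  constructor
  · have h4 := (summable_subtype_iff_indicator (f := fun n => ‖eulf γ σ t ω n‖)
      (s := Nat.factoredNumbers A)).1 h2
    rw [← eul_indicator A (fun n => ‖eulf γ σ t ω n‖) (by rw [eul_norm]; simp [b])] at h4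
    refine h4.congr fun n => ?_
    rw [eul_norm]
  · have h4 := (hasSum_subtype_iff_indicator (f := fun n => eulf γ σ t ω n)
      (s := Nat.factoredNumbers A)).1 h3
    rw [← eul_indicator A (fun n => eulf γ σ t ω n) (by unfold eulf; simp [b])] at h4
    have e : ∏ p ∈ A with p.Prime, ∑' n : ℕ, eulf γ σ t ω (p ^ n) = F γ A σ t ω := by
      unfold F
      rw [Finset.filter_true_of_mem hA]
      refine Finset.prod_congr rfl fun p hp => ?_
      unfold phi
      exact tsum_congr fun k => eul_pow γ σ t ω (hA p hp) k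
    rw [e] at h4
    exact h4

end PM
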