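import Pool.Agent.H24.PM.EWB

/-! Module EWF of project PM: pairs of points at distance at least one. -/

namespace PM
open MeasureTheory Complex

attribute [local irreducible] G PrS

/-- integral of an even function over a translated interval, away from the origin -/
theorem ewf_one {g : ℝ → ℝ} (hgc : Continuous g) (hg0 : ∀ τ, 0 ≤ g τ) (hge : ∀ τ, g (-τ) = g τ)
    {T t : ℝ} (hT : 1 ≤ T) (ht0 : 0 ≤ t) (htT : t ≤ T) {S : Set ℝ} (hS : S ⊆ Set.Icc 0 T) :
    ∫ s in S, Set.indicator {τ : ℝ | 1 ≤ |τ|} g (t - s) ≤ 2 * ∫ τ in (1 : ℝ)..T, g τ := by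
  have hm : MeasurableSet {τ : ℝ | 1 ≤ |τ|} := measurableSet_le measurable_const (by fun_prop)
  set k : ℝ → ℝ := Set.indicator {τ : ℝ | 1 ≤ |τ|} g with hk
  have hk0 : ∀ τ, 0 ≤ k τ := fun τ => Set.indicator_nonneg (fun _ _ => hg0 _) τ
  have hkm : Measurable k := hgc.measurable.indicator hm
  have hkg : ∀ τ, k τ ≤ g τ := fun τ => Set.indicator_le_self' (fun _ _ => hg0 _) τ
  have hki : ∀ a b : ℝ, IntervalIntegrable k volume a b := fun a b => by
    refine (hgc.intervalIntegrable a b).mono_fun hkm.aestronglyMeasurable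
      (Filter.Eventually.of_forall fun τ => ?_)
    show ‖k τ‖ ≤ ‖g τ‖
    rw [Real.norm_eq_abs, Real.norm_eq_abs, abs_of_nonneg (hk0 τ), abs_of_nonneg (hg0 τ)]
    exact hkg τ
  have hke : ∀ τ, k (-τ) = k τ := fun τ => by
    rw [hk]
    by_cases h : 1 ≤ |τ|
    · rw [Set.indicator_of_mem (show -τ ∈ {τ : ℝ | 1 ≤ |τ|} by
        rw [Set.mem_ofPred_eq, abs_neg]; exact h), Set.indicator_of_mem (show τ ∈ {τ : ℝ | 1 ≤ |τ|} from h), hge]
    · rw [Set.indicator_of_notMem (show -τ ∉ {τ : ℝ | 1 ≤ |τ|} by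
        rw [Set.mem_ofPred_eq, abs_neg]; exact h), Set.indicator_of_notMem (show τ ∉ {τ : ℝ | 1 ≤ |τ|} from h)]
  have h1 : ∫ s in S, k (t - s) ≤ ∫ s in Set.Icc 0 T, k (t - s) := by
    refine setIntegral_mono_set ?_ (Filter.Eventually.of_forall fun s => hk0 _)
      (Filter.Eventually.of_forall hS)
    rw [integrableOn_Icc_iff_integrableOn_Ioc, ← intervalIntegrable_iff_integrableOn_Ioc_of_le
      (by linarith)]
    have := (hki (t - 0) (t - T)).comp_sub_left (f := k) t
    simpa using this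
  refine h1.trans ?_
  rw [integral_Icc_eq_integral_Ioc, ← intervalIntegral.integral_of_le (by linarith),
    intervalIntegral.integral_comp_sub_left (fun x => k x) t, sub_zero]
  have h2 : ∫ x in (t - T)..t, k x ≤ ∫ x in (-T)..T, k x := by
    refine intervalIntegral.integral_mono_interval (by linarith) (by linarith) htT
      (Filter.Eventually.of_forall fun s => hk0 _) (hki _ _)
  refine h2.trans ?_
  have h3 : ∫ x in (-T)..T, k x = (∫ x in (-T)..0, k x) + ∫ x in (0 : ℝ)..T, k x :=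
    (intervalIntegral.integral_add_adjacent_intervals (hki _ _) (hki _ _)).symm
  have h4 : ∫ x in (-T)..0, k x = ∫ x in (0 : ℝ)..T, k x := by
    have := intervalIntegral.integral_comp_neg (a := 0) (b := T) (fun x => k x)
    rw [neg_zero] at this
    rw [← this]
    exact intervalIntegral.integral_congr fun x _ => hke x
  have h5 : ∫ x in (0 : ℝ)..T, k x = (∫ x in (0 : ℝ)..1, k x) + ∫ x in (1 : ℝ)..T, k x :=
    (intervalIntegral.integral_add_adjacent_intervals (hki _ _) (hki _ _)).symm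
  have h6 : ∫ x in (0 : ℝ)..1, k x = 0 := by
    rw [intervalIntegral.integral_of_le zero_le_one, integral_Ioc_eq_integral_Ioo]
    refine setIntegral_eq_zero_of_forall_eq_zero fun x hx => ?_
    rw [hk, Set.indicator_of_notMem]
    rw [Set.mem_ofPred_eq, abs_of_pos hx.1]
    exact not_le.2 hx.2
  have h7 : ∫ x in (1 : ℝ)..T, k x ≤ ∫ x in (1 : ℝ)..T, g x :=
    intervalIntegral.integral_mono_on hT (hki _ _) (hgc.intervalIntegrable _ _) fun x _ => hkg x
  rw [h3, h4, h5, h6]
  linarith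

/-- double integral over two blocks -/
theorem ewf_two {g : ℝ → ℝ} (hgc : Continuous g) (hg0 : ∀ τ, 0 ≤ g τ) (hge : ∀ τ, g (-τ) = g τ)
    {C : ℝ} (hC : 0 ≤ C) (hgT : ∀ T : ℝ, 1 ≤ T → ∫ τ in (1 : ℝ)..T, g τ ≤ C * T) (k1 k2 : ℕ) :
    ∫ t1 in Set.Ioc (Real.exp k1) (Real.exp (k1 + 1)),
      ∫ t2 in Set.Ioc (Real.exp k2) (Real.exp (k2 + 1)) ∩ {t2 | 1 ≤ |t1 - t2|}, g (t1 - t2) ≤
    16 * C * (Real.exp k1 * Real.exp k2) := by
  have hm : MeasurableSet {τ : ℝ | 1 ≤ |τ|} := measurableSet_le measurable_const (by fun_prop)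
  -- ordered version
  have key : ∀ (a b : ℕ), a ≤ b → ∀ h : ℝ → ℝ, (∀ τ, h τ = Set.indicator {τ : ℝ | 1 ≤ |τ|} g τ) →
      ∫ t1 in Set.Ioc (Real.exp a) (Real.exp (a + 1)),
        ∫ t2 in Set.Ioc (Real.exp b) (Real.exp (b + 1)), h (t1 - t2) ≤
      16 * C * (Real.exp a * Real.exp b) := by
    intro a b hab h hh
    have hab' : (a : ℝ) ≤ b := by exact_mod_cast hab
    have hT : (1 : ℝ) ≤ Real.exp (b + 1) := Real.one_le_exp (by positivity)
    have h0 : ∀ t1 ∈ Set.Ioc (Real.exp (a : ℝ)) (Real.exp (a + 1)),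
        ∫ t2 in Set.Ioc (Real.exp b) (Real.exp (b + 1)), h (t1 - t2) ≤
          2 * (C * Real.exp (b + 1)) := by
      intro t1 ht1
      simp only [hh]
      refine (ewf_one hgc hg0 hge hT (le_trans (Real.exp_pos _).le ht1.1.le)
        (ht1.2.trans (Real.exp_le_exp.2 (by linarith)))
        (fun s hs => ⟨le_trans (Real.exp_pos _).le hs.1.le, hs.2⟩)).trans ?_
      have := hgT _ hT
      linarith
    have hsub : Real.exp (a : ℝ) ≤ Real.exp (a + 1) := Real.exp_le_exp.2 (by linarith)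
    have e1 := Real.exp_one_lt_d9
    calc _ ≤ ∫ _ in Set.Ioc (Real.exp (a : ℝ)) (Real.exp (a + 1)), 2 * (C * Real.exp (b + 1)) := by
          refine integral_mono_of_nonneg (Filter.Eventually.of_forall fun t1 => ?_)
            (integrable_const _) ((ae_restrict_iff' measurableSet_Ioc).2
              (Filter.Eventually.of_forall fun t1 ht1 => h0 t1 ht1))
          refine integral_nonneg fun t2 => ?_
          simp only [hh]
          exact Set.indicator_nonneg (fun _ _ => hg0 _) _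
      _ = (Real.exp (a + 1) - Real.exp a) * (2 * (C * Real.exp (b + 1))) := by
          rw [setIntegral_const, smul_eq_mul]
          unfold Measure.real
          rw [Real.volume_Ioc, ENNReal.toReal_ofReal (by linarith)]
      _ ≤ (2 * Real.exp a) * (2 * (C * (3 * Real.exp b))) := by
          rw [Real.exp_add, Real.exp_add]
          have h5 := Real.exp_pos (a : ℝ)
          have h6 := Real.exp_pos (b : ℝ)
          have h7 := Real.exp_pos 1
          refine mul_le_mul (by nlinarith) ?_ (by positivity) (by positivity)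
          have : Real.exp (b : ℝ) * Real.exp 1 ≤ 3 * Real.exp b := by nlinarith
          have := mul_le_mul_of_nonneg_left this hC
          linarith
      _ ≤ _ := by
          have h8 : 0 ≤ C * (Real.exp (a : ℝ) * Real.exp b) := by positivity
          nlinarith
  set h : ℝ → ℝ := Set.indicator {τ : ℝ | 1 ≤ |τ|} g with hh
  have hstart : ∫ t1 in Set.Ioc (Real.exp (k1 : ℝ)) (Real.exp (k1 + 1)),
      ∫ t2 in Set.Ioc (Real.exp k2) (Real.exp (k2 + 1)) ∩ {t2 | 1 ≤ |t1 - t2|}, g (t1 - t2) =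
      ∫ t1 in Set.Ioc (Real.exp k1) (Real.exp (k1 + 1)),
        ∫ t2 in Set.Ioc (Real.exp k2) (Real.exp (k2 + 1)), h (t1 - t2) := by
    refine integral_congr_ae (Filter.Eventually.of_forall fun t1 => ?_)
    simp only
    have hS : MeasurableSet {t2 : ℝ | 1 ≤ |t1 - t2|} :=
      measurableSet_le measurable_const (by fun_prop)
    rw [← setIntegral_indicator hS]
    refine integral_congr_ae (Filter.Eventually.of_forall fun t2 => ?_)
    simp only [hh]
    by_cases h1 : 1 ≤ |t1 - t2|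
    · rw [Set.indicator_of_mem (show t2 ∈ {t2 : ℝ | 1 ≤ |t1 - t2|} from h1),
        Set.indicator_of_mem (show t1 - t2 ∈ {τ : ℝ | 1 ≤ |τ|} from h1)]
    · rw [Set.indicator_of_notMem (show t2 ∉ {t2 : ℝ | 1 ≤ |t1 - t2|} from h1),
        Set.indicator_of_notMem (show t1 - t2 ∉ {τ : ℝ | 1 ≤ |τ|} from h1)]
  rw [hstart]
  rcases le_total k1 k2 with h12 | h12
  · exact key k1 k2 h12 h fun _ => rfl
  · have hhm : Measurable h := hgc.measurable.indicator hm
    have hswap : ∫ t1 in Set.Ioc (Real.exp (k1 : ℝ)) (Real.exp (k1 + 1)),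
        ∫ t2 in Set.Ioc (Real.exp k2) (Real.exp (k2 + 1)), h (t1 - t2) =
        ∫ t2 in Set.Ioc (Real.exp (k2 : ℝ)) (Real.exp (k2 + 1)),
        ∫ t1 in Set.Ioc (Real.exp k1) (Real.exp (k1 + 1)), h (t1 - t2) := by
      refine integral_integral_swap (f := fun t1 t2 => h (t1 - t2)) ?_
      -- bounded measurable on a finite measure
      obtain ⟨B, hB⟩ : ∃ B : ℝ, ∀ x ∈ Set.Icc (-(Real.exp (k2 + 1) : ℝ)) (Real.exp (k1 + 1)),
          ‖g x‖ ≤ B := isCompact_Icc.exists_bound_of_continuousOn hgc.continuousOn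
      have hme : Measurable (fun q : ℝ × ℝ => h (q.1 - q.2)) :=
        hhm.comp (measurable_fst.sub measurable_snd)
      rw [Measure.prod_restrict]
      refine Measure.integrableOn_of_bounded (M := B) ?_ hme.aestronglyMeasurable ?_
      · rw [Measure.prod_prod, Real.volume_Ioc, Real.volume_Ioc]
        exact ENNReal.mul_ne_top ENNReal.ofReal_ne_top ENNReal.ofReal_ne_top
      · refine (ae_restrict_iff' (measurableSet_Ioc.prod measurableSet_Ioc)).2
          (Filter.Eventually.of_forall fun q hq => ?_)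
        have hmem : q.1 - q.2 ∈ Set.Icc (-(Real.exp (k2 + 1) : ℝ)) (Real.exp (k1 + 1)) := by
          obtain ⟨⟨a1, a2⟩, ⟨a3, a4⟩⟩ := hq
          have := Real.exp_pos (k1 : ℝ)
          have := Real.exp_pos (k2 : ℝ)
          constructor <;> linarith
        have h9 := hB _ hmem
        rw [Real.norm_eq_abs, abs_of_nonneg (hg0 _)] at h9
        simp only [Function.uncurry]
        rw [Real.norm_eq_abs, abs_of_nonneg (Set.indicator_nonneg (fun _ _ => hg0 _) _)]
        exact (Set.indicator_le_self' (fun _ _ => hg0 _) _).trans h9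
    rw [hswap]
    have h10 := key k2 k1 h12 h fun _ => rfl
    have h11 : ∫ t2 in Set.Ioc (Real.exp (k2 : ℝ)) (Real.exp (k2 + 1)),
        ∫ t1 in Set.Ioc (Real.exp k1) (Real.exp (k1 + 1)), h (t1 - t2) =
        ∫ t2 in Set.Ioc (Real.exp (k2 : ℝ)) (Real.exp (k2 + 1)),
        ∫ t1 in Set.Ioc (Real.exp k1) (Real.exp (k1 + 1)), h (t2 - t1) := by
      refine integral_congr_ae (Filter.Eventually.of_forall fun t2 => ?_)
      refine integral_congr_ae (Filter.Eventually.of_forall fun t1 => ?_)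
      simp only [hh]
      by_cases h1 : 1 ≤ |t1 - t2|
      · rw [Set.indicator_of_mem (show t1 - t2 ∈ {τ : ℝ | 1 ≤ |τ|} from h1),
          Set.indicator_of_mem (show t2 - t1 ∈ {τ : ℝ | 1 ≤ |τ|} by
            rw [Set.mem_ofPred_eq, abs_sub_comm]; exact h1), ← hge, neg_sub]
      · rw [Set.indicator_of_notMem (show t1 - t2 ∉ {τ : ℝ | 1 ≤ |τ|} from h1),
          Set.indicator_of_notMem (show t2 - t1 ∉ {τ : ℝ | 1 ≤ |τ|} by
            rw [Set.mem_ofPred_eq, abs_sub_comm]; exact h1)]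
    rw [h11]
    refine h10.trans (le_of_eq ?_)
    ring

theorem ewf_CSc (A : Finset ℕ) (σ : ℝ) : Continuous (fun τ : ℝ => CS A σ τ) := by
  unfold CS; fun_prop

theorem ewf_CSe (A : Finset ℕ) (σ τ : ℝ) : CS A σ (-τ) = CS A σ τ := by
  unfold CS
  refine Finset.sum_congr rfl fun l _ => ?_
  rw [neg_mul, Real.cos_neg]

theorem EWF (hF : S_FAR) (hNTF : S_NTF) (hGC : S_GC) (_hWM : S_WM) : S_EWF := by
  intro γ p0 hp hγ β A κ hA
  obtain ⟨C, y0, hC, hy0, hF⟩ := hF γ p0 hp ((al γ) ^ 2 + 1)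
  have hal : 0 < al γ := Real.rpow_pos_of_pos (by norm_num) _
  obtain ⟨C', hC', hN⟩ := hNTF ((al γ) ^ 2 / 2) (by positivity)
  refine ⟨C * (16 * C'), y0, by positivity, hy0, fun y lam k1 k2 hy hlam hk1 hk2 => ?_⟩
  have hyp : 0 < y := lt_of_lt_of_le (Real.exp_pos _) (hy0.trans hy)
  have h3 : 3 ≤ Real.log y := by
    rw [Real.le_log_iff_exp_le hyp]
    exact hy0.trans hy
  have hY : 0 < Real.log y := by linarith
  have hY1 : 1 ≤ Real.log y := by linarith
  set LL := Real.log (Real.log y) with hLL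
  have hLL1 : 1 ≤ LL := by
    rw [hLL, Real.le_log_iff_exp_le hY]
    have := Real.exp_one_lt_d9; linarith
  have hk : ∀ k ∈ KW γ y A lam, (k : ℝ) ≤ (al γ) ^ 2 * LL := by
    intro k hk
    unfold KW at hk
    have h4 := (Finset.mem_filter.1 hk).1
    rw [Finset.mem_range, ← hLL] at h4
    have h5 : k ≤ ⌊(al γ) ^ 2 * LL⌋₊ := by omega
    exact (Nat.cast_le.2 h5).trans (Nat.floor_le (by positivity))
  -- pointwise bound
  have hpt : ∀ t1 ∈ Set.Ioc (Real.exp (k1 : ℝ)) (Real.exp (k1 + 1)),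
      ∀ t2 ∈ Set.Ioc (Real.exp (k2 : ℝ)) (Real.exp (k2 + 1)), 1 ≤ |t1 - t2| →
      P.real (Ev γ p0 y β κ lam k1 t1 ∩ Ev γ p0 y β κ lam k2 t2) ≤
        (1 / (lam * Real.log y * Real.exp k1)) * (1 / (lam * Real.log y * Real.exp k2)) *
        (C / LL * (Real.log y) ^ ((al γ) ^ 2 / 2)) *
        Real.exp ((al γ) ^ 2 / 2 * CS (PrS 1 y) (4 / Real.log y) (t1 - t2)) := by
    intro t1 ht1 t2 ht2 h12
    obtain ⟨c1, b1⟩ := ewb_cont hGC hp hY1 (le_refl (Real.log y)) t1
    obtain ⟨c2, b2⟩ := ewb_cont hGC hp hY1 (le_refl (Real.log y)) t2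
    have hup : ∀ k ∈ KW γ y A lam, Real.exp ((k : ℝ) + 1) ≤ (Real.log y) ^ ((al γ) ^ 2 + 1) := by
      intro k hk'
      rw [Real.rpow_def_of_pos hY]
      refine Real.exp_le_exp.2 ?_
      have := hk k hk'
      rw [← hLL]
      nlinarith
    have hdist : |t1 - t2| ≤ (Real.log y) ^ ((al γ) ^ 2 + 1) := by
      have e1 := hup k1 hk1
      have e2 := hup k2 hk2
      have e3 := Real.exp_pos (k1 : ℝ)
      have e4 := Real.exp_pos (k2 : ℝ)
      rw [abs_le]
      constructor
      · have := ht2.2; have := ht1.1; linarith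
      · have := ht1.2; have := ht2.1; linarith
    have hmain := hF y (xk y lam k1) (xk y lam k2) t1 t2 hy h12 hdist
    have hmeas : MeasurableSet {ω : Om | (xk y lam k1 ≤ G γ (PrS p0 y) (2 / Real.log y) t1 ω ∧
        G γ (PrS p0 y) (2 / Real.log y) t1 ω ≤ xk y lam k1 + 1) ∧
        (xk y lam k2 ≤ G γ (PrS p0 y) (2 / Real.log y) t2 ω ∧
        G γ (PrS p0 y) (2 / Real.log y) t2 ω ≤ xk y lam k2 + 1)} :=
      ((measurableSet_le measurable_const c1.measurable).inter
        (measurableSet_le c1.measurable measurable_const)).inter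
      ((measurableSet_le measurable_const c2.measurable).inter
        (measurableSet_le c2.measurable measurable_const))
    have h1 := ewb_markov (E := Ev γ p0 y β κ lam k1 t1 ∩ Ev γ p0 y β κ lam k2 t2) hmeas
      (h := fun ω => G γ (PrS p0 y) (2 / Real.log y) t1 ω +
        G γ (PrS p0 y) (2 / Real.log y) t2 ω) (c1.add c2)
      (B := (PrS p0 y).card + (PrS p0 y).card)
      (fun ω => by
        have e1 := (abs_le.1 (b1 ω)).2
        have e2 := (abs_le.1 (b2 ω)).2
        linarith) (xk y lam k1 + xk y lam k2)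
      (by
        rintro ω ⟨⟨⟨e1, e2⟩, e3⟩, ⟨⟨e4, e5⟩, e6⟩⟩
        refine ⟨⟨⟨e1, e2⟩, ⟨e4, e5⟩⟩, ?_⟩
        linarith)
    refine h1.trans ?_
    rw [neg_add, Real.exp_add, ewb_exk hY hlam, ewb_exk hY hlam]
    have := mul_le_mul_of_nonneg_left hmain (show 0 ≤ (1 / (lam * Real.log y * Real.exp k1)) *
      (1 / (lam * Real.log y * Real.exp k2)) by positivity)
    refine this.trans (le_of_eq ?_)
    ring
  set g : ℝ → ℝ := fun τ => Real.exp ((al γ) ^ 2 / 2 * CS (PrS 1 y) (4 / Real.log y) τ) with hg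
  have hgc : Continuous g := Real.continuous_exp.comp (continuous_const.mul (ewf_CSc _ _))
  have hge : ∀ τ, g (-τ) = g τ := fun τ => by simp only [hg, ewf_CSe]
  have hg0 : ∀ τ, 0 ≤ g τ := fun τ => (Real.exp_pos _).le
  have hgT : ∀ T : ℝ, 1 ≤ T → ∫ τ in (1 : ℝ)..T, g τ ≤ C' * T := fun T hT => by
    refine hN T y (4 / Real.log y) hT ?_ ?_
    · have : Real.exp 3 ≤ y := hy0.trans hy
      have := Real.add_one_le_exp (3 : ℝ)
      linarith
    · rw [abs_of_pos (by positivity), div_mul_cancel₀ _ hY.ne']; norm_num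
  have h2 := ewf_two hgc hg0 hge hC'.le hgT k1 k2
  set D : ℝ := (1 / (lam * Real.log y * Real.exp k1)) * (1 / (lam * Real.log y * Real.exp k2)) *
        (C / LL * (Real.log y) ^ ((al γ) ^ 2 / 2)) with hD
  have hD0 : 0 ≤ D := by rw [hD]; positivity
  have hgb : ∀ t1 : ℝ, IntegrableOn (fun t2 => g (t1 - t2))
      (Set.Ioc (Real.exp k2) (Real.exp (k2 + 1)) ∩ {t2 | 1 ≤ |t1 - t2|}) := fun t1 => by
    refine IntegrableOn.mono_set (t := Set.Icc (Real.exp k2) (Real.exp (k2 + 1))) ?_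
      (Set.inter_subset_left.trans Set.Ioc_subset_Icc_self)
    exact (hgc.comp (continuous_const.sub continuous_id)).continuousOn.integrableOn_compact
      isCompact_Icc
  have h4 : ∫ t1 in Set.Ioc (Real.exp k1) (Real.exp (k1 + 1)),
      ∫ t2 in Set.Ioc (Real.exp k2) (Real.exp (k2 + 1)) ∩ {t2 | 1 ≤ |t1 - t2|},
      P.real (Ev γ p0 y β κ lam k1 t1 ∩ Ev γ p0 y β κ lam k2 t2) ≤
      D * (16 * C' * (Real.exp k1 * Real.exp k2)) := by
    refine le_trans ?_ (mul_le_mul_of_nonneg_left h2 hD0)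
    rw [← integral_const_mul]
    have hS : ∀ t1 : ℝ, MeasurableSet (Set.Ioc (Real.exp (k2 : ℝ)) (Real.exp (k2 + 1)) ∩
        {t2 | 1 ≤ |t1 - t2|}) := fun t1 =>
      measurableSet_Ioc.inter (measurableSet_le measurable_const (by fun_prop))
    refine integral_mono_of_nonneg (Filter.Eventually.of_forall fun t1 =>
      integral_nonneg fun t2 => measureReal_nonneg) ?_ ?_
    · refine Integrable.const_mul ?_ D
      -- measurable and bounded
      obtain ⟨B, hB⟩ : ∃ B : ℝ, ∀ x ∈ Set.Icc (-(Real.exp (k2 + 1) : ℝ)) (Real.exp (k1 + 1)),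
          ‖g x‖ ≤ B := isCompact_Icc.exists_bound_of_continuousOn hgc.continuousOn
      have hmm : MeasurableSet {q : ℝ × ℝ | 1 ≤ |q.1 - q.2|} :=
        measurableSet_le measurable_const (by fun_prop)
      have hme : StronglyMeasurable (fun q : ℝ × ℝ =>
          Set.indicator {q : ℝ × ℝ | 1 ≤ |q.1 - q.2|} (fun q => g (q.1 - q.2)) q) :=
        ((hgc.comp (continuous_fst.sub continuous_snd)).stronglyMeasurable).indicator hmm
      have hme2 := hme.integral_prod_right' (ν := volume.restrict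
        (Set.Ioc (Real.exp (k2 : ℝ)) (Real.exp (k2 + 1))))
      have heq : (fun t1 : ℝ => ∫ t2 in Set.Ioc (Real.exp (k2 : ℝ)) (Real.exp (k2 + 1)) ∩
          {t2 | 1 ≤ |t1 - t2|}, g (t1 - t2)) = fun t1 =>
          ∫ t2 in Set.Ioc (Real.exp (k2 : ℝ)) (Real.exp (k2 + 1)),
          Set.indicator {q : ℝ × ℝ | 1 ≤ |q.1 - q.2|} (fun q => g (q.1 - q.2)) (t1, t2) := by
        funext t1
        have hS' : MeasurableSet {t2 : ℝ | 1 ≤ |t1 - t2|} :=
          measurableSet_le measurable_const (by fun_prop)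
        rw [← setIntegral_indicator hS']
        rfl
      rw [heq]
      refine Measure.integrableOn_of_bounded (M := B * volume.real
        (Set.Ioc (Real.exp (k2 : ℝ)) (Real.exp (k2 + 1)))) (by
          rw [Real.volume_Ioc]; exact ENNReal.ofReal_ne_top) hme2.aestronglyMeasurable ?_
      refine (ae_restrict_iff' measurableSet_Ioc).2 (Filter.Eventually.of_forall fun t1 ht1 => ?_)
      refine norm_setIntegral_le_of_norm_le_const (by
        rw [Real.volume_Ioc]; exact ENNReal.ofReal_lt_top) fun t2 ht2 => ?_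
      have hmem : t1 - t2 ∈ Set.Icc (-(Real.exp (k2 + 1) : ℝ)) (Real.exp (k1 + 1)) := by
        have := Real.exp_pos (k1 : ℝ)
        have := Real.exp_pos (k2 : ℝ)
        have := ht1.1; have := ht1.2; have := ht2.1; have := ht2.2
        constructor <;> linarith
      refine le_trans ?_ (hB _ hmem)
      by_cases h5 : 1 ≤ |t1 - t2|
      · rw [Set.indicator_of_mem (show (t1, t2) ∈ {q : ℝ × ℝ | 1 ≤ |q.1 - q.2|} from h5)]
      · rw [Set.indicator_of_notMem (show (t1, t2) ∉ {q : ℝ × ℝ | 1 ≤ |q.1 - q.2|} from h5)]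
        simp
    · refine (ae_restrict_iff' measurableSet_Ioc).2 (Filter.Eventually.of_forall fun t1 ht1 => ?_)
      simp only
      rw [← integral_const_mul]
      refine integral_mono_of_nonneg (Filter.Eventually.of_forall fun t2 => measureReal_nonneg)
        ((hgb t1).const_mul D) ?_
      exact (ae_restrict_iff' (hS t1)).2 (Filter.Eventually.of_forall fun t2 ht2 =>
        hpt t1 ht1 t2 ht2.1 ht2.2)
  have hQ2 : (Real.log y) ^ ((al γ) ^ 2 / 2) = ((Real.log y) ^ ((al γ) ^ 2 / 4)) ^ 2 := by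
    rw [pow_two ((Real.log y) ^ ((al γ) ^ 2 / 4)), ← Real.rpow_add hY]
    congr 1; ring
  refine (mul_le_mul_of_nonneg_left h4 (by positivity)).trans (le_of_eq ?_)
  rw [hD, hQ2]
  have e1 := (Real.exp_pos (k1 : ℝ)).ne'
  have e2 := (Real.exp_pos (k2 : ℝ)).ne'
  field_simp

end PM
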