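import Pool.Agent.H24.PM.Stmts

/-! Module EWL of project PM: lower bound for the mean of the counting functional. -/

namespace PM
open MeasureTheory Complex

/-- one point: removing the bad paths by a reduced tilt -/
theorem EWL_point {Ω : Type*} [MeasurableSpace Ω] (P : Measure Ω) [IsProbabilityMeasure P]
    (X : Ω → ℝ) (Xs : ℕ → Ω → ℝ) (hX : Measurable X) {B : ℝ} (hB : ∀ ω, |X ω| ≤ B)
    (T : Finset ℕ) (hXs : ∀ s ∈ T, Measurable (Xs s)) (Bs : ℕ → ℝ)
    (hBs : ∀ s ∈ T, ∀ ω, |Xs s ω| ≤ Bs s) (x θ : ℝ) (hθ : 0 ≤ θ) (m : ℕ → ℝ) :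
    Real.exp (-1 - x) * ∫ ω, Set.indicator {ω | x ≤ X ω ∧ X ω ≤ x + 1}
        (fun ω => Real.exp (X ω)) ω ∂P -
      ∑ s ∈ T, Real.exp (-x + θ * m s) * ∫ ω, Set.indicator {ω | x ≤ X ω ∧ X ω ≤ x + 1}
        (fun ω => Real.exp (X ω - θ * (X ω - Xs s ω))) ω ∂P ≤
    P.real {ω | (x ≤ X ω ∧ X ω ≤ x + 1) ∧ ∀ s ∈ T, m s ≤ X ω - Xs s ω} := by
  set win : Set Ω := {ω | x ≤ X ω ∧ X ω ≤ x + 1} with hwin
  have hwm : MeasurableSet win :=
    (measurableSet_le measurable_const hX).inter (measurableSet_le hX measurable_const)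
  set E : Set Ω := {ω | (x ≤ X ω ∧ X ω ≤ x + 1) ∧ ∀ s ∈ T, m s ≤ X ω - Xs s ω} with hE
  have hEm : MeasurableSet E := by
    have : E = win ∩ ⋂ s ∈ T, {ω | m s ≤ X ω - Xs s ω} := by
      ext ω
      simp [hE, hwin]
    rw [this]
    refine hwm.inter (Finset.measurableSet_biInter T fun s hs => ?_)
    exact measurableSet_le measurable_const (hX.sub (hXs s hs))
  have i0 : Integrable (fun ω => Real.exp (-1 - x) * win.indicator (fun ω => Real.exp (X ω)) ω) P := by
    refine Integrable.const_mul (Integrable.indicator ?_ hwm) _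
    refine Integrable.of_bound hX.exp.aestronglyMeasurable (Real.exp B)
      (Filter.Eventually.of_forall fun ω => ?_)
    rw [Real.norm_eq_abs, Real.abs_exp]
    exact Real.exp_le_exp.2 ((le_abs_self _).trans (hB ω))
  have i1 : ∀ s ∈ T, Integrable (fun ω => Real.exp (-x + θ * m s) *
      win.indicator (fun ω => Real.exp (X ω - θ * (X ω - Xs s ω))) ω) P := by
    intro s hs
    refine Integrable.const_mul (Integrable.indicator ?_ hwm) _
    refine Integrable.of_bound
      ((hX.sub ((hX.sub (hXs s hs)).const_mul θ)).exp).aestronglyMeasurable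
      (Real.exp (B + θ * (B + Bs s))) (Filter.Eventually.of_forall fun ω => ?_)
    rw [Real.norm_eq_abs, Real.abs_exp]
    apply Real.exp_le_exp.2
    have h1 := (abs_le.1 (hB ω)).2
    have h2 := (abs_le.1 (hB ω)).1
    have h3 := (abs_le.1 (hBs s hs ω)).2
    have h4 : -(θ * (X ω - Xs s ω)) ≤ θ * (B + Bs s) := by
      rw [← mul_neg]
      apply mul_le_mul_of_nonneg_left _ hθ
      linarith
    linarith
  have i2 : Integrable (fun ω => E.indicator (fun _ => (1 : ℝ)) ω) P :=
    (integrable_const (1 : ℝ)).indicator hEm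
  have e1 : P.real E = ∫ ω, E.indicator (fun _ => (1 : ℝ)) ω ∂P := (integral_indicator_one hEm).symm
  rw [e1, ← integral_const_mul]
  simp_rw [← integral_const_mul]
  rw [← integral_finsetSum _ i1, ← integral_sub i0 (integrable_finsetSum _ i1)]
  refine integral_mono (i0.sub (integrable_finsetSum _ i1)) i2 fun ω => ?_
  show Real.exp (-1 - x) * win.indicator (fun ω => Real.exp (X ω)) ω -
    ∑ s ∈ T, Real.exp (-x + θ * m s) *
      win.indicator (fun ω => Real.exp (X ω - θ * (X ω - Xs s ω))) ω ≤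
      E.indicator (fun _ => (1 : ℝ)) ω
  have hsum0 : ∀ s ∈ T, 0 ≤ Real.exp (-x + θ * m s) *
      win.indicator (fun ω => Real.exp (X ω - θ * (X ω - Xs s ω))) ω := fun s _ =>
    mul_nonneg (Real.exp_pos _).le (Set.indicator_nonneg (fun _ _ => (Real.exp_pos _).le) _)
  by_cases hw : ω ∈ win
  · have hlt : Real.exp (-1 - x) * win.indicator (fun ω => Real.exp (X ω)) ω ≤ 1 := by
      rw [Set.indicator_of_mem hw, ← Real.exp_add, Real.exp_le_one_iff]
      have := hw.2
      linarith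
    by_cases he : ω ∈ E
    · rw [Set.indicator_of_mem he]
      have := Finset.sum_nonneg hsum0
      linarith
    · rw [Set.indicator_of_notMem he]
      have : ∃ s ∈ T, X ω - Xs s ω < m s := by
        by_contra hc
        push Not at hc
        exact he ⟨hw, hc⟩
      obtain ⟨s, hs, hlt'⟩ := this
      have h1 : 1 ≤ Real.exp (-x + θ * m s) *
          win.indicator (fun ω => Real.exp (X ω - θ * (X ω - Xs s ω))) ω := by
        rw [Set.indicator_of_mem hw, ← Real.exp_add]
        apply Real.one_le_exp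
        have h2 := mul_le_mul_of_nonneg_left hlt'.le hθ
        have := hw.1
        linarith
      have h2 := Finset.single_le_sum hsum0 hs
      linarith
  · rw [Set.indicator_of_notMem hw, mul_zero, zero_sub]
    have h0 : 0 ≤ E.indicator (fun _ => (1 : ℝ)) ω :=
      Set.indicator_nonneg (fun _ _ => zero_le_one) _
    have := Finset.sum_nonneg hsum0
    linarith

theorem EWL_geom {η : ℝ} (hη : 0 < η) {L : ℝ} (hL : 0 ≤ L) :
    ∑ s ∈ Finset.range (⌊L⌋₊ + 1), Real.exp (-η * (L - s)) ≤ (1 - Real.exp (-η))⁻¹ := by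
  set n := ⌊L⌋₊ with hn
  have hnL : (n : ℝ) ≤ L := Nat.floor_le hL
  have h1 : ∑ s ∈ Finset.range (n + 1), Real.exp (-η * (L - s)) ≤
      ∑ s ∈ Finset.range (n + 1), (Real.exp (-η)) ^ (n + 1 - 1 - s) := by
    refine Finset.sum_le_sum fun s hs => ?_
    rw [← Real.exp_nat_mul]
    apply Real.exp_le_exp.2
    have hs' : s ≤ n := Nat.lt_succ_iff.1 (Finset.mem_range.1 hs)
    rw [show n + 1 - 1 - s = n - s by omega, Nat.cast_sub hs']
    have : 0 ≤ η * (L - n) := mul_nonneg hη.le (by linarith)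
    nlinarith
  refine h1.trans ?_
  rw [Finset.sum_range_reflect]
  have hlt : Real.exp (-η) < 1 := by rw [Real.exp_lt_one_iff]; linarith
  have := (summable_geometric_of_lt_one (Real.exp_pos (-η)).le hlt).sum_le_tsum
    (Finset.range (n + 1)) (fun _ _ => by positivity)
  rwa [tsum_geometric_of_lt_one (Real.exp_pos (-η)).le hlt] at this

theorem EWL_card {γ y A lam : ℝ} (hA : 0 ≤ A) :
    ((KW γ y A lam).card : ℝ) ≤ 2 * A * Real.sqrt (Real.log (Real.log y)) + 1 := by
  set S := KW γ y A lam with hS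
  set L := 2 * A * Real.sqrt (Real.log (Real.log y)) with hL
  have hL0 : 0 ≤ L := by positivity
  rcases S.eq_empty_or_nonempty with he | hne
  · rw [he]; simp; linarith
  · have hsub : S ⊆ Finset.Icc (S.min' hne) (S.min' hne + ⌊L⌋₊) := by
      intro k hk
      rw [Finset.mem_Icc]
      refine ⟨Finset.min'_le _ _ hk, ?_⟩
      have hm := Finset.min'_mem S hne
      have h1 : |xk y lam k - (al γ) ^ 2 / 2 * Real.log (Real.log y)| ≤
        A * Real.sqrt (Real.log (Real.log y)) := (Finset.mem_filter.1 hk).2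
      have h2 : |xk y lam (S.min' hne) - (al γ) ^ 2 / 2 * Real.log (Real.log y)| ≤
        A * Real.sqrt (Real.log (Real.log y)) := (Finset.mem_filter.1 hm).2
      have h3 : ((k : ℝ) - (S.min' hne : ℕ)) ≤ L := by
        have a1 := (abs_le.1 h1).2
        have a2 := (abs_le.1 h2).1
        unfold xk at a1 a2
        linarith
      have h4 : k - S.min' hne ≤ ⌊L⌋₊ := by
        apply Nat.le_floor
        rw [Nat.cast_sub (Finset.min'_le _ _ hk)]
        exact h3
      omega
    have h5 := Finset.card_le_card hsub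
    rw [Nat.card_Icc] at h5
    have h6 : S.card ≤ ⌊L⌋₊ + 1 := by omega
    have h7 : (S.card : ℝ) ≤ (⌊L⌋₊ : ℝ) + 1 := by exact_mod_cast h6
    linarith [Nat.floor_le hL0]

/-- the law of the logarithm does not depend on the height -/
theorem EWL_shift (hI : S_INV) (hS : S_SHIFT) (γ : ℝ) (A : Finset ℕ) (hA : ∀ l ∈ A, l.Prime)
    (σ : ℝ) (Φ : ℝ → ℝ) (hΦ : Measurable Φ) (hG : Measurable (fun ω : Om => G γ A σ 0 ω)) (t : ℝ) :
    ∫ ω : Om, Φ (G γ A σ t ω) ∂P = ∫ ω : Om, Φ (G γ A σ 0 ω) ∂P := by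
  obtain ⟨s, hs⟩ := hS t
  have h1 : ∀ ω : Om, G γ A σ t ω = G γ A σ 0 (ω + s) := by
    intro ω
    unfold G
    refine Finset.sum_congr rfl fun l hl => ?_
    have := hs l (hA l hl).pos σ 0 ω
    rw [zero_add] at this
    rw [this]
  simp_rw [h1]
  have hmp := hI s
  have h2 : ∫ ω : Om, Φ (G γ A σ 0 ω) ∂(P.map (fun ω : Om => ω + s)) =
      ∫ ω : Om, Φ (G γ A σ 0 (ω + s)) ∂P :=
    integral_map hmp.measurable.aemeasurable ((hΦ.comp hG).aestronglyMeasurable)
  rw [← h2, hmp.map_eq]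

/-- mean of a block functional -/
theorem EWL_fub {Ω : Type*} [MeasurableSpace Ω] (P : Measure Ω) [IsProbabilityMeasure P]
    {E : ℕ → ℝ → Set Ω}
    (hm : ∀ k : ℕ, Measurable (fun q : ℝ × Ω => Set.indicator (E k q.1) (fun _ => (1 : ℝ)) q.2))
    (K : Finset ℕ) (Y : ℝ) (hY : 0 ≤ Y) (v : ℕ → ℝ) (hv : ∀ k ∈ K, ∀ t, v k ≤ P.real (E k t)) :
    Y * ∑ k ∈ K, (Real.exp (k + 1) - Real.exp k) * v k ≤
    ∫ ω, (Y * ∑ k ∈ K, ∫ t in Set.Ioc (Real.exp k) (Real.exp (k + 1)),
      Set.indicator (E k t) (fun _ => (1 : ℝ)) ω) ∂P := by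
  rw [integral_const_mul]
  refine mul_le_mul_of_nonneg_left ?_ hY
  have hind0 : ∀ (k : ℕ) (t : ℝ) (ω : Ω), 0 ≤ Set.indicator (E k t) (fun _ => (1 : ℝ)) ω :=
    fun _ _ _ => Set.indicator_nonneg (fun _ _ => zero_le_one) _
  have hind1 : ∀ (k : ℕ) (t : ℝ) (ω : Ω), Set.indicator (E k t) (fun _ => (1 : ℝ)) ω ≤ 1 :=
    fun _ _ _ => Set.indicator_le_self' (fun _ _ => zero_le_one) _
  have hIm : ∀ k : ℕ, Measurable (fun ω => ∫ t in Set.Ioc (Real.exp k) (Real.exp (k + 1)),
      Set.indicator (E k t) (fun _ => (1 : ℝ)) ω) := fun k =>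
    ((hm k).stronglyMeasurable.integral_prod_left').measurable
  have hII : ∀ k ∈ K, Integrable (fun ω => ∫ t in Set.Ioc (Real.exp k) (Real.exp (k + 1)),
      Set.indicator (E k t) (fun _ => (1 : ℝ)) ω) P := by
    intro k _
    refine Integrable.of_bound (hIm k).aestronglyMeasurable
      ((volume.restrict (Set.Ioc (Real.exp k) (Real.exp (k + 1)))).real Set.univ)
      (Filter.Eventually.of_forall fun ω => ?_)
    refine (norm_integral_le_of_norm_le_const (C := 1)
      (Filter.Eventually.of_forall fun t => ?_)).trans (by rw [one_mul])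
    rw [Real.norm_eq_abs, abs_of_nonneg (hind0 k t ω)]
    exact hind1 k t ω
  rw [integral_finsetSum _ hII]
  refine Finset.sum_le_sum fun k hk => ?_
  have hset : ∀ t, MeasurableSet (E k t) := by
    intro t
    have h0 : Measurable (fun ω : Ω => ((t, ω) : ℝ × Ω)) := measurable_prodMk_left
    have h1 : Measurable ((fun q : ℝ × Ω => Set.indicator (E k q.1) (fun _ => (1 : ℝ)) q.2) ∘
      (fun ω : Ω => ((t, ω) : ℝ × Ω))) := (hm k).comp h0
    have h2 : E k t = ((fun q : ℝ × Ω => Set.indicator (E k q.1) (fun _ => (1 : ℝ)) q.2) ∘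
      (fun ω : Ω => ((t, ω) : ℝ × Ω))) ⁻¹' {1} := by
      ext ω
      by_cases hω : ω ∈ E k t
      · simp [hω]
      · simp [hω]
    rw [h2]
    exact h1 (measurableSet_singleton 1)
  rw [integral_integral_swap]
  · have e1 : ∀ t, ∫ ω, Set.indicator (E k t) (fun _ => (1 : ℝ)) ω ∂P = P.real (E k t) :=
      fun t => integral_indicator_one (hset t)
    simp only [e1]
    have e2 : (Real.exp (k + 1) - Real.exp k) * v k =
        ∫ _t in Set.Ioc (Real.exp k) (Real.exp (k + 1)), v k := by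
      rw [← intervalIntegral.integral_of_le (Real.exp_le_exp.2 (by linarith))]
      simp
    rw [e2]
    refine integral_mono (integrable_const _) ?_ (fun t => hv k hk t)
    have e3 : (fun t => P.real (E k t)) =
        fun t => ∫ ω, Set.indicator (E k t) (fun _ => (1 : ℝ)) ω ∂P := by
      funext t; rw [e1]
    rw [e3]
    refine Integrable.of_bound
      ((hm k).stronglyMeasurable.integral_prod_right').aestronglyMeasurable 1
      (Filter.Eventually.of_forall fun t => ?_)
    rw [e1, Real.norm_eq_abs, abs_of_nonneg measureReal_nonneg]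
    exact measureReal_le_one
  · refine Integrable.of_bound (C := 1) ?_ (Filter.Eventually.of_forall fun q => ?_)
    · exact ((hm k).comp measurable_swap).aestronglyMeasurable
    · rw [Real.norm_eq_abs]
      simp only [Function.uncurry]
      rw [abs_of_nonneg (hind0 _ _ _)]
      exact hind1 _ _ _

theorem EWL (h1 : S_ONE) (hT : S_TLT) (hG : S_GC) (hW : S_WM) (hI : S_INV) (hS : S_SHIFT) :
    S_EWL := by
  intro γ p0 hg hγ β hβ0 hβ
  have hal : 2 < al γ := by
    unfold al
    have := Real.rpow_lt_rpow_of_exponent_lt (show (1 : ℝ) < 2 by norm_num) hγ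
    simpa using this
  set a2 : ℝ := (al γ) ^ 2 with ha2
  have ha4 : 4 < a2 := by nlinarith
  obtain ⟨A, c, y1, hA, hc, hy1, HT⟩ := hT γ p0 hg
  obtain ⟨C, y2, hC, hy2, HO⟩ := h1 γ p0 hg
  set θ : ℝ := 2 * β / a2 with hθ
  have hθa : θ * a2 = 2 * β := by rw [hθ]; field_simp
  have hθ0 : 0 < θ := by rw [hθ]; positivity
  have hθ1 : θ ≤ 1 := by
    rw [hθ, div_le_one (by linarith)]
    linarith
  set η : ℝ := θ * β / 2 with hη
  have hη0 : 0 < η := by positivity
  have hexpη : Real.exp (-η) < 1 := by rw [Real.exp_lt_one_iff]; linarith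
  set Γ : ℝ := (1 - Real.exp (-η))⁻¹ with hΓ
  have hΓ0 : 0 < Γ := by rw [hΓ]; apply inv_pos.2; linarith
  set κ : ℝ := 1 + |Real.log (18 * A * C * Γ / c)| / θ with hκ
  have hκ0 : 0 < κ := by
    have : 0 ≤ |Real.log (18 * A * C * Γ / c)| / θ := by positivity
    linarith
  have hA0 : 0 < A := by linarith
  have hexpκ : Real.exp (-(θ * κ)) ≤ c / (18 * A * C * Γ) := by
    have h1 : Real.log (18 * A * C * Γ / c) ≤ θ * κ := by
      have : θ * κ = θ + |Real.log (18 * A * C * Γ / c)| := by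
        rw [hκ]; field_simp
      rw [this]
      linarith [le_abs_self (Real.log (18 * A * C * Γ / c))]
    have h2 : Real.exp (-(θ * κ)) ≤ Real.exp (-Real.log (18 * A * C * Γ / c)) :=
      Real.exp_le_exp.2 (by linarith)
    refine h2.trans ?_
    rw [Real.exp_neg, Real.exp_log (by positivity), inv_div]
  set M : ℝ := max A (A / (a2 / 8 - 1 / 2)) with hM
  refine ⟨A, κ, c / 6, max (max y1 y2) (Real.exp (Real.exp (M ^ 2))), hA, hκ0, by positivity,
    le_max_of_le_left (le_max_of_le_left hy1), ?_⟩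
  intro y lam hy hlam1 hlam2
  have hya : y1 ≤ y := (le_max_left _ _).trans ((le_max_left _ _).trans hy)
  have hyb : y2 ≤ y := (le_max_right _ _).trans ((le_max_left _ _).trans hy)
  have hyc : Real.exp (Real.exp (M ^ 2)) ≤ y := (le_max_right _ _).trans hy
  have hy3 : Real.exp 3 ≤ y := hy1.trans hya
  have hy0 : 0 < y := lt_of_lt_of_le (Real.exp_pos 3) hy3
  have hY3 : 3 ≤ Real.log y := by
    rw [Real.le_log_iff_exp_le hy0]; exact hy3
  have hY0 : 0 < Real.log y := by linarith
  have hLLM : M ^ 2 ≤ Real.log (Real.log y) := by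
    rw [Real.le_log_iff_exp_le hY0, Real.le_log_iff_exp_le hy0]; exact hyc
  have hMA : A ≤ M := le_max_left _ _
  have hMB : A / (a2 / 8 - 1 / 2) ≤ M := le_max_right _ _
  have HO' := fun (θ x t : ℝ) (s : ℕ) => HO y θ x t s hyb
  have HT' := HT y 0 hya
  have hW' := (hW γ p0 hg y β κ A lam hy3).1
  set Y := Real.log y with hYd
  set LL := Real.log Y with hLLd
  set r := Real.sqrt LL with hr
  have hM0 : 0 ≤ M := by linarith
  have hLL0 : 0 < LL := by nlinarith
  have hrM : M ≤ r := by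
    rw [hr]; exact Real.le_sqrt_of_sq_le hLLM
  have hr1 : 1 ≤ r := by linarith
  have hr0 : 0 < r := by linarith
  have hrr : r * r = LL := Real.mul_self_sqrt hLL0.le
  set Q := Y ^ (a2 / 4) with hQ
  have hQ0 : 0 < Q := Real.rpow_pos_of_pos hY0 _
  have hlam0 : 0 < lam := lt_of_lt_of_le hQ0 hlam1
  have hQe : Q = Real.exp (a2 / 4 * LL) := by
    rw [hQ, Real.rpow_def_of_pos hY0, mul_comm]
  have hll1 : a2 / 4 * LL ≤ Real.log lam := by
    rw [Real.le_log_iff_exp_le hlam0, ← hQe]; exact hlam1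
  have hll2 : Real.log lam ≤ (a2 / 4 + (a2 / 4 - 1) / 2) * LL := by
    rw [Real.log_le_iff_le_exp hlam0]
    refine hlam2.trans (le_of_eq ?_)
    rw [Real.rpow_def_of_pos hY0, mul_comm]
  -- the Gaussian field
  set X : ℝ → Om → ℝ := fun t ω => G γ (PrS p0 y) (2 / Y) t ω with hX
  set Xs : ℕ → ℝ → Om → ℝ := fun s t ω => G γ (PrS p0 (xs s)) (2 / Y) t ω with hXs
  have hpa : ∀ v : ℝ, PA p0 (PrS p0 v) := by
    intro v l hl
    simp only [PrS, Finset.mem_filter, Finset.mem_range] at hl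
    exact ⟨hl.2.1, by exact_mod_cast hl.2.2⟩
  have hln : ∀ v : ℝ, 0 ≤ v → v ≤ y → Ln (PrS p0 v) (2 / Y) := by
    intro v hv0 hv l hl
    simp only [PrS, Finset.mem_filter, Finset.mem_range] at hl
    have h1 : (l : ℝ) ≤ v := (Nat.le_floor_iff hv0).1 (Nat.lt_succ_iff.1 hl.1)
    have h0 : (1 : ℝ) ≤ l := by exact_mod_cast hl.2.1.one_lt.le
    have h2 : Real.log l ≤ Y := Real.log_le_log (by linarith) (by linarith)
    rw [abs_of_pos (by positivity)]
    calc 2 / Y * Real.log l ≤ 2 / Y * Y := by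
          apply mul_le_mul_of_nonneg_left h2; positivity
      _ = 2 := by field_simp
      _ ≤ 8 := by norm_num
  have hxs : ∀ s : ℕ, (s : ℝ) ≤ LL → xs s ≤ y := by
    intro s hs
    unfold xs
    rw [← Real.le_log_iff_exp_le hy0, ← Real.le_log_iff_exp_le hY0]
    exact hs
  obtain ⟨gc1, -, gc3⟩ := hG γ p0 hg (PrS p0 y) (hpa y) (2 / Y) (hln y hy0.le le_rfl)
  have hXc : ∀ t, Measurable (X t) := by
    intro t
    have h0 : Continuous (fun ω : Om => ((t, ω) : ℝ × Om)) := by fun_prop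
    exact (gc1.comp h0).measurable
  have hXb : ∀ t ω, |X t ω| ≤ ((PrS p0 y).card : ℝ) := fun t ω => gc3 t ω
  set T : Finset ℕ := Finset.range (⌊LL⌋₊ + 1) with hTd
  have hTs : ∀ s : ℕ, s ∈ T ↔ (s : ℝ) ≤ LL := by
    intro s
    rw [hTd, Finset.mem_range, Nat.lt_succ_iff, Nat.le_floor_iff hLL0.le]
  have hXsc : ∀ s ∈ T, ∀ t, Measurable (Xs s t) := by
    intro s hs t
    obtain ⟨g1, -, -⟩ := hG γ p0 hg (PrS p0 (xs s)) (hpa _) (2 / Y)
      (hln _ (Real.exp_pos _).le (hxs s ((hTs s).1 hs)))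
    have h0 : Continuous (fun ω : Om => ((t, ω) : ℝ × Om)) := by fun_prop
    exact (g1.comp h0).measurable
  have hXsb : ∀ s ∈ T, ∀ t ω, |Xs s t ω| ≤ ((PrS p0 (xs s)).card : ℝ) := by
    intro s hs t ω
    obtain ⟨-, -, g3⟩ := hG γ p0 hg (PrS p0 (xs s)) (hpa _) (2 / Y)
      (hln _ (Real.exp_pos _).le (hxs s ((hTs s).1 hs)))
    exact g3 t ω
  -- window masses
  set g : ℕ → ℝ := fun k => ∫ ω : Om, Set.indicator {ω | xk y lam k ≤ X 0 ω ∧
    X 0 ω ≤ xk y lam k + 1} (fun ω => Real.exp (X 0 ω)) ω ∂P with hgd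
  have hgt : ∀ (k : ℕ) (t : ℝ), ∫ ω : Om, Set.indicator {ω | xk y lam k ≤ X t ω ∧
    X t ω ≤ xk y lam k + 1} (fun ω => Real.exp (X t ω)) ω ∂P = g k := by
    intro k t
    have hΦ : Measurable (fun u : ℝ => Set.indicator (Set.Icc (xk y lam k) (xk y lam k + 1))
      Real.exp u) := Real.measurable_exp.indicator measurableSet_Icc
    have e : ∀ (t : ℝ) (ω : Om), Set.indicator {ω | xk y lam k ≤ X t ω ∧
      X t ω ≤ xk y lam k + 1} (fun ω => Real.exp (X t ω)) ω =
      (fun u : ℝ => Set.indicator (Set.Icc (xk y lam k) (xk y lam k + 1)) Real.exp u) (X t ω) := by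
      intro t ω
      by_cases hw : xk y lam k ≤ X t ω ∧ X t ω ≤ xk y lam k + 1
      · rw [Set.indicator_of_mem (show ω ∈ {ω | xk y lam k ≤ X t ω ∧
          X t ω ≤ xk y lam k + 1} from hw)]
        simp only
        rw [Set.indicator_of_mem (show X t ω ∈ Set.Icc (xk y lam k) (xk y lam k + 1) from hw)]
      · rw [Set.indicator_of_notMem (show ω ∉ {ω | xk y lam k ≤ X t ω ∧
          X t ω ≤ xk y lam k + 1} from hw)]
        simp only
        rw [Set.indicator_of_notMem (show X t ω ∉ Set.Icc (xk y lam k) (xk y lam k + 1) from hw)]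
    have e' : ∀ t : ℝ, ∫ ω : Om, Set.indicator {ω | xk y lam k ≤ X t ω ∧
      X t ω ≤ xk y lam k + 1} (fun ω => Real.exp (X t ω)) ω ∂P =
      ∫ ω : Om, (fun u : ℝ => Set.indicator (Set.Icc (xk y lam k) (xk y lam k + 1))
        Real.exp u) (X t ω) ∂P := fun t => integral_congr_ae (Filter.Eventually.of_forall (e t))
    rw [hgd]
    simp only
    rw [e' t, e' 0]
    exact EWL_shift hI hS γ (PrS p0 y) (fun l hl => (hpa y l hl).1) (2 / Y) _ hΦ (hXc 0) t
  set E0 : ℝ := C / r * Q * Real.exp (-(θ * κ)) * Γ with hE0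
  have hE00 : 0 ≤ E0 := by positivity
  -- pointwise in t
  have hpt : ∀ k ∈ KW γ y A lam, ∀ t : ℝ,
      Real.exp (-1 - xk y lam k) * g k - Real.exp (-(xk y lam k)) * E0 ≤
        P.real (Ev γ p0 y β κ lam k t) := by
    intro k _ t
    have h2 := EWL_point P (X t) (fun s => Xs s t) (hXc t) (hXb t) T (fun s hs => hXsc s hs t)
      (fun s => ((PrS p0 (xs s)).card : ℝ)) (fun s hs => hXsb s hs t) (xk y lam k) θ hθ0.le
      (fun s => (a2 / 2 - β) * (LL - s) - κ)
    have hev : {ω | (xk y lam k ≤ X t ω ∧ X t ω ≤ xk y lam k + 1) ∧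
        ∀ s ∈ T, (a2 / 2 - β) * (LL - s) - κ ≤ X t ω - Xs s t ω} =
        Ev γ p0 y β κ lam k t := by
      ext ω
      simp only [Ev, Set.mem_ofPred_eq, hTs]
      exact Iff.rfl
    rw [hev] at h2
    refine le_trans ?_ h2
    rw [hgt k t]
    refine sub_le_sub_left ?_ _
    have hterm : ∀ s ∈ T, Real.exp (-(xk y lam k) + θ * ((a2 / 2 - β) * (LL - s) - κ)) *
        (∫ ω : Om, Set.indicator {ω | xk y lam k ≤ X t ω ∧ X t ω ≤ xk y lam k + 1}
        (fun ω => Real.exp (X t ω - θ * (X t ω - Xs s t ω))) ω ∂P) ≤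
        Real.exp (-(xk y lam k)) * (C / r * Q * Real.exp (-(θ * κ))) *
          Real.exp (-η * (LL - s)) := by
      intro s hs
      have h3 := HO' θ (xk y lam k) t s hθ0.le hθ1 ((hTs s).1 hs)
      calc _ ≤ Real.exp (-(xk y lam k) + θ * ((a2 / 2 - β) * (LL - s) - κ)) *
            (C / r * Real.exp (a2 / 4 * (s + (1 - θ) ^ 2 * (LL - s)))) :=
            mul_le_mul_of_nonneg_left h3 (Real.exp_pos _).le
        _ = C / r * (Real.exp (-(xk y lam k) + θ * ((a2 / 2 - β) * (LL - s) - κ)) *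
            Real.exp (a2 / 4 * (s + (1 - θ) ^ 2 * (LL - s)))) := by ring
        _ = C / r * (Real.exp (-(xk y lam k)) * Real.exp (a2 / 4 * LL) *
            Real.exp (-(θ * κ)) * Real.exp (-η * (LL - s))) := by
            rw [← Real.exp_add, ← Real.exp_add, ← Real.exp_add, ← Real.exp_add]
            congr 2
            rw [hη]
            linear_combination ((LL - s) * θ / 4) * hθa
        _ = _ := by rw [hQe]; ring
    refine (Finset.sum_le_sum hterm).trans ?_
    rw [← Finset.mul_sum]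
    have h4 := EWL_geom hη0 hLL0.le
    calc Real.exp (-(xk y lam k)) * (C / r * Q * Real.exp (-(θ * κ))) *
          ∑ s ∈ T, Real.exp (-η * (LL - s)) ≤
          Real.exp (-(xk y lam k)) * (C / r * Q * Real.exp (-(θ * κ))) * Γ :=
          mul_le_mul_of_nonneg_left h4 (by positivity)
      _ = Real.exp (-(xk y lam k)) * E0 := by rw [hE0]; ring
  have hfub := EWL_fub P hW' (KW γ y A lam) Y hY0.le
    (fun k => Real.exp (-1 - xk y lam k) * g k - Real.exp (-(xk y lam k)) * E0) hpt
  have hWe : ∫ ω : Om, W γ p0 y β κ A lam ω ∂P = ∫ ω : Om, (Y * ∑ k ∈ KW γ y A lam,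
      ∫ t in Set.Ioc (Real.exp k) (Real.exp (k + 1)),
      Set.indicator (Ev γ p0 y β κ lam k t) (fun _ => (1 : ℝ)) ω) ∂P := rfl
  rw [hWe]
  refine le_trans ?_ hfub
  -- the covering of the bulk by the windows
  have hcov : c * Q ≤ ∑ k ∈ KW γ y A lam, g k := by
    refine HT'.trans ?_
    have hwm : ∀ k : ℕ, MeasurableSet {ω : Om | xk y lam k ≤ X 0 ω ∧ X 0 ω ≤ xk y lam k + 1} :=
      fun k => (measurableSet_le measurable_const (hXc 0)).inter
        (measurableSet_le (hXc 0) measurable_const)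
    have hbm : MeasurableSet {ω : Om | |X 0 ω - a2 / 2 * LL| ≤ A * r - 2} :=
      measurableSet_le (((hXc 0).sub_const _).abs) measurable_const
    have hexp : Integrable (fun ω : Om => Real.exp (X 0 ω)) P := by
      refine Integrable.of_bound (hXc 0).exp.aestronglyMeasurable
        (Real.exp ((PrS p0 y).card : ℝ)) (Filter.Eventually.of_forall fun ω => ?_)
      rw [Real.norm_eq_abs, Real.abs_exp]
      exact Real.exp_le_exp.2 ((le_abs_self _).trans (hXb 0 ω))
    rw [hgd]
    simp only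
    rw [← integral_finsetSum _ fun k _ => hexp.indicator (hwm k)]
    refine integral_mono (hexp.indicator hbm)
      (integrable_finsetSum _ fun k _ => hexp.indicator (hwm k)) fun ω => ?_
    show Set.indicator {ω : Om | |X 0 ω - a2 / 2 * LL| ≤ A * r - 2}
      (fun ω => Real.exp (X 0 ω)) ω ≤ ∑ k ∈ KW γ y A lam,
      Set.indicator {ω | xk y lam k ≤ X 0 ω ∧ X 0 ω ≤ xk y lam k + 1}
        (fun ω => Real.exp (X 0 ω)) ω
    have hnn : ∀ k ∈ KW γ y A lam, 0 ≤
      Set.indicator {ω | xk y lam k ≤ X 0 ω ∧ X 0 ω ≤ xk y lam k + 1}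
        (fun ω => Real.exp (X 0 ω)) ω := fun k _ =>
      Set.indicator_nonneg (fun _ _ => (Real.exp_pos _).le) _
    by_cases hb : |X 0 ω - a2 / 2 * LL| ≤ A * r - 2
    · rw [Set.indicator_of_mem (show ω ∈ {ω : Om | |X 0 ω - a2 / 2 * LL| ≤ A * r - 2} from hb)]
      obtain ⟨hb1, hb2⟩ := abs_le.1 hb
      set k : ℕ := ⌊X 0 ω - Real.log lam - LL⌋₊ with hk
      have hpos : 0 ≤ X 0 ω - Real.log lam - LL := by
        have h5 : A ≤ (a2 / 8 - 1 / 2) * r := by
          have h6 : A / (a2 / 8 - 1 / 2) ≤ r := hMB.trans hrM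
          rw [div_le_iff₀ (by linarith)] at h6
          linarith
        have h7 : A * r ≤ (a2 / 8 - 1 / 2) * LL := by
          calc A * r ≤ ((a2 / 8 - 1 / 2) * r) * r := mul_le_mul_of_nonneg_right h5 hr0.le
            _ = (a2 / 8 - 1 / 2) * (r * r) := by ring
            _ = _ := by rw [hrr]
        linarith
      have hk1 : (k : ℝ) ≤ X 0 ω - Real.log lam - LL := Nat.floor_le hpos
      have hk2 : X 0 ω - Real.log lam - LL < k + 1 := Nat.lt_floor_add_one _
      have hxk : xk y lam k = Real.log lam + LL + k := rfl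
      have hmem : k ∈ KW γ y A lam := by
        unfold KW
        rw [Finset.mem_filter, Finset.mem_range, Nat.lt_succ_iff]
        constructor
        · apply Nat.le_floor
          have h8 : A * r ≤ LL := by
            rw [← hrr]; exact mul_le_mul_of_nonneg_right (hMA.trans hrM) hr0.le
          show (k : ℝ) ≤ a2 * LL
          have h9 : 0 ≤ a2 / 4 * LL := by positivity
          nlinarith
        · show |xk y lam k - a2 / 2 * LL| ≤ A * r
          rw [hxk, abs_le]
          constructor <;> linarith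
      have hin : ω ∈ {ω : Om | xk y lam k ≤ X 0 ω ∧ X 0 ω ≤ xk y lam k + 1} := by
        rw [hxk]
        constructor <;> linarith
      have h10 := Finset.single_le_sum hnn hmem
      rw [Set.indicator_of_mem hin] at h10
      exact h10
    · rw [Set.indicator_of_notMem
        (show ω ∉ {ω : Om | |X 0 ω - a2 / 2 * LL| ≤ A * r - 2} from hb)]
      exact Finset.sum_nonneg hnn
  have hcard : ((KW γ y A lam).card : ℝ) ≤ 3 * A * r := by
    have h1 := EWL_card (γ := γ) (y := y) (A := A) (lam := lam) hA0.le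
    have h3 : (1 : ℝ) ≤ A * r := by nlinarith
    have h4 : 2 * A * Real.sqrt (Real.log (Real.log y)) + 1 = 2 * (A * r) + 1 := by
      rw [← hYd, ← hLLd, ← hr]; ring
    linarith
  -- final computation
  have hterm : ∀ k ∈ KW γ y A lam, Y * ((Real.exp (k + 1) - Real.exp k) *
      (Real.exp (-1 - xk y lam k) * g k - Real.exp (-(xk y lam k)) * E0)) =
      (Real.exp 1 - 1) / lam * (g k / Real.exp 1 - E0) := by
    intro k _
    have h1 : Real.exp (-(xk y lam k)) = 1 / (lam * Y * Real.exp k) := by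
      unfold xk
      rw [Real.exp_neg, Real.exp_add, Real.exp_add, Real.exp_log hlam0, Real.exp_log hY0, one_div]
    have h2 : Real.exp (-1 - xk y lam k) = 1 / (lam * Y * Real.exp k) / Real.exp 1 := by
      rw [show -1 - xk y lam k = -(xk y lam k) - 1 by ring, Real.exp_sub, h1]
    have h3 : Real.exp ((k : ℝ) + 1) = Real.exp k * Real.exp 1 := Real.exp_add _ _
    rw [h1, h2, h3]
    have hk0 : 0 < Real.exp (k : ℝ) := Real.exp_pos _
    have he0 : 0 < Real.exp 1 := Real.exp_pos _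
    field_simp
  rw [Finset.mul_sum, Finset.sum_congr rfl hterm, ← Finset.mul_sum, Finset.sum_sub_distrib,
    ← Finset.sum_div, Finset.sum_const, nsmul_eq_mul]
  have he : Real.exp 1 < 3 := by linarith [Real.exp_one_lt_d9]
  have he2 : 2 ≤ Real.exp 1 := by linarith [Real.add_one_le_exp (1 : ℝ)]
  have hnE : ((KW γ y A lam).card : ℝ) * E0 ≤ c / 6 * Q := by
    calc ((KW γ y A lam).card : ℝ) * E0 ≤ (3 * A * r) * E0 :=
          mul_le_mul_of_nonneg_right hcard hE00
      _ = 3 * A * C * Γ * Q * Real.exp (-(θ * κ)) := by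
          rw [hE0]; field_simp
      _ ≤ 3 * A * C * Γ * Q * (c / (18 * A * C * Γ)) :=
          mul_le_mul_of_nonneg_left hexpκ (by positivity)
      _ = c / 6 * Q := by field_simp; norm_num
  have hge : c / 3 * Q ≤ (∑ k ∈ KW γ y A lam, g k) / Real.exp 1 := by
    rw [le_div_iff₀ (by linarith)]
    calc c / 3 * Q * Real.exp 1 ≤ c / 3 * Q * 3 :=
          mul_le_mul_of_nonneg_left he.le (by positivity)
      _ = c * Q := by ring
      _ ≤ _ := hcov
  calc c / 6 * Q / lam = 1 / lam * (c / 6 * Q) := by ring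
    _ ≤ (Real.exp 1 - 1) / lam * (c / 6 * Q) := by
        apply mul_le_mul_of_nonneg_right _ (by positivity)
        apply div_le_div_of_nonneg_right _ hlam0.le
        linarith
    _ ≤ (Real.exp 1 - 1) / lam * ((∑ k ∈ KW γ y A lam, g k) / Real.exp 1 -
        ((KW γ y A lam).card : ℝ) * E0) := by
        apply mul_le_mul_of_nonneg_left _ (by apply div_nonneg _ hlam0.le; linarith)
        linarith

end PM
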