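import Pool.Agent.H24.PM.EWB

/-! Module EWN of project PM: pairs of points at distance at most one. -/

namespace PM
open MeasureTheory Complex

attribute [local irreducible] G PrS

/-- pointwise bound -/
theorem ewn_pt (hN : S_NEAR) (hGC : S_GC) (γ : ℝ) (p0 : ℕ) (hp : Good γ p0) :
    ∃ C y0 : ℝ, 0 < C ∧ Real.exp 3 ≤ y0 ∧ ∀ (β κ y lam t1 t2 : ℝ) (k1 k2 s : ℕ), y0 ≤ y →
      0 < lam → (s : ℝ) ≤ Real.log (Real.log y) → |t1 - t2| ≤ 1 →
      (Real.exp (-((s : ℝ) + 1)) ≤ |t1 - t2| ∨ Real.log (Real.log y) ≤ (s : ℝ) + 1) →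
      P.real (Ev γ p0 y β κ lam k1 t1 ∩ Ev γ p0 y β κ lam k2 t2) ≤
        C / Real.sqrt (Real.log (Real.log y)) * Real.exp κ *
          ((Real.log y) ^ ((al γ) ^ 2 / 4) / lam) * Real.exp (-(k2 : ℝ)) *
          (Real.exp s * Real.exp (-((al γ) ^ 2 / 4 - β - 1) * (Real.log (Real.log y) - s))) /
          (Real.log y) ^ 2 := by
  obtain ⟨C, y0, hC, hy0, hN⟩ := hN γ p0 hp
  refine ⟨C, y0, hC, hy0, fun β κ y lam t1 t2 k1 k2 s hy hlam hs ht hs' => ?_⟩
  have h3 : 3 ≤ Real.log y := by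
    rw [Real.le_log_iff_exp_le (lt_of_lt_of_le (Real.exp_pos _) (hy0.trans hy))]
    exact hy0.trans hy
  have hY : 0 < Real.log y := by linarith
  have hY1 : 1 ≤ Real.log y := by linarith
  set LL := Real.log (Real.log y) with hLL
  have hYe : Real.log y = Real.exp LL := by rw [hLL, Real.exp_log hY]
  obtain ⟨c1, b1⟩ := ewb_cont hGC hp hY1 (le_refl (Real.log y)) t1
  obtain ⟨c2, b2⟩ := ewb_cont hGC hp hY1 (le_refl (Real.log y)) t2
  obtain ⟨c3, b3⟩ := ewb_cont hGC hp hY1 (ewb_xs hY1 hs) t1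
  have hmain := hN y (xk y lam k1) t1 t2 s hy hs ht hs'
  set m : ℝ := ((al γ) ^ 2 / 2 - β) * (LL - s) - κ + xk y lam k2 with hm
  have hmeas : MeasurableSet {ω : Om | xk y lam k1 ≤ G γ (PrS p0 y) (2 / Real.log y) t1 ω ∧
      G γ (PrS p0 y) (2 / Real.log y) t1 ω ≤ xk y lam k1 + 1} :=
    (measurableSet_le measurable_const c1.measurable).inter
      (measurableSet_le c1.measurable measurable_const)
  have h1 := ewb_markov (E := Ev γ p0 y β κ lam k1 t1 ∩ Ev γ p0 y β κ lam k2 t2) hmeas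
    (h := fun ω => G γ (PrS p0 y) (2 / Real.log y) t1 ω +
      G γ (PrS p0 y) (2 / Real.log y) t2 ω - G γ (PrS p0 (xs s)) (2 / Real.log y) t1 ω)
    ((c1.add c2).sub c3)
    (B := (PrS p0 y).card + (PrS p0 y).card + (PrS p0 (xs s)).card)
    (fun ω => by
      have e1 := (abs_le.1 (b1 ω)).2
      have e2 := (abs_le.1 (b2 ω)).2
      have e3 := (abs_le.1 (b3 ω)).1
      linarith) m
    (by
      rintro ω ⟨⟨⟨e1, e2⟩, e3⟩, ⟨⟨e4, e5⟩, e6⟩⟩
      refine ⟨⟨e1, e2⟩, ?_⟩
      have := e3 s hs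
      rw [hm]
      linarith)
  have h2 : Real.exp (-m) = Real.exp κ * Real.exp (-(((al γ) ^ 2 / 2 - β) * (LL - s))) *
      (1 / (lam * Real.log y * Real.exp k2)) := by
    rw [← ewb_exk hY hlam, ← Real.exp_add, ← Real.exp_add, hm]
    congr 1; ring
  have hQ : (Real.log y) ^ ((al γ) ^ 2 / 4) = Real.exp ((al γ) ^ 2 / 4 * LL) := by
    rw [hLL, Real.rpow_def_of_pos hY, mul_comm]
  have h4 : Real.exp (-m) * (C / Real.sqrt LL *
      Real.exp ((al γ) ^ 2 / 4 * (s + 2 * (LL - s)))) =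
      C / Real.sqrt LL * Real.exp κ * ((Real.log y) ^ ((al γ) ^ 2 / 4) / lam) *
        Real.exp (-(k2 : ℝ)) *
        (Real.exp s * Real.exp (-((al γ) ^ 2 / 4 - β - 1) * (LL - s))) / (Real.log y) ^ 2 := by
    have e1 : Real.exp (-(k2 : ℝ)) = 1 / Real.exp k2 := by rw [Real.exp_neg, one_div]
    have e2 : Real.exp s * Real.exp (-((al γ) ^ 2 / 4 - β - 1) * (LL - s)) =
        Real.log y * Real.exp (-(((al γ) ^ 2 / 2 - β) * (LL - s))) *
          Real.exp ((al γ) ^ 2 / 4 * (s + 2 * (LL - s))) / Real.exp ((al γ) ^ 2 / 4 * LL) := by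
      rw [eq_div_iff (Real.exp_pos _).ne', hYe, ← Real.exp_add, ← Real.exp_add, ← Real.exp_add,
        ← Real.exp_add]
      congr 1; ring
    rw [h2, e2, hQ, e1]
    have := (Real.exp_pos ((al γ) ^ 2 / 4 * LL)).ne'
    field_simp
  rw [← h4]
  refine h1.trans ?_
  gcongr

/-- integration of the pointwise bound -/
theorem ewn_int {f : ℝ → ℝ → ℝ} {A : ℕ → ℝ} {n : ℕ} (hf : ∀ t1 t2, 0 ≤ f t1 t2)
    (hA : ∀ s, 0 ≤ A s)
    (h : ∀ t1 t2, |t1 - t2| ≤ 1 → ∃ s ∈ Finset.range n, |t1 - t2| ≤ Real.exp (-(s : ℝ)) ∧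
      f t1 t2 ≤ A s) (k1 k2 : ℕ) :
    ∫ t1 in Set.Ioc (Real.exp k1) (Real.exp (k1 + 1)),
      ∫ t2 in Set.Ioc (Real.exp k2) (Real.exp (k2 + 1)) ∩ {t2 | |t1 - t2| ≤ 1}, f t1 t2 ≤
    2 * Real.exp k1 * ∑ s ∈ Finset.range n, A s * (2 * Real.exp (-(s : ℝ))) := by
  have hinner : ∀ t1 : ℝ,
      ∫ t2 in Set.Ioc (Real.exp k2) (Real.exp (k2 + 1)) ∩ {t2 | |t1 - t2| ≤ 1}, f t1 t2 ≤
      ∑ s ∈ Finset.range n, A s * (2 * Real.exp (-(s : ℝ))) := by
    intro t1
    set S : Set ℝ := Set.Ioc (Real.exp k2) (Real.exp (k2 + 1)) ∩ {t2 | |t1 - t2| ≤ 1} with hS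
    have hSm : MeasurableSet S := by
      rw [hS]
      exact measurableSet_Ioc.inter (measurableSet_le (by fun_prop) measurable_const)
    have hSf : volume S < ⊤ := lt_of_le_of_lt (measure_mono Set.inter_subset_left)
      (by rw [Real.volume_Ioc]; exact ENNReal.ofReal_lt_top)
    have hfin : IsFiniteMeasure (volume.restrict S) := ⟨by
      rw [Measure.restrict_apply_univ]; exact hSf⟩
    set g : ℝ → ℝ := fun t2 => ∑ s ∈ Finset.range n,
      Set.indicator (Metric.closedBall t1 (Real.exp (-(s : ℝ)))) (fun _ => A s) t2 with hg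
    have hgi : ∀ s ∈ Finset.range n, Integrable
        (fun t2 => Set.indicator (Metric.closedBall t1 (Real.exp (-(s : ℝ)))) (fun _ => A s) t2)
        (volume.restrict S) := fun s _ =>
      (integrable_const (A s)).indicator Metric.isClosed_closedBall.measurableSet
    have h1 : ∫ t2 in S, f t1 t2 ≤ ∫ t2 in S, g t2 := by
      refine integral_mono_of_nonneg (Filter.Eventually.of_forall fun t2 => hf t1 t2)
        (integrable_finsetSum _ hgi) ?_
      refine (ae_restrict_iff' hSm).2 (Filter.Eventually.of_forall fun t2 ht2 => ?_)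
      obtain ⟨s, hs, hs1, hs2⟩ := h t1 t2 ht2.2
      refine hs2.trans ?_
      have h3 : A s = Set.indicator (Metric.closedBall t1 (Real.exp (-(s : ℝ)))) (fun _ => A s) t2 := by
        rw [Set.indicator_of_mem]
        rw [Metric.mem_closedBall, Real.dist_eq, abs_sub_comm]
        exact hs1
      rw [h3, hg]
      exact Finset.single_le_sum (f := fun s : ℕ => Set.indicator
        (Metric.closedBall t1 (Real.exp (-(s : ℝ)))) (fun _ => A s) t2)
        (fun i _ => Set.indicator_nonneg (fun _ _ => hA i) t2) hs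
    refine h1.trans ?_
    rw [hg, integral_finsetSum _ hgi]
    refine Finset.sum_le_sum fun s _ => ?_
    rw [integral_indicator_const _ Metric.isClosed_closedBall.measurableSet, smul_eq_mul, mul_comm]
    refine mul_le_mul_of_nonneg_left ?_ (hA s)
    have h4 : (volume.restrict S).real (Metric.closedBall t1 (Real.exp (-(s : ℝ)))) ≤
        volume.real (Metric.closedBall t1 (Real.exp (-(s : ℝ)))) := by
      unfold Measure.real
      refine ENNReal.toReal_mono ?_ (Measure.restrict_apply_le _ _)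
      rw [Real.volume_closedBall]; exact ENNReal.ofReal_ne_top
    refine h4.trans ?_
    unfold Measure.real
    rw [Real.volume_closedBall, ENNReal.toReal_ofReal (by positivity)]
  have hnn : 0 ≤ ∑ s ∈ Finset.range n, A s * (2 * Real.exp (-(s : ℝ))) :=
    Finset.sum_nonneg fun s _ => mul_nonneg (hA s) (by positivity)
  calc _ ≤ ∫ _ in Set.Ioc (Real.exp k1) (Real.exp (k1 + 1)),
        ∑ s ∈ Finset.range n, A s * (2 * Real.exp (-(s : ℝ))) := by
        refine integral_mono_of_nonneg (Filter.Eventually.of_forall fun t1 => ?_)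
          (integrable_const _) (Filter.Eventually.of_forall fun t1 => hinner t1)
        exact integral_nonneg fun t2 => hf t1 t2
    _ = volume.real (Set.Ioc (Real.exp k1) (Real.exp (k1 + 1))) *
        ∑ s ∈ Finset.range n, A s * (2 * Real.exp (-(s : ℝ))) := by
        rw [setIntegral_const, smul_eq_mul]
    _ ≤ _ := by
        refine mul_le_mul_of_nonneg_right ?_ hnn
        unfold Measure.real
        rw [Real.volume_Ioc, ENNReal.toReal_ofReal
          (by rw [sub_nonneg]; exact Real.exp_le_exp.2 (by linarith)), Real.exp_add]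
        have := Real.exp_one_lt_d9
        nlinarith [Real.exp_pos (k1 : ℝ)]

/-- geometric sum -/
theorem ewn_geom {η L : ℝ} (hη : 0 < η) (hL : 0 ≤ L) :
    ∑ s ∈ Finset.range (⌊L⌋₊ + 1), Real.exp (-η * (L - s)) ≤ (1 - Real.exp (-η))⁻¹ := by
  rw [← Finset.sum_range_reflect]
  have h1 : ∀ j ∈ Finset.range (⌊L⌋₊ + 1), Real.exp (-η * (L - ((⌊L⌋₊ + 1 - 1 - j : ℕ) : ℝ))) ≤
      (Real.exp (-η)) ^ j := by
    intro j hj
    rw [← Real.exp_nat_mul]
    refine Real.exp_le_exp.2 ?_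
    have h2 : j ≤ ⌊L⌋₊ := by
      have := Finset.mem_range.1 hj; omega
    rw [show ⌊L⌋₊ + 1 - 1 - j = ⌊L⌋₊ - j from by omega, Nat.cast_sub h2]
    have h3 := Nat.floor_le hL
    nlinarith
  refine (Finset.sum_le_sum h1).trans ?_
  have h4 : Real.exp (-η) < 1 := by rw [Real.exp_lt_one_iff]; linarith
  rw [← tsum_geometric_of_lt_one (Real.exp_pos _).le h4]
  exact (summable_geometric_of_lt_one (Real.exp_pos _).le h4).sum_le_tsum _
    (fun i _ => pow_nonneg (Real.exp_pos _).le i)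

theorem EWN (hN : S_NEAR) (hGC : S_GC) (_hWM : S_WM) : S_EWN := by
  intro γ p0 hp β κ hβ
  obtain ⟨C, y0, hC, hy0, hpt⟩ := ewn_pt hN hGC γ p0 hp
  set η : ℝ := (al γ) ^ 2 / 4 - β - 1 with hη
  have hη0 : 0 < η := by rw [hη]; linarith
  have hg : 0 < (1 - Real.exp (-η))⁻¹ := by
    have h4 : Real.exp (-η) < 1 := by rw [Real.exp_lt_one_iff]; linarith
    exact inv_pos.2 (by linarith)
  refine ⟨C * Real.exp κ * 4 * (1 - Real.exp (-η))⁻¹, y0, by positivity, hy0,
    fun y lam k1 k2 hy hlam => ?_⟩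
  have h3 : 3 ≤ Real.log y := by
    rw [Real.le_log_iff_exp_le (lt_of_lt_of_le (Real.exp_pos _) (hy0.trans hy))]
    exact hy0.trans hy
  have hY : 0 < Real.log y := by linarith
  set LL := Real.log (Real.log y) with hLL
  have hLL1 : 1 ≤ LL := by
    rw [hLL, Real.le_log_iff_exp_le hY]
    have := Real.exp_one_lt_d9; linarith
  set Q := (Real.log y) ^ ((al γ) ^ 2 / 4) with hQ
  have hQ0 : 0 < Q := Real.rpow_pos_of_pos hY _
  set A : ℕ → ℝ := fun s => C / Real.sqrt LL * Real.exp κ * (Q / lam) * Real.exp (-(k2 : ℝ)) *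
    (Real.exp s * Real.exp (-η * (LL - s))) / (Real.log y) ^ 2 with hA
  have hA0 : ∀ s, 0 ≤ A s := fun s => by rw [hA]; positivity
  have h1 := ewn_int (f := fun t1 t2 => P.real (Ev γ p0 y β κ lam k1 t1 ∩ Ev γ p0 y β κ lam k2 t2))
    (A := A) (n := ⌊LL⌋₊ + 1) (fun _ _ => measureReal_nonneg) hA0 (by
      intro t1 t2 ht
      rcases le_or_gt |t1 - t2| (Real.exp (-(⌊LL⌋₊ : ℝ))) with hc | hc
      · refine ⟨⌊LL⌋₊, Finset.mem_range.2 (by omega), hc, ?_⟩
        exact hpt β κ y lam t1 t2 k1 k2 ⌊LL⌋₊ hy hlam (Nat.floor_le (by linarith)) ht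
          (Or.inr (Nat.lt_floor_add_one LL).le)
      · have hd : 0 < |t1 - t2| := lt_trans (Real.exp_pos _) hc
        have hl0 : 0 ≤ -Real.log |t1 - t2| := by
          have := Real.log_nonpos hd.le ht; linarith
        have hl1 : -Real.log |t1 - t2| < ⌊LL⌋₊ := by
          have := Real.log_lt_log (Real.exp_pos _) hc
          rw [Real.log_exp] at this; linarith
        set s := ⌊-Real.log |t1 - t2|⌋₊ with hs
        have hs1 : (s : ℝ) ≤ -Real.log |t1 - t2| := Nat.floor_le hl0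
        have hs2 : -Real.log |t1 - t2| < s + 1 := Nat.lt_floor_add_one _
        have hs3 : s < ⌊LL⌋₊ := by
          have : (s : ℝ) < ⌊LL⌋₊ := lt_of_le_of_lt hs1 hl1
          exact_mod_cast this
        refine ⟨s, Finset.mem_range.2 (by omega), ?_, ?_⟩
        · rw [← Real.exp_log hd]
          exact Real.exp_le_exp.2 (by linarith)
        · refine hpt β κ y lam t1 t2 k1 k2 s hy hlam ?_ ht (Or.inl ?_)
          · have : (s : ℝ) ≤ ⌊LL⌋₊ := by exact_mod_cast hs3.le
            exact this.trans (Nat.floor_le (by linarith))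
          · rw [← Real.exp_log hd]
            exact Real.exp_le_exp.2 (by linarith)) k1 k2
  have h2 : ∑ s ∈ Finset.range (⌊LL⌋₊ + 1), A s * (2 * Real.exp (-(s : ℝ))) =
      C / Real.sqrt LL * Real.exp κ * (Q / lam) * Real.exp (-(k2 : ℝ)) * 2 / (Real.log y) ^ 2 *
        ∑ s ∈ Finset.range (⌊LL⌋₊ + 1), Real.exp (-η * (LL - s)) := by
    rw [Finset.mul_sum]
    refine Finset.sum_congr rfl fun s _ => ?_
    rw [hA]
    have : Real.exp (s : ℝ) * Real.exp (-(s : ℝ)) = 1 := by rw [← Real.exp_add]; simp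
    simp only
    linear_combination (C / Real.sqrt LL * Real.exp κ * (Q / lam) * Real.exp (-(k2 : ℝ)) * 2 /
      (Real.log y) ^ 2 * Real.exp (-η * (LL - s))) * this
  have hsq : 0 < Real.sqrt LL := Real.sqrt_pos.2 (by linarith)
  calc _ ≤ (Real.log y) ^ 2 * (2 * Real.exp k1 *
        ∑ s ∈ Finset.range (⌊LL⌋₊ + 1), A s * (2 * Real.exp (-(s : ℝ)))) := by
        gcongr
    _ ≤ (Real.log y) ^ 2 * (2 * Real.exp k1 * (C / Real.sqrt LL * Real.exp κ * (Q / lam) *
        Real.exp (-(k2 : ℝ)) * 2 / (Real.log y) ^ 2 * (1 - Real.exp (-η))⁻¹)) := by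
        rw [h2]
        gcongr
        exact ewn_geom hη0 (by linarith)
    _ = _ := by
        rw [Real.exp_sub, Real.exp_neg]
        field_simp
        ring

end PM
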