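import Pool.Agent.H24.PM.PhiAn

namespace PM
open MeasureTheory Complex

theorem EXP : S_EXP := by
  intro γ
  have hsum := summ_aux γ (1 / 2) (by norm_num) (by norm_num)
  have hsum2 : Summable (fun k : ℕ => (((k + 2 : ℕ) : ℝ) + 1) ^ γ * (1 / 2 : ℝ) ^ (k + 2)) :=
    (summable_nat_add_iff (f := fun k : ℕ => ((k : ℝ) + 1) ^ γ * (1 / 2 : ℝ) ^ k) 2).2 hsum
  set C0 : ℝ := ∑' k : ℕ, (((k + 2 : ℕ) : ℝ) + 1) ^ γ * (1 / 2 : ℝ) ^ (k + 2) with hC0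
  have hC00 : 0 ≤ C0 := tsum_nonneg (fun k => by positivity)
  refine ⟨4 * C0 + 1, by positivity, fun x hx => ?_⟩
  have hx1 : ‖x‖ < 1 := by linarith
  have hs := phi_summable γ hx1
  have h1 : phi γ x = ∑ k ∈ Finset.range 2, (((((k : ℝ) + 1) ^ γ : ℝ)) : ℂ) * x ^ k +
      ∑' k : ℕ, (((((((k + 2 : ℕ) : ℝ) + 1) ^ γ : ℝ)) : ℂ) * x ^ (k + 2)) :=
    (hs.sum_add_tsum_nat_add 2).symm
  have h2 : phi γ x - 1 - al γ * x =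
      ∑' k : ℕ, (((((((k + 2 : ℕ) : ℝ) + 1) ^ γ : ℝ)) : ℂ) * x ^ (k + 2)) := by
    rw [h1, Finset.sum_range_succ, Finset.sum_range_one]
    have e1 : ((((0 : ℕ) : ℝ) + 1) ^ γ : ℝ) = 1 := by simp
    have e2 : ((((1 : ℕ) : ℝ) + 1) ^ γ : ℝ) = al γ := by
      unfold al; norm_num
    rw [e1, e2]
    simp only [Complex.ofReal_one, pow_zero, mul_one, pow_one]
    ring
  rw [h2]
  have h3 : ∀ k : ℕ, ‖(((((((k + 2 : ℕ) : ℝ) + 1) ^ γ : ℝ)) : ℂ) * x ^ (k + 2))‖ ≤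
      4 * ‖x‖ ^ 2 * ((((k + 2 : ℕ) : ℝ) + 1) ^ γ * (1 / 2 : ℝ) ^ (k + 2)) := by
    intro k
    rw [phi_norm_term γ (k + 2) x, pow_add ‖x‖ k 2, pow_add (1 / 2 : ℝ) k 2]
    have : ‖x‖ ^ k ≤ (1 / 2 : ℝ) ^ k := pow_le_pow_left₀ (norm_nonneg _) hx k
    have h4 : 0 ≤ ((((k + 2 : ℕ) : ℝ) + 1) ^ γ) * ‖x‖ ^ 2 := by positivity
    nlinarith [mul_le_mul_of_nonneg_left this h4]
  calc ‖∑' k : ℕ, (((((((k + 2 : ℕ) : ℝ) + 1) ^ γ : ℝ)) : ℂ) * x ^ (k + 2))‖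
      ≤ ∑' k : ℕ, 4 * ‖x‖ ^ 2 * ((((k + 2 : ℕ) : ℝ) + 1) ^ γ * (1 / 2 : ℝ) ^ (k + 2)) :=
        tsum_of_norm_bounded (hsum2.mul_left _).hasSum h3
    _ = 4 * ‖x‖ ^ 2 * C0 := by rw [tsum_mul_left]
    _ ≤ (4 * C0 + 1) * ‖x‖ ^ 2 := by nlinarith [sq_nonneg ‖x‖]

end PM
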