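import Pool.Agent.H24.PM.ONE

namespace PM
open MeasureTheory Complex

/-- adding the primes up to p0 costs a constant -/
theorem h5_low (p0 : ℕ) (hp : (2 : ℝ) ≤ p0) : ∃ C : ℝ, 0 < C ∧ ∀ y σ τ : ℝ, (p0 : ℝ) ≤ y →
    |σ| * Real.log y ≤ 16 → |CS (PrS 1 y) σ τ - CS (PrS p0 y) σ τ| ≤ C := by
  refine ⟨((p0 : ℝ) + 1) * Real.exp 16, by positivity, fun y σ τ hy hσ => ?_⟩
  rw [h5_CS_split (u := 1) (w := p0) (v := y) (by norm_num) (by linarith) hy, add_sub_cancel_right]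
  refine h5_CS_abs_le.trans ?_
  unfold CS
  have hb : ∀ l ∈ PrS 1 p0, (l : ℝ) ^ (-(1 + σ)) * Real.cos (0 * Real.log l) ≤ Real.exp 16 := by
    intro l hl
    rw [h5_mem_PrS (by linarith)] at hl
    have hl0 : (0 : ℝ) < l := by linarith [hl.2.1]
    have hl1 : 0 ≤ Real.log l := Real.log_nonneg (by linarith [hl.2.1])
    rw [zero_mul, Real.cos_zero, mul_one, Real.rpow_def_of_pos hl0]
    refine Real.exp_le_exp.mpr ?_
    have h1 : -σ * Real.log l ≤ 16 := by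
      calc -σ * Real.log l ≤ |σ| * Real.log l :=
            mul_le_mul_of_nonneg_right (neg_le_abs σ) hl1
        _ ≤ |σ| * Real.log y := mul_le_mul_of_nonneg_left
            (Real.log_le_log hl0 (hl.2.2.trans hy)) (abs_nonneg σ)
        _ ≤ 16 := hσ
    nlinarith
  refine (Finset.sum_le_card_nsmul _ _ _ hb).trans ?_
  rw [nsmul_eq_mul]
  refine mul_le_mul_of_nonneg_right ?_ (Real.exp_pos _).le
  have hcard : (PrS 1 (p0 : ℝ)).card ≤ p0 + 1 := by
    unfold PrS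
    rw [Nat.floor_natCast]
    exact (Finset.card_filter_le _ _).trans (by rw [Finset.card_range])
  exact_mod_cast hcard

/-- for large y the log log dominates -/
theorem h5_large (a b : ℝ) : ∃ y0 : ℝ, Real.exp 3 ≤ y0 ∧ ∀ y : ℝ, y0 ≤ y →
    Real.log (Real.log (Real.log y)) + a ≤ 1 / 20 * Real.log (Real.log y) ∧ b ≤ y := by
  have h1 : Filter.Tendsto (fun y : ℝ => Real.log (Real.log y)) Filter.atTop Filter.atTop :=
    Real.tendsto_log_atTop.comp Real.tendsto_log_atTop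
  have h2 : ∀ᶠ x : ℝ in Filter.atTop, Real.log x + a ≤ 1 / 20 * x := by
    have h3 := Real.isLittleO_log_id_atTop.bound (by norm_num : (0 : ℝ) < 1 / 40)
    filter_upwards [h3, Filter.eventually_ge_atTop (40 * |a|), Filter.eventually_ge_atTop 0] with x h4 h5 h6
    rw [Real.norm_eq_abs, Real.norm_eq_abs, id, abs_of_nonneg h6] at h4
    have h7 := le_abs_self (Real.log x)
    have h8 := le_abs_self a
    linarith
  have h3 := (h1.eventually h2).and ((Filter.eventually_ge_atTop b).and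
    (Filter.eventually_ge_atTop (Real.exp 3)))
  obtain ⟨y0, hy0⟩ := Filter.eventually_atTop.mp h3
  exact ⟨max y0 (Real.exp 3), le_max_right _ _, fun y hy =>
    ⟨(hy0 y ((le_max_left _ _).trans hy)).1, (hy0 y ((le_max_left _ _).trans hy)).2.1⟩⟩

theorem FAR (hMOM : S_MOM) (hGC : S_GC) (hNTA : S_NTA) (hNTD : S_NTD) (hNTE : S_NTE) : S_FAR := by
  intro γ p0 hg B
  obtain ⟨C1, hC1, hU⟩ := h5_MOM2 hMOM γ p0 hg 2
  have hp2 := h5_two_le hg
  obtain ⟨C2, hC2, hL⟩ := h5_LLB hNTA p0 hp2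
  obtain ⟨C3, hC3, hLow⟩ := h5_low p0 hp2
  obtain ⟨C4, hC4, hD⟩ := hNTD
  obtain ⟨C5, hC5, hE⟩ := hNTE
  have hα := h5_al_pos γ
  obtain ⟨A2, hA2⟩ : ∃ A2 : ℝ, A2 = (al γ) ^ 2 / 4 := ⟨_, rfl⟩
  have hA2p : 0 < A2 := by rw [hA2]; positivity
  obtain ⟨y0, hy00, hy0l⟩ := h5_large (Real.log (|B| + 2) + C2 + C3 + C4 + C5) p0
  refine ⟨4 * (C1 * Real.exp (2 * A2 * (C2 + C3)) * (Real.pi / (A2 * (1 / 10)))), y0,
    by have := Real.pi_pos; positivity, hy00, ?_⟩
  intro y x1 x2 t1 t2 hyy0 hτ1 hτ2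
  have hy : Real.exp 3 ≤ y := hy00.trans hyy0
  obtain ⟨hbig, hyp⟩ := hy0l y hyy0
  have hy0 : 0 < y := (Real.exp_pos 3).trans_le hy
  have hly : 3 ≤ Real.log y := by
    rw [← Real.log_exp 3]; exact Real.log_le_log (Real.exp_pos 3) hy
  have hy1 : 1 < y := lt_of_lt_of_le (by rw [← Real.exp_zero]; exact Real.exp_lt_exp.mpr (by norm_num)) hy
  have hye : Real.exp 1 ≤ y := (Real.exp_le_exp.mpr (by norm_num)).trans hy
  have hLL0 : 0 < Real.log (Real.log y) := Real.log_pos (by linarith)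
  -- log log (|tau|+3)
  have hlt : Real.log (Real.log (|t1 - t2| + 3)) ≤ Real.log (|B| + 2) + Real.log (Real.log (Real.log y)) := by
    have h1 : |t1 - t2| + 3 ≤ (Real.log y) ^ (|B| + 2) := by
      have h2 : |t1 - t2| ≤ (Real.log y) ^ |B| :=
        hτ2.trans (Real.rpow_le_rpow_of_exponent_le (by linarith) (le_abs_self B))
      have h3 : (1 : ℝ) ≤ (Real.log y) ^ |B| := Real.one_le_rpow (by linarith) (abs_nonneg B)
      rw [Real.rpow_add (by linarith), show (2 : ℝ) = ((2 : ℕ) : ℝ) by norm_num, Real.rpow_natCast]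
      have h9 : (9 : ℝ) ≤ (Real.log y) ^ 2 := by nlinarith
      have h10 := mul_le_mul_of_nonneg_left h9 (by linarith : (0 : ℝ) ≤ (Real.log y) ^ |B|)
      linarith
    have h2 : Real.log (|t1 - t2| + 3) ≤ (|B| + 2) * Real.log (Real.log y) := by
      rw [← Real.log_rpow (by linarith)]
      exact Real.log_le_log (by positivity) h1
    have h3 : 0 < Real.log (|t1 - t2| + 3) := Real.log_pos (by linarith [abs_nonneg (t1 - t2)])
    calc Real.log (Real.log (|t1 - t2| + 3)) ≤ Real.log ((|B| + 2) * Real.log (Real.log y)) :=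
          Real.log_le_log h3 h2
      _ = _ := Real.log_mul (by positivity) hLL0.ne'
  obtain ⟨LL, hLL⟩ : ∃ LL : ℝ, LL = Real.log (Real.log y) := ⟨_, rfl⟩
  obtain ⟨σ, hσ⟩ : ∃ σ : ℝ, σ = 2 / Real.log y := ⟨_, rfl⟩
  have hLLpow : (Real.log y) ^ ((al γ) ^ 2 / 2) = Real.exp (2 * A2 * LL) := by
    rw [Real.rpow_def_of_pos (by linarith), hLL, hA2]
    congr 1; ring
  have h42 : (al γ) ^ 2 / 2 = 2 * A2 := by rw [hA2]; ring
  have h4 : σ + σ = 4 / Real.log y := by rw [hσ]; ring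
  rw [hLLpow, h42, ← h4, ← hLL, ← hσ]
  rw [← hLL] at hLL0 hbig hlt
  have hPA1 : PA p0 (PrS p0 y) := h5_PA le_rfl
  have hLn1 : Ln (PrS p0 y) σ := by
    rw [hσ]
    exact h5_Ln (by positivity) hy0.le
      ((h5_abs_div 2 (by norm_num) hy1 hy0 le_rfl).trans (by norm_num))
  have h16 : |σ + σ| * Real.log y ≤ 16 := by
    rw [h4]; exact (h5_abs_div 4 (by norm_num) hy1 hy0 le_rfl).trans (by norm_num)
  have e1 := hL y (σ + σ) hye h16
  have e2 := hLow y (σ + σ) (t1 - t2) hyp h16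
  have e3 := hD y (σ + σ) (t1 - t2) (by linarith) hτ1 h16
  have e4 := hE y (σ + σ) (t1 - t2) (by linarith) hτ1 h16
  rw [← hLL] at e1 e4
  obtain ⟨hX, hb1⟩ := h5_field hGC hg hPA1 hLn1 t1
  obtain ⟨hZ, hb3⟩ := h5_field hGC hg hPA1 hLn1 t2
  have hUU := fun a1 a2 h1 h2 => hU a1 a2 (PrS p0 y) (PrS p0 y) σ t1 t2
    h1 h2 hPA1 hPA1 hLn1 hLn1
  rw [Finset.inter_self] at hUU
  clear hU hL hPA1 hLn1 hLow hD hE
  obtain ⟨X, hXe⟩ : ∃ X : Om → ℝ, X = fun ω : Om => G γ (PrS p0 y) σ t1 ω := ⟨_, rfl⟩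
  obtain ⟨Z, hZe⟩ : ∃ Z : Om → ℝ, Z = fun ω : Om => G γ (PrS p0 y) σ t2 ω := ⟨_, rfl⟩
  have eX : ∀ ω, G γ (PrS p0 y) σ t1 ω = X ω := fun ω => by rw [hXe]
  have eZ : ∀ ω, G γ (PrS p0 y) σ t2 ω = Z ω := fun ω => by rw [hZe]
  rw [← hXe] at hX
  rw [← hZe] at hZ
  simp only [eX, eZ] at hb1 hb3 hUU ⊢
  obtain ⟨L1, hL1⟩ : ∃ L1 : ℝ, L1 = CS (PrS p0 y) (σ + σ) 0 := ⟨_, rfl⟩
  obtain ⟨T1, hT1⟩ : ∃ T1 : ℝ, T1 = CS (PrS p0 y) (σ + σ) (t1 - t2) := ⟨_, rfl⟩
  obtain ⟨T2, hT2⟩ : ∃ T2 : ℝ, T2 = CS (PrS 1 y) (σ + σ) (t1 - t2) := ⟨_, rfl⟩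
  rw [← hL1] at e1
  rw [← hT1, ← hT2] at e2
  rw [← hT2] at e3 e4 ⊢
  simp only [← hL1, ← hT1] at hUU
  clear hXe hZe eX eZ hL1 hT1 hT2
  have hLT : 1 / 10 * LL ≤ L1 - |T1| := by
    have f1 : |T1| ≤ 3 / 4 * LL + (Real.log (|B| + 2) + Real.log LL) + C3 + C4 + C5 := by
      rw [abs_le] at e2 ⊢
      have hB0 : 0 ≤ Real.log (|B| + 2) := Real.log_nonneg (by linarith [abs_nonneg B])
      have hl3 : 0 ≤ Real.log (|B| + 2) + Real.log LL := by
        refine le_trans (Real.log_nonneg ?_) hlt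
        rw [← Real.log_exp 1]
        refine Real.log_le_log (Real.exp_pos 1) ?_
        have := Real.exp_one_lt_d9
        linarith [abs_nonneg (t1 - t2)]
      constructor
      · linarith [e2.1, e2.2]
      · linarith [e2.1, e2.2]
    rw [abs_le] at e1
    linarith [e1.1]
  have hwin := h5win2 (X := X) (Y := Z) (H := fun ω : Om => X ω + Z ω)
    hX hZ (hX.add hZ)
    (B := (PrS p0 y).card + (PrS p0 y).card) (by
      intro ω
      have g1 := hb1 ω
      have g3 := hb3 ω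
      rw [abs_le] at g1 g3
      linarith [g1.2, g3.2]) x1 x2
    (K := C1 * Real.exp (2 * A2 * (C2 + C3)) * (Real.exp (2 * A2 * LL) * Real.exp (2 * A2 * T2)))
    (c := A2 * (1 / 10 * LL)) (by positivity) (by positivity) (by
      intro v w hv hw
      have hnorm : ∀ v : ℝ, |v| ≤ 1 → ‖(1 : ℂ) + v * I‖ ≤ 2 := by
        intro v hv
        refine (norm_add_le _ _).trans ?_
        rw [norm_mul, Complex.norm_I, mul_one, Complex.norm_real, Real.norm_eq_abs, norm_one]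
        linarith
      have h := hUU ((1 : ℂ) + v * I) ((1 : ℂ) + w * I) (hnorm v hv) (hnorm w hw)
      have hre : (((al γ : ℂ)) ^ 2 / 4 * (((1 : ℂ) + v * I) ^ 2 * (L1 : ℂ) +
          2 * ((1 : ℂ) + v * I) * ((1 : ℂ) + w * I) * (T1 : ℂ) + ((1 : ℂ) + w * I) ^ 2 * (L1 : ℂ))).re =
          A2 * ((2 - v ^ 2 - w ^ 2) * L1 + 2 * (1 - v * w) * T1) := by
        have : (((al γ : ℂ)) ^ 2 / 4 * (((1 : ℂ) + v * I) ^ 2 * (L1 : ℂ) +
          2 * ((1 : ℂ) + v * I) * ((1 : ℂ) + w * I) * (T1 : ℂ) + ((1 : ℂ) + w * I) ^ 2 * (L1 : ℂ))) =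
          ((A2 * ((2 - v ^ 2 - w ^ 2) * L1 + 2 * (1 - v * w) * T1) : ℝ) : ℂ) +
          ((A2 * (2 * (v + w) * L1 + 2 * (v + w) * T1) : ℝ) : ℂ) * I := by
          rw [hA2]
          push_cast
          ring_nf
          rw [Complex.I_sq]
          ring
        rw [this, Complex.add_re, Complex.ofReal_re, Complex.re_ofReal_mul, Complex.I_re, mul_zero,
          add_zero]
      rw [hre] at h
      refine le_trans (le_of_eq ?_) (h.trans ?_)
      · congr 1
        refine integral_congr_ae (Filter.Eventually.of_forall fun ω => ?_)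
        simp only
        congr 1
        push_cast
        ring
      · rw [mul_assoc C1, mul_assoc C1, mul_assoc C1, ← Real.exp_add, ← Real.exp_add, ← Real.exp_add,
          ← Real.exp_add]
        refine mul_le_mul_of_nonneg_left (Real.exp_le_exp.mpr ?_) hC1.le
        have r1 : L1 ≤ LL + C2 := by rw [abs_le] at e1; linarith [e1.2]
        have r2 : T1 ≤ T2 + C3 := by rw [abs_le] at e2; linarith [e2.1]
        have r3 : -(v ^ 2 + w ^ 2) * L1 - 2 * (v * w) * T1 ≤ -(v ^ 2 + w ^ 2) * (1 / 10 * LL) := by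
          have q1 : -2 * (v * w) * T1 ≤ (v ^ 2 + w ^ 2) * |T1| := by
            have q2 : |2 * (v * w)| ≤ v ^ 2 + w ^ 2 := by
              rw [abs_le]; constructor <;> nlinarith [sq_nonneg (v + w), sq_nonneg (v - w)]
            calc -2 * (v * w) * T1 = -(2 * (v * w) * T1) := by ring
              _ ≤ |2 * (v * w) * T1| := neg_le_abs _
              _ = |2 * (v * w)| * |T1| := abs_mul _ _
              _ ≤ _ := mul_le_mul_of_nonneg_right q2 (abs_nonneg _)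
          have q3 := mul_le_mul_of_nonneg_left hLT (by positivity : 0 ≤ v ^ 2 + w ^ 2)
          linarith
        have r4 : (2 - v ^ 2 - w ^ 2) * L1 + 2 * (1 - v * w) * T1 ≤
            2 * (C2 + C3) + (2 * LL + 2 * T2) + (-(1 / 10 * LL) * v ^ 2 + -(1 / 10 * LL) * w ^ 2) := by
          linarith
        have r5 := mul_le_mul_of_nonneg_left r4 hA2p.le
        linarith [r5])
  refine hwin.trans (le_of_eq ?_)
  have hpi := Real.pi_pos
  rw [mul_assoc (_ * _) (Real.sqrt _) (Real.sqrt _), Real.mul_self_sqrt (by positivity)]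
  rw [show Real.pi / (A2 * (1 / 10 * LL)) = Real.pi / (A2 * (1 / 10)) / LL by
    rw [div_div]; congr 1; ring]
  ring

end PM
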