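import Pool.Agent.H24.PM.PhiAn

namespace PM
open MeasureTheory Complex

theorem GC : S_GC := by
  intro γ p0 hg A hA σ hσ
  refine ⟨?_, ?_, ?_⟩
  · unfold G
    refine continuous_finsetSum _ (fun l hl => ?_)
    have hlp := hA l hl
    rw [continuous_iff_continuousAt]
    rintro ⟨t, ω⟩
    have hp := good_phi hg hlp.2 (hσ l hl) t ω
    have hne : ‖phi γ (pt σ t l ω)‖ ≠ 0 := by
      have := (norm_ge_of_near hp.1).1
      linarith
    have c1 : ContinuousAt (fun q : ℝ × Om => pt σ q.1 l q.2) (t, ω) := by
      have := (cont_pt hlp.1.pos).comp (Continuous.prodMk (continuous_const (y := σ))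
        (Continuous.prodMk (continuous_fst (X := ℝ) (Y := Om)) continuous_snd))
      exact this.continuousAt
    have c2 : ContinuousAt (fun q : ℝ × Om => phi γ (pt σ q.1 l q.2)) (t, ω) :=
      ContinuousAt.comp (f := fun q : ℝ × Om => pt σ q.1 l q.2)
        (phi_contAt γ (by linarith [hp.2])) c1
    exact c2.norm.log hne
  · intro t ω
    unfold F G
    rw [Real.exp_sum, norm_prod]
    refine Finset.prod_congr rfl (fun l hl => ?_)
    have hp := good_phi hg (hA l hl).2 (hσ l hl) t ω
    rw [Real.exp_log]
    have := (norm_ge_of_near hp.1).1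
    linarith
  · intro t ω
    unfold G
    refine (Finset.abs_sum_le_sum_abs _ _).trans ?_
    have : ∀ l ∈ A, |Real.log ‖phi γ (pt σ t l ω)‖| ≤ 1 := fun l hl =>
      abs_log_near (good_phi hg (hA l hl).2 (hσ l hl) t ω).1
    refine (Finset.sum_le_sum this).trans ?_
    simp

end PM
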