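import Pool.Agent.H24.PM.PhiAn

namespace PM
open MeasureTheory Complex

theorem GOOD (hE : S_EXP) : S_GOOD := by
  intro γ
  obtain ⟨C, hC, hEx⟩ := hE γ
  have hal : 0 < al γ := by unfold al; positivity
  set m : ℝ := max (4 * Real.exp 16) (Real.exp 16 * (2 * (al γ + C)) ^ 2) with hm
  obtain ⟨p0, hp0⟩ := exists_nat_ge m
  have h1 : 4 * Real.exp 16 ≤ p0 := le_trans (le_max_left _ _) hp0
  have h2 : Real.exp 16 * (2 * (al γ + C)) ^ 2 ≤ p0 := le_trans (le_max_right _ _) hp0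
  refine ⟨p0, h1, fun x hx => ?_⟩
  have hp0pos : (0 : ℝ) < p0 := lt_of_lt_of_le (by positivity) h1
  have hsq : 0 < Real.sqrt p0 := Real.sqrt_pos.2 hp0pos
  have e16 : Real.exp 16 = Real.exp 8 ^ 2 := by rw [← Real.exp_nat_mul]; norm_num
  have hs1 : 2 * Real.exp 8 ≤ Real.sqrt p0 := by
    apply Real.le_sqrt_of_sq_le
    rw [mul_pow, ← e16]; linarith
  have hs2 : Real.exp 8 * (2 * (al γ + C)) ≤ Real.sqrt p0 := by
    apply Real.le_sqrt_of_sq_le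
    rw [mul_pow, ← e16]; linarith
  have hx1 : ‖x‖ ≤ 1 / 2 := by
    refine hx.trans ?_
    rw [div_le_iff₀ hsq]; linarith
  have hx2 : (al γ + C) * ‖x‖ ≤ 1 / 2 := by
    have : ‖x‖ * Real.sqrt p0 ≤ Real.exp 8 := by rwa [le_div_iff₀ hsq] at hx
    by_contra hcon
    push Not at hcon
    have h5 : Real.exp 8 < Real.exp 8 * (2 * ((al γ + C) * ‖x‖)) := by
      nlinarith [Real.exp_pos 8]
    have h6 : Real.exp 8 * (2 * (al γ + C)) * ‖x‖ ≤ Real.sqrt p0 * ‖x‖ :=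
      mul_le_mul_of_nonneg_right hs2 (norm_nonneg _)
    nlinarith
  have h3 := hEx x hx1
  have h4 : ‖phi γ x - 1‖ ≤ ‖phi γ x - 1 - al γ * x‖ + ‖(al γ : ℂ) * x‖ := by
    calc ‖phi γ x - 1‖ = ‖(phi γ x - 1 - al γ * x) + (al γ : ℂ) * x‖ := by ring_nf
      _ ≤ _ := norm_add_le _ _
  have h5 : ‖(al γ : ℂ) * x‖ = al γ * ‖x‖ := by
    rw [norm_mul, Complex.norm_real, Real.norm_eq_abs, abs_of_pos hal]
  rw [h5] at h4
  have h6 : C * ‖x‖ ^ 2 ≤ C * ‖x‖ := by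
    have : ‖x‖ ^ 2 ≤ ‖x‖ := by nlinarith [norm_nonneg x]
    exact mul_le_mul_of_nonneg_left this hC.le
  nlinarith

end PM
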