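import Pool.Agent.H24.PM.Stmts

/-! Independence of functions of complementary sets of coordinates. -/

namespace PM
open MeasureTheory Complex

theorem IND (hM : S_MIX) : S_IND := by
  classical
  intro A f g hf hg _ _ hfA hgA
  have h1 := hM A
  have h2 : ∫ ω : Om, f ω * g ω ∂P = ∫ q : Om × Om, f (mix A q) * g (mix A q) ∂(P.prod P) := by
    conv_lhs => rw [← h1.map_eq]
    rw [integral_map h1.measurable.aemeasurable]
    exact (hf.mul hg).aestronglyMeasurable
  rw [h2]
  have h3 : ∀ q : Om × Om, f (mix A q) * g (mix A q) = f q.1 * g q.2 := by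
    intro q
    rw [hfA (mix A q) q.1 (fun l hl => by simp [mix, hl]),
      hgA (mix A q) q.2 (fun l hl => by simp [mix, hl])]
  simp_rw [h3]
  exact integral_prod_mul f g

end PM
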