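import Pool.Agent.H24.PM.Stmts

/-! Translation invariance of the product measure. -/

namespace PM
open MeasureTheory Complex

theorem INV : S_INV := by
  intro h
  refine ⟨by fun_prop, ?_⟩
  unfold P
  have h1 := Measure.infinitePi_map_pi (fun _ : ℕ => (volume : Measure UnitAddCircle))
    (f := fun (i : ℕ) (x : UnitAddCircle) => x + h i) (fun i => by fun_prop)
  have h2 : (fun (x : Om) i => x i + h i) = (fun ω : Om => ω + h) := rfl
  rw [← h2, h1]
  congr 1
  funext i
  exact (measurePreserving_add_right (volume : Measure UnitAddCircle) (h i)).map_eq

end PM
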