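import Pool.Agent.H24.PM.PLU

/-! Module JM: measurability and integrability of the two functionals. -/

namespace PM
open MeasureTheory Complex

theorem jm_int {σ : ℝ} (hσ : σ ≠ 0) : Integrable (fun t : ℝ => 1 / (σ ^ 2 + t ^ 2)) := by
  have h2 : 0 < σ ^ 2 := by positivity
  have h1 : Integrable (fun t : ℝ => max 1 (1 / σ ^ 2) * (1 + t ^ 2)⁻¹) :=
    integrable_inv_one_add_sq.const_mul _
  refine h1.mono' ?_ (Filter.Eventually.of_forall fun t => ?_)
  · exact (Measurable.aestronglyMeasurable (by fun_prop))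
  · have h3 : 0 < σ ^ 2 + t ^ 2 := by positivity
    have h4 : 0 < 1 + t ^ 2 := by positivity
    rw [Real.norm_of_nonneg (by positivity), div_le_iff₀ h3, mul_comm _ (1 + t ^ 2)⁻¹,
      mul_assoc, ← div_eq_inv_mul, le_div_iff₀ h4, one_mul]
    have h5 : 1 ≤ max 1 (1 / σ ^ 2) := le_max_left _ _
    have h6 : 1 / σ ^ 2 ≤ max 1 (1 / σ ^ 2) := le_max_right _ _
    have h7 : 1 ≤ max 1 (1 / σ ^ 2) * σ ^ 2 := by
      calc (1 : ℝ) = 1 / σ ^ 2 * σ ^ 2 := by field_simp
        _ ≤ _ := mul_le_mul_of_nonneg_right h6 h2.le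
    have h8 : t ^ 2 ≤ max 1 (1 / σ ^ 2) * t ^ 2 := by
      nlinarith [sq_nonneg t]
    nlinarith

theorem jm_bound (hE : S_EUL) (γ : ℝ) (A : Finset ℕ) (σ : ℝ) (hA : ∀ l ∈ A, l.Prime)
    (hσ : -(1 / 2) < σ) : ∃ B : ℝ, 0 ≤ B ∧ ∀ (t : ℝ) (ω : Om), ‖F γ A σ t ω‖ ≤ B := by
  have hs : Summable (fun n : ℕ => if n.primeFactors ⊆ A then b γ n * (n : ℝ) ^ (-σ) else 0) :=
    (hE γ A σ 0 0 hA hσ).1
  refine ⟨∑' n : ℕ, if n.primeFactors ⊆ A then b γ n * (n : ℝ) ^ (-σ) else 0,
    tsum_nonneg fun n => ?_, fun t ω => ?_⟩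
  · split_ifs
    · exact mul_nonneg (plu_b_nonneg γ n) (Real.rpow_nonneg (Nat.cast_nonneg n) _)
    · exact le_rfl
  · rw [← plu_F_eq hE γ A ω hA σ t hσ]
    have h1 : ∀ n : ℕ, ‖plu_cf γ A ω n * (n : ℂ) ^ (-(σ + t * I))‖ ≤
        if n.primeFactors ⊆ A then b γ n * (n : ℝ) ^ (-σ) else 0 := by
      intro n
      rw [norm_mul, plu_norm_cf]
      rcases Nat.eq_zero_or_pos n with rfl | hn
      · simp [plu_b_zero]
      · have : ‖(n : ℂ) ^ (-(σ + t * I))‖ = (n : ℝ) ^ (-σ) := by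
          rw [Complex.norm_natCast_cpow_of_pos hn]
          simp
        rw [this]
        split_ifs <;> simp
    exact tsum_of_norm_bounded hs.hasSum h1

theorem JM (hC : S_CONT) (hE : S_EUL) : S_JM := by
  intro γ A σ hA hσ hσ0
  obtain ⟨B, hB0, hB⟩ := jm_bound hE γ A σ hA hσ
  have hc : Continuous (fun q : Om × ℝ => F γ A σ q.2 q.1) := by
    have h1 := hC γ A hA
    have h2 : Continuous (fun q : Om × ℝ => ((σ, q.2, q.1) : ℝ × ℝ × Om)) := by fun_prop
    have h5 : ∀ q : Om × ℝ, ((σ, q.2, q.1) : ℝ × ℝ × Om) ∈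
        {q : ℝ × ℝ × Om | -(1 / 2) < q.1} := fun q => by
      rw [Set.mem_ofPred_eq]; exact hσ
    have h4 := h1.comp_continuous h2 h5
    exact h4
  have hpos : ∀ t : ℝ, 0 < σ ^ 2 + t ^ 2 := fun t => by
    have : 0 < σ ^ 2 := by positivity
    positivity
  have hc2 : Continuous (fun q : Om × ℝ => ‖F γ A σ q.2 q.1‖ ^ 2 / (σ ^ 2 + q.2 ^ 2)) :=
    (hc.norm.pow 2).div (by fun_prop) fun q => (hpos q.2).ne'
  have hint : ∀ ω : Om, Integrable (fun t : ℝ => ‖F γ A σ t ω‖ ^ 2 / (σ ^ 2 + t ^ 2)) := by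
    intro ω
    refine ((jm_int hσ0).const_mul (B ^ 2)).mono' ?_ (Filter.Eventually.of_forall fun t => ?_)
    · exact (hc2.comp (continuous_const.prodMk continuous_id)).aestronglyMeasurable
    · rw [Real.norm_of_nonneg (div_nonneg (by positivity) (hpos t).le), mul_one_div]
      exact div_le_div_of_nonneg_right (pow_le_pow_left₀ (norm_nonneg _) (hB t ω) 2) (hpos t).le
  have hDmeas : Measurable (fun q : Om × ℝ => DA γ A q.2 q.1) := by
    have h1 : Measurable (fun q : ℕ × Om => ∑ n ∈ Finset.Icc 1 q.1, plu_cf γ A q.2 n) := by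
      refine measurable_from_prod_countable_right fun k => ?_
      show Measurable (fun ω : Om => ∑ n ∈ Finset.Icc 1 k, plu_cf γ A ω n)
      refine Finset.measurable_sum (Finset.Icc 1 k) fun n _ => ?_
      unfold plu_cf
      split_ifs
      · refine measurable_const.mul ?_
        unfold chi zc
        refine (Continuous.measurable ?_)
        refine continuous_finset_prod _ fun p _ => ?_
        exact ((ContinuousMap.continuous _).comp (continuous_apply p)).pow _
      · exact measurable_const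
    have h2 : (fun q : Om × ℝ => DA γ A q.2 q.1) = (fun q : ℕ × Om =>
        ∑ n ∈ Finset.Icc 1 q.1, plu_cf γ A q.2 n) ∘ fun q : Om × ℝ => (⌊q.2⌋₊, q.1) := by
      funext q
      simp only [Function.comp, plu_DA_eq]
    rw [h2]
    exact h1.comp ((Nat.measurable_floor.comp measurable_snd).prodMk measurable_fst)
  refine ⟨?_, ⟨B ^ 2 * ∫ t : ℝ, 1 / (σ ^ 2 + t ^ 2), fun ω => ⟨?_, ?_⟩⟩, hint, fun hσ1 => ⟨?_, ?_⟩⟩
  · unfold JF
    exact (StronglyMeasurable.integral_prod_right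
      (f := fun (ω : Om) (t : ℝ) => ‖F γ A σ t ω‖ ^ 2 / (σ ^ 2 + t ^ 2))
      hc2.measurable.stronglyMeasurable).measurable
  · exact integral_nonneg fun t => div_nonneg (by positivity) (hpos t).le
  · unfold JF
    rw [← integral_const_mul]
    refine integral_mono (hint ω) ((jm_int hσ0).const_mul _) fun t => ?_
    simp only
    rw [mul_one_div]
    exact div_le_div_of_nonneg_right (pow_le_pow_left₀ (norm_nonneg _) (hB t ω) 2) (hpos t).le
  · unfold JD
    have h1 : Measurable (fun q : Om × ℝ => ‖DA γ A q.2 q.1‖ ^ 2 * q.2 ^ (-1 - 2 * σ)) :=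
      (hDmeas.norm.pow_const 2).mul (measurable_snd.pow_const _)
    exact (StronglyMeasurable.integral_prod_right
      (f := fun (ω : Om) (z : ℝ) => ‖DA γ A z ω‖ ^ 2 * z ^ (-1 - 2 * σ))
      h1.stronglyMeasurable).measurable
  · intro ω
    have hs := plu_summable_cf0 hE γ A ω hA
    have hbd : ∀ z : ℝ, ‖DA γ A z ω‖ ≤ ∑' n : ℕ, ‖plu_cf γ A ω n‖ := by
      intro z
      rw [plu_DA_eq]
      exact (norm_sum_le _ _).trans (hs.sum_le_tsum _ fun n _ => norm_nonneg _)
    have hi : IntegrableOn (fun z : ℝ => (∑' n : ℕ, ‖plu_cf γ A ω n‖) ^ 2 *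
        z ^ (-1 - 2 * σ)) (Set.Ioi 1) :=
      (integrableOn_Ioi_rpow_of_lt (by linarith) one_pos).const_mul _
    refine Integrable.mono' hi ?_ ?_
    · refine (Measurable.aestronglyMeasurable ?_)
      exact ((hDmeas.comp (measurable_const.prodMk measurable_id)).norm.pow_const 2).mul
        (measurable_id.pow_const _)
    · refine (ae_restrict_iff' measurableSet_Ioi).2 (Filter.Eventually.of_forall fun z hz => ?_)
      have hz0 : (0 : ℝ) < z := lt_trans one_pos hz
      rw [Real.norm_of_nonneg (by positivity)]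
      exact mul_le_mul_of_nonneg_right (pow_le_pow_left₀ (norm_nonneg _) (hbd z) 2)
        (Real.rpow_nonneg hz0.le _)

end PM
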