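import Pool.Agent.H24.PM.Red

namespace PM
open MeasureTheory Complex

lemma b_sq_squarefree (γ : ℝ) (n : ℕ) (hn : Squarefree n) (hn0 : 1 ≤ n) :
    b γ n ^ 2 = ((al γ) ^ 2) ^ n.primeFactors.card / (n : ℝ) := by
  have h1 : n.divisors.card = 2 ^ n.primeFactors.card := by
    rw [Nat.card_divisors (by omega)]
    rw [Finset.prod_congr rfl (g := fun _ => 2)]
    · simp
    · intro p hp
      have : n.factorization p = 1 := by
        have hpp := Nat.prime_of_mem_primeFactors hp
        have hd := Nat.dvd_of_mem_primeFactors hp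
        have h2 := (Nat.squarefree_iff_factorization_le_one (by omega)).1 hn p
        have h3 : 0 < n.factorization p := hpp.factorization_pos_of_dvd (by omega) hd
        omega
      rw [this]
  unfold b al
  rw [div_pow, Real.sq_sqrt (by positivity), h1]
  congr 1
  push_cast
  rw [← Real.rpow_natCast 2 n.primeFactors.card, ← Real.rpow_mul (by norm_num),
    ← Real.rpow_natCast, ← Real.rpow_mul (by norm_num), ← pow_mul, ← Real.rpow_natCast (2 ^ γ),
    ← Real.rpow_mul (by norm_num)]
  congr 1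
  push_cast
  ring

theorem LA (hBW : S_BW) (hS : S_SQF) : S_LA := by
  intro γ p hp hp1
  have hal0 := al_pos γ
  obtain ⟨c, hc, h⟩ := hS ((al γ) ^ 2 * (p / 2)) (by positivity)
  refine ⟨c ^ (p / 2), by positivity, ?_⟩
  intro N hN
  have h1 := h N (by omega)
  have h2 := hBW p hp (by linarith) N (fun n => (b γ n : ℂ))
  have hlN : 0 ≤ Real.log N := Real.log_natCast_nonneg N
  have h3 : ∑ n ∈ (Finset.Icc 1 N).filter Squarefree, ‖((b γ n : ℝ) : ℂ)‖ ^ 2 *
      (p / 2) ^ n.primeFactors.card = ∑ n ∈ (Finset.Icc 1 N).filter Squarefree,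
      ((al γ) ^ 2 * (p / 2)) ^ n.primeFactors.card / (n : ℝ) := by
    apply Finset.sum_congr rfl
    intro n hn
    rw [Finset.mem_filter, Finset.mem_Icc] at hn
    rw [Complex.norm_real, Real.norm_eq_abs, sq_abs, b_sq_squarefree γ n hn.2 hn.1.1, mul_pow]
    ring
  rw [h3] at h2
  have h4 : c ^ (p / 2) * (Real.log N) ^ ((al γ) ^ 2 * p ^ 2 / 4) =
      (c * (Real.log N) ^ ((al γ) ^ 2 * (p / 2))) ^ (p / 2) := by
    rw [Real.mul_rpow hc.le (by positivity), ← Real.rpow_mul hlN]
    congr 2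
    ring
  rw [h4]
  calc _ ≤ (∑ n ∈ (Finset.Icc 1 N).filter Squarefree,
      ((al γ) ^ 2 * (p / 2)) ^ n.primeFactors.card / (n : ℝ)) ^ (p / 2) :=
        Real.rpow_le_rpow (by positivity) h1 (by positivity)
    _ ≤ _ := h2

end PM
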