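import Pool.Agent.H24.PM.LEB

/-! Module LE of project PM. -/

namespace PM
open MeasureTheory Complex

attribute [local irreducible] G PrS

/-- combination of large and small N -/
theorem le_comb {f g : ℕ → ℝ} {m : ℕ} (hf : ∀ N, m ≤ N → 0 ≤ f N) {c : ℝ} {N1 : ℕ} (hc : 0 < c)
    (hbig : ∀ N, N1 ≤ N → m ≤ N → c * f N ≤ g N) (hsmall : ∀ N, m ≤ N → 1 ≤ g N) :
    ∃ c' : ℝ, 0 < c' ∧ ∀ N, m ≤ N → c' * f N ≤ g N := by
  set M : ℝ := 1 + ∑ N ∈ Finset.Icc m N1, f N with hM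
  have hM0 : 0 ≤ ∑ N ∈ Finset.Icc m N1, f N :=
    Finset.sum_nonneg fun N hN => hf N (Finset.mem_Icc.1 hN).1
  have hMp : 0 < M := by rw [hM]; linarith
  refine ⟨min c (1 / M), lt_min hc (by positivity), fun N hN => ?_⟩
  rcases le_or_gt N1 N with h | h
  · exact (mul_le_mul_of_nonneg_right (min_le_left _ _) (hf N hN)).trans (hbig N h hN)
  · refine le_trans ?_ (hsmall N hN)
    refine (mul_le_mul_of_nonneg_right (min_le_right _ _) (hf N hN)).trans ?_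
    rw [one_div, inv_mul_le_one₀ hMp, hM]
    have := Finset.single_le_sum (f := f) (fun N hN => hf N (Finset.mem_Icc.1 hN).1)
      (Finset.mem_Icc.2 ⟨hN, h.le⟩ : N ∈ Finset.Icc m N1)
    linarith

/-- large N gives large y -/
theorem le_large {K : ℕ} (hK : 1 ≤ K) (y1 : ℝ) : ∃ N1 : ℕ, ∀ N : ℕ, N1 ≤ N →
    y1 ≤ (N : ℝ) ^ (1 / (K : ℝ)) := by
  have hK0 : (0 : ℝ) < K := by exact_mod_cast hK
  have h := (tendsto_rpow_atTop (show 0 < 1 / (K : ℝ) by positivity)).comp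
    tendsto_natCast_atTop_atTop
  exact Filter.eventually_atTop.1 (h.eventually_ge_atTop y1)

theorem LE (hLRED : S_LRED) (hBIG : S_BIG) (hWEAK : S_WEAK) (hPLU : S_PLU) (hJM : S_JM)
    (hSML : S_SML) (hGOOD : S_GOOD) : S_LE := by
  intro γ p hγ hp0 hp1
  obtain ⟨p0, hp⟩ := hGOOD γ
  obtain ⟨c1, c2, c3, hc1, hc2, hc3, K1, hK1⟩ := leb_main hBIG hWEAK hPLU hJM hp hγ
  obtain ⟨K0, hK0, hLR⟩ := hLRED γ p0 hp p hp0 hp1.le
  set K := max K0 K1 with hK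
  have hK1' : 1 ≤ K := hK0.trans (le_max_left _ _)
  obtain ⟨c, N0, hc, hN0, hLR⟩ := hLR K (le_max_left _ _)
  obtain ⟨y1, hy1, hmain⟩ := hK1 K (le_max_right _ _) hK1'
  obtain ⟨N1, hN1⟩ := le_large hK1' y1
  have hKpos : (0 : ℝ) < K := by exact_mod_cast hK1'
  refine le_comb (f := fun N => (Real.log N) ^ ((al γ) ^ 2 * p / 4))
    (g := fun N => ∫ ω : Om, ‖D γ N ω‖ ^ p ∂P)
    (c := c * (c1 ^ (p / 2) * c2 * (1 / (K : ℝ)) ^ ((al γ) ^ 2 * p / 4))) (N1 := max N0 N1)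
    (fun N _ => Real.rpow_nonneg (Real.log_natCast_nonneg N) _) (by positivity) ?_
    (fun N hN => leb_small hSML γ p hp0 N (by omega))
  intro N hN hN3
  have hNN0 : N0 ≤ N := (le_max_left _ _).trans hN
  have hy : y1 ≤ (N : ℝ) ^ (1 / (K : ℝ)) := hN1 N ((le_max_right _ _).trans hN)
  set y := (N : ℝ) ^ (1 / (K : ℝ)) with hyd
  have hy00 : 0 < y := lt_of_lt_of_le (Real.exp_pos _) (hy1.trans hy)
  have h3 : 3 ≤ Real.log y := by
    rw [Real.le_log_iff_exp_le hy00]; exact hy1.trans hy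
  set Y := Real.log y with hY
  have hY0 : 0 < Y := by linarith
  set Q := Y ^ ((al γ) ^ 2 / 4) with hQ
  have hQ0 : 0 < Q := Real.rpow_pos_of_pos hY0 _
  have hNpos : (0 : ℝ) < N := by exact_mod_cast (by omega : 0 < N)
  have hYN : Y = Real.log N * (1 / K) := by
    rw [hY, hyd, Real.log_rpow hNpos]; ring
  have hm := hmain N y Q hy hyd le_rfl (Real.rpow_le_rpow_of_exponent_le (by linarith) (by linarith))
  rw [← hY, ← hQ, mul_div_assoc, div_self hQ0.ne', mul_one] at hm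
  have hred := hLR N hNN0
  rw [← hyd, ← hY] at hred
  set Z := (N : ℝ) ^ (1 / 3 : ℝ) with hZ
  obtain ⟨B, hB⟩ := leb_S_bound γ (PrS p0 y) Z
  have hScont := leb_S_cont γ (PrS p0 y) Z
  have hint : Integrable (fun ω => (leS γ (PrS p0 y) Z ω / Y) ^ (p / 2)) P := by
    refine Integrable.of_bound (C := (B / Y) ^ (p / 2)) ?_ (Filter.Eventually.of_forall fun ω => ?_)
    · exact ((hScont.div_const Y).measurable.pow_const (p / 2)).aestronglyMeasurable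
    · rw [Real.norm_eq_abs, abs_of_nonneg (Real.rpow_nonneg
        (div_nonneg (leb_S_nonneg _ _ _ _) hY0.le) _)]
      refine Real.rpow_le_rpow (div_nonneg (leb_S_nonneg _ _ _ _) hY0.le) ?_ (by positivity)
      gcongr
      exact hB ω
  have hmarkov := mul_meas_ge_le_integral_of_nonneg (μ := P)
    (f := fun ω => (leS γ (PrS p0 y) Z ω / Y) ^ (p / 2))
    (Filter.Eventually.of_forall fun ω => Real.rpow_nonneg
      (div_nonneg (leb_S_nonneg _ _ _ _) hY0.le) _) hint ((c1 * Q ^ 2) ^ (p / 2))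
  have hsub : {ω | c1 * Q ^ 2 * Y ≤ leS γ (PrS p0 y) Z ω} ⊆
      {ω | (c1 * Q ^ 2) ^ (p / 2) ≤ (leS γ (PrS p0 y) Z ω / Y) ^ (p / 2)} := by
    intro ω hω
    refine Real.rpow_le_rpow (by positivity) ?_ (by positivity)
    rw [le_div_iff₀ hY0]; exact hω
  have h4 := measureReal_mono (μ := P) hsub
  have h5 : (c1 * Q ^ 2) ^ (p / 2) * c2 ≤ ∫ ω, (leS γ (PrS p0 y) Z ω / Y) ^ (p / 2) ∂P := by
    refine le_trans ?_ hmarkov
    exact mul_le_mul_of_nonneg_left (hm.trans h4) (by positivity)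
  have h6 : (c1 * Q ^ 2) ^ (p / 2) = c1 ^ (p / 2) * ((1 / (K : ℝ)) ^ ((al γ) ^ 2 * p / 4) *
      (Real.log N) ^ ((al γ) ^ 2 * p / 4)) := by
    have hl : 0 ≤ Real.log (N : ℝ) := Real.log_natCast_nonneg N
    rw [← Real.mul_rpow (by positivity) hl, mul_comm (1 / (K : ℝ)), ← hYN, Real.mul_rpow hc1.le
      (by positivity), hQ, ← Real.rpow_natCast, ← Real.rpow_mul hY0.le, ← Real.rpow_mul hY0.le]
    congr 2; push_cast; ring
  calc c * (c1 ^ (p / 2) * c2 * (1 / (K : ℝ)) ^ ((al γ) ^ 2 * p / 4)) *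
        (Real.log N) ^ ((al γ) ^ 2 * p / 4) = c * ((c1 * Q ^ 2) ^ (p / 2) * c2) := by
        rw [h6]; ring
    _ ≤ c * ∫ ω, (leS γ (PrS p0 y) Z ω / Y) ^ (p / 2) ∂P := by gcongr
    _ ≤ ∫ ω : Om, ‖DA γ (PrS p0 N) N ω‖ ^ p ∂P := hred
    _ ≤ _ := hSML γ p0 p hp0 N (by omega)

end PM
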