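import Pool.Agent.H24.PM.LE

/-! Module LE1 of project PM: the endpoint p = 1. -/

namespace PM
open MeasureTheory Complex

attribute [local irreducible] G PrS

/-- exponential levels below x -/
theorem le1_sum {Q : ℝ} (hQ : 0 < Q) {x : ℝ} (hx : 0 ≤ x) (n : ℕ) :
    ∑ k ∈ Finset.range n, (if Q * Real.exp k ≤ x then Q * Real.exp k else 0) ≤ Q * Real.exp n ∧
    ∑ k ∈ Finset.range n, (if Q * Real.exp k ≤ x then Q * Real.exp k else 0) ≤ 2 * x := by
  induction n with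
  | zero => simp; exact ⟨hQ.le, hx⟩
  | succ n ih =>
    rw [Finset.sum_range_succ]
    have he : 2 * (Q * Real.exp n) ≤ Q * Real.exp ((n + 1 : ℕ) : ℝ) := by
      push_cast
      rw [Real.exp_add]
      have h1 := Real.add_one_le_exp (1 : ℝ)
      have h2 : 0 < Q * Real.exp n := by positivity
      nlinarith
    have h2 : 0 < Q * Real.exp n := by positivity
    split_ifs with h
    · constructor <;> linarith [ih.1, ih.2]
    · constructor <;> linarith [ih.1, ih.2]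

theorem LE1 (hLRED : S_LRED) (hBIG : S_BIG) (hWEAK : S_WEAK) (hPLU : S_PLU) (hJM : S_JM)
    (hSML : S_SML) (hGOOD : S_GOOD) : S_LE1 := by
  intro γ hγ
  obtain ⟨p0, hp⟩ := hGOOD γ
  obtain ⟨c1, c2, c3, hc1, hc2, hc3, K1, hK1⟩ := leb_main hBIG hWEAK hPLU hJM hp hγ
  obtain ⟨K0, hK0, hLR⟩ := hLRED γ p0 hp 1 one_pos le_rfl
  set K := max K0 K1 with hK
  have hK1' : 1 ≤ K := hK0.trans (le_max_left _ _)
  obtain ⟨c, N0, hc, hN0, hLR⟩ := hLR K (le_max_left _ _)
  obtain ⟨y1, hy1, hmain⟩ := hK1 K (le_max_right _ _) hK1'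
  have hKpos : (0 : ℝ) < K := by exact_mod_cast hK1'
  obtain ⟨N1, hN1⟩ := le_large hK1' (max y1 (Real.exp K))
  refine le_comb
    (f := fun N => (Real.log N) ^ ((al γ) ^ 2 / 4) * Real.log (Real.log N))
    (g := fun N => ∫ ω : Om, ‖D γ N ω‖ ∂P)
    (c := c * (Real.sqrt c1 / 2 * c2 * (1 / (K : ℝ)) ^ ((al γ) ^ 2 / 4) * (c3 / 2)))
    (N1 := max N0 N1) (fun N hN => ?_) (by positivity) ?_
    (fun N hN => by simpa using leb_small hSML γ 1 one_pos N (by omega))
  · refine mul_nonneg (Real.rpow_nonneg (Real.log_natCast_nonneg N) _) (Real.log_nonneg ?_)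
    have h16 : Real.exp 1 ≤ N := by
      have h1 : (16 : ℝ) ≤ N := by exact_mod_cast hN
      have := Real.exp_one_lt_d9
      linarith
    rwa [Real.le_log_iff_exp_le (lt_of_lt_of_le (Real.exp_pos _) h16)]
  intro N hN hN16
  have hNN0 : N0 ≤ N := (le_max_left _ _).trans hN
  have hy' : max y1 (Real.exp K) ≤ (N : ℝ) ^ (1 / (K : ℝ)) := hN1 N ((le_max_right _ _).trans hN)
  have hy : y1 ≤ (N : ℝ) ^ (1 / (K : ℝ)) := (le_max_left _ _).trans hy'
  have hyK : Real.exp K ≤ (N : ℝ) ^ (1 / (K : ℝ)) := (le_max_right _ _).trans hy'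
  set y := (N : ℝ) ^ (1 / (K : ℝ)) with hyd
  have hy00 : 0 < y := lt_of_lt_of_le (Real.exp_pos _) (hy1.trans hy)
  have h3 : 3 ≤ Real.log y := by
    rw [Real.le_log_iff_exp_le hy00]; exact hy1.trans hy
  have hKY : (K : ℝ) ≤ Real.log y := by
    rw [Real.le_log_iff_exp_le hy00]; exact hyK
  set Y := Real.log y with hY
  have hY0 : 0 < Y := by linarith
  set Q := Y ^ ((al γ) ^ 2 / 4) with hQ
  have hQ0 : 0 < Q := Real.rpow_pos_of_pos hY0 _
  have hNpos : (0 : ℝ) < N := by exact_mod_cast (by omega : 0 < N)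
  have hYN : Y = Real.log N * (1 / K) := by
    rw [hY, hyd, Real.log_rpow hNpos]; ring
  -- number of levels
  set n : ℕ := ⌊c3 * Real.log Y⌋₊ + 1 with hn
  have hlY : 0 ≤ Real.log Y := Real.log_nonneg (by linarith)
  have hm : ∀ k ∈ Finset.range n, c2 ≤ Real.exp k *
      P.real {ω | c1 * (Q * Real.exp k) ^ 2 * Y ≤
        leS γ (PrS p0 y) ((N : ℝ) ^ (1 / 3 : ℝ)) ω} := by
    intro k hk
    have hk1 : (k : ℝ) ≤ c3 * Real.log Y := by
      have : k ≤ ⌊c3 * Real.log Y⌋₊ := by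
        have := Finset.mem_range.1 hk; omega
      exact (Nat.cast_le.2 this).trans (Nat.floor_le (by positivity))
    have hQk : Q ≤ Q * Real.exp k := by
      have := Real.one_le_exp (show (0 : ℝ) ≤ k by positivity)
      nlinarith
    have h1 := hmain N y (Q * Real.exp k) hy hyd hQk (by
      rw [← hY, Real.rpow_add hY0, ← hQ]
      refine mul_le_mul_of_nonneg_left ?_ hQ0.le
      rw [Real.rpow_def_of_pos hY0]
      refine Real.exp_le_exp.2 ?_
      linarith)
    rw [← hY, ← hQ] at h1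
    have h2 : c2 * Q / (Q * Real.exp k) = c2 / Real.exp k := by
      field_simp
    rw [h2, div_le_iff₀ (Real.exp_pos _)] at h1
    linarith
  have hred := hLR N hNN0
  rw [← hyd, ← hY] at hred
  set Z := (N : ℝ) ^ (1 / 3 : ℝ) with hZ
  obtain ⟨B, hB⟩ := leb_S_bound γ (PrS p0 y) Z
  have hScont := leb_S_cont γ (PrS p0 y) Z
  have hXnn : ∀ ω, 0 ≤ leS γ (PrS p0 y) Z ω / Y := fun ω =>
    div_nonneg (leb_S_nonneg _ _ _ _) hY0.le
  -- X = sqrt (S / Y)
  have hint : Integrable (fun ω => (leS γ (PrS p0 y) Z ω / Y) ^ ((1 : ℝ) / 2)) P := by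
    refine Integrable.of_bound (C := (B / Y) ^ ((1 : ℝ) / 2)) ?_
      (Filter.Eventually.of_forall fun ω => ?_)
    · exact ((hScont.div_const Y).measurable.pow_const ((1 : ℝ) / 2)).aestronglyMeasurable
    · rw [Real.norm_eq_abs, abs_of_nonneg (Real.rpow_nonneg (hXnn ω) _)]
      refine Real.rpow_le_rpow (hXnn ω) ?_ (by norm_num)
      gcongr
      exact hB ω
  have hEm : ∀ k : ℕ, MeasurableSet {ω | c1 * (Q * Real.exp k) ^ 2 * Y ≤
      leS γ (PrS p0 y) Z ω} := fun k => measurableSet_le measurable_const hScont.measurable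
  -- pointwise
  have hpt : ∀ ω, Real.sqrt c1 / 2 * ∑ k ∈ Finset.range n,
      Set.indicator {ω | c1 * (Q * Real.exp k) ^ 2 * Y ≤ leS γ (PrS p0 y) Z ω}
        (fun _ => Q * Real.exp k) ω ≤ (leS γ (PrS p0 y) Z ω / Y) ^ ((1 : ℝ) / 2) := by
    intro ω
    set x := (leS γ (PrS p0 y) Z ω / Y) ^ ((1 : ℝ) / 2) / Real.sqrt c1 with hx
    have hsc : 0 < Real.sqrt c1 := Real.sqrt_pos.2 hc1
    have hx0 : 0 ≤ x := div_nonneg (Real.rpow_nonneg (hXnn ω) _) hsc.le
    have h1 := (le1_sum hQ0 hx0 n).2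
    have h2 : ∀ k ∈ Finset.range n,
        Set.indicator {ω | c1 * (Q * Real.exp k) ^ 2 * Y ≤ leS γ (PrS p0 y) Z ω}
          (fun _ => Q * Real.exp k) ω ≤ if Q * Real.exp k ≤ x then Q * Real.exp k else 0 := by
      intro k _
      by_cases h : ω ∈ {ω | c1 * (Q * Real.exp k) ^ 2 * Y ≤ leS γ (PrS p0 y) Z ω}
      · rw [Set.indicator_of_mem h, if_pos]
        rw [hx, le_div_iff₀ hsc, ← Real.sqrt_eq_rpow]
        refine Real.le_sqrt_of_sq_le ?_
        rw [mul_pow, Real.sq_sqrt hc1.le, le_div_iff₀ hY0]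
        have h' : c1 * (Q * Real.exp k) ^ 2 * Y ≤ leS γ (PrS p0 y) Z ω := h
        linarith
      · rw [Set.indicator_of_notMem h]
        split_ifs
        · positivity
        · exact le_rfl
    have h4 := (Finset.sum_le_sum h2).trans h1
    calc _ ≤ Real.sqrt c1 / 2 * (2 * x) := by gcongr
      _ = _ := by rw [hx]; field_simp
  have hsum : Real.sqrt c1 / 2 * (Q * c2 * n) ≤
      ∫ ω, (leS γ (PrS p0 y) Z ω / Y) ^ ((1 : ℝ) / 2) ∂P := by
    have hI : ∀ k ∈ Finset.range n, Integrable (fun ω =>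
        Set.indicator {ω | c1 * (Q * Real.exp k) ^ 2 * Y ≤ leS γ (PrS p0 y) Z ω}
        (fun _ => Q * Real.exp k) ω) P := fun k _ => (integrable_const _).indicator (hEm k)
    have h1 : ∫ ω, Real.sqrt c1 / 2 * ∑ k ∈ Finset.range n,
        Set.indicator {ω | c1 * (Q * Real.exp k) ^ 2 * Y ≤ leS γ (PrS p0 y) Z ω}
        (fun _ => Q * Real.exp k) ω ∂P ≤
        ∫ ω, (leS γ (PrS p0 y) Z ω / Y) ^ ((1 : ℝ) / 2) ∂P :=
      integral_mono ((integrable_finsetSum _ hI).const_mul _) hint hpt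
    refine le_trans ?_ h1
    rw [integral_const_mul, integral_finsetSum _ hI]
    refine mul_le_mul_of_nonneg_left ?_ (by positivity)
    have h2 : ∀ k ∈ Finset.range n, Q * c2 ≤ ∫ ω,
        Set.indicator {ω | c1 * (Q * Real.exp k) ^ 2 * Y ≤ leS γ (PrS p0 y) Z ω}
        (fun _ => Q * Real.exp k) ω ∂P := by
      intro k hk
      rw [integral_indicator_const _ (hEm k), smul_eq_mul]
      have := mul_le_mul_of_nonneg_left (hm k hk) hQ0.le
      linarith
    have h4 := Finset.sum_le_sum h2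
    rw [Finset.sum_const, Finset.card_range, nsmul_eq_mul] at h4
    linarith
  -- number of levels versus loglog N
  have hlog : c3 / 2 * Real.log (Real.log N) ≤ n := by
    have h1 : c3 * Real.log Y ≤ n := by
      rw [hn]; push_cast; exact (Nat.lt_floor_add_one _).le
    have h2 : Real.log (Real.log N) ≤ 2 * Real.log Y := by
      have h5 : Real.log (N : ℝ) = K * Y := by rw [hYN]; field_simp
      rw [h5, Real.log_mul hKpos.ne' hY0.ne']
      have := Real.log_le_log hKpos hKY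
      linarith
    nlinarith
  have hQN : (1 / (K : ℝ)) ^ ((al γ) ^ 2 / 4) * (Real.log N) ^ ((al γ) ^ 2 / 4) = Q := by
    have hl : 0 ≤ Real.log (N : ℝ) := Real.log_natCast_nonneg N
    rw [← Real.mul_rpow (by positivity) hl, mul_comm (1 / (K : ℝ)), ← hYN]
  calc c * (Real.sqrt c1 / 2 * c2 * (1 / (K : ℝ)) ^ ((al γ) ^ 2 / 4) * (c3 / 2)) *
        ((Real.log N) ^ ((al γ) ^ 2 / 4) * Real.log (Real.log N)) =
        c * (Real.sqrt c1 / 2 * (Q * c2 * (c3 / 2 * Real.log (Real.log N)))) := by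
        rw [← hQN]; ring
    _ ≤ c * (Real.sqrt c1 / 2 * (Q * c2 * n)) := by gcongr
    _ ≤ c * ∫ ω, (leS γ (PrS p0 y) Z ω / Y) ^ ((1 : ℝ) / 2) ∂P := by gcongr
    _ ≤ ∫ ω : Om, ‖DA γ (PrS p0 N) N ω‖ ^ (1 : ℝ) ∂P := hred
    _ ≤ ∫ ω : Om, ‖D γ N ω‖ ^ (1 : ℝ) ∂P := hSML γ p0 1 one_pos N (by omega)
    _ = _ := by simp

end PM
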