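import Pool.Agent.H24.PM.CHI
import Mathlib.Analysis.Complex.JensenFormula

/-! Expansion of the local moments. -/

namespace PM
open MeasureTheory Complex

namespace AuxLOC

theorem al_pos (γ : ℝ) : 0 < al γ := Real.rpow_pos_of_pos two_pos γ

theorem summable_coeff (γ r : ℝ) (hr0 : 0 < r) (hr1 : r < 1) :
    Summable (fun k : ℕ => ((k : ℝ) + 1) ^ γ * r ^ k) := by
  have h1 : Summable (fun n : ℕ => (n : ℝ) ^ ⌈|γ|⌉₊ * r ^ n) := by
    refine summable_pow_mul_geometric_of_norm_lt_one _ ?_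
    rwa [Real.norm_of_nonneg hr0.le]
  have h2 := (summable_nat_add_iff 1).mpr h1
  have h3 := h2.mul_left (r⁻¹)
  refine Summable.of_nonneg_of_le (fun k => by positivity) (fun k => ?_) h3
  have hk : (1 : ℝ) ≤ (k : ℝ) + 1 := by
    have : (0 : ℝ) ≤ (k : ℝ) := Nat.cast_nonneg k
    linarith
  have h4 : ((k : ℝ) + 1) ^ γ ≤ ((k : ℝ) + 1) ^ ⌈|γ|⌉₊ := by
    rw [← Real.rpow_natCast]
    exact Real.rpow_le_rpow_of_exponent_le hk ((le_abs_self γ).trans (Nat.le_ceil _))
  have h5 : r⁻¹ * ((((k + 1 : ℕ) : ℝ)) ^ ⌈|γ|⌉₊ * r ^ (k + 1)) = ((k : ℝ) + 1) ^ ⌈|γ|⌉₊ * r ^ k := by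
    push_cast
    rw [pow_succ]
    field_simp
  rw [h5]
  exact mul_le_mul_of_nonneg_right h4 (by positivity)

theorem phi_differentiableOn_ball (γ r : ℝ) (hr0 : 0 < r) (hr1 : r < 1) :
    DifferentiableOn ℂ (phi γ) (Metric.ball 0 r) := by
  unfold phi
  refine differentiableOn_tsum_of_summable_norm (summable_coeff γ r hr0 hr1)
    (fun k => ?_) Metric.isOpen_ball (fun k w hw => ?_)
  · exact (differentiable_const _ |>.mul (differentiable_id.pow k)).differentiableOn
  · rw [norm_mul, norm_pow, Complex.norm_real, Real.norm_of_nonneg (by positivity)]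
    have : ‖w‖ ≤ r := by
      rw [mem_ball_zero_iff] at hw
      exact hw.le
    gcongr

theorem phi_differentiableOn (γ : ℝ) : DifferentiableOn ℂ (phi γ) (Metric.ball 0 (3 / 4)) :=
  phi_differentiableOn_ball γ (3 / 4) (by norm_num) (by norm_num)

theorem phi_zero (γ : ℝ) : phi γ 0 = 1 := by
  unfold phi
  rw [tsum_eq_single 0]
  · simp
  · intro k hk
    simp [hk]

theorem zc_coe (x : ℝ) : zc (x : UnitAddCircle) = Complex.exp (2 * Real.pi * x * I) := by
  unfold zc
  rw [fourier_coe_apply]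
  congr 1
  push_cast
  ring

/-- mean value over the circle as an integral over the group -/
theorem circle_int (f : ℂ → ℝ) (w : ℂ) :
    ∫ x : UnitAddCircle, f (zc x * w) = Real.circleAverage f 0 ‖w‖ := by
  rw [Real.circleAverage_eq_integral_add (Complex.arg w)]
  rw [← UnitAddCircle.intervalIntegral_preimage 0 (fun x : UnitAddCircle => f (zc x * w))]
  have h1 : ∀ x : ℝ, f (zc (x : UnitAddCircle) * w) =
      (fun θ : ℝ => f (circleMap 0 ‖w‖ (θ + Complex.arg w))) ((2 * Real.pi) * x) := by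
    intro x
    simp only [circleMap, zero_add]
    congr 1
    rw [zc_coe]
    have h2 : w = ‖w‖ * Complex.exp (Complex.arg w * I) := (Complex.norm_mul_exp_arg_mul_I w).symm
    conv_lhs => rw [h2]
    push_cast
    rw [add_mul, Complex.exp_add]
    ring
  have h3 := intervalIntegral.integral_comp_mul_left
    (fun θ : ℝ => f (circleMap 0 ‖w‖ (θ + Complex.arg w))) (a := 0) (b := 0 + 1)
    (by positivity : (2 * Real.pi) ≠ 0)
  rw [intervalIntegral.integral_congr (fun x _ => h1 x), h3]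
  simp

/-- the mean of log |phi| over a circle vanishes -/
theorem int_log (γ r0 : ℝ) (hr : r0 ≤ 1 / 2) (hG : ∀ x : ℂ, ‖x‖ ≤ r0 → ‖phi γ x - 1‖ ≤ 1 / 2)
    (w : ℂ) (hw : ‖w‖ ≤ r0) : ∫ x : UnitAddCircle, Real.log ‖phi γ (zc x * w)‖ = 0 := by
  rw [circle_int (fun z => Real.log ‖phi γ z‖) w]
  have h1 : AnalyticOnNhd ℂ (phi γ) (Metric.closedBall 0 |‖w‖|) := by
    intro z hz
    refine (phi_differentiableOn γ).analyticAt (Metric.isOpen_ball.mem_nhds ?_)
    rw [mem_closedBall_zero_iff, abs_of_nonneg (norm_nonneg w)] at hz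
    rw [mem_ball_zero_iff]
    linarith
  rw [AnalyticOnNhd.circleAverage_log_norm_of_ne_zero h1, phi_zero]
  · simp
  · intro z hz hz0
    rw [mem_closedBall_zero_iff, abs_of_nonneg (norm_nonneg w)] at hz
    have := hG z (hz.trans hw)
    rw [hz0, zero_sub, norm_neg, norm_one] at this
    norm_num at this

/-- mean of a product of two real parts -/
theorem int_re_re (w w' : ℂ) : ∫ x : UnitAddCircle, (zc x * w).re * (zc x * w').re =
    (w * (starRingEnd ℂ) w').re / 2 := by
  have h1 : ∀ x : UnitAddCircle, (zc x * w).re * (zc x * w').re =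
      (w * (starRingEnd ℂ) w').re / 2 +
      ((zc x ^ 2 * (starRingEnd ℂ) (zc x ^ 0)) * (w * w')).re / 2 := by
    intro x
    have h2 := AuxCHI.zc_norm x
    have h3 : (zc x).re * (zc x).re + (zc x).im * (zc x).im = 1 := by
      have := Complex.normSq_eq_norm_sq (zc x)
      rw [h2, Complex.normSq_apply] at this
      linarith
    simp only [Complex.mul_re, Complex.mul_im, Complex.conj_re, Complex.conj_im, pow_two, pow_zero,
      map_one, mul_one]
    linear_combination ((w.re * w'.re + w.im * w'.im) / 2) * h3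
  have hc : Continuous (fun x : UnitAddCircle =>
      (zc x ^ 2 * (starRingEnd ℂ) (zc x ^ 0)) * (w * w')) := by
    have := AuxCHI.zc_continuous
    have h4 := Complex.continuous_conj
    fun_prop
  rw [integral_congr_ae (Filter.Eventually.of_forall h1), integral_add]
  · rw [integral_const, probReal_univ, one_smul]
    have h5 : ∫ x : UnitAddCircle, ((zc x ^ 2 * (starRingEnd ℂ) (zc x ^ 0)) * (w * w')).re / 2 =
        0 := by
      rw [integral_div]
      have h6 : ∫ x : UnitAddCircle, ((zc x ^ 2 * (starRingEnd ℂ) (zc x ^ 0)) * (w * w')).re =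
          (∫ x : UnitAddCircle, (zc x ^ 2 * (starRingEnd ℂ) (zc x ^ 0)) * (w * w')).re :=
        integral_re (hc.integrable_of_hasCompactSupport (HasCompactSupport.of_compactSpace _))
      rw [h6, integral_mul_const, AuxCHI.integral_zc]
      simp
    rw [h5, add_zero]
  · exact integrable_const _
  · exact ((Complex.continuous_re.comp hc).div_const 2).integrable_of_hasCompactSupport
      (HasCompactSupport.of_compactSpace _)

/-- first order expansion of log |phi| -/
theorem log_exp (γ r0 C1 : ℝ) (hr : r0 ≤ 1 / 2) (hC1 : 0 < C1)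
    (hG : ∀ x : ℂ, ‖x‖ ≤ r0 → ‖phi γ x - 1‖ ≤ 1 / 2)
    (hE : ∀ x : ℂ, ‖x‖ ≤ 1 / 2 → ‖phi γ x - 1 - al γ * x‖ ≤ C1 * ‖x‖ ^ 2)
    (x : ℂ) (hx : ‖x‖ ≤ r0) :
    |Real.log ‖phi γ x‖ - al γ * x.re| ≤ ((al γ + C1) ^ 2 + C1) * ‖x‖ ^ 2 := by
  have h1 := hG x hx
  have h2 := hE x (hx.trans hr)
  have hα := al_pos γ
  have hx0 := norm_nonneg x
  set u := phi γ x - 1 with hu
  have h3 : ‖u‖ ≤ (al γ + C1) * ‖x‖ := by
    have h4 : ‖u‖ ≤ ‖u - al γ * x‖ + ‖(al γ : ℂ) * x‖ := by
      have := norm_add_le (u - al γ * x) ((al γ : ℂ) * x)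
      rwa [sub_add_cancel] at this
    rw [norm_mul, Complex.norm_real, Real.norm_of_nonneg hα.le] at h4
    have h5 : C1 * ‖x‖ ^ 2 ≤ C1 * ‖x‖ := by
      have : ‖x‖ ^ 2 ≤ ‖x‖ := by nlinarith
      gcongr
    linarith
  have h6 : ‖Complex.log (1 + u) - u‖ ≤ ‖u‖ ^ 2 := by
    have h7 := Complex.norm_log_one_add_sub_self_le (z := u) (by linarith)
    have h8 : (1 - ‖u‖)⁻¹ ≤ 2 := by
      rw [inv_le_comm₀ (by linarith) (by norm_num)]
      linarith
    have h9 : ‖u‖ ^ 2 * (1 - ‖u‖)⁻¹ / 2 ≤ ‖u‖ ^ 2 * 2 / 2 := by gcongr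
    linarith
  have h10 : Real.log ‖phi γ x‖ = (Complex.log (1 + u)).re := by
    rw [Complex.log_re]
    congr 2
    rw [hu]
    ring
  have h11 : Real.log ‖phi γ x‖ - al γ * x.re = (Complex.log (1 + u) - al γ * x).re := by
    rw [h10, Complex.sub_re, Complex.re_ofReal_mul]
  rw [h11]
  refine (Complex.abs_re_le_norm _).trans ?_
  have h12 : Complex.log (1 + u) - al γ * x = (Complex.log (1 + u) - u) + (u - al γ * x) := by ring
  rw [h12]
  refine (norm_add_le _ _).trans ?_
  have h13 : ‖u‖ ^ 2 ≤ ((al γ + C1) * ‖x‖) ^ 2 := by gcongr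
  rw [mul_pow] at h13
  nlinarith

theorem cont_log (γ r0 : ℝ) (hr : r0 ≤ 1 / 2)
    (hG : ∀ x : ℂ, ‖x‖ ≤ r0 → ‖phi γ x - 1‖ ≤ 1 / 2)
    (w : ℂ) (hw : ‖w‖ ≤ r0) :
    Continuous (fun x : UnitAddCircle => Real.log ‖phi γ (zc x * w)‖) := by
  have h1 : Continuous (fun x : UnitAddCircle => phi γ (zc x * w)) := by
    refine (phi_differentiableOn γ).continuousOn.comp_continuous
      (AuxCHI.zc_continuous.mul continuous_const) (fun x => ?_)
    rw [mem_ball_zero_iff, norm_mul, AuxCHI.zc_norm, one_mul]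
    linarith
  refine h1.norm.log (fun x => ?_)
  intro h0
  rw [norm_eq_zero] at h0
  have := hG (zc x * w) (by rwa [norm_mul, AuxCHI.zc_norm, one_mul])
  rw [h0, zero_sub, norm_neg, norm_one] at this
  norm_num at this

theorem exp_two (X : ℂ) : ‖Complex.exp X - 1 - X - X ^ 2 / 2‖ ≤ ‖X‖ ^ 3 * Real.exp ‖X‖ := by
  have h := Complex.norm_exp_sub_sum_le_norm_mul_exp X 3
  have h1 : Complex.exp X - ∑ m ∈ Finset.range 3, X ^ m / m.factorial =
      Complex.exp X - 1 - X - X ^ 2 / 2 := by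
    simp only [Finset.sum_range_succ, Finset.sum_range_zero]
    simp [Nat.factorial]
    ring
  rwa [h1] at h

end AuxLOC

open AuxLOC in
theorem LOC (hE : S_EXP) : S_LOC := by
  intro γ p0 hG k M
  obtain ⟨C1, hC1, hE1⟩ := hE γ
  obtain ⟨hp0, hG2⟩ := hG
  have hα := al_pos γ
  set D : ℝ := al γ + ((al γ + C1) ^ 2 + C1) with hD
  have hD0 : 0 < D := by positivity
  set K : ℝ := k * |M| with hK
  have hK0 : 0 ≤ K := by positivity
  have he16 : (1 : ℝ) ≤ Real.exp 16 := Real.one_le_exp (by norm_num)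
  have hp1 : (0 : ℝ) < p0 := by linarith
  have hr0 : Real.exp 8 / Real.sqrt p0 ≤ 1 / 2 := by
    rw [div_le_iff₀ (Real.sqrt_pos.mpr hp1)]
    have : Real.sqrt (4 * Real.exp 16) ≤ Real.sqrt p0 := Real.sqrt_le_sqrt hp0
    have h2 : 4 * Real.exp 16 = (2 * Real.exp 8) ^ 2 := by
      rw [mul_pow, ← Real.exp_nat_mul]
      norm_num
    rw [h2, Real.sqrt_sq (by positivity)] at this
    linarith
  refine ⟨((2 * (K * D)) ^ 3 * Real.exp (2 * (K * D)) + 2 * (K * D) ^ 2) * Real.exp 24 + 1,
    by positivity, ?_⟩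
  intro l hl a w ha hw
  have hl0 : (0 : ℝ) < l := by
    have : (p0 : ℝ) < l := by exact_mod_cast hl
    linarith
  set r : ℝ := Real.exp 8 / Real.sqrt l with hr
  have hrpos : 0 < r := div_pos (Real.exp_pos _) (Real.sqrt_pos.mpr hl0)
  have hrr0 : r ≤ Real.exp 8 / Real.sqrt p0 := by
    have h3 : Real.sqrt p0 ≤ Real.sqrt l := Real.sqrt_le_sqrt (by exact_mod_cast hl.le)
    have h4 : 0 < Real.sqrt p0 := Real.sqrt_pos.mpr hp1
    rw [hr]
    gcongr
  have hr1 : r ≤ 1 := by linarith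
  have hwr : ∀ i, ‖w i‖ ≤ Real.exp 8 / Real.sqrt p0 := fun i => (hw i).trans hrr0
  have hzw : ∀ i (x : UnitAddCircle), ‖zc x * w i‖ = ‖w i‖ := by
    intro i x
    rw [norm_mul, AuxCHI.zc_norm, one_mul]
  have hcont : ∀ i, Continuous (fun x : UnitAddCircle => Real.log ‖phi γ (zc x * w i)‖) :=
    fun i => cont_log γ _ hr0 hG2 (w i) (hwr i)
  set X : UnitAddCircle → ℂ := fun x => ∑ i, a i * Real.log ‖phi γ (zc x * w i)‖ with hX
  set Y : UnitAddCircle → ℂ := fun x => ∑ i, a i * ((al γ * (zc x * w i).re : ℝ) : ℂ) with hY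
  have hXc : Continuous X := by
    rw [hX]
    refine continuous_finsetSum _ (fun i _ => ?_)
    exact continuous_const.mul (Complex.continuous_ofReal.comp (hcont i))
  have hYc : Continuous Y := by
    rw [hY]
    refine continuous_finsetSum _ (fun i _ => ?_)
    refine continuous_const.mul (Complex.continuous_ofReal.comp ?_)
    exact continuous_const.mul (Complex.continuous_re.comp
      (AuxCHI.zc_continuous.mul continuous_const))
  have hint : ∀ f : UnitAddCircle → ℂ, Continuous f → Integrable f :=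
    fun f hf => hf.integrable_of_hasCompactSupport (HasCompactSupport.of_compactSpace _)
  have ha' : ∀ i, ‖a i‖ ≤ |M| := fun i => (ha i).trans (le_abs_self M)
  have hYb : ∀ x, ‖Y x‖ ≤ K * D * r := by
    intro x
    have h1 : ∀ i ∈ Finset.univ, ‖a i * ((al γ * (zc x * w i).re : ℝ) : ℂ)‖ ≤ |M| * (D * r) := by
      intro i _
      rw [norm_mul, Complex.norm_real, Real.norm_eq_abs, abs_mul, abs_of_pos hα]
      have h2 : |(zc x * w i).re| ≤ r := (Complex.abs_re_le_norm _).trans (by rw [hzw]; exact hw i)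
      have h3 : al γ ≤ D := by
        have : 0 ≤ (al γ + C1) ^ 2 + C1 := by positivity
        linarith
      have := ha' i
      gcongr
    refine (norm_sum_le_of_le _ h1).trans ?_
    rw [Finset.sum_const, Finset.card_univ, Fintype.card_fin, nsmul_eq_mul, hK]
    apply le_of_eq
    ring
  have hXYb : ∀ x, ‖X x - Y x‖ ≤ K * D * r ^ 2 := by
    intro x
    have h0 : X x - Y x = ∑ i, a i * ((Real.log ‖phi γ (zc x * w i)‖ -
        al γ * (zc x * w i).re : ℝ) : ℂ) := by
      rw [hX, hY]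
      simp only
      rw [← Finset.sum_sub_distrib]
      refine Finset.sum_congr rfl (fun i _ => ?_)
      push_cast
      ring
    rw [h0]
    have h1 : ∀ i ∈ Finset.univ, ‖a i * ((Real.log ‖phi γ (zc x * w i)‖ -
        al γ * (zc x * w i).re : ℝ) : ℂ)‖ ≤ |M| * (D * r ^ 2) := by
      intro i _
      rw [norm_mul, Complex.norm_real, Real.norm_eq_abs]
      have h2 := log_exp γ _ C1 hr0 hC1 hG2 hE1 (zc x * w i) (by rw [hzw]; exact hwr i)
      rw [hzw] at h2
      have h3 : (al γ + C1) ^ 2 + C1 ≤ D := by linarith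
      have h4 : ((al γ + C1) ^ 2 + C1) * ‖w i‖ ^ 2 ≤ D * r ^ 2 := by
        have := hw i
        gcongr
      have := ha' i
      have h5 := h2.trans h4
      gcongr
    refine (norm_sum_le_of_le _ h1).trans ?_
    rw [Finset.sum_const, Finset.card_univ, Fintype.card_fin, nsmul_eq_mul, hK]
    apply le_of_eq
    ring
  have hXb : ∀ x, ‖X x‖ ≤ 2 * (K * D * r) := by
    intro x
    have h1 : ‖X x‖ ≤ ‖X x - Y x‖ + ‖Y x‖ := by
      have := norm_add_le (X x - Y x) (Y x)
      rwa [sub_add_cancel] at this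
    have h2 := hXYb x
    have h3 := hYb x
    have h4 : K * D * r ^ 2 ≤ K * D * r := by
      have : r ^ 2 ≤ r := by nlinarith
      gcongr
    linarith
  have hXint : ∫ x, X x = 0 := by
    have hc : ∀ i, Continuous (fun x : UnitAddCircle =>
        a i * ((Real.log ‖phi γ (zc x * w i)‖ : ℝ) : ℂ)) := fun i =>
      continuous_const.mul (Complex.continuous_ofReal.comp (hcont i))
    have h0 : ∫ x, X x = ∑ i, ∫ x : UnitAddCircle,
        a i * ((Real.log ‖phi γ (zc x * w i)‖ : ℝ) : ℂ) :=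
      integral_finsetSum _ (fun i _ => hint _ (hc i))
    rw [h0]
    refine Finset.sum_eq_zero (fun i _ => ?_)
    rw [integral_const_mul, integral_complex_ofReal, int_log γ _ hr0 hG2 (w i) (hwr i)]
    simp
  have hYint : ∫ x, Y x ^ 2 / 2 = (al γ) ^ 2 / 4 * ∑ i, ∑ j, a i * a j *
      ((w i * (starRingEnd ℂ) (w j)).re : ℂ) := by
    have h1 : ∀ x, Y x ^ 2 / 2 = ∑ i, ∑ j, (a i * a j * (al γ) ^ 2 / 2) *
        (((zc x * w i).re * (zc x * w j).re : ℝ) : ℂ) := by
      intro x
      rw [hY]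
      simp only
      rw [pow_two, Finset.sum_mul_sum, Finset.sum_div]
      refine Finset.sum_congr rfl (fun i _ => ?_)
      rw [Finset.sum_div]
      refine Finset.sum_congr rfl (fun j _ => ?_)
      push_cast
      ring
    have hc : ∀ i j, Continuous (fun x : UnitAddCircle => (a i * a j * (al γ : ℂ) ^ 2 / 2) *
        (((zc x * w i).re * (zc x * w j).re : ℝ) : ℂ)) := by
      intro i j
      refine continuous_const.mul (Complex.continuous_ofReal.comp ?_)
      exact (Complex.continuous_re.comp (AuxCHI.zc_continuous.mul continuous_const)).mul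
        (Complex.continuous_re.comp (AuxCHI.zc_continuous.mul continuous_const))
    rw [integral_congr_ae (Filter.Eventually.of_forall h1),
      integral_finsetSum _ (fun i _ => hint _ (continuous_finsetSum _ (fun j _ => hc i j))),
      Finset.mul_sum]
    refine Finset.sum_congr rfl (fun i _ => ?_)
    rw [integral_finsetSum _ (fun j _ => hint _ (hc i j)), Finset.mul_sum]
    refine Finset.sum_congr rfl (fun j _ => ?_)
    rw [integral_const_mul, integral_complex_ofReal, int_re_re]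
    push_cast
    ring
  have hmain : (∫ x : UnitAddCircle, Complex.exp (X x)) - 1 -
      (al γ) ^ 2 / 4 * ∑ i, ∑ j, a i * a j * ((w i * (starRingEnd ℂ) (w j)).re : ℂ) =
      ∫ x : UnitAddCircle, ((Complex.exp (X x) - 1 - X x - X x ^ 2 / 2) +
        (X x ^ 2 - Y x ^ 2) / 2) := by
    have h1 : ∀ x, (Complex.exp (X x) - 1 - X x - X x ^ 2 / 2) + (X x ^ 2 - Y x ^ 2) / 2 =
        ((Complex.exp (X x) - 1) - X x) - Y x ^ 2 / 2 := by
      intro x
      ring
    rw [integral_congr_ae (Filter.Eventually.of_forall h1)]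
    have hec : Continuous (fun x => Complex.exp (X x)) := Complex.continuous_exp.comp hXc
    rw [integral_sub, integral_sub, integral_sub, hXint, hYint, integral_const, probReal_univ,
      one_smul, sub_zero]
    · exact hint _ hec
    · exact integrable_const _
    · exact hint _ (hec.sub continuous_const)
    · exact hint _ hXc
    · exact hint _ ((hec.sub continuous_const).sub hXc)
    · exact hint _ ((hYc.pow 2).div_const 2)
  have hgoal : ‖(∫ x : UnitAddCircle, Complex.exp (X x)) - 1 -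
      (al γ) ^ 2 / 4 * ∑ i, ∑ j, a i * a j * ((w i * (starRingEnd ℂ) (w j)).re : ℂ)‖ ≤
      ((2 * (K * D)) ^ 3 * Real.exp (2 * (K * D)) + 2 * (K * D) ^ 2) * r ^ 3 := by
    rw [hmain]
    have h1 : ∀ x, ‖(Complex.exp (X x) - 1 - X x - X x ^ 2 / 2) + (X x ^ 2 - Y x ^ 2) / 2‖ ≤
        ((2 * (K * D)) ^ 3 * Real.exp (2 * (K * D)) + 2 * (K * D) ^ 2) * r ^ 3 := by
      intro x
      have h2 := exp_two (X x)
      have h3 := hXb x
      have h4 := hYb x
      have h5 := hXYb x
      have hKD : 0 ≤ K * D := by positivity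
      have h6 : ‖X x‖ ^ 3 * Real.exp ‖X x‖ ≤ (2 * (K * D * r)) ^ 3 * Real.exp (2 * (K * D)) := by
        have h7 : ‖X x‖ ≤ 2 * (K * D) := by
          have : K * D * r ≤ K * D * 1 := by gcongr
          linarith
        gcongr
      have h8 : ‖(X x ^ 2 - Y x ^ 2) / 2‖ ≤ (K * D * r ^ 2) * (3 * (K * D * r)) / 2 := by
        have h9 : (X x ^ 2 - Y x ^ 2) / 2 = (X x - Y x) * (X x + Y x) / 2 := by ring
        rw [h9, norm_div, norm_mul]
        have h10 : ‖X x + Y x‖ ≤ 3 * (K * D * r) := by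
          refine (norm_add_le _ _).trans ?_
          linarith
        have h11 : ‖(2 : ℂ)‖ = 2 := by norm_num
        rw [h11]
        gcongr
      refine (norm_add_le _ _).trans ?_
      have h12 : (K * D * r ^ 2) * (3 * (K * D * r)) / 2 ≤ 2 * (K * D) ^ 2 * r ^ 3 := by
        have : 0 ≤ (K * D) ^ 2 * r ^ 3 := by positivity
        nlinarith
      have h13 : (2 * (K * D * r)) ^ 3 * Real.exp (2 * (K * D)) =
          (2 * (K * D)) ^ 3 * Real.exp (2 * (K * D)) * r ^ 3 := by ring
      rw [h13] at h6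
      linarith
    have h2 := norm_integral_le_of_norm_le_const (μ := (volume : Measure UnitAddCircle))
      (Filter.Eventually.of_forall h1)
    rwa [probReal_univ, mul_one] at h2
  refine hgoal.trans ?_
  have hr3 : r ^ 3 = Real.exp 24 * (l : ℝ) ^ (-(3 / 2) : ℝ) := by
    rw [hr, div_pow, ← Real.exp_nat_mul, Real.rpow_neg hl0.le, div_eq_mul_inv]
    congr 1
    · norm_num
    · congr 1
      rw [Real.sqrt_eq_rpow, ← Real.rpow_natCast, ← Real.rpow_mul hl0.le]
      norm_num
  rw [hr3]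
  have : 0 ≤ (l : ℝ) ^ (-(3 / 2) : ℝ) := Real.rpow_nonneg hl0.le _
  nlinarith

end PM
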