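import Pool.Agent.H24.PM.CNL
import Pool.Agent.H24.PM.CND

/-! lower bound reduction -/

namespace PM
open MeasureTheory Complex Filter Topology

namespace LREDaux

lemma mem_PrS {u v : ℝ} {l : ℕ} : l ∈ PrS u v ↔ l.Prime ∧ u < l ∧ (l : ℝ) ≤ v := by
  unfold PrS
  rw [Finset.mem_filter, Finset.mem_range]
  constructor
  · rintro ⟨h1, h2, h3⟩
    refine ⟨h2, h3, ?_⟩
    have h4 : l ≤ ⌊v⌋₊ := by omega
    exact (Nat.le_floor_iff' h2.ne_zero).mp h4
  · rintro ⟨h1, h2, h3⟩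
    refine ⟨?_, h1, h2⟩
    have := Nat.le_floor h3
    omega

lemma PrS_union {u y v : ℝ} (h1 : u ≤ y) (h2 : y ≤ v) : PrS u v = PrS u y ∪ PrS y v := by
  ext l
  rw [Finset.mem_union, mem_PrS, mem_PrS, mem_PrS]
  constructor
  · rintro ⟨a, b, c⟩
    rcases le_or_gt (l : ℝ) y with h | h
    · exact Or.inl ⟨a, b, h⟩
    · exact Or.inr ⟨a, h, c⟩
  · rintro (⟨a, b, c⟩ | ⟨a, b, c⟩)
    · exact ⟨a, b, c.trans h2⟩
    · exact ⟨a, lt_of_le_of_lt h1 b, c⟩

lemma PrS_disj {u y v : ℝ} : Disjoint (PrS u y) (PrS y v) := by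
  rw [Finset.disjoint_left]
  intro l h1 h2
  rw [mem_PrS] at h1 h2
  linarith [h1.2.2, h2.2.1]

lemma pow_le_list {y : ℝ} (hy : 0 ≤ y) (L : List ℕ) (h : ∀ l ∈ L, y ≤ (l : ℝ)) :
    y ^ L.length ≤ ((L.prod : ℕ) : ℝ) := by
  induction L with
  | nil => simp
  | cons a L ih =>
    rw [List.length_cons, List.prod_cons, pow_succ, Nat.cast_mul, mul_comm]
    have h1 := h a (by simp)
    have h2 := ih fun l hl => h l (by simp [hl])
    exact mul_le_mul h1 h2 (by positivity) (by positivity)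

lemma len_le {y : ℝ} (hy : 2 ≤ y) {N K r : ℕ} (hK : y ^ K = N) (hr : r ≠ 0) (hrN : r ≤ N)
    (h : ∀ l ∈ r.primeFactors, y < (l : ℝ)) : r.primeFactorsList.length ≤ K := by
  have h1 : y ^ r.primeFactorsList.length ≤ (r : ℝ) := by
    have := pow_le_list (by linarith) r.primeFactorsList fun l hl => (h l (by
      rw [Nat.mem_primeFactors_iff_mem_primeFactorsList]; exact hl)).le
    rwa [Nat.prod_primeFactorsList hr] at this
  have h2 : y ^ r.primeFactorsList.length ≤ y ^ K := by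
    rw [hK]
    exact h1.trans (by exact_mod_cast hrN)
  exact (pow_le_pow_iff_right₀ (by linarith)).1 h2

lemma b_ge (γ : ℝ) (K r : ℕ) (hr : r ≠ 0) (hK : r.primeFactorsList.length ≤ K) :
    ((2 : ℝ) ^ K) ^ (-(2 * |γ|)) / r ≤ b γ r ^ 2 := by
  have hd1 : 1 ≤ r.divisors.card := Finset.card_pos.2 ⟨1, Nat.one_mem_divisors.2 hr⟩
  have hd1' : (1 : ℝ) ≤ r.divisors.card := by exact_mod_cast hd1
  have hd2 : r.divisors.card ≤ 2 ^ K :=
    (cnl_card_div r hr).trans (Nat.pow_le_pow_right (by norm_num) hK)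
  have hd2' : (r.divisors.card : ℝ) ≤ (2 : ℝ) ^ K := by exact_mod_cast hd2
  have hr' : (0 : ℝ) < r := by exact_mod_cast Nat.pos_of_ne_zero hr
  have e1 : b γ r ^ 2 = ((r.divisors.card : ℝ)) ^ (2 * γ) / r := by
    unfold b
    rw [div_pow, Real.sq_sqrt hr'.le, ← Real.rpow_natCast (((r.divisors.card : ℝ)) ^ γ) 2,
      ← Real.rpow_mul (by linarith)]
    congr 2
    push_cast
    ring
  rw [e1]
  gcongr
  calc ((2 : ℝ) ^ K) ^ (-(2 * |γ|)) ≤ ((r.divisors.card : ℝ)) ^ (-(2 * |γ|)) :=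
        Real.rpow_le_rpow_of_nonpos (by linarith) hd2' (by
          have := abs_nonneg γ
          linarith)
    _ ≤ _ := Real.rpow_le_rpow_of_exponent_le hd1' (by
        have := neg_abs_le γ
        linarith)

/-- the integral is a sum over the integer parts -/
lemma int_le (γ : ℝ) (A : Finset ℕ) (ω : Om) (Z : ℝ) :
    ∫ z in Set.Ioc (1 : ℝ) Z, ‖DA γ A z ω‖ ^ 2 / z ≤
      ∑ k ∈ Finset.Icc 1 ⌊Z⌋₊, ‖DA γ A k ω‖ ^ 2 / k := by
  set g : ℕ → ℝ → ℝ := fun k => Set.indicator (Set.Ico (k : ℝ) (k + 1)) (fun _ => ‖DA γ A k ω‖ ^ 2 / k)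
    with hg
  have hgi : ∀ k, Integrable (g k) (volume.restrict (Set.Ioc (1 : ℝ) Z)) := by
    intro k
    apply IntegrableOn.integrable_indicator _ measurableSet_Ico
    exact integrableOn_const (ne_of_lt (lt_of_le_of_lt (Measure.restrict_apply_le _ _) (by simp)))
      (by simp)
  have h1 : ∫ z in Set.Ioc (1 : ℝ) Z, ‖DA γ A z ω‖ ^ 2 / z ≤
      ∫ z in Set.Ioc (1 : ℝ) Z, ∑ k ∈ Finset.Icc 1 ⌊Z⌋₊, g k z := by
    apply integral_mono_of_nonneg
    · filter_upwards [ae_restrict_mem measurableSet_Ioc] with z hz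
      have : (0 : ℝ) < z := by linarith [hz.1]
      positivity
    · exact integrable_finsetSum _ fun k _ => hgi k
    · filter_upwards [ae_restrict_mem measurableSet_Ioc] with z hz
      have hz0 : (0 : ℝ) < z := by linarith [hz.1]
      have hk : ⌊z⌋₊ ∈ Finset.Icc 1 ⌊Z⌋₊ := by
        rw [Finset.mem_Icc]
        exact ⟨Nat.le_floor (by push_cast; exact hz.1.le), Nat.floor_le_floor hz.2⟩
      have hge : g ⌊z⌋₊ z = ‖DA γ A z ω‖ ^ 2 / ⌊z⌋₊ := by
        rw [hg]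
        simp only
        rw [Set.indicator_of_mem (show z ∈ Set.Ico (⌊z⌋₊ : ℝ) (⌊z⌋₊ + 1) from
          ⟨Nat.floor_le hz0.le, Nat.lt_floor_add_one z⟩)]
        have : DA γ A (⌊z⌋₊ : ℝ) ω = DA γ A z ω := by
          unfold DA
          rw [Nat.floor_natCast]
        rw [this]
      have hnn : ∀ k ∈ Finset.Icc 1 ⌊Z⌋₊, 0 ≤ g k z := by
        intro k _
        apply Set.indicator_nonneg
        intro _ _
        positivity
      refine le_trans ?_ (Finset.single_le_sum hnn hk)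
      rw [hge]
      have h2 : (0 : ℝ) < (⌊z⌋₊ : ℝ) := by
        have := (Finset.mem_Icc.1 hk).1
        exact_mod_cast this
      gcongr
      exact Nat.floor_le hz0.le
  refine h1.trans ?_
  rw [integral_finsetSum _ fun k _ => hgi k]
  apply Finset.sum_le_sum
  intro k hk
  rw [hg]
  simp only
  rw [integral_indicator measurableSet_Ico, Measure.restrict_restrict measurableSet_Ico,
    setIntegral_const, smul_eq_mul]
  have h3 : volume.real (Set.Ico (k : ℝ) (k + 1) ∩ Set.Ioc (1 : ℝ) Z) ≤ 1 := by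
    have h4 : volume.real (Set.Ico (k : ℝ) (k + 1) ∩ Set.Ioc (1 : ℝ) Z) ≤
        volume.real (Set.Ico (k : ℝ) (k + 1)) := by
      exact measureReal_mono Set.inter_subset_left (by
        rw [Real.volume_Ico]; exact ENNReal.ofReal_ne_top)
    refine h4.trans ?_
    simp
  have h5 : 0 ≤ ‖DA γ A k ω‖ ^ 2 / k := by positivity
  nlinarith

/-- one integer part -/
lemma fiber_ge {Ks : ℕ} {cs : ℝ} (hcs : 0 < cs)
    (hV : ∀ (x y H : ℝ), 0 ≤ x → 2 ≤ y → y ^ Ks ≤ H →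
      cs * H / Real.log y ≤ (((Finset.range (⌊x + H⌋₊ + 1)).filter
        (fun n : ℕ => x < n ∧ ∀ l ∈ n.primeFactors, y < (l : ℝ))).card : ℝ))
    (γ : ℝ) (K N : ℕ) (y : ℝ) (hy : 2 ≤ y) (hyK : y ^ K = N) (hN : 1 ≤ N) (k : ℕ) (hk : 1 ≤ k)
    (hH : y ^ Ks ≤ (N : ℝ) / k - (N : ℝ) / (k + 1)) :
    (((2 : ℝ) ^ K) ^ (-(2 * |γ|)) * cs / 2) / (k * Real.log y) ≤
      ∑ r ∈ ((Finset.Icc 1 N).filter (fun r => r.primeFactors ⊆ PrS y N)).filter
        (fun r : ℕ => ⌊(N : ℝ) / r⌋₊ = k), b γ r ^ 2 := by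
  have hN' : (0 : ℝ) < N := by exact_mod_cast hN
  have hk' : (1 : ℝ) ≤ k := by exact_mod_cast hk
  have hk0 : (0 : ℝ) < k := by linarith
  have hlog : 0 < Real.log y := Real.log_pos (by linarith)
  set cK : ℝ := ((2 : ℝ) ^ K) ^ (-(2 * |γ|)) with hcK
  have hcKp : 0 < cK := by positivity
  set T := (Finset.range (⌊(N : ℝ) / (k + 1) + ((N : ℝ) / k - (N : ℝ) / (k + 1))⌋₊ + 1)).filter
    (fun n : ℕ => (N : ℝ) / (k + 1) < n ∧ ∀ l ∈ n.primeFactors, y < (l : ℝ)) with hT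
  have h1 := hV ((N : ℝ) / (k + 1)) y _ (by positivity) hy hH
  rw [← hT] at h1
  have hTmem : ∀ r ∈ T, r ≠ 0 ∧ (r : ℝ) ≤ (N : ℝ) / k ∧ (N : ℝ) / (k + 1) < r ∧ r ≤ N ∧
      ∀ l ∈ r.primeFactors, y < (l : ℝ) := by
    intro r hr
    obtain ⟨a1, a2, a3⟩ := Finset.mem_filter.1 hr
    rw [add_sub_cancel] at a1
    have a4 : (0 : ℝ) < r := lt_of_le_of_lt (by positivity) a2
    have a5 : r ≠ 0 := by
      rintro rfl
      simp at a4
    have a6 : (r : ℝ) ≤ (N : ℝ) / k := by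
      have : r ≤ ⌊(N : ℝ) / k⌋₊ := by
        have := Finset.mem_range.1 a1
        omega
      exact (Nat.le_floor_iff' a5).1 this
    refine ⟨a5, a6, a2, ?_, a3⟩
    have : (r : ℝ) ≤ N := a6.trans (div_le_self hN'.le hk')
    exact_mod_cast this
  have hsub : T ⊆ ((Finset.Icc 1 N).filter (fun r => r.primeFactors ⊆ PrS y N)).filter
        (fun r : ℕ => ⌊(N : ℝ) / r⌋₊ = k) := by
    intro r hr
    obtain ⟨a1, a2, a3, a4, a5⟩ := hTmem r hr
    have hr0 : (0 : ℝ) < r := by exact_mod_cast Nat.pos_of_ne_zero a1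
    refine Finset.mem_filter.2 ⟨Finset.mem_filter.2 ⟨Finset.mem_Icc.2 ⟨by omega, a4⟩, ?_⟩, ?_⟩
    · intro l hl
      rw [mem_PrS]
      refine ⟨Nat.prime_of_mem_primeFactors hl, a5 l hl, ?_⟩
      have := Nat.le_of_mem_primeFactors hl
      exact_mod_cast this.trans a4
    · rw [Nat.floor_eq_iff (by positivity)]
      constructor
      · rw [le_div_iff₀ hr0]
        rw [le_div_iff₀ hk0] at a2
        linarith
      · rw [div_lt_iff₀ hr0]
        rw [div_lt_iff₀ (by linarith)] at a3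
        linarith
  have h2 : ∑ r ∈ T, b γ r ^ 2 ≤ ∑ r ∈ ((Finset.Icc 1 N).filter
      (fun r => r.primeFactors ⊆ PrS y N)).filter (fun r : ℕ => ⌊(N : ℝ) / r⌋₊ = k), b γ r ^ 2 :=
    Finset.sum_le_sum_of_subset_of_nonneg hsub fun _ _ _ => sq_nonneg _
  refine le_trans ?_ h2
  have h3 : ∀ r ∈ T, cK * k / N ≤ b γ r ^ 2 := by
    intro r hr
    obtain ⟨a1, a2, a3, a4, a5⟩ := hTmem r hr
    have hr0 : (0 : ℝ) < r := by exact_mod_cast Nat.pos_of_ne_zero a1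
    refine le_trans ?_ (b_ge γ K r a1 (len_le hy hyK a1 a4 a5))
    rw [← hcK, div_le_div_iff₀ hN' hr0]
    rw [le_div_iff₀ hk0] at a2
    nlinarith
  have h4 : (T.card : ℝ) * (cK * k / N) ≤ ∑ r ∈ T, b γ r ^ 2 := by
    have := Finset.card_nsmul_le_sum T _ _ h3
    rwa [nsmul_eq_mul] at this
  refine le_trans ?_ h4
  have h5 : cs * ((N : ℝ) / k - (N : ℝ) / (k + 1)) / Real.log y * (cK * k / N) ≤
      (T.card : ℝ) * (cK * k / N) := by gcongr
  refine le_trans ?_ h5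
  have h6 : cs * ((N : ℝ) / k - (N : ℝ) / (k + 1)) / Real.log y * (cK * k / N) =
      cK * cs / ((k + 1) * Real.log y) := by
    field_simp
    ring
  rw [h6, div_div, div_le_div_iff₀ (by positivity) (by positivity)]
  have : (0 : ℝ) < cK * cs := by positivity
  have h7 : (k + 1 : ℝ) * Real.log y ≤ 2 * (k * Real.log y) := by nlinarith
  nlinarith

end LREDaux

open LREDaux in
theorem LRED (hS : S_SPLIT) (hC : S_CNL) (hV : S_SIEVE) (hX : S_CHI) : S_LRED := by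
  intro γ p0 _ p hp hp1
  obtain ⟨Ks, cs, hcs, hV⟩ := hV
  refine ⟨6 * Ks + 1, by omega, fun K hK => ?_⟩
  obtain ⟨C, hCpos, hC⟩ := hC K p hp (by linarith)
  set cK : ℝ := ((2 : ℝ) ^ K) ^ (-(2 * |γ|)) with hcK
  have hcKp : 0 < cK := by positivity
  set c1 : ℝ := cK * cs / 2 with hc1
  have hc1p : 0 < c1 := by positivity
  refine ⟨C * c1 ^ (p / 2), max 64 ((p0 + 2) ^ K), by positivity,
    le_trans (by norm_num) (le_max_left _ _), fun N hN => ?_⟩
  have hN64 : 64 ≤ N := (le_max_left _ _).trans hN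
  have hNK : (p0 + 2) ^ K ≤ N := (le_max_right _ _).trans hN
  have hN64' : (64 : ℝ) ≤ N := by exact_mod_cast hN64
  have hN0 : (0 : ℝ) < N := by linarith
  have hK0 : K ≠ 0 := by omega
  have hK0' : (0 : ℝ) < K := by exact_mod_cast Nat.pos_of_ne_zero hK0
  set y : ℝ := (N : ℝ) ^ (1 / (K : ℝ)) with hy
  have hyp : 0 < y := by positivity
  have hyK : y ^ K = N := by
    rw [hy, one_div]
    exact Real.rpow_inv_natCast_pow hN0.le hK0
  have hy2 : (p0 : ℝ) + 2 ≤ y := by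
    have h1 : ((p0 : ℝ) + 2) ^ K ≤ y ^ K := by
      rw [hyK]
      exact_mod_cast hNK
    exact (pow_le_pow_iff_left₀ (by positivity) hyp.le hK0).1 h1
  have hp0 : (0 : ℝ) ≤ p0 := by positivity
  have hy2' : 2 ≤ y := by linarith
  have hyN : y ≤ N := by
    calc y = y ^ 1 := (pow_one y).symm
      _ ≤ y ^ K := pow_le_pow_right₀ (by linarith) (by omega)
      _ = N := hyK
  have hlog : 0 < Real.log y := Real.log_pos (by linarith)
  set A := PrS p0 y with hA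
  set R := (Finset.Icc 1 N).filter (fun r => r.primeFactors ⊆ PrS y N) with hR
  have hRmem : ∀ r ∈ R, r ≠ 0 ∧ r.primeFactorsList.length ≤ K ∧
      ∀ l ∈ r.primeFactors, l ∉ (A : Set ℕ) := by
    intro r hr
    obtain ⟨a1, a2⟩ := Finset.mem_filter.1 hr
    obtain ⟨a3, a4⟩ := Finset.mem_Icc.1 a1
    have a5 : ∀ l ∈ r.primeFactors, y < (l : ℝ) := fun l hl => (mem_PrS.1 (a2 hl)).2.1
    refine ⟨by omega, len_le hy2' hyK (by omega) a4 a5, fun l hl hlA => ?_⟩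
    have a6 : l ∈ PrS p0 y := hlA
    have := (mem_PrS.1 a6).2.2
    linarith [a5 l hl]
  have hsplit : ∀ ω : Om, DA γ (PrS p0 N) N ω =
      ∑ r ∈ R, (b γ r : ℂ) * chi r ω * DA γ A ((N : ℝ) / r) ω := by
    intro ω
    have h1 := hS γ A (PrS y N) (fun l hl => (mem_PrS.1 hl).1) (fun l hl => (mem_PrS.1 hl).1)
      PrS_disj N ω hN0.le
    rw [Nat.floor_natCast] at h1
    rw [PrS_union (by linarith) hyN]
    exact h1
  have hDAc : ∀ z : ℝ, Continuous (DA γ A z) := by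
    intro z
    unfold DA
    exact continuous_finsetSum _ fun n _ => continuous_const.mul (hX.2.2.1 n)
  have hDAd : ∀ z : ℝ, DepOn (A : Set ℕ) (DA γ A z) := by
    intro z ω ω' h
    unfold DA
    apply Finset.sum_congr rfl
    intro n hn
    congr 1
    unfold chi
    apply Finset.prod_congr rfl
    intro l hl
    rw [h l ((Finset.mem_filter.1 hn).2 hl)]
  have hmain := hC (A : Set ℕ) R (fun r => DA γ A ((N : ℝ) / r)) (b γ) hRmem
    fun r _ => ⟨hDAc _, hDAd _⟩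
  have hrhs : ∫ ω : Om, ‖∑ r ∈ R, (b γ r : ℂ) * chi r ω * DA γ A ((N : ℝ) / r) ω‖ ^ p ∂P =
      ∫ ω : Om, ‖DA γ (PrS p0 N) N ω‖ ^ p ∂P := by
    apply integral_congr_ae
    filter_upwards with ω
    rw [hsplit ω]
  rw [hrhs] at hmain
  refine le_trans ?_ hmain
  rw [mul_assoc]
  refine mul_le_mul_of_nonneg_left ?_ hCpos.le
  rw [← integral_const_mul]
  -- the pointwise bound
  have hZ1 : (1 : ℝ) ≤ (N : ℝ) ^ (1 / 3 : ℝ) := Real.one_le_rpow (by linarith) (by norm_num)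
  set t : ℝ := (N : ℝ) ^ (1 / 6 : ℝ) with ht
  have ht6 : t ^ 6 = N := by
    rw [ht, ← Real.rpow_natCast, ← Real.rpow_mul hN0.le]
    norm_num
  have ht0 : 0 < t := by positivity
  have ht2 : 2 ≤ t := by
    have : (2 : ℝ) ^ 6 ≤ t ^ 6 := by rw [ht6]; linarith
    exact (pow_le_pow_iff_left₀ (by norm_num) ht0.le (by norm_num)).1 this
  have ht3 : (N : ℝ) ^ (1 / 3 : ℝ) = t ^ 2 := by
    rw [ht, ← Real.rpow_natCast, ← Real.rpow_mul hN0.le]
    norm_num
  have hyt : y ^ Ks ≤ t := by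
    rw [hy, ht, ← Real.rpow_natCast, ← Real.rpow_mul hN0.le]
    apply Real.rpow_le_rpow_of_exponent_le (by linarith)
    have h1 : (6 * Ks + 1 : ℝ) ≤ K := by exact_mod_cast hK
    rw [one_div, inv_mul_le_iff₀ hK0']
    linarith
  have hpt : ∀ ω : Om, c1 * ((∫ z in Set.Ioc (1 : ℝ) ((N : ℝ) ^ (1 / 3 : ℝ)), ‖DA γ A z ω‖ ^ 2 / z) /
      Real.log y) ≤ ∑ r ∈ R, b γ r ^ 2 * ‖DA γ A ((N : ℝ) / r) ω‖ ^ 2 := by
    intro ω
    have h1 := int_le γ A ω ((N : ℝ) ^ (1 / 3 : ℝ))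
    have h2 : ∑ k ∈ Finset.Icc 1 ⌊(N : ℝ) ^ (1 / 3 : ℝ)⌋₊,
        ∑ r ∈ R.filter (fun r : ℕ => ⌊(N : ℝ) / r⌋₊ = k), b γ r ^ 2 * ‖DA γ A ((N : ℝ) / r) ω‖ ^ 2 ≤
        ∑ r ∈ R, b γ r ^ 2 * ‖DA γ A ((N : ℝ) / r) ω‖ ^ 2 := by
      apply Finset.sum_fiberwise_le_sum_of_sum_fiber_nonneg
      intro k _
      exact Finset.sum_nonneg fun r _ => by positivity
    refine le_trans ?_ h2
    have h3 : ∀ k ∈ Finset.Icc 1 ⌊(N : ℝ) ^ (1 / 3 : ℝ)⌋₊,
        c1 / Real.log y * (‖DA γ A k ω‖ ^ 2 / k) ≤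
        ∑ r ∈ R.filter (fun r : ℕ => ⌊(N : ℝ) / r⌋₊ = k), b γ r ^ 2 * ‖DA γ A ((N : ℝ) / r) ω‖ ^ 2 := by
      intro k hk
      obtain ⟨hk1, hk2⟩ := Finset.mem_Icc.1 hk
      have hk1' : (1 : ℝ) ≤ k := by exact_mod_cast hk1
      have hk2' : (k : ℝ) ≤ t ^ 2 := by
        rw [← ht3]
        exact (Nat.le_floor_iff' (by omega)).1 hk2
      have hH : y ^ Ks ≤ (N : ℝ) / k - (N : ℝ) / (k + 1) := by
        refine hyt.trans ?_
        have e1 : (N : ℝ) / k - (N : ℝ) / (k + 1) = N / (k * (k + 1)) := by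
          field_simp
          ring
        rw [e1, le_div_iff₀ (by positivity), ← ht6]
        have e2 : (k : ℝ) * (k + 1) ≤ t ^ 2 * (2 * t ^ 2) := by
          apply mul_le_mul hk2' (by nlinarith) (by positivity) (by positivity)
        have e3 : t * ((k : ℝ) * (k + 1)) ≤ t * (t ^ 2 * (2 * t ^ 2)) := by gcongr
        have e4 : t * (t ^ 2 * (2 * t ^ 2)) ≤ t ^ 6 := by
          have : 0 < t ^ 5 := by positivity
          nlinarith
        linarith
      have h4 := fiber_ge hcs hV γ K N y hy2' hyK (by omega) k hk1 hH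
      rw [← hcK, ← hc1, ← hR] at h4
      have h5 : ∑ r ∈ R.filter (fun r : ℕ => ⌊(N : ℝ) / r⌋₊ = k),
          b γ r ^ 2 * ‖DA γ A ((N : ℝ) / r) ω‖ ^ 2 =
          (∑ r ∈ R.filter (fun r : ℕ => ⌊(N : ℝ) / r⌋₊ = k), b γ r ^ 2) * ‖DA γ A k ω‖ ^ 2 := by
        rw [Finset.sum_mul]
        apply Finset.sum_congr rfl
        intro r hr
        have h6 : DA γ A ((N : ℝ) / r) ω = DA γ A k ω := by
          unfold DA
          rw [(Finset.mem_filter.1 hr).2, Nat.floor_natCast]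
        rw [h6]
      rw [h5]
      calc c1 / Real.log y * (‖DA γ A k ω‖ ^ 2 / k) =
            c1 / (k * Real.log y) * ‖DA γ A k ω‖ ^ 2 := by
            field_simp
        _ ≤ _ := by gcongr
    calc c1 * ((∫ z in Set.Ioc (1 : ℝ) ((N : ℝ) ^ (1 / 3 : ℝ)), ‖DA γ A z ω‖ ^ 2 / z) /
          Real.log y) = c1 / Real.log y *
          (∫ z in Set.Ioc (1 : ℝ) ((N : ℝ) ^ (1 / 3 : ℝ)), ‖DA γ A z ω‖ ^ 2 / z) := by ring
      _ ≤ c1 / Real.log y * ∑ k ∈ Finset.Icc 1 ⌊(N : ℝ) ^ (1 / 3 : ℝ)⌋₊,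
          ‖DA γ A k ω‖ ^ 2 / k := by gcongr
      _ = ∑ k ∈ Finset.Icc 1 ⌊(N : ℝ) ^ (1 / 3 : ℝ)⌋₊,
          c1 / Real.log y * (‖DA γ A k ω‖ ^ 2 / k) := by rw [Finset.mul_sum]
      _ ≤ _ := Finset.sum_le_sum h3
  have hI : ∀ ω : Om, 0 ≤ (∫ z in Set.Ioc (1 : ℝ) ((N : ℝ) ^ (1 / 3 : ℝ)), ‖DA γ A z ω‖ ^ 2 / z) /
      Real.log y := by
    intro ω
    apply div_nonneg _ hlog.le
    apply setIntegral_nonneg measurableSet_Ioc
    intro z hz
    have : (0 : ℝ) < z := by linarith [hz.1]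
    positivity
  apply integral_mono_of_nonneg
  · filter_upwards with ω
    have := hI ω
    positivity
  · apply cnd_int_cont
    apply Continuous.rpow_const
    · exact continuous_finsetSum _ fun r _ => continuous_const.mul ((hDAc _).norm.pow 2)
    · intro ω
      right
      linarith
  · filter_upwards with ω
    rw [← Real.mul_rpow hc1p.le (hI ω)]
    exact Real.rpow_le_rpow (mul_nonneg hc1p.le (hI ω)) (hpt ω) (by linarith)

end PM
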