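import Pool.Agent.H24.PM.H5Tools

namespace PM
open MeasureTheory Complex

theorem h5_PA {p0 : ℕ} {u v : ℝ} (hu : (p0 : ℝ) ≤ u) : PA p0 (PrS u v) := by
  intro l hl
  unfold PrS at hl
  rw [Finset.mem_filter] at hl
  refine ⟨hl.2.1, ?_⟩
  have : (p0 : ℝ) < l := lt_of_le_of_lt hu hl.2.2
  exact_mod_cast this

theorem h5_Ln {u v σ : ℝ} (hu : 0 ≤ u) (hv : 0 ≤ v) (h : |σ| * Real.log v ≤ 8) :
    Ln (PrS u v) σ := by
  intro l hl
  rw [h5_mem_PrS hv] at hl
  refine (mul_le_mul_of_nonneg_left (Real.log_le_log ?_ hl.2.2) (abs_nonneg σ)).trans h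
  exact lt_of_le_of_lt hu hl.2.1

theorem h5_two_le {γ : ℝ} {p0 : ℕ} (h : Good γ p0) : (2 : ℝ) ≤ p0 := by
  have h1 := h.1
  have h2 : (1 : ℝ) ≤ Real.exp 16 := Real.one_le_exp (by norm_num)
  linarith

theorem M1 (hMOM : S_MOM) (hMOML : S_MOML) (hNTA : S_NTA) (hGC : S_GC) : S_M1 := by
  intro γ p0 hg M
  obtain ⟨C1, hC1, hU⟩ := hMOM γ p0 hg 1 M
  obtain ⟨c1, hc1, hL⟩ := hMOML γ p0 hg 1 M
  obtain ⟨C2, hC2, hN⟩ := hNTA
  set E : ℝ := (al γ) ^ 2 / 4 * M ^ 2 * C2 with hE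
  refine ⟨c1 * Real.exp (-E), C1 * Real.exp E, by positivity, by positivity, ?_⟩
  intro u v σ t a hu huv hσ ha haM
  have h2 := h5_two_le hg
  have hu2 : 2 ≤ u := h2.trans hu
  have hv2 : 2 ≤ v := hu2.trans huv
  have hlu : 0 < Real.log u := Real.log_pos (by linarith)
  have hlv : 0 < Real.log v := Real.log_pos (by linarith)
  have hR : 0 < Real.log v / Real.log u := by positivity
  have hPA := h5_PA (p0 := p0) (u := u) (v := v) hu
  have hLn := h5_Ln (u := u) (v := v) (σ := σ) (by linarith) (by linarith) hσ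
  obtain ⟨_, hexp, _⟩ := hGC γ p0 hg (PrS u v) hPA σ hLn
  have hNT := hN u v (σ + σ) hu2 huv (by
    rw [← two_mul, abs_mul, abs_of_pos (by norm_num : (0 : ℝ) < 2)]; linarith)
  set c0 := CS (PrS u v) (σ + σ) 0 with hc0
  set R := Real.log v / Real.log u with hRdef
  have hint : ∫ ω : Om, ‖F γ (PrS u v) σ t ω‖ ^ a ∂P =
      ∫ ω : Om, Real.exp (a * G γ (PrS u v) σ t ω) ∂P := by
    refine integral_congr_ae (Filter.Eventually.of_forall fun ω => ?_)
    simp only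
    rw [hexp t ω, ← Real.exp_mul, mul_comm]
  have hpow : ∀ s : ℝ, |c0 - Real.log R| ≤ C2 → 
      R ^ ((al γ) ^ 2 * a ^ 2 / 4) * Real.exp (-E) ≤ Real.exp ((al γ) ^ 2 / 4 * (a * a * c0)) ∧
      Real.exp ((al γ) ^ 2 / 4 * (a * a * c0)) ≤ R ^ ((al γ) ^ 2 * a ^ 2 / 4) * Real.exp E := by
    intro _ h
    rw [Real.rpow_def_of_pos hR, ← Real.exp_add, ← Real.exp_add, Real.exp_le_exp, Real.exp_le_exp]
    have hk : 0 ≤ (al γ) ^ 2 / 4 * a ^ 2 := by positivity
    have hk2 : (al γ) ^ 2 / 4 * a ^ 2 * C2 ≤ E := by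
      rw [hE]
      refine mul_le_mul_of_nonneg_right ?_ hC2.le
      refine mul_le_mul_of_nonneg_left ?_ (by positivity)
      exact pow_le_pow_left₀ ha haM 2
    rw [abs_le] at h
    have e1 := mul_le_mul_of_nonneg_left h.1 hk
    have e2 := mul_le_mul_of_nonneg_left h.2 hk
    constructor <;> nlinarith
  obtain ⟨hp1, hp2⟩ := hpow 0 hNT
  constructor
  · have h := hL (fun _ => a) (fun _ => PrS u v) (fun _ => σ) (fun _ => t)
      (fun _ => by rw [abs_of_nonneg ha]; exact haM) (fun _ => hPA) (fun _ => hLn)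
    simp only [Finset.univ_unique, Finset.sum_singleton, Finset.inter_self, sub_self] at h
    rw [hint]
    refine le_trans ?_ h
    rw [mul_assoc]
    refine mul_le_mul_of_nonneg_left ?_ hc1.le
    rw [mul_comm]
    exact hp1
  · have h := hU (fun _ => (a : ℂ)) (fun _ => PrS u v) (fun _ => σ) (fun _ => t)
      (fun _ => by rw [Complex.norm_real, Real.norm_eq_abs, abs_of_nonneg ha]; exact haM)
      (fun _ => hPA) (fun _ => hLn)
    simp only [Finset.univ_unique, Finset.sum_singleton, Finset.inter_self, sub_self] at h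
    rw [hint]
    have e1 : ∫ ω : Om, Complex.exp ((a : ℂ) * (G γ (PrS u v) σ t ω : ℂ)) ∂P =
        ((∫ ω : Om, Real.exp (a * G γ (PrS u v) σ t ω) ∂P : ℝ) : ℂ) := by
      rw [← integral_complex_ofReal]
      refine integral_congr_ae (Filter.Eventually.of_forall fun ω => ?_)
      simp only
      push_cast
      rfl
    rw [e1, Complex.norm_real, Real.norm_eq_abs] at h
    have e2 : (((al γ : ℂ)) ^ 2 / 4 * ((a : ℂ) * (a : ℂ) * (c0 : ℂ))).re =
        (al γ) ^ 2 / 4 * (a * a * c0) := by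
      have : (((al γ : ℂ)) ^ 2 / 4 * ((a : ℂ) * (a : ℂ) * (c0 : ℂ))) =
        (((al γ) ^ 2 / 4 * (a * a * c0) : ℝ) : ℂ) := by push_cast; ring
      rw [this, Complex.ofReal_re]
    rw [e2] at h
    refine (le_abs_self _).trans (h.trans ?_)
    rw [mul_assoc C1 (Real.exp E)]
    refine mul_le_mul_of_nonneg_left ?_ hC1.le
    rw [mul_comm (Real.exp E)]
    exact hp2

end PM
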