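import Pool.Agent.H31.PM.Tools

set_option autoImplicit false

namespace PM
open MeasureTheory Complex PM.T31

private theorem far_sum {g : ℝ → ℝ} (hg : Continuous g) (h0 : ∀ t, 0 ≤ g t) {σ : ℝ} (hσ : σ ≠ 0)
    (T : ℕ) : ∫ t in (1:ℝ)..(T + 1), g t / (σ ^ 2 + t ^ 2) ≤
      ∑ j ∈ Finset.range T, (((j:ℝ) + 1) ^ 2)⁻¹ * ∫ t in Set.Icc ((j:ℝ) + 1) ((j:ℝ) + 2), g t := by
  have hd : ∀ t : ℝ, 0 < σ ^ 2 + t ^ 2 := fun t => by positivity
  have hc : Continuous (fun t => g t / (σ ^ 2 + t ^ 2)) :=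
    hg.div (by fun_prop) (fun t => (hd t).ne')
  induction T with
  | zero => simp
  | succ T ih =>
    rw [Finset.sum_range_succ]
    have h1 := intervalIntegral.integral_add_adjacent_intervals
      (hc.intervalIntegrable (μ := volume) 1 ((T:ℝ) + 1))
      (hc.intervalIntegrable (μ := volume) ((T:ℝ) + 1) ((T + 1 : ℕ) + 1))
    rw [← h1]
    have h2 : ∫ t in ((T:ℝ) + 1)..((T + 1 : ℕ) + 1), g t / (σ ^ 2 + t ^ 2) ≤
        (((T:ℝ) + 1) ^ 2)⁻¹ * ∫ t in Set.Icc ((T:ℝ) + 1) ((T:ℝ) + 2), g t := by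
      have e : ((T + 1 : ℕ) : ℝ) + 1 = (T:ℝ) + 2 := by push_cast; ring
      rw [e, integral_Icc_eq_integral_Ioc, ← intervalIntegral.integral_of_le (by linarith),
        ← intervalIntegral.integral_const_mul]
      apply intervalIntegral.integral_mono_on (by linarith) (hc.intervalIntegrable _ _)
        ((continuous_const.mul hg).intervalIntegrable _ _)
      intro t ht
      rw [div_eq_inv_mul]
      apply mul_le_mul_of_nonneg_right _ (h0 t)
      apply inv_anti₀ (by positivity)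
      have : ((T:ℝ) + 1) ^ 2 ≤ t ^ 2 := pow_le_pow_left₀ (by positivity) ht.1 2
      nlinarith [sq_nonneg σ]
    linarith

private theorem setInt_split {f : ℝ → ℝ} (hf : Integrable f) :
    ∫ t in {t : ℝ | 1 < |t|}, f t = (∫ t in Set.Ioi (1:ℝ), f t) + ∫ t in Set.Ioi (1:ℝ), f (-t) := by
  have e : {t : ℝ | 1 < |t|} = Set.Ioi 1 ∪ Set.Iio (-1) := by
    ext t
    rw [Set.mem_ofPred_eq, lt_abs, Set.mem_union, Set.mem_Ioi, Set.mem_Iio]
    constructor
    · rintro (h | h)
      · exact Or.inl h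
      · exact Or.inr (by linarith)
    · rintro (h | h)
      · exact Or.inl h
      · exact Or.inr (by linarith)
  rw [e, setIntegral_union _ measurableSet_Iio hf.integrableOn hf.integrableOn]
  · rw [integral_comp_neg_Ioi 1 f, integral_Iic_eq_integral_Iio]
  · rw [Set.disjoint_left]
    intro t h1 h2
    rw [Set.mem_Ioi] at h1
    rw [Set.mem_Iio] at h2
    linarith

/-- bound of the truncated far part -/
private theorem maf_trunc (hCIR : S_CIR) (hM1 : S_M1) (hCONT : S_CONT) (γ p : ℝ)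
    (hp0 : 0 < p) (hp1 : p ≤ 1) (hα2 : al γ < 2) (p0 : ℕ) (hg : Good γ p0) : ∃ C : ℝ, 0 < C ∧
    ∀ (y σ : ℝ) (T : ℕ), (p0 : ℝ) + 1 ≤ y → σ ≠ 0 → |σ| * Real.log y ≤ 2 →
    ∫ ω : Om, (((∫ t in (1:ℝ)..(T + 1), ‖F γ (PrS p0 y) σ t ω‖ ^ 2 / (σ ^ 2 + t ^ 2)) +
      ∫ t in (1:ℝ)..(T + 1), ‖F γ (PrS p0 y) σ (-t) ω‖ ^ 2 / (σ ^ 2 + t ^ 2)) /
      Real.log y) ^ (p / 2) ∂P ≤ C * (Real.log y) ^ (p * max (al γ - 1) 0) := by
  obtain ⟨c1, C1, hc1, hC1, hM⟩ := hM1 γ p0 hg 2
  obtain ⟨C2, hC2, hC⟩ := hCIR γ p0 hg 2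
  have hα : 0 < al γ := Real.rpow_pos_of_pos two_pos _
  set α := al γ with hαdef
  have hp0' : 4 * Real.exp 16 ≤ (p0 : ℝ) := hg.1
  have he16 := Real.exp_pos 16
  have hp00 : 0 < (p0 : ℝ) := by linarith
  have hlp : 16 < Real.log p0 := by
    rw [Real.lt_log_iff_exp_lt hp00]
    linarith
  rcases le_or_gt α 1 with hα1 | hα1
  · -- second moment
    refine ⟨(2 * C1) ^ (p / 2), by positivity, ?_⟩
    intro y σ T hy hσ0 hσ
    have hy0 : 0 < y := by linarith
    have hlpy : Real.log p0 ≤ Real.log y := Real.log_le_log hp00 (by linarith)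
    set Y := Real.log y with hY
    have hYpos : 0 < Y := by linarith
    have hsmall : |σ| < 1 / 2 := by
      by_contra hc
      push Not at hc
      nlinarith
    have hprime : ∀ l ∈ PrS p0 y, l.Prime := fun l hl => (mem_prs hl hy0.le).1
    have hFc := F_cont hCONT γ (PrS p0 y) hprime (σ := σ) (by linarith [(abs_lt.1 hsmall).1])
    have hd : ∀ t : ℝ, 0 < σ ^ 2 + t ^ 2 := fun t => by positivity
    -- the two integrands
    let h : Om → ℝ → ℝ := fun ω t => ‖F γ (PrS p0 y) σ t ω‖ ^ 2 / (σ ^ 2 + t ^ 2) +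
      ‖F γ (PrS p0 y) σ (-t) ω‖ ^ 2 / (σ ^ 2 + t ^ 2)
    have hcA : Continuous (fun q : Om × ℝ => ‖F γ (PrS p0 y) σ q.2 q.1‖ ^ 2 / (σ ^ 2 + q.2 ^ 2)) :=
      (hFc.norm.pow 2).div (by fun_prop) (fun q => (hd q.2).ne')
    have hcB : Continuous (fun q : Om × ℝ => ‖F γ (PrS p0 y) σ (-q.2) q.1‖ ^ 2 / (σ ^ 2 + q.2 ^ 2)) := by
      have h1 : Continuous (fun q : Om × ℝ => ((q.1, -q.2) : Om × ℝ)) := by fun_prop
      exact ((hFc.comp h1).norm.pow 2).div (by fun_prop) (fun q => (hd q.2).ne')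
    have hcC : Continuous (fun q : Om × ℝ => h q.1 q.2) := hcA.add hcB
    have hh0 : ∀ ω t, 0 ≤ h ω t := fun ω t => by
      have := hd t
      positivity
    have hone : (1:ℝ) ≤ (T:ℝ) + 1 := by simp
    have e1 : ∀ ω : Om, (∫ t in (1:ℝ)..(T + 1), ‖F γ (PrS p0 y) σ t ω‖ ^ 2 / (σ ^ 2 + t ^ 2)) +
        (∫ t in (1:ℝ)..(T + 1), ‖F γ (PrS p0 y) σ (-t) ω‖ ^ 2 / (σ ^ 2 + t ^ 2)) =
        ∫ t in Set.Icc (1:ℝ) (T + 1), h ω t := by
      intro ω
      have k0 : Continuous (fun t : ℝ => ((ω, t) : Om × ℝ)) := by fun_prop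
      have i1 : IntervalIntegrable (fun t : ℝ => ‖F γ (PrS p0 y) σ t ω‖ ^ 2 / (σ ^ 2 + t ^ 2))
        volume 1 (T + 1) := (hcA.comp k0).intervalIntegrable _ _
      have i2 : IntervalIntegrable (fun t : ℝ => ‖F γ (PrS p0 y) σ (-t) ω‖ ^ 2 / (σ ^ 2 + t ^ 2))
        volume 1 (T + 1) := (hcB.comp k0).intervalIntegrable _ _
      rw [← intervalIntegral.integral_add i1 i2, intervalIntegral.integral_of_le hone,
        integral_Icc_eq_integral_Ioc]
    simp_rw [e1]
    have hX : Continuous (fun ω : Om => ∫ t in Set.Icc (1:ℝ) (T + 1), h ω t) :=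
      continuous_parametric_integral_of_continuous (f := h) hcC isCompact_Icc
    have hX0 : ∀ ω, 0 ≤ ∫ t in Set.Icc (1:ℝ) (T + 1), h ω t :=
      fun ω => integral_nonneg fun t => hh0 ω t
    obtain ⟨B, hB⟩ := (isCompact_univ (X := Om)).exists_bound_of_continuousOn hX.continuousOn
    have hB' : ∀ ω, ∫ t in Set.Icc (1:ℝ) (T + 1), h ω t ≤ B := by
      intro ω
      have := hB ω (Set.mem_univ _)
      rw [Real.norm_eq_abs] at this
      exact (le_abs_self _).trans this
    have hj := jensen (f := fun ω => (∫ t in Set.Icc (1:ℝ) (T + 1), h ω t) / Y)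
        (hX.div_const Y).measurable
        (B := B / Y) (fun ω => div_nonneg (hX0 ω) hYpos.le)
        (fun ω => div_le_div_of_nonneg_right (hB' ω) hYpos.le) (r := p / 2) (by positivity)
        (by linarith)
    refine hj.trans ?_
    rw [integral_div]
    have hint : Integrable (fun q : Om × ℝ => h q.1 q.2)
        (P.prod (volume.restrict (Set.Icc (1:ℝ) (T + 1)))) := by
      obtain ⟨B2, hB2⟩ := ((isCompact_univ (X := Om)).prod
        (isCompact_Icc (a := (1:ℝ)) (b := (T:ℝ) + 1))).exists_bound_of_continuousOn hcC.continuousOn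
      refine Integrable.of_bound hcC.aestronglyMeasurable B2 ?_
      have h1 : ∀ᵐ q ∂(P.prod (volume.restrict (Set.Icc (1:ℝ) (T + 1)))),
          q ∈ (Set.univ : Set Om) ×ˢ Set.Icc (1:ℝ) (T + 1) := by
        have h2 : P.prod (volume.restrict (Set.Icc (1:ℝ) (T + 1))) =
            (P.prod volume).restrict ((Set.univ : Set Om) ×ˢ Set.Icc (1:ℝ) (T + 1)) := by
          rw [← Measure.prod_restrict, Measure.restrict_univ]
        rw [h2]
        exact ae_restrict_mem (MeasurableSet.univ.prod measurableSet_Icc)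
      filter_upwards [h1] with q hq
      exact hB2 q hq
    have hsw := integral_integral_swap (f := h) hint
    rw [hsw]
    have hM2 : ∀ t : ℝ, ∫ ω : Om, ‖F γ (PrS p0 y) σ t ω‖ ^ 2 ∂P ≤ C1 * Y := by
      intro t
      have h1 := (hM p0 y σ t 2 le_rfl (by linarith) (by linarith) zero_le_two le_rfl).2
      simp only [Real.rpow_two] at h1
      refine h1.trans ?_
      apply mul_le_mul_of_nonneg_left _ hC1.le
      have h2 : Y / Real.log p0 ≤ Y := by
        rw [div_le_iff₀ (by linarith)]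
        nlinarith
      have h3 : 1 ≤ Y / Real.log p0 := by
        rw [one_le_div (by linarith)]
        exact hlpy
      have h4 : α ^ 2 * 2 ^ 2 / 4 ≤ 1 := by nlinarith
      calc (Y / Real.log p0) ^ (α ^ 2 * 2 ^ 2 / 4) ≤ (Y / Real.log p0) ^ (1:ℝ) :=
            Real.rpow_le_rpow_of_exponent_le h3 h4
        _ = Y / Real.log p0 := Real.rpow_one _
        _ ≤ _ := h2
    have hFint : ∀ t : ℝ, Integrable (fun ω : Om => ‖F γ (PrS p0 y) σ t ω‖ ^ 2) P := by
      intro t
      have k0 : Continuous (fun ω : Om => ((ω, t) : Om × ℝ)) := by fun_prop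
      have k1 : Continuous (fun ω : Om => ‖F γ (PrS p0 y) σ t ω‖ ^ 2) := (hFc.comp k0).norm.pow 2
      obtain ⟨B3, hB3⟩ := (isCompact_univ (X := Om)).exists_bound_of_continuousOn k1.continuousOn
      refine Integrable.of_bound k1.aestronglyMeasurable B3 ?_
      filter_upwards with ω
      exact hB3 ω (Set.mem_univ _)
    have hle : ∀ t ∈ Set.Icc (1:ℝ) (T + 1), ∫ ω : Om, h ω t ∂P ≤ 2 * (C1 * Y) * (t ^ 2)⁻¹ := by
      intro t ht
      simp only [h]
      rw [integral_add ((hFint t).div_const _) ((hFint (-t)).div_const _), integral_div,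
        integral_div]
      have ht2 : 0 < t ^ 2 := by
        have : 0 < t := by linarith [ht.1]
        positivity
      have k2 : (σ ^ 2 + t ^ 2)⁻¹ ≤ (t ^ 2)⁻¹ := inv_anti₀ ht2 (by nlinarith [sq_nonneg σ])
      have k3 : 0 ≤ (σ ^ 2 + t ^ 2)⁻¹ := (inv_pos.2 (hd t)).le
      rw [div_eq_mul_inv, div_eq_mul_inv]
      have hCY : 0 ≤ C1 * Y := by positivity
      have k4 : (∫ ω : Om, ‖F γ (PrS p0 y) σ t ω‖ ^ 2 ∂P) * (σ ^ 2 + t ^ 2)⁻¹ ≤
          (C1 * Y) * (t ^ 2)⁻¹ := mul_le_mul (hM2 t) k2 k3 hCY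
      have k5 : (∫ ω : Om, ‖F γ (PrS p0 y) σ (-t) ω‖ ^ 2 ∂P) * (σ ^ 2 + t ^ 2)⁻¹ ≤
          (C1 * Y) * (t ^ 2)⁻¹ := mul_le_mul (hM2 (-t)) k2 k3 hCY
      linarith
    have hinv : ContinuousOn (fun t : ℝ => 2 * (C1 * Y) * (t ^ 2)⁻¹) (Set.Icc (1:ℝ) (T + 1)) := by
      apply ContinuousOn.mul continuousOn_const
      apply ContinuousOn.inv₀ (by fun_prop)
      intro t ht
      have : 0 < t := by linarith [ht.1]
      positivity
    have h4 : ∫ t in Set.Icc (1:ℝ) (T + 1), ∫ ω : Om, h ω t ∂P ≤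
        ∫ t in Set.Icc (1:ℝ) (T + 1), 2 * (C1 * Y) * (t ^ 2)⁻¹ := by
      apply integral_mono_of_nonneg
      · exact Filter.Eventually.of_forall fun t => integral_nonneg fun ω => hh0 ω t
      · exact hinv.integrableOn_Icc
      · filter_upwards [ae_restrict_mem measurableSet_Icc] with t ht
        exact hle t ht
    have h5 : ∫ t in Set.Icc (1:ℝ) (T + 1), 2 * (C1 * Y) * (t ^ 2)⁻¹ ≤ 2 * (C1 * Y) := by
      rw [integral_const_mul]
      have h6 : ∫ t in Set.Icc (1:ℝ) (T + 1), (t ^ 2)⁻¹ ≤ 1 := by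
        rw [integral_Icc_eq_integral_Ioc, ← intervalIntegral.integral_of_le hone]
        have h7 : ∫ t in (1:ℝ)..(T + 1), (t ^ 2)⁻¹ = (-(((T:ℝ) + 1)⁻¹)) - (-((1:ℝ)⁻¹)) := by
          apply intervalIntegral.integral_eq_sub_of_hasDerivAt (f := fun t : ℝ => -(t⁻¹))
          · intro t ht
            rw [Set.uIcc_of_le hone] at ht
            have : t ≠ 0 := by linarith [ht.1]
            have h9 : HasDerivAt (fun t : ℝ => -(t⁻¹)) (-(-(t ^ 2)⁻¹)) t :=
              (hasDerivAt_inv this).neg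
            rwa [neg_neg] at h9
          · apply ContinuousOn.intervalIntegrable
            rw [Set.uIcc_of_le hone]
            apply ContinuousOn.inv₀ (by fun_prop)
            intro t ht
            have : 0 < t := by linarith [ht.1]
            positivity
        rw [h7]
        have : 0 < ((T:ℝ) + 1)⁻¹ := by positivity
        norm_num
        linarith
      have : 0 ≤ 2 * (C1 * Y) := by positivity
      nlinarith
    have h8 : (∫ t in Set.Icc (1:ℝ) (T + 1), ∫ ω : Om, h ω t ∂P) / Y ≤ 2 * C1 := by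
      rw [div_le_iff₀ hYpos]
      linarith
    have h9 : ((∫ t in Set.Icc (1:ℝ) (T + 1), ∫ ω : Om, h ω t ∂P) / Y) ^ (p / 2) ≤
        (2 * C1) ^ (p / 2) := by
      apply Real.rpow_le_rpow _ h8 (by positivity)
      apply div_nonneg _ hYpos.le
      exact integral_nonneg fun t => integral_nonneg fun ω => hh0 ω t
    refine h9.trans ?_
    rw [max_eq_right (by linarith)]
    simp
  · -- cells
    have hsum : Summable (fun j : ℕ => ((j:ℝ) + 1) ^ (-(2 / α))) := by
      have h1 : Summable (fun j : ℕ => ((j:ℝ)) ^ (-(2 / α))) := by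
        rw [Real.summable_nat_rpow]
        have : 1 < 2 / α := by rw [lt_div_iff₀ hα]; linarith
        linarith
      have h2 := (summable_nat_add_iff 1).2 h1
      refine h2.congr fun j => ?_
      push_cast
      rfl
    set S := ∑' j : ℕ, ((j:ℝ) + 1) ^ (-(2 / α)) with hS
    have hS0 : 0 < S := by
      have h1 := hsum.sum_le_tsum (Finset.range 1) (fun j _ => by positivity)
      simp at h1
      linarith
    refine ⟨(4 * (2:ℝ) ^ (1 / α) * C2 * S) ^ (α * (p / 2)), by positivity, ?_⟩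
    intro y σ T hy hσ0 hσ
    have hy0 : 0 < y := by linarith
    have hlpy : Real.log p0 ≤ Real.log y := Real.log_le_log hp00 (by linarith)
    set Y := Real.log y with hY
    have hYpos : 0 < Y := by linarith
    have hsmall : |σ| < 1 / 2 := by
      by_contra hc
      push Not at hc
      nlinarith
    have hprime : ∀ l ∈ PrS p0 y, l.Prime := fun l hl => (mem_prs hl hy0.le).1
    have hFc := F_cont hCONT γ (PrS p0 y) hprime (σ := σ) (by linarith [(abs_lt.1 hsmall).1])
    have hd : ∀ t : ℝ, 0 < σ ^ 2 + t ^ 2 := fun t => by positivity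
    set N : ℕ := ⌈Y⌉₊ with hN
    have hN1 : Y ≤ N := Nat.le_ceil _
    have hN2 : (N : ℝ) ≤ 2 * Y := by
      have h1 := (Nat.ceil_lt_add_one hYpos.le).le
      linarith
    have hcond : (|σ| + 2 * (1 / Y)) * Real.log y ≤ 8 := by
      rw [← hY, add_mul]
      have : 2 * (1 / Y) * Y = 2 := by field_simp
      linarith
    have ha0 : 0 < 2 / α := by positivity
    have ha2 : 2 / α ≤ 2 := by
      rw [div_le_iff₀ hα]; linarith
    -- majorants: sign, block, cell
    let V : Bool → ℕ → ℕ → Om → ℝ := fun s j i =>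
      U γ (PrS p0 y) (2 / α) σ ((if s then 1 else -1) * (((j:ℝ) + 1) + (2 * i + 1) * (1 / Y))) (1 / Y)
    have hV : ∀ s j i, Measurable (V s j i) ∧ (∃ B : ℝ, ∀ ω, 0 ≤ V s j i ω ∧ V s j i ω ≤ B) ∧
        (∀ (σ' t : ℝ) (ω : Om), (σ' - σ) ^ 2 +
          (t - ((if s then 1 else -1) * (((j:ℝ) + 1) + (2 * i + 1) * (1 / Y)))) ^ 2 ≤ (1 / Y) ^ 2 →
          ‖F γ (PrS p0 y) σ' t ω‖ ^ (2 / α) ≤ V s j i ω) ∧
        ∫ ω, V s j i ω ∂P ≤ C2 * Y := by
      intro s j i
      obtain ⟨k1, k2, k3, -, k5⟩ := hC p0 y (2 / α) σ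
        ((if s then 1 else -1) * (((j:ℝ) + 1) + (2 * i + 1) * (1 / Y))) (1 / Y) le_rfl (by linarith)
        (by positivity) hcond ha0 ha2
      refine ⟨k1, k2, k3, k5.trans ?_⟩
      apply mul_le_mul_of_nonneg_left _ hC2.le
      have e : al γ ^ 2 * (2 / α) ^ 2 / 4 = 1 := by
        rw [← hαdef]
        field_simp
        norm_num
      rw [e, Real.rpow_one, div_le_iff₀ (by linarith)]
      nlinarith
    have hV0 : ∀ s j i ω, 0 ≤ V s j i ω := fun s j i ω => ((hV s j i).2.1.choose_spec ω).1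
    let W : ℕ → Om → ℝ := fun j ω => ∑ i ∈ Finset.range N, (V true j i ω + V false j i ω)
    have hW0 : ∀ j ω, 0 ≤ W j ω := fun j ω =>
      Finset.sum_nonneg fun i _ => add_nonneg (hV0 _ _ _ _) (hV0 _ _ _ _)
    have hWm : ∀ j, Measurable (W j) := fun j =>
      Finset.measurable_sum _ fun i _ => (hV true j i).1.add (hV false j i).1
    have hWB : ∀ j, ∃ B, ∀ ω, W j ω ≤ B := by
      intro j
      refine ⟨∑ i ∈ Finset.range N, ((hV true j i).2.1.choose + (hV false j i).2.1.choose),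
        fun ω => Finset.sum_le_sum fun i _ => ?_⟩
      exact add_le_add ((hV true j i).2.1.choose_spec ω).2 ((hV false j i).2.1.choose_spec ω).2
    have hWE : ∀ j, ∫ ω, W j ω ∂P ≤ 4 * C2 * Y ^ 2 := by
      intro j
      have hi : ∀ s i, Integrable (V s j i) P := fun s i => int_of_bd (hV s j i).1
        (fun ω => ((hV s j i).2.1.choose_spec ω).1) (fun ω => ((hV s j i).2.1.choose_spec ω).2)
      have hi2 : ∀ i ∈ Finset.range N, Integrable (fun ω => V true j i ω + V false j i ω) P :=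
        fun i _ => (hi true i).add (hi false i)
      simp only [W]
      rw [integral_finsetSum _ hi2]
      calc ∑ i ∈ Finset.range N, ∫ ω, (V true j i ω + V false j i ω) ∂P
          ≤ ∑ i ∈ Finset.range N, (C2 * Y + C2 * Y) := by
            apply Finset.sum_le_sum
            intro i _
            rw [integral_add (hi true i) (hi false i)]
            exact add_le_add (hV true j i).2.2.2 (hV false j i).2.2.2
        _ = N * (C2 * Y + C2 * Y) := by rw [Finset.sum_const, Finset.card_range, nsmul_eq_mul]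
        _ ≤ (2 * Y) * (C2 * Y + C2 * Y) := mul_le_mul_of_nonneg_right hN2 (by positivity)
        _ = _ := by ring
    -- weights
    let κ : ℕ → ℝ := fun j => (2 / Y ^ 2) ^ (1 / α) * ((j:ℝ) + 1) ^ (-(2 / α))
    have hκ0 : ∀ j, 0 ≤ κ j := fun j => by positivity
    let Zt : Om → ℝ := fun ω => ∑ j ∈ Finset.range T, κ j * W j ω
    have hZ0 : ∀ ω, 0 ≤ Zt ω := fun ω =>
      Finset.sum_nonneg fun j _ => mul_nonneg (hκ0 j) (hW0 j ω)
    -- pointwise bound
    have hpt : ∀ ω : Om, (((∫ t in (1:ℝ)..(T + 1), ‖F γ (PrS p0 y) σ t ω‖ ^ 2 / (σ ^ 2 + t ^ 2)) +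
        ∫ t in (1:ℝ)..(T + 1), ‖F γ (PrS p0 y) σ (-t) ω‖ ^ 2 / (σ ^ 2 + t ^ 2)) / Y) ^ (p / 2) ≤
        Zt ω ^ (α * (p / 2)) := by
      intro ω
      have k0 : Continuous (fun t : ℝ => ((ω, t) : Om × ℝ)) := by fun_prop
      have k0' : Continuous (fun t : ℝ => ((ω, -t) : Om × ℝ)) := by fun_prop
      have hgA : Continuous (fun t => ‖F γ (PrS p0 y) σ t ω‖ ^ 2) := (hFc.comp k0).norm.pow 2
      have hgB : Continuous (fun t => ‖F γ (PrS p0 y) σ (-t) ω‖ ^ 2) := (hFc.comp k0').norm.pow 2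
      have f1 := far_sum hgA (fun t => by positivity) hσ0 T
      have f2 := far_sum hgB (fun t => by positivity) hσ0 T
      have hcell : ∀ (s : Bool) (g : ℝ → ℝ), Continuous g → (∀ t, 0 ≤ g t) →
          (∀ t, g t = ‖F γ (PrS p0 y) σ ((if s then 1 else -1) * t) ω‖ ^ 2) → ∀ j : ℕ,
          ∫ t in Set.Icc ((j:ℝ) + 1) ((j:ℝ) + 2), g t ≤
            2 * (1 / Y) * ∑ i ∈ Finset.range N, V s j i ω ^ α := by
        intro s g hgc hg0 hge j
        refine cell_bound hgc ((j:ℝ) + 1) (1 / Y) (by positivity) N (fun i => V s j i ω ^ α)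
          (fun i _ => Real.rpow_nonneg (hV0 s j i ω) _) ?_ ((j:ℝ) + 2) ?_ hg0
        · intro i _ t ht
          have h2 := (hV s j i).2.2.1 σ ((if s then 1 else -1) * t) ω (by
            rw [sub_self]
            have h3 : (t - ((j:ℝ) + 1 + (2 * i + 1) * (1 / Y))) ^ 2 ≤ (1 / Y) ^ 2 := by
              rw [← sq_abs (t - _)]
              exact pow_le_pow_left₀ (abs_nonneg _) ht 2
            have h4 : ((if s then (1:ℝ) else -1) * t -
                (if s then 1 else -1) * ((j:ℝ) + 1 + (2 * i + 1) * (1 / Y))) ^ 2 =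
                (t - ((j:ℝ) + 1 + (2 * i + 1) * (1 / Y))) ^ 2 := by
              cases s <;> simp <;> ring
            rw [h4]
            simpa using h3)
          have h3 := Real.rpow_le_rpow (by positivity) h2 hα.le
          rw [← Real.rpow_mul (norm_nonneg _)] at h3
          have e : 2 / α * α = 2 := by field_simp
          rw [e, Real.rpow_two] at h3
          rw [hge t]
          exact h3
        · have e : 2 * (N:ℝ) * (1 / Y) = 2 * (N / Y) := by ring
          have h3 : 1 ≤ N / Y := by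
            rw [one_le_div hYpos]
            exact hN1
          rw [e]
          linarith
      have g1 := hcell true (fun t => ‖F γ (PrS p0 y) σ t ω‖ ^ 2) hgA (fun t => by positivity)
        (fun t => by simp)
      have g2 := hcell false (fun t => ‖F γ (PrS p0 y) σ (-t) ω‖ ^ 2) hgB (fun t => by positivity)
        (fun t => by simp)
      -- per block
      have hblock : ∀ j : ℕ, (∑ i ∈ Finset.range N, V true j i ω ^ α) +
          ∑ i ∈ Finset.range N, V false j i ω ^ α ≤ W j ω ^ α := by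
        intro j
        rw [← Finset.sum_add_distrib]
        calc ∑ i ∈ Finset.range N, (V true j i ω ^ α + V false j i ω ^ α)
            ≤ ∑ i ∈ Finset.range N, (V true j i ω + V false j i ω) ^ α :=
              Finset.sum_le_sum fun i _ => Real.add_rpow_le_rpow_add (hV0 _ _ _ _) (hV0 _ _ _ _) hα1.le
          _ ≤ _ := sum_rpow_le _ _ (fun i _ => add_nonneg (hV0 _ _ _ _) (hV0 _ _ _ _)) hα1.le
      have hκα : ∀ j : ℕ, κ j ^ α = 2 / Y ^ 2 * (((j:ℝ) + 1) ^ 2)⁻¹ := by
        intro j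
        simp only [κ]
        rw [Real.mul_rpow (by positivity) (by positivity), ← Real.rpow_mul (by positivity),
          ← Real.rpow_mul (by positivity)]
        have e1 : 1 / α * α = 1 := by field_simp
        have e2 : -(2 / α) * α = -2 := by field_simp
        rw [e1, e2, Real.rpow_one, Real.rpow_neg (by positivity), Real.rpow_two]
      have hmain : ((∫ t in (1:ℝ)..(T + 1), ‖F γ (PrS p0 y) σ t ω‖ ^ 2 / (σ ^ 2 + t ^ 2)) +
          ∫ t in (1:ℝ)..(T + 1), ‖F γ (PrS p0 y) σ (-t) ω‖ ^ 2 / (σ ^ 2 + t ^ 2)) / Y ≤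
          Zt ω ^ α := by
        rw [div_le_iff₀ hYpos]
        have h5 : (∫ t in (1:ℝ)..(T + 1), ‖F γ (PrS p0 y) σ t ω‖ ^ 2 / (σ ^ 2 + t ^ 2)) +
            (∫ t in (1:ℝ)..(T + 1), ‖F γ (PrS p0 y) σ (-t) ω‖ ^ 2 / (σ ^ 2 + t ^ 2)) ≤
            ∑ j ∈ Finset.range T, (κ j * W j ω) ^ α * Y := by
          refine (add_le_add f1 f2).trans ?_
          rw [← Finset.sum_add_distrib]
          apply Finset.sum_le_sum
          intro j _
          rw [← mul_add, Real.mul_rpow (hκ0 j) (hW0 j ω), hκα j]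
          calc (((j:ℝ) + 1) ^ 2)⁻¹ * ((∫ t in Set.Icc ((j:ℝ) + 1) ((j:ℝ) + 2),
                ‖F γ (PrS p0 y) σ t ω‖ ^ 2) +
                ∫ t in Set.Icc ((j:ℝ) + 1) ((j:ℝ) + 2), ‖F γ (PrS p0 y) σ (-t) ω‖ ^ 2)
              ≤ (((j:ℝ) + 1) ^ 2)⁻¹ * (2 * (1 / Y) * W j ω ^ α) := by
                apply mul_le_mul_of_nonneg_left _ (by positivity)
                refine (add_le_add (g1 j) (g2 j)).trans ?_
                rw [← mul_add]
                exact mul_le_mul_of_nonneg_left (hblock j) (by positivity)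
            _ = _ := by field_simp
        refine h5.trans ?_
        rw [← Finset.sum_mul]
        apply mul_le_mul_of_nonneg_right _ hYpos.le
        exact sum_rpow_le _ _ (fun j _ => mul_nonneg (hκ0 j) (hW0 j ω)) hα1.le
      have hnn : 0 ≤ ((∫ t in (1:ℝ)..(T + 1), ‖F γ (PrS p0 y) σ t ω‖ ^ 2 / (σ ^ 2 + t ^ 2)) +
          ∫ t in (1:ℝ)..(T + 1), ‖F γ (PrS p0 y) σ (-t) ω‖ ^ 2 / (σ ^ 2 + t ^ 2)) / Y := by
        apply div_nonneg _ hYpos.le
        apply add_nonneg
        · apply intervalIntegral.integral_nonneg (by simp)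
          intro t _
          have := hd t
          positivity
        · apply intervalIntegral.integral_nonneg (by simp)
          intro t _
          have := hd t
          positivity
      have h6 := Real.rpow_le_rpow hnn hmain (by positivity : (0:ℝ) ≤ p / 2)
      rwa [← Real.rpow_mul (hZ0 ω)] at h6
    -- integrate
    have hZm : Measurable Zt := Finset.measurable_sum _ fun j _ => (hWm j).const_mul _
    choose BW hBW using hWB
    have hZB : ∀ ω, Zt ω ≤ ∑ j ∈ Finset.range T, κ j * BW j := fun ω =>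
      Finset.sum_le_sum fun j _ => mul_le_mul_of_nonneg_left (hBW j ω) (hκ0 j)
    have hαq : α * (p / 2) ≤ 1 := by nlinarith
    have hαq0 : 0 ≤ α * (p / 2) := by positivity
    have hj := jensen hZm hZ0 hZB hαq0 hαq
    have hEZ : ∫ ω, Zt ω ∂P ≤ (4 * (2:ℝ) ^ (1 / α) * C2 * S) * Y ^ (2 - 2 / α) := by
      simp only [Zt]
      rw [integral_finsetSum _ (fun j _ => (int_of_bd (hWm j) (hW0 j) (hBW j)).const_mul _)]
      calc ∑ j ∈ Finset.range T, ∫ ω, κ j * W j ω ∂P
          ≤ ∑ j ∈ Finset.range T, κ j * (4 * C2 * Y ^ 2) := by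
            apply Finset.sum_le_sum
            intro j _
            rw [integral_const_mul]
            exact mul_le_mul_of_nonneg_left (hWE j) (hκ0 j)
        _ = (2 / Y ^ 2) ^ (1 / α) * (4 * C2 * Y ^ 2) *
              ∑ j ∈ Finset.range T, ((j:ℝ) + 1) ^ (-(2 / α)) := by
            rw [Finset.mul_sum]
            apply Finset.sum_congr rfl
            intro j _
            simp only [κ]
            ring
        _ ≤ (2 / Y ^ 2) ^ (1 / α) * (4 * C2 * Y ^ 2) * S := by
            apply mul_le_mul_of_nonneg_left _ (by positivity)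
            exact hsum.sum_le_tsum _ (fun j _ => by positivity)
        _ = _ := by
            have e1 : (2 / Y ^ 2) ^ (1 / α) = (2:ℝ) ^ (1 / α) * Y ^ (-(2 / α)) := by
              rw [Real.div_rpow (by norm_num) (by positivity), ← Real.rpow_two,
                ← Real.rpow_mul hYpos.le, div_eq_mul_inv, ← Real.rpow_neg hYpos.le]
              congr 2
              ring
            have e2 : Y ^ (2 - 2 / α) = Y ^ (-(2 / α)) * Y ^ 2 := by
              rw [← Real.rpow_two, ← Real.rpow_add hYpos]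
              congr 1
              ring
            rw [e1, e2]
            ring
    have hint : Integrable (fun ω => Zt ω ^ (α * (p / 2))) P := by
      have hm2 : Measurable (fun ω => Zt ω ^ (α * (p / 2))) := hZm.pow_const _
      exact int_of_bd hm2 (fun ω => Real.rpow_nonneg (hZ0 ω) _)
        (fun ω => Real.rpow_le_rpow (hZ0 ω) (hZB ω) hαq0)
    calc _ ≤ ∫ ω : Om, Zt ω ^ (α * (p / 2)) ∂P := by
          apply integral_mono_of_nonneg _ hint (Filter.Eventually.of_forall hpt)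
          refine Filter.Eventually.of_forall fun ω => ?_
          apply Real.rpow_nonneg
          apply div_nonneg _ hYpos.le
          apply add_nonneg
          · apply intervalIntegral.integral_nonneg (by simp)
            intro t _
            have := hd t
            positivity
          · apply intervalIntegral.integral_nonneg (by simp)
            intro t _
            have := hd t
            positivity
      _ ≤ ((4 * (2:ℝ) ^ (1 / α) * C2 * S) * Y ^ (2 - 2 / α)) ^ (α * (p / 2)) := by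
          refine hj.trans ?_
          exact Real.rpow_le_rpow (integral_nonneg hZ0) hEZ hαq0
      _ = _ := by
          rw [Real.mul_rpow (by positivity) (by positivity), ← Real.rpow_mul hYpos.le,
            max_eq_left (by linarith)]
          congr 2
          field_simp

theorem MAF (hCIR : S_CIR) (hM1 : S_M1) (hJM : S_JM) (hCONT : S_CONT) : S_MAF := by
  intro γ p hp0 hp1 hα2 p0 hg
  obtain ⟨C, hC, hT⟩ := maf_trunc hCIR hM1 hCONT γ p hp0 hp1 hα2 p0 hg
  refine ⟨C, hC, ?_⟩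
  intro y σ hy hσ1 hσ
  have hp0' : 4 * Real.exp 16 ≤ (p0 : ℝ) := hg.1
  have he16 := Real.exp_pos 16
  have hp00 : 0 < (p0 : ℝ) := by linarith
  have hlp : 16 < Real.log p0 := by
    rw [Real.lt_log_iff_exp_lt hp00]
    linarith
  have hy0 : 0 < y := by linarith
  have hlpy : Real.log p0 ≤ Real.log y := Real.log_le_log hp00 (by linarith)
  set Y := Real.log y with hY
  have hYpos : 0 < Y := by linarith
  have hσ0 : σ ≠ 0 := by
    rintro rfl
    simp at hσ1
    linarith
  have hsmall : |σ| < 1 / 2 := by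
    by_contra hc
    push Not at hc
    nlinarith
  have hprime : ∀ l ∈ PrS p0 y, l.Prime := fun l hl => (mem_prs hl hy0.le).1
  have hFc := F_cont hCONT γ (PrS p0 y) hprime (σ := σ) (by linarith [(abs_lt.1 hsmall).1])
  have hd : ∀ t : ℝ, 0 < σ ^ 2 + t ^ 2 := fun t => by positivity
  obtain ⟨-, ⟨B, hB⟩, hJi, -⟩ := hJM γ (PrS p0 y) σ hprime (by linarith [(abs_lt.1 hsmall).1]) hσ0
  have hcA : Continuous (fun q : Om × ℝ => ‖F γ (PrS p0 y) σ q.2 q.1‖ ^ 2 / (σ ^ 2 + q.2 ^ 2)) :=
    (hFc.norm.pow 2).div (by fun_prop) (fun q => (hd q.2).ne')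
  have hcB : Continuous (fun q : Om × ℝ => ‖F γ (PrS p0 y) σ (-q.2) q.1‖ ^ 2 / (σ ^ 2 + q.2 ^ 2)) := by
    have h1 : Continuous (fun q : Om × ℝ => ((q.1, -q.2) : Om × ℝ)) := by fun_prop
    exact ((hFc.comp h1).norm.pow 2).div (by fun_prop) (fun q => (hd q.2).ne')
  let Q : ℕ → Om → ℝ := fun T ω =>
    (∫ t in (1:ℝ)..(T + 1), ‖F γ (PrS p0 y) σ t ω‖ ^ 2 / (σ ^ 2 + t ^ 2)) +
      ∫ t in (1:ℝ)..(T + 1), ‖F γ (PrS p0 y) σ (-t) ω‖ ^ 2 / (σ ^ 2 + t ^ 2)
  have hQc : ∀ T, Continuous (Q T) := by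
    intro T
    exact (intervalIntegral.continuous_parametric_intervalIntegral_of_continuous'
      (f := fun (ω : Om) (t : ℝ) => ‖F γ (PrS p0 y) σ t ω‖ ^ 2 / (σ ^ 2 + t ^ 2)) hcA 1 (T + 1)).add
      (intervalIntegral.continuous_parametric_intervalIntegral_of_continuous'
      (f := fun (ω : Om) (t : ℝ) => ‖F γ (PrS p0 y) σ (-t) ω‖ ^ 2 / (σ ^ 2 + t ^ 2)) hcB 1 (T + 1))
  have hQ0 : ∀ T ω, 0 ≤ Q T ω := by
    intro T ω
    apply add_nonneg
    · apply intervalIntegral.integral_nonneg (by simp)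
      intro t _
      have := hd t
      positivity
    · apply intervalIntegral.integral_nonneg (by simp)
      intro t _
      have := hd t
      positivity
  -- the far part
  have hJe : ∀ ω, (∫ t in {t : ℝ | 1 < |t|}, ‖F γ (PrS p0 y) σ t ω‖ ^ 2 / (σ ^ 2 + t ^ 2)) =
      (∫ t in Set.Ioi (1:ℝ), ‖F γ (PrS p0 y) σ t ω‖ ^ 2 / (σ ^ 2 + t ^ 2)) +
      ∫ t in Set.Ioi (1:ℝ), ‖F γ (PrS p0 y) σ (-t) ω‖ ^ 2 / (σ ^ 2 + t ^ 2) := by
    intro ω
    rw [setInt_split (hJi ω)]
    simp only [neg_sq]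
  have hiB : ∀ ω, Integrable (fun t : ℝ => ‖F γ (PrS p0 y) σ (-t) ω‖ ^ 2 / (σ ^ 2 + t ^ 2)) := by
    intro ω
    have := (hJi ω).comp_neg
    simpa only [neg_sq] using this
  have hlim : ∀ ω, Filter.Tendsto (fun T : ℕ => Q T ω) Filter.atTop
      (nhds (∫ t in {t : ℝ | 1 < |t|}, ‖F γ (PrS p0 y) σ t ω‖ ^ 2 / (σ ^ 2 + t ^ 2))) := by
    intro ω
    rw [hJe ω]
    have hb : Filter.Tendsto (fun T : ℕ => (T:ℝ) + 1) Filter.atTop Filter.atTop :=
      Filter.tendsto_atTop_add_const_right _ _ tendsto_natCast_atTop_atTop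
    exact (intervalIntegral_tendsto_integral_Ioi 1 (hJi ω).integrableOn hb).add
      (intervalIntegral_tendsto_integral_Ioi 1 (hiB ω).integrableOn hb)
  have hQB : ∀ T ω, Q T ω ≤ B := by
    intro T ω
    have h1 : Q T ω ≤ ∫ t in {t : ℝ | 1 < |t|}, ‖F γ (PrS p0 y) σ t ω‖ ^ 2 / (σ ^ 2 + t ^ 2) := by
      rw [hJe ω]
      have hone : (1:ℝ) ≤ (T:ℝ) + 1 := by simp
      apply add_le_add
      · rw [intervalIntegral.integral_of_le hone]
        apply setIntegral_mono_set (hJi ω).integrableOn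
        · filter_upwards with t
          have := hd t
          positivity
        · exact Set.Ioc_subset_Ioi_self.eventuallyLE
      · rw [intervalIntegral.integral_of_le hone]
        apply setIntegral_mono_set (hiB ω).integrableOn
        · filter_upwards with t
          have := hd t
          positivity
        · exact Set.Ioc_subset_Ioi_self.eventuallyLE
    refine h1.trans ?_
    refine le_trans ?_ (hB ω).2
    unfold JF
    apply setIntegral_le_integral (hJi ω)
    filter_upwards with t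
    have := hd t
    positivity
  have hB0 : 0 ≤ B := (hB 0).1.trans (hB 0).2
  have htend : Filter.Tendsto (fun T : ℕ => ∫ ω, (Q T ω / Y) ^ (p / 2) ∂P) Filter.atTop
      (nhds (∫ ω, ((∫ t in {t : ℝ | 1 < |t|},
        ‖F γ (PrS p0 y) σ t ω‖ ^ 2 / (σ ^ 2 + t ^ 2)) / Y) ^ (p / 2) ∂P)) := by
    apply tendsto_integral_of_dominated_convergence (fun _ => (B / Y) ^ (p / 2))
    · intro T
      exact (((hQc T).div_const Y).rpow_const
        (fun _ => Or.inr (by positivity))).aestronglyMeasurable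
    · exact integrable_const _
    · intro T
      filter_upwards with ω
      rw [Real.norm_eq_abs, abs_of_nonneg (Real.rpow_nonneg (div_nonneg (hQ0 T ω) hYpos.le) _)]
      apply Real.rpow_le_rpow (div_nonneg (hQ0 T ω) hYpos.le) _ (by positivity)
      exact div_le_div_of_nonneg_right (hQB T ω) hYpos.le
    · filter_upwards with ω
      exact ((hlim ω).div_const Y).rpow_const (Or.inr (by positivity))
  exact le_of_tendsto' htend (fun T => hT y σ T hy hσ0 hσ)

end PM
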