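import Pool.Agent.H24.PM.Stmts

/-! Mixing two independent points of the torus gives the law P. -/

namespace PM
open MeasureTheory Complex

namespace AuxMIX

theorem mix_measurable (A : Set ℕ) : Measurable (mix A) := by
  classical
  unfold mix
  refine measurable_pi_lambda _ (fun l => ?_)
  by_cases hl : l ∈ A
  · simp only [hl, if_true]
    fun_prop
  · simp only [hl, if_false]
    fun_prop

end AuxMIX

open AuxMIX in
theorem MIX : S_MIX := by
  classical
  intro A
  refine ⟨mix_measurable A, ?_⟩
  unfold P
  refine Measure.eq_infinitePi _ (fun s t ht => ?_)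
  rw [Measure.map_apply (mix_measurable A) (MeasurableSet.pi s.countable_toSet (fun i _ => ht i))]
  have h1 : mix A ⁻¹' (Set.pi (s : Set ℕ) t) =
      (Set.pi ((s.filter (fun l => l ∈ A) : Finset ℕ) : Set ℕ) t) ×ˢ
      (Set.pi ((s.filter (fun l => l ∉ A) : Finset ℕ) : Set ℕ) t) := by
    ext q
    simp only [Set.mem_preimage, Set.mem_pi, Set.mem_prod, Finset.coe_filter, Set.mem_ofPred_eq,
      Finset.mem_coe]
    constructor
    · intro h
      refine ⟨fun i hi => ?_, fun i hi => ?_⟩
      · have := h i hi.1
        simpa [mix, hi.2] using this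
      · have := h i hi.1
        simpa [mix, hi.2] using this
    · intro h i hi
      by_cases hA : i ∈ A
      · have := h.1 i ⟨hi, hA⟩
        simpa [mix, hA] using this
      · have := h.2 i ⟨hi, hA⟩
        simpa [mix, hA] using this
  rw [h1, Measure.prod_prod, Measure.infinitePi_pi _ (fun i _ => ht i),
    Measure.infinitePi_pi _ (fun i _ => ht i)]
  exact Finset.prod_filter_mul_prod_filter_not s (fun l => l ∈ A) _

end PM
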