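import Pool.Agent.H11.PM.MomBase

/-! Module MOM of project PM. -/

namespace PM
open MeasureTheory Complex

theorem norm_one_add_le (u : ℂ) : ‖1 + u‖ ≤ Real.exp (u.re + ‖u‖ ^ 2) := by
  have h1 : ‖1 + u‖ ^ 2 = 1 + 2 * u.re + ‖u‖ ^ 2 := by
    rw [← Complex.normSq_eq_norm_sq, ← Complex.normSq_eq_norm_sq, Complex.normSq_apply,
      Complex.normSq_apply]
    simp
    ring
  have h2 : ‖1 + u‖ ^ 2 ≤ Real.exp (u.re + ‖u‖ ^ 2) ^ 2 := by
    rw [h1, ← Real.exp_nat_mul]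
    have h3 := Real.add_one_le_exp (((2 : ℕ) : ℝ) * (u.re + ‖u‖ ^ 2))
    push_cast at h3 ⊢
    nlinarith [sq_nonneg ‖u‖]
  exact (sq_le_sq₀ (norm_nonneg _) (Real.exp_nonneg _)).mp h2

theorem MOM (hPROD : S_PROD) (hLOC : S_LOC) (hGC : S_GC) : S_MOM := by
  intro γ p0 hG k M
  obtain ⟨C, hC, hE⟩ := El_near hLOC γ p0 hG k M
  obtain ⟨Z, hZ, hsum⟩ := sum_rpow_le
  set K : ℝ := (al γ) ^ 2 / 4 * (k * (k * (M * M * Real.exp 16))) with hK
  have hK0 : 0 ≤ K := by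
    rw [hK]
    have : 0 ≤ M * M := mul_self_nonneg M
    positivity
  refine ⟨Real.exp ((K ^ 2 + C * Real.exp K) * Z), Real.exp_pos _, ?_⟩
  intro a A σ t ha hA hσ
  rw [moment_prod hPROD hGC γ p0 hG a A σ t hA hσ, ← sum_ul γ p0 a A σ t hA, norm_prod]
  have h1 : ∀ l ∈ Un A, ‖El γ a A σ t l‖ ≤ Real.exp ((ul γ a A σ t l).re +
      (K ^ 2 + C * Real.exp K) * (l : ℝ) ^ (-(3 / 2) : ℝ)) := by
    intro l hl
    have hp := PA_Un p0 A hA l hl
    have hl1 : (1 : ℝ) ≤ l := by exact_mod_cast hp.1.one_lt.le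
    have hl0 : (0 : ℝ) < l := by linarith
    have h2 := hE a A σ t ha hA hσ l hl
    have h3 := ul_norm_le γ M a A σ t ha hσ l hp.1.pos
    rw [← hK] at h3
    have h4 : ‖El γ a A σ t l‖ ≤ ‖1 + ul γ a A σ t l‖ + C * (l : ℝ) ^ (-(3 / 2) : ℝ) := by
      have h5 : El γ a A σ t l = (1 + ul γ a A σ t l) +
          (El γ a A σ t l - 1 - ul γ a A σ t l) := by ring
      rw [h5]
      exact (norm_add_le _ _).trans (by linarith)
    have h5 := norm_one_add_le (ul γ a A σ t l)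
    set u : ℂ := ul γ a A σ t l with hu
    set e : ℝ := (l : ℝ) ^ (-(3 / 2) : ℝ) with he
    have he0 : 0 < e := Real.rpow_pos_of_pos hl0 _
    have hl2 : (1 / (l : ℝ)) ^ 2 ≤ e := by
      rw [he, one_div, ← Real.rpow_natCast, ← Real.rpow_neg_one, ← Real.rpow_mul hl0.le]
      apply Real.rpow_le_rpow_of_exponent_le hl1
      norm_num
    have h6 : ‖u‖ ≤ K := h3.trans (div_le_self hK0 hl1)
    have h7 : ‖u‖ ^ 2 ≤ K ^ 2 * e := by
      have h8 : ‖u‖ ≤ K * (1 / l) := by rw [mul_one_div]; exact h3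
      calc ‖u‖ ^ 2 ≤ (K * (1 / l)) ^ 2 := pow_le_pow_left₀ (norm_nonneg _) h8 2
        _ = K ^ 2 * (1 / (l : ℝ)) ^ 2 := by ring
        _ ≤ K ^ 2 * e := mul_le_mul_of_nonneg_left hl2 (sq_nonneg K)
    have h9 : -K ≤ u.re := by
      have := (abs_le.mp ((Complex.abs_re_le_norm u).trans h6)).1
      exact this
    have h10 : 1 ≤ Real.exp K * Real.exp (u.re + ‖u‖ ^ 2) := by
      rw [← Real.exp_add]
      apply Real.one_le_exp
      nlinarith [sq_nonneg ‖u‖]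
    have h11 : C * e ≤ (C * Real.exp K * e) * Real.exp (u.re + ‖u‖ ^ 2) := by
      have : C * e * 1 ≤ C * e * (Real.exp K * Real.exp (u.re + ‖u‖ ^ 2)) :=
        mul_le_mul_of_nonneg_left h10 (by positivity)
      linarith
    have h12 : 1 + C * Real.exp K * e ≤ Real.exp (C * Real.exp K * e) := by
      have := Real.add_one_le_exp (C * Real.exp K * e)
      linarith
    calc ‖El γ a A σ t l‖ ≤ Real.exp (u.re + ‖u‖ ^ 2) + C * e := h4.trans (by linarith)
      _ ≤ Real.exp (u.re + ‖u‖ ^ 2) * (1 + C * Real.exp K * e) := by linarith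
      _ ≤ Real.exp (u.re + ‖u‖ ^ 2) * Real.exp (C * Real.exp K * e) :=
          mul_le_mul_of_nonneg_left h12 (Real.exp_nonneg _)
      _ = Real.exp (u.re + ‖u‖ ^ 2 + C * Real.exp K * e) := by rw [← Real.exp_add]
      _ ≤ Real.exp (u.re + (K ^ 2 + C * Real.exp K) * e) := by
          apply Real.exp_le_exp.mpr
          linarith
  calc ∏ l ∈ Un A, ‖El γ a A σ t l‖
      ≤ ∏ l ∈ Un A, Real.exp ((ul γ a A σ t l).re +
          (K ^ 2 + C * Real.exp K) * (l : ℝ) ^ (-(3 / 2) : ℝ)) :=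
        Finset.prod_le_prod (fun _ _ => norm_nonneg _) h1
    _ = Real.exp (∑ l ∈ Un A, ((ul γ a A σ t l).re +
          (K ^ 2 + C * Real.exp K) * (l : ℝ) ^ (-(3 / 2) : ℝ))) := by rw [Real.exp_sum]
    _ ≤ Real.exp ((K ^ 2 + C * Real.exp K) * Z + (∑ l ∈ Un A, ul γ a A σ t l).re) := by
        apply Real.exp_le_exp.mpr
        rw [Finset.sum_add_distrib, ← Finset.mul_sum, Complex.re_sum, add_comm]
        have := mul_le_mul_of_nonneg_left (hsum (Un A))
          (show 0 ≤ K ^ 2 + C * Real.exp K by positivity)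
        linarith
    _ = Real.exp ((K ^ 2 + C * Real.exp K) * Z) * Real.exp ((∑ l ∈ Un A, ul γ a A σ t l).re) := by
        rw [Real.exp_add]

end PM
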