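import Pool.Agent.H11.PM.MomBase

/-! Module MOML of project PM. -/

namespace PM
open MeasureTheory Complex

/-- the real local moment -/
noncomputable def Er (γ : ℝ) {k : ℕ} (a : Fin k → ℝ) (A : Fin k → Finset ℕ) (σ t : Fin k → ℝ)
    (l : ℕ) : ℝ :=
  ∫ x : UnitAddCircle, Real.exp (∑ i, a i * Real.log ‖phi γ (zc x * wl (A i) (σ i) (t i) l)‖)

theorem El_real (γ : ℝ) {k : ℕ} (a : Fin k → ℝ) (A : Fin k → Finset ℕ) (σ t : Fin k → ℝ)
    (l : ℕ) : El γ (fun i => (a i : ℂ)) A σ t l = (Er γ a A σ t l : ℂ) := by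
  unfold El Er
  rw [← integral_complex_ofReal]
  congr 1
  funext x
  push_cast
  rfl

theorem moment_prod_real (hPROD : S_PROD) (hGC : S_GC) (γ : ℝ) (p0 : ℕ) (hG : Good γ p0) {k : ℕ}
    (a : Fin k → ℝ) (A : Fin k → Finset ℕ) (σ t : Fin k → ℝ) (hA : ∀ i, PA p0 (A i))
    (hσ : ∀ i, Ln (A i) (σ i)) :
    ∫ ω : Om, Real.exp (∑ i, a i * G γ (A i) (σ i) (t i) ω) ∂P =
      ∏ l ∈ Un A, Er γ a A σ t l := by
  have h := moment_prod hPROD hGC γ p0 hG (fun i => (a i : ℂ)) A σ t hA hσ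
  have h1 : ∫ ω : Om, Complex.exp (∑ i, (a i : ℂ) * G γ (A i) (σ i) (t i) ω) ∂P =
      ((∫ ω : Om, Real.exp (∑ i, a i * G γ (A i) (σ i) (t i) ω) ∂P : ℝ) : ℂ) := by
    rw [← integral_complex_ofReal]
    congr 1
    funext x
    push_cast
    rfl
  rw [h1] at h
  have h2 : ∏ l ∈ Un A, El γ (fun i => (a i : ℂ)) A σ t l = ((∏ l ∈ Un A, Er γ a A σ t l : ℝ) : ℂ) := by
    rw [Complex.ofReal_prod]
    apply Finset.prod_congr rfl
    intro l _
    exact El_real γ a A σ t l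
  rw [h2] at h
  exact_mod_cast h

theorem ul_real (γ : ℝ) {k : ℕ} (a : Fin k → ℝ) (A : Fin k → Finset ℕ) (σ t : Fin k → ℝ) (l : ℕ) :
    ul γ (fun i => (a i : ℂ)) A σ t l = (((ul γ (fun i => (a i : ℂ)) A σ t l).re : ℝ) : ℂ) := by
  have : ul γ (fun i => (a i : ℂ)) A σ t l = (((al γ) ^ 2 / 4 * ∑ i, ∑ j, a i * a j *
      ((wl (A i) (σ i) (t i) l * (starRingEnd ℂ) (wl (A j) (σ j) (t j) l)).re) : ℝ) : ℂ) := by
    unfold ul
    push_cast
    rfl
  rw [this, Complex.ofReal_re]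

theorem Er_lower (hGC : S_GC) (γ : ℝ) (p0 : ℕ) (hG : Good γ p0) {k : ℕ} (M : ℝ)
    (a : Fin k → ℝ) (A : Fin k → Finset ℕ) (σ t : Fin k → ℝ) (ha : ∀ i, |a i| ≤ M)
    (hA : ∀ i, PA p0 (A i)) (hσ : ∀ i, Ln (A i) (σ i)) (l : ℕ) :
    Real.exp (-(k * M)) ≤ Er γ a A σ t l := by
  unfold Er
  have h1 : ∀ x : UnitAddCircle, Real.exp (-(k * M)) ≤
      Real.exp (∑ i, a i * Real.log ‖phi γ (zc x * wl (A i) (σ i) (t i) l)‖) := by
    intro x
    apply Real.exp_le_exp.mpr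
    have h2 : ∀ i ∈ (Finset.univ : Finset (Fin k)),
        -M ≤ a i * Real.log ‖phi γ (zc x * wl (A i) (σ i) (t i) l)‖ := by
      intro i _
      have h3 := abs_log_phi hGC γ p0 hG (A i) (σ i) (t i) l (hA i) (hσ i) x
      have h4 : |a i * Real.log ‖phi γ (zc x * wl (A i) (σ i) (t i) l)‖| ≤ M * 1 := by
        rw [abs_mul]
        exact mul_le_mul (ha i) h3 (abs_nonneg _) ((abs_nonneg _).trans (ha i))
      rw [mul_one] at h4
      exact (abs_le.mp h4).1
    have h5 := Finset.sum_le_sum h2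
    rw [Finset.sum_const, Finset.card_univ, Fintype.card_fin, nsmul_eq_mul] at h5
    linarith
  have hcont : Continuous (fun x : UnitAddCircle =>
      Real.exp (∑ i, a i * Real.log ‖phi γ (zc x * wl (A i) (σ i) (t i) l)‖)) := by
    apply Real.continuous_exp.comp
    apply continuous_finsetSum
    intro i _
    exact continuous_const.mul (cont_log_phi hGC γ p0 hG (A i) (σ i) (t i) l (hA i) (hσ i))
  have hint : Integrable (fun x : UnitAddCircle =>
      Real.exp (∑ i, a i * Real.log ‖phi γ (zc x * wl (A i) (σ i) (t i) l)‖)) :=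
    hcont.integrable_of_hasCompactSupport (HasCompactSupport.of_compactSpace _)
  have h6 := integral_mono (integrable_const (Real.exp (-(k * M)))) hint h1
  simpa using h6

theorem one_add_ge_exp (v : ℝ) (hv : -(1 / 2) ≤ v) : Real.exp (v - 2 * v ^ 2) ≤ 1 + v := by
  have h1 : 0 < 1 + v := by linarith
  have h3 := Real.one_sub_inv_le_log_of_pos h1
  have h2 : v - 2 * v ^ 2 ≤ 1 - (1 + v)⁻¹ := by
    rw [inv_eq_one_div, le_sub_iff_add_le, ← le_sub_iff_add_le', div_le_iff₀ h1]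
    have h4 : 0 ≤ v ^ 2 * (1 + 2 * v) := mul_nonneg (sq_nonneg v) (by linarith)
    nlinarith
  calc Real.exp (v - 2 * v ^ 2) ≤ Real.exp (Real.log (1 + v)) := Real.exp_le_exp.mpr (by linarith)
    _ = 1 + v := Real.exp_log h1

theorem MOML (hPROD : S_PROD) (hLOC : S_LOC) (hGC : S_GC) : S_MOML := by
  intro γ p0 hG k M
  obtain ⟨C, hC, hE⟩ := El_near hLOC γ p0 hG k M
  obtain ⟨Z, hZ, hsum⟩ := sum_rpow_le
  set K : ℝ := (al γ) ^ 2 / 4 * (k * (k * (M * M * Real.exp 16))) with hK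
  have hK0 : 0 ≤ K := by
    rw [hK]
    have : 0 ≤ M * M := mul_self_nonneg M
    positivity
  set L : ℝ := 2 * (K + C) with hL
  have hL0 : 0 < L := by rw [hL]; linarith
  set D : ℝ := C + 2 * (K + C) ^ 2 + (k * |M| + K) * L ^ (3 / 2 : ℝ) with hD
  have hkM : 0 ≤ k * |M| + K := by positivity
  have hD0 : 0 ≤ D := by rw [hD]; positivity
  refine ⟨Real.exp (-(D * Z)), Real.exp_pos _, ?_⟩
  intro a A σ t ha hA hσ
  rw [moment_prod_real hPROD hGC γ p0 hG a A σ t hA hσ]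
  have hac : ∀ i, ‖(a i : ℂ)‖ ≤ M := by
    intro i
    rw [Complex.norm_real]
    exact ha i
  have hsul := sum_ul γ p0 (fun i => (a i : ℂ)) A σ t hA
  have hsre : (al γ) ^ 2 / 4 * ∑ i, ∑ j, a i * a j * CS (A i ∩ A j) (σ i + σ j) (t i - t j) =
      ∑ l ∈ Un A, (ul γ (fun i => (a i : ℂ)) A σ t l).re := by
    rw [← Complex.re_sum, hsul]
    have : ((al γ : ℂ)) ^ 2 / 4 * ∑ i, ∑ j, (a i : ℂ) * (a j : ℂ) *
        (CS (A i ∩ A j) (σ i + σ j) (t i - t j) : ℂ) = (((al γ) ^ 2 / 4 * ∑ i, ∑ j, a i * a j *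
          CS (A i ∩ A j) (σ i + σ j) (t i - t j) : ℝ) : ℂ) := by
      push_cast
      rfl
    rw [this, Complex.ofReal_re]
  rw [hsre]
  have h1 : ∀ l ∈ Un A, Real.exp ((ul γ (fun i => (a i : ℂ)) A σ t l).re -
      D * (l : ℝ) ^ (-(3 / 2) : ℝ)) ≤ Er γ a A σ t l := by
    intro l hl
    have hp := PA_Un p0 A hA l hl
    have hl1 : (1 : ℝ) ≤ l := by exact_mod_cast hp.1.one_lt.le
    have hl0 : (0 : ℝ) < l := by linarith
    have h2 := hE (fun i => (a i : ℂ)) A σ t hac hA hσ l hl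
    have h3 := ul_norm_le γ M (fun i => (a i : ℂ)) A σ t hac hσ l hp.1.pos
    rw [← hK] at h3
    have hur := ul_real γ a A σ t l
    set u : ℂ := ul γ (fun i => (a i : ℂ)) A σ t l with hu
    set e : ℝ := (l : ℝ) ^ (-(3 / 2) : ℝ) with he
    have he0 : 0 < e := Real.rpow_pos_of_pos hl0 _
    have he1 : e ≤ 1 / l := by
      rw [he, one_div, ← Real.rpow_neg_one]
      exact Real.rpow_le_rpow_of_exponent_le hl1 (by norm_num)
    have hl2 : (1 / (l : ℝ)) ^ 2 ≤ e := by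
      rw [he, one_div, ← Real.rpow_natCast, ← Real.rpow_neg_one, ← Real.rpow_mul hl0.le]
      apply Real.rpow_le_rpow_of_exponent_le hl1
      norm_num
    rw [El_real] at h2
    have h4 : |Er γ a A σ t l - 1 - u.re| ≤ C * e := by
      rw [hur] at h2
      have h5 : ((Er γ a A σ t l : ℂ)) - 1 - (u.re : ℂ) =
          ((Er γ a A σ t l - 1 - u.re : ℝ) : ℂ) := by push_cast; rfl
      rw [h5, Complex.norm_real] at h2
      exact h2
    have h5 : |u.re| ≤ K / l := (Complex.abs_re_le_norm u).trans h3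
    have h6 := (abs_le.mp h4).1
    have h7 := (abs_le.mp h5)
    have hDe : D * e = C * e + 2 * ((K + C) ^ 2 * e) +
        (k * |M| + K) * (L ^ (3 / 2 : ℝ) * e) := by
      rw [hD]
      ring
    by_cases hcase : L ≤ l
    · set v : ℝ := u.re - C * e with hv
      have h8 : |v| ≤ (K + C) * (1 / l) := by
        have h9 : |C * e| ≤ C * (1 / l) := by
          rw [abs_of_nonneg (by positivity)]
          exact mul_le_mul_of_nonneg_left he1 hC.le
        calc |v| ≤ |u.re| + |C * e| := by rw [hv]; exact abs_sub _ _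
          _ ≤ K / l + C * (1 / l) := add_le_add h5 h9
          _ = (K + C) * (1 / l) := by ring
      have h9 : (K + C) * (1 / l) ≤ 1 / 2 := by
        rw [mul_one_div, div_le_iff₀ hl0]
        rw [hL] at hcase
        linarith
      have h10 : -(1 / 2) ≤ v := by
        have := (abs_le.mp (h8.trans h9)).1
        exact this
      have h11 := one_add_ge_exp v h10
      have h12 : v ^ 2 ≤ (K + C) ^ 2 * e := by
        rw [← sq_abs]
        calc |v| ^ 2 ≤ ((K + C) * (1 / l)) ^ 2 := pow_le_pow_left₀ (abs_nonneg _) h8 2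
          _ = (K + C) ^ 2 * (1 / (l : ℝ)) ^ 2 := by ring
          _ ≤ (K + C) ^ 2 * e := mul_le_mul_of_nonneg_left hl2 (sq_nonneg _)
      have h13 : 0 ≤ (k * |M| + K) * (L ^ (3 / 2 : ℝ) * e) :=
        mul_nonneg hkM (mul_nonneg (Real.rpow_nonneg hL0.le _) he0.le)
      have h14 : u.re - D * e ≤ v - 2 * v ^ 2 := by
        linarith
      calc Real.exp (u.re - D * e) ≤ Real.exp (v - 2 * v ^ 2) := Real.exp_le_exp.mpr h14
        _ ≤ 1 + v := h11
        _ ≤ Er γ a A σ t l := by rw [hv]; linarith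
    · push Not at hcase
      have h8 := Er_lower hGC γ p0 hG M a A σ t ha hA hσ l
      have h9 : 1 ≤ L ^ (3 / 2 : ℝ) * e := by
        rw [he, Real.rpow_neg hl0.le, ← div_eq_mul_inv, one_le_div (Real.rpow_pos_of_pos hl0 _)]
        exact Real.rpow_le_rpow hl0.le hcase.le (by norm_num)
      have h10 : K / l ≤ K := div_le_self hK0 hl1
      have h11 : (k * |M| + K) * 1 ≤ (k * |M| + K) * (L ^ (3 / 2 : ℝ) * e) :=
        mul_le_mul_of_nonneg_left h9 hkM
      have h12 : 0 ≤ C * e := mul_nonneg hC.le he0.le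
      have h12' : 0 ≤ (K + C) ^ 2 * e := mul_nonneg (sq_nonneg _) he0.le
      have h13 : (k : ℝ) * M ≤ k * |M| := mul_le_mul_of_nonneg_left (le_abs_self M) (by positivity)
      have h14 : u.re - D * e ≤ -(k * M) := by
        linarith
      exact (Real.exp_le_exp.mpr h14).trans h8
  calc Real.exp (-(D * Z)) * Real.exp (∑ l ∈ Un A, (ul γ (fun i => (a i : ℂ)) A σ t l).re)
      = Real.exp (-(D * Z) + ∑ l ∈ Un A, (ul γ (fun i => (a i : ℂ)) A σ t l).re) := by
        rw [Real.exp_add]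
    _ ≤ Real.exp (∑ l ∈ Un A, ((ul γ (fun i => (a i : ℂ)) A σ t l).re -
          D * (l : ℝ) ^ (-(3 / 2) : ℝ))) := by
        apply Real.exp_le_exp.mpr
        rw [Finset.sum_sub_distrib, ← Finset.mul_sum]
        have := mul_le_mul_of_nonneg_left (hsum (Un A)) hD0
        linarith
    _ = ∏ l ∈ Un A, Real.exp ((ul γ (fun i => (a i : ℂ)) A σ t l).re -
          D * (l : ℝ) ^ (-(3 / 2) : ℝ)) := by rw [Real.exp_sum]
    _ ≤ ∏ l ∈ Un A, Er γ a A σ t l :=
        Finset.prod_le_prod (fun _ _ => Real.exp_nonneg _) h1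

end PM
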