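import Pool.Agent.H24.PM.Stmts

/-! Module MVT: moments of partial sums of zeta to the right of the line 1. -/

namespace PM
open MeasureTheory Complex

/-- divisor bound -/
theorem mvt_div (δ : ℝ) (hδ : 0 < δ) : ∃ C : ℝ, 1 ≤ C ∧ ∀ n : ℕ, n ≠ 0 →
    (n.divisors.card : ℝ) ≤ C * (n : ℝ) ^ δ := by
  set K : ℝ := max 1 (1 / (δ * Real.log 2)) with hK
  set P0 : ℕ := ⌈(2 : ℝ) ^ (1 / δ)⌉₊ with hP0
  have hK1 : 1 ≤ K := le_max_left _ _
  have hl2 : 0 < Real.log 2 := Real.log_pos one_lt_two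
  refine ⟨K ^ P0, one_le_pow₀ hK1, fun n hn => ?_⟩
  have e1 : (n.divisors.card : ℝ) = ∏ p ∈ n.primeFactors, ((n.factorization p : ℝ) + 1) := by
    rw [Nat.card_divisors hn]
    push_cast
    rfl
  have e2 : (n : ℝ) ^ δ = ∏ p ∈ n.primeFactors, ((p : ℝ) ^ (n.factorization p)) ^ δ := by
    rw [Real.finsetProd_rpow _ _ (fun p _ => by positivity)]
    congr 1
    have h := Nat.prod_factorization_pow_eq_self hn
    conv_lhs => rw [← h]
    rw [Finsupp.prod, Nat.support_factorization]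
    push_cast
    rfl
  have e3 : ∀ p ∈ n.primeFactors, ((n.factorization p : ℝ) + 1) ≤
      (if p < P0 then K else 1) * ((p : ℝ) ^ (n.factorization p)) ^ δ := by
    intro p hp
    have hp2 : (2 : ℝ) ≤ p := by exact_mod_cast (Nat.prime_of_mem_primeFactors hp).two_le
    set a := n.factorization p
    have hp0 : (0 : ℝ) ≤ p := by linarith
    have e4 : ((p : ℝ) ^ a) ^ δ = ((p : ℝ) ^ δ) ^ a := by
      rw [← Real.rpow_natCast, ← Real.rpow_mul hp0, mul_comm, Real.rpow_mul hp0,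
        Real.rpow_natCast]
    rw [e4]
    split_ifs with hlt
    · have h5 : 1 + (a : ℝ) * (δ * Real.log 2) ≤ ((p : ℝ) ^ δ) ^ a := by
        calc 1 + (a : ℝ) * (δ * Real.log 2) ≤ Real.exp (a * (δ * Real.log 2)) := by
              have := Real.add_one_le_exp ((a : ℝ) * (δ * Real.log 2))
              linarith
          _ = ((2 : ℝ) ^ δ) ^ a := by
              rw [Real.rpow_def_of_pos two_pos, ← Real.exp_nat_mul]
              ring_nf
          _ ≤ ((p : ℝ) ^ δ) ^ a := by gcongr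
      have h7 : 1 ≤ K * (δ * Real.log 2) := by
        have : 1 / (δ * Real.log 2) ≤ K := le_max_right _ _
        rwa [div_le_iff₀ (by positivity)] at this
      have h6 : (a : ℝ) + 1 ≤ K * (1 + (a : ℝ) * (δ * Real.log 2)) := by
        have ha : (0 : ℝ) ≤ a := Nat.cast_nonneg a
        have := mul_le_mul_of_nonneg_left h7 ha
        nlinarith
      exact h6.trans (mul_le_mul_of_nonneg_left h5 (by linarith))
    · push Not at hlt
      have h8 : (2 : ℝ) ≤ (p : ℝ) ^ δ := by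
        have h9 : (2 : ℝ) ^ (1 / δ) ≤ p := (Nat.le_ceil _).trans (by exact_mod_cast hlt)
        calc (2 : ℝ) = ((2 : ℝ) ^ (1 / δ)) ^ δ := by
              rw [← Real.rpow_mul two_pos.le, one_div_mul_cancel hδ.ne', Real.rpow_one]
          _ ≤ (p : ℝ) ^ δ := Real.rpow_le_rpow (by positivity) h9 hδ.le
      rw [one_mul]
      calc (a : ℝ) + 1 ≤ 2 ^ a := by
            have := Nat.lt_two_pow_self (n := a)
            exact_mod_cast this
        _ ≤ _ := by gcongr
  rw [e1, e2]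
  calc ∏ p ∈ n.primeFactors, ((n.factorization p : ℝ) + 1)
      ≤ ∏ p ∈ n.primeFactors, ((if p < P0 then K else 1) *
          ((p : ℝ) ^ (n.factorization p)) ^ δ) :=
        Finset.prod_le_prod (fun p _ => by positivity) e3
    _ = (∏ p ∈ n.primeFactors, (if p < P0 then K else 1)) *
          ∏ p ∈ n.primeFactors, ((p : ℝ) ^ (n.factorization p)) ^ δ := Finset.prod_mul_distrib
    _ ≤ K ^ P0 * ∏ p ∈ n.primeFactors, ((p : ℝ) ^ (n.factorization p)) ^ δ := by
        gcongr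
        rw [← Finset.prod_filter, Finset.prod_const]
        refine pow_le_pow_right₀ hK1 ?_
        calc _ ≤ (Finset.range P0).card :=
              Finset.card_le_card (fun p hp => by simpa using (Finset.mem_filter.1 hp).2)
          _ = P0 := Finset.card_range _

theorem mvt_tel (c : ℝ) (hc : 0 < c) (K : ℕ) :
    ∑ k ∈ Finset.range K, 1 / (1 + c ^ 2 * ((k : ℝ) + 1) ^ 2) ≤
      2 / c * (1 - 1 / (1 + c * K)) := by
  induction K with
  | zero => simp
  | succ K ih =>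
    rw [Finset.sum_range_succ]
    have h : 1 / (1 + c ^ 2 * ((K : ℝ) + 1) ^ 2) ≤
        2 / c * (1 / (1 + c * K) - 1 / (1 + c * ((K : ℝ) + 1))) := by
      have h1 : 0 < 1 + c * (K : ℝ) := by positivity
      have h2 : 0 < 1 + c * ((K : ℝ) + 1) := by positivity
      rw [div_sub_div _ _ h1.ne' h2.ne', div_mul_div_comm,
        div_le_div_iff₀ (by positivity) (by positivity)]
      have h3 : (1 + c * (K : ℝ)) * (1 + c * ((K : ℝ) + 1)) ≤
          2 * (1 + c ^ 2 * ((K : ℝ) + 1) ^ 2) := by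
        nlinarith [sq_nonneg (1 - c * ((K : ℝ) + 1))]
      nlinarith
    push_cast
    linarith

theorem mvt_win (c : ℝ) (hc : 0 < c) (N X : ℕ) :
    ∑ j ∈ Finset.Icc 1 X, 1 / (1 + c ^ 2 * ((j : ℝ) - N) ^ 2) ≤ 2 + 4 / c := by
  set h : ℕ → ℝ := fun k => 1 / (1 + c ^ 2 * (k : ℝ) ^ 2) with hh
  have h0 : ∀ k, 0 ≤ h k := fun k => by simp only [hh]; positivity
  have e1 : ∀ j : ℕ, 1 / (1 + c ^ 2 * ((j : ℝ) - N) ^ 2) = h (Int.natAbs ((j : ℤ) - N)) := by
    intro j
    simp only [hh]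
    rw [Nat.cast_natAbs, Int.cast_abs, sq_abs]
    push_cast
    rfl
  simp only [e1]
  rw [← Finset.sum_fiberwise_of_maps_to (s := Finset.Icc 1 X) (t := Finset.range (X + N + 1))
    (g := fun j : ℕ => Int.natAbs ((j : ℤ) - N))
    (by intro j hj; simp only [Finset.mem_Icc, Finset.mem_range] at hj ⊢; omega)]
  calc _ ≤ ∑ k ∈ Finset.range (X + N + 1), 2 * h k := by
        refine Finset.sum_le_sum fun k _ => ?_
        have e2 : ∑ j ∈ (Finset.Icc 1 X).filter (fun j : ℕ => Int.natAbs ((j : ℤ) - N) = k),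
            h (Int.natAbs ((j : ℤ) - N)) =
            (((Finset.Icc 1 X).filter (fun j : ℕ => Int.natAbs ((j : ℤ) - N) = k)).card : ℝ) *
              h k := by
          rw [← nsmul_eq_mul, ← Finset.sum_const]
          exact Finset.sum_congr rfl (fun j hj => by rw [(Finset.mem_filter.1 hj).2])
        rw [e2]
        refine mul_le_mul_of_nonneg_right ?_ (h0 k)
        have h3 : (Finset.Icc 1 X).filter (fun j : ℕ => Int.natAbs ((j : ℤ) - N) = k) ⊆
            {N - k, N + k} := by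
          intro j hj
          simp only [Finset.mem_filter, Finset.mem_Icc, Finset.mem_insert,
            Finset.mem_singleton] at hj ⊢
          omega
        exact_mod_cast (Finset.card_le_card h3).trans Finset.card_le_two
    _ = 2 * ∑ k ∈ Finset.range (X + N + 1), h k := by rw [Finset.mul_sum]
    _ ≤ 2 * (1 + 2 / c) := by
        rw [Finset.sum_range_succ']
        have h4 := mvt_tel c hc (X + N)
        have h5 : ∑ k ∈ Finset.range (X + N), h (k + 1) ≤ 2 / c := by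
          refine le_trans (le_of_eq ?_) (h4.trans ?_)
          · refine Finset.sum_congr rfl fun k _ => ?_
            simp only [hh]
            push_cast
            rfl
          · have : 0 ≤ 1 / (1 + c * ((X + N : ℕ) : ℝ)) := by positivity
            have h6 : 0 < 2 / c := by positivity
            nlinarith
        have h7 : h 0 = 1 := by simp [hh]
        rw [h7]
        linarith
    _ = 2 + 4 / c := by ring

theorem mvt_gauss (b θ : ℝ) (hb : 0 < b) :
    Integrable (fun τ : ℝ => Real.cos (τ * θ) * Real.exp (-b * τ ^ 2)) ∧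
    ∫ τ : ℝ, Real.cos (τ * θ) * Real.exp (-b * τ ^ 2) =
      Real.sqrt (Real.pi / b) * Real.exp (-(θ ^ 2 / (4 * b))) := by
  have hint : Integrable (fun τ : ℝ => Real.cos (τ * θ) * Real.exp (-b * τ ^ 2)) := by
    refine (integrable_exp_neg_mul_sq hb).mono' (by fun_prop) ?_
    refine Filter.Eventually.of_forall fun τ => ?_
    rw [norm_mul, Real.norm_eq_abs, Real.norm_eq_abs, abs_of_pos (Real.exp_pos _)]
    exact mul_le_of_le_one_left (Real.exp_pos _).le (Real.abs_cos_le_one _)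
  refine ⟨hint, ?_⟩
  have h := fourierIntegral_gaussian (b := (b : ℂ)) (by simpa using hb) (θ : ℂ)
  have e1 : ∀ x : ℝ, (cexp (I * θ * x) * cexp (-b * x ^ 2)).re =
      Real.cos (x * θ) * Real.exp (-b * x ^ 2) := by
    intro x
    have h1 : cexp (-b * x ^ 2) = ((Real.exp (-b * x ^ 2) : ℝ) : ℂ) := by push_cast; rfl
    have h2 : (I * θ * x : ℂ) = ((x * θ : ℝ) : ℂ) * I := by push_cast; ring
    rw [h1, h2, Complex.re_mul_ofReal, Complex.exp_ofReal_mul_I_re]
  have hint2 : Integrable (fun x : ℝ => cexp (I * θ * x) * cexp (-b * x ^ 2)) := by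
    refine (integrable_exp_neg_mul_sq hb).mono' (by fun_prop) ?_
    refine Filter.Eventually.of_forall fun τ => ?_
    have h1 : cexp (-b * τ ^ 2) = ((Real.exp (-b * τ ^ 2) : ℝ) : ℂ) := by push_cast; rfl
    have h2 : (I * θ * τ : ℂ) = ((τ * θ : ℝ) : ℂ) * I := by push_cast; ring
    rw [norm_mul, h1, h2, Complex.norm_exp_ofReal_mul_I, one_mul, Complex.norm_real,
      Real.norm_eq_abs, abs_of_pos (Real.exp_pos _)]
  have h3 := congrArg Complex.re h
  have h4 : (∫ x : ℝ, cexp (I * θ * x) * cexp (-b * x ^ 2)).re =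
      ∫ x : ℝ, (cexp (I * θ * x) * cexp (-b * x ^ 2)).re := (integral_re hint2).symm
  rw [h4] at h3
  simp only [e1] at h3
  rw [h3]
  have h5 : ((Real.pi : ℂ) / b) ^ (1 / 2 : ℂ) = ((Real.sqrt (Real.pi / b) : ℝ) : ℂ) := by
    rw [Real.sqrt_eq_rpow, Complex.ofReal_cpow (by positivity)]
    push_cast
    rfl
  have h6 : cexp (-(θ : ℂ) ^ 2 / (4 * b)) = ((Real.exp (-(θ ^ 2 / (4 * b))) : ℝ) : ℂ) := by
    push_cast
    congr 1
    ring
  rw [h5, h6, ← Complex.ofReal_mul, Complex.ofReal_re]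

/-- difference of logarithms -/
theorem mvt_log (N j : ℕ) (hN : 1 ≤ N) (hj : 1 ≤ j) :
    ((j : ℝ) - N) ^ 2 / (max (N : ℝ) j) ^ 2 ≤ (Real.log N - Real.log j) ^ 2 := by
  have key : ∀ a b : ℝ, 0 < a → a ≤ b → (b - a) ^ 2 / b ^ 2 ≤ (Real.log b - Real.log a) ^ 2 := by
    intro a b ha hab
    have hb : 0 < b := lt_of_lt_of_le ha hab
    have h1 : (b - a) / b ≤ Real.log b - Real.log a := by
      have h2 := Real.log_le_sub_one_of_pos (x := a / b) (by positivity)
      rw [Real.log_div ha.ne' hb.ne'] at h2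
      have h3 : (b - a) / b = 1 - a / b := by field_simp
      rw [h3]
      linarith
    rw [← div_pow]
    exact pow_le_pow_left₀ (div_nonneg (by linarith) hb.le) h1 2
  have hN0 : (0 : ℝ) < N := by exact_mod_cast hN
  have hj0 : (0 : ℝ) < j := by exact_mod_cast hj
  rcases le_total (N : ℝ) j with h | h
  · rw [max_eq_right h]
    have := key N j hN0 h
    calc _ ≤ _ := this
      _ = _ := by ring
  · rw [max_eq_left h]
    have := key j N hj0 h
    calc _ = ((N : ℝ) - j) ^ 2 / (N : ℝ) ^ 2 := by ring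
      _ ≤ _ := this

/-- the kernel -/
noncomputable def mvK (T : ℝ) (N j : ℕ) : ℝ :=
  Real.exp (-(T ^ 2 * (Real.log N - Real.log j) ^ 2 / 4))

theorem mvK_le (T : ℝ) (hT : 1 ≤ T) (N j : ℕ) (hN : 1 ≤ N) (hj : 1 ≤ j) :
    mvK T N j / j ≤ 2 / N * (1 / (1 + (T / (4 * N)) ^ 2 * ((j : ℝ) - N) ^ 2)) +
      16 / T ^ 2 * (1 / j) := by
  have hN0 : (0 : ℝ) < N := by exact_mod_cast hN
  have hj0 : (0 : ℝ) < j := by exact_mod_cast hj
  have hT0 : 0 < T := by linarith
  have hl := mvt_log N j hN hj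
  have hK : mvK T N j ≤ 1 / (1 + T ^ 2 * (((j : ℝ) - N) ^ 2 / (max (N : ℝ) j) ^ 2) / 4) := by
    unfold mvK
    rw [Real.exp_neg, ← one_div]
    refine one_div_le_one_div_of_le (by positivity) ?_
    calc _ ≤ 1 + T ^ 2 * (Real.log N - Real.log j) ^ 2 / 4 := by gcongr
      _ ≤ _ := by
        have := Real.add_one_le_exp (T ^ 2 * (Real.log N - Real.log j) ^ 2 / 4)
        linarith
  by_cases hc : (N : ℝ) ≤ 2 * j ∧ (j : ℝ) ≤ 2 * N
  · obtain ⟨h1, h2⟩ := hc
    have hm : max (N : ℝ) j ≤ 2 * N := max_le (by linarith) h2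
    have hm0 : 0 < max (N : ℝ) j := lt_of_lt_of_le hN0 (le_max_left _ _)
    have h3 : mvK T N j ≤ 1 / (1 + (T / (4 * N)) ^ 2 * ((j : ℝ) - N) ^ 2) := by
      refine hK.trans (one_div_le_one_div_of_le (by positivity) ?_)
      have h4 : ((j : ℝ) - N) ^ 2 / (2 * N) ^ 2 ≤ ((j : ℝ) - N) ^ 2 / (max (N : ℝ) j) ^ 2 := by
        gcongr
      have h5 : (T / (4 * N)) ^ 2 * ((j : ℝ) - N) ^ 2 =
          T ^ 2 * (((j : ℝ) - N) ^ 2 / (2 * N) ^ 2) / 4 := by
        field_simp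
        ring
      rw [h5]
      gcongr
    have h6 : 1 / (j : ℝ) ≤ 2 / N := by
      rw [div_le_div_iff₀ hj0 hN0]
      linarith
    have h7 : 0 ≤ 16 / T ^ 2 * (1 / (j : ℝ)) := by positivity
    calc mvK T N j / j = (1 / j) * mvK T N j := by ring
      _ ≤ 2 / N * (1 / (1 + (T / (4 * N)) ^ 2 * ((j : ℝ) - N) ^ 2)) := by
          gcongr
          exact (Real.exp_pos _).le
      _ ≤ _ := by linarith
  · have h1 : 1 / 4 ≤ ((j : ℝ) - N) ^ 2 / (max (N : ℝ) j) ^ 2 := by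
      rw [not_and_or, not_le, not_le] at hc
      rcases hc with h | h
      · rw [max_eq_left (by linarith), le_div_iff₀ (by positivity)]
        nlinarith
      · rw [max_eq_right (by linarith), le_div_iff₀ (by positivity)]
        nlinarith
    have h3 : mvK T N j ≤ 16 / T ^ 2 := by
      refine hK.trans ?_
      rw [div_le_div_iff₀ (by positivity) (by positivity)]
      nlinarith [mul_le_mul_of_nonneg_left h1 (sq_nonneg T)]
    have h7 : 0 ≤ 2 / (N : ℝ) * (1 / (1 + (T / (4 * N)) ^ 2 * ((j : ℝ) - N) ^ 2)) := by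
      positivity
    calc mvK T N j / j = mvK T N j * (1 / j) := by ring
      _ ≤ 16 / T ^ 2 * (1 / j) := by gcongr
      _ ≤ _ := by linarith

theorem mvt_harm (X : ℕ) (hX : 1 ≤ X) (T : ℝ) (m : ℕ) (h : (X : ℝ) ≤ T ^ m) :
    ∑ j ∈ Finset.Icc 1 X, 1 / (j : ℝ) ≤ 1 + m * Real.log T := by
  have h1 := harmonic_le_one_add_log X
  have h2 : ((harmonic X : ℚ) : ℝ) = ∑ j ∈ Finset.Icc 1 X, 1 / (j : ℝ) := by
    rw [harmonic_eq_sum_Icc]
    push_cast
    simp
  rw [← h2]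
  refine h1.trans ?_
  have h3 : Real.log X ≤ Real.log (T ^ m) := Real.log_le_log (by exact_mod_cast hX) h
  rw [Real.log_pow] at h3
  linarith

theorem mvt_inner (m : ℕ) (T : ℝ) (hT : 1 ≤ T) (X : ℕ) (hX : 1 ≤ X) (h : (X : ℝ) ≤ T ^ m)
    (N : ℕ) (hN : 1 ≤ N) :
    ∑ j ∈ Finset.Icc 1 X, mvK T N j / j ≤ (48 + 16 * m) * (1 / N + 1 / T) := by
  have hN0 : (0 : ℝ) < N := by exact_mod_cast hN
  have hT0 : 0 < T := by linarith
  have h1 : ∑ j ∈ Finset.Icc 1 X, mvK T N j / j ≤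
      2 / N * ∑ j ∈ Finset.Icc 1 X, 1 / (1 + (T / (4 * N)) ^ 2 * ((j : ℝ) - N) ^ 2) +
      16 / T ^ 2 * ∑ j ∈ Finset.Icc 1 X, 1 / (j : ℝ) := by
    rw [Finset.mul_sum, Finset.mul_sum, ← Finset.sum_add_distrib]
    exact Finset.sum_le_sum fun j hj => mvK_le T hT N j hN (Finset.mem_Icc.1 hj).1
  have h2 := mvt_win (T / (4 * N)) (by positivity) N X
  have h3 := mvt_harm X hX T m h
  have h4 : Real.log T ≤ T := by
    have := Real.log_le_sub_one_of_pos hT0
    linarith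
  have h5 : 1 + m * Real.log T ≤ (1 + m) * T := by
    have : (m : ℝ) * Real.log T ≤ m * T := by gcongr
    nlinarith
  calc _ ≤ _ := h1
    _ ≤ 2 / N * (2 + 4 / (T / (4 * N))) + 16 / T ^ 2 * ((1 + m) * T) := by
        gcongr
        exact h3.trans h5
    _ = 4 / N + 32 / T + 16 * (1 + m) / T := by
        field_simp
        ring
    _ ≤ _ := by
        have h6 : 0 < 1 / (N : ℝ) := by positivity
        have h7 : 0 < 1 / T := by positivity
        have h8 : (0 : ℝ) ≤ m := Nat.cast_nonneg m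
        have e1 : 4 / (N : ℝ) = 4 * (1 / N) := by ring
        have e2 : 32 / T + 16 * (1 + m) / T = (48 + 16 * m) * (1 / T) := by ring
        rw [add_assoc, e1, e2]
        nlinarith [mul_nonneg h8 h6.le]

theorem mvt_mean (m : ℕ) (T : ℝ) (hT : 1 ≤ T) (X : ℕ) (hX : 1 ≤ X) (h : (X : ℝ) ≤ T ^ m)
    (a : ℕ → ℝ) :
    ∫ τ in (1 : ℝ)..T, ((∑ n ∈ Finset.Icc 1 X, a n * Real.cos (τ * Real.log n)) ^ 2 +
      (∑ n ∈ Finset.Icc 1 X, a n * Real.sin (τ * Real.log n)) ^ 2) ≤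
      Real.exp 1 * Real.sqrt Real.pi * (48 + 16 * m) *
        ∑ n ∈ Finset.Icc 1 X, a n ^ 2 * (T + n) := by
  have hT0 : 0 < T := by linarith
  set f : ℝ → ℝ := fun τ => (∑ n ∈ Finset.Icc 1 X, a n * Real.cos (τ * Real.log n)) ^ 2 +
      (∑ n ∈ Finset.Icc 1 X, a n * Real.sin (τ * Real.log n)) ^ 2 with hf
  have hf0 : ∀ τ, 0 ≤ f τ := fun τ => by simp only [hf]; positivity
  have hfc : Continuous f := by
    simp only [hf]
    fun_prop
  set b : ℝ := 1 / T ^ 2 with hb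
  have hb0 : 0 < b := by positivity
  have e1 : ∀ τ, f τ = ∑ N ∈ Finset.Icc 1 X, ∑ j ∈ Finset.Icc 1 X,
      a N * a j * Real.cos (τ * (Real.log N - Real.log j)) := by
    intro τ
    simp only [hf]
    rw [sq, sq, Finset.sum_mul_sum, Finset.sum_mul_sum, ← Finset.sum_add_distrib]
    refine Finset.sum_congr rfl fun N _ => ?_
    rw [← Finset.sum_add_distrib]
    refine Finset.sum_congr rfl fun j _ => ?_
    rw [mul_sub, Real.cos_sub]
    ring
  have e2 : ∀ τ, f τ * Real.exp (-b * τ ^ 2) = ∑ N ∈ Finset.Icc 1 X, ∑ j ∈ Finset.Icc 1 X,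
      a N * a j * (Real.cos (τ * (Real.log N - Real.log j)) * Real.exp (-b * τ ^ 2)) := by
    intro τ
    rw [e1, Finset.sum_mul]
    refine Finset.sum_congr rfl fun N _ => ?_
    rw [Finset.sum_mul]
    refine Finset.sum_congr rfl fun j _ => ?_
    ring
  have hint1 : ∀ N j : ℕ, Integrable (fun τ : ℝ => a N * a j *
      (Real.cos (τ * (Real.log N - Real.log j)) * Real.exp (-b * τ ^ 2))) := fun N j =>
    (mvt_gauss b _ hb0).1.const_mul _
  have hint2 : Integrable (fun τ : ℝ => f τ * Real.exp (-b * τ ^ 2)) := by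
    simp only [e2]
    exact integrable_finsetSum _ fun N _ => integrable_finsetSum _ fun j _ => hint1 N j
  have e3 : ∫ τ : ℝ, f τ * Real.exp (-b * τ ^ 2) = Real.sqrt Real.pi * T *
      ∑ N ∈ Finset.Icc 1 X, ∑ j ∈ Finset.Icc 1 X, a N * a j * mvK T N j := by
    simp only [e2]
    rw [integral_finsetSum _ fun N _ => integrable_finsetSum _ fun j _ => hint1 N j,
      Finset.mul_sum]
    refine Finset.sum_congr rfl fun N _ => ?_
    rw [integral_finsetSum _ fun j _ => hint1 N j, Finset.mul_sum]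
    refine Finset.sum_congr rfl fun j _ => ?_
    rw [integral_const_mul, (mvt_gauss b _ hb0).2]
    have h5 : Real.sqrt (Real.pi / b) = Real.sqrt Real.pi * T := by
      rw [hb, div_div_eq_mul_div, div_one, Real.sqrt_mul Real.pi_pos.le, Real.sqrt_sq hT0.le]
    rw [h5]
    unfold mvK
    have h6 : (Real.log N - Real.log j) ^ 2 / (4 * b) =
        T ^ 2 * (Real.log N - Real.log j) ^ 2 / 4 := by
      rw [hb]
      field_simp
    rw [h6]
    ring
  -- the weight
  have h1 : ∫ τ in (1 : ℝ)..T, f τ ≤ Real.exp 1 * ∫ τ : ℝ, f τ * Real.exp (-b * τ ^ 2) := by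
    rw [← integral_const_mul, intervalIntegral.integral_of_le hT]
    have hi : Integrable (fun τ : ℝ => Real.exp 1 * (f τ * Real.exp (-b * τ ^ 2))) :=
      hint2.const_mul _
    calc ∫ τ in Set.Ioc 1 T, f τ ≤
          ∫ τ in Set.Ioc 1 T, Real.exp 1 * (f τ * Real.exp (-b * τ ^ 2)) := by
          refine setIntegral_mono_on (hfc.integrableOn_Ioc) hi.integrableOn measurableSet_Ioc ?_
          intro τ hτ
          have h3 : 1 ≤ Real.exp 1 * Real.exp (-b * τ ^ 2) := by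
            rw [← Real.exp_add]
            refine Real.one_le_exp ?_
            have h4 : b * τ ^ 2 ≤ 1 := by
              rw [hb, div_mul_eq_mul_div, one_mul, div_le_one (by positivity)]
              exact pow_le_pow_left₀ (by linarith [hτ.1]) hτ.2 2
            linarith
          have := mul_le_mul_of_nonneg_left h3 (hf0 τ)
          linarith
      _ ≤ ∫ τ : ℝ, Real.exp 1 * (f τ * Real.exp (-b * τ ^ 2)) := by
          refine setIntegral_le_integral hi (Filter.Eventually.of_forall fun τ => ?_)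
          exact mul_nonneg (Real.exp_pos _).le (mul_nonneg (hf0 τ) (Real.exp_pos _).le)
  -- symmetrisation
  have hK0 : ∀ N j, 0 ≤ mvK T N j := fun N j => (Real.exp_pos _).le
  have hKs : ∀ N j, mvK T N j = mvK T j N := by
    intro N j
    unfold mvK
    congr 1
    ring
  have h2 : ∑ N ∈ Finset.Icc 1 X, ∑ j ∈ Finset.Icc 1 X, a N * a j * mvK T N j ≤
      ∑ N ∈ Finset.Icc 1 X, a N ^ 2 * N * ∑ j ∈ Finset.Icc 1 X, mvK T N j / j := by
    have e4 : ∑ N ∈ Finset.Icc 1 X, a N ^ 2 * N * ∑ j ∈ Finset.Icc 1 X, mvK T N j / j =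
        ∑ N ∈ Finset.Icc 1 X, ∑ j ∈ Finset.Icc 1 X, a N ^ 2 * (N / j) * mvK T N j := by
      refine Finset.sum_congr rfl fun N _ => ?_
      rw [Finset.mul_sum]
      refine Finset.sum_congr rfl fun j _ => ?_
      ring
    have e5 : ∑ N ∈ Finset.Icc 1 X, ∑ j ∈ Finset.Icc 1 X, a N ^ 2 * ((N : ℝ) / j) * mvK T N j =
        ∑ N ∈ Finset.Icc 1 X, ∑ j ∈ Finset.Icc 1 X, a j ^ 2 * ((j : ℝ) / N) * mvK T N j := by
      rw [Finset.sum_comm]
      refine Finset.sum_congr rfl fun N _ => Finset.sum_congr rfl fun j _ => ?_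
      rw [hKs]
    have e6 : ∑ N ∈ Finset.Icc 1 X, ∑ j ∈ Finset.Icc 1 X, a N * a j * mvK T N j ≤
        ∑ N ∈ Finset.Icc 1 X, ∑ j ∈ Finset.Icc 1 X, (1 / 2) * (a N ^ 2 * ((N : ℝ) / j) * mvK T N j +
          a j ^ 2 * ((j : ℝ) / N) * mvK T N j) := by
      refine Finset.sum_le_sum fun N hN => Finset.sum_le_sum fun j hj => ?_
      have hN0 : (0 : ℝ) < N := by exact_mod_cast (Finset.mem_Icc.1 hN).1
      have hj0 : (0 : ℝ) < j := by exact_mod_cast (Finset.mem_Icc.1 hj).1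
      have h7 : a N * a j ≤ (1 / 2) * (a N ^ 2 * ((N : ℝ) / j) + a j ^ 2 * ((j : ℝ) / N)) := by
        have e7 : a N ^ 2 * ((N : ℝ) / j) + a j ^ 2 * ((j : ℝ) / N) =
            (a N ^ 2 * N ^ 2 + a j ^ 2 * j ^ 2) / (j * N) := by
          field_simp
        rw [e7, ← mul_div_assoc, le_div_iff₀ (by positivity)]
        nlinarith [sq_nonneg (a N * N - a j * j)]
      have := mul_le_mul_of_nonneg_right h7 (hK0 N j)
      linarith
    refine e6.trans (le_of_eq ?_)
    rw [e4]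
    simp only [← Finset.mul_sum, Finset.sum_add_distrib]
    rw [← e5]
    ring
  have h3 : ∑ N ∈ Finset.Icc 1 X, a N ^ 2 * N * ∑ j ∈ Finset.Icc 1 X, mvK T N j / j ≤
      (48 + 16 * m) / T * ∑ N ∈ Finset.Icc 1 X, a N ^ 2 * (T + N) := by
    rw [Finset.mul_sum]
    refine Finset.sum_le_sum fun N hN => ?_
    have hN1 := (Finset.mem_Icc.1 hN).1
    have hN0 : (0 : ℝ) < N := by exact_mod_cast hN1
    calc _ ≤ a N ^ 2 * N * ((48 + 16 * m) * (1 / N + 1 / T)) := by
          gcongr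
          exact mvt_inner m T hT X hX h N hN1
      _ = _ := by
          field_simp
  calc _ ≤ _ := h1
    _ = Real.exp 1 * (Real.sqrt Real.pi * T *
      ∑ N ∈ Finset.Icc 1 X, ∑ j ∈ Finset.Icc 1 X, a N * a j * mvK T N j) := by rw [e3]
    _ ≤ Real.exp 1 * (Real.sqrt Real.pi * T *
        ((48 + 16 * m) / T * ∑ N ∈ Finset.Icc 1 X, a N ^ 2 * (T + N))) := by
        gcongr
        exact h2.trans h3
    _ = _ := by
        field_simp

/-- number of representations as a product of m numbers at most M -/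
noncomputable def mvB (m M N : ℕ) : ℕ :=
  ((Fintype.piFinset (fun _ : Fin m => Finset.Icc 1 M)).filter (fun f => ∏ i, f i = N)).card

theorem mvB_le (m M N : ℕ) (hN : N ≠ 0) : mvB m M N ≤ N.divisors.card ^ m := by
  unfold mvB
  have h : (Fintype.piFinset (fun _ : Fin m => Finset.Icc 1 M)).filter (fun f => ∏ i, f i = N) ⊆
      Fintype.piFinset (fun _ : Fin m => N.divisors) := by
    intro f hf
    rw [Finset.mem_filter] at hf
    rw [Fintype.mem_piFinset]
    intro i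
    rw [Nat.mem_divisors]
    refine ⟨?_, hN⟩
    rw [← hf.2]
    exact Finset.dvd_prod_of_mem _ (Finset.mem_univ i)
  refine (Finset.card_le_card h).trans (le_of_eq ?_)
  rw [Fintype.card_piFinset_const]

theorem mvt_pow (m M : ℕ) (s : ℂ) : (∑ n ∈ Finset.Icc 1 M, (n : ℂ) ^ s) ^ m =
    ∑ N ∈ Finset.Icc 1 (M ^ m), (mvB m M N : ℂ) * (N : ℂ) ^ s := by
  let φ : ℕ →* ℂ :=
    { toFun := fun n => (n : ℂ) ^ s
      map_one' := by simp
      map_mul' := fun a b => by
        rw [← Complex.natCast_mul_natCast_cpow]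
        push_cast
        rfl }
  have e1 : (∑ n ∈ Finset.Icc 1 M, (n : ℂ) ^ s) ^ m =
      ∏ _i : Fin m, ∑ n ∈ Finset.Icc 1 M, (n : ℂ) ^ s := by simp
  rw [e1, Finset.prod_univ_sum]
  have e2 : ∀ f : Fin m → ℕ, ∏ i, ((f i : ℕ) : ℂ) ^ s = ((∏ i, f i : ℕ) : ℂ) ^ s := by
    intro f
    exact (map_prod φ f Finset.univ).symm
  simp only [e2]
  rw [← Finset.sum_fiberwise_of_maps_to (t := Finset.Icc 1 (M ^ m)) (g := fun f => ∏ i, f i)]
  · refine Finset.sum_congr rfl fun N _ => ?_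
    unfold mvB
    rw [← nsmul_eq_mul, ← Finset.sum_const]
    exact Finset.sum_congr rfl fun f hf => by rw [(Finset.mem_filter.1 hf).2]
  · intro f hf
    rw [Fintype.mem_piFinset] at hf
    simp only [Finset.mem_Icc] at hf ⊢
    constructor
    · exact Nat.one_le_iff_ne_zero.2 (Finset.prod_ne_zero_iff.2 fun i _ => by
        have := (hf i).1
        omega)
    · calc ∏ i, f i ≤ ∏ _i : Fin m, M := Finset.prod_le_prod' fun i _ => (hf i).2
        _ = M ^ m := by simp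

theorem mvt_term (N : ℕ) (hN : N ≠ 0) (ε τ : ℝ) : (N : ℂ) ^ (-(1 + ε + τ * I)) =
    (((N : ℝ) ^ (-(1 + ε)) * Real.cos (τ * Real.log N) : ℝ) : ℂ) -
      (((N : ℝ) ^ (-(1 + ε)) * Real.sin (τ * Real.log N) : ℝ) : ℂ) * I := by
  have hN0 : (0 : ℝ) < N := by exact_mod_cast Nat.pos_of_ne_zero hN
  have hNc : (N : ℂ) ≠ 0 := by exact_mod_cast hN
  have e1 : (-(1 + ε + τ * I) : ℂ) = ((-(1 + ε) : ℝ) : ℂ) + -(τ * I) := by
    push_cast
    ring
  rw [e1, Complex.cpow_add _ _ hNc]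
  have e2 : (N : ℂ) ^ (((-(1 + ε) : ℝ) : ℂ)) = (((N : ℝ) ^ (-(1 + ε)) : ℝ) : ℂ) := by
    rw [Complex.ofReal_cpow hN0.le]
    push_cast
    rfl
  have e3 : (N : ℂ) ^ (-(τ * I) : ℂ) =
      (Real.cos (τ * Real.log N) : ℂ) - (Real.sin (τ * Real.log N) : ℂ) * I := by
    rw [Complex.cpow_def_of_ne_zero hNc, ← Complex.ofReal_natCast, ← Complex.ofReal_log hN0.le]
    have e4 : ((Real.log N : ℝ) : ℂ) * (-(τ * I)) = ((-(τ * Real.log N) : ℝ) : ℂ) * I := by
      push_cast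
      ring
    rw [e4, Complex.exp_mul_I, ← Complex.ofReal_cos, ← Complex.ofReal_sin, Real.cos_neg,
      Real.sin_neg]
    push_cast
    ring
  rw [e2, e3]
  push_cast
  ring

/-- **MVT** -/
theorem MVT : S_MVT := by
  intro m
  set κ : ℝ := 1 / (2 * (m + 1)) with hκ
  have hm0 : (0 : ℝ) ≤ m := Nat.cast_nonneg m
  have hκ0 : 0 < κ := by positivity
  have hκ1 : κ ≤ 1 / 2 := by
    rw [hκ]
    exact one_div_le_one_div_of_le (by norm_num) (by linarith)
  have hκ2 : m * κ ≤ 1 / 2 := by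
    rw [hκ, mul_one_div, div_le_div_iff₀ (by positivity) (by norm_num)]
    linarith
  obtain ⟨C1, hC1, hdiv⟩ := mvt_div (κ / (2 * (m + 1))) (by positivity)
  set D : ℝ := C1 ^ (2 * m) with hD
  have hD1 : 1 ≤ D := one_le_pow₀ hC1
  have hcb : ∀ M N : ℕ, N ≠ 0 → (mvB m M N : ℝ) ^ 2 ≤ D * (N : ℝ) ^ κ := by
    intro M N hN
    have hN1 : (1 : ℝ) ≤ N := by exact_mod_cast Nat.one_le_iff_ne_zero.2 hN
    have h1 : (mvB m M N : ℝ) ≤ (N.divisors.card : ℝ) ^ m := by exact_mod_cast mvB_le m M N hN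
    calc (mvB m M N : ℝ) ^ 2 ≤ ((N.divisors.card : ℝ) ^ m) ^ 2 := by gcongr
      _ = (N.divisors.card : ℝ) ^ (2 * m) := by rw [← pow_mul, mul_comm]
      _ ≤ (C1 * (N : ℝ) ^ (κ / (2 * (m + 1)))) ^ (2 * m) := by
          gcongr
          exact hdiv N hN
      _ = D * (N : ℝ) ^ (κ / (2 * (m + 1)) * (2 * m)) := by
          rw [mul_pow, Real.rpow_mul (by positivity)]
          norm_cast
      _ ≤ D * (N : ℝ) ^ κ := by
          gcongr
          rw [div_mul_eq_mul_div, div_le_iff₀ (by positivity)]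
          nlinarith
  have hsum : Summable (fun n : ℕ => 1 / (n : ℝ) ^ (3 / 2 : ℝ)) :=
    Real.summable_one_div_nat_rpow.2 (by norm_num)
  set S : ℝ := ∑' n : ℕ, 1 / (n : ℝ) ^ (3 / 2 : ℝ) with hS
  have hS0 : 0 ≤ S := tsum_nonneg fun n => by positivity
  refine ⟨Real.exp 1 * Real.sqrt Real.pi * (48 + 16 * m) * (D * (S + 1 + 2 * m)), by positivity, ?_⟩
  intro ε T hε _ hT
  have hT0 : 0 < T := by linarith
  set M : ℕ := ⌊T⌋₊ with hM
  have hM1 : 1 ≤ M := Nat.one_le_floor_iff _ |>.2 hT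
  have hMT : (M : ℝ) ≤ T := Nat.floor_le hT0.le
  set X : ℕ := M ^ m with hX
  have hX1 : 1 ≤ X := Nat.one_le_pow _ _ hM1
  have hXT : (X : ℝ) ≤ T ^ m := by
    rw [hX]
    push_cast
    gcongr
  set a : ℕ → ℝ := fun N => (mvB m M N : ℝ) * (N : ℝ) ^ (-(1 + ε)) with ha
  have e1 : ∀ τ : ℝ, ‖∑ n ∈ Finset.Icc 1 M, (n : ℂ) ^ (-(1 + ε + τ * I))‖ ^ (2 * m) =
      (∑ n ∈ Finset.Icc 1 X, a n * Real.cos (τ * Real.log n)) ^ 2 +
      (∑ n ∈ Finset.Icc 1 X, a n * Real.sin (τ * Real.log n)) ^ 2 := by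
    intro τ
    rw [mul_comm 2 m, pow_mul, ← norm_pow, mvt_pow]
    have e2 : ∑ N ∈ Finset.Icc 1 (M ^ m), (mvB m M N : ℂ) * (N : ℂ) ^ (-(1 + ε + τ * I)) =
        ((∑ n ∈ Finset.Icc 1 X, a n * Real.cos (τ * Real.log n) : ℝ) : ℂ) +
        ((-∑ n ∈ Finset.Icc 1 X, a n * Real.sin (τ * Real.log n) : ℝ) : ℂ) * I := by
      rw [Complex.ofReal_neg, neg_mul, ← sub_eq_add_neg, Complex.ofReal_sum, Complex.ofReal_sum,
        Finset.sum_mul, ← Finset.sum_sub_distrib]
      refine Finset.sum_congr rfl fun N hN => ?_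
      rw [mvt_term N (by have := (Finset.mem_Icc.1 hN).1; omega)]
      simp only [ha]
      push_cast
      ring
    rw [e2, ← Complex.normSq_eq_norm_sq, Complex.normSq_add_mul_I]
    ring
  simp only [e1]
  have h1 := mvt_mean m T hT X hX1 hXT a
  refine h1.trans ?_
  have h2 : ∑ n ∈ Finset.Icc 1 X, a n ^ 2 * (T + n) ≤ D * (S + 1 + 2 * m) * T := by
    have h3 : ∀ n ∈ Finset.Icc 1 X, a n ^ 2 * (T + n) ≤
        D * T * (1 / (n : ℝ) ^ (3 / 2 : ℝ)) + D * (X : ℝ) ^ κ * (1 / n) := by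
      intro n hn
      have hn1 := (Finset.mem_Icc.1 hn).1
      have hnX : (n : ℝ) ≤ X := by exact_mod_cast (Finset.mem_Icc.1 hn).2
      have hn1' : (1 : ℝ) ≤ n := by exact_mod_cast hn1
      have hn0 : (0 : ℝ) < n := by linarith
      have h4 : a n ^ 2 ≤ D * (n : ℝ) ^ κ * (1 / (n : ℝ) ^ 2) := by
        simp only [ha]
        rw [mul_pow]
        have h5 : ((n : ℝ) ^ (-(1 + ε))) ≤ 1 / n := by
          rw [one_div, ← Real.rpow_neg_one]
          exact Real.rpow_le_rpow_of_exponent_le hn1' (by linarith)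
        have h6 : ((n : ℝ) ^ (-(1 + ε))) ^ 2 ≤ 1 / (n : ℝ) ^ 2 := by
          calc _ ≤ (1 / (n : ℝ)) ^ 2 := by gcongr
            _ = _ := by rw [one_div_pow]
        exact mul_le_mul (hcb M n (by omega)) h6 (by positivity) (by positivity)
      have h7 : D * (n : ℝ) ^ κ * (1 / (n : ℝ) ^ 2) ≤ D * (1 / (n : ℝ) ^ (3 / 2 : ℝ)) := by
        rw [mul_assoc]
        refine mul_le_mul_of_nonneg_left ?_ (by linarith)
        rw [mul_one_div, div_le_div_iff₀ (by positivity) (by positivity), one_mul,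
          ← Real.rpow_add hn0]
        calc (n : ℝ) ^ (κ + 3 / 2) ≤ (n : ℝ) ^ (2 : ℝ) :=
              Real.rpow_le_rpow_of_exponent_le hn1' (by linarith)
          _ = (n : ℝ) ^ 2 := by norm_cast
      have h8 : D * (n : ℝ) ^ κ * (1 / (n : ℝ) ^ 2) * n ≤ D * (X : ℝ) ^ κ * (1 / n) := by
        calc _ = D * (n : ℝ) ^ κ * (1 / n) := by field_simp
          _ ≤ _ := by gcongr
      calc a n ^ 2 * (T + n) ≤ D * (n : ℝ) ^ κ * (1 / (n : ℝ) ^ 2) * (T + n) := by gcongr
        _ = D * (n : ℝ) ^ κ * (1 / (n : ℝ) ^ 2) * T + D * (n : ℝ) ^ κ * (1 / (n : ℝ) ^ 2) * n := by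
            ring
        _ ≤ D * (1 / (n : ℝ) ^ (3 / 2 : ℝ)) * T + D * (X : ℝ) ^ κ * (1 / n) := by
            gcongr
        _ = _ := by ring
    refine (Finset.sum_le_sum h3).trans ?_
    rw [Finset.sum_add_distrib, ← Finset.mul_sum, ← Finset.mul_sum]
    have h9 : ∑ n ∈ Finset.Icc 1 X, 1 / (n : ℝ) ^ (3 / 2 : ℝ) ≤ S :=
      hsum.sum_le_tsum _ fun n _ => by positivity
    have h10 := mvt_harm X hX1 T m hXT
    have h11 : (X : ℝ) ^ κ ≤ T ^ (1 / 2 : ℝ) := by
      calc (X : ℝ) ^ κ ≤ (T ^ m) ^ κ := by gcongr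
        _ = T ^ (m * κ) := by rw [← Real.rpow_natCast, ← Real.rpow_mul hT0.le]
        _ ≤ T ^ (1 / 2 : ℝ) := Real.rpow_le_rpow_of_exponent_le hT hκ2
    have h12 : Real.log T ≤ 2 * T ^ (1 / 2 : ℝ) := by
      have := Real.log_le_rpow_div hT0.le (show (0 : ℝ) < 1 / 2 by norm_num)
      linarith
    have h13 : T ^ (1 / 2 : ℝ) * T ^ (1 / 2 : ℝ) = T := by
      rw [← Real.rpow_add hT0]
      norm_num
    have h14 : 1 ≤ T ^ (1 / 2 : ℝ) := Real.one_le_rpow hT (by norm_num)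
    have h15 : (X : ℝ) ^ κ * ∑ n ∈ Finset.Icc 1 X, 1 / (n : ℝ) ≤ (1 + 2 * m) * T := by
      calc _ ≤ T ^ (1 / 2 : ℝ) * (1 + m * Real.log T) := by
            gcongr
        _ ≤ T ^ (1 / 2 : ℝ) * (T ^ (1 / 2 : ℝ) + m * (2 * T ^ (1 / 2 : ℝ))) := by
            gcongr
        _ = (1 + 2 * m) * (T ^ (1 / 2 : ℝ) * T ^ (1 / 2 : ℝ)) := by ring
        _ = _ := by rw [h13]
    calc D * T * ∑ n ∈ Finset.Icc 1 X, 1 / (n : ℝ) ^ (3 / 2 : ℝ) +
          D * (X : ℝ) ^ κ * ∑ n ∈ Finset.Icc 1 X, 1 / (n : ℝ)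
        = D * T * ∑ n ∈ Finset.Icc 1 X, 1 / (n : ℝ) ^ (3 / 2 : ℝ) +
          D * ((X : ℝ) ^ κ * ∑ n ∈ Finset.Icc 1 X, 1 / (n : ℝ)) := by ring
      _ ≤ D * T * S + D * ((1 + 2 * m) * T) := by gcongr
      _ = _ := by ring
  calc _ ≤ Real.exp 1 * Real.sqrt Real.pi * (48 + 16 * m) * (D * (S + 1 + 2 * m) * T) := by
        gcongr
    _ = _ := by ring

end PM
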