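import Pool.Agent.H24.PM.ONE

namespace PM
open MeasureTheory Complex

theorem h5_tail (hNTA : S_NTA) (hNTC : S_NTC) (p0 : ℕ) (hp : (2 : ℝ) ≤ p0) : ∃ C : ℝ, 0 < C ∧
    ∀ (y σ τ : ℝ) (s : ℕ), Real.exp 3 ≤ y → (s : ℝ) ≤ Real.log (Real.log y) → |τ| ≤ 1 →
    (Real.exp (-((s : ℝ) + 1)) ≤ |τ| ∨ Real.log (Real.log y) ≤ (s : ℝ) + 1) →
    |σ| * Real.log y ≤ 16 →
    CS (PrS p0 y) σ τ - CS (PrS p0 (xs s)) σ τ ≤ C := by
  obtain ⟨CA, hCA, hA⟩ := hNTA
  obtain ⟨CC, hCC, hC⟩ := hNTC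
  refine ⟨1 + CA + CC, by positivity, fun y σ τ s hy hs hτ hor hσ => ?_⟩
  have hy0 : 0 < y := (Real.exp_pos 3).trans_le hy
  have hly : 3 ≤ Real.log y := by
    rw [← Real.log_exp 3]; exact Real.log_le_log (Real.exp_pos 3) hy
  have hxs := h5_xs_le hy hs
  have hxp := h5_xs_pos s
  rcases le_or_gt y p0 with hyp | hyp
  · rw [h5_PrS_empty hy0.le hyp, h5_PrS_empty hxp.le (hxs.trans hyp)]
    rw [sub_self]; positivity
  · obtain ⟨u, hu⟩ : ∃ u : ℝ, u = max (p0 : ℝ) (xs s) := ⟨_, rfl⟩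
    have hup : (p0 : ℝ) ≤ u := hu ▸ le_max_left _ _
    have hux : xs s ≤ u := hu ▸ le_max_right _ _
    have huy : u ≤ y := by rw [hu]; exact max_le hyp.le hxs
    have hu2 : 2 ≤ u := hp.trans hup
    have hlu : 0 < Real.log u := Real.log_pos (by linarith)
    have e1 : PrS p0 (xs s) = PrS p0 u := by
      rcases le_total (p0 : ℝ) (xs s) with h | h
      · rw [hu, max_eq_right h]
      · rw [hu, max_eq_left h, h5_PrS_empty hxp.le h, h5_PrS_empty (by positivity) le_rfl]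
    rw [e1, h5_CS_split (u := (p0 : ℝ)) (w := u) (v := y) (by positivity) hup huy]
    obtain ⟨w', hw'⟩ : ∃ w' : ℝ, w' = max (p0 : ℝ) (xs (s + 1)) := ⟨_, rfl⟩
    have hxs1 : xs s ≤ xs (s + 1) := by
      unfold xs
      refine Real.exp_le_exp.mpr (Real.exp_le_exp.mpr ?_)
      push_cast; linarith
    have huw' : u ≤ w' := by rw [hu, hw']; exact max_le_max le_rfl hxs1
    have hlw' : Real.log w' ≤ Real.exp 1 * Real.log u := by
      have hl1 : Real.exp s ≤ Real.log u := by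
        rw [← h5_xs_log s]; exact Real.log_le_log hxp hux
      rcases le_total (p0 : ℝ) (xs (s + 1)) with h | h
      · rw [hw', max_eq_right h, h5_xs_log]
        push_cast
        rw [Real.exp_add, mul_comm]
        exact mul_le_mul_of_nonneg_left hl1 (Real.exp_pos 1).le
      · rw [hw', max_eq_left h]
        have h1 : Real.log (p0 : ℝ) ≤ Real.log u := Real.log_le_log (by linarith) hup
        have h2 : (1 : ℝ) ≤ Real.exp 1 := Real.one_le_exp (by norm_num)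
        nlinarith
    have hblock : ∀ w : ℝ, u ≤ w → w ≤ w' → w ≤ y → CS (PrS u w) σ τ ≤ 1 + CA := by
      intro w h1 h2 h3
      have hw0 : 0 < w := by linarith
      have h4 := hA u w σ hu2 h1 ((mul_le_mul_of_nonneg_left (Real.log_le_log hw0 h3)
        (abs_nonneg σ)).trans hσ)
      have h5 : Real.log (Real.log w / Real.log u) ≤ 1 := by
        have hlw : 0 < Real.log w := Real.log_pos (by linarith)
        rw [← Real.log_exp 1]
        refine Real.log_le_log (by positivity) ?_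
        rw [div_le_iff₀ hlu]
        exact (Real.log_le_log hw0 h2).trans hlw'
      have h6 : CS (PrS u w) σ τ ≤ CS (PrS u w) σ 0 := h5_CS_le
      rw [abs_le] at h4
      linarith [h4.2]
    rcases le_or_gt y w' with hyw | hyw
    · have := hblock y huy hyw le_rfl
      linarith
    · have h1 := hblock w' huw' le_rfl hyw.le
      have h2 : Real.exp (-((s : ℝ) + 1)) ≤ |τ| := by
        rcases hor with h | h
        · exact h
        · exfalso
          have h3 : xs (s + 1) < y := lt_of_le_of_lt (by rw [hw']; exact le_max_right _ _) hyw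
          have h4 : Real.exp ((s : ℝ) + 1) < Real.log y := by
            have := Real.log_lt_log (h5_xs_pos (s + 1)) h3
            rw [h5_xs_log] at this
            push_cast at this
            exact this
          have h5 : Real.log y ≤ Real.exp ((s : ℝ) + 1) := by
            rw [← Real.exp_log (by linarith : 0 < Real.log y)]
            exact Real.exp_le_exp.mpr h
          linarith
      have h3 : 1 ≤ |τ| * Real.log w' := by
        have h4 : Real.exp ((s : ℝ) + 1) ≤ Real.log w' := by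
          have : Real.log (xs (s + 1)) ≤ Real.log w' :=
            Real.log_le_log (h5_xs_pos _) (by rw [hw']; exact le_max_right _ _)
          rw [h5_xs_log] at this
          push_cast at this
          exact this
        calc (1 : ℝ) = Real.exp (-((s : ℝ) + 1)) * Real.exp ((s : ℝ) + 1) := by
              rw [← Real.exp_add, neg_add_cancel, Real.exp_zero]
          _ ≤ |τ| * Real.log w' := mul_le_mul h2 h4 (Real.exp_pos _).le (abs_nonneg τ)
      have h4 := hC w' y σ τ (hu2.trans huw') hyw.le hτ h3 hσ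
      rw [h5_CS_split (u := u) (w := w') (v := y) (by linarith) huw' hyw.le]
      rw [abs_le] at h4
      linarith [h4.2]

theorem NEAR (hMOM : S_MOM) (hGC : S_GC) (hNTA : S_NTA) (hNTC : S_NTC) : S_NEAR := by
  intro γ p0 hg
  obtain ⟨C1, hC1, hU⟩ := h5_MOM3 hMOM γ p0 hg 2
  have hp2 := h5_two_le hg
  obtain ⟨C2, hC2, hL⟩ := h5_LLB hNTA p0 hp2
  obtain ⟨C3, hC3, hT⟩ := h5_tail hNTA hNTC p0 hp2
  have hα := h5_al_pos γ
  obtain ⟨A2, hA2⟩ : ∃ A2 : ℝ, A2 = (al γ) ^ 2 / 4 := ⟨_, rfl⟩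
  have hA2p : 0 < A2 := by rw [hA2]; positivity
  refine ⟨2 * (C1 * Real.exp (A2 * (3 * C2 + 2 * C3)) * Real.sqrt (Real.pi / A2)), Real.exp 3,
    by have := Real.pi_pos; positivity, le_rfl, ?_⟩
  intro y x t1 t2 s hy hs hτ hor
  have hy0 : 0 < y := (Real.exp_pos 3).trans_le hy
  have hly : 3 ≤ Real.log y := by
    rw [← Real.log_exp 3]; exact Real.log_le_log (Real.exp_pos 3) hy
  have hy1 : 1 < y := lt_of_lt_of_le (by rw [← Real.exp_zero]; exact Real.exp_lt_exp.mpr (by norm_num)) hy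
  have hye : Real.exp 1 ≤ y := (Real.exp_le_exp.mpr (by norm_num)).trans hy
  have hxs := h5_xs_le hy hs
  have hTT := fun σ => hT y σ (t1 - t2) s hy hs hτ hor
  have hLL0 : 0 < Real.log (Real.log y) := Real.log_pos (by linarith)
  obtain ⟨LL, hLL⟩ : ∃ LL : ℝ, LL = Real.log (Real.log y) := ⟨_, rfl⟩
  obtain ⟨σ, hσ⟩ : ∃ σ : ℝ, σ = 2 / Real.log y := ⟨_, rfl⟩
  rw [← hLL, ← hσ, ← hA2]
  rw [← hLL] at hLL0 hs hor
  have hPA1 : PA p0 (PrS p0 y) := h5_PA le_rfl
  have hPA2 : PA p0 (PrS p0 (xs s)) := h5_PA le_rfl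
  have hLn1 : Ln (PrS p0 y) σ := by
    rw [hσ]
    exact h5_Ln (by positivity) hy0.le
      ((h5_abs_div 2 (by norm_num) hy1 hy0 le_rfl).trans (by norm_num))
  have hLn2 : Ln (PrS p0 (xs s)) σ := by
    rw [hσ]
    exact h5_Ln (by positivity) (h5_xs_pos s).le
      ((h5_abs_div 2 (by norm_num) hy1 (h5_xs_pos s) hxs).trans (by norm_num))
  have h4 : σ + σ = 4 / Real.log y := by rw [hσ]; ring
  have h16 : |σ + σ| * Real.log y ≤ 16 := by
    rw [h4]; exact (h5_abs_div 4 (by norm_num) hy1 hy0 le_rfl).trans (by norm_num)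
  have e1 := hL y (σ + σ) hye h16
  have e2 := hL (xs s) (σ + σ) (h5_xs_ge s) (by
    rw [h4]; exact (h5_abs_div 4 (by norm_num) hy1 (h5_xs_pos s) hxs).trans (by norm_num))
  have e3 := hTT (σ + σ) h16
  rw [h5_xs_log, Real.log_exp] at e2
  rw [← hLL] at e1
  obtain ⟨hX, hb1⟩ := h5_field hGC hg hPA1 hLn1 t1
  obtain ⟨hZ, hb3⟩ := h5_field hGC hg hPA1 hLn1 t2
  obtain ⟨hY, hb2⟩ := h5_field hGC hg hPA2 hLn2 t1
  have hUU := fun a1 a2 a3 h1 h2 h3 => hU a1 a2 a3 (PrS p0 y) (PrS p0 y) (PrS p0 (xs s)) σ t1 t2 t1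
    h1 h2 h3 hPA1 hPA1 hPA2 hLn1 hLn1 hLn2
  rw [h5_PrS_inter (h5_xs_pos s).le hxs, sub_self, Finset.inter_self,
    show t2 - t1 = -(t1 - t2) by ring, h5_CS_neg] at hUU
  clear hU hL hT hTT hPA1 hPA2 hLn1 hLn2
  obtain ⟨X, hXe⟩ : ∃ X : Om → ℝ, X = fun ω : Om => G γ (PrS p0 y) σ t1 ω := ⟨_, rfl⟩
  obtain ⟨Z, hZe⟩ : ∃ Z : Om → ℝ, Z = fun ω : Om => G γ (PrS p0 y) σ t2 ω := ⟨_, rfl⟩
  obtain ⟨Y, hYe⟩ : ∃ Y : Om → ℝ, Y = fun ω : Om => G γ (PrS p0 (xs s)) σ t1 ω := ⟨_, rfl⟩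
  have eX : ∀ ω, G γ (PrS p0 y) σ t1 ω = X ω := fun ω => by rw [hXe]
  have eZ : ∀ ω, G γ (PrS p0 y) σ t2 ω = Z ω := fun ω => by rw [hZe]
  have eY : ∀ ω, G γ (PrS p0 (xs s)) σ t1 ω = Y ω := fun ω => by rw [hYe]
  rw [← hXe] at hX
  rw [← hZe] at hZ
  rw [← hYe] at hY
  simp only [eX, eY, eZ] at hb1 hb2 hb3 hUU ⊢
  obtain ⟨L1, hL1⟩ : ∃ L1 : ℝ, L1 = CS (PrS p0 y) (σ + σ) 0 := ⟨_, rfl⟩
  obtain ⟨L2, hL2⟩ : ∃ L2 : ℝ, L2 = CS (PrS p0 (xs s)) (σ + σ) 0 := ⟨_, rfl⟩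
  obtain ⟨T1, hT1⟩ : ∃ T1 : ℝ, T1 = CS (PrS p0 y) (σ + σ) (t1 - t2) := ⟨_, rfl⟩
  obtain ⟨T2, hT2⟩ : ∃ T2 : ℝ, T2 = CS (PrS p0 (xs s)) (σ + σ) (t1 - t2) := ⟨_, rfl⟩
  rw [← hL1] at e1
  rw [← hL2] at e2
  rw [← hT1, ← hT2] at e3
  simp only [← hL1, ← hL2, ← hT1, ← hT2] at hUU
  clear hXe hYe hZe eX eY eZ hL1 hL2 hT1 hT2
  have hwin := h5win1 (X := X) (H := fun ω : Om => X ω + Z ω - Y ω)
    hX ((hX.add hZ).sub hY)
    (B := (PrS p0 y).card + (PrS p0 y).card + (PrS p0 (xs s)).card) (by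
      intro ω
      have g1 := hb1 ω
      have g2 := hb2 ω
      have g3 := hb3 ω
      rw [abs_le] at g1 g2 g3
      linarith [g1.2, g2.1, g3.2]) x
    (K := C1 * Real.exp (A2 * (3 * C2 + 2 * C3)) * Real.exp (A2 * (s + 2 * (LL - s))))
    (c := A2 * LL) (by positivity) (by positivity) (by
      intro v hv
      have h := hUU ((1 : ℂ) + v * I) 1 (-1) (by
            refine (norm_add_le _ _).trans ?_
            rw [norm_mul, Complex.norm_I, mul_one, Complex.norm_real,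
              Real.norm_eq_abs, norm_one]
            linarith) (by rw [norm_one]; norm_num) (by rw [norm_neg, norm_one]; norm_num)
      have hre : (((al γ : ℂ)) ^ 2 / 4 * (((1 : ℂ) + v * I) ^ 2 * (L1 : ℂ) + (1 : ℂ) ^ 2 * (L1 : ℂ) +
          (-1 : ℂ) ^ 2 * (L2 : ℂ) + 2 * ((1 : ℂ) + v * I) * 1 * (T1 : ℂ) +
          2 * ((1 : ℂ) + v * I) * (-1) * (L2 : ℂ) + 2 * 1 * (-1) * (T2 : ℂ))).re =
          A2 * ((2 - v ^ 2) * L1 - L2 + 2 * (T1 - T2)) := by
        have : (((al γ : ℂ)) ^ 2 / 4 * (((1 : ℂ) + v * I) ^ 2 * (L1 : ℂ) + (1 : ℂ) ^ 2 * (L1 : ℂ) +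
          (-1 : ℂ) ^ 2 * (L2 : ℂ) + 2 * ((1 : ℂ) + v * I) * 1 * (T1 : ℂ) +
          2 * ((1 : ℂ) + v * I) * (-1) * (L2 : ℂ) + 2 * 1 * (-1) * (T2 : ℂ))) =
          ((A2 * ((2 - v ^ 2) * L1 - L2 + 2 * (T1 - T2)) : ℝ) : ℂ) +
          ((A2 * (2 * v * L1 + 2 * v * T1 - 2 * v * L2) : ℝ) : ℂ) * I := by
          rw [hA2]
          push_cast
          ring_nf
          rw [Complex.I_sq]
          ring
        rw [this, Complex.add_re, Complex.ofReal_re, Complex.re_ofReal_mul, Complex.I_re, mul_zero,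
          add_zero]
      rw [hre] at h
      refine le_trans (le_of_eq ?_) (h.trans ?_)
      · congr 1
        refine integral_congr_ae (Filter.Eventually.of_forall fun ω => ?_)
        simp only
        congr 1
        push_cast
        ring
      · rw [mul_assoc C1, mul_assoc C1, ← Real.exp_add, ← Real.exp_add]
        refine mul_le_mul_of_nonneg_left (Real.exp_le_exp.mpr ?_) hC1.le
        have hv2 : v ^ 2 ≤ 1 := by
          rw [← sq_abs]; nlinarith [abs_nonneg v]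
        have hv20 : 0 ≤ v ^ 2 := sq_nonneg v
        have r1 : (2 - v ^ 2) * (L1 - LL) ≤ 2 * C2 := by
          have q1 : |2 - v ^ 2| ≤ 2 := by
            rw [abs_le]; constructor <;> linarith
          calc (2 - v ^ 2) * (L1 - LL) ≤ |(2 - v ^ 2) * (L1 - LL)| :=
                le_abs_self _
            _ = |2 - v ^ 2| * |L1 - LL| := abs_mul _ _
            _ ≤ 2 * C2 := mul_le_mul q1 e1 (abs_nonneg _) (by norm_num)
        have r2 : -(L2 - s) ≤ C2 := by
          rw [abs_le] at e2; linarith [e2.1]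
        have r3 := mul_le_mul_of_nonneg_left (add_le_add (add_le_add r1 r2)
          (mul_le_mul_of_nonneg_left e3 (by norm_num : (0 : ℝ) ≤ 2))) hA2p.le
        linarith [r3])
  refine hwin.trans (le_of_eq ?_)
  rw [show Real.pi / (A2 * LL) = Real.pi / A2 / LL by rw [div_div],
    Real.sqrt_div (by have := Real.pi_pos; positivity)]
  ring

end PM
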