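import Pool.Agent.H24.PM.H5Tools
import Pool.Agent.H51.Rho.M

namespace PM
open MeasureTheory Complex
open Pool.Agent.H85.Rho (pr SS AA AA_le mertens_recip' mertens_prod_up sum_sq_le one_sub_ge_exp mem_pr)

theorem h5_SS_lower : ∀ n : ℕ, 2 ≤ n → Real.log (Real.log n) - 2 ≤ SS n := by
  intro n hn
  have hl : 0 < Real.log (n : ℝ) := Real.log_pos (by exact_mod_cast (by omega : 1 < n))
  have h1 := mertens_prod_up n hn
  have h2 : Real.exp (-(SS n + 2)) ≤ ∏ p ∈ pr 0 n, (1 - (1 : ℝ) / p) := by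
    calc Real.exp (-(SS n + 2))
        ≤ Real.exp (∑ p ∈ pr 0 n, (-((1 : ℝ) / p + 2 * (1 / (p : ℝ)) ^ 2))) := by
          refine Real.exp_le_exp.mpr ?_
          rw [Finset.sum_neg_distrib, Finset.sum_add_distrib, ← Finset.mul_sum]
          have h3 := sum_sq_le n
          simp only [one_div_pow] at h3 ⊢
          unfold SS
          linarith
      _ = ∏ p ∈ pr 0 n, Real.exp (-((1 : ℝ) / p + 2 * (1 / (p : ℝ)) ^ 2)) := Real.exp_sum _ _
      _ ≤ ∏ p ∈ pr 0 n, (1 - (1 : ℝ) / p) := by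
          refine Finset.prod_le_prod (fun p _ => (Real.exp_pos _).le) fun p hp => ?_
          refine one_sub_ge_exp (by positivity) ?_
          have hp2 : (2 : ℝ) ≤ p := by exact_mod_cast (mem_pr.mp hp).2.two_le
          exact one_div_le_one_div_of_le (by norm_num) hp2
  have h3 : Real.exp (-(SS n + 2)) ≤ 1 / Real.log n := h2.trans h1
  rw [one_div, ← Real.exp_log hl, ← Real.exp_neg, Real.exp_le_exp] at h3
  linarith

/-- the floor loses only a constant in the double logarithm -/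
theorem h5_loglog_floor {v : ℝ} (hv : 2 ≤ v) :
    Real.log (Real.log ⌊v⌋₊) ≤ Real.log (Real.log v) ∧
    Real.log (Real.log v) ≤ Real.log (Real.log ⌊v⌋₊) + 1 := by
  have h2 : 2 ≤ ⌊v⌋₊ := Nat.le_floor (by exact_mod_cast hv)
  have h2r : (2 : ℝ) ≤ (⌊v⌋₊ : ℝ) := by exact_mod_cast h2
  have hfl : (⌊v⌋₊ : ℝ) ≤ v := Nat.floor_le (by linarith)
  have hfl2 : v < (⌊v⌋₊ : ℝ) + 1 := Nat.lt_floor_add_one v
  have hlp : 0 < Real.log (⌊v⌋₊ : ℝ) := Real.log_pos (by linarith)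
  have hlv : 0 < Real.log v := Real.log_pos (by linarith)
  refine ⟨Real.log_le_log hlp (Real.log_le_log (by linarith) hfl), ?_⟩
  have h3 : Real.log v ≤ 2 * Real.log (⌊v⌋₊ : ℝ) := by
    have : v ≤ (⌊v⌋₊ : ℝ) ^ 2 := by nlinarith
    calc Real.log v ≤ Real.log ((⌊v⌋₊ : ℝ) ^ 2) := Real.log_le_log (by linarith) this
      _ = _ := by rw [Real.log_pow]; norm_num
  calc Real.log (Real.log v) ≤ Real.log (2 * Real.log (⌊v⌋₊ : ℝ)) := Real.log_le_log hlv h3
    _ = Real.log 2 + Real.log (Real.log (⌊v⌋₊ : ℝ)) := Real.log_mul (by norm_num) hlp.ne'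
    _ ≤ _ := by linarith [Real.log_two_lt_d9]

theorem h5_PrS_eq {u v : ℝ} (hu : 0 ≤ u) (hv : 0 ≤ v) : PrS u v = pr ⌊u⌋₊ ⌊v⌋₊ := by
  ext l
  rw [h5_mem_PrS hv, mem_pr, Nat.floor_lt hu, Nat.le_floor_iff hv]
  tauto

theorem h5_sum_recip_PrS {u v : ℝ} (hu : 0 ≤ u) (huv : u ≤ v) :
    ∑ l ∈ PrS u v, (1 : ℝ) / l = SS ⌊v⌋₊ - SS ⌊u⌋₊ := by
  rw [h5_PrS_eq hu (by linarith), eq_sub_iff_add_eq]
  unfold SS
  have hsub : ⌊u⌋₊ ≤ ⌊v⌋₊ := Nat.floor_le_floor huv
  have hd : Disjoint (pr ⌊u⌋₊ ⌊v⌋₊) (pr 0 ⌊u⌋₊) := by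
    rw [Finset.disjoint_left]
    intro l h1 h2
    rw [mem_pr] at h1 h2
    omega
  rw [← Finset.sum_union hd]
  refine Finset.sum_congr ?_ fun _ _ => rfl
  ext l
  rw [Finset.mem_union, mem_pr, mem_pr, mem_pr]
  constructor
  · rintro (⟨⟨h1, h2⟩, h3⟩ | ⟨⟨h1, h2⟩, h3⟩)
    · exact ⟨⟨by omega, h2⟩, h3⟩
    · exact ⟨⟨h1, by omega⟩, h3⟩
  · rintro ⟨⟨h1, h2⟩, h3⟩
    rcases Nat.lt_or_ge ⌊u⌋₊ l with h | h
    · exact Or.inl ⟨⟨h, h2⟩, h3⟩
    · exact Or.inr ⟨⟨h1, h⟩, h3⟩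

theorem h5_sum_log_PrS {u v : ℝ} (hu : 0 ≤ u) (hv : 2 ≤ v) :
    ∑ l ∈ PrS u v, Real.log l / l ≤ 3 * Real.log v := by
  have h2 : 2 ≤ ⌊v⌋₊ := Nat.le_floor (by exact_mod_cast hv)
  have h2r : (2 : ℝ) ≤ (⌊v⌋₊ : ℝ) := by exact_mod_cast h2
  have hfl : (⌊v⌋₊ : ℝ) ≤ v := Nat.floor_le (by linarith)
  have h1 := AA_le (n := ⌊v⌋₊) (by omega)
  have h3 : ∑ l ∈ PrS u v, Real.log l / l ≤ AA ⌊v⌋₊ := by
    rw [h5_PrS_eq hu (by linarith)]
    unfold AA
    refine Finset.sum_le_sum_of_subset_of_nonneg ?_ ?_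
    · intro l hl
      rw [mem_pr] at hl ⊢
      exact ⟨⟨by omega, hl.1.2⟩, hl.2⟩
    · intro l hl _
      rw [mem_pr] at hl
      exact div_nonneg (Real.log_nonneg (by exact_mod_cast hl.2.one_lt.le)) (by positivity)
  have h4 : Real.log (⌊v⌋₊ : ℝ) ≤ Real.log v := Real.log_le_log (by linarith) hfl
  have h5 : Real.log 4 = 2 * Real.log 2 := by
    rw [show (4 : ℝ) = 2 ^ 2 by norm_num, Real.log_pow]; norm_num
  have h6 : Real.log 2 ≤ Real.log v := Real.log_le_log (by norm_num) hv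
  linarith

theorem h5_exp_sub_one {x B : ℝ} (h : |x| ≤ B) : |Real.exp x - 1| ≤ |x| * Real.exp B := by
  have h1 : Real.exp x ≤ Real.exp B := Real.exp_le_exp.mpr ((le_abs_self x).trans h)
  have hB : (0 : ℝ) ≤ B := (abs_nonneg x).trans h
  have h1B : 1 ≤ Real.exp B := Real.one_le_exp hB
  rw [abs_le]
  constructor
  · have h2 : x + 1 ≤ Real.exp x := Real.add_one_le_exp x
    have h3 : -|x| ≤ x := neg_abs_le x
    nlinarith [abs_nonneg x]
  · have h2 : -x + 1 ≤ Real.exp (-x) := Real.add_one_le_exp (-x)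
    have h3 : Real.exp x - 1 ≤ x * Real.exp x := by
      have h4 : (-x + 1) * Real.exp x ≤ Real.exp (-x) * Real.exp x :=
        mul_le_mul_of_nonneg_right h2 (Real.exp_pos x).le
      rw [← Real.exp_add, neg_add_cancel, Real.exp_zero] at h4
      linarith
    calc Real.exp x - 1 ≤ x * Real.exp x := h3
      _ ≤ |x| * Real.exp x := mul_le_mul_of_nonneg_right (le_abs_self x) (Real.exp_pos x).le
      _ ≤ |x| * Real.exp B := mul_le_mul_of_nonneg_left h1 (abs_nonneg x)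

theorem NTA : S_NTA := by
  obtain ⟨C1, hC1, hM⟩ := mertens_recip'
  refine ⟨2 * C1 + 6 + Real.exp 16 * 48, by positivity, fun u v σ hu huv hσ => ?_⟩
  have hv : 2 ≤ v := hu.trans huv
  have hlu : 0 < Real.log u := Real.log_pos (by linarith)
  have hlv : 0 < Real.log v := Real.log_pos (by linarith)
  have h2u : 2 ≤ ⌊u⌋₊ := Nat.le_floor (by exact_mod_cast hu)
  have h2v : 2 ≤ ⌊v⌋₊ := Nat.le_floor (by exact_mod_cast hv)
  rw [Real.log_div hlv.ne' hlu.ne']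
  have hS := h5_sum_recip_PrS (u := u) (v := v) (by linarith) huv
  have hM1 : SS ⌊v⌋₊ ≤ Real.log (Real.log (⌊v⌋₊ : ℝ)) + C1 := hM _ h2v
  have hM2 : SS ⌊u⌋₊ ≤ Real.log (Real.log (⌊u⌋₊ : ℝ)) + C1 := hM _ h2u
  have hM3 := h5_SS_lower _ h2v
  have hM4 := h5_SS_lower _ h2u
  obtain ⟨hf1, hf2⟩ := h5_loglog_floor hu
  obtain ⟨hg1, hg2⟩ := h5_loglog_floor hv
  have hmain : |CS (PrS u v) σ 0 - ∑ l ∈ PrS u v, (1 : ℝ) / l| ≤ Real.exp 16 * 48 := by
    unfold CS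
    rw [← Finset.sum_sub_distrib]
    calc |∑ l ∈ PrS u v, ((l : ℝ) ^ (-(1 + σ)) * Real.cos (0 * Real.log l) - 1 / l)|
        ≤ ∑ l ∈ PrS u v, |(l : ℝ) ^ (-(1 + σ)) * Real.cos (0 * Real.log l) - 1 / l| :=
          Finset.abs_sum_le_sum_abs _ _
      _ ≤ ∑ l ∈ PrS u v, |σ| * Real.exp 16 * (Real.log l / l) := by
          refine Finset.sum_le_sum fun l hl => ?_
          rw [h5_mem_PrS (by linarith)] at hl
          have hl0 : (0 : ℝ) < l := by linarith [hl.2.1]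
          have hl1 : 0 ≤ Real.log l := Real.log_nonneg (by linarith [hl.2.1])
          rw [zero_mul, Real.cos_zero, mul_one]
          have he : (l : ℝ) ^ (-(1 + σ)) - 1 / l = (1 / l) * (Real.exp (-σ * Real.log l) - 1) := by
            rw [neg_add, Real.rpow_add hl0, Real.rpow_neg_one, Real.rpow_def_of_pos hl0 (-σ)]
            rw [mul_comm (Real.log (l : ℝ)) (-σ)]
            ring
          rw [he, abs_mul, abs_of_pos (by positivity : (0 : ℝ) < 1 / l)]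
          have hx : |-σ * Real.log l| ≤ 16 := by
            rw [abs_mul, abs_neg, abs_of_nonneg hl1]
            exact (mul_le_mul_of_nonneg_left (Real.log_le_log hl0 hl.2.2) (abs_nonneg σ)).trans hσ
          have h5 := h5_exp_sub_one hx
          rw [abs_mul, abs_neg, abs_of_nonneg hl1] at h5
          calc 1 / (l : ℝ) * |Real.exp (-σ * Real.log l) - 1|
              ≤ 1 / (l : ℝ) * (|σ| * Real.log l * Real.exp 16) :=
                mul_le_mul_of_nonneg_left h5 (by positivity)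
            _ = _ := by ring
      _ = |σ| * Real.exp 16 * ∑ l ∈ PrS u v, Real.log l / l := by rw [Finset.mul_sum]
      _ ≤ |σ| * Real.exp 16 * (3 * Real.log v) :=
          mul_le_mul_of_nonneg_left (h5_sum_log_PrS (by linarith) hv) (by positivity)
      _ = Real.exp 16 * (3 * (|σ| * Real.log v)) := by ring
      _ ≤ Real.exp 16 * 48 := by
          refine mul_le_mul_of_nonneg_left ?_ (Real.exp_pos _).le
          linarith
  rw [hS] at hmain
  rw [abs_le] at hmain ⊢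
  constructor <;> linarith [hmain.1, hmain.2]

end PM
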