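import Pool.Agent.H24.PM.H5Tools

namespace PM
open MeasureTheory Complex Filter Topology

/-- (s-1) zeta s, with the value 1 at 1 -/
noncomputable def h5g : ℂ → ℂ := Function.update (fun s => (s - 1) * riemannZeta s) 1 1

theorem h5g_cont : Continuous h5g := by
  rw [continuous_iff_continuousAt]
  intro s
  unfold h5g
  by_cases hs : s = 1
  · subst hs
    exact continuousAt_update_same.mpr riemannZeta_residue_one
  · rw [continuousAt_update_of_ne hs]
    exact ((continuous_id.sub continuous_const).continuousAt).mul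
      (differentiableAt_riemannZeta hs).continuousAt

theorem h5g_ne {s : ℂ} (hs : 1 ≤ s.re) : h5g s ≠ 0 := by
  unfold h5g
  by_cases h : s = 1
  · subst h; simp
  · rw [Function.update_of_ne h]
    exact mul_ne_zero (sub_ne_zero.mpr h) (riemannZeta_ne_zero_of_one_le_re hs)

theorem h5g_bound : ∃ C : ℝ, 0 < C ∧ ∀ s : ℂ, 1 ≤ s.re → s.re ≤ 3 → |s.im| ≤ 1 → s ≠ 1 →
    |Real.log ‖riemannZeta s‖ + Real.log ‖s - 1‖| ≤ C := by
  have hK : IsCompact ((Set.Icc (1 : ℝ) 3) ×ℂ (Set.Icc (-1 : ℝ) 1)) :=
    isCompact_Icc.reProdIm isCompact_Icc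
  have hc : ContinuousOn (fun s => Real.log ‖h5g s‖) ((Set.Icc (1 : ℝ) 3) ×ℂ (Set.Icc (-1 : ℝ) 1)) := by
    refine ContinuousOn.log (h5g_cont.norm.continuousOn) ?_
    intro s hs
    rw [Complex.mem_reProdIm] at hs
    exact norm_ne_zero_iff.mpr (h5g_ne hs.1.1)
  obtain ⟨C, hC⟩ := hK.exists_bound_of_continuousOn hc
  refine ⟨|C| + 1, by positivity, fun s h1 h3 hi hne => ?_⟩
  have hs : s ∈ (Set.Icc (1 : ℝ) 3) ×ℂ (Set.Icc (-1 : ℝ) 1) := by
    rw [Complex.mem_reProdIm]
    exact ⟨⟨h1, h3⟩, abs_le.mp hi⟩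
  have h := hC s hs
  have hg : h5g s = (s - 1) * riemannZeta s := by
    unfold h5g; rw [Function.update_of_ne hne]
  simp only [hg, norm_mul] at h
  rw [Real.log_mul (norm_ne_zero_iff.mpr (sub_ne_zero.mpr hne))
    (norm_ne_zero_iff.mpr (riemannZeta_ne_zero_of_one_le_re h1)), Real.norm_eq_abs] at h
  rw [add_comm]
  linarith [le_abs_self C]

theorem NTC (hNTZ : S_NTZ) : S_NTC := by
  obtain ⟨C1, hC1, h1⟩ := hNTZ
  obtain ⟨C2, hC2, h2⟩ := h5g_bound
  refine ⟨2 * C1 + 2 * C2 + 2, by positivity, fun u v σ τ hu huv hτ hτu hσ => ?_⟩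
  have hv : 2 ≤ v := hu.trans huv
  have hlu : 0 < Real.log u := Real.log_pos (by linarith)
  have hlv : 0 < Real.log v := Real.log_pos (by linarith)
  have hluv : Real.log u ≤ Real.log v := Real.log_le_log (by linarith) huv
  have hσu : |σ| * Real.log u ≤ 16 :=
    (mul_le_mul_of_nonneg_left hluv (abs_nonneg σ)).trans hσ
  have hsplit := h5_CS_split (u := 1) (w := u) (v := v) (σ := σ) (τ := τ) (by norm_num)
    (by linarith) huv
  have hτ0 : 0 < |τ| := by
    rcases (abs_nonneg τ).lt_or_eq with h | h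
    · exact h
    · rw [← h] at hτu; norm_num at hτu
  have hA := h1 v σ τ hv hσ
  have hB := h1 u σ τ hu hσu
  -- the point for a general parameter
  have key : ∀ w : ℝ, u ≤ w → abs (Real.log ‖riemannZeta (1 + 1 / Real.log w + τ * I)‖ +
      Real.log (abs τ)) ≤ C2 + Real.log 2 := by
    intro w huw
    have hlw : 0 < Real.log w := Real.log_pos (by linarith)
    have hluw : Real.log u ≤ Real.log w := Real.log_le_log (by linarith) huw
    have hl2 : (1 / 2 : ℝ) ≤ Real.log w := by
      have : Real.log 2 ≤ Real.log w := Real.log_le_log (by norm_num) (by linarith)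
      linarith [Real.log_two_gt_d9]
    set s : ℂ := (1 + 1 / Real.log w + τ * I : ℂ) with hs
    have hre : s.re = 1 + 1 / Real.log w := by
      rw [hs, ← Complex.ofReal_one, ← Complex.ofReal_div]
      simp
    have him : s.im = τ := by
      rw [hs, ← Complex.ofReal_one, ← Complex.ofReal_div]
      simp
    have hinv : 1 / Real.log w ≤ 2 := by
      rw [div_le_iff₀ hlw]; linarith
    have hinv0 : 0 < 1 / Real.log w := by positivity
    have hne : s ≠ 1 := by
      intro h
      have := congrArg Complex.re h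
      rw [hre] at this
      simp at this
      exact hlw.ne' (by simpa using this)
    have hb := h2 s (by rw [hre]; linarith) (by rw [hre]; linarith) (by rw [him]; exact hτ) hne
    have hsub : s - 1 = ((1 / Real.log w : ℝ) : ℂ) + τ * I := by
      rw [hs]; push_cast; ring
    have hn1 : |τ| ≤ ‖s - 1‖ := by
      have := Complex.abs_im_le_norm (s - 1)
      rwa [hsub, Complex.add_im, Complex.ofReal_im, zero_add, Complex.mul_I_im,
        Complex.ofReal_re, ← hsub] at this
    have hn2 : ‖s - 1‖ ≤ 2 * |τ| := by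
      rw [hsub]
      refine (norm_add_le _ _).trans ?_
      rw [norm_mul, Complex.norm_I, mul_one, Complex.norm_real, Complex.norm_real,
        Real.norm_eq_abs, Real.norm_eq_abs, abs_of_pos hinv0]
      have : 1 / Real.log w ≤ |τ| := by
        rw [div_le_iff₀ hlw]
        exact hτu.trans (mul_le_mul_of_nonneg_left hluw (abs_nonneg τ))
      linarith
    have hl1 : Real.log |τ| ≤ Real.log ‖s - 1‖ := Real.log_le_log hτ0 hn1
    have hl3 : Real.log ‖s - 1‖ ≤ Real.log 2 + Real.log |τ| := by
      rw [← Real.log_mul (by norm_num) hτ0.ne']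
      exact Real.log_le_log (hτ0.trans_le hn1) hn2
    have hl20 : 0 < Real.log 2 := Real.log_pos (by norm_num)
    rw [abs_le] at hb ⊢
    constructor <;> linarith [hb.1, hb.2]
  have hkv := key v huv
  have hku := key u le_rfl
  have hl2 := Real.log_two_lt_d9
  rw [abs_le] at hA hB hkv hku ⊢
  constructor <;> linarith [hA.1, hA.2, hB.1, hB.2, hkv.1, hkv.2, hku.1, hku.2]

end PM
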