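import Pool.Agent.H24.PM.Stmts

/-! upper bound for the prime sums at height at least 1 -/

namespace PM
open MeasureTheory Complex Filter Topology

private lemma NTD_log_bounds {v : ℝ} (hv : 2 ≤ v) : 0 < 1 / Real.log v ∧ 1 / Real.log v ≤ 2 := by
  have h1 : Real.log 2 ≤ Real.log v := Real.log_le_log (by norm_num) hv
  have h2 : (1 / 2 : ℝ) < Real.log 2 := by linarith [Real.log_two_gt_d9]
  refine ⟨by apply one_div_pos.2; linarith, ?_⟩
  rw [div_le_iff₀ (by linarith)]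
  linarith

theorem NTD (hZ : S_NTZ) (hA : S_ZAP) : S_NTD := by
  obtain ⟨C1, hC1, h1⟩ := hZ
  obtain ⟨C2, hC2, h2⟩ := hA
  refine ⟨C1 + Real.log (C2 + 2), by
    have : 0 < Real.log (C2 + 2) := Real.log_pos (by linarith)
    linarith, fun v σ τ hv hτ hσ => ?_⟩
  obtain ⟨e1, e2⟩ := NTD_log_bounds hv
  set ε : ℝ := 1 / Real.log v with hε
  have a1 := (abs_le.1 (h1 v σ τ hv hσ)).2
  have a2 := h2 ε τ |τ| e1 e2 hτ le_rfl
  have hcast : (1 + 1 / (Real.log v : ℂ) + τ * I) = (1 + (ε : ℂ) + τ * I) := by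
    rw [hε]; push_cast; rfl
  rw [hcast] at a1
  -- the sum
  have hs : ‖∑ n ∈ Finset.Icc 1 ⌊|τ|⌋₊, (n : ℂ) ^ (-(1 + ε + τ * I))‖ ≤ 1 + Real.log |τ| := by
    refine (norm_sum_le _ _).trans ?_
    have b1 : ∑ n ∈ Finset.Icc 1 ⌊|τ|⌋₊, ‖(n : ℂ) ^ (-(1 + ε + τ * I))‖ ≤
        ∑ n ∈ Finset.Icc 1 ⌊|τ|⌋₊, ((n : ℝ))⁻¹ := by
      apply Finset.sum_le_sum
      intro n hn
      have hn1 : 1 ≤ n := (Finset.mem_Icc.1 hn).1
      have hn2 : (1 : ℝ) ≤ n := by exact_mod_cast hn1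
      rw [Complex.norm_natCast_cpow_of_pos (by omega)]
      have : (-(1 + (ε : ℂ) + τ * I)).re = -(1 + ε) := by simp
      rw [this, ← Real.rpow_neg_one]
      exact Real.rpow_le_rpow_of_exponent_le hn2 (by linarith)
    refine b1.trans ?_
    have b2 : ∑ n ∈ Finset.Icc 1 ⌊|τ|⌋₊, ((n : ℝ))⁻¹ = ((harmonic ⌊|τ|⌋₊ : ℚ) : ℝ) := by
      rw [harmonic_eq_sum_Icc]
      push_cast
      rfl
    rw [b2]
    refine (harmonic_le_one_add_log _).trans ?_
    have b3 : (0 : ℝ) < ⌊|τ|⌋₊ := by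
      have : 1 ≤ ⌊|τ|⌋₊ := Nat.le_floor (by simpa using hτ)
      exact_mod_cast this
    have := Real.log_le_log b3 (Nat.floor_le (abs_nonneg τ))
    linarith
  have hl : 1 ≤ Real.log (|τ| + 3) := by
    have : Real.log (Real.exp 1) ≤ Real.log (|τ| + 3) := by
      apply Real.log_le_log (Real.exp_pos 1)
      linarith [Real.exp_one_lt_d9]
    rwa [Real.log_exp] at this
  have hz : ‖riemannZeta (1 + ε + τ * I)‖ ≤ (C2 + 2) * Real.log (|τ| + 3) := by
    have c1 := norm_sub_norm_le (riemannZeta (1 + ε + τ * I))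
      (∑ n ∈ Finset.Icc 1 ⌊|τ|⌋₊, (n : ℂ) ^ (-(1 + ε + τ * I)))
    have c2 : Real.log |τ| ≤ Real.log (|τ| + 3) := Real.log_le_log (by linarith) (by linarith)
    nlinarith
  have hlz : Real.log ‖riemannZeta (1 + ε + τ * I)‖ ≤
      Real.log (C2 + 2) + Real.log (Real.log (|τ| + 3)) := by
    rcases eq_or_lt_of_le (norm_nonneg (riemannZeta (1 + ε + τ * I))) with h0 | h0
    · rw [← h0, Real.log_zero]
      have : 0 ≤ Real.log (C2 + 2) := Real.log_nonneg (by linarith)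
      have := Real.log_nonneg hl
      positivity
    · rw [← Real.log_mul (by linarith) (by linarith)]
      exact Real.log_le_log h0 hz
  linarith

end PM
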