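import Pool.Agent.H24.PM.Stmts

/-! lower bound for the prime sums by 3 + 4 cos + cos 2 -/

namespace PM
open MeasureTheory Complex Filter Topology

private lemma NTE_sub (v : ℝ) (hv : 2 ≤ v) : PrS 1 v = insert 2 (PrS 2 v) := by
  ext l
  simp only [PrS, Finset.mem_filter, Finset.mem_range, Finset.mem_insert]
  constructor
  · rintro ⟨h1, h2, h3⟩
    by_cases h : l = 2
    · exact Or.inl h
    · right
      refine ⟨h1, h2, ?_⟩
      have : 2 < l := lt_of_le_of_ne h2.two_le (Ne.symm h)
      exact_mod_cast this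
  · rintro (h | ⟨h1, h2, h3⟩)
    · subst h
      refine ⟨?_, Nat.prime_two, by norm_num⟩
      have : 2 ≤ ⌊v⌋₊ := Nat.le_floor (by simpa using hv)
      omega
    · exact ⟨h1, h2, by linarith⟩

theorem NTE (hA : S_NTA) (hD : S_NTD) : S_NTE := by
  obtain ⟨C1, hC1, h1⟩ := hA
  obtain ⟨C2, hC2, h2⟩ := hD
  set L : ℝ := Real.exp 16 + |Real.log (Real.log 2)| + C1 with hL
  have hLpos : 0 < L := by positivity
  refine ⟨L + C2 + 1, by positivity, fun v σ τ hv hτ hσ => ?_⟩
  have hlv : Real.log 2 ≤ Real.log v := Real.log_le_log (by norm_num) hv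
  have hl2 : (0 : ℝ) < Real.log 2 := Real.log_pos (by norm_num)
  have hlvpos : 0 < Real.log v := by linarith
  -- CS at zero
  have hzero : CS (PrS 1 v) σ 0 ≤ Real.log (Real.log v) + L := by
    rw [NTE_sub v hv]
    unfold CS
    rw [Finset.sum_insert (by simp [PrS])]
    have e1 := (abs_le.1 (h1 2 v σ le_rfl hv hσ)).2
    unfold CS at e1
    have e2 : ((2 : ℕ) : ℝ) ^ (-(1 + σ)) * Real.cos (0 * Real.log ((2 : ℕ) : ℝ)) ≤ Real.exp 16 := by
      rw [zero_mul, Real.cos_zero, mul_one]
      rw [Real.rpow_def_of_pos (by norm_num)]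
      apply Real.exp_le_exp.2
      push_cast
      have e3 : |σ| * Real.log 2 ≤ 16 := by
        have : |σ| * Real.log 2 ≤ |σ| * Real.log v := by gcongr
        linarith
      have e4 : -σ * Real.log 2 ≤ |σ| * Real.log 2 := by
        have := neg_le_abs σ
        nlinarith
      nlinarith
    have e5 : Real.log (Real.log v / Real.log 2) = Real.log (Real.log v) - Real.log (Real.log 2) :=
      Real.log_div (by linarith) (by linarith)
    have e6 := neg_le_abs (Real.log (Real.log 2))
    linarith
  -- CS at twice tau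
  have htwo : CS (PrS 1 v) σ (2 * τ) ≤ Real.log (Real.log (|τ| + 3)) + 1 + C2 := by
    have e1 := h2 v σ (2 * τ) hv (by rw [abs_mul, abs_two]; linarith) hσ
    have e2 : Real.log (Real.log (|2 * τ| + 3)) ≤ Real.log (Real.log (|τ| + 3)) + 1 := by
      have f0 : 0 < Real.log (|τ| + 3) := Real.log_pos (by linarith)
      have f1 : Real.log (|2 * τ| + 3) ≤ 2 * Real.log (|τ| + 3) := by
        rw [show (2 : ℝ) * Real.log (|τ| + 3) = Real.log ((|τ| + 3) ^ 2) by
          rw [Real.log_pow]; norm_num]
        apply Real.log_le_log (by positivity)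
        rw [abs_mul, abs_two]
        nlinarith
      have f2 : 0 < Real.log (|2 * τ| + 3) := Real.log_pos (by
        have := abs_nonneg (2 * τ); linarith)
      have f3 := Real.log_le_log f2 f1
      rw [Real.log_mul (by norm_num) f0.ne'] at f3
      linarith [Real.log_two_lt_d9]
    linarith
  have hpos : 0 ≤ 3 * CS (PrS 1 v) σ 0 + 4 * CS (PrS 1 v) σ τ + CS (PrS 1 v) σ (2 * τ) := by
    unfold CS
    rw [Finset.mul_sum, Finset.mul_sum, ← Finset.sum_add_distrib, ← Finset.sum_add_distrib]
    apply Finset.sum_nonneg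
    intro l _
    have g1 : 0 ≤ (l : ℝ) ^ (-(1 + σ)) := by positivity
    rw [zero_mul, Real.cos_zero, show 2 * τ * Real.log l = 2 * (τ * Real.log l) by ring,
      Real.cos_two_mul]
    nlinarith [mul_nonneg g1 (sq_nonneg (1 + Real.cos (τ * Real.log l)))]
  have hll : 0 ≤ Real.log (Real.log (|τ| + 3)) := by
    apply Real.log_nonneg
    have : Real.log (Real.exp 1) ≤ Real.log (|τ| + 3) := by
      apply Real.log_le_log (Real.exp_pos 1)
      linarith [Real.exp_one_lt_d9]
    rwa [Real.log_exp] at this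
  nlinarith

end PM
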