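import Pool.Agent.H24.PM.Stmts

/-! exponential moments of the prime sums -/

namespace PM
open MeasureTheory Complex Filter Topology

private lemma NTF_log_bounds {v : ℝ} (hv : 2 ≤ v) : 0 < 1 / Real.log v ∧ 1 / Real.log v ≤ 2 := by
  have h1 : Real.log 2 ≤ Real.log v := Real.log_le_log (by norm_num) hv
  have h2 : (1 / 2 : ℝ) < Real.log 2 := by linarith [Real.log_two_gt_d9]
  refine ⟨by apply one_div_pos.2; linarith, ?_⟩
  rw [div_le_iff₀ (by linarith)]
  linarith

theorem NTF (hZ : S_NTZ) (hA : S_ZAP) (hM : S_MVT) : S_NTF := by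
  obtain ⟨C1, hC1, h1⟩ := hZ
  obtain ⟨C2, hC2, h2⟩ := hA
  intro β hβ
  set m : ℕ := ⌈β⌉₊ with hm
  have hmβ : β ≤ (2 * m : ℕ) := by
    have e1 : β ≤ m := Nat.le_ceil β
    push_cast
    have e2 : (0 : ℝ) ≤ m := by positivity
    linarith
  obtain ⟨C3, hC3, h3⟩ := hM m
  set K : ℝ := 2 ^ (2 * m - 1) with hK
  have hKpos : 0 < K := by positivity
  refine ⟨Real.exp (β * C1) * (1 + K * C2 ^ (2 * m) + K * C3), by positivity,
    fun T v σ hT hv hσ => ?_⟩
  obtain ⟨e1, e2⟩ := NTF_log_bounds hv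
  set ε : ℝ := 1 / Real.log v with hε
  set S : ℝ → ℂ := fun τ => ∑ n ∈ Finset.Icc 1 ⌊T⌋₊, (n : ℂ) ^ (-(1 + ε + τ * I)) with hS
  have hScont : Continuous S := by
    apply continuous_finset_sum
    intro n hn
    have hn1 : n ≠ 0 := by
      have := (Finset.mem_Icc.1 hn).1
      omega
    apply Continuous.const_cpow (by fun_prop)
    left
    exact_mod_cast hn1
  have hpt : ∀ τ ∈ Set.Icc (1 : ℝ) T, Real.exp (β * CS (PrS 1 v) σ τ) ≤
      Real.exp (β * C1) * (1 + K * C2 ^ (2 * m)) + Real.exp (β * C1) * K * ‖S τ‖ ^ (2 * m) := by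
    intro τ hτ
    have a1 := (abs_le.1 (h1 v σ τ hv hσ)).2
    have hτ1 : |τ| = τ := abs_of_pos (by linarith [hτ.1])
    have a2 := h2 ε τ T e1 e2 (by rw [hτ1]; exact hτ.1) (by rw [hτ1]; exact hτ.2)
    have hcast : (1 + 1 / (Real.log v : ℂ) + τ * I) = (1 + (ε : ℂ) + τ * I) := by
      rw [hε]; push_cast; rfl
    rw [hcast] at a1
    set z : ℝ := ‖riemannZeta (1 + ε + τ * I)‖ with hz
    have hz0 : 0 < z := by
      rw [hz, norm_pos_iff]
      apply riemannZeta_ne_zero_of_one_lt_re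
      simp [e1]
    have b1 : Real.exp (β * CS (PrS 1 v) σ τ) ≤ Real.exp (β * C1) * z ^ β := by
      rw [Real.rpow_def_of_pos hz0, ← Real.exp_add]
      apply Real.exp_le_exp.2
      nlinarith
    have b2 : z ^ β ≤ 1 + z ^ (2 * m) := by
      rcases le_or_gt z 1 with h | h
      · have c1 : z ^ β ≤ 1 := Real.rpow_le_one hz0.le h hβ.le
        have c2 : 0 ≤ z ^ (2 * m) := by positivity
        linarith
      · have c1 : z ^ β ≤ z ^ ((2 * m : ℕ) : ℝ) := Real.rpow_le_rpow_of_exponent_le h.le hmβ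
        rw [Real.rpow_natCast] at c1
        linarith
    have b3 : z ≤ ‖S τ‖ + C2 := by
      have := norm_sub_norm_le (riemannZeta (1 + ε + τ * I)) (S τ)
      simp only [hS] at this ⊢
      linarith
    have b4 : z ^ (2 * m) ≤ K * (‖S τ‖ ^ (2 * m) + C2 ^ (2 * m)) := by
      refine (pow_le_pow_left₀ hz0.le b3 _).trans ?_
      exact add_pow_le (norm_nonneg _) hC2.le _
    have b5 : 0 < Real.exp (β * C1) := Real.exp_pos _
    calc Real.exp (β * CS (PrS 1 v) σ τ) ≤ Real.exp (β * C1) * z ^ β := b1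
      _ ≤ Real.exp (β * C1) * (1 + K * (‖S τ‖ ^ (2 * m) + C2 ^ (2 * m))) := by
          gcongr
          linarith
      _ = _ := by ring
  have hi1 : IntervalIntegrable (fun τ => Real.exp (β * CS (PrS 1 v) σ τ)) volume 1 T := by
    apply Continuous.intervalIntegrable
    unfold CS
    fun_prop
  have hi2 : IntervalIntegrable (fun τ : ℝ => ‖S τ‖ ^ (2 * m)) volume 1 T :=
    (hScont.norm.pow _).intervalIntegrable _ _
  have hmono := intervalIntegral.integral_mono_on hT hi1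
    ((intervalIntegrable_const (c := Real.exp (β * C1) * (1 + K * C2 ^ (2 * m)))).add
      (hi2.const_mul (Real.exp (β * C1) * K))) hpt
  refine hmono.trans ?_
  rw [intervalIntegral.integral_add intervalIntegrable_const (hi2.const_mul _),
    intervalIntegral.integral_const, intervalIntegral.integral_const_mul, smul_eq_mul]
  have c1 : ∫ τ in (1 : ℝ)..T, ‖S τ‖ ^ (2 * m) ≤ C3 * T := h3 ε T e1 e2 hT
  have c2 : Real.exp (β * C1) * K * ∫ τ in (1 : ℝ)..T, ‖S τ‖ ^ (2 * m) ≤
      Real.exp (β * C1) * K * (C3 * T) := by gcongr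
  have c3 : (T - 1) * (Real.exp (β * C1) * (1 + K * C2 ^ (2 * m))) ≤
      T * (Real.exp (β * C1) * (1 + K * C2 ^ (2 * m))) := by
    gcongr
    linarith
  calc _ ≤ T * (Real.exp (β * C1) * (1 + K * C2 ^ (2 * m))) + Real.exp (β * C1) * K * (C3 * T) :=
        add_le_add c3 c2
    _ = _ := by ring

end PM
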