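import Pool.Agent.H24.PM.Stmts
import Pool.Agent.H51.Rho.M

/-! Module NTZ: the prime sums are logarithms of zeta on the right of the line 1. -/

namespace PM
open MeasureTheory Complex

theorem ntz_PrS (v : ℝ) : PrS 1 v = Pool.Agent.H85.Rho.pr 0 ⌊v⌋₊ := by
  ext l
  unfold PrS
  rw [Finset.mem_filter, Finset.mem_range, Pool.Agent.H85.Rho.mem_pr, Nat.lt_succ_iff]
  constructor
  · rintro ⟨h1, h2, _⟩
    exact ⟨⟨h2.pos, h1⟩, h2⟩
  · rintro ⟨⟨_, h1⟩, h2⟩
    exact ⟨h1, h2, by exact_mod_cast h2.one_lt⟩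

theorem ntz_norm (p : Nat.Primes) (s : ℂ) : ‖((p : ℕ) : ℂ) ^ (-s)‖ = ((p : ℕ) : ℝ) ^ (-s.re) := by
  rw [Complex.norm_natCast_cpow_of_pos p.2.pos, Complex.neg_re]

/-- the logarithm of zeta is the sum over the primes, up to a constant -/
theorem ntz_A {s : ℂ} (hs : 1 < s.re) :
    |Real.log ‖riemannZeta s‖ - (∑' p : Nat.Primes, ((p : ℕ) : ℂ) ^ (-s)).re| ≤
      ∑' p : Nat.Primes, ((p : ℕ) : ℝ) ^ (-2 : ℝ) := by
  have hsum2 : Summable (fun p : Nat.Primes => ((p : ℕ) : ℝ) ^ (-2 : ℝ)) :=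
    Nat.Primes.summable_rpow.2 (by norm_num)
  have hsum1 : Summable (fun p : Nat.Primes => ((p : ℕ) : ℂ) ^ (-s)) := by
    refine Summable.of_norm ?_
    simp only [ntz_norm]
    exact Nat.Primes.summable_rpow.2 (by linarith)
  have hz : ∀ p : Nat.Primes, ‖((p : ℕ) : ℂ) ^ (-s)‖ ≤ 1 / 2 := by
    intro p
    rw [ntz_norm]
    have h2 : (2 : ℝ) ≤ ((p : ℕ) : ℝ) := by exact_mod_cast p.2.two_le
    calc ((p : ℕ) : ℝ) ^ (-s.re) ≤ ((p : ℕ) : ℝ) ^ (-1 : ℝ) :=
          Real.rpow_le_rpow_of_exponent_le (by linarith) (by linarith)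
      _ = (((p : ℕ) : ℝ))⁻¹ := Real.rpow_neg_one _
      _ ≤ 1 / 2 := by
          rw [one_div]
          exact inv_anti₀ (by norm_num) h2
  have hd : ∀ p : Nat.Primes, ‖-Complex.log (1 - ((p : ℕ) : ℂ) ^ (-s)) - ((p : ℕ) : ℂ) ^ (-s)‖ ≤
      ((p : ℕ) : ℝ) ^ (-2 : ℝ) := by
    intro p
    have h1 := Complex.norm_log_one_add_sub_self_le (z := -((p : ℕ) : ℂ) ^ (-s))
      (by rw [norm_neg]; linarith [hz p])
    rw [norm_neg] at h1
    have h2 : -Complex.log (1 - ((p : ℕ) : ℂ) ^ (-s)) - ((p : ℕ) : ℂ) ^ (-s) =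
        -(Complex.log (1 + -((p : ℕ) : ℂ) ^ (-s)) - -((p : ℕ) : ℂ) ^ (-s)) := by
      rw [← sub_eq_add_neg]; ring
    rw [h2, norm_neg]
    refine h1.trans ?_
    have h3 : (1 - ‖((p : ℕ) : ℂ) ^ (-s)‖)⁻¹ ≤ 2 := by
      rw [inv_le_comm₀ (by linarith [hz p]) (by norm_num)]
      linarith [hz p]
    have h4 : ‖((p : ℕ) : ℂ) ^ (-s)‖ ^ 2 ≤ ((p : ℕ) : ℝ) ^ (-2 : ℝ) := by
      rw [ntz_norm, ← Real.rpow_natCast, ← Real.rpow_mul (by positivity)]
      refine Real.rpow_le_rpow_of_exponent_le (by exact_mod_cast p.2.one_le) ?_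
      push_cast
      linarith
    have h5 : 0 ≤ ‖((p : ℕ) : ℂ) ^ (-s)‖ ^ 2 := by positivity
    nlinarith
  have hsumd : Summable (fun p : Nat.Primes =>
      -Complex.log (1 - ((p : ℕ) : ℂ) ^ (-s)) - ((p : ℕ) : ℂ) ^ (-s)) :=
    Summable.of_norm_bounded hsum2 hd
  have hsuml : Summable (fun p : Nat.Primes => -Complex.log (1 - ((p : ℕ) : ℂ) ^ (-s))) := by
    refine (hsumd.add hsum1).congr fun p => ?_
    ring
  have h1 := riemannZeta_eulerProduct_exp_log hs
  rw [← h1, Complex.norm_exp, Real.log_exp, ← Complex.sub_re, ← hsuml.tsum_sub hsum1]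
  refine (Complex.abs_re_le_norm _).trans ?_
  exact tsum_of_norm_bounded hsum2.hasSum hd

theorem ntz_tail {f : ℕ → ℂ} {g : ℕ → ℝ} (hg : Summable g) (h : ∀ n, ‖f n‖ ≤ g n)
    (S : Finset ℕ) : ‖(∑' n, f n) - ∑ n ∈ S, f n‖ ≤ (∑' n, g n) - ∑ n ∈ S, g n := by
  have hf : Summable f := Summable.of_norm_bounded hg h
  rw [← hf.sum_add_tsum_compl (s := S), ← hg.sum_add_tsum_compl (s := S), add_sub_cancel_left,
    add_sub_cancel_left]
  exact tsum_of_norm_bounded (hg.subtype _).hasSum fun n => h n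

/-- zeta to the right of 1 -/
theorem ntz_zeta : ∃ B : ℝ, 0 < B ∧ ∀ ε : ℝ, 0 < ε → ε ≤ 2 →
    ‖riemannZeta (1 + ε)‖ ≤ 1 / ε + B := by
  obtain ⟨B, hB⟩ := (isCompact_Icc (a := (1 : ℝ)) (b := 3)).exists_bound_of_continuousOn
    (f := fun x : ℝ => riemannZeta₀ (x : ℂ))
    (differentiable_riemannZeta₀.continuous.comp Complex.continuous_ofReal).continuousOn
  refine ⟨max B 1, by positivity, fun ε h0 h2 => ?_⟩
  have hne : (1 + ε : ℂ) ≠ 1 := by
    intro h
    have : (ε : ℂ) = 0 := by linear_combination h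
    exact h0.ne' (by exact_mod_cast this)
  rw [riemannZeta_eq_inv_sub_add hne]
  refine (norm_add_le _ _).trans ?_
  have h3 : ‖((1 + ε : ℂ) - 1)⁻¹‖ = 1 / ε := by
    rw [add_sub_cancel_left, norm_inv, Complex.norm_real, Real.norm_of_nonneg h0.le, one_div]
  have h4 := hB (1 + ε) ⟨by linarith, by linarith⟩
  rw [h3]
  push_cast at h4
  linarith [le_max_left B 1]

theorem ntz_tsum {E : Type*} [NormedAddCommGroup E] (f : ℕ → E) :
    ∑' p : Nat.Primes, f p = ∑' n : ℕ, if n.Prime then f n else 0 := by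
  have h := tsum_subtype {p : ℕ | p.Prime} f
  refine h.trans (tsum_congr fun n => ?_)
  rw [Set.indicator_apply]
  rfl

theorem ntz_sum {E : Type*} [NormedAddCommGroup E] (v : ℝ) (F : ℕ → E) :
    ∑ n ∈ Finset.range (⌊v⌋₊ + 1), (if n.Prime then F n else 0) = ∑ n ∈ PrS 1 v, F n := by
  rw [← Finset.sum_filter]
  refine Finset.sum_congr ?_ fun _ _ => rfl
  ext l
  unfold PrS
  rw [Finset.mem_filter, Finset.mem_filter]
  constructor
  · rintro ⟨h1, h2⟩
    exact ⟨h1, h2, by exact_mod_cast h2.one_lt⟩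
  · rintro ⟨h1, h2, _⟩
    exact ⟨h1, h2⟩

/-- Mertens, lower bound -/
theorem ntz_low {n : ℕ} (hn : 2 ≤ n) :
    Real.log (Real.log n) - 2 ≤ ∑ p ∈ Pool.Agent.H85.Rho.pr 0 n, (1 : ℝ) / p := by
  have hl1 : 0 < Real.log (n : ℝ) := Real.log_pos (by norm_cast)
  have h1 : Real.exp (∑ p ∈ Pool.Agent.H85.Rho.pr 0 n, (-((1 : ℝ) / p + 2 * (1 / (p : ℝ)) ^ 2))) ≤
      ∏ p ∈ Pool.Agent.H85.Rho.pr 0 n, (1 - (1 : ℝ) / p) := by
    rw [Real.exp_sum]
    refine Finset.prod_le_prod (fun p _ => (Real.exp_pos _).le) fun p hp => ?_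
    refine Pool.Agent.H85.Rho.one_sub_ge_exp (by positivity) ?_
    have hp2 : (2 : ℝ) ≤ p := by exact_mod_cast (Pool.Agent.H85.Rho.mem_pr.mp hp).2.two_le
    exact one_div_le_one_div_of_le (by norm_num) hp2
  have h2 := h1.trans (Pool.Agent.H85.Rho.mertens_prod_up n hn)
  rw [← Real.le_log_iff_exp_le (by positivity), one_div, Real.log_inv, Finset.sum_neg_distrib,
    Finset.sum_add_distrib, ← Finset.mul_sum] at h2
  have h3 := Pool.Agent.H85.Rho.sum_sq_le n
  simp only [one_div_pow] at h2 h3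
  linarith

theorem ntz_exp {a b K : ℝ} (ha : a ≤ K) (hb : b ≤ K) :
    |Real.exp a - Real.exp b| ≤ |a - b| * Real.exp K := by
  have key : ∀ a b : ℝ, a ≤ b → b ≤ K → Real.exp b - Real.exp a ≤ (b - a) * Real.exp K := by
    intro a b hab hb
    have h1 : Real.exp b - Real.exp a = Real.exp b * (1 - Real.exp (a - b)) := by
      rw [mul_sub, ← Real.exp_add]
      ring_nf
    rw [h1, mul_comm]
    refine mul_le_mul ?_ (Real.exp_le_exp.2 hb) (Real.exp_pos _).le (by linarith)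
    linarith [Real.add_one_le_exp (a - b)]
  rcases le_total a b with h | h
  · rw [abs_sub_comm, abs_of_nonneg (by linarith [Real.exp_le_exp.2 h]), abs_sub_comm,
      abs_of_nonneg (by linarith)]
    exact key a b h hb
  · rw [abs_of_nonneg (by linarith [Real.exp_le_exp.2 h]), abs_of_nonneg (by linarith)]
    exact key b a h ha

/-- changing sigma near the line 1 changes the prime sums by a constant only -/
theorem ntz_D {v σ σ' : ℝ} (τ : ℝ) (hv : 2 ≤ v) (h : |σ| * Real.log v ≤ 16)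
    (h' : |σ'| * Real.log v ≤ 16) :
    |CS (PrS 1 v) σ τ - CS (PrS 1 v) σ' τ| ≤ 96 * Real.exp 16 := by
  have hL : 0 < Real.log v := Real.log_pos (by linarith)
  have hn : 2 ≤ ⌊v⌋₊ := Nat.le_floor (by exact_mod_cast hv)
  unfold CS
  rw [← Finset.sum_sub_distrib]
  refine (Finset.abs_sum_le_sum_abs _ _).trans ?_
  have h1 : ∀ l ∈ PrS 1 v, |(l : ℝ) ^ (-(1 + σ)) * Real.cos (τ * Real.log l) -
      (l : ℝ) ^ (-(1 + σ')) * Real.cos (τ * Real.log l)| ≤
      32 * Real.exp 16 / Real.log v * (Real.log l / l) := by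
    intro l hl
    rw [ntz_PrS, Pool.Agent.H85.Rho.mem_pr] at hl
    have hl0 : (0 : ℝ) < l := by exact_mod_cast hl.2.pos
    have hl1 : 0 ≤ Real.log l := Real.log_nonneg (by exact_mod_cast hl.2.one_lt.le)
    have hlv : Real.log l ≤ Real.log v := by
      refine Real.log_le_log hl0 ?_
      exact (Nat.le_floor_iff (by linarith)).1 hl.1.2
    have hb : ∀ x : ℝ, |x| * Real.log v ≤ 16 → -x * Real.log l ≤ 16 := by
      intro x hx
      have h2 : |x| * Real.log l ≤ |x| * Real.log v :=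
        mul_le_mul_of_nonneg_left hlv (abs_nonneg x)
      have h3 : -x * Real.log l ≤ |x| * Real.log l :=
        mul_le_mul_of_nonneg_right (neg_le_abs x) hl1
      linarith
    have hr : ∀ x : ℝ, (l : ℝ) ^ (-(1 + x)) = (l : ℝ)⁻¹ * Real.exp (-x * Real.log l) := by
      intro x
      rw [neg_add, Real.rpow_add hl0, Real.rpow_neg_one, Real.rpow_def_of_pos hl0]
      congr 2
      ring
    rw [← sub_mul, abs_mul]
    refine (mul_le_mul_of_nonneg_left (Real.abs_cos_le_one _) (abs_nonneg _)).trans ?_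
    rw [mul_one, hr, hr, ← mul_sub, abs_mul, abs_of_nonneg (inv_nonneg.2 hl0.le)]
    have h2 := ntz_exp (hb σ h) (hb σ' h')
    have h3 : |-σ * Real.log l - -σ' * Real.log l| ≤ 32 / Real.log v * Real.log l := by
      have e : -σ * Real.log l - -σ' * Real.log l = (σ' - σ) * Real.log l := by ring
      rw [e, abs_mul, abs_of_nonneg hl1]
      refine mul_le_mul_of_nonneg_right ?_ hl1
      rw [le_div_iff₀ hL]
      calc |σ' - σ| * Real.log v ≤ (|σ'| + |σ|) * Real.log v :=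
            mul_le_mul_of_nonneg_right (abs_sub _ _) hL.le
        _ ≤ 32 := by linarith
    calc (l : ℝ)⁻¹ * |Real.exp (-σ * Real.log l) - Real.exp (-σ' * Real.log l)|
        ≤ (l : ℝ)⁻¹ * (32 / Real.log v * Real.log l * Real.exp 16) := by
          refine mul_le_mul_of_nonneg_left (h2.trans ?_) (inv_nonneg.2 hl0.le)
          exact mul_le_mul_of_nonneg_right h3 (Real.exp_pos _).le
      _ = 32 * Real.exp 16 / Real.log v * (Real.log l / l) := by
          field_simp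
  refine (Finset.sum_le_sum h1).trans ?_
  rw [← Finset.mul_sum, ntz_PrS]
  have h2 : ∑ i ∈ Pool.Agent.H85.Rho.pr 0 ⌊v⌋₊, Real.log i / i ≤ 3 * Real.log v := by
    have h3 := Pool.Agent.H85.Rho.AA_le (n := ⌊v⌋₊) (by omega)
    unfold Pool.Agent.H85.Rho.AA at h3
    have h4 : Real.log ⌊v⌋₊ ≤ Real.log v := by
      refine Real.log_le_log (by exact_mod_cast (by omega : 0 < ⌊v⌋₊)) ?_
      exact Nat.floor_le (by linarith)
    have h5 : Real.log 4 = 2 * Real.log 2 := by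
      rw [show (4 : ℝ) = 2 ^ 2 by norm_num, Real.log_pow]
      norm_num
    have h6 : Real.log 2 ≤ Real.log v := Real.log_le_log (by norm_num) hv
    linarith
  calc 32 * Real.exp 16 / Real.log v * ∑ i ∈ Pool.Agent.H85.Rho.pr 0 ⌊v⌋₊, Real.log i / i
      ≤ 32 * Real.exp 16 / Real.log v * (3 * Real.log v) :=
        mul_le_mul_of_nonneg_left h2 (by positivity)
    _ = 96 * Real.exp 16 := by
        field_simp
        ring

/-- **NTZ** -/
theorem NTZ : S_NTZ := by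
  obtain ⟨B, hB0, hB⟩ := ntz_zeta
  have hC1 : 0 ≤ ∑' p : Nat.Primes, ((p : ℕ) : ℝ) ^ (-2 : ℝ) := tsum_nonneg fun p => by positivity
  refine ⟨96 * Real.exp 16 + 96 * Real.exp 16 + 2 * B + 4 +
    2 * (∑' p : Nat.Primes, ((p : ℕ) : ℝ) ^ (-2 : ℝ)), by positivity, ?_⟩
  intro v σ τ hv hσ
  generalize hC : ∑' p : Nat.Primes, ((p : ℕ) : ℝ) ^ (-2 : ℝ) = C1 at hC1 ⊢
  have hL : 0 < Real.log v := Real.log_pos (by linarith)
  have hl2 : Real.log 2 ≤ Real.log v := Real.log_le_log (by norm_num) hv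
  have hl2' := Real.log_two_gt_d9
  have hn : 2 ≤ ⌊v⌋₊ := Nat.le_floor (by exact_mod_cast hv)
  have hε0 : 0 < 1 / Real.log v := by positivity
  have hε2 : 1 / Real.log v ≤ 2 := by
    rw [div_le_iff₀ hL]; linarith
  have hεL : |1 / Real.log v| * Real.log v ≤ 16 := by
    rw [abs_of_pos hε0, one_div, inv_mul_cancel₀ hL.ne']
    norm_num
  generalize hε : 1 / Real.log v = ε at *
  -- the prime sums
  have key : ∀ t : ℝ, |Real.log ‖riemannZeta (1 + (ε : ℂ) + t * I)‖ -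
      (∑' n : ℕ, if n.Prime then (n : ℂ) ^ (-(1 + (ε : ℂ) + t * I)) else 0).re| ≤ C1 := by
    intro t
    have h1 := ntz_A (s := 1 + (ε : ℂ) + t * I) (by simp; linarith)
    rw [hC, ntz_tsum (fun n => (n : ℂ) ^ (-(1 + (ε : ℂ) + t * I)))] at h1
    exact h1
  have hg : Summable (fun n : ℕ => if n.Prime then (n : ℝ) ^ (-(1 + ε)) else 0) := by
    refine Summable.of_nonneg_of_le (fun n => ?_) (fun n => ?_)
      (Real.summable_nat_rpow.2 (show -(1 + ε) < -1 by linarith))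
    · split_ifs <;> positivity
    · split_ifs
      · exact le_refl _
      · positivity
  have hre : ∀ (t : ℝ) (l : ℕ), l.Prime → ((l : ℂ) ^ (-(1 + (ε : ℂ) + t * I))).re =
      (l : ℝ) ^ (-(1 + ε)) * Real.cos (t * Real.log l) := by
    intro t l hl
    have hl0 : (0 : ℝ) < l := by exact_mod_cast hl.pos
    have hlne : (l : ℂ) ≠ 0 := by exact_mod_cast hl.ne_zero
    rw [Complex.cpow_def_of_ne_zero hlne, ← Complex.ofReal_natCast, ← Complex.ofReal_log hl0.le]
    have e : (Real.log l : ℂ) * (-(1 + (ε : ℂ) + t * I)) =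
        ((-(1 + ε) * Real.log l : ℝ) : ℂ) + ((-(t * Real.log l) : ℝ) : ℂ) * I := by
      push_cast
      ring
    rw [e, Complex.exp_add_mul_I]
    rw [← Complex.ofReal_exp, ← Complex.ofReal_cos, ← Complex.ofReal_sin, Complex.re_ofReal_mul]
    simp only [Complex.add_re, Complex.ofReal_re, Complex.mul_re, Complex.I_re, Complex.I_im,
      Complex.ofReal_im, mul_zero, mul_one, sub_zero, add_zero]
    rw [Real.cos_neg, Real.rpow_def_of_pos hl0, mul_comm (Real.log (l : ℝ))]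
  have hnm : ∀ (t : ℝ) (n : ℕ), ‖(if n.Prime then (n : ℂ) ^ (-(1 + (ε : ℂ) + t * I)) else 0)‖ ≤
      (if n.Prime then (n : ℝ) ^ (-(1 + ε)) else 0) := by
    intro t n
    split_ifs with h
    · rw [Complex.norm_natCast_cpow_of_pos h.pos]
      simp
    · simp
  have htail : ∀ t : ℝ,
      |(∑' n : ℕ, if n.Prime then (n : ℂ) ^ (-(1 + (ε : ℂ) + t * I)) else 0).re -
        CS (PrS 1 v) ε t| ≤ (∑' n : ℕ, if n.Prime then (n : ℝ) ^ (-(1 + ε)) else 0) -
        CS (PrS 1 v) ε 0 := by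
    intro t
    have h1 := ntz_tail hg (hnm t) (Finset.range (⌊v⌋₊ + 1))
    rw [ntz_sum v (fun n : ℕ => (n : ℂ) ^ (-(1 + (ε : ℂ) + t * I))),
      ntz_sum v (fun n : ℕ => (n : ℝ) ^ (-(1 + ε)))] at h1
    have h2 : CS (PrS 1 v) ε t = (∑ n ∈ PrS 1 v, (n : ℂ) ^ (-(1 + (ε : ℂ) + t * I))).re := by
      rw [Complex.re_sum]
      refine Finset.sum_congr rfl fun l hl => ?_
      rw [ntz_PrS, Pool.Agent.H85.Rho.mem_pr] at hl
      exact (hre t l hl.2).symm
    have h3 : CS (PrS 1 v) ε 0 = ∑ n ∈ PrS 1 v, (n : ℝ) ^ (-(1 + ε)) := by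
      refine Finset.sum_congr rfl fun l hl => ?_
      rw [zero_mul, Real.cos_zero, mul_one]
    rw [h2, h3, ← Complex.sub_re]
    exact (Complex.abs_re_le_norm _).trans h1
  -- the tail
  have hre0 : (∑' n : ℕ, if n.Prime then (n : ℂ) ^ (-(1 + (ε : ℂ) + (0 : ℝ) * I)) else 0).re =
      ∑' n : ℕ, if n.Prime then (n : ℝ) ^ (-(1 + ε)) else 0 := by
    have h1 : Summable (fun n : ℕ => if n.Prime then (n : ℂ) ^ (-(1 + (ε : ℂ) + (0 : ℝ) * I))
        else 0) := Summable.of_norm_bounded hg (hnm 0)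
    rw [Complex.re_tsum h1]
    refine tsum_congr fun n => ?_
    split_ifs with h
    · rw [hre 0 n h, zero_mul, Real.cos_zero, mul_one]
    · simp
  have h1 := key 0
  rw [hre0] at h1
  have h2 : Real.log ‖riemannZeta (1 + (ε : ℂ) + (0 : ℝ) * I)‖ ≤
      Real.log (Real.log v) + 2 * B := by
    have h3 := hB ε hε0 hε2
    have h4 : (1 : ℂ) + ε + (0 : ℝ) * I = 1 + ε := by simp
    rw [h4]
    have h5 : 1 / ε = Real.log v := by
      rw [← hε, one_div_one_div]
    rw [h5] at h3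
    have hz : riemannZeta (1 + ε) ≠ 0 := riemannZeta_ne_zero_of_one_le_re (by simp; linarith)
    calc Real.log ‖riemannZeta (1 + ε)‖ ≤ Real.log (Real.log v + B) :=
          Real.log_le_log (norm_pos_iff.2 hz) h3
      _ = Real.log (Real.log v * (1 + B / Real.log v)) := by
          congr 1
          field_simp
      _ = Real.log (Real.log v) + Real.log (1 + B / Real.log v) :=
          Real.log_mul hL.ne' (by positivity)
      _ ≤ Real.log (Real.log v) + 2 * B := by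
          have h6 := Real.log_le_sub_one_of_pos (x := 1 + B / Real.log v) (by positivity)
          have h7 : B / Real.log v ≤ 2 * B := by
            rw [div_le_iff₀ hL]
            nlinarith
          linarith
  have h3 : Real.log (Real.log v) - 3 ≤ CS (PrS 1 v) 0 0 := by
    have h4 : CS (PrS 1 v) 0 0 = ∑ p ∈ Pool.Agent.H85.Rho.pr 0 ⌊v⌋₊, (1 : ℝ) / p := by
      unfold CS
      rw [ntz_PrS]
      refine Finset.sum_congr rfl fun l hl => ?_
      rw [zero_mul, Real.cos_zero, mul_one, add_zero, Real.rpow_neg_one, one_div]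
    rw [h4]
    have h5 := ntz_low hn
    have hn0 : 0 < Real.log (⌊v⌋₊ : ℝ) := Real.log_pos (by exact_mod_cast (by omega : 1 < ⌊v⌋₊))
    have h6 : Real.log v ≤ 2 * Real.log ⌊v⌋₊ := by
      have h7 : v ≤ (⌊v⌋₊ : ℝ) ^ 2 := by
        have h8 := Nat.lt_floor_add_one v
        have h9 : (2 : ℝ) ≤ ⌊v⌋₊ := by exact_mod_cast hn
        nlinarith
      calc Real.log v ≤ Real.log ((⌊v⌋₊ : ℝ) ^ 2) := Real.log_le_log (by linarith) h7
        _ = 2 * Real.log ⌊v⌋₊ := by rw [Real.log_pow]; norm_num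
    have h7 : Real.log (Real.log v) ≤ Real.log 2 + Real.log (Real.log ⌊v⌋₊) := by
      rw [← Real.log_mul (by norm_num) hn0.ne']
      exact Real.log_le_log hL h6
    have h8 := Real.log_two_lt_d9
    linarith
  have h4 := ntz_D 0 hv hεL (by simp : |(0 : ℝ)| * Real.log v ≤ 16)
  have h5 := ntz_D τ hv hσ hεL
  have h6 := htail τ
  have h7 := key τ
  have e1 : (1 : ℂ) + ((1 / Real.log v : ℝ) : ℂ) = 1 + ε := by rw [hε]
  rw [abs_le] at h1 h4 h5 h6 h7 ⊢
  have e2 : (1 : ℂ) + 1 / (Real.log v : ℂ) + τ * I = 1 + ε + τ * I := by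
    rw [← e1]
    push_cast
    ring
  rw [e2]
  constructor <;> linarith [h1.1, h1.2, h4.1, h4.2, h5.1, h5.2, h6.1, h6.2, h7.1, h7.2]

end PM
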