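import Pool.Agent.H24.PM.H5Exp

namespace PM
open MeasureTheory Complex

/-- continuity and boundedness of one field -/
theorem h5_field (hGC : S_GC) {γ : ℝ} {p0 : ℕ} (hg : Good γ p0) {A : Finset ℕ} (hA : PA p0 A)
    {σ : ℝ} (hL : Ln A σ) (t : ℝ) : Continuous (fun ω : Om => G γ A σ t ω) ∧
    ∀ ω : Om, |G γ A σ t ω| ≤ A.card := by
  obtain ⟨hc1, -, hb1⟩ := hGC γ p0 hg A hA σ hL
  have h1 : Continuous (fun ω : Om => (t, ω)) := Continuous.prodMk_right t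
  exact ⟨Continuous.comp (g := fun q : ℝ × Om => G γ A σ q.1 q.2) (f := fun ω : Om => (t, ω)) hc1 h1,
    hb1 t⟩

theorem ONE (hMOM : S_MOM) (hGC : S_GC) (hNTA : S_NTA) : S_ONE := by
  intro γ p0 hg
  obtain ⟨C1, hC1, hU⟩ := h5_MOM2 hMOM γ p0 hg 2
  have hp2 := h5_two_le hg
  obtain ⟨C2, hC2, hL⟩ := h5_LLB hNTA p0 hp2
  have hα := h5_al_pos γ
  obtain ⟨A2, hA2⟩ : ∃ A2 : ℝ, A2 = (al γ) ^ 2 / 4 := ⟨_, rfl⟩
  have hA2p : 0 < A2 := by rw [hA2]; positivity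
  refine ⟨2 * (C1 * Real.exp (2 * A2 * C2) * Real.sqrt (Real.pi / A2)), Real.exp 3,
    by have := Real.pi_pos; positivity, le_rfl, ?_⟩
  intro y θ x t s hy hθ0 hθ1 hs
  have hy0 : 0 < y := (Real.exp_pos 3).trans_le hy
  have hly : 3 ≤ Real.log y := by
    rw [← Real.log_exp 3]; exact Real.log_le_log (Real.exp_pos 3) hy
  have hy1 : 1 < y := lt_of_lt_of_le (by rw [← Real.exp_zero]; exact Real.exp_lt_exp.mpr (by norm_num)) hy
  have hye : Real.exp 1 ≤ y := (Real.exp_le_exp.mpr (by norm_num)).trans hy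
  have hxs := h5_xs_le hy hs
  have hLL0 : 0 < Real.log (Real.log y) := Real.log_pos (by linarith)
  obtain ⟨LL, hLL⟩ : ∃ LL : ℝ, LL = Real.log (Real.log y) := ⟨_, rfl⟩
  obtain ⟨σ, hσ⟩ : ∃ σ : ℝ, σ = 2 / Real.log y := ⟨_, rfl⟩
  rw [← hLL, ← hσ, ← hA2]
  rw [← hLL] at hLL0 hs
  have hPA1 : PA p0 (PrS p0 y) := h5_PA le_rfl
  have hPA2 : PA p0 (PrS p0 (xs s)) := h5_PA le_rfl
  have hLn1 : Ln (PrS p0 y) σ := by
    rw [hσ]
    exact h5_Ln (by positivity) hy0.le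
      ((h5_abs_div 2 (by norm_num) hy1 hy0 le_rfl).trans (by norm_num))
  have hLn2 : Ln (PrS p0 (xs s)) σ := by
    rw [hσ]
    exact h5_Ln (by positivity) (h5_xs_pos s).le
      ((h5_abs_div 2 (by norm_num) hy1 (h5_xs_pos s) hxs).trans (by norm_num))
  have h4 : σ + σ = 4 / Real.log y := by rw [hσ]; ring
  have e1 := hL y (σ + σ) hye (by
    rw [h4]; exact (h5_abs_div 4 (by norm_num) hy1 hy0 le_rfl).trans (by norm_num))
  have e2 := hL (xs s) (σ + σ) (h5_xs_ge s) (by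
    rw [h4]; exact (h5_abs_div 4 (by norm_num) hy1 (h5_xs_pos s) hxs).trans (by norm_num))
  rw [h5_xs_log, Real.log_exp] at e2
  rw [← hLL] at e1
  obtain ⟨hX, hb1⟩ := h5_field hGC hg hPA1 hLn1 t
  obtain ⟨hY, hb2⟩ := h5_field hGC hg hPA2 hLn2 t
  have hUU := fun a1 a2 h1 h2 => hU a1 a2 (PrS p0 y) (PrS p0 (xs s)) σ t t h1 h2 hPA1 hPA2 hLn1 hLn2
  rw [h5_PrS_inter (h5_xs_pos s).le hxs, sub_self] at hUU
  clear hU hL hPA1 hPA2 hLn1 hLn2
  obtain ⟨X, hXe⟩ : ∃ X : Om → ℝ, X = fun ω : Om => G γ (PrS p0 y) σ t ω := ⟨_, rfl⟩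
  obtain ⟨Y, hYe⟩ : ∃ Y : Om → ℝ, Y = fun ω : Om => G γ (PrS p0 (xs s)) σ t ω := ⟨_, rfl⟩
  have eX : ∀ ω, G γ (PrS p0 y) σ t ω = X ω := fun ω => by rw [hXe]
  have eY : ∀ ω, G γ (PrS p0 (xs s)) σ t ω = Y ω := fun ω => by rw [hYe]
  rw [← hXe] at hX
  rw [← hYe] at hY
  simp only [eX, eY] at hb1 hb2 hUU ⊢
  obtain ⟨L1, hL1⟩ : ∃ L1 : ℝ, L1 = CS (PrS p0 y) (σ + σ) 0 := ⟨_, rfl⟩
  obtain ⟨L2, hL2⟩ : ∃ L2 : ℝ, L2 = CS (PrS p0 (xs s)) (σ + σ) 0 := ⟨_, rfl⟩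
  rw [← hL1] at e1
  rw [← hL2] at e2
  simp only [← hL1, ← hL2] at hUU
  clear hXe hYe eX eY hL1 hL2
  have hwin := h5win1 (X := X) (H := fun ω : Om => X ω - θ * (X ω - Y ω))
    hX (hX.sub (continuous_const.mul (hX.sub hY)))
    (B := (PrS p0 y).card + ((PrS p0 y).card + (PrS p0 (xs s)).card)) (by
      intro ω
      have g1 := hb1 ω
      have g2 := hb2 ω
      rw [abs_le] at g1 g2
      have g3 : -(θ * (X ω - Y ω)) ≤ ((PrS p0 y).card + (PrS p0 (xs s)).card : ℝ) := by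
        have g4 : -(((PrS p0 y).card + (PrS p0 (xs s)).card : ℝ)) ≤ (X ω - Y ω) := by
          linarith [g1.1, g2.2]
        have g5 : (0 : ℝ) ≤ ((PrS p0 y).card + (PrS p0 (xs s)).card : ℝ) := by positivity
        nlinarith
      linarith [g1.2]) x
    (K := C1 * Real.exp (2 * A2 * C2) * Real.exp (A2 * (s + (1 - θ) ^ 2 * (LL - s))))
    (c := A2 * LL) (by positivity) (by positivity) (by
      intro v hv
      have h := hUU (((1 - θ : ℝ) : ℂ) + v * I) (θ : ℂ) (by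
            refine (norm_add_le _ _).trans ?_
            rw [norm_mul, Complex.norm_I, mul_one, Complex.norm_real, Complex.norm_real,
              Real.norm_eq_abs, Real.norm_eq_abs, abs_of_nonneg (by linarith)]
            linarith) (by
            rw [Complex.norm_real, Real.norm_eq_abs, abs_of_nonneg hθ0]
            linarith)
      have hre : (((al γ : ℂ)) ^ 2 / 4 * ((((1 - θ : ℝ) : ℂ) + v * I) ^ 2 * (L1 : ℂ) +
          2 * (((1 - θ : ℝ) : ℂ) + v * I) * (θ : ℂ) * (L2 : ℂ) + (θ : ℂ) ^ 2 * (L2 : ℂ))).re =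
          A2 * (((1 - θ) ^ 2 - v ^ 2) * L1 + (1 - (1 - θ) ^ 2) * L2) := by
        have : (((al γ : ℂ)) ^ 2 / 4 * ((((1 - θ : ℝ) : ℂ) + v * I) ^ 2 * (L1 : ℂ) +
          2 * (((1 - θ : ℝ) : ℂ) + v * I) * (θ : ℂ) * (L2 : ℂ) + (θ : ℂ) ^ 2 * (L2 : ℂ))) =
          ((A2 * (((1 - θ) ^ 2 - v ^ 2) * L1 + (1 - (1 - θ) ^ 2) * L2) : ℝ) : ℂ) +
          ((A2 * (2 * (1 - θ) * v * L1 + 2 * v * θ * L2) : ℝ) : ℂ) * I := by
          rw [hA2]
          push_cast
          ring_nf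
          rw [Complex.I_sq]
          ring
        rw [this, Complex.add_re, Complex.ofReal_re, Complex.re_ofReal_mul, Complex.I_re, mul_zero,
          add_zero]
      rw [hre] at h
      refine le_trans (le_of_eq ?_) (h.trans ?_)
      · congr 1
        refine integral_congr_ae (Filter.Eventually.of_forall fun ω => ?_)
        simp only
        congr 1
        push_cast
        ring
      · rw [mul_assoc C1, mul_assoc C1, ← Real.exp_add, ← Real.exp_add]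
        refine mul_le_mul_of_nonneg_left (Real.exp_le_exp.mpr ?_) hC1.le
        have hv2 : v ^ 2 ≤ 1 := by
          rw [← sq_abs]; nlinarith [abs_nonneg v]
        have hv20 : 0 ≤ v ^ 2 := sq_nonneg v
        have hθ2 : (1 - θ) ^ 2 ≤ 1 := by nlinarith
        have hθ20 : 0 ≤ (1 - θ) ^ 2 := sq_nonneg _
        have r1 : ((1 - θ) ^ 2 - v ^ 2) * (L1 - LL) ≤ C2 := by
          have q1 : |(1 - θ) ^ 2 - v ^ 2| ≤ 1 := by
            rw [abs_le]; constructor <;> linarith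
          calc ((1 - θ) ^ 2 - v ^ 2) * (L1 - LL) ≤ |((1 - θ) ^ 2 - v ^ 2) * (L1 - LL)| :=
                le_abs_self _
            _ = |(1 - θ) ^ 2 - v ^ 2| * |L1 - LL| := abs_mul _ _
            _ ≤ 1 * C2 := mul_le_mul q1 e1 (abs_nonneg _) (by norm_num)
            _ = C2 := one_mul _
        have r2 : (1 - (1 - θ) ^ 2) * (L2 - s) ≤ C2 := by
          have q1 : |1 - (1 - θ) ^ 2| ≤ 1 := by
            rw [abs_le]; constructor <;> linarith
          calc (1 - (1 - θ) ^ 2) * (L2 - s) ≤ |(1 - (1 - θ) ^ 2) * (L2 - s)| :=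
                le_abs_self _
            _ = |1 - (1 - θ) ^ 2| * |L2 - s| := abs_mul _ _
            _ ≤ 1 * C2 := mul_le_mul q1 e2 (abs_nonneg _) (by norm_num)
            _ = C2 := one_mul _
        have r3 := mul_le_mul_of_nonneg_left (add_le_add r1 r2) hA2p.le
        linarith [r3])
  refine hwin.trans (le_of_eq ?_)
  rw [show Real.pi / (A2 * LL) = Real.pi / A2 / LL by rw [div_div],
    Real.sqrt_div (by have := Real.pi_pos; positivity)]
  ring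

end PM
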