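import Pool.Agent.H24.PM.PLU

/-! Module PLT: Plancherel for the tails of the Euler product. -/

namespace PM
open MeasureTheory Complex

theorem PLT (hP : S_PM) (hE : S_EUL) : S_PLT := by
  intro γ A σ ω hA hσ hσ'
  have h0 : ∑' n : ℕ, plu_cf γ A ω n = F γ A 0 0 ω := by
    rw [← plu_F_eq hE γ A ω hA 0 0 (by norm_num)]
    refine tsum_congr fun n => ?_
    simp
  have h := hP (plu_cf γ A ω) σ hσ (plu_cf_zero γ A ω) (by
    refine (plu_summable_cf hE γ A ω hA (-σ) (by linarith)).congr fun n => ?_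
    rw [neg_neg])
  rw [h0] at h
  have h1 : (fun z : ℝ => ‖F γ A 0 0 ω - DA γ A z ω‖ ^ 2 * z ^ (2 * σ - 1)) =
      fun z : ℝ => ‖F γ A 0 0 ω - ∑ n ∈ Finset.Icc 1 ⌊z⌋₊, plu_cf γ A ω n‖ ^ 2 *
        z ^ (2 * σ - 1) := by
    funext z
    rw [plu_DA_eq]
  rw [h1]
  refine ⟨h.1, h.2.trans (le_of_eq ?_)⟩
  congr 1
  unfold JF
  refine integral_congr_ae (Filter.Eventually.of_forall fun t => ?_)
  simp only
  have h2 := plu_F_eq hE γ A ω hA (-σ) t (by linarith)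
  rw [← h2]
  push_cast
  ring_nf

end PM
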