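import Pool.Agent.H24.PM.Stmts

/-! Module PLU: Plancherel for the partial sums of the Euler product. -/

namespace PM
open MeasureTheory Complex

/-- the coefficients -/
noncomputable def plu_cf (γ : ℝ) (A : Finset ℕ) (ω : Om) (n : ℕ) : ℂ :=
  if n.primeFactors ⊆ A then (b γ n : ℂ) * chi n ω else 0

theorem plu_norm_zc (x : UnitAddCircle) : ‖zc x‖ = 1 := by
  unfold zc; exact Circle.norm_coe _

theorem plu_norm_chi' (n : ℕ) (ω : Om) : ‖chi n ω‖ = 1 := by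
  unfold chi
  rw [norm_prod]
  exact Finset.prod_eq_one fun p _ => by rw [norm_pow, plu_norm_zc, one_pow]

theorem plu_b_zero (γ : ℝ) : b γ 0 = 0 := by unfold b; simp

theorem plu_b_nonneg (γ : ℝ) (n : ℕ) : 0 ≤ b γ n := by unfold b; positivity

theorem plu_cf_zero (γ : ℝ) (A : Finset ℕ) (ω : Om) : plu_cf γ A ω 0 = 0 := by
  unfold plu_cf; simp [plu_b_zero]

theorem plu_norm_cf (γ : ℝ) (A : Finset ℕ) (ω : Om) (n : ℕ) :
    ‖plu_cf γ A ω n‖ = if n.primeFactors ⊆ A then b γ n else 0 := by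
  unfold plu_cf
  split_ifs with h
  · rw [norm_mul, plu_norm_chi', mul_one, Complex.norm_real, Real.norm_of_nonneg (plu_b_nonneg γ n)]
  · simp

theorem plu_DA_eq (γ : ℝ) (A : Finset ℕ) (z : ℝ) (ω : Om) :
    DA γ A z ω = ∑ n ∈ Finset.Icc 1 ⌊z⌋₊, plu_cf γ A ω n := by
  unfold DA plu_cf
  rw [Finset.sum_filter]

theorem plu_summable_cf (hE : S_EUL) (γ : ℝ) (A : Finset ℕ) (ω : Om) (hA : ∀ l ∈ A, l.Prime)
    (σ : ℝ) (hσ : -(1 / 2) < σ) : Summable (fun n : ℕ => ‖plu_cf γ A ω n‖ * (n : ℝ) ^ (-σ)) := by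
  refine (hE γ A σ 0 ω hA hσ).1.congr fun n => ?_
  rw [plu_norm_cf]
  split_ifs <;> simp

theorem plu_summable_cf0 (hE : S_EUL) (γ : ℝ) (A : Finset ℕ) (ω : Om) (hA : ∀ l ∈ A, l.Prime) :
    Summable (fun n : ℕ => ‖plu_cf γ A ω n‖) := by
  refine (plu_summable_cf hE γ A ω hA 0 (by norm_num)).congr fun n => ?_
  simp

theorem plu_F_eq (hE : S_EUL) (γ : ℝ) (A : Finset ℕ) (ω : Om) (hA : ∀ l ∈ A, l.Prime)
    (σ t : ℝ) (hσ : -(1 / 2) < σ) :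
    ∑' n : ℕ, plu_cf γ A ω n * (n : ℂ) ^ (-(σ + t * I)) = F γ A σ t ω := by
  rw [← (hE γ A σ t ω hA hσ).2.tsum_eq]
  refine tsum_congr fun n => ?_
  unfold plu_cf
  split_ifs <;> simp

theorem PLU (hP : S_PP) (hE : S_EUL) : S_PLU := by
  intro γ A σ ω hA hσ
  have h := hP (plu_cf γ A ω) σ hσ (plu_cf_zero γ A ω) (plu_summable_cf0 hE γ A ω hA)
  unfold JD JF
  have h1 : (fun z : ℝ => ‖DA γ A z ω‖ ^ 2 * z ^ (-1 - 2 * σ)) =
      fun z : ℝ => ‖∑ n ∈ Finset.Icc 1 ⌊z⌋₊, plu_cf γ A ω n‖ ^ 2 * z ^ (-1 - 2 * σ) := by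
    funext z
    rw [plu_DA_eq]
  rw [h1, h]
  congr 1
  refine integral_congr_ae (Filter.Eventually.of_forall fun t => ?_)
  simp only
  rw [plu_F_eq hE γ A ω hA σ t (by linarith)]

end PM
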