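import Pool.Agent.H24.PM.Stmts
import Pool.Agent.H36.PM.Key

/-! Module PM: Plancherel inequality for the tails of a Dirichlet series. -/

namespace PM
open MeasureTheory Complex

/-- the step functions on the left -/
noncomputable def gst (n : ℕ) (z : ℝ) : ℂ := if z < (n : ℝ) then 1 else 0

theorem gst_prod (n m : ℕ) (w : ℝ → ℝ) (z : ℝ) :
    gst n z * (starRingEnd ℂ) (gst m z) * (w z : ℂ) =
      Set.indicator (Set.Iio ((min n m : ℕ) : ℝ)) (fun z => (w z : ℂ)) z := by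
  unfold gst
  by_cases h1 : z < (n : ℝ)
  · by_cases h2 : z < (m : ℝ)
    · have : z ∈ Set.Iio ((min n m : ℕ) : ℝ) := by
        simp only [Set.mem_Iio, Nat.cast_min, lt_min_iff]
        exact ⟨h1, h2⟩
      rw [Set.indicator_of_mem this]
      simp [h1, h2]
    · have : z ∉ Set.Iio ((min n m : ℕ) : ℝ) := by
        simp only [Set.mem_Iio, Nat.cast_min, lt_min_iff]
        tauto
      rw [Set.indicator_of_notMem this]
      simp [h2]
  · have : z ∉ Set.Iio ((min n m : ℕ) : ℝ) := by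
      simp only [Set.mem_Iio, Nat.cast_min, lt_min_iff]
      tauto
    rw [Set.indicator_of_notMem this]
    simp [h1]

theorem pm_int0 (M : ℕ) {σ : ℝ} (hσ : 0 < σ) :
    IntegrableOn (fun z : ℝ => z ^ (2 * σ - 1)) (Set.Ioo (0 : ℝ) M) := by
  have hM : (0 : ℝ) ≤ M := Nat.cast_nonneg M
  have h := intervalIntegral.intervalIntegrable_rpow' (a := 0) (b := (M : ℝ))
    (r := 2 * σ - 1) (by linarith)
  rw [intervalIntegrable_iff_integrableOn_Ioo_of_le hM] at h
  exact h

theorem pm_left_int (n m : ℕ) {σ : ℝ} (hσ : 0 < σ) :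
    IntegrableOn (fun z : ℝ => gst n z * (starRingEnd ℂ) (gst m z) * ((z ^ (2 * σ - 1) : ℝ) : ℂ))
      (Set.Ioi 0) := by
  have h := fun z => gst_prod n m (fun z : ℝ => z ^ (2 * σ - 1)) z
  simp_rw [h]
  rw [integrableOn_indicator_iff measurableSet_Iio, Set.inter_comm, Set.Ioi_inter_Iio]
  exact (pm_int0 (min n m) hσ).ofReal

theorem pm_left_val {n m : ℕ} (hn : n ≠ 0) (hm : m ≠ 0) {σ : ℝ} (hσ : 0 < σ) :
    ∫ z in Set.Ioi (0 : ℝ), gst n z * (starRingEnd ℂ) (gst m z) * ((z ^ (2 * σ - 1) : ℝ) : ℂ) =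
      ((1 / (2 * Real.pi) * (Real.exp (-(-σ * (Real.log n + Real.log m))) *
      (Real.pi / σ * Real.exp (-(σ * |Real.log m - Real.log n|)))) : ℝ) : ℂ) := by
  have hM : 1 ≤ min n m := le_min (Nat.pos_of_ne_zero hn) (Nat.pos_of_ne_zero hm)
  have hM' : (0 : ℝ) < ((min n m : ℕ) : ℝ) := by exact_mod_cast hM
  have h := fun z => gst_prod n m (fun z : ℝ => z ^ (2 * σ - 1)) z
  simp_rw [h]
  rw [setIntegral_indicator measurableSet_Iio, Set.Ioi_inter_Iio, ← integral_Ioc_eq_integral_Ioo,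
    ← intervalIntegral.integral_of_le hM'.le, intervalIntegral.integral_ofReal,
    integral_rpow (Or.inl (by linarith))]
  congr 1
  have e1 : Real.exp (-(-σ * (Real.log n + Real.log m))) *
      (Real.pi / σ * Real.exp (-(σ * |Real.log m - Real.log n|))) =
      Real.pi / σ * Real.exp (σ * (Real.log n + Real.log m - |Real.log m - Real.log n|)) := by
    rw [show σ * (Real.log n + Real.log m - |Real.log m - Real.log n|) =
      -(-σ * (Real.log n + Real.log m)) + -(σ * |Real.log m - Real.log n|) by ring, Real.exp_add]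
    ring
  have hn' : (0 : ℝ) < n := by exact_mod_cast Nat.pos_of_ne_zero hn
  have hm' : (0 : ℝ) < m := by exact_mod_cast Nat.pos_of_ne_zero hm
  have e2 : Real.log n + Real.log m - |Real.log m - Real.log n| =
      2 * Real.log ((min n m : ℕ) : ℝ) := by
    rcases le_total n m with hnm | hnm
    · have hl : Real.log n ≤ Real.log m := Real.log_le_log hn' (by exact_mod_cast hnm)
      rw [min_eq_left hnm, abs_of_nonneg (by linarith)]
      ring
    · have hl : Real.log m ≤ Real.log n := Real.log_le_log hm' (by exact_mod_cast hnm)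
      rw [min_eq_right hnm, abs_of_nonpos (by linarith)]
      ring
  have h2σ : (2 * σ : ℝ) ≠ 0 := by positivity
  rw [e1, e2, show (2 * σ - 1 + 1 : ℝ) = 2 * σ by ring, Real.zero_rpow h2σ,
    Real.rpow_def_of_pos hM',
    show σ * (2 * Real.log ((min n m : ℕ) : ℝ)) = Real.log ((min n m : ℕ) : ℝ) * (2 * σ) by ring]
  have := Real.pi_pos
  field_simp
  ring

theorem pm_fin (c : ℕ → ℂ) {σ : ℝ} (hσ : 0 < σ) (N : ℕ) :
    ∫ z in Set.Ioi (0 : ℝ), ‖∑ n ∈ Finset.Icc 1 N, c n * gst n z‖ ^ 2 * z ^ (2 * σ - 1) =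
      1 / (2 * Real.pi) * ∫ t : ℝ,
      ‖∑ n ∈ Finset.Icc 1 N, c n * (n : ℂ) ^ (-((-σ : ℝ) + t * I) : ℂ)‖ ^ 2 *
        (σ ^ 2 + t ^ 2)⁻¹ := by
  have hne : ∀ n ∈ Finset.Icc 1 N, n ≠ 0 := fun n hn => by
    simp only [Finset.mem_Icc] at hn; omega
  have h1 := gram (volume.restrict (Set.Ioi (0 : ℝ))) (Finset.Icc 1 N) c gst
    (fun z => z ^ (2 * σ - 1)) _
    (fun n _ m _ => pm_left_int n m hσ)
    (fun n hn m hm => pm_left_val (hne n hn) (hne m hm) hσ)
  have h2 := gram volume (Finset.Icc 1 N) c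
    (fun n (t : ℝ) => (n : ℂ) ^ (-((-σ : ℝ) + t * I) : ℂ))
    (fun t : ℝ => (σ ^ 2 + t ^ 2)⁻¹) _
    (fun n hn m hm => kern_integrable (hne n hn) (hne m hm) (-σ) hσ)
    (fun n hn m hm => kern_integral (hne n hn) (hne m hm) (-σ) hσ)
  have h3 : (((∫ z in Set.Ioi (0 : ℝ), ‖∑ n ∈ Finset.Icc 1 N, c n * gst n z‖ ^ 2 *
      z ^ (2 * σ - 1)) : ℝ) : ℂ) = ((1 / (2 * Real.pi) * ∫ t : ℝ,
      ‖∑ n ∈ Finset.Icc 1 N, c n * (n : ℂ) ^ (-((-σ : ℝ) + t * I) : ℂ)‖ ^ 2 *
        (σ ^ 2 + t ^ 2)⁻¹ : ℝ) : ℂ) := by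
    rw [h1, Complex.ofReal_mul, h2, Finset.mul_sum]
    refine Finset.sum_congr rfl fun n _ => ?_
    rw [Finset.mul_sum]
    refine Finset.sum_congr rfl fun m _ => ?_
    push_cast
    ring
  exact_mod_cast h3

theorem pm_meas (c : ℕ → ℂ) (σ : ℝ) (N : ℕ) :
    Measurable (fun z : ℝ => ‖∑ n ∈ Finset.Icc 1 N, c n * gst n z‖ ^ 2 * z ^ (2 * σ - 1)) := by
  refine Measurable.mul (Measurable.pow_const (Measurable.norm ?_) 2)
    (measurable_id.pow_const _)
  refine Finset.measurable_fun_sum _ fun n _ => Measurable.const_mul ?_ _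
  unfold gst
  exact Measurable.ite measurableSet_Iio measurable_const measurable_const

theorem pm_fin_int (c : ℕ → ℂ) {σ : ℝ} (hσ : 0 < σ) (N : ℕ) :
    IntegrableOn (fun z : ℝ => ‖∑ n ∈ Finset.Icc 1 N, c n * gst n z‖ ^ 2 * z ^ (2 * σ - 1))
      (Set.Ioi 0) := by
  have hdom : IntegrableOn (Set.indicator (Set.Ioo (0 : ℝ) N)
      (fun z : ℝ => (∑ n ∈ Finset.Icc 1 N, ‖c n‖) ^ 2 * z ^ (2 * σ - 1))) (Set.Ioi 0) := by
    refine Integrable.integrableOn ?_
    rw [integrable_indicator_iff measurableSet_Ioo]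
    exact (pm_int0 N hσ).const_mul _
  refine Integrable.mono' hdom (pm_meas c σ N).aestronglyMeasurable ?_
  refine (ae_restrict_iff' measurableSet_Ioi).mpr (Filter.Eventually.of_forall fun z hz => ?_)
  have hz0 : (0 : ℝ) < z := hz
  rw [Real.norm_of_nonneg (by positivity)]
  by_cases hzN : z < N
  · rw [Set.indicator_of_mem (show z ∈ Set.Ioo (0 : ℝ) N from ⟨hz0, hzN⟩)]
    have hb : ‖∑ n ∈ Finset.Icc 1 N, c n * gst n z‖ ≤ ∑ n ∈ Finset.Icc 1 N, ‖c n‖ := by
      refine (norm_sum_le _ _).trans (Finset.sum_le_sum fun n _ => ?_)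
      rw [norm_mul]
      have : ‖gst n z‖ ≤ 1 := by
        unfold gst
        split_ifs <;> simp
      calc ‖c n‖ * ‖gst n z‖ ≤ ‖c n‖ * 1 := by gcongr
        _ = ‖c n‖ := mul_one _
    gcongr
  · have hz2 : ∑ n ∈ Finset.Icc 1 N, c n * gst n z = 0 := by
      refine Finset.sum_eq_zero fun n hn => ?_
      simp only [Finset.mem_Icc] at hn
      have : ¬ (z < (n : ℝ)) := by
        intro h
        apply hzN
        exact lt_of_lt_of_le h (by exact_mod_cast hn.2)
      simp [gst, this]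
    rw [hz2, Set.indicator_of_notMem (fun h => hzN h.2)]
    simp

set_option linter.dupNamespace false in
theorem PM : S_PM := by
  intro c σ hσ h0 hs
  have hc : Summable (fun n => ‖c n‖) := by
    refine Summable.of_nonneg_of_le (fun n => norm_nonneg _) (fun n => ?_) hs
    rcases Nat.eq_zero_or_pos n with rfl | hn
    · simp [h0]
    · have : 1 ≤ (n : ℝ) ^ σ := Real.one_le_rpow (by exact_mod_cast hn) hσ.le
      calc ‖c n‖ = ‖c n‖ * 1 := (mul_one _).symm
        _ ≤ ‖c n‖ * (n : ℝ) ^ σ := by gcongr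
  have hs' : Summable (fun n : ℕ => ‖c n‖ * (n : ℝ) ^ (-(-σ))) := by simpa using hs
  have hR := (rhs_tendsto c (-σ) hσ h0 hs').const_mul (1 / (2 * Real.pi))
  set R : ℝ := 1 / (2 * Real.pi) * ∫ t : ℝ,
    ‖∑' n : ℕ, c n * (n : ℂ) ^ (-((-σ : ℝ) + t * I) : ℂ)‖ ^ 2 * (σ ^ 2 + t ^ 2)⁻¹ with hRdef
  set E : ℝ → ℝ := fun z : ℝ => ‖(∑' n : ℕ, c n) - ∑ n ∈ Finset.Icc 1 ⌊z⌋₊, c n‖ ^ 2 *
    z ^ (2 * σ - 1) with hE
  set EN : ℕ → ℝ → ℝ := fun N z => ‖∑ n ∈ Finset.Icc 1 N, c n * gst n z‖ ^ 2 *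
    z ^ (2 * σ - 1) with hEN
  -- pointwise convergence
  have hpt : ∀ z : ℝ, 0 ≤ z → Filter.Tendsto (fun N => EN N z) Filter.atTop (nhds (E z)) := by
    intro z hz
    refine Filter.Tendsto.mul_const _ ((Filter.Tendsto.norm ?_).pow 2)
    have ht := hc.of_norm.hasSum.tendsto_sum_nat
    have ht2 := (ht.comp (Filter.tendsto_add_atTop_nat 1)).sub_const
      (∑ n ∈ Finset.Icc 1 ⌊z⌋₊, c n)
    refine ht2.congr' ?_
    filter_upwards [Filter.eventually_ge_atTop ⌊z⌋₊] with N hN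
    simp only [Function.comp]
    have e1 : ∑ n ∈ Finset.range (N + 1), c n = ∑ n ∈ Finset.Icc 1 N, c n := by
      symm
      refine Finset.sum_subset ?_ ?_
      · intro n hn
        simp only [Finset.mem_Icc, Finset.mem_range] at hn ⊢
        omega
      · intro n hn hn2
        simp only [Finset.mem_Icc, Finset.mem_range] at hn hn2
        have : n = 0 := by omega
        subst this
        exact h0
    have e2 : ∑ n ∈ Finset.Icc 1 ⌊z⌋₊, c n =
        ∑ n ∈ Finset.Icc 1 N, c n * (1 - gst n z) := by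
      rw [← Finset.sum_subset (Finset.Icc_subset_Icc_right hN)]
      rotate_left
      · intro n hn hn2
        have hlt : z < (n : ℝ) := by
          by_contra hle
          apply hn2
          simp only [Finset.mem_Icc] at hn ⊢
          exact ⟨hn.1, Nat.le_floor (not_lt.mp hle)⟩
        simp [gst, hlt]
      · refine Finset.sum_congr rfl fun n hn => ?_
        simp only [Finset.mem_Icc] at hn
        have hle : ¬ (z < (n : ℝ)) := not_lt.mpr ((Nat.le_floor_iff hz).mp hn.2)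
        simp [gst, hle]
    rw [e1, e2, ← Finset.sum_sub_distrib]
    refine Finset.sum_congr rfl fun n _ => ?_
    ring
  have hENm : ∀ N, Measurable (EN N) := fun N => pm_meas c σ N
  have hEm : AEMeasurable E (volume.restrict (Set.Ioi (1 : ℝ))) := by
    refine aemeasurable_of_tendsto_metrizable_ae Filter.atTop
      (fun N => (hENm N).aemeasurable) ?_
    refine (ae_restrict_iff' measurableSet_Ioi).mpr (Filter.Eventually.of_forall fun z hz => ?_)
    exact hpt z (le_of_lt (lt_trans one_pos hz))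
  have hE0 : ∀ z : ℝ, 0 ≤ z → 0 ≤ E z := fun z hz => by
    simp only [hE]
    positivity
  have hEN0 : ∀ N, ∀ z : ℝ, 0 ≤ z → 0 ≤ EN N z := fun N z hz => by
    simp only [hEN]
    positivity
  have hlint : ∫⁻ z in Set.Ioi (1 : ℝ), ENNReal.ofReal (E z) ≤ ENNReal.ofReal R := by
    have h1 : ∫⁻ z in Set.Ioi (1 : ℝ), ENNReal.ofReal (E z) ≤
        ∫⁻ z in Set.Ioi (1 : ℝ), Filter.liminf (fun N => ENNReal.ofReal (EN N z))
          Filter.atTop := by
      refine setLIntegral_mono' measurableSet_Ioi fun z hz => ?_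
      have hz0 : (0 : ℝ) ≤ z := le_of_lt (lt_trans one_pos hz)
      exact le_of_eq (ENNReal.tendsto_ofReal (hpt z hz0)).liminf_eq.symm
    refine h1.trans ((lintegral_liminf_le (fun N => (hENm N).ennreal_ofReal)).trans ?_)
    have h2 : ∀ N, ∫⁻ z in Set.Ioi (1 : ℝ), ENNReal.ofReal (EN N z) ≤
        ENNReal.ofReal (1 / (2 * Real.pi) * ∫ t : ℝ,
        ‖∑ n ∈ Finset.Icc 1 N, c n * (n : ℂ) ^ (-((-σ : ℝ) + t * I) : ℂ)‖ ^ 2 *
          (σ ^ 2 + t ^ 2)⁻¹) := by
      intro N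
      rw [← pm_fin c hσ N, ofReal_integral_eq_lintegral_ofReal (pm_fin_int c hσ N)
        ((ae_restrict_iff' measurableSet_Ioi).mpr (Filter.Eventually.of_forall fun z hz =>
          hEN0 N z (le_of_lt hz)))]
      exact lintegral_mono_set (Set.Ioi_subset_Ioi zero_le_one)
    refine (Filter.liminf_le_liminf (Filter.Eventually.of_forall h2)).trans ?_
    exact le_of_eq (ENNReal.tendsto_ofReal hR).liminf_eq
  have hR0 : 0 ≤ R := by
    simp only [hRdef]
    have : 0 ≤ ∫ t : ℝ, ‖∑' n : ℕ, c n * (n : ℂ) ^ (-((-σ : ℝ) + t * I) : ℂ)‖ ^ 2 *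
      (σ ^ 2 + t ^ 2)⁻¹ := integral_nonneg fun t => by positivity
    have := Real.pi_pos
    positivity
  have hint : IntegrableOn E (Set.Ioi 1) := by
    refine ⟨hEm.aestronglyMeasurable, ?_⟩
    rw [hasFiniteIntegral_iff_ofReal ((ae_restrict_iff' measurableSet_Ioi).mpr
      (Filter.Eventually.of_forall fun z hz => hE0 z (le_of_lt (lt_trans one_pos hz))))]
    exact lt_of_le_of_lt hlint ENNReal.ofReal_lt_top
  refine ⟨hint, ?_⟩
  have hle : ∫ z in Set.Ioi (1 : ℝ), E z ≤ R := by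
    rw [← ENNReal.ofReal_le_ofReal_iff hR0, ofReal_integral_eq_lintegral_ofReal hint
      ((ae_restrict_iff' measurableSet_Ioi).mpr
      (Filter.Eventually.of_forall fun z hz => hE0 z (le_of_lt (lt_trans one_pos hz))))]
    exact hlint
  have hfin : R = 1 / (2 * Real.pi) * ∫ t : ℝ,
      ‖∑' n : ℕ, c n * (n : ℂ) ^ (-(-σ + t * I) : ℂ)‖ ^ 2 / (σ ^ 2 + t ^ 2) := by
    simp only [hRdef]
    congr 1
    refine integral_congr_ae (Filter.Eventually.of_forall fun t => ?_)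
    simp only [div_eq_mul_inv]
    push_cast
    rfl
  rw [← hfin]
  exact hle

end PM
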