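import Pool.Agent.H24.PM.Stmts

/-! Integral of a finite product of functions of distinct coordinates. -/

namespace PM
open MeasureTheory Complex

theorem PROD : S_PROD := by
  intro S g hg
  have h1 : ∀ ω : Om, ∏ l ∈ S, g l (ω l) =
      (fun y : (i : S) → UnitAddCircle => ∏ i : S, g i (y i)) (S.restrict ω) := by
    intro ω
    exact (Finset.prod_coe_sort S (fun l => g l (ω l))).symm
  have h2 : Continuous (fun y : (i : S) → UnitAddCircle => ∏ i : S, g i (y i)) := by
    refine continuous_finsetProd _ (fun i _ => ?_)
    exact (hg i i.2).comp (continuous_apply i)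
  have h3 := integral_restrict_infinitePi (μ := fun _ : ℕ => (volume : Measure UnitAddCircle))
    (s := S) (f := fun y : (i : S) → UnitAddCircle => ∏ i : S, g i (y i)) h2.aestronglyMeasurable
  have h4 : ∫ ω : Om, ∏ l ∈ S, g l (ω l) ∂P =
      ∫ ω : Om, (fun y : (i : S) → UnitAddCircle => ∏ i : S, g i (y i)) (S.restrict ω)
        ∂(Measure.infinitePi fun _ : ℕ => (volume : Measure UnitAddCircle)) := by
    unfold P
    exact integral_congr_ae (Filter.Eventually.of_forall h1)
  rw [h4, h3, integral_fintype_prod_eq_prod (fun (i : S) (x : UnitAddCircle) => g i x)]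
  exact Finset.prod_coe_sort S (fun l => ∫ x : UnitAddCircle, g l x)

end PM
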