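import Pool.Agent.H24.PM.Stmts
import Pool.Agent.H95.PM.Epb

namespace PM
open Finset

theorem fm_mul_prime_le (m : ℕ) {l r : ℕ} (hl : l.Prime) :
    fm m (l * r) ≤ 4 ^ m * (1 / (l : ℝ)) * fm m r := by
  unfold fm
  have hl0 : (0 : ℝ) < l := by exact_mod_cast hl.pos
  have h1 : (l * r).divisors.card ≤ 2 * r.divisors.card := by
    rw [Nat.divisors_mul]
    refine (Finset.card_mul_le).trans ?_
    rw [hl.divisors, Finset.card_pair hl.one_lt.ne]
  have h2 : ((l * r).divisors.card : ℝ) ≤ 2 * r.divisors.card := by exact_mod_cast h1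
  have h3 : ((l * r).divisors.card : ℝ) ^ (2 * m) ≤ 4 ^ m * (r.divisors.card : ℝ) ^ (2 * m) := by
    refine (pow_le_pow_left₀ (by positivity) h2 _).trans ?_
    rw [mul_pow, pow_mul 2 2 m]
    norm_num
  push_cast
  calc ((l * r).divisors.card : ℝ) ^ (2 * m) / ((l : ℝ) * r) ≤
      4 ^ m * (r.divisors.card : ℝ) ^ (2 * m) / ((l : ℝ) * r) :=
        div_le_div_of_nonneg_right h3 (by positivity)
    _ = _ := by
      rcases Nat.eq_zero_or_pos r with rfl | hr
      · simp
      · have : (r : ℝ) ≠ 0 := by positivity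
        field_simp

theorem RS (hBT : S_BT) (hNTA : S_NTA) : S_RS := by
  intro γ
  obtain ⟨m, hm⟩ := exists_nat_ge γ
  obtain ⟨C1, hC1, h1⟩ := sum_fm_band hNTA m
  obtain ⟨C0, hC0, h0⟩ := hBT
  refine ⟨4 ^ m * (8 * C0) * C1, 16, by positivity, by norm_num, fun y v X hy hX hXy hv => ?_⟩
  have hX0 : 0 < X := by linarith
  have hly : 0 < Real.log y := Real.log_pos (by linarith)
  set M := ⌊v * (1 + 1 / X)⌋₊ with hM
  set S := (Finset.Icc 2 M).filter
    (fun r : ℕ => v ≤ r ∧ ∀ l ∈ r.primeFactors, y < (l : ℝ) ∧ (l : ℝ) ≤ y ^ Real.exp 1) with hS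
  set T := (Finset.Icc 1 M).filter
    (fun r : ℕ => r.primeFactors ⊆ PrS y (y ^ Real.exp 1)) with hT
  have hmemS : ∀ r ∈ S, 2 ≤ r ∧ (r : ℝ) ≤ v * (1 + 1 / X) ∧ v ≤ r ∧
      ∀ l ∈ r.primeFactors, y < (l : ℝ) ∧ (l : ℝ) ≤ y ^ Real.exp 1 := by
    intro r hr
    rw [hS, Finset.mem_filter, Finset.mem_Icc] at hr
    exact ⟨hr.1.1, (Nat.le_floor_iff' (by omega)).mp hr.1.2, hr.2.1, hr.2.2⟩
  have hminS : ∀ r ∈ S, r.minFac.Prime ∧ r.minFac * (r / r.minFac) = r ∧ 0 < r / r.minFac ∧
      y < r.minFac := by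
    intro r hr
    obtain ⟨h2, _, _, h5⟩ := hmemS r hr
    have hp := Nat.minFac_prime (show r ≠ 1 by omega)
    refine ⟨hp, Nat.mul_div_cancel' (Nat.minFac_dvd r), ?_, ?_⟩
    · exact Nat.div_pos (Nat.minFac_le (by omega)) hp.pos
    · exact (h5 _ (Nat.mem_primeFactors.mpr ⟨hp, Nat.minFac_dvd r, by omega⟩)).1
  have hmaps : ∀ r ∈ S, r / r.minFac ∈ T := by
    intro r hr
    obtain ⟨h2, h3, _, h5⟩ := hmemS r hr
    obtain ⟨hp, hmul, hpos, _⟩ := hminS r hr
    rw [hT, Finset.mem_filter, Finset.mem_Icc]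
    refine ⟨⟨hpos, ?_⟩, fun l hl => ?_⟩
    · refine (Nat.div_le_self _ _).trans ?_
      rw [hM]
      exact Nat.le_floor h3
    · have hdvd : r / r.minFac ∣ r := Nat.div_dvd_of_dvd (Nat.minFac_dvd r)
      have hl' : l ∈ r.primeFactors := Nat.primeFactors_mono hdvd (by omega) hl
      exact mem_PrS.mpr ⟨Nat.prime_of_mem_primeFactors hl, h5 l hl'⟩
  have hfib : ∀ r' ∈ T, ∑ r ∈ S with r / r.minFac = r', fm m r ≤
      4 ^ m * (8 * C0) / (X * Real.log y) * fm m r' := by
    intro r' hr'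
    rw [hT, Finset.mem_filter, Finset.mem_Icc] at hr'
    set Φ := S.filter (fun r => r / r.minFac = r') with hΦ
    rcases Φ.eq_empty_or_nonempty with he | ⟨r0, hr0⟩
    · rw [he, Finset.sum_empty]
      have := fm_nonneg m r'
      positivity
    have hr'0 : (0 : ℝ) < r' := by exact_mod_cast hr'.1.1
    set u : ℝ := v / r' with hu
    have hu0 : 0 < u := by positivity
    have hmemΦ : ∀ r ∈ Φ, r.minFac.Prime ∧ r.minFac * r' = r ∧ y < r.minFac ∧ u ≤ r.minFac ∧
        (r.minFac : ℝ) ≤ u + u / X := by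
      intro r hr
      rw [hΦ, Finset.mem_filter] at hr
      obtain ⟨hp, hmul, hpos, hyl⟩ := hminS r hr.1
      obtain ⟨h2, h3, h4, h5⟩ := hmemS r hr.1
      rw [hr.2] at hmul
      have hc : (r.minFac : ℝ) * r' = r := by exact_mod_cast hmul
      refine ⟨hp, hmul, hyl, ?_, ?_⟩
      · rw [hu, div_le_iff₀ hr'0, hc]; exact h4
      · have : (r.minFac : ℝ) * r' ≤ (u + u / X) * r' := by
          rw [hc]
          refine h3.trans (le_of_eq ?_)
          rw [hu]
          field_simp
        exact le_of_mul_le_mul_right this hr'0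
    have hr0' := hmemΦ r0 hr0
    have huX : u / X ≤ u := by
      rw [div_le_iff₀ hX0]; nlinarith
    have huy : y / 2 ≤ u := by linarith [hr0'.2.2.1, hr0'.2.2.2.2]
    have hXu : (1 : ℝ) ≤ u / X := by
      rw [le_div_iff₀ hX0, one_mul]
      have : X ^ 2 ≤ (y / 2) ^ 2 := by nlinarith
      have : X ≤ y / 2 := by
        exact (sq_le_sq₀ hX0.le (by linarith)).mp this
      linarith
    have hlogu : Real.log y ≤ 4 * Real.log (u / X) := by
      have h2 : y / 4 ≤ (u / X) ^ 2 := by
        rw [div_pow, le_div_iff₀ (by positivity)]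
        have : (y / 2) ^ 2 ≤ u ^ 2 := pow_le_pow_left₀ (by linarith) huy 2
        nlinarith
      have h3 : Real.log (y / 4) ≤ 2 * Real.log (u / X) := by
        refine (Real.log_le_log (by linarith) h2).trans (le_of_eq ?_)
        rw [Real.log_pow]; norm_num
      rw [Real.log_div (by linarith) (by norm_num)] at h3
      have h4 : 2 * Real.log 4 ≤ Real.log y := by
        have : Real.log (4 ^ 2) ≤ Real.log y := Real.log_le_log (by norm_num) (by linarith)
        rwa [Real.log_pow, Nat.cast_ofNat] at this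
      linarith
    have hcard : (Φ.card : ℝ) ≤ 8 * C0 * u / (X * Real.log y) := by
      have hsub : Φ.card ≤ (PrS (u - 1) ((u - 1) + (u / X + 1))).card := by
        refine Finset.card_le_card_of_injOn (fun r => r.minFac) ?_ ?_
        · intro r hr
          obtain ⟨hp, hmul, hyl, h4, h5⟩ := hmemΦ r hr
          refine mem_PrS.mpr ⟨hp, by linarith, by linarith⟩
        · intro r hr s hs hrs
          have hr2 := (hmemΦ r hr).2.1
          have hs2 := (hmemΦ s hs).2.1
          simp only at hrs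
          rw [← hr2, ← hs2, hrs]
      have hbt := h0 (u - 1) (u / X + 1) (by linarith) (by linarith)
      have hh : 0 < Real.log (u / X + 1) := Real.log_pos (by linarith)
      have hlog2 : Real.log (u / X) ≤ Real.log (u / X + 1) :=
        Real.log_le_log (by linarith) (by linarith)
      have hb2 : C0 * (u / X + 1) / Real.log (u / X + 1) ≤ 8 * C0 * u / (X * Real.log y) := by
        rw [div_le_div_iff₀ hh (by positivity)]
        have e1 : C0 * (u / X + 1) ≤ C0 * (2 * (u / X)) :=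
          mul_le_mul_of_nonneg_left (by linarith) hC0.le
        have e2 : Real.log y ≤ 4 * Real.log (u / X + 1) := by linarith
        calc C0 * (u / X + 1) * (X * Real.log y) ≤ C0 * (2 * (u / X)) * (X * Real.log y) :=
              mul_le_mul_of_nonneg_right e1 (by positivity)
          _ = 2 * C0 * u * Real.log y := by field_simp
          _ ≤ 2 * C0 * u * (4 * Real.log (u / X + 1)) :=
              mul_le_mul_of_nonneg_left e2 (by positivity)
          _ = _ := by ring
      calc (Φ.card : ℝ) ≤ ((PrS (u - 1) ((u - 1) + (u / X + 1))).card : ℝ) := by exact_mod_cast hsub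
        _ ≤ _ := hbt.trans hb2
    calc ∑ r ∈ Φ, fm m r ≤ ∑ r ∈ Φ, 4 ^ m * (1 / u) * fm m r' := by
          refine Finset.sum_le_sum fun r hr => ?_
          obtain ⟨hp, hmul, hyl, h4, h5⟩ := hmemΦ r hr
          conv_lhs => rw [← hmul]
          refine (fm_mul_prime_le m hp).trans ?_
          refine mul_le_mul_of_nonneg_right ?_ (fm_nonneg _ _)
          exact mul_le_mul_of_nonneg_left (one_div_le_one_div_of_le hu0 h4) (by positivity)
      _ = (Φ.card : ℝ) * (4 ^ m * (1 / u) * fm m r') := by rw [Finset.sum_const, nsmul_eq_mul]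
      _ ≤ 8 * C0 * u / (X * Real.log y) * (4 ^ m * (1 / u) * fm m r') := by
          refine mul_le_mul_of_nonneg_right hcard ?_
          have := fm_nonneg m r'
          positivity
      _ = _ := by field_simp
  have hTs : ∀ n ∈ T, n ≠ 0 ∧ n.primeFactors ⊆ PrS y (y ^ Real.exp 1) := by
    intro n hn
    rw [hT, Finset.mem_filter, Finset.mem_Icc] at hn
    exact ⟨by omega, hn.2⟩
  calc ∑ r ∈ S, b γ r ^ 2 ≤ ∑ r ∈ S, fm m r :=
        Finset.sum_le_sum fun r hr => b_sq_le γ m hm r (by have := (hmemS r hr).1; omega)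
    _ = ∑ r' ∈ T, ∑ r ∈ S with r / r.minFac = r', fm m r :=
        (Finset.sum_fiberwise_of_maps_to hmaps _).symm
    _ ≤ ∑ r' ∈ T, 4 ^ m * (8 * C0) / (X * Real.log y) * fm m r' := Finset.sum_le_sum hfib
    _ = 4 ^ m * (8 * C0) / (X * Real.log y) * ∑ r' ∈ T, fm m r' := by rw [Finset.mul_sum]
    _ ≤ 4 ^ m * (8 * C0) / (X * Real.log y) * C1 :=
        mul_le_mul_of_nonneg_left (h1 y T (by linarith) hTs) (by positivity)
    _ = _ := by ring

end PM
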