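import Pool.Agent.H24.PM.Stmts
import Pool.Agent.H95.PM.Epb

namespace PM
open Finset

theorem RT (hNTA : S_NTA) : S_RT := by
  intro γ
  obtain ⟨m, hm⟩ := exists_nat_ge γ
  obtain ⟨C, hC, h⟩ := sum_fm_band hNTA m
  refine ⟨C, hC, fun y M hy => ?_⟩
  have hS : ∀ n ∈ (Finset.Icc 1 M).filter
      (fun r : ℕ => ∀ l ∈ r.primeFactors, y < (l : ℝ) ∧ (l : ℝ) ≤ y ^ Real.exp 1),
      n ≠ 0 ∧ n.primeFactors ⊆ PrS y (y ^ Real.exp 1) := by
    intro n hn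
    rw [Finset.mem_filter, Finset.mem_Icc] at hn
    refine ⟨by omega, fun l hl => ?_⟩
    exact mem_PrS.mpr ⟨Nat.prime_of_mem_primeFactors hl, hn.2 l hl⟩
  refine le_trans (Finset.sum_le_sum fun n hn => b_sq_le γ m hm n (hS n hn).1) (h y _ hy hS)

end PM
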