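import Pool.Agent.H24.PM.Stmts
import Pool.Agent.H95.PM.Epb

namespace PM
open Finset

theorem b_pow_four (γ : ℝ) (n : ℕ) (hn : n ≠ 0) :
    b γ n ^ 2 = (1 / Real.sqrt n) * (b (2 * γ) n) := by
  unfold b
  have hn0 : (0 : ℝ) < n := by exact_mod_cast Nat.pos_of_ne_zero hn
  have hd : (0 : ℝ) ≤ (n.divisors.card : ℝ) := by positivity
  rw [mul_comm (2 : ℝ) γ, Real.rpow_mul hd, div_pow]
  rw [show ((n.divisors.card : ℝ) ^ γ) ^ (2 : ℝ) = ((n.divisors.card : ℝ) ^ γ) ^ 2 from by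
    exact_mod_cast Real.rpow_natCast _ 2]
  have hs : 0 < Real.sqrt n := Real.sqrt_pos.mpr hn0
  field_simp

theorem SE (hNTA : S_NTA) : S_SE := by
  intro γ
  obtain ⟨C, B, hC, hB, h⟩ := sum_b_smooth hNTA (2 * γ)
  refine ⟨(C * 2 ^ B) ^ (1 / 2 : ℝ), B / 2, by positivity, by positivity, fun N X hN hX => ?_⟩
  have hN0 : (3 : ℝ) ≤ N := by exact_mod_cast hN
  set S := (Finset.Icc 1 ⌊(N : ℝ) * (1 + 1 / X)⌋₊).filter (fun n : ℕ => N < n) with hSdef
  have hmem : ∀ n ∈ S, N < n ∧ (n : ℝ) ≤ N * (1 + 1 / X) := by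
    intro n hn
    rw [hSdef, Finset.mem_filter, Finset.mem_Icc] at hn
    refine ⟨hn.2, ?_⟩
    exact (Nat.le_floor_iff' (by omega)).mp hn.1.2
  have hX0 : 0 < X := by linarith
  have hXi : 0 < 1 / X := by positivity
  have hXi1 : 1 / X ≤ 1 := by rw [div_le_one hX0]; exact hX
  -- first factor
  have hcard : (S.card : ℝ) ≤ N / X := by
    have hsub : S ⊆ Finset.Ioc N ⌊(N : ℝ) * (1 + 1 / X)⌋₊ := by
      intro n hn
      rw [hSdef, Finset.mem_filter, Finset.mem_Icc] at hn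
      exact Finset.mem_Ioc.mpr ⟨hn.2, hn.1.2⟩
    have h1 := Finset.card_le_card hsub
    rw [Nat.card_Ioc] at h1
    have h2 : N ≤ ⌊(N : ℝ) * (1 + 1 / X)⌋₊ := by
      refine Nat.le_floor ?_
      nlinarith
    have h3 : ((⌊(N : ℝ) * (1 + 1 / X)⌋₊ : ℕ) : ℝ) ≤ N * (1 + 1 / X) :=
      Nat.floor_le (by positivity)
    have h4 : (S.card : ℝ) ≤ ((⌊(N : ℝ) * (1 + 1 / X)⌋₊ - N : ℕ) : ℝ) := by exact_mod_cast h1
    rw [Nat.cast_sub h2] at h4
    have h5 : (N : ℝ) * (1 + 1 / X) - N = N / X := by ring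
    linarith
  have hA : ∑ n ∈ S, (1 / Real.sqrt (n : ℝ)) ^ 2 ≤ 1 / X := by
    have h1 : ∑ n ∈ S, (1 / Real.sqrt (n : ℝ)) ^ 2 ≤ ∑ n ∈ S, 1 / (N : ℝ) := by
      refine Finset.sum_le_sum fun n hn => ?_
      have h2 : (N : ℝ) < n := by exact_mod_cast (hmem n hn).1
      rw [div_pow, one_pow, Real.sq_sqrt (by linarith)]
      exact one_div_le_one_div_of_le (by linarith) h2.le
    rw [Finset.sum_const, nsmul_eq_mul] at h1
    refine h1.trans ?_
    calc (S.card : ℝ) * (1 / N) ≤ N / X * (1 / N) := mul_le_mul_of_nonneg_right hcard (by positivity)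
      _ = 1 / X := by
        have : (N : ℝ) ≠ 0 := by linarith
        field_simp
  -- second factor
  have hBb : ∑ n ∈ S, (b (2 * γ) n) ^ 2 ≤ C * 2 ^ B * (Real.log N) ^ B := by
    have h1 := h (2 * N) S (by linarith) (fun n hn => by
      have h2 := hmem n hn
      refine ⟨by omega, fun l hl => mem_PrS.mpr ⟨Nat.prime_of_mem_primeFactors hl, ?_, ?_⟩⟩
      · exact_mod_cast (Nat.prime_of_mem_primeFactors hl).one_lt
      · have h3 : l ≤ n := Nat.le_of_dvd (by omega) (Nat.dvd_of_mem_primeFactors hl)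
        have h4 : (l : ℝ) ≤ n := by exact_mod_cast h3
        have h5 : (N : ℝ) * (1 + 1 / X) ≤ 2 * N := by nlinarith
        linarith)
    refine h1.trans ?_
    rw [mul_assoc, ← Real.mul_rpow (by norm_num) (Real.log_nonneg (by linarith))]
    refine mul_le_mul_of_nonneg_left ?_ hC.le
    refine Real.rpow_le_rpow (Real.log_nonneg (by linarith)) ?_ hB.le
    rw [Real.log_mul (by norm_num) (by linarith)]
    have : Real.log 2 ≤ Real.log N := Real.log_le_log (by norm_num) (by linarith)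
    linarith
  have hcs : ∑ n ∈ S, b γ n ^ 2 ≤ (1 / X) ^ (1 / 2 : ℝ) * (C * 2 ^ B * (Real.log N) ^ B) ^ (1 / 2 : ℝ) := by
    have h1 : ∑ n ∈ S, b γ n ^ 2 = ∑ n ∈ S, (1 / Real.sqrt n) * (b (2 * γ) n) :=
      Finset.sum_congr rfl fun n hn => b_pow_four γ n (by have := hmem n hn; omega)
    rw [h1]
    have h2 := Finset.sum_mul_sq_le_sq_mul_sq S (fun n : ℕ => 1 / Real.sqrt (n : ℝ))
      (fun n => b (2 * γ) n)
    have h3 : (∑ n ∈ S, (1 / Real.sqrt (n : ℝ)) * (b (2 * γ) n)) ^ 2 ≤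
        1 / X * (C * 2 ^ B * (Real.log N) ^ B) :=
      h2.trans (mul_le_mul hA hBb (Finset.sum_nonneg fun _ _ => sq_nonneg _) hXi.le)
    rw [← Real.mul_rpow hXi.le (by have := Real.log_nonneg (show (1 : ℝ) ≤ N by linarith); positivity),
      ← Real.sqrt_eq_rpow]
    exact Real.le_sqrt_of_sq_le h3
  refine hcs.trans ?_
  have hlN : 0 ≤ Real.log N := Real.log_nonneg (by linarith)
  rw [Real.mul_rpow (by positivity) (by positivity), ← Real.rpow_mul hlN,
    show B * (1 / 2) = B / 2 by ring]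
  have hn : 0 ≤ (1 / (N : ℝ)) ^ (1 / 2 : ℝ) := by positivity
  have hq : 0 ≤ (C * 2 ^ B) ^ (1 / 2 : ℝ) * Real.log N ^ (B / 2) := by positivity
  nlinarith [mul_nonneg hq hn]

end PM
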