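import Pool.Agent.H24.PM.Stmts

/-! Vertical translations are rotations of the torus. -/

namespace PM
open MeasureTheory Complex

namespace AuxSHIFT

theorem zc_add (x y : UnitAddCircle) : zc (x + y) = zc x * zc y := by
  unfold zc
  rw [fourier_one, fourier_one, fourier_one, AddCircle.toCircle_add, Circle.coe_mul]

theorem zc_coe (x : ℝ) : zc (x : UnitAddCircle) = Complex.exp (2 * Real.pi * x * I) := by
  unfold zc
  rw [fourier_coe_apply]
  congr 1
  push_cast
  ring

end AuxSHIFT

open AuxSHIFT in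
theorem SHIFT : S_SHIFT := by
  intro h
  refine ⟨fun l => ((-h * Real.log l / (2 * Real.pi) : ℝ) : UnitAddCircle), ?_⟩
  intro l hl σ t ω
  unfold pt
  rw [Pi.add_apply, zc_add, zc_coe, mul_assoc]
  congr 1
  have hl0 : (l : ℂ) ≠ 0 := by exact_mod_cast hl.ne'
  have h1 : (2 * Real.pi * ((-h * Real.log l / (2 * Real.pi) : ℝ) : ℂ) * I) =
      Complex.log l * (-(h * I)) := by
    rw [← Complex.natCast_log]
    push_cast
    have : (Real.pi : ℂ) ≠ 0 := by exact_mod_cast Real.pi_ne_zero
    field_simp
  rw [h1, ← Complex.cpow_def_of_ne_zero hl0, ← Complex.cpow_add _ _ hl0]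
  congr 1
  push_cast
  ring

end PM
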