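import Pool.Agent.H24.PM.Stmts
import Pool.Agent.H51.Rho.M

/-! Lower bound sieve (Brun-Hooley) for project PM. -/

namespace PM
open Finset

namespace Sv

noncomputable def II (x H : ℝ) : Finset ℕ :=
  (Finset.range (⌊x + H⌋₊ + 1)).filter (fun n : ℕ => x < n)

theorem mem_II {x H : ℝ} (hx : 0 ≤ x) (hH : 0 ≤ H) {n : ℕ} :
    n ∈ II x H ↔ x < n ∧ (n : ℝ) ≤ x + H := by
  unfold II
  rw [Finset.mem_filter, Finset.mem_range, Nat.lt_succ_iff, Nat.le_floor_iff (by linarith)]
  tauto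

theorem II_eq {x H : ℝ} (hx : 0 ≤ x) (hH : 0 ≤ H) : II x H = Finset.Ioc ⌊x⌋₊ ⌊x + H⌋₊ := by
  ext n
  rw [mem_II hx hH, Finset.mem_Ioc, Nat.floor_lt hx, Nat.le_floor_iff (by linarith)]

theorem count_dvd {x H : ℝ} (hx : 0 ≤ x) (hH : 0 ≤ H) {d : ℕ} (hd : 0 < d) :
    |(((II x H).filter (fun n => d ∣ n)).card : ℝ) - H / d| ≤ 1 := by
  have hle : ⌊x⌋₊ ≤ ⌊x + H⌋₊ := Nat.floor_le_floor (by linarith)
  have h1 : ((II x H).filter (fun n => d ∣ n)).card + ⌊x⌋₊ / d = ⌊x + H⌋₊ / d := by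
    rw [II_eq hx hH, ← Nat.Ioc_filter_dvd_card_eq_div, ← Nat.Ioc_filter_dvd_card_eq_div,
      ← Finset.card_union_of_disjoint, ← Finset.filter_union, Finset.union_comm,
      Finset.Ioc_union_Ioc_eq_Ioc (Nat.zero_le _) hle]
    refine Finset.disjoint_filter_filter ?_
    rw [Finset.disjoint_left]
    intro a ha hb
    rw [Finset.mem_Ioc] at ha hb
    omega
  have hd' : (0 : ℝ) < d := by exact_mod_cast hd
  have h2 : ((⌊x⌋₊ / d : ℕ) : ℝ) = ((⌊x / d⌋₊ : ℕ) : ℝ) := by rw [Nat.floor_div_natCast]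
  have h3 : ((⌊x + H⌋₊ / d : ℕ) : ℝ) = ((⌊(x + H) / d⌋₊ : ℕ) : ℝ) := by
    rw [Nat.floor_div_natCast]
  have h4 : (((II x H).filter (fun n => d ∣ n)).card : ℝ) + ((⌊x⌋₊ / d : ℕ) : ℝ) =
    ((⌊x + H⌋₊ / d : ℕ) : ℝ) := by exact_mod_cast h1
  rw [h2, h3] at h4
  have a1 := Nat.floor_le (show 0 ≤ x / d by positivity)
  have a2 := Nat.lt_floor_add_one (x / d)
  have a3 := Nat.floor_le (show 0 ≤ (x + H) / d by positivity)
  have a4 := Nat.lt_floor_add_one ((x + H) / d)
  have a5 : (x + H) / d = x / d + H / d := by ring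
  rw [abs_le]
  constructor <;> linarith

/-- sums over multiples of d in short intervals -/
def Rep (P : Finset ℕ) (f : ℕ → ℝ) (V E : ℝ) : Prop :=
  ∀ d : ℕ, 0 < d → (∀ p ∈ P, Nat.Coprime p d) → ∀ x H : ℝ, 0 ≤ x → 0 ≤ H →
    |∑ n ∈ (II x H).filter (fun n => d ∣ n), f n - V * H / d| ≤ E

theorem rep_one : Rep ∅ (fun _ => 1) 1 1 := by
  intro d hd _ x H hx hH
  have := count_dvd hx hH hd
  rw [Finset.sum_const, nsmul_eq_mul, mul_one, one_mul]
  exact this

theorem rep_mul {P Q : Finset ℕ} {f : ℕ → ℝ} {V E : ℝ} (h : Rep P f V E) (hPQ : Disjoint P Q)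
    (hP : ∀ p ∈ P, p.Prime) (hQ : ∀ q ∈ Q, q.Prime) (S : Finset (Finset ℕ))
    (hS : ∀ T ∈ S, T ⊆ Q) (c : Finset ℕ → ℝ) (hc : ∀ T ∈ S, |c T| ≤ 1) :
    Rep (P ∪ Q) (fun n => f n * ∑ T ∈ S, c T * (if ∏ p ∈ T, p ∣ n then 1 else 0))
      (V * ∑ T ∈ S, c T / ((∏ p ∈ T, p : ℕ) : ℝ)) (E * S.card) := by
  intro d hd hcop x H hx hH
  have hTpos : ∀ T ∈ S, 0 < ∏ p ∈ T, p := fun T hT => Finset.prod_pos fun p hp =>
    (hQ p (hS T hT hp)).pos
  have hTcop : ∀ T ∈ S, Nat.Coprime d (∏ p ∈ T, p) := fun T hT =>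
    Nat.Coprime.prod_right fun p hp =>
      (hcop p (Finset.mem_union_right _ (hS T hT hp))).symm
  have h1 : ∀ T ∈ S, |∑ n ∈ (II x H).filter (fun n => d * (∏ p ∈ T, p) ∣ n), f n -
      V * H / ((d * ∏ p ∈ T, p : ℕ) : ℝ)| ≤ E := by
    intro T hT
    refine h _ (Nat.mul_pos hd (hTpos T hT)) ?_ x H hx hH
    intro p hp
    refine Nat.Coprime.mul_right (hcop p (Finset.mem_union_left _ hp)) ?_
    refine Nat.Coprime.prod_right fun q hq => ?_
    have hq' := hS T hT hq
    rw [Nat.coprime_primes (hP p hp) (hQ q hq')]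
    rintro rfl
    exact Finset.disjoint_left.mp hPQ hp hq'
  have h2 : ∑ n ∈ (II x H).filter (fun n => d ∣ n),
      (f n * ∑ T ∈ S, c T * (if ∏ p ∈ T, p ∣ n then 1 else 0)) =
      ∑ T ∈ S, c T * ∑ n ∈ (II x H).filter (fun n => d * (∏ p ∈ T, p) ∣ n), f n := by
    simp only [Finset.mul_sum]
    rw [Finset.sum_comm]
    refine Finset.sum_congr rfl fun T hT => ?_
    have h3 : (II x H).filter (fun n => d * (∏ p ∈ T, p) ∣ n) =
        ((II x H).filter (fun n => d ∣ n)).filter (fun n => ∏ p ∈ T, p ∣ n) := by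
      rw [Finset.filter_filter]
      refine Finset.filter_congr fun n _ => ?_
      constructor
      · intro hh
        exact ⟨(Dvd.intro _ rfl).trans hh, (Dvd.intro_left _ rfl).trans hh⟩
      · rintro ⟨h4, h5⟩
        exact Nat.Coprime.mul_dvd_of_dvd_of_dvd (hTcop T hT) h4 h5
    rw [h3, Finset.sum_filter (p := fun n => ∏ p ∈ T, p ∣ n)]
    refine Finset.sum_congr rfl fun n _ => ?_
    split_ifs <;> ring
  rw [h2]
  have h4 : V * (∑ T ∈ S, c T / ((∏ p ∈ T, p : ℕ) : ℝ)) * H / d =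
      ∑ T ∈ S, c T * (V * H / ((d * ∏ p ∈ T, p : ℕ) : ℝ)) := by
    rw [Finset.mul_sum, Finset.sum_mul, Finset.sum_div]
    refine Finset.sum_congr rfl fun T hT => ?_
    have : (0 : ℝ) < ((∏ p ∈ T, p : ℕ) : ℝ) := by exact_mod_cast hTpos T hT
    have hd' : (0 : ℝ) < d := by exact_mod_cast hd
    rw [Nat.cast_mul]
    field_simp
  rw [h4, ← Finset.sum_sub_distrib]
  refine (Finset.abs_sum_le_sum_abs _ _).trans ?_
  calc ∑ T ∈ S, |c T * ∑ n ∈ (II x H).filter (fun n => d * (∏ p ∈ T, p) ∣ n), f n -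
        c T * (V * H / ((d * ∏ p ∈ T, p : ℕ) : ℝ))| ≤ ∑ T ∈ S, E := by
        refine Finset.sum_le_sum fun T hT => ?_
        rw [← mul_sub, abs_mul]
        have := h1 T hT
        calc |c T| * |∑ n ∈ (II x H).filter (fun n => d * (∏ p ∈ T, p) ∣ n), f n -
            V * H / ((d * ∏ p ∈ T, p : ℕ) : ℝ)| ≤ 1 * E :=
              mul_le_mul (hc T hT) this (abs_nonneg _) zero_le_one
          _ = E := one_mul E
    _ = E * S.card := by rw [Finset.sum_const, nsmul_eq_mul, mul_comm]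

/-- product version -/
theorem rep_prod (s : Finset ℕ) (Q : ℕ → Finset ℕ) (hQ : ∀ j ∈ s, ∀ q ∈ Q j, q.Prime)
    (hdis : ∀ i ∈ s, ∀ j ∈ s, i ≠ j → Disjoint (Q i) (Q j))
    (S : ℕ → Finset (Finset ℕ)) (hS : ∀ j ∈ s, ∀ T ∈ S j, T ⊆ Q j) (c : ℕ → Finset ℕ → ℝ)
    (hc : ∀ j ∈ s, ∀ T ∈ S j, |c j T| ≤ 1) :
    Rep (s.biUnion Q) (fun n => ∏ j ∈ s, ∑ T ∈ S j, c j T * (if ∏ p ∈ T, p ∣ n then 1 else 0))
      (∏ j ∈ s, ∑ T ∈ S j, c j T / ((∏ p ∈ T, p : ℕ) : ℝ)) (∏ j ∈ s, ((S j).card : ℝ)) := by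
  classical
  induction s using Finset.induction_on with
  | empty => simpa using rep_one
  | insert a s ha ih =>
    have ih' := ih (fun j hj => hQ j (Finset.mem_insert_of_mem hj))
      (fun i hi j hj => hdis i (Finset.mem_insert_of_mem hi) j (Finset.mem_insert_of_mem hj))
      (fun j hj => hS j (Finset.mem_insert_of_mem hj))
      (fun j hj => hc j (Finset.mem_insert_of_mem hj))
    have h := rep_mul (Q := Q a) ih' ?_ ?_ (hQ a (Finset.mem_insert_self _ _)) (S a)
      (hS a (Finset.mem_insert_self _ _)) (c a) (hc a (Finset.mem_insert_self _ _))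
    · rw [Finset.biUnion_insert, Finset.union_comm]
      simp only [Finset.prod_insert ha]
      have e1 : (fun n => (∑ T ∈ S a, c a T * (if ∏ p ∈ T, p ∣ n then (1 : ℝ) else 0)) *
          ∏ j ∈ s, ∑ T ∈ S j, c j T * (if ∏ p ∈ T, p ∣ n then (1 : ℝ) else 0)) =
          (fun n => (∏ j ∈ s, ∑ T ∈ S j, c j T * (if ∏ p ∈ T, p ∣ n then (1 : ℝ) else 0)) *
          ∑ T ∈ S a, c a T * (if ∏ p ∈ T, p ∣ n then (1 : ℝ) else 0)) := by
        funext n
        exact mul_comm _ _
      rw [e1, mul_comm (∑ T ∈ S a, c a T / ((∏ p ∈ T, p : ℕ) : ℝ)), mul_comm ((S a).card : ℝ)]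
      exact h
    · rw [Finset.disjoint_biUnion_left]
      intro i hi
      refine hdis i (Finset.mem_insert_of_mem hi) a (Finset.mem_insert_self _ _) ?_
      rintro rfl
      exact ha hi
    · intro p hp
      rw [Finset.mem_biUnion] at hp
      obtain ⟨i, hi, hp⟩ := hp
      exact hQ i (Finset.mem_insert_of_mem hi) p hp

/-- truncated alternating sum -/
noncomputable def gs (S : Finset ℕ) (m : ℕ) (a : ℕ → ℝ) : ℝ :=
  ∑ T ∈ S.powerset.filter (fun T => T.card ≤ m), (-1) ^ T.card * ∏ p ∈ T, a p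

/-- elementary symmetric sum -/
noncomputable def es (S : Finset ℕ) (m : ℕ) (a : ℕ → ℝ) : ℝ :=
  ∑ T ∈ S.powersetCard m, ∏ p ∈ T, a p

theorem gs_succ (S : Finset ℕ) (m : ℕ) (a : ℕ → ℝ) :
    gs S (m + 1) a = gs S m a + (-1) ^ (m + 1) * es S (m + 1) a := by
  classical
  unfold gs es
  have h1 : S.powerset.filter (fun T => T.card ≤ m + 1) =
      S.powerset.filter (fun T => T.card ≤ m) ∪ S.powersetCard (m + 1) := by
    ext T
    simp only [Finset.mem_filter, Finset.mem_union, Finset.mem_powersetCard, Finset.mem_powerset]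
    constructor
    · rintro ⟨h1, h2⟩
      rcases Nat.lt_or_ge m T.card with h | h
      · exact Or.inr ⟨h1, by omega⟩
      · exact Or.inl ⟨h1, h⟩
    · rintro (⟨h1, h2⟩ | ⟨h1, h2⟩)
      · exact ⟨h1, by omega⟩
      · exact ⟨h1, by omega⟩
  rw [h1, Finset.sum_union]
  · congr 1
    rw [Finset.mul_sum]
    refine Finset.sum_congr rfl fun T hT => ?_
    rw [(Finset.mem_powersetCard.mp hT).2]
  · rw [Finset.disjoint_left]
    intro T h1 h2
    rw [Finset.mem_filter] at h1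
    rw [Finset.mem_powersetCard] at h2
    omega

theorem gs_insert {S : Finset ℕ} {q : ℕ} (hq : q ∉ S) (m : ℕ) (a : ℕ → ℝ) :
    gs (insert q S) (m + 1) a = gs S (m + 1) a - a q * gs S m a := by
  classical
  unfold gs
  rw [Finset.sum_filter, Finset.sum_powerset_insert hq, Finset.sum_filter, Finset.sum_filter,
    Finset.mul_sum, sub_eq_add_neg, ← Finset.sum_neg_distrib]
  congr 1
  refine Finset.sum_congr rfl fun T hT => ?_
  have hqT : q ∉ T := fun h => hq (Finset.mem_powerset.mp hT h)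
  rw [Finset.card_insert_of_notMem hqT, Finset.prod_insert hqT]
  by_cases h : T.card ≤ m
  · rw [if_pos (by omega), if_pos h, pow_succ]
    ring
  · rw [if_neg (by omega), if_neg h]
    ring

theorem gs_zero (S : Finset ℕ) (a : ℕ → ℝ) : gs S 0 a = 1 := by
  unfold gs
  have : S.powerset.filter (fun T => T.card ≤ 0) = {∅} := by
    ext T
    simp only [Finset.mem_filter, Finset.mem_powerset, Finset.mem_singleton, Nat.le_zero,
      Finset.card_eq_zero]
    constructor
    · exact fun h => h.2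
    · rintro rfl
      exact ⟨Finset.empty_subset _, rfl⟩
  rw [this]
  simp

theorem gs_empty (m : ℕ) (a : ℕ → ℝ) : gs ∅ m a = 1 := by
  unfold gs
  have : (∅ : Finset ℕ).powerset.filter (fun T => T.card ≤ m) = {∅} := by
    ext T
    simp only [Finset.mem_filter, Finset.powerset_empty, Finset.mem_singleton]
    constructor
    · exact fun h => h.1
    · rintro rfl
      exact ⟨rfl, by simp⟩
  rw [this]
  simp

theorem prod_one_sub_mem {S : Finset ℕ} {a : ℕ → ℝ} (ha : ∀ p ∈ S, 0 ≤ a p ∧ a p ≤ 1) :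
    0 ≤ ∏ p ∈ S, (1 - a p) ∧ ∏ p ∈ S, (1 - a p) ≤ 1 :=
  ⟨Finset.prod_nonneg fun p hp => by linarith [(ha p hp).2],
    Finset.prod_le_one (fun p hp => by linarith [(ha p hp).2])
      (fun p hp => by linarith [(ha p hp).1])⟩

/-- Bonferroni inequalities with weights -/
theorem bonf (S : Finset ℕ) (a : ℕ → ℝ) (ha : ∀ p ∈ S, 0 ≤ a p ∧ a p ≤ 1) (m : ℕ) :
    0 ≤ (-1) ^ m * (gs S m a - ∏ p ∈ S, (1 - a p)) := by
  classical
  induction S using Finset.induction_on generalizing m with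
  | empty => rw [gs_empty]; simp
  | insert q S hq ih =>
    have ha' : ∀ p ∈ S, 0 ≤ a p ∧ a p ≤ 1 := fun p hp => ha p (Finset.mem_insert_of_mem hp)
    have hq' := ha q (Finset.mem_insert_self _ _)
    rcases m with _ | m
    · rw [gs_zero, pow_zero, one_mul]
      linarith [(prod_one_sub_mem ha).2]
    · rw [gs_insert hq, Finset.prod_insert hq]
      have h1 := ih ha' (m + 1)
      have h2 := ih ha' m
      have h3 := mul_nonneg hq'.1 h2
      have e : (-1 : ℝ) ^ (m + 1) * (gs S (m + 1) a - a q * gs S m a -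
          (1 - a q) * ∏ p ∈ S, (1 - a p)) =
          (-1) ^ (m + 1) * (gs S (m + 1) a - ∏ p ∈ S, (1 - a p)) +
          a q * ((-1) ^ m * (gs S m a - ∏ p ∈ S, (1 - a p))) := by
        rw [pow_succ]; ring
      rw [e]
      exact add_nonneg h1 h3

theorem bonf_even (S : Finset ℕ) (a : ℕ → ℝ) (ha : ∀ p ∈ S, 0 ≤ a p ∧ a p ≤ 1) (b : ℕ) :
    ∏ p ∈ S, (1 - a p) ≤ gs S (2 * b) a ∧
      gs S (2 * b) a - ∏ p ∈ S, (1 - a p) ≤ es S (2 * b + 1) a := by
  have h1 := bonf S a ha (2 * b)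
  have h2 := bonf S a ha (2 * b + 1)
  rw [pow_mul, neg_one_sq, one_pow, one_mul] at h1
  rw [gs_succ, pow_succ, pow_mul, neg_one_sq, one_pow, one_mul] at h2
  constructor <;> linarith

theorem pow_add_ge {L a : ℝ} (hL : 0 ≤ L) (ha : 0 ≤ a) (k : ℕ) :
    L ^ (k + 1) + (k + 1) * a * L ^ k ≤ (L + a) ^ (k + 1) := by
  induction k with
  | zero => simp
  | succ k ih =>
    have h1 : (L + a) * (L ^ (k + 1) + (k + 1) * a * L ^ k) ≤ (L + a) ^ (k + 1 + 1) := by
      rw [pow_succ (L + a) (k + 1), mul_comm ((L + a) ^ (k + 1))]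
      exact mul_le_mul_of_nonneg_left ih (by linarith)
    refine le_trans ?_ h1
    push_cast
    have h2 : 0 ≤ ((k : ℝ) + 1) * a * a * L ^ k := by positivity
    have e : (L + a) * (L ^ (k + 1) + (k + 1) * a * L ^ k) = L ^ (k + 1 + 1) +
      (k + 1 + 1) * a * L ^ (k + 1) + ((k : ℝ) + 1) * a * a * L ^ k := by ring
    rw [e]
    linarith

theorem es_zero (S : Finset ℕ) (a : ℕ → ℝ) : es S 0 a = 1 := by
  unfold es
  simp

theorem es_insert {S : Finset ℕ} {q : ℕ} (hq : q ∉ S) (m : ℕ) (a : ℕ → ℝ) :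
    es (insert q S) (m + 1) a = es S (m + 1) a + a q * es S m a := by
  classical
  unfold es
  rw [Finset.powersetCard_succ_insert hq, Finset.sum_union, Finset.sum_image, Finset.mul_sum]
  · congr 1
    refine Finset.sum_congr rfl fun T hT => ?_
    rw [Finset.prod_insert fun h => hq ((Finset.mem_powersetCard.mp hT).1 h)]
  · intro A hA B hB hAB
    have hA' : q ∉ A := fun h => hq ((Finset.mem_powersetCard.mp (Finset.mem_coe.mp hA)).1 h)
    have hB' : q ∉ B := fun h => hq ((Finset.mem_powersetCard.mp (Finset.mem_coe.mp hB)).1 h)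
    rw [← Finset.erase_insert hA', ← Finset.erase_insert hB']
    exact congrArg (fun T => T.erase q) hAB
  · rw [Finset.disjoint_left]
    intro A hA hB
    rw [Finset.mem_image] at hB
    obtain ⟨B, _, rfl⟩ := hB
    exact hq ((Finset.mem_powersetCard.mp hA).1 (Finset.mem_insert_self _ _))

theorem es_le (S : Finset ℕ) (a : ℕ → ℝ) (ha : ∀ p ∈ S, 0 ≤ a p) (m : ℕ) :
    0 ≤ es S m a ∧ es S m a ≤ (∑ p ∈ S, a p) ^ m / (m.factorial : ℝ) := by
  classical
  induction S using Finset.induction_on generalizing m with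
  | empty =>
    rcases m with _ | m
    · rw [es_zero]; simp
    · unfold es
      rw [Finset.powersetCard_eq_empty.mpr (by simp)]
      simp
  | insert q S hq ih =>
    have ha' : ∀ p ∈ S, 0 ≤ a p := fun p hp => ha p (Finset.mem_insert_of_mem hp)
    have hq' := ha q (Finset.mem_insert_self _ _)
    rcases m with _ | m
    · rw [es_zero]; simp
    · rw [es_insert hq, Finset.sum_insert hq]
      have h1 := ih ha' (m + 1)
      have h2 := ih ha' m
      refine ⟨add_nonneg h1.1 (mul_nonneg hq' h2.1), ?_⟩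
      have hL : 0 ≤ ∑ p ∈ S, a p := Finset.sum_nonneg ha'
      have h3 := pow_add_ge hL hq' m
      have h4 := mul_le_mul_of_nonneg_left h2.2 hq'
      have hf : (0 : ℝ) < ((m + 1).factorial : ℝ) := by exact_mod_cast Nat.factorial_pos _
      have hf' : (0 : ℝ) < (m.factorial : ℝ) := by exact_mod_cast Nat.factorial_pos _
      rw [le_div_iff₀ hf]
      have h5 : es S (m + 1) a * ((m + 1).factorial : ℝ) ≤ (∑ p ∈ S, a p) ^ (m + 1) := by
        rw [← le_div_iff₀ hf]; exact h1.2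
      have h6 : es S m a * (m.factorial : ℝ) ≤ (∑ p ∈ S, a p) ^ m := by
        rw [← le_div_iff₀ hf']; exact h2.2
      have h7 : ((m + 1).factorial : ℝ) = (m + 1) * (m.factorial : ℝ) := by
        rw [Nat.factorial_succ]; push_cast; ring
      have h8 : a q * es S m a * ((m + 1).factorial : ℝ) ≤ (m + 1) * a q * (∑ p ∈ S, a p) ^ m := by
        rw [h7]
        calc a q * es S m a * ((m + 1) * (m.factorial : ℝ)) =
            (m + 1) * a q * (es S m a * (m.factorial : ℝ)) := by ring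
          _ ≤ (m + 1) * a q * (∑ p ∈ S, a p) ^ m :=
            mul_le_mul_of_nonneg_left h6 (by positivity)
      rw [add_mul, add_comm (a q)]
      linarith

/-- product inequality -/
theorem prod_diff_le (s : Finset ℕ) (X Y E : ℕ → ℝ) (h0 : ∀ j ∈ s, 0 ≤ X j)
    (h1 : ∀ j ∈ s, X j ≤ Y j) (h2 : ∀ j ∈ s, Y j - X j ≤ E j) :
    ∏ j ∈ s, Y j - ∏ j ∈ s, X j ≤ ∑ j ∈ s, E j * ∏ i ∈ s.erase j, Y i := by
  classical
  induction s using Finset.induction_on with
  | empty => simp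
  | insert a s ha ih =>
    have h0' : ∀ j ∈ s, 0 ≤ X j := fun j hj => h0 j (Finset.mem_insert_of_mem hj)
    have h1' : ∀ j ∈ s, X j ≤ Y j := fun j hj => h1 j (Finset.mem_insert_of_mem hj)
    have ih' := ih h0' h1' (fun j hj => h2 j (Finset.mem_insert_of_mem hj))
    rw [Finset.prod_insert ha, Finset.prod_insert ha, Finset.sum_insert ha,
      Finset.erase_insert ha]
    have e : ∑ j ∈ s, E j * ∏ i ∈ (insert a s).erase j, Y i =
        Y a * ∑ j ∈ s, E j * ∏ i ∈ s.erase j, Y i := by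
      rw [Finset.mul_sum]
      refine Finset.sum_congr rfl fun j hj => ?_
      have hja : a ≠ j := by rintro rfl; exact ha hj
      rw [Finset.erase_insert_of_ne hja, Finset.prod_insert]
      · ring
      · intro h
        exact ha (Finset.mem_of_mem_erase h)
    rw [e]
    have a0 := h0 a (Finset.mem_insert_self _ _)
    have a1 := h1 a (Finset.mem_insert_self _ _)
    have a2 := h2 a (Finset.mem_insert_self _ _)
    have b0 : 0 ≤ ∏ j ∈ s, X j := Finset.prod_nonneg h0'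
    have b1 : ∏ j ∈ s, X j ≤ ∏ j ∈ s, Y j := Finset.prod_le_prod h0' h1'
    have c1 := mul_le_mul_of_nonneg_left ih' (a0.trans a1)
    have c2 : (Y a - X a) * ∏ j ∈ s, X j ≤ E a * ∏ j ∈ s, Y j :=
      mul_le_mul a2 b1 b0 (by linarith)
    nlinarith [c1, c2]

theorem card_small_subsets (P : Finset ℕ) (m : ℕ) :
    ((P.powerset.filter (fun T => T.card ≤ m)).card : ℝ) ≤ ((P.card : ℝ) + 1) ^ m := by
  classical
  have h1 : P.powerset.filter (fun T => T.card ≤ m) ⊆
      (Finset.range (m + 1)).biUnion (fun k => P.powersetCard k) := by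
    intro T hT
    rw [Finset.mem_filter, Finset.mem_powerset] at hT
    rw [Finset.mem_biUnion]
    exact ⟨T.card, Finset.mem_range.mpr (by omega), Finset.mem_powersetCard.mpr ⟨hT.1, rfl⟩⟩
  have h2 : (P.powerset.filter (fun T => T.card ≤ m)).card ≤
      ∑ k ∈ Finset.range (m + 1), P.card.choose k := by
    refine (Finset.card_le_card h1).trans (Finset.card_biUnion_le.trans ?_)
    refine Finset.sum_le_sum fun k _ => ?_
    rw [Finset.card_powersetCard]
  have h3 : ∑ k ∈ Finset.range (m + 1), P.card.choose k ≤ (P.card + 1) ^ m := by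
    rw [add_pow]
    refine Finset.sum_le_sum fun k hk => ?_
    rw [Finset.mem_range] at hk
    rw [one_pow, mul_one]
    calc P.card.choose k ≤ P.card ^ k := Nat.choose_le_pow _ _
      _ ≤ P.card ^ k * m.choose k := Nat.le_mul_of_pos_right _ (Nat.choose_pos (by omega))
  exact_mod_cast h2.trans h3

/-- levels -/
noncomputable def zz (y : ℝ) (j : ℕ) : ℝ := Real.exp (Real.log y / 2 ^ j)

/-- blocks -/
noncomputable def PP (y : ℝ) (j : ℕ) : Finset ℕ := PrS (zz y (j + 1)) (zz y j)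

theorem zz_pos (y : ℝ) (j : ℕ) : 0 < zz y j := Real.exp_pos _

theorem mem_PP {y : ℝ} {j l : ℕ} :
    l ∈ PP y j ↔ l.Prime ∧ zz y (j + 1) < l ∧ (l : ℝ) ≤ zz y j := by
  unfold PP PrS
  rw [Finset.mem_filter, Finset.mem_range, Nat.lt_succ_iff, Nat.le_floor_iff (zz_pos y j).le]
  tauto

theorem zz_one_le {y : ℝ} (hy : 1 ≤ y) (j : ℕ) : 1 ≤ zz y j := by
  unfold zz
  rw [Real.one_le_exp_iff]
  exact div_nonneg (Real.log_nonneg hy) (by positivity)

theorem zz_anti {y : ℝ} (hy : 1 ≤ y) {i j : ℕ} (hij : i ≤ j) : zz y j ≤ zz y i := by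
  unfold zz
  refine Real.exp_le_exp.mpr ?_
  refine div_le_div_of_nonneg_left (Real.log_nonneg hy) (by positivity) ?_
  exact pow_le_pow_right₀ (by norm_num) hij

theorem zz_zero {y : ℝ} (hy : 0 < y) : zz y 0 = y := by
  unfold zz
  rw [pow_zero, div_one, Real.exp_log hy]

theorem PP_disjoint {y : ℝ} (hy : 1 ≤ y) {i j : ℕ} (hij : i ≠ j) : Disjoint (PP y i) (PP y j) := by
  rw [Finset.disjoint_left]
  intro l hi hj
  rw [mem_PP] at hi hj
  rcases Nat.lt_or_gt_of_ne hij with h | h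
  · have := zz_anti hy (show i + 1 ≤ j from h)
    linarith [hi.2.1, hj.2.2]
  · have := zz_anti hy (show j + 1 ≤ i from h)
    linarith [hj.2.1, hi.2.2]

theorem PP_card {y : ℝ} (hy : 1 ≤ y) (j : ℕ) : ((PP y j).card : ℝ) + 1 ≤ zz y j := by
  have h1 : PP y j ⊆ Finset.Icc 2 ⌊zz y j⌋₊ := by
    intro l hl
    rw [mem_PP] at hl
    rw [Finset.mem_Icc, Nat.le_floor_iff (zz_pos y j).le]
    exact ⟨hl.1.two_le, hl.2.2⟩
  have h2 := Finset.card_le_card h1
  rw [Nat.card_Icc] at h2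
  have h3 : 1 ≤ ⌊zz y j⌋₊ := by
    rw [Nat.one_le_floor_iff]
    exact zz_one_le hy j
  have h4 : (PP y j).card + 1 ≤ ⌊zz y j⌋₊ := by omega
  have h5 : ((⌊zz y j⌋₊ : ℕ) : ℝ) ≤ zz y j := Nat.floor_le (zz_pos y j).le
  refine le_trans ?_ h5
  exact_mod_cast h4

theorem PP_recip {y : ℝ} (_ : 1 ≤ y) (j : ℕ) : ∑ p ∈ PP y j, (1 : ℝ) / p ≤ 6 := by
  by_cases hz : zz y j < 2
  · have : PP y j = ∅ := by
      rw [Finset.eq_empty_iff_forall_notMem]
      intro l hl
      rw [mem_PP] at hl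
      have : (2 : ℝ) ≤ l := by exact_mod_cast hl.1.two_le
      linarith [hl.2.2]
    rw [this]
    norm_num
  · push Not at hz
    have hl2 : 0 < Real.log 2 := Real.log_pos (by norm_num)
    set lam := Real.log y / 2 ^ j with hlam
    have hlam2 : Real.log 2 ≤ lam := by
      have := Real.log_le_log (by norm_num) hz
      unfold zz at this
      rwa [Real.log_exp] at this
    have hlam0 : 0 < lam := hl2.trans_le hlam2
    have h1 : ∀ p ∈ PP y j, (1 : ℝ) / p ≤ 2 / lam * (Real.log p / p) := by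
      intro p hp
      rw [mem_PP] at hp
      have hp0 : (0 : ℝ) < p := by exact_mod_cast hp.1.pos
      have h2 : lam / 2 ≤ Real.log p := by
        have h3 := Real.log_le_log (zz_pos y (j + 1)) hp.2.1.le
        unfold zz at h3
        rw [Real.log_exp, pow_succ, ← div_div] at h3
        exact h3
      rw [mul_div_assoc', div_le_div_iff_of_pos_right hp0]
      rw [div_mul_eq_mul_div, le_div_iff₀ hlam0]
      linarith
    have hfl : 1 ≤ ⌊zz y j⌋₊ := by
      rw [Nat.one_le_floor_iff]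
      linarith
    calc ∑ p ∈ PP y j, (1 : ℝ) / p ≤ ∑ p ∈ PP y j, 2 / lam * (Real.log p / p) :=
          Finset.sum_le_sum h1
      _ = 2 / lam * ∑ p ∈ PP y j, (Real.log p / p) := by rw [Finset.mul_sum]
      _ ≤ 2 / lam * Pool.Agent.H85.Rho.AA ⌊zz y j⌋₊ := by
          refine mul_le_mul_of_nonneg_left ?_ (by positivity)
          unfold Pool.Agent.H85.Rho.AA
          refine Finset.sum_le_sum_of_subset_of_nonneg ?_ ?_
          · intro l hl
            rw [mem_PP] at hl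
            rw [Pool.Agent.H85.Rho.mem_pr, Nat.le_floor_iff (zz_pos y j).le]
            exact ⟨⟨hl.1.pos, hl.2.2⟩, hl.1⟩
          · intro i hi _
            have : 1 ≤ i := (Pool.Agent.H85.Rho.mem_pr.mp hi).2.one_lt.le
            exact div_nonneg (Real.log_nonneg (by exact_mod_cast this)) (by positivity)
      _ ≤ 2 / lam * (Real.log ⌊zz y j⌋₊ + Real.log 4) :=
          mul_le_mul_of_nonneg_left (Pool.Agent.H85.Rho.AA_le hfl) (by positivity)
      _ ≤ 2 / lam * (lam + Real.log 4) := by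
          refine mul_le_mul_of_nonneg_left ?_ (by positivity)
          have h5 : ((⌊zz y j⌋₊ : ℕ) : ℝ) ≤ zz y j := Nat.floor_le (zz_pos y j).le
          have h6 := Real.log_le_log (by exact_mod_cast hfl) h5
          unfold zz at h6
          rw [Real.log_exp] at h6
          unfold zz
          linarith
      _ ≤ 6 := by
          have h7 : Real.log 4 = 2 * Real.log 2 := by
            rw [show (4 : ℝ) = 2 ^ 2 by norm_num, Real.log_pow]
            norm_num
          rw [div_mul_eq_mul_div, div_le_iff₀ hlam0, h7]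
          linarith

theorem prod_lower (S : Finset ℕ) (hS : ∀ p ∈ S, p.Prime) (h6 : ∑ p ∈ S, (1 : ℝ) / p ≤ 6) :
    Real.exp (-12) ≤ ∏ p ∈ S, (1 - (1 : ℝ) / p) := by
  calc Real.exp (-12) ≤ Real.exp (∑ p ∈ S, -(2 * ((1 : ℝ) / p))) := by
        refine Real.exp_le_exp.mpr ?_
        rw [Finset.sum_neg_distrib, ← Finset.mul_sum]
        linarith
    _ = ∏ p ∈ S, Real.exp (-(2 * ((1 : ℝ) / p))) := Real.exp_sum _ _
    _ ≤ ∏ p ∈ S, (1 - (1 : ℝ) / p) := by
        refine Finset.prod_le_prod (fun p _ => (Real.exp_pos _).le) fun p hp => ?_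
        have hp2 : (2 : ℝ) ≤ p := by exact_mod_cast (hS p hp).two_le
        have h1 : (1 : ℝ) / p ≤ 1 / 2 := one_div_le_one_div_of_le (by norm_num) hp2
        have h0 : 0 ≤ (1 : ℝ) / p := by positivity
        refine le_trans ?_ (Pool.Agent.H85.Rho.one_sub_ge_exp h0 h1)
        refine Real.exp_le_exp.mpr ?_
        nlinarith [mul_nonneg h0 (sub_nonneg.mpr h1)]

theorem exists_B {v : ℝ} (hv : 0 < v) : ∃ B : ℕ, ∀ R : ℕ,
    ∑ j ∈ Finset.range R, (6 : ℝ) ^ (2 * (B + j) + 1) / ((2 * (B + j) + 1).factorial : ℝ) ≤ v := by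
  have h1 : Summable (fun n : ℕ => (6 : ℝ) ^ n / (n.factorial : ℝ)) :=
    Real.summable_pow_div_factorial 6
  rw [summable_iff_vanishing_norm] at h1
  obtain ⟨s, hs⟩ := h1 v hv
  refine ⟨s.sup id + 1, fun R => ?_⟩
  set B := s.sup id + 1 with hB
  have h2 := hs ((Finset.range R).image (fun j => 2 * (B + j) + 1)) ?_
  · rw [Finset.sum_image] at h2
    · exact (Real.le_norm_self _).trans h2.le
    · intro a _ b _ hab
      simp only at hab
      omega
  · rw [Finset.disjoint_left]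
    intro a ha hb
    rw [Finset.mem_image] at ha
    obtain ⟨j, _, rfl⟩ := ha
    have := Finset.le_sup (f := id) hb
    simp only [id] at this
    omega

theorem sum_expo (B R : ℕ) : ∑ j ∈ Finset.range R, ((2 * (B + j) + 1 : ℕ) : ℝ) / 2 ^ j =
    (4 * B + 6) - (4 * B + 6 + 4 * R) / 2 ^ R := by
  induction R with
  | zero => simp
  | succ R ih =>
    rw [Finset.sum_range_succ, ih, pow_succ]
    push_cast
    field_simp
    ring

theorem prod_zz {y : ℝ} (hy : 1 ≤ y) (B R : ℕ) :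
    ∏ j ∈ Finset.range R, (zz y j) ^ (2 * (B + j) + 1) ≤ y ^ (4 * B + 6) := by
  have h1 : ∏ j ∈ Finset.range R, (zz y j) ^ (2 * (B + j) + 1) =
      Real.exp (Real.log y * ∑ j ∈ Finset.range R, ((2 * (B + j) + 1 : ℕ) : ℝ) / 2 ^ j) := by
    rw [Finset.mul_sum, Real.exp_sum]
    refine Finset.prod_congr rfl fun j _ => ?_
    unfold zz
    rw [← Real.exp_nat_mul]
    congr 1
    ring
  have h2 : y ^ (4 * B + 6) = Real.exp (Real.log y * ((4 * B + 6 : ℕ) : ℝ)) := by
    rw [← Real.exp_log (show 0 < y by linarith), ← Real.exp_nat_mul, Real.log_exp]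
    congr 1
    ring
  rw [h1, h2]
  refine Real.exp_le_exp.mpr (mul_le_mul_of_nonneg_left ?_ (Real.log_nonneg hy))
  rw [sum_expo]
  have : 0 ≤ (4 * (B : ℝ) + 6 + 4 * R) / 2 ^ R := by positivity
  push_cast
  linarith

theorem cover {y : ℝ} (hy : 2 ≤ y) {l : ℕ} (hl : l.Prime) (hly : (l : ℝ) ≤ y) :
    ∃ j ∈ Finset.range (⌊y⌋₊ + 1), l ∈ PP y j := by
  have hy1 : 1 ≤ y := by linarith
  have hl2 : (2 : ℝ) ≤ l := by exact_mod_cast hl.two_le
  have hR : zz y (⌊y⌋₊ + 1) < 2 := by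
    have h1 : Real.log y ≤ y / 2 := by
      have h2 := Real.log_le_sub_one_of_pos (show 0 < y / 2 by linarith)
      rw [Real.log_div (by linarith) (by norm_num)] at h2
      linarith [Real.log_two_lt_d9]
    have h3 : y < 2 ^ (⌊y⌋₊ + 1) := by
      have h4 := Nat.lt_floor_add_one y
      have h5 : (⌊y⌋₊ + 1) < 2 ^ (⌊y⌋₊ + 1) := Nat.lt_two_pow_self
      have h6 : (((⌊y⌋₊ + 1 : ℕ)) : ℝ) < 2 ^ (⌊y⌋₊ + 1) := by exact_mod_cast h5
      push_cast at h6
      linarith
    unfold zz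
    rw [← Real.lt_log_iff_exp_lt (by norm_num), div_lt_iff₀ (by positivity)]
    have h7 := Real.log_two_gt_d9
    nlinarith
  by_contra hcon
  push Not at hcon
  have h : ∀ j, j ≤ ⌊y⌋₊ + 1 → (l : ℝ) ≤ zz y j := by
    intro j
    induction j with
    | zero => intro _; rw [zz_zero (by linarith)]; exact hly
    | succ j ih =>
      intro hj
      have h1 := ih (by omega)
      by_contra h2
      push Not at h2
      exact hcon j (Finset.mem_range.mpr (by omega)) (mem_PP.mpr ⟨hl, h2, h1⟩)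
  have := h (⌊y⌋₊ + 1) le_rfl
  linarith

/-- indicator of divisibility -/
noncomputable def dv (n p : ℕ) : ℝ := if p ∣ n then 1 else 0

theorem dv_mem (n p : ℕ) : 0 ≤ dv n p ∧ dv n p ≤ 1 := by
  unfold dv
  split_ifs <;> norm_num

theorem prod_dv {S : Finset ℕ} (hS : ∀ p ∈ S, p.Prime) (n : ℕ) :
    ∏ p ∈ S, dv n p = if ∏ p ∈ S, p ∣ n then 1 else 0 := by
  unfold dv
  by_cases h : ∀ p ∈ S, p ∣ n
  · rw [if_pos (Finset.prod_primes_dvd n (fun p hp => (hS p hp).prime) h)]
    exact Finset.prod_eq_one fun p hp => if_pos (h p hp)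
  · rw [if_neg]
    · push Not at h
      obtain ⟨p, hp, hpn⟩ := h
      exact Finset.prod_eq_zero hp (if_neg hpn)
    · intro hd
      exact h fun p hp => (Finset.dvd_prod_of_mem _ hp).trans hd

/-- families of subsets -/
noncomputable def SA (y : ℝ) (B j : ℕ) : Finset (Finset ℕ) :=
  (PP y j).powerset.filter (fun T => T.card ≤ 2 * (B + j))

noncomputable def SB (y : ℝ) (B j : ℕ) : Finset (Finset ℕ) :=
  (PP y j).powersetCard (2 * (B + j) + 1)

noncomputable def YY (y : ℝ) (B j n : ℕ) : ℝ := gs (PP y j) (2 * (B + j)) (dv n)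
noncomputable def EE (y : ℝ) (B j n : ℕ) : ℝ := es (PP y j) (2 * (B + j) + 1) (dv n)
noncomputable def XX (y : ℝ) (j n : ℕ) : ℝ := ∏ p ∈ PP y j, (1 - dv n p)
noncomputable def VV (y : ℝ) (B j : ℕ) : ℝ := gs (PP y j) (2 * (B + j)) (fun p => 1 / (p : ℝ))
noncomputable def WW (y : ℝ) (B j : ℕ) : ℝ := es (PP y j) (2 * (B + j) + 1) (fun p => 1 / (p : ℝ))

theorem PP_prime {y : ℝ} {j p : ℕ} (hp : p ∈ PP y j) : p.Prime := (mem_PP.mp hp).1

theorem YY_eq (y : ℝ) (B j n : ℕ) : YY y B j n =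
    ∑ T ∈ SA y B j, (-1 : ℝ) ^ T.card * (if ∏ p ∈ T, p ∣ n then 1 else 0) := by
  unfold YY gs SA
  refine Finset.sum_congr rfl fun T hT => ?_
  rw [Finset.mem_filter, Finset.mem_powerset] at hT
  rw [prod_dv fun p hp => PP_prime (hT.1 hp)]

theorem EE_eq (y : ℝ) (B j n : ℕ) : EE y B j n =
    ∑ T ∈ SB y B j, (1 : ℝ) * (if ∏ p ∈ T, p ∣ n then 1 else 0) := by
  unfold EE es SB
  refine Finset.sum_congr rfl fun T hT => ?_
  rw [Finset.mem_powersetCard] at hT
  rw [prod_dv fun p hp => PP_prime (hT.1 hp), one_mul]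

theorem VV_eq (y : ℝ) (B j : ℕ) : VV y B j =
    ∑ T ∈ SA y B j, (-1 : ℝ) ^ T.card / ((∏ p ∈ T, p : ℕ) : ℝ) := by
  unfold VV gs SA
  refine Finset.sum_congr rfl fun T hT => ?_
  rw [Nat.cast_prod, Finset.prod_div_distrib, Finset.prod_const_one, mul_one_div]

theorem WW_eq (y : ℝ) (B j : ℕ) : WW y B j =
    ∑ T ∈ SB y B j, (1 : ℝ) / ((∏ p ∈ T, p : ℕ) : ℝ) := by
  unfold WW es SB
  refine Finset.sum_congr rfl fun T hT => ?_
  rw [Nat.cast_prod, Finset.prod_div_distrib, Finset.prod_const_one]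

theorem SA_card {y : ℝ} (hy : 1 ≤ y) (B j : ℕ) :
    ((SA y B j).card : ℝ) ≤ (zz y j) ^ (2 * (B + j) + 1) := by
  have h1 := card_small_subsets (PP y j) (2 * (B + j))
  have h2 := PP_card hy j
  have h3 := zz_one_le hy j
  calc ((SA y B j).card : ℝ) ≤ (((PP y j).card : ℝ) + 1) ^ (2 * (B + j)) := h1
    _ ≤ (zz y j) ^ (2 * (B + j)) := pow_le_pow_left₀ (by positivity) h2 _
    _ ≤ (zz y j) ^ (2 * (B + j) + 1) := pow_le_pow_right₀ h3 (by omega)

theorem SB_card {y : ℝ} (hy : 1 ≤ y) (B j : ℕ) :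
    ((SB y B j).card : ℝ) ≤ (zz y j) ^ (2 * (B + j) + 1) := by
  have h2 := PP_card hy j
  have h3 := zz_one_le hy j
  unfold SB
  rw [Finset.card_powersetCard]
  calc (((PP y j).card.choose (2 * (B + j) + 1) : ℕ) : ℝ) ≤
      (((PP y j).card ^ (2 * (B + j) + 1) : ℕ) : ℝ) := by exact_mod_cast Nat.choose_le_pow _ _
    _ = ((PP y j).card : ℝ) ^ (2 * (B + j) + 1) := by push_cast; rfl
    _ ≤ (zz y j) ^ (2 * (B + j) + 1) := pow_le_pow_left₀ (by positivity) (by linarith) _

theorem filter_one_dvd (x H : ℝ) : (II x H).filter (fun n => 1 ∣ n) = II x H :=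
  Finset.filter_true_of_mem fun n _ => one_dvd n

theorem sumY {y : ℝ} (hy : 1 ≤ y) (B R : ℕ) {x H : ℝ} (hx : 0 ≤ x) (hH : 0 ≤ H) :
    H * ∏ j ∈ Finset.range R, VV y B j - y ^ (4 * B + 6) ≤
      ∑ n ∈ II x H, ∏ j ∈ Finset.range R, YY y B j n := by
  have h := rep_prod (Finset.range R) (PP y) (fun j _ q hq => PP_prime hq)
    (fun i _ j _ hij => PP_disjoint hy hij) (SA y B)
    (fun j _ T hT => by
      unfold SA at hT
      exact Finset.mem_powerset.mp (Finset.mem_filter.mp hT).1)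
    (fun _ T => (-1) ^ T.card) (fun j _ T _ => by simp) 1 one_pos
    (fun p _ => Nat.coprime_one_right p) x H hx hH
  rw [filter_one_dvd] at h
  simp only [← YY_eq, ← VV_eq, Nat.cast_one, div_one] at h
  have h2 : ∏ j ∈ Finset.range R, ((SA y B j).card : ℝ) ≤ y ^ (4 * B + 6) :=
    (Finset.prod_le_prod (fun j _ => by positivity) (fun j _ => SA_card hy B j)).trans
      (prod_zz hy B R)
  have h3 := (abs_le.mp h).1
  linarith

theorem prod_ite_erase (s : Finset ℕ) {j0 : ℕ} (hj : j0 ∈ s) (A C : ℕ → ℝ) :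
    ∏ j ∈ s, (if j = j0 then A j else C j) = A j0 * ∏ j ∈ s.erase j0, C j := by
  rw [← Finset.mul_prod_erase s _ hj, if_pos rfl]
  congr 1
  refine Finset.prod_congr rfl fun j hj' => ?_
  rw [if_neg (Finset.ne_of_mem_erase hj')]

theorem sumE {y : ℝ} (hy : 1 ≤ y) (B R : ℕ) {j0 : ℕ} (hj0 : j0 ∈ Finset.range R) {x H : ℝ}
    (hx : 0 ≤ x) (hH : 0 ≤ H) :
    ∑ n ∈ II x H, EE y B j0 n * ∏ j ∈ (Finset.range R).erase j0, YY y B j n ≤
    H * (WW y B j0 * ∏ j ∈ (Finset.range R).erase j0, VV y B j) + y ^ (4 * B + 6) := by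
  have h := rep_prod (Finset.range R) (PP y) (fun j _ q hq => PP_prime hq)
    (fun i _ j _ hij => PP_disjoint hy hij) (fun j => if j = j0 then SB y B j else SA y B j)
    (fun j _ T hT => by
      split_ifs at hT
      · unfold SB at hT
        exact (Finset.mem_powersetCard.mp hT).1
      · unfold SA at hT
        exact Finset.mem_powerset.mp (Finset.mem_filter.mp hT).1)
    (fun j T => if j = j0 then 1 else (-1) ^ T.card)
    (fun j _ T _ => by split_ifs <;> simp) 1 one_pos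
    (fun p _ => Nat.coprime_one_right p) x H hx hH
  rw [filter_one_dvd] at h
  have e1 : ∀ n : ℕ, ∏ j ∈ Finset.range R, ∑ T ∈ (if j = j0 then SB y B j else SA y B j),
      (if j = j0 then (1 : ℝ) else (-1) ^ T.card) * (if ∏ p ∈ T, p ∣ n then (1 : ℝ) else 0) =
      EE y B j0 n * ∏ j ∈ (Finset.range R).erase j0, YY y B j n := by
    intro n
    rw [← prod_ite_erase _ hj0 (fun j => EE y B j n) (fun j => YY y B j n)]
    refine Finset.prod_congr rfl fun j _ => ?_
    by_cases hj : j = j0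
    · simp only [if_pos hj]
      rw [EE_eq]
    · simp only [if_neg hj]
      rw [YY_eq]
  have e2 : ∏ j ∈ Finset.range R, ∑ T ∈ (if j = j0 then SB y B j else SA y B j),
      (if j = j0 then (1 : ℝ) else (-1) ^ T.card) / ((∏ p ∈ T, p : ℕ) : ℝ) =
      WW y B j0 * ∏ j ∈ (Finset.range R).erase j0, VV y B j := by
    rw [← prod_ite_erase _ hj0 (fun j => WW y B j) (fun j => VV y B j)]
    refine Finset.prod_congr rfl fun j _ => ?_
    by_cases hj : j = j0
    · simp only [if_pos hj]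
      rw [WW_eq]
    · simp only [if_neg hj]
      rw [VV_eq]
  simp only [e1, e2, Nat.cast_one, div_one] at h
  have h2 : ∏ j ∈ Finset.range R, (((if j = j0 then SB y B j else SA y B j).card : ℕ) : ℝ) ≤
      y ^ (4 * B + 6) := by
    refine (Finset.prod_le_prod (fun j _ => by positivity) (fun j _ => ?_)).trans
      (prod_zz hy B R)
    split_ifs
    · exact SB_card hy B j
    · exact SA_card hy B j
  have h3 := (abs_le.mp h).2
  linarith

end Sv

open Sv in
theorem SIEVE : S_SIEVE := by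
  obtain ⟨C, hC, hm⟩ := Pool.Agent.H85.Rho.mertens_prod
  have hv : 0 < Real.exp (-12) := Real.exp_pos _
  obtain ⟨B, hB⟩ := exists_B (show 0 < Real.exp (-12) / 2 by positivity)
  obtain ⟨M, hM⟩ := exists_nat_gt (8 * C)
  refine ⟨4 * B + 8 + M, 1 / (4 * C), by positivity, ?_⟩
  intro x y H hx hy hyH
  have hy1 : 1 ≤ y := by linarith
  have hy0 : 0 < y := by linarith
  have hlogy : 0 < Real.log y := Real.log_pos (by linarith)
  have hH : 0 ≤ H := le_trans (by positivity) hyH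
  set R := ⌊y⌋₊ + 1 with hR
  set s := Finset.range R with hs
  have hinv : ∀ p : ℕ, p.Prime → 0 ≤ 1 / (p : ℝ) ∧ 1 / (p : ℝ) ≤ 1 := by
    intro p hp
    refine ⟨by positivity, ?_⟩
    have : (1 : ℝ) ≤ p := by exact_mod_cast hp.one_lt.le
    rw [div_le_one (by linarith)]
    exact this
  -- lower bound for the number of sifted integers
  have step1 : ∑ n ∈ II x H, ∏ j ∈ s, XX y j n ≤ (((Finset.range (⌊x + H⌋₊ + 1)).filter
      (fun n : ℕ => x < n ∧ ∀ l ∈ n.primeFactors, y < (l : ℝ))).card : ℝ) := by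
    have h1 : ∑ n ∈ II x H, ∏ j ∈ s, XX y j n ≤
        ∑ n ∈ II x H, (if ∀ l ∈ n.primeFactors, y < (l : ℝ) then (1 : ℝ) else 0) := by
      refine Finset.sum_le_sum fun n hn => ?_
      have hX : ∀ j, 0 ≤ XX y j n ∧ XX y j n ≤ 1 := fun j =>
        prod_one_sub_mem (fun p _ => dv_mem n p)
      split_ifs with h
      · exact Finset.prod_le_one (fun j _ => (hX j).1) (fun j _ => (hX j).2)
      · push Not at h
        obtain ⟨l, hl, hly⟩ := h
        obtain ⟨j, hj, hlj⟩ := cover hy (Nat.prime_of_mem_primeFactors hl) hly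
        refine le_of_eq (Finset.prod_eq_zero hj ?_)
        refine Finset.prod_eq_zero hlj ?_
        unfold dv
        rw [if_pos (Nat.dvd_of_mem_primeFactors hl), sub_self]
    refine h1.trans (le_of_eq ?_)
    rw [← Finset.sum_filter, Finset.sum_const, nsmul_eq_mul, mul_one]
    unfold II
    rw [Finset.filter_filter]
  have hXY : ∀ n j, 0 ≤ XX y j n ∧ XX y j n ≤ YY y B j n ∧ YY y B j n - XX y j n ≤ EE y B j n := by
    intro n j
    have h1 := bonf_even (PP y j) (dv n) (fun p _ => dv_mem n p) (B + j)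
    exact ⟨(prod_one_sub_mem (fun p _ => dv_mem n p)).1, h1.1, h1.2⟩
  have step2 : ∑ n ∈ II x H, ∏ j ∈ s, YY y B j n -
      ∑ j ∈ s, ∑ n ∈ II x H, EE y B j n * ∏ i ∈ s.erase j, YY y B i n ≤
      ∑ n ∈ II x H, ∏ j ∈ s, XX y j n := by
    rw [Finset.sum_comm, sub_le_iff_le_add, ← Finset.sum_add_distrib]
    refine Finset.sum_le_sum fun n _ => ?_
    have := prod_diff_le s (fun j => XX y j n) (fun j => YY y B j n) (fun j => EE y B j n)
      (fun j _ => (hXY n j).1) (fun j _ => (hXY n j).2.1) (fun j _ => (hXY n j).2.2)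
    linarith
  have hVlow : ∀ j, ∏ p ∈ PP y j, (1 - (1 : ℝ) / p) ≤ VV y B j := fun j =>
    (bonf_even (PP y j) (fun p => 1 / (p : ℝ)) (fun p hp => hinv p (PP_prime hp)) (B + j)).1
  have hVv : ∀ j, Real.exp (-12) ≤ VV y B j := fun j =>
    (prod_lower (PP y j) (fun p hp => PP_prime hp) (PP_recip hy1 j)).trans (hVlow j)
  have hW : ∀ j, WW y B j ≤ (6 : ℝ) ^ (2 * (B + j) + 1) / ((2 * (B + j) + 1).factorial : ℝ) := by
    intro j
    refine (es_le (PP y j) (fun p => 1 / (p : ℝ)) (fun p _ => by positivity) _).2.trans ?_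
    refine div_le_div_of_nonneg_right ?_ (by positivity)
    exact pow_le_pow_left₀ (Finset.sum_nonneg fun p _ => by positivity) (PP_recip hy1 j) _
  have hW0 : ∀ j, 0 ≤ WW y B j := fun j =>
    (es_le (PP y j) (fun p => 1 / (p : ℝ)) (fun p _ => by positivity) _).1
  have hWsum : ∑ j ∈ s, WW y B j ≤ Real.exp (-12) / 2 :=
    (Finset.sum_le_sum fun j _ => hW j).trans (hB R)
  set V := ∏ j ∈ s, VV y B j with hV
  have hVpos : 0 < V := Finset.prod_pos fun j _ => hv.trans_le (hVv j)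
  have step3 : ∑ j ∈ s, WW y B j * ∏ i ∈ s.erase j, VV y B i ≤ V / 2 := by
    have h1 : ∀ j ∈ s, WW y B j * ∏ i ∈ s.erase j, VV y B i ≤ WW y B j * (V / Real.exp (-12)) := by
      intro j hj
      refine mul_le_mul_of_nonneg_left ?_ (hW0 j)
      rw [le_div_iff₀ hv, hV, ← Finset.mul_prod_erase s _ hj, mul_comm]
      refine mul_le_mul_of_nonneg_right (hVv j) ?_
      exact Finset.prod_nonneg fun i _ => hv.le.trans (hVv i)
    refine (Finset.sum_le_sum h1).trans ?_
    rw [← Finset.sum_mul]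
    calc (∑ j ∈ s, WW y B j) * (V / Real.exp (-12)) ≤
        Real.exp (-12) / 2 * (V / Real.exp (-12)) :=
          mul_le_mul_of_nonneg_right hWsum (by positivity)
      _ = V / 2 := by field_simp
  have step4 : H * (V / 2) - (y + 2) * y ^ (4 * B + 6) ≤ ∑ n ∈ II x H, ∏ j ∈ s, XX y j n := by
    refine le_trans ?_ step2
    have h1 := sumY hy1 B R hx hH
    have h2 : ∑ j ∈ s, ∑ n ∈ II x H, EE y B j n * ∏ i ∈ s.erase j, YY y B i n ≤
        ∑ j ∈ s, (H * (WW y B j * ∏ i ∈ s.erase j, VV y B i) + y ^ (4 * B + 6)) :=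
      Finset.sum_le_sum fun j hj => sumE hy1 B R hj hx hH
    rw [Finset.sum_add_distrib, ← Finset.mul_sum, Finset.sum_const, hs, Finset.card_range,
      nsmul_eq_mul, ← hs] at h2
    have h3 := mul_le_mul_of_nonneg_left step3 hH
    have h4 : (R : ℝ) ≤ y + 1 := by
      rw [hR]
      push_cast
      linarith [Nat.floor_le hy0.le]
    have h5 : (R : ℝ) * y ^ (4 * B + 6) ≤ (y + 1) * y ^ (4 * B + 6) :=
      mul_le_mul_of_nonneg_right h4 (by positivity)
    rw [← hs, ← hV] at h1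
    nlinarith [h1, h2, h3, h5]
  have step5 : 1 / (C * Real.log y) ≤ V := by
    have hfl : 2 ≤ ⌊y⌋₊ := by
      rw [Nat.le_floor_iff hy0.le]
      exact_mod_cast hy
    have h1 := hm ⌊y⌋₊ hfl
    have h2 : ∏ p ∈ Pool.Agent.H85.Rho.pr 0 ⌊y⌋₊, (1 - (1 : ℝ) / p) ≤ V := by
      have h3 : ∏ j ∈ s, ∏ p ∈ PP y j, (1 - (1 : ℝ) / p) ≤ V := by
        refine Finset.prod_le_prod (fun j _ => ?_) (fun j _ => hVlow j)
        exact (prod_one_sub_mem (fun p hp => hinv p (PP_prime hp))).1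
      refine le_trans ?_ h3
      rw [← Finset.prod_biUnion]
      · have hsub : s.biUnion (PP y) ⊆ Pool.Agent.H85.Rho.pr 0 ⌊y⌋₊ := by
          intro l hl
          rw [Finset.mem_biUnion] at hl
          obtain ⟨j, _, hl⟩ := hl
          rw [mem_PP] at hl
          rw [Pool.Agent.H85.Rho.mem_pr, Nat.le_floor_iff hy0.le]
          refine ⟨⟨hl.1.pos, hl.2.2.trans ?_⟩, hl.1⟩
          have := zz_anti hy1 (Nat.zero_le j)
          rwa [zz_zero hy0] at this
        rw [← Finset.prod_sdiff hsub]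
        have h4 : ∏ p ∈ Pool.Agent.H85.Rho.pr 0 ⌊y⌋₊ \ s.biUnion (PP y), (1 - (1 : ℝ) / p) ≤ 1 := by
          refine (prod_one_sub_mem (a := fun p : ℕ => 1 / (p : ℝ)) fun p hp => hinv p ?_).2
          exact (Pool.Agent.H85.Rho.mem_pr.mp (Finset.mem_sdiff.mp hp).1).2
        have h5 : 0 ≤ ∏ p ∈ s.biUnion (PP y), (1 - (1 : ℝ) / p) := by
          refine (prod_one_sub_mem (a := fun p : ℕ => 1 / (p : ℝ)) fun p hp => hinv p ?_).1
          rw [Finset.mem_biUnion] at hp
          obtain ⟨j, _, hp⟩ := hp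
          exact PP_prime hp
        nlinarith
      · intro i _ j _ hij
        exact PP_disjoint hy1 hij
    have hfl' : (1 : ℝ) < ((⌊y⌋₊ : ℕ) : ℝ) := by exact_mod_cast (by omega : 1 < ⌊y⌋₊)
    have h6 : 1 / Real.log y ≤ 1 / Real.log ⌊y⌋₊ := by
      refine one_div_le_one_div_of_le (Real.log_pos hfl') ?_
      exact Real.log_le_log (by linarith) (Nat.floor_le hy0.le)
    have h7 : 1 / Real.log y ≤ C * V := h6.trans (h1.trans (mul_le_mul_of_nonneg_left h2 hC.le))
    calc 1 / (C * Real.log y) = 1 / Real.log y / C := by rw [div_div, mul_comm]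
      _ ≤ C * V / C := div_le_div_of_nonneg_right h7 hC.le
      _ = V := by field_simp
  refine le_trans ?_ (step4.trans step1)
  have hlogle : Real.log y ≤ y := (Real.log_le_sub_one_of_pos hy0).trans (by linarith)
  have h1 : 8 * C ≤ y ^ M := by
    have h2 : (M : ℝ) < 2 ^ M := by exact_mod_cast (Nat.lt_two_pow_self (n := M))
    have h3 : (2 : ℝ) ^ M ≤ y ^ M := pow_le_pow_left₀ (by norm_num) hy M
    linarith
  have h2 : 8 * C * y ^ (4 * B + 8) ≤ H := by
    refine le_trans ?_ hyH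
    rw [pow_add _ (4 * B + 8) M, mul_comm]
    exact mul_le_mul_of_nonneg_left h1 (by positivity)
  have h3 : 1 / (4 * C) * H / Real.log y = H * (1 / (C * Real.log y) / 2) -
      H / (4 * C * Real.log y) := by field_simp; ring
  rw [h3]
  have h4 : H * (1 / (C * Real.log y) / 2) ≤ H * (V / 2) :=
    mul_le_mul_of_nonneg_left (by linarith) hH
  have h5 : (y + 2) * y ^ (4 * B + 6) ≤ H / (4 * C * Real.log y) := by
    rw [le_div_iff₀ (by positivity)]
    have h6 : (y + 2) * y ^ (4 * B + 6) * (4 * C * Real.log y) ≤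
        (2 * y) * y ^ (4 * B + 6) * (4 * C * y) := by
      refine mul_le_mul ?_ (mul_le_mul_of_nonneg_left hlogle (by positivity)) (by positivity)
        (by positivity)
      exact mul_le_mul_of_nonneg_right (by linarith) (by positivity)
    refine h6.trans (le_trans (le_of_eq ?_) h2)
    rw [show 4 * B + 8 = (4 * B + 6) + 2 by ring, pow_add y (4 * B + 6) 2]
    ring
  linarith

end PM
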