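import Pool.Agent.H24.PM.Stmts

/-! Module SML: removing the small primes, lower bound. -/

namespace PM
open MeasureTheory Complex

theorem sml_zc_cont : Continuous zc := by
  unfold zc
  exact (fourier 1).continuous

theorem sml_chi_cont (n : ℕ) : Continuous (chi n) := by
  unfold chi
  exact continuous_finsetProd _ fun p _ => (sml_zc_cont.comp (continuous_apply p)).pow _

theorem sml_DA_cont (γ : ℝ) (A : Finset ℕ) (z : ℝ) : Continuous (DA γ A z) := by
  unfold DA
  exact continuous_finsetSum _ fun n _ => continuous_const.mul (sml_chi_cont n)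

theorem sml_mix_cont (A : Set ℕ) : Continuous (mix A) := by
  unfold mix
  refine continuous_pi fun l => ?_
  by_cases h : l ∈ A
  · simp only [h, if_true]
    exact (continuous_apply l).comp continuous_fst
  · simp only [h, if_false]
    exact (continuous_apply l).comp continuous_snd

/-- one variable: the value at zero -/
theorem sml_one (hB : S_BW1) {p : ℝ} (hp : 0 < p) (Q : Polynomial ℂ) :
    ‖Q.coeff 0‖ ^ p ≤ ∫ x : UnitAddCircle, ‖Q.eval (zc x)‖ ^ p := by
  obtain ⟨m, hm⟩ := exists_nat_gt p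
  have hm0 : (0 : ℝ) < m := hp.trans hm
  have hq0 : 0 < p / m := by positivity
  have hq1 : p / m ≤ 2 := by
    rw [div_le_iff₀ hm0]
    linarith
  have h := hB (p / m) hq0 hq1 (Q ^ m)
  have e1 : (Q ^ m).coeff 0 = Q.coeff 0 ^ m := by
    rw [Polynomial.coeff_zero_eq_eval_zero, Polynomial.eval_pow, Polynomial.coeff_zero_eq_eval_zero]
  have e2 : ∀ y : ℝ, 0 ≤ y → (y ^ m) ^ (p / m) = y ^ p := by
    intro y hy
    rw [← Real.rpow_natCast, ← Real.rpow_mul hy]
    congr 1
    field_simp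
  calc ‖Q.coeff 0‖ ^ p = (‖(Q ^ m).coeff 0‖ ^ 2) ^ (p / m / 2) := by
        rw [e1, norm_pow, ← Real.rpow_natCast (‖Q.coeff 0‖ ^ m) 2, ← Real.rpow_mul (by positivity),
          ← e2 _ (norm_nonneg _)]
        congr 1
        push_cast
        ring
    _ ≤ (‖(Q ^ m).coeff 0‖ ^ 2 + p / m / 2 * ‖(Q ^ m).coeff 1‖ ^ 2) ^ (p / m / 2) := by
        refine Real.rpow_le_rpow (by positivity) ?_ (by positivity)
        have : 0 ≤ p / m / 2 * ‖(Q ^ m).coeff 1‖ ^ 2 := by positivity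
        linarith
    _ ≤ _ := h
    _ = _ := by
        refine integral_congr_ae (Filter.Eventually.of_forall fun x => ?_)
        show ‖(Q ^ m).eval (zc x)‖ ^ (p / m) = _
        rw [Polynomial.eval_pow, norm_pow, e2 _ (norm_nonneg _)]

theorem sml_PrS {u v : ℝ} (hv : 0 ≤ v) {l : ℕ} : l ∈ PrS u v ↔ l.Prime ∧ u < l ∧ (l : ℝ) ≤ v := by
  unfold PrS
  rw [Finset.mem_filter, Finset.mem_range, Nat.lt_succ_iff, Nat.le_floor_iff hv]
  tauto

/-- the polynomial in the coordinate `l` -/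
noncomputable def smlQ (γ : ℝ) (A : Finset ℕ) (N l : ℕ) (ω : Om) : Polynomial ℂ :=
  ∑ r ∈ (Finset.Icc 1 N).filter (fun r => r.primeFactors ⊆ {l}),
    Polynomial.monomial (r.factorization l) ((b γ r : ℂ) * DA γ A (N / r) ω)

theorem sml_chi_single {l r : ℕ} (hr : r.primeFactors ⊆ {l}) (ω : Om) :
    chi r ω = zc (ω l) ^ r.factorization l := by
  unfold chi
  rcases Finset.subset_singleton_iff.1 hr with h | h
  · rw [h, Finset.prod_empty]
    have : r.factorization l = 0 := by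
      rw [← Finsupp.notMem_support_iff, Nat.support_factorization, h]
      simp
    rw [this, pow_zero]
  · rw [h, Finset.prod_singleton]

theorem sml_fac_one {l r : ℕ} (hr0 : r ≠ 0) (hr : r.primeFactors ⊆ {l})
    (h : r.factorization l = 0) : r = 1 := by
  rcases Finset.subset_singleton_iff.1 hr with h1 | h1
  · rcases Nat.primeFactors_eq_empty.1 h1 with h2 | h2
    · exact absurd h2 hr0
    · exact h2
  · exfalso
    have : l ∈ r.primeFactors := by rw [h1]; simp
    rw [← Nat.support_factorization, Finsupp.mem_support_iff] at this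
    exact this h

theorem sml_coeff (γ : ℝ) (A : Finset ℕ) {N l : ℕ} (hN : 1 ≤ N) (ω : Om) :
    (smlQ γ A N l ω).coeff 0 = DA γ A N ω := by
  unfold smlQ
  rw [Polynomial.finsetSum_coeff, Finset.sum_eq_single 1]
  · simp [b]
  · intro r hr hr1
    rw [Finset.mem_filter, Finset.mem_Icc] at hr
    rw [Polynomial.coeff_monomial, if_neg]
    exact fun h => hr1 (sml_fac_one (by omega) hr.2 h)
  · intro h
    exfalso
    apply h
    rw [Finset.mem_filter, Finset.mem_Icc]
    exact ⟨⟨le_rfl, hN⟩, by simp⟩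

theorem sml_eval (hS : S_SPLIT) (γ : ℝ) {A : Finset ℕ} {N l : ℕ} (hA : ∀ q ∈ A, q.Prime)
    (hl : l.Prime) (hlA : l ∉ A) (ω : Om) :
    DA γ (A ∪ {l}) N ω = (smlQ γ A N l ω).eval (zc (ω l)) := by
  rw [hS γ A {l} hA (by simpa using hl) (by simpa using hlA) N ω (Nat.cast_nonneg N),
    Nat.floor_natCast]
  unfold smlQ
  rw [Polynomial.eval_finsetSum]
  refine Finset.sum_congr rfl fun r hr => ?_
  rw [Finset.mem_filter] at hr
  rw [Polynomial.eval_monomial, sml_chi_single hr.2]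
  ring

theorem sml_DA_mix (γ : ℝ) {A : Finset ℕ} {l : ℕ} (hlA : l ∉ A) (z : ℝ) (q : Om × Om) :
    DA γ A z (mix {l} q) = DA γ A z q.2 := by
  unfold DA
  refine Finset.sum_congr rfl fun n hn => ?_
  rw [Finset.mem_filter] at hn
  congr 1
  unfold chi
  refine Finset.prod_congr rfl fun m hm => ?_
  have : m ≠ l := fun h => hlA (h ▸ hn.2 hm)
  congr 2
  unfold mix
  rw [if_neg (by simpa using this)]

theorem sml_step (hS : S_SPLIT) (hB : S_BW1) (hM : S_MIX) (γ : ℝ) {p : ℝ} (hp : 0 < p)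
    {A : Finset ℕ} {N l : ℕ} (hN : 1 ≤ N) (hA : ∀ q ∈ A, q.Prime) (hl : l.Prime) (hlA : l ∉ A) :
    ∫ ω : Om, ‖DA γ A N ω‖ ^ p ∂P ≤ ∫ ω : Om, ‖DA γ (A ∪ {l}) N ω‖ ^ p ∂P := by
  have hcont : ∀ B : Finset ℕ, Continuous (fun ω => ‖DA γ B N ω‖ ^ p) := fun B =>
    (sml_DA_cont γ B N).norm.rpow_const fun _ => Or.inr hp.le
  have h1 : ∫ ω : Om, ‖DA γ (A ∪ {l}) N ω‖ ^ p ∂P =
      ∫ q : Om × Om, ‖DA γ (A ∪ {l}) N (mix {l} q)‖ ^ p ∂(P.prod P) := by
    rw [← (hM {l}).map_eq, integral_map (hM {l}).aemeasurable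
      (by rw [(hM {l}).map_eq]; exact (hcont _).aestronglyMeasurable)]
    rw [(hM {l}).map_eq]
  have hint : Integrable (fun q : Om × Om => ‖DA γ (A ∪ {l}) N (mix {l} q)‖ ^ p) (P.prod P) :=
    ((hcont _).comp (sml_mix_cont {l})).integrable_of_hasCompactSupport
      (HasCompactSupport.of_compactSpace _)
  rw [h1, integral_prod_symm _ hint]
  refine integral_mono ((hcont A).integrable_of_hasCompactSupport
      (HasCompactSupport.of_compactSpace _)) hint.integral_prod_right fun ω2 => ?_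
  show ‖DA γ A N ω2‖ ^ p ≤ ∫ ω1 : Om, ‖DA γ (A ∪ {l}) N (mix {l} (ω1, ω2))‖ ^ p ∂P
  have h2 : ∀ ω1 : Om, DA γ (A ∪ {l}) N (mix {l} (ω1, ω2)) =
      (smlQ γ A N l ω2).eval (zc (ω1 l)) := by
    intro ω1
    rw [sml_eval hS γ hA hl hlA]
    have e1 : smlQ γ A N l (mix {l} (ω1, ω2)) = smlQ γ A N l ω2 := by
      unfold smlQ
      refine Finset.sum_congr rfl fun r _ => ?_
      rw [sml_DA_mix γ hlA]
    have e2 : mix {l} (ω1, ω2) l = ω1 l := by
      unfold mix
      rw [if_pos (Set.mem_singleton l)]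
    rw [e1, e2]
  simp_rw [h2]
  have h3 : ∫ ω1 : Om, ‖(smlQ γ A N l ω2).eval (zc (ω1 l))‖ ^ p ∂P =
      ∫ x : UnitAddCircle, ‖(smlQ γ A N l ω2).eval (zc x)‖ ^ p := by
    have hmp : MeasurePreserving (fun ω : Om => ω l) P (volume : Measure UnitAddCircle) :=
      measurePreserving_eval_infinitePi (fun _ : ℕ => (volume : Measure UnitAddCircle)) l
    rw [← hmp.map_eq, integral_map hmp.aemeasurable]
    refine Continuous.aestronglyMeasurable ?_
    exact (((smlQ γ A N l ω2).continuous.comp sml_zc_cont).norm.rpow_const fun _ => Or.inr hp.le)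
  rw [h3, ← sml_coeff γ A (l := l) hN ω2]
  exact sml_one hB hp _

theorem sml_union (hS : S_SPLIT) (hB : S_BW1) (hM : S_MIX) (γ : ℝ) {p : ℝ} (hp : 0 < p)
    {A : Finset ℕ} {N : ℕ} (hN : 1 ≤ N) (hA : ∀ q ∈ A, q.Prime) (B : Finset ℕ) :
    (∀ q ∈ B, q.Prime) →
    ∫ ω : Om, ‖DA γ A N ω‖ ^ p ∂P ≤ ∫ ω : Om, ‖DA γ (A ∪ B) N ω‖ ^ p ∂P := by
  classical
  induction B using Finset.induction_on with
  | empty => intro _; simp
  | insert l B hl ih =>
    intro h
    have h1 := ih fun q hq => h q (Finset.mem_insert_of_mem hq)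
    refine h1.trans ?_
    have e : A ∪ insert l B = (A ∪ B) ∪ {l} := by
      ext x
      simp only [Finset.mem_union, Finset.mem_insert, Finset.mem_singleton]
      tauto
    rw [e]
    by_cases hl' : l ∈ A ∪ B
    · have e2 : A ∪ B ∪ {l} = A ∪ B := Finset.union_eq_left.2 (Finset.singleton_subset_iff.2 hl')
      rw [e2]
    · refine sml_step hS hB hM γ hp hN ?_ (h l (Finset.mem_insert_self l B)) hl'
      intro q hq
      rcases Finset.mem_union.1 hq with hq | hq
      · exact hA q hq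
      · exact h q (Finset.mem_insert_of_mem hq)

theorem sml_D (γ : ℝ) (p0 N : ℕ) (ω : Om) :
    D γ N ω = DA γ (PrS p0 N ∪ PrS 0 p0) N ω := by
  unfold D DA
  rw [Nat.floor_natCast, Finset.filter_true_of_mem]
  intro n hn l hl
  rw [Finset.mem_Icc] at hn
  have hl' := Nat.mem_primeFactors.1 hl
  have h1 : l ≤ N := (Nat.le_of_dvd (by omega) hl'.2.1).trans hn.2
  rw [Finset.mem_union, sml_PrS (Nat.cast_nonneg N), sml_PrS (Nat.cast_nonneg p0)]
  rcases Nat.lt_or_ge p0 l with h | h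
  · left
    exact ⟨hl'.1, by exact_mod_cast h, by exact_mod_cast h1⟩
  · right
    exact ⟨hl'.1, by exact_mod_cast hl'.1.pos, by exact_mod_cast h⟩

theorem SML (hS : S_SPLIT) (hB : S_BW1) (hM : S_MIX) : S_SML := by
  intro γ p0 p hp N hN
  have h := sml_union hS hB hM γ hp (A := PrS p0 N) hN
    (fun q hq => ((sml_PrS (Nat.cast_nonneg N)).1 hq).1) (PrS 0 p0)
    (fun q hq => ((sml_PrS (Nat.cast_nonneg p0)).1 hq).1)
  refine h.trans (le_of_eq ?_)
  refine integral_congr_ae (Filter.Eventually.of_forall fun ω => ?_)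
  show ‖DA γ (PrS p0 N ∪ PrS 0 p0) N ω‖ ^ p = ‖D γ N ω‖ ^ p
  rw [sml_D γ p0 N ω]

end PM
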