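import Pool.Agent.H24.PM.Stmts

/-! Module SMU: removing the small primes, upper bound. -/

namespace PM
open MeasureTheory Complex

theorem smu_zc_cont : Continuous zc := by
  unfold zc
  exact (fourier 1).continuous

theorem smu_chi_cont (n : ℕ) : Continuous (chi n) := by
  unfold chi
  exact continuous_finsetProd _ fun p _ => (smu_zc_cont.comp (continuous_apply p)).pow _

theorem smu_zc_norm (x : UnitAddCircle) : ‖zc x‖ = 1 := by
  unfold zc
  rw [fourier_apply]
  exact Circle.norm_coe _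

theorem smu_chi_norm (n : ℕ) (ω : Om) : ‖chi n ω‖ = 1 := by
  unfold chi
  rw [norm_prod]
  exact Finset.prod_eq_one fun p _ => by rw [norm_pow, smu_zc_norm, one_pow]

theorem smu_DA_cont (γ : ℝ) (A : Finset ℕ) (z : ℝ) : Continuous (DA γ A z) := by
  unfold DA
  exact continuous_finsetSum _ fun n _ => continuous_const.mul (smu_chi_cont n)

theorem smu_int {f : Om → ℝ} (hf : Continuous f) : Integrable f P :=
  hf.integrable_of_hasCompactSupport (HasCompactSupport.of_compactSpace f)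

theorem smu_sum_rpow {p : ℝ} (hp0 : 0 < p) (hp1 : p ≤ 1) (S : Finset ℕ) (f : ℕ → ℝ)
    (hf : ∀ i, 0 ≤ f i) : (∑ i ∈ S, f i) ^ p ≤ ∑ i ∈ S, f i ^ p := by
  classical
  induction S using Finset.induction_on with
  | empty => simp [Real.zero_rpow hp0.ne']
  | insert a S ha ih =>
    rw [Finset.sum_insert ha, Finset.sum_insert ha]
    refine (Real.rpow_add_le_add_rpow (hf a) (Finset.sum_nonneg fun i _ => hf i) hp0.le hp1).trans ?_
    linarith

theorem smu_PrS {u v : ℝ} (hv : 0 ≤ v) {l : ℕ} : l ∈ PrS u v ↔ l.Prime ∧ u < l ∧ (l : ℝ) ≤ v := by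
  unfold PrS
  rw [Finset.mem_filter, Finset.mem_range, Nat.lt_succ_iff, Nat.le_floor_iff hv]
  tauto

theorem smu_D (γ : ℝ) (p0 N : ℕ) (ω : Om) :
    D γ N ω = DA γ (PrS p0 N ∪ PrS 0 p0) N ω := by
  unfold D DA
  rw [Nat.floor_natCast, Finset.filter_true_of_mem]
  intro n hn l hl
  rw [Finset.mem_Icc] at hn
  have hl' := Nat.mem_primeFactors.1 hl
  have h1 : l ≤ N := (Nat.le_of_dvd (by omega) hl'.2.1).trans hn.2
  rw [Finset.mem_union, smu_PrS (Nat.cast_nonneg N), smu_PrS (Nat.cast_nonneg p0)]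
  rcases Nat.lt_or_ge p0 l with h | h
  · left
    exact ⟨hl'.1, by exact_mod_cast h, by exact_mod_cast h1⟩
  · right
    exact ⟨hl'.1, by exact_mod_cast hl'.1.pos, by exact_mod_cast h⟩

theorem smu_disj (p0 N : ℕ) : Disjoint (PrS p0 N) (PrS 0 p0) := by
  rw [Finset.disjoint_left]
  intro l h1 h2
  rw [smu_PrS (Nat.cast_nonneg N)] at h1
  rw [smu_PrS (Nat.cast_nonneg p0)] at h2
  linarith [h1.2.1, h2.2.2]

theorem smu_trunc (γ : ℝ) (p0 N M : ℕ) {z : ℝ} (hM : ⌊z⌋₊ = M) (hMN : M ≤ N) (ω : Om) :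
    DA γ (PrS p0 N) z ω = DA γ (PrS p0 M) M ω := by
  unfold DA
  rw [hM, Nat.floor_natCast]
  refine Finset.sum_congr (Finset.filter_congr fun n hn => ?_) fun _ _ => rfl
  rw [Finset.mem_Icc] at hn
  constructor
  · intro h l hl
    have hl' := Nat.mem_primeFactors.1 hl
    have h1 : l ≤ M := (Nat.le_of_dvd (by omega) hl'.2.1).trans hn.2
    have h2 := (smu_PrS (Nat.cast_nonneg N)).1 (h hl)
    exact (smu_PrS (Nat.cast_nonneg M)).2 ⟨h2.1, h2.2.1, by exact_mod_cast h1⟩
  · intro h l hl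
    have h2 := (smu_PrS (Nat.cast_nonneg M)).1 (h hl)
    refine (smu_PrS (Nat.cast_nonneg N)).2 ⟨h2.1, h2.2.1, h2.2.2.trans ?_⟩
    exact_mod_cast hMN

theorem smu_summable (hE : S_EUL) (γ : ℝ) (p0 : ℕ) {p : ℝ} (hp : 0 < p) :
    Summable (fun n : ℕ => if n.primeFactors ⊆ PrS 0 p0 then b γ n ^ p else 0) := by
  have h := (hE (γ * p) (PrS 0 p0) (p / 2 - 1 / 2) 0 0 (fun l hl =>
    ((smu_PrS (Nat.cast_nonneg p0)).1 hl).1) (by linarith)).1
  refine h.congr fun n => ?_
  split_ifs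
  · rcases Nat.eq_zero_or_pos n with rfl | hn
    · simp [b, Real.zero_rpow hp.ne']
    have hn0 : (0 : ℝ) < n := by exact_mod_cast hn
    unfold b
    rw [Real.div_rpow (by positivity) (by positivity), ← Real.rpow_mul (by positivity),
      Real.sqrt_eq_rpow, ← Real.rpow_mul hn0.le, div_mul_eq_mul_div, div_eq_div_iff
      (by positivity) (by positivity), mul_assoc, ← Real.rpow_add hn0]
    congr 2
    ring
  · rfl

theorem SMU (hS : S_SPLIT) (hE : S_EUL) : S_SMU := by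
  intro γ p0 p hp0 hp1
  have hsum := smu_summable hE γ p0 hp0
  have hb : ∀ n : ℕ, 0 ≤ b γ n := fun n => by unfold b; positivity
  have hnn : ∀ n : ℕ, 0 ≤ (if n.primeFactors ⊆ PrS 0 p0 then b γ n ^ p else 0 : ℝ) := by
    intro n
    split_ifs
    · exact Real.rpow_nonneg (hb n) p
    · exact le_rfl
  refine ⟨(∑' n : ℕ, if n.primeFactors ⊆ PrS 0 p0 then b γ n ^ p else 0) + 1, ?_, ?_⟩
  · have h0 : 0 ≤ ∑' n : ℕ, (if n.primeFactors ⊆ PrS 0 p0 then b γ n ^ p else 0 : ℝ) :=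
      tsum_nonneg hnn
    linarith
  intro N U hN hU
  have hU0 : 0 ≤ U := by
    refine le_trans ?_ (hU 1 le_rfl hN)
    exact integral_nonneg fun ω => Real.rpow_nonneg (norm_nonneg _) p
  have hint : ∀ (A : Finset ℕ) (z : ℝ), Integrable (fun ω => ‖DA γ A z ω‖ ^ p) P := fun A z =>
    smu_int ((smu_DA_cont γ A z).norm.rpow_const fun _ => Or.inr hp0.le)
  have hle : ∀ ω, ‖D γ N ω‖ ^ p ≤ ∑ r ∈ (Finset.Icc 1 N).filter
      (fun r => r.primeFactors ⊆ PrS 0 p0),
      b γ r ^ p * ‖DA γ (PrS p0 N) (N / r) ω‖ ^ p := by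
    intro ω
    rw [smu_D γ p0 N ω, hS γ (PrS p0 N) (PrS 0 p0)
      (fun l hl => ((smu_PrS (Nat.cast_nonneg N)).1 hl).1)
      (fun l hl => ((smu_PrS (Nat.cast_nonneg p0)).1 hl).1) (smu_disj p0 N) N ω
      (Nat.cast_nonneg N), Nat.floor_natCast]
    refine (Real.rpow_le_rpow (norm_nonneg _) (norm_sum_le _ _) hp0.le).trans ?_
    refine (smu_sum_rpow hp0 hp1 _ _ fun i => norm_nonneg _).trans ?_
    refine Finset.sum_le_sum fun r _ => le_of_eq ?_
    rw [norm_mul, norm_mul, smu_chi_norm, mul_one, Complex.norm_real,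
      Real.norm_of_nonneg (hb r), Real.mul_rpow (hb r) (norm_nonneg _)]
  calc ∫ ω : Om, ‖D γ N ω‖ ^ p ∂P
      ≤ ∫ ω : Om, ∑ r ∈ (Finset.Icc 1 N).filter (fun r => r.primeFactors ⊆ PrS 0 p0),
          b γ r ^ p * ‖DA γ (PrS p0 N) (N / r) ω‖ ^ p ∂P := by
        refine integral_mono ?_ ?_ hle
        · have : (fun ω => ‖D γ N ω‖ ^ p) = fun ω => ‖DA γ (PrS p0 N ∪ PrS 0 p0) N ω‖ ^ p := by
            funext ω
            rw [smu_D γ p0 N ω]
          rw [this]
          exact hint _ _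
        · exact integrable_finsetSum _ fun r _ => (hint _ _).const_mul _
    _ = ∑ r ∈ (Finset.Icc 1 N).filter (fun r => r.primeFactors ⊆ PrS 0 p0),
          b γ r ^ p * ∫ ω : Om, ‖DA γ (PrS p0 N) (N / r) ω‖ ^ p ∂P := by
        rw [integral_finsetSum _ fun r _ => (hint _ _).const_mul _]
        exact Finset.sum_congr rfl fun r _ => integral_const_mul _ _
    _ ≤ ∑ r ∈ (Finset.Icc 1 N).filter (fun r => r.primeFactors ⊆ PrS 0 p0), b γ r ^ p * U := by
        refine Finset.sum_le_sum fun r hr => ?_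
        rw [Finset.mem_filter, Finset.mem_Icc] at hr
        refine mul_le_mul_of_nonneg_left ?_ (Real.rpow_nonneg (hb r) p)
        have hr0 : (0 : ℝ) < r := by exact_mod_cast hr.1.1
        have hMN : ⌊(N : ℝ) / r⌋₊ ≤ N := by
          refine Nat.floor_le_of_le ?_
          rw [div_le_iff₀ hr0]
          have : (1 : ℝ) ≤ r := by exact_mod_cast hr.1.1
          nlinarith [Nat.cast_nonneg (α := ℝ) N]
        have hM1 : 1 ≤ ⌊(N : ℝ) / r⌋₊ := by
          refine Nat.le_floor ?_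
          rw [le_div_iff₀ hr0]
          have : (r : ℝ) ≤ N := by exact_mod_cast hr.1.2
          push_cast
          linarith
        have := hU _ hM1 hMN
        refine le_trans (le_of_eq ?_) this
        refine integral_congr_ae (Filter.Eventually.of_forall fun ω => ?_)
        show ‖DA γ (PrS p0 N) (N / r) ω‖ ^ p = _
        rw [smu_trunc γ p0 N _ rfl hMN ω]
    _ = (∑ r ∈ (Finset.Icc 1 N).filter (fun r => r.primeFactors ⊆ PrS 0 p0), b γ r ^ p) * U := by
        rw [Finset.sum_mul]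
    _ ≤ ((∑' n : ℕ, if n.primeFactors ⊆ PrS 0 p0 then b γ n ^ p else 0) + 1) * U := by
        refine mul_le_mul_of_nonneg_right ?_ hU0
        rw [Finset.sum_filter]
        have := hsum.sum_le_tsum (Finset.Icc 1 N) (fun n _ => hnn n)
        linarith

end PM
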