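import Pool.Agent.H24.PM.Stmts

/-! Module SPLIT: splitting off the primes of a second set. -/

namespace PM
open MeasureTheory Complex

theorem split_chi_mul {m n : ℕ} (h : Nat.Coprime m n) (ω : Om) :
    chi (m * n) ω = chi m ω * chi n ω := by
  rcases Nat.eq_zero_or_pos m with rfl | hm
  · have : n = 1 := by simpa using h
    subst this
    simp [chi]
  rcases Nat.eq_zero_or_pos n with rfl | hn
  · have : m = 1 := by simpa using h
    subst this
    simp [chi]
  unfold chi
  rw [h.primeFactors_mul, Finset.prod_union h.disjoint_primeFactors]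
  congr 1
  · refine Finset.prod_congr rfl fun p hp => ?_
    rw [Nat.factorization_mul hm.ne' hn.ne', Finsupp.add_apply]
    have : n.factorization p = 0 := by
      refine Nat.factorization_eq_zero_of_not_dvd fun hd => ?_
      have hp' := Nat.mem_primeFactors.1 hp
      have := Nat.dvd_gcd hp'.2.1 hd
      rw [h.gcd_eq_one] at this
      exact hp'.1.one_lt.ne' (Nat.dvd_one.1 this)
    rw [this, add_zero]
  · refine Finset.prod_congr rfl fun p hp => ?_
    rw [Nat.factorization_mul hm.ne' hn.ne', Finsupp.add_apply]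
    have : m.factorization p = 0 := by
      refine Nat.factorization_eq_zero_of_not_dvd fun hd => ?_
      have hp' := Nat.mem_primeFactors.1 hp
      have := Nat.dvd_gcd hd hp'.2.1
      rw [h.gcd_eq_one] at this
      exact hp'.1.one_lt.ne' (Nat.dvd_one.1 this)
    rw [this, zero_add]

theorem split_b_mul (γ : ℝ) {m n : ℕ} (h : Nat.Coprime m n) :
    b γ (m * n) = b γ m * b γ n := by
  unfold b
  rw [h.card_divisors_mul, Nat.cast_mul, Nat.cast_mul, Real.sqrt_mul (Nat.cast_nonneg m),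
    Real.mul_rpow (Nat.cast_nonneg _) (Nat.cast_nonneg _)]
  ring

theorem split_ex (A B : Finset ℕ) : ∀ n : ℕ, n ≠ 0 → n.primeFactors ⊆ A ∪ B →
    ∃ r m : ℕ, r ≠ 0 ∧ m ≠ 0 ∧ n = r * m ∧ r.primeFactors ⊆ B ∧ m.primeFactors ⊆ A := by
  intro n
  induction n using Nat.recOnMul with
  | zero => intro h; exact absurd rfl h
  | one => intro _ _; exact ⟨1, 1, one_ne_zero, one_ne_zero, rfl, by simp, by simp⟩
  | prime p hp =>
    intro _ h
    rw [hp.primeFactors] at h
    have h' := h (Finset.mem_singleton_self p)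
    rcases Finset.mem_union.1 h' with h' | h'
    · refine ⟨1, p, one_ne_zero, hp.ne_zero, (one_mul p).symm, by simp, ?_⟩
      rw [hp.primeFactors]
      simpa using h'
    · refine ⟨p, 1, hp.ne_zero, one_ne_zero, (mul_one p).symm, ?_, by simp⟩
      rw [hp.primeFactors]
      simpa using h'
  | mul a b ha hb =>
    intro h0 h
    have ha0 : a ≠ 0 := left_ne_zero_of_mul h0
    have hb0 : b ≠ 0 := right_ne_zero_of_mul h0
    rw [Nat.primeFactors_mul ha0 hb0] at h
    obtain ⟨r, m, h1, h2, h3, h4, h5⟩ := ha ha0 (Finset.union_subset_left h)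
    obtain ⟨r', m', h1', h2', h3', h4', h5'⟩ := hb hb0 (Finset.union_subset_right h)
    refine ⟨r * r', m * m', mul_ne_zero h1 h1', mul_ne_zero h2 h2', ?_, ?_, ?_⟩
    · rw [h3, h3']
      ring
    · rw [Nat.primeFactors_mul h1 h1']
      exact Finset.union_subset h4 h4'
    · rw [Nat.primeFactors_mul h2 h2']
      exact Finset.union_subset h5 h5'

theorem split_cop {A B : Finset ℕ} (hAB : Disjoint A B) {r m : ℕ} (hr : r ≠ 0) (hm : m ≠ 0)
    (h1 : r.primeFactors ⊆ B) (h2 : m.primeFactors ⊆ A) : Nat.Coprime r m :=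
  (Nat.disjoint_primeFactors hr hm).1 (Finset.disjoint_of_subset_left h1
    (Finset.disjoint_of_subset_right h2 hAB.symm))

theorem SPLIT : S_SPLIT := by
  intro γ A B hA hB hAB z ω hz
  unfold DA
  simp_rw [Finset.mul_sum]
  rw [Finset.sum_sigma']
  symm
  refine Finset.sum_bij (fun q _ => q.1 * q.2) ?_ ?_ ?_ ?_
  · rintro ⟨r, m⟩ hq
    simp only [Finset.mem_sigma, Finset.mem_filter, Finset.mem_Icc] at hq ⊢
    obtain ⟨⟨⟨hr1, hr2⟩, hr3⟩, ⟨hm1, hm2⟩, hm3⟩ := hq
    have hr0 : (0 : ℝ) < r := by exact_mod_cast hr1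
    refine ⟨⟨Nat.mul_pos hr1 hm1, ?_⟩, ?_⟩
    · refine Nat.le_floor ?_
      have := (Nat.le_floor_iff (by positivity)).1 hm2
      rw [le_div_iff₀ hr0] at this
      push_cast
      linarith
    · rw [Nat.primeFactors_mul (by omega) (by omega)]
      exact Finset.union_subset (hr3.trans Finset.subset_union_right)
        (hm3.trans Finset.subset_union_left)
  · rintro ⟨r, m⟩ hq ⟨r', m'⟩ hq' h
    simp only [Finset.mem_sigma, Finset.mem_filter, Finset.mem_Icc] at hq hq' h
    obtain ⟨⟨⟨hr1, hr2⟩, hr3⟩, ⟨hm1, hm2⟩, hm3⟩ := hq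
    obtain ⟨⟨⟨hr1', hr2'⟩, hr3'⟩, ⟨hm1', hm2'⟩, hm3'⟩ := hq'
    have e : r = r' := by
      refine Nat.dvd_antisymm ?_ ?_
      · exact (split_cop hAB (by omega) (by omega) hr3 hm3').dvd_of_dvd_mul_right
          (h ▸ Dvd.intro _ rfl)
      · exact (split_cop hAB (by omega) (by omega) hr3' hm3).dvd_of_dvd_mul_right
          (h ▸ Dvd.intro _ rfl)
    subst e
    have : m = m' := Nat.eq_of_mul_eq_mul_left hr1 h
    subst this
    rfl
  · intro n hn
    simp only [Finset.mem_filter, Finset.mem_Icc] at hn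
    obtain ⟨⟨hn1, hn2⟩, hn3⟩ := hn
    obtain ⟨r, m, h1, h2, h3, h4, h5⟩ := split_ex A B n (by omega) hn3
    have hr0 : (0 : ℝ) < r := by exact_mod_cast Nat.pos_of_ne_zero h1
    have hnz : (n : ℝ) ≤ z := (Nat.le_floor_iff hz).1 hn2
    have hmr : (m : ℝ) * r ≤ z := by
      have : (n : ℝ) = m * r := by rw [h3]; push_cast; ring
      linarith
    refine ⟨⟨r, m⟩, ?_, h3.symm⟩
    simp only [Finset.mem_sigma, Finset.mem_filter, Finset.mem_Icc]
    refine ⟨⟨⟨Nat.pos_of_ne_zero h1, ?_⟩, h4⟩, ⟨Nat.pos_of_ne_zero h2, ?_⟩, h5⟩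
    · refine Nat.le_floor ?_
      have hm1 : (1 : ℝ) ≤ m := by exact_mod_cast Nat.pos_of_ne_zero h2
      nlinarith
    · refine Nat.le_floor ?_
      rw [le_div_iff₀ hr0]
      exact hmr
  · rintro ⟨r, m⟩ hq
    simp only [Finset.mem_sigma, Finset.mem_filter, Finset.mem_Icc] at hq
    obtain ⟨⟨⟨hr1, hr2⟩, hr3⟩, ⟨hm1, hm2⟩, hm3⟩ := hq
    have hc := split_cop hAB (by omega) (by omega) hr3 hm3
    show (b γ r : ℂ) * chi r ω * ((b γ m : ℂ) * chi m ω) = (b γ (r * m) : ℂ) * chi (r * m) ω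
    rw [split_b_mul γ hc, split_chi_mul hc]
    push_cast
    ring

end PM
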