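import Pool.Agent.H95.PM.Epb

/-! lower bound for the weighted sum over squarefree integers (Rankin) -/

namespace PM
open MeasureTheory Complex Filter Topology

namespace SQFaux

lemma sqf_prod (T : Finset ℕ) (hT : ∀ l ∈ T, l.Prime) : Squarefree (∏ l ∈ T, l) := by
  classical
  induction T using Finset.induction_on with
  | empty => simp
  | insert a T ha ih =>
    rw [Finset.prod_insert ha]
    have h1 : Nat.Coprime a (∏ l ∈ T, l) := by
      apply Nat.Coprime.prod_right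
      intro l hl
      rw [Nat.coprime_primes (hT a (Finset.mem_insert_self _ _)) (hT l (Finset.mem_insert_of_mem hl))]
      rintro rfl
      exact ha hl
    rw [Nat.squarefree_mul h1]
    exact ⟨(hT a (Finset.mem_insert_self _ _)).prime.squarefree,
      ih fun l hl => hT l (Finset.mem_insert_of_mem hl)⟩

/-- the product over A splits in the part up to N and the Rankin part -/
lemma split (κ : ℝ) (hκ : 0 < κ) (A : Finset ℕ) (hA : ∀ l ∈ A, l.Prime) (N : ℕ) (hN : 1 ≤ N) (s : ℝ)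
    (hs : 0 ≤ s) :
    ∏ l ∈ A, (1 + κ / (l : ℝ)) ≤
      (∑ n ∈ (Finset.Icc 1 N).filter Squarefree, κ ^ n.primeFactors.card / (n : ℝ)) +
      (N : ℝ) ^ (-s) * ∏ l ∈ A, (1 + κ * (l : ℝ) ^ (s - 1)) := by
  classical
  rw [Finset.prod_one_add, Finset.prod_one_add]
  rw [← Finset.sum_filter_add_sum_filter_not A.powerset (fun T => ∏ l ∈ T, l ≤ N)]
  have hN' : (0 : ℝ) < N := by exact_mod_cast hN
  apply add_le_add
  · have e1 : ∑ T ∈ A.powerset.filter (fun T => ∏ l ∈ T, l ≤ N), ∏ l ∈ T, κ / (l : ℝ) =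
        ∑ n ∈ (A.powerset.filter (fun T => ∏ l ∈ T, l ≤ N)).image (fun T => ∏ l ∈ T, l),
          κ ^ n.primeFactors.card / (n : ℝ) := by
      rw [Finset.sum_image]
      · apply Finset.sum_congr rfl
        intro T hT
        have hTA : T ⊆ A := Finset.mem_powerset.1 (Finset.mem_filter.1 hT).1
        rw [Nat.primeFactors_prod fun p hp => hA p (hTA hp), Finset.prod_div_distrib,
          Finset.prod_const]
        push_cast
        rfl
      · intro T hT T' hT' h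
        have hTA : T ⊆ A := Finset.mem_powerset.1 (Finset.mem_filter.1 hT).1
        have hTA' : T' ⊆ A := Finset.mem_powerset.1 (Finset.mem_filter.1 hT').1
        have h1 := Nat.primeFactors_prod fun p hp => hA p (hTA hp)
        have h2 := Nat.primeFactors_prod fun p hp => hA p (hTA' hp)
        have h3 : ∏ l ∈ T, l = ∏ l ∈ T', l := h
        rw [← h1, ← h2, h3]
    rw [e1]
    apply Finset.sum_le_sum_of_subset_of_nonneg
    · intro n hn
      obtain ⟨T, hT, rfl⟩ := Finset.mem_image.1 hn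
      obtain ⟨hT1, hT2⟩ := Finset.mem_filter.1 hT
      have hTA : T ⊆ A := Finset.mem_powerset.1 hT1
      refine Finset.mem_filter.2 ⟨Finset.mem_Icc.2 ⟨?_, hT2⟩, sqf_prod T fun l hl => hA l (hTA hl)⟩
      exact Finset.prod_pos fun l hl => (hA l (hTA hl)).pos
    · intro n _ _
      positivity
  · rw [Finset.mul_sum]
    have e2 : ∀ T ∈ A.powerset, 0 ≤ (N : ℝ) ^ (-s) * ∏ l ∈ T, κ * (l : ℝ) ^ (s - 1) := by
      intro T _
      have : 0 ≤ ∏ l ∈ T, κ * (l : ℝ) ^ (s - 1) := Finset.prod_nonneg fun l _ => by positivity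
      positivity
    refine le_trans ?_ (Finset.sum_le_sum_of_subset_of_nonneg
      (Finset.filter_subset (fun T => ¬ ∏ l ∈ T, l ≤ N) A.powerset) fun T hT _ => e2 T hT)
    apply Finset.sum_le_sum
    intro T hT
    obtain ⟨hT1, hT2⟩ := Finset.mem_filter.1 hT
    have hTA : T ⊆ A := Finset.mem_powerset.1 hT1
    have hpos : ∀ l ∈ T, (0 : ℝ) < l := fun l hl => by exact_mod_cast (hA l (hTA hl)).pos
    have e3 : ∏ l ∈ T, κ * (l : ℝ) ^ (s - 1) =
        (∏ l ∈ T, κ / (l : ℝ)) * ((∏ l ∈ T, (l : ℝ)) ^ s) := by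
      rw [← Real.finsetProd_rpow _ _ fun l hl => (hpos l hl).le, ← Finset.prod_mul_distrib]
      apply Finset.prod_congr rfl
      intro l hl
      rw [Real.rpow_sub (hpos l hl), Real.rpow_one]
      ring
    rw [e3]
    have e4 : (N : ℝ) ^ s ≤ (∏ l ∈ T, (l : ℝ)) ^ s := by
      apply Real.rpow_le_rpow hN'.le _ hs
      have : N ≤ ∏ l ∈ T, l := by omega
      calc (N : ℝ) ≤ ((∏ l ∈ T, l : ℕ) : ℝ) := by exact_mod_cast this
        _ = _ := by push_cast; rfl
    have e5 : 0 ≤ ∏ l ∈ T, κ / (l : ℝ) := Finset.prod_nonneg fun l _ => by positivity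
    have e6 : (N : ℝ) ^ (-s) * (N : ℝ) ^ s = 1 := by
      rw [← Real.rpow_add hN']; simp
    calc ∏ l ∈ T, κ / (l : ℝ) = (∏ l ∈ T, κ / (l : ℝ)) * ((N : ℝ) ^ (-s) * (N : ℝ) ^ s) := by
          rw [e6, mul_one]
      _ ≤ (∏ l ∈ T, κ / (l : ℝ)) * ((N : ℝ) ^ (-s) * (∏ l ∈ T, (l : ℝ)) ^ s) := by gcongr
      _ = _ := by ring

lemma log_one_add_ge {x : ℝ} (hx : 0 ≤ x) : x - x ^ 2 ≤ Real.log (1 + x) := by
  have h1 : Real.exp (x - x ^ 2) ≤ 1 + x := by
    rcases le_or_gt 1 x with h | h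
    · have : Real.exp (x - x ^ 2) ≤ 1 := by
        apply Real.exp_le_one_iff.2
        nlinarith
      linarith
    · have h2 : x - x ^ 2 ≤ 1 := by nlinarith
      have h3 : 0 ≤ x - x ^ 2 := by nlinarith
      have h4 : Real.exp (-(x - x ^ 2)) ≥ 1 - (x - x ^ 2) := by
        have := Real.add_one_le_exp (-(x - x ^ 2))
        linarith
      have h5 : Real.exp (x - x ^ 2) * Real.exp (-(x - x ^ 2)) = 1 := by
        rw [← Real.exp_add]; simp
      have h6 : 0 < Real.exp (x - x ^ 2) := Real.exp_pos _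
      have h7 : 1 ≤ (1 + x) * (1 - (x - x ^ 2)) := by nlinarith [pow_nonneg hx 3]
      have h8 : Real.exp (x - x ^ 2) * (1 - (x - x ^ 2)) ≤ 1 := by nlinarith
      have h9 : 0 < 1 - (x - x ^ 2) := by nlinarith
      by_contra hcon
      push Not at hcon
      have : (1 + x) * (1 - (x - x ^ 2)) < Real.exp (x - x ^ 2) * (1 - (x - x ^ 2)) :=
        mul_lt_mul_of_pos_right hcon h9
      linarith
  exact (Real.le_log_iff_exp_le (by linarith)).2 h1

lemma sum_inv_sq (A : Finset ℕ) (hA : ∀ l ∈ A, l.Prime) : ∑ l ∈ A, ((l : ℝ) ^ 2)⁻¹ ≤ 2 := by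
  have h1 : A ⊆ Finset.Ioo 0 (A.sup id + 1) := by
    intro l hl
    rw [Finset.mem_Ioo]
    exact ⟨(hA l hl).pos, Nat.lt_succ_of_le (Finset.le_sup (f := id) hl)⟩
  refine (Finset.sum_le_sum_of_subset_of_nonneg h1 fun l _ _ => by positivity).trans ?_
  have := sum_Ioo_inv_sq_le (α := ℝ) 0 (A.sup id + 1)
  simpa using this

/-- lower bound of the product -/
lemma prod_ge (κ : ℝ) (hκ : 0 < κ) (A : Finset ℕ) (hA : ∀ l ∈ A, l.Prime) :
    Real.exp (κ * ∑ l ∈ A, 1 / (l : ℝ) - 2 * κ ^ 2) ≤ ∏ l ∈ A, (1 + κ / (l : ℝ)) := by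
  have h1 : ∏ l ∈ A, (1 + κ / (l : ℝ)) = Real.exp (∑ l ∈ A, Real.log (1 + κ / (l : ℝ))) := by
    rw [Real.exp_sum]
    apply Finset.prod_congr rfl
    intro l _
    rw [Real.exp_log]
    positivity
  rw [h1]
  apply Real.exp_le_exp.2
  have h2 : ∑ l ∈ A, (κ / (l : ℝ) - (κ / (l : ℝ)) ^ 2) ≤ ∑ l ∈ A, Real.log (1 + κ / (l : ℝ)) :=
    Finset.sum_le_sum fun l _ => log_one_add_ge (by positivity)
  have h3 : ∑ l ∈ A, (κ / (l : ℝ) - (κ / (l : ℝ)) ^ 2) =
      κ * ∑ l ∈ A, 1 / (l : ℝ) - κ ^ 2 * ∑ l ∈ A, ((l : ℝ) ^ 2)⁻¹ := by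
    rw [Finset.mul_sum, Finset.mul_sum, ← Finset.sum_sub_distrib]
    apply Finset.sum_congr rfl
    intro l _
    rw [div_pow]
    ring
  have h4 := sum_inv_sq A hA
  have h5 : κ ^ 2 * ∑ l ∈ A, ((l : ℝ) ^ 2)⁻¹ ≤ κ ^ 2 * 2 := by gcongr
  linarith

/-- upper bound of the Rankin product -/
lemma prod_le (κ : ℝ) (hκ : 0 < κ) (A : Finset ℕ) (s : ℝ) :
    ∏ l ∈ A, (1 + κ * (l : ℝ) ^ (s - 1)) ≤ Real.exp (κ * ∑ l ∈ A, (l : ℝ) ^ (s - 1)) := by
  rw [Finset.mul_sum, Real.exp_sum]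
  apply Finset.prod_le_prod
  · intro l _
    positivity
  · intro l _
    have := Real.add_one_le_exp (κ * (l : ℝ) ^ (s - 1))
    linarith

lemma rankin_sum (hNTA : S_NTA) : ∃ C : ℝ, 0 < C ∧ ∀ y : ℝ, 2 ≤ y →
    ∑ l ∈ PrS 1 y, (l : ℝ) ^ (1 / Real.log y - 1) ≤ Real.log (Real.log y) + C := by
  obtain ⟨C, hC, h⟩ := hNTA
  refine ⟨C + Real.exp 1 + |Real.log (Real.log 2)|, by positivity, fun y hy => ?_⟩
  have hl2 : 0 < Real.log 2 := Real.log_pos (by norm_num)
  have hly2 : Real.log 2 ≤ Real.log y := Real.log_le_log (by norm_num) hy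
  have hly : 0 < Real.log y := by linarith
  have h1 := (abs_le.1 (h 2 y (-(1 / Real.log y)) le_rfl hy (by
    rw [abs_neg, abs_of_pos (by positivity), div_mul_cancel₀ _ hly.ne']
    norm_num))).2
  rw [PrS_one_eq hy, Finset.sum_insert (two_notMem y)]
  have h2 : CS (PrS 2 y) (-(1 / Real.log y)) 0 = ∑ l ∈ PrS 2 y, (l : ℝ) ^ (1 / Real.log y - 1) := by
    unfold CS
    apply Finset.sum_congr rfl
    intro l _
    rw [zero_mul, Real.cos_zero, mul_one]
    congr 1
    ring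
  rw [h2, Real.log_div hly.ne' hl2.ne'] at h1
  have h3 : ((2 : ℕ) : ℝ) ^ (1 / Real.log y - 1) ≤ Real.exp 1 := by
    rw [Real.rpow_def_of_pos (by norm_num)]
    apply Real.exp_le_exp.2
    push_cast
    have h4 : Real.log 2 * (1 / Real.log y) ≤ 1 := by
      rw [mul_one_div, div_le_one hly]
      exact hly2
    have h5 : Real.log 2 * (1 / Real.log y - 1) = Real.log 2 * (1 / Real.log y) - Real.log 2 := by ring
    linarith
  have h6 := neg_abs_le (Real.log (Real.log 2))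
  linarith

end SQFaux

open SQFaux in
theorem SQF (hNTA : S_NTA) : S_SQF := by
  intro κ hκ
  obtain ⟨C1, hC1, h1⟩ := sum_recip_one hNTA
  obtain ⟨C2, hC2, h2⟩ := rankin_sum hNTA
  set c1 : ℝ := Real.exp (-κ * C1 - 2 * κ ^ 2) with hc1
  set c2 : ℝ := Real.exp (κ * C2) with hc2
  have hc1p : 0 < c1 := Real.exp_pos _
  have hc2p : 0 < c2 := Real.exp_pos _
  -- K with c2 exp(-K) <= c1/2
  obtain ⟨K, hK1, hK⟩ : ∃ K : ℝ, 1 ≤ K ∧ Real.exp (-K) * c2 ≤ c1 / 2 := by
    refine ⟨max 1 (Real.log (2 * c2 / c1)), le_max_left _ _, ?_⟩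
    have e1 : Real.exp (-(max 1 (Real.log (2 * c2 / c1)))) ≤ Real.exp (-(Real.log (2 * c2 / c1))) :=
      Real.exp_le_exp.2 (neg_le_neg (le_max_right _ _))
    rw [Real.exp_neg (Real.log (2 * c2 / c1)), Real.exp_log (by positivity)] at e1
    calc _ ≤ (2 * c2 / c1)⁻¹ * c2 := by gcongr
      _ = c1 / 2 := by
        field_simp
  have hKp : 0 < K := by linarith
  have hl2 : 0 < Real.log 2 := Real.log_pos (by norm_num)
  refine ⟨min (c1 / 2 * (1 / K) ^ κ) ((K * Real.log 2) ^ (-κ)), by positivity, fun N hN => ?_⟩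
  have hN' : (2 : ℝ) ≤ N := by exact_mod_cast hN
  have hlN : 0 < Real.log N := Real.log_pos (by linarith)
  rcases le_or_gt (K * Real.log 2) (Real.log N) with hbig | hsmall
  · -- large N
    set y : ℝ := Real.exp (Real.log N / K) with hy
    have hly : Real.log y = Real.log N / K := Real.log_exp _
    have hlyp : 0 < Real.log y := by rw [hly]; positivity
    have hy2 : 2 ≤ y := by
      rw [← Real.exp_log (show (0 : ℝ) < 2 by norm_num), hy]
      apply Real.exp_le_exp.2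
      rw [le_div_iff₀ hKp]
      linarith
    have e1 := split κ hκ (PrS 1 y) prime_PrS N (by omega) (1 / Real.log y) (by positivity)
    have e2 := prod_ge κ hκ (PrS 1 y) prime_PrS
    have e3 := prod_le κ hκ (PrS 1 y) (1 / Real.log y)
    have e4 : c1 * (Real.log y) ^ κ ≤ ∏ l ∈ PrS 1 y, (1 + κ / (l : ℝ)) := by
      refine le_trans ?_ e2
      rw [hc1, Real.rpow_def_of_pos hlyp, ← Real.exp_add]
      apply Real.exp_le_exp.2
      have := (abs_le.1 (h1 y hy2)).1
      nlinarith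
    have e5 : ∏ l ∈ PrS 1 y, (1 + κ * (l : ℝ) ^ (1 / Real.log y - 1)) ≤ c2 * (Real.log y) ^ κ := by
      refine e3.trans ?_
      rw [hc2, Real.rpow_def_of_pos hlyp, ← Real.exp_add]
      apply Real.exp_le_exp.2
      have := h2 y hy2
      nlinarith
    have e6 : (N : ℝ) ^ (-(1 / Real.log y)) = Real.exp (-K) := by
      rw [Real.rpow_def_of_pos (by linarith), hly]
      congr 1
      field_simp
    rw [e6] at e1
    have e7 : Real.exp (-K) * ∏ l ∈ PrS 1 y, (1 + κ * (l : ℝ) ^ (1 / Real.log y - 1)) ≤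
        c1 / 2 * (Real.log y) ^ κ := by
      calc _ ≤ Real.exp (-K) * (c2 * (Real.log y) ^ κ) := by gcongr
        _ = (Real.exp (-K) * c2) * (Real.log y) ^ κ := by ring
        _ ≤ _ := by gcongr
    have e8 : c1 / 2 * (Real.log y) ^ κ = c1 / 2 * (1 / K) ^ κ * (Real.log N) ^ κ := by
      rw [hly, mul_assoc, ← Real.mul_rpow (by positivity) hlN.le]
      congr 2
      ring
    have e9 : min (c1 / 2 * (1 / K) ^ κ) ((K * Real.log 2) ^ (-κ)) * (Real.log N) ^ κ ≤
        c1 / 2 * (1 / K) ^ κ * (Real.log N) ^ κ := by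
      gcongr
      exact min_le_left _ _
    linarith
  · -- small N
    have e1 : (1 : ℝ) ≤ ∑ n ∈ (Finset.Icc 1 N).filter Squarefree, κ ^ n.primeFactors.card / (n : ℝ) := by
      have h3 : 1 ∈ (Finset.Icc 1 N).filter Squarefree := by
        rw [Finset.mem_filter, Finset.mem_Icc]
        exact ⟨⟨le_rfl, by omega⟩, squarefree_one⟩
      refine le_trans (le_of_eq ?_) (Finset.single_le_sum
        (f := fun n : ℕ => κ ^ n.primeFactors.card / (n : ℝ)) (fun n _ => by positivity) h3)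
      simp
    refine le_trans ?_ e1
    calc min (c1 / 2 * (1 / K) ^ κ) ((K * Real.log 2) ^ (-κ)) * (Real.log N) ^ κ ≤
        (K * Real.log 2) ^ (-κ) * (K * Real.log 2) ^ κ := by
          gcongr
          exact min_le_right _ _
      _ = 1 := by
        rw [← Real.rpow_add (by positivity)]
        simp

end PM
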