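import Pool.Agent.H24.PM.Stmts
import Pool.Agent.H95.PM.Epb

namespace PM
open Finset

theorem SS (hNTA : S_NTA) : S_SS := by
  intro γ
  obtain ⟨C, B, hC, hB, h⟩ := sum_b_smooth hNTA γ
  refine ⟨C, B, hC, hB, fun y M hy => h y _ hy fun n hn => ?_⟩
  rw [Finset.mem_filter, Finset.mem_Icc] at hn
  exact ⟨by omega, hn.2⟩

end PM
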