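import Pool.Agent.H24.PM.PhiAn

namespace PM
open MeasureTheory Complex

/-- the local variable as a function of a complex parameter -/
noncomputable def pc (ω : Om) (l : ℕ) (s : ℂ) : ℂ := zc (ω l) * (l : ℂ) ^ (-(1 / 2 + s) : ℂ)

theorem pt_eq_pc (σ t : ℝ) (l : ℕ) (ω : Om) : pt σ t l ω = pc ω l (σ + t * I) := by
  unfold pt pc
  rw [add_assoc]

/-- analytic branch of the a-th power of the Euler product -/
noncomputable def gs (γ : ℝ) (A : Finset ℕ) (a : ℝ) (ω : Om) (s : ℂ) : ℂ :=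
  ∏ l ∈ A, Complex.exp (a * Complex.log (phi γ (pc ω l s)))

theorem gs_norm {γ : ℝ} {p0 : ℕ} (hg : Good γ p0) {A : Finset ℕ} (hA : PA p0 A) (a : ℝ)
    {σ : ℝ} (hσ : ∀ l ∈ A, |σ| * Real.log l ≤ 8) (t : ℝ) (ω : Om) :
    ‖gs γ A a ω (σ + t * I)‖ = ‖F γ A σ t ω‖ ^ a := by
  unfold gs F
  rw [norm_prod, norm_prod, ← Real.finsetProd_rpow _ _ (fun i _ => norm_nonneg _)]
  refine Finset.prod_congr rfl (fun l hl => ?_)
  rw [← pt_eq_pc, Complex.norm_exp]
  have hp := norm_ge_of_near (good_phi hg (hA l hl).2 (hσ l hl) t ω).1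
  have hpos : 0 < ‖phi γ (pt σ t l ω)‖ := by linarith [hp.1]
  rw [Real.rpow_def_of_pos hpos]
  congr 1
  rw [Complex.re_ofReal_mul, Complex.log_re, mul_comm]

theorem gs_diff {γ : ℝ} {p0 : ℕ} (hg : Good γ p0) {A : Finset ℕ} (hA : PA p0 A) (a : ℝ)
    {s : ℂ} (hs : ∀ l ∈ A, |s.re| * Real.log l ≤ 8) (ω : Om) :
    DifferentiableAt ℂ (gs γ A a ω) s := by
  unfold gs
  refine DifferentiableAt.fun_finsetProd (fun l hl => ?_)
  have hlp := hA l hl
  have hgp := good_phi hg hlp.2 (hs l hl) s.im ω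
  have hse : pt s.re s.im l ω = pc ω l s := by rw [pt_eq_pc, Complex.re_add_im]
  rw [hse] at hgp
  have hne : (l : ℂ) ≠ 0 := by exact_mod_cast hlp.1.ne_zero
  have d1 : DifferentiableAt ℂ (pc ω l) s := by
    unfold pc
    refine DifferentiableAt.const_mul ?_ _
    refine DifferentiableAt.const_cpow ?_ (Or.inl hne)
    fun_prop
  have d2 : DifferentiableAt ℂ (fun s => phi γ (pc ω l s)) s :=
    DifferentiableAt.comp s (phi_diffAt γ (by linarith [hgp.2])) d1
  have hslit : phi γ (pc ω l s) ∈ Complex.slitPlane := by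
    left; linarith [(norm_ge_of_near hgp.1).2.2]
  exact ((d2.clog hslit).const_mul _).cexp

theorem SUP (_hC : S_CONT) (_hG : S_GC) : S_SUP := by
  intro γ p0 hg A hA a σ0 t0 δ ha hδ hline σ t hdist ω
  set s0 : ℂ := σ0 + t0 * I with hs0
  set s : ℂ := σ + t * I with hs
  have hR : (0 : ℝ) < 2 * δ := by linarith
  have hre : ∀ z ∈ Metric.closedBall s0 (2 * δ), ∀ l ∈ A, |z.re| * Real.log l ≤ 8 := by
    intro z hz l hl
    have h1 : |(z - s0).re| ≤ 2 * δ := by
      refine (Complex.abs_re_le_norm _).trans ?_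
      rw [Metric.mem_closedBall, dist_eq_norm] at hz; exact hz
    have h2 : (z - s0).re = z.re - σ0 := by rw [hs0]; simp
    rw [h2] at h1
    have h3 : |z.re| ≤ |σ0| + 2 * δ := by
      calc |z.re| = |σ0 + (z.re - σ0)| := by ring_nf
        _ ≤ |σ0| + |z.re - σ0| := abs_add_le _ _
        _ ≤ _ := by linarith
    have hlog : 0 ≤ Real.log l := Real.log_natCast_nonneg l
    exact (mul_le_mul_of_nonneg_right h3 hlog).trans (hline l hl)
  have hdiff : ∀ z ∈ Metric.closedBall s0 (2 * δ), DifferentiableAt ℂ (gs γ A a ω) z :=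
    fun z hz => gs_diff hg hA a (hre z hz) ω
  have hsd : dist s s0 ≤ δ := by
    rw [dist_eq_norm]
    have : s - s0 = ((σ - σ0 : ℝ) : ℂ) + ((t - t0 : ℝ) : ℂ) * I := by
      rw [hs, hs0]; push_cast; ring
    rw [this, Complex.norm_add_mul_I]
    exact Real.sqrt_le_iff.2 ⟨hδ.le, hdist⟩
  have hsball : s ∈ Metric.ball s0 (2 * δ) := by
    rw [Metric.mem_ball]; linarith
  have hsc : s ∈ Metric.closedBall s0 (2 * δ) := Metric.ball_subset_closedBall hsball
  have hcauchy := Complex.two_pi_I_inv_smul_circleIntegral_sub_inv_smul_of_differentiable_on_off_countable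
    (s := ∅) (f := gs γ A a ω) Set.countable_empty hsball
    (fun z hz => (hdiff z hz).continuousAt.continuousWithinAt)
    (fun z hz => hdiff z (Metric.ball_subset_closedBall hz.1))
  have hcirc : ∀ θ : ℝ, circleMap s0 (2 * δ) θ ∈ Metric.closedBall s0 (2 * δ) :=
    fun θ => circleMap_mem_closedBall _ hR.le _
  have hF : ∀ θ : ℝ, ‖gs γ A a ω (circleMap s0 (2 * δ) θ)‖ =
      ‖F γ A (σ0 + 2 * δ * Real.cos θ) (t0 + 2 * δ * Real.sin θ) ω‖ ^ a := by
    intro θ
    have e : circleMap s0 (2 * δ) θ = ((σ0 + 2 * δ * Real.cos θ : ℝ) : ℂ) +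
        ((t0 + 2 * δ * Real.sin θ : ℝ) : ℂ) * I := by
      rw [circleMap, hs0, Complex.exp_mul_I]
      push_cast; ring
    have h1 := hre _ (hcirc θ)
    rw [e] at h1 ⊢
    refine gs_norm hg hA a (fun l hl => ?_) _ ω
    have h2 := h1 l hl
    rwa [Complex.add_re, Complex.re_ofReal_mul, Complex.I_re, mul_zero, add_zero,
      Complex.ofReal_re] at h2
  have hcont : Continuous (fun θ : ℝ => ‖gs γ A a ω (circleMap s0 (2 * δ) θ)‖) := by
    rw [continuous_iff_continuousAt]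
    intro θ
    exact ((hdiff _ (hcirc θ)).continuousAt.comp (continuous_circleMap s0 (2 * δ)).continuousAt).norm
  have hnorm : ‖gs γ A a ω s‖ = ‖F γ A σ t ω‖ ^ a := by
    refine gs_norm hg hA a (fun l hl => ?_) t ω
    have := hre s hsc l hl
    rw [hs] at this
    simpa using this
  rw [← hnorm, ← hcauchy, norm_smul]
  have hb : ‖∮ z in C(s0, 2 * δ), (z - s)⁻¹ • gs γ A a ω z‖ ≤
      ∫ θ in (0 : ℝ)..(2 * Real.pi), 2 * ‖gs γ A a ω (circleMap s0 (2 * δ) θ)‖ := by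
    unfold circleIntegral
    refine intervalIntegral.norm_integral_le_of_norm_le (by positivity) ?_
      ((hcont.const_mul 2).intervalIntegrable _ _)
    refine Filter.Eventually.of_forall (fun θ _ => ?_)
    rw [norm_smul, norm_smul, deriv_circleMap, norm_mul, norm_circleMap_zero, Complex.norm_I,
      mul_one, abs_of_pos hR, norm_inv]
    have hfar : δ ≤ ‖circleMap s0 (2 * δ) θ - s‖ := by
      have h1 : ‖circleMap s0 (2 * δ) θ - s0‖ = 2 * δ := by
        rw [circleMap_sub_center, norm_circleMap_zero, abs_of_pos hR]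
      have h2 : ‖circleMap s0 (2 * δ) θ - s0‖ ≤ ‖circleMap s0 (2 * δ) θ - s‖ + ‖s - s0‖ := by
        calc ‖circleMap s0 (2 * δ) θ - s0‖ = ‖(circleMap s0 (2 * δ) θ - s) + (s - s0)‖ := by ring_nf
          _ ≤ _ := norm_add_le _ _
      rw [dist_eq_norm] at hsd
      linarith
    have hpos : 0 < ‖circleMap s0 (2 * δ) θ - s‖ := by linarith
    have h3 : 2 * δ * ‖circleMap s0 (2 * δ) θ - s‖⁻¹ ≤ 2 := by
      rw [← div_eq_mul_inv, div_le_iff₀ hpos]; linarith
    calc 2 * δ * (‖circleMap s0 (2 * δ) θ - s‖⁻¹ * ‖gs γ A a ω (circleMap s0 (2 * δ) θ)‖)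
        = (2 * δ * ‖circleMap s0 (2 * δ) θ - s‖⁻¹) * ‖gs γ A a ω (circleMap s0 (2 * δ) θ)‖ := by ring
      _ ≤ 2 * ‖gs γ A a ω (circleMap s0 (2 * δ) θ)‖ :=
        mul_le_mul_of_nonneg_right h3 (norm_nonneg _)
  have hc : ‖(2 * (Real.pi : ℂ) * I)⁻¹‖ = 1 / (2 * Real.pi) := by
    rw [norm_inv, norm_mul, norm_mul, Complex.norm_I, Complex.norm_real, Complex.norm_ofNat,
      Real.norm_eq_abs, abs_of_pos Real.pi_pos, mul_one, one_div]
  rw [hc]
  rw [intervalIntegral.integral_const_mul] at hb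
  have hint : ∫ θ in (0 : ℝ)..(2 * Real.pi), ‖gs γ A a ω (circleMap s0 (2 * δ) θ)‖ =
      ∫ θ in (0 : ℝ)..(2 * Real.pi),
        ‖F γ A (σ0 + 2 * δ * Real.cos θ) (t0 + 2 * δ * Real.sin θ) ω‖ ^ a :=
    intervalIntegral.integral_congr (fun θ _ => hF θ)
  rw [← hint]
  calc 1 / (2 * Real.pi) * ‖∮ z in C(s0, 2 * δ), (z - s)⁻¹ • gs γ A a ω z‖
      ≤ 1 / (2 * Real.pi) * (2 * ∫ θ in (0 : ℝ)..(2 * Real.pi),
          ‖gs γ A a ω (circleMap s0 (2 * δ) θ)‖) :=
        mul_le_mul_of_nonneg_left hb (by positivity)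
    _ = 1 / Real.pi * ∫ θ in (0 : ℝ)..(2 * Real.pi),
          ‖gs γ A a ω (circleMap s0 (2 * δ) θ)‖ := by
        field_simp

end PM
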