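import Pool.Agent.H24.PM.Stmts

namespace PM
open MeasureTheory Complex

namespace TLTaux

theorem pa (p0 : ℕ) (y : ℝ) : PA p0 (PrS p0 y) := by
  intro l hl
  unfold PrS at hl
  rw [Finset.mem_filter] at hl
  exact ⟨hl.2.1, by exact_mod_cast hl.2.2⟩

theorem ln (p0 : ℕ) {y : ℝ} (hy : 1 < y) : Ln (PrS p0 y) (2 / Real.log y) := by
  intro l hl
  unfold PrS at hl
  rw [Finset.mem_filter, Finset.mem_range] at hl
  have hY : 0 < Real.log y := Real.log_pos hy
  have h1 : (l : ℝ) ≤ y := by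
    have : l ≤ ⌊y⌋₊ := by omega
    exact (Nat.le_floor_iff (by linarith)).mp this
  have h2 : Real.log l ≤ Real.log y := by
    apply Real.log_le_log _ h1
    exact_mod_cast hl.2.1.pos
  have h3 : 0 ≤ Real.log l := Real.log_natCast_nonneg l
  rw [abs_of_pos (by positivity)]
  rw [div_mul_eq_mul_div, div_le_iff₀ hY]
  linarith

variable {Ω : Type*} [MeasurableSpace Ω] {Q : Measure Ω} [IsProbabilityMeasure Q] {g : Ω → ℝ} {B : ℝ}

theorem exp_int (hm : Measurable g) (hb : ∀ ω, |g ω| ≤ B) (a : ℝ) :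
    Integrable (fun ω => Real.exp (a * g ω)) Q := by
  apply Integrable.of_bound (C := Real.exp (|a| * B))
  · exact (Real.measurable_exp.comp (hm.const_mul a)).aestronglyMeasurable
  · refine Filter.Eventually.of_forall fun ω => ?_
    rw [Real.norm_eq_abs, abs_of_pos (Real.exp_pos _)]
    apply Real.exp_le_exp.mpr
    calc a * g ω ≤ |a * g ω| := le_abs_self _
      _ = |a| * |g ω| := abs_mul _ _
      _ ≤ _ := mul_le_mul_of_nonneg_left (hb ω) (abs_nonneg _)

theorem pointwise (x h μ R : ℝ) (hh : 0 < h) (hx : R < |x - μ|) :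
    Real.exp x ≤ Real.exp ((1 + h) * x) * Real.exp (-(h * μ) - h * R) +
      Real.exp ((1 - h) * x) * Real.exp (h * μ - h * R) := by
  rw [← Real.exp_add, ← Real.exp_add]
  have e1 := Real.exp_pos ((1 + h) * x + (-(h * μ) - h * R))
  have e2 := Real.exp_pos ((1 - h) * x + (h * μ - h * R))
  rcases lt_abs.mp hx with h2 | h2
  · have h3 : 0 ≤ h * (x - μ - R) := mul_nonneg hh.le (by linarith)
    have : Real.exp x ≤ Real.exp ((1 + h) * x + (-(h * μ) - h * R)) := by
      apply Real.exp_le_exp.mpr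
      linarith
    linarith
  · have h3 : 0 ≤ h * (-(x - μ) - R) := mul_nonneg hh.le (by linarith)
    have : Real.exp x ≤ Real.exp ((1 - h) * x + (h * μ - h * R)) := by
      apply Real.exp_le_exp.mpr
      linarith
    linarith

theorem split (hm : Measurable g) (hb : ∀ ω, |g ω| ≤ B) (h μ R : ℝ) (hh : 0 < h) :
    ∫ ω, Real.exp (g ω) ∂Q ≤
      ∫ ω, Set.indicator {ω | |g ω - μ| ≤ R} (fun ω => Real.exp (g ω)) ω ∂Q +
      ((∫ ω, Real.exp ((1 + h) * g ω) ∂Q) * Real.exp (-(h * μ) - h * R) +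
        (∫ ω, Real.exp ((1 - h) * g ω) ∂Q) * Real.exp (h * μ - h * R)) := by
  have hSm : MeasurableSet {ω | |g ω - μ| ≤ R} :=
    measurableSet_le (hm.sub_const μ).abs measurable_const
  have hint1 : Integrable (fun ω => Real.exp (g ω)) Q := by
    have := exp_int (Q := Q) hm hb 1
    simpa using this
  have hintS := hint1.indicator hSm
  have i1 := (exp_int (Q := Q) hm hb (1 + h)).mul_const (Real.exp (-(h * μ) - h * R))
  have i2 := (exp_int (Q := Q) hm hb (1 - h)).mul_const (Real.exp (h * μ - h * R))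
  have hI : ∫ ω, Real.exp (g ω) ∂Q ≤ ∫ ω, (Set.indicator {ω | |g ω - μ| ≤ R}
      (fun ω => Real.exp (g ω)) ω + (Real.exp ((1 + h) * g ω) * Real.exp (-(h * μ) - h * R) +
        Real.exp ((1 - h) * g ω) * Real.exp (h * μ - h * R))) ∂Q := by
    apply integral_mono hint1 (hintS.add (i1.add i2))
    intro ω
    simp only [Pi.add_apply]
    by_cases hω : |g ω - μ| ≤ R
    · have h1 : Set.indicator {ω | |g ω - μ| ≤ R} (fun ω => Real.exp (g ω)) ω =
          Real.exp (g ω) := Set.indicator_of_mem (s := {ω | |g ω - μ| ≤ R}) hω _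
      simp only [h1]
      have := Real.exp_pos ((1 + h) * g ω)
      have := Real.exp_pos ((1 - h) * g ω)
      have h5 : 0 ≤ Real.exp ((1 + h) * g ω) * Real.exp (-(h * μ) - h * R) := by positivity
      have h6 : 0 ≤ Real.exp ((1 - h) * g ω) * Real.exp (h * μ - h * R) := by positivity
      linarith
    · have h1 : Set.indicator {ω | |g ω - μ| ≤ R} (fun ω => Real.exp (g ω)) ω = 0 :=
        Set.indicator_of_notMem (s := {ω | |g ω - μ| ≤ R}) hω _
      simp only [h1, zero_add]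
      exact pointwise _ _ _ _ hh (not_le.mp hω)
  have e1 := integral_add hintS (i1.add i2)
  have e2 := integral_add i1 i2
  simp only [Pi.add_apply] at e1 e2
  rw [e1, e2, integral_mul_const, integral_mul_const] at hI
  exact hI

/-- the real arithmetic -/
theorem arith {C κ A r LL h μ R m b : ℝ} (hC : 0 < C) (hrr : r * r = LL) (hr : 1 ≤ r)
    (hh : h = 1 / r) (hμ : μ = 2 * κ * LL) (hR : R = A * r - 2) (s : ℝ) (hs : s = 1 ∨ s = -1)
    (hm : m ≤ C * Real.exp (LL * (κ * (1 + s * h) ^ 2))) (hb : b = -(s * h * μ) - h * R) :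
    m * Real.exp b ≤ C * Real.exp κ * Real.exp 2 * Real.exp (-A) * Real.exp (LL * κ) := by
  have hhr : h * r = 1 := by rw [hh]; field_simp
  have hh1 : h ≤ 1 := by rw [hh, div_le_one (by linarith)]; exact hr
  have hhLL : h * h * LL = 1 := by
    rw [← hrr]
    calc h * h * (r * r) = (h * r) * (h * r) := by ring
      _ = 1 := by rw [hhr]; norm_num
  have hhR : A - 2 ≤ h * R := by
    have : h * R = A * (h * r) - 2 * h := by rw [hR]; ring
    rw [this, hhr]
    linarith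
  have hss : s * s = 1 := by rcases hs with rfl | rfl <;> norm_num
  calc m * Real.exp b ≤ C * Real.exp (LL * (κ * (1 + s * h) ^ 2)) * Real.exp b :=
        mul_le_mul_of_nonneg_right hm (Real.exp_pos _).le
    _ = C * Real.exp (LL * (κ * (1 + s * h) ^ 2) + b) := by
        rw [mul_assoc, ← Real.exp_add]
    _ ≤ C * Real.exp (κ + 2 + (-A) + LL * κ) := by
        apply mul_le_mul_of_nonneg_left _ hC.le
        apply Real.exp_le_exp.mpr
        have e : LL * (κ * (1 + s * h) ^ 2) = LL * κ + s * h * μ + κ * (h * h * LL) * (s * s) := by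
          rw [hμ]; ring
        rw [e, hhLL, hss, hb]
        linarith
    _ = _ := by
        rw [Real.exp_add, Real.exp_add, Real.exp_add]
        ring

theorem final {Q' Y κ c' C D A I0 IS I1 I2 : ℝ} (hc : 0 < c') (hC : 0 < C)
    (hQ : Q' = Real.exp (Y * κ)) (hD : D = 2 * (C * Real.exp κ) * Real.exp 2)
    (hA : Real.log (2 * D / c') ≤ A) (h0 : c' * Q' ≤ I0) (hs : I0 ≤ IS + (I1 + I2))
    (h1 : I1 ≤ C * Real.exp κ * Real.exp 2 * Real.exp (-A) * Real.exp (Y * κ))
    (h2 : I2 ≤ C * Real.exp κ * Real.exp 2 * Real.exp (-A) * Real.exp (Y * κ)) :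
    c' / 2 * Q' ≤ IS := by
  have hD0 : 0 < D := by rw [hD]; positivity
  have hexpA : D * Real.exp (-A) ≤ c' / 2 := by
    have h2 : 2 * D / c' ≤ Real.exp A := by
      rw [← Real.log_le_iff_le_exp (by positivity)]
      exact hA
    rw [Real.exp_neg]
    rw [div_le_iff₀ hc] at h2
    rw [← div_eq_mul_inv, div_le_iff₀ (Real.exp_pos _)]
    linarith
  rw [← hQ] at h1 h2
  have hQ0 : 0 < Q' := by rw [hQ]; exact Real.exp_pos _
  have h3 : D * Real.exp (-A) * Q' ≤ c' / 2 * Q' := mul_le_mul_of_nonneg_right hexpA hQ0.le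
  have h4 : D * Real.exp (-A) * Q' = 2 * (C * Real.exp κ * Real.exp 2 * Real.exp (-A) * Q') := by
    rw [hD]; ring
  linarith

end TLTaux

open TLTaux

theorem TLTaux.main (hM1 : S_M1) (hGC : S_GC) (γ : ℝ) (p0 : ℕ) (hp : Good γ p0) (c C : ℝ)
    (hc : 0 < c) (hC : 0 < C)
    (hM : ∀ (u v σ t a : ℝ), (p0 : ℝ) ≤ u → u ≤ v → |σ| * Real.log v ≤ 8 → 0 ≤ a → a ≤ 2 →
      c * (Real.log v / Real.log u) ^ ((al γ) ^ 2 * a ^ 2 / 4) ≤
        ∫ ω : Om, ‖F γ (PrS u v) σ t ω‖ ^ a ∂P ∧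
      ∫ ω : Om, ‖F γ (PrS u v) σ t ω‖ ^ a ∂P ≤
        C * (Real.log v / Real.log u) ^ ((al γ) ^ 2 * a ^ 2 / 4))
    (hL0 : 1 ≤ Real.log p0) (κ c' D A : ℝ) (hκ : κ = (al γ) ^ 2 / 4)
    (hc' : c' = c * (Real.log p0) ^ (-κ)) (hD : D = 2 * (C * Real.exp κ) * Real.exp 2)
    (hA : Real.log (2 * D / c') ≤ A) (y t : ℝ) (hy3 : Real.exp 3 ≤ y) (hyp : (p0 : ℝ) ≤ y) :
    c' / 2 * (Real.log y) ^ κ ≤
      ∫ ω : Om, Set.indicator {ω | |G γ (PrS p0 y) (2 / Real.log y) t ω -
        (al γ) ^ 2 / 2 * Real.log (Real.log y)| ≤ A * Real.sqrt (Real.log (Real.log y)) - 2}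
        (fun ω => Real.exp (G γ (PrS p0 y) (2 / Real.log y) t ω)) ω ∂P := by
  have hlogp : 0 < Real.log p0 := by linarith
  have hκ0 : 0 ≤ κ := by rw [hκ]; positivity
  have hc'0 : 0 < c' := by rw [hc']; exact mul_pos hc (Real.rpow_pos_of_pos hlogp _)
  have hy0 : 0 < y := (Real.exp_pos _).trans_le hy3
  have hY : 3 ≤ Real.log y := by
    have := Real.log_le_log (Real.exp_pos 3) hy3
    rwa [Real.log_exp] at this
  have hy1 : 1 < y := by
    by_contra hcon
    push Not at hcon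
    have := Real.log_nonpos hy0.le hcon
    linarith
  obtain ⟨hcont, hF, hbd⟩ := hGC γ p0 hp (PrS p0 y) (pa p0 y) (2 / Real.log y) (ln p0 hy1)
  have hMy := fun a => hM p0 y (2 / Real.log y) t a le_rfl hyp
  generalize hYdef : Real.log y = Y at *
  have hYpos : 0 < Y := by linarith
  have hLL : 1 ≤ Real.log Y := by
    have h1 : Real.exp 1 ≤ Y := by
      have := Real.exp_one_lt_d9
      linarith
    have := Real.log_le_log (Real.exp_pos 1) h1
    rwa [Real.log_exp] at this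
  have hYe : ∀ e : ℝ, Y ^ e = Real.exp (Real.log Y * e) := fun e => Real.rpow_def_of_pos hYpos e
  generalize hLLdef : Real.log Y = LL at *
  have hr1 : 1 ≤ Real.sqrt LL := Real.one_le_sqrt.mpr hLL
  have hrr : Real.sqrt LL * Real.sqrt LL = LL := Real.mul_self_sqrt (by linarith)
  generalize Real.sqrt LL = r at *
  have hGc : Measurable (fun ω : Om => G γ (PrS p0 y) (2 / Y) t ω) :=
    (hcont.comp (Continuous.prodMk_right t)).measurable
  have hGb : ∀ ω, |G γ (PrS p0 y) (2 / Y) t ω| ≤ (PrS p0 y).card := fun ω => hbd t ω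
  have hFG : ∀ ω, ‖F γ (PrS p0 y) (2 / Y) t ω‖ = Real.exp (G γ (PrS p0 y) (2 / Y) t ω) :=
    fun ω => hF t ω
  clear hcont hF hbd
  have hmom : ∀ a : ℝ, 0 ≤ a → a ≤ 2 →
      c * (Y / Real.log p0) ^ (κ * a ^ 2) ≤
        ∫ ω : Om, Real.exp (a * G γ (PrS p0 y) (2 / Y) t ω) ∂P ∧
      ∫ ω : Om, Real.exp (a * G γ (PrS p0 y) (2 / Y) t ω) ∂P ≤
        C * (Y / Real.log p0) ^ (κ * a ^ 2) := by
    intro a ha0 ha2
    have h1 := hMy a (by
      rw [abs_of_pos (by positivity), div_mul_eq_mul_div, div_le_iff₀ hYpos]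
      linarith) ha0 ha2
    have h2 : ∀ ω : Om, ‖F γ (PrS p0 y) (2 / Y) t ω‖ ^ a =
        Real.exp (a * G γ (PrS p0 y) (2 / Y) t ω) := by
      intro ω
      rw [hFG ω, mul_comm, Real.exp_mul]
    have h3 : (al γ) ^ 2 * a ^ 2 / 4 = κ * a ^ 2 := by rw [hκ]; ring
    simp only [h2, h3] at h1
    exact h1
  clear hFG hMy
  generalize hg : (fun ω : Om => G γ (PrS p0 y) (2 / Y) t ω) = g at hGc
  have hg' : ∀ ω : Om, G γ (PrS p0 y) (2 / Y) t ω = g ω := fun ω => congrFun hg ω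
  simp only [hg'] at hmom hGb ⊢
  have hYL : ∀ e : ℝ, 0 ≤ e → (Y / Real.log p0) ^ e ≤ Real.exp (LL * e) := by
    intro e he
    rw [← hYe]
    apply Real.rpow_le_rpow (by positivity) _ he
    rw [div_le_iff₀ hlogp]
    nlinarith
  have hh0 : 0 < 1 / r := by positivity
  have hh1 : 1 / r ≤ 1 := by rw [div_le_one (by linarith)]; exact hr1
  have hsp := split (Q := P) hGc hGb (1 / r) ((al γ) ^ 2 / 2 * LL) (A * r - 2) hh0
  have hμ : (al γ) ^ 2 / 2 * LL = 2 * κ * LL := by rw [hκ]; ring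
  have hlow := (hmom 1 zero_le_one (by norm_num)).1
  simp only [one_mul, one_pow, mul_one] at hlow
  have hlow2 : c * (Y / Real.log p0) ^ κ = c' * Y ^ κ := by
    rw [Real.div_rpow hYpos.le hlogp.le, hc', Real.rpow_neg hlogp.le]
    field_simp
  rw [hlow2] at hlow
  refine final hc'0 hC (hYe κ) hD hA hlow hsp ?_ ?_
  · apply arith (s := 1) hC hrr hr1 rfl hμ rfl (Or.inl rfl)
    · rw [one_mul]
      exact (hmom (1 + 1 / r) (by linarith) (by linarith)).2.trans
        (mul_le_mul_of_nonneg_left (hYL _ (by positivity)) hC.le)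
    · ring
  · apply arith (s := -1) hC hrr hr1 rfl hμ rfl (Or.inr rfl)
    · rw [neg_one_mul, ← sub_eq_add_neg]
      exact (hmom (1 - 1 / r) (by linarith) (by linarith)).2.trans
        (mul_le_mul_of_nonneg_left (hYL _ (by positivity)) hC.le)
    · ring

theorem TLT (hM1 : S_M1) (hGC : S_GC) : S_TLT := by
  intro γ p0 hp
  obtain ⟨c, C, hc, hC, hM⟩ := hM1 γ p0 hp 2
  have hp0 : 4 * Real.exp 16 ≤ p0 := hp.1
  have hp1 : Real.exp 1 ≤ (p0 : ℝ) := by
    have h1 : Real.exp 1 ≤ Real.exp 16 := Real.exp_le_exp.mpr (by norm_num)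
    have h2 : 0 < Real.exp 16 := Real.exp_pos _
    linarith
  have hL0 : 1 ≤ Real.log p0 := by
    have := Real.log_le_log (Real.exp_pos 1) hp1
    rwa [Real.log_exp] at this
  refine ⟨max 1 (Real.log (2 * (2 * (C * Real.exp ((al γ) ^ 2 / 4)) * Real.exp 2) /
    (c * (Real.log p0) ^ (-((al γ) ^ 2 / 4))))), (c * (Real.log p0) ^ (-((al γ) ^ 2 / 4))) / 2,
    max (Real.exp 3) p0, le_max_left _ _,
    half_pos (mul_pos hc (Real.rpow_pos_of_pos (by linarith) _)), le_max_left _ _, ?_⟩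
  intro y t hy
  exact TLTaux.main hM1 hGC γ p0 hp c C hc hC hM hL0 _ _ _ _ rfl rfl rfl (le_max_right _ _) y t
    ((le_max_left _ _).trans hy) ((le_max_right _ _).trans hy)

end PM
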