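import Pool.Agent.H24.PM.Red

namespace PM
open MeasureTheory Complex

theorem UA (hR : S_URED) (hMA : S_MA) (hM1 : S_M1) (hSM : S_SMU) (hG : S_GOOD) : S_UA := by
  intro γ p hp hp1 hal
  obtain ⟨p0, hg⟩ := hG γ
  obtain ⟨hp04, hlp0⟩ := good_p0 hg
  obtain ⟨C1, hC1, h1⟩ := hMA γ p hp hp1 hal p0 hg
  have hal0 := al_pos γ
  obtain ⟨C, hC, h2⟩ := red_upper hR hM1 hSM γ p hp hp1 p0 hg ((al γ) ^ 2 * p ^ 2 / 4) 0
    (by positivity) le_rfl le_rfl C1 hC1.le (by
      intro y hy
      have hy0 : Real.log p0 ≤ Real.log y := Real.log_le_log (by linarith) (by linarith)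
      have hy1 : 0 < Real.log y := by linarith
      have h3 := h1 y (-(1 / Real.log y)) hy (by
        rw [abs_neg, abs_of_pos (by positivity)]
        field_simp
        norm_num) (by
        rw [abs_neg, abs_of_pos (by positivity)]
        field_simp
        norm_num)
      rw [Real.rpow_zero, mul_one]
      exact h3)
  refine ⟨C, hC, fun N hN => ?_⟩
  have h4 := h2 N hN
  rwa [Real.rpow_zero, mul_one] at h4

end PM
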