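import Pool.Agent.H24.PM.Lay

namespace PM
open MeasureTheory Complex

/-- the square root of the normalised mean square -/
noncomputable def XJ (γ : ℝ) (p0 : ℕ) (y : ℝ) (ω : Om) : ℝ :=
  (JF γ (PrS p0 y) (-(1 / Real.log y)) ω / Real.log y) ^ (1 / 2 : ℝ)

lemma XJ_facts (hJ : S_JM) (hW : S_WEAK) (γ : ℝ) (p0 : ℕ) (hG : Good γ p0) :
    ∃ C : ℝ, 0 < C ∧ ∀ y : ℝ, (p0 : ℝ) + 1 ≤ y → Measurable (XJ γ p0 y) ∧
      (∀ ω, 0 ≤ XJ γ p0 y ω) ∧ (∃ B : ℝ, ∀ ω, XJ γ p0 y ω ≤ B) ∧
      (∀ μ : ℝ, 0 < μ → P.real {ω | μ ≤ XJ γ p0 y ω} ≤ C * (Real.log y) ^ ((al γ) ^ 2 / 4) / μ) ∧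
      (∀ (p : ℝ) (ω : Om), (XJ γ p0 y ω) ^ p =
        (JF γ (PrS p0 y) (-(1 / Real.log y)) ω / Real.log y) ^ (p / 2)) ∧ 16 ≤ Real.log y := by
  obtain ⟨hp04, hlp0⟩ := good_p0 hG
  have hl16 : 16 ≤ Real.log p0 := by
    have h1 := hG.1
    rw [Real.le_log_iff_exp_le (by linarith)]
    linarith [Real.exp_pos 16]
  obtain ⟨C, hC, hW'⟩ := hW γ p0 hG
  refine ⟨C, hC, ?_⟩
  intro y hy
  have hy0 : Real.log p0 ≤ Real.log y := Real.log_le_log (by linarith) (by linarith)
  have hY1 : 16 ≤ Real.log y := by linarith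
  have hYpos : 0 < Real.log y := by linarith
  have habs : |-(1 / Real.log y)| = 1 / Real.log y := by rw [abs_neg, abs_of_pos (by positivity)]
  have hσ1 : -(1 / 2) < -(1 / Real.log y) := by
    have : 1 / Real.log y < 1 / 2 := by
      apply one_div_lt_one_div_of_lt (by norm_num) (by linarith)
    linarith
  have hσ0 : -(1 / Real.log y) ≠ 0 := neg_ne_zero.2 (by positivity)
  have hprime : ∀ l ∈ PrS p0 y, l.Prime := by
    intro l hl
    unfold PrS at hl
    exact (Finset.mem_filter.1 hl).2.1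
  obtain ⟨hJm, ⟨B, hB⟩, hJi, -⟩ := hJ γ (PrS p0 y) (-(1 / Real.log y)) hprime hσ1 hσ0
  have hn : ∀ ω, 0 ≤ JF γ (PrS p0 y) (-(1 / Real.log y)) ω / Real.log y := fun ω =>
    div_nonneg (hB ω).1 hYpos.le
  refine ⟨?_, ?_, ?_, ?_, ?_, hY1⟩
  · exact (hJm.div_const _).pow_const _
  · intro ω
    exact Real.rpow_nonneg (hn ω) _
  · refine ⟨(B / Real.log y) ^ (1 / 2 : ℝ), fun ω => ?_⟩
    apply Real.rpow_le_rpow (hn ω) _ (by norm_num)
    exact div_le_div_of_nonneg_right (hB ω).2 hYpos.le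
  · intro μ hμ
    have h1 := hW' y (-(1 / Real.log y)) μ hy (by
      rw [habs]; rw [mul_assoc, one_div, inv_mul_cancel₀ hYpos.ne']; norm_num) (by
      rw [habs]; rw [one_div, inv_mul_cancel₀ hYpos.ne']; norm_num) hμ
    have h2 : {ω | μ ≤ XJ γ p0 y ω} =
        {ω | μ ^ 2 * Real.log y ≤ JF γ (PrS p0 y) (-(1 / Real.log y)) ω} := by
      ext ω
      simp only [Set.mem_ofPred_eq, XJ]
      rw [← Real.sqrt_eq_rpow, Real.le_sqrt hμ.le (hn ω), le_div_iff₀ hYpos]
    rw [h2]
    exact h1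
  · intro p ω
    unfold XJ
    rw [← Real.rpow_mul (hn ω)]
    congr 1
    ring

theorem UE (hR : S_URED) (hW : S_WEAK) (hM1 : S_M1) (hSM : S_SMU) (hG : S_GOOD) (hJ : S_JM) :
    S_UE := by
  intro γ p hp hp1
  obtain ⟨p0, hg⟩ := hG γ
  have hal0 := al_pos γ
  obtain ⟨C, hC, hX⟩ := XJ_facts hJ hW γ p0 hg
  set r : ℝ := (2 : ℝ) ^ (p - 1) with hr
  have hr0 : 0 < r := by positivity
  have hr1 : r < 1 := Real.rpow_lt_one_of_one_lt_of_neg (by norm_num) (by linarith)
  have hr2 : 0 < (1 - r)⁻¹ := inv_pos.2 (by linarith)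
  obtain ⟨C', hC', h2⟩ := red_upper hR hM1 hSM γ p hp hp1.le p0 hg ((al γ) ^ 2 * p / 4) 0
    (by positivity) (by
      have : p ^ 2 ≤ p := by nlinarith
      have h3 : 0 ≤ (al γ) ^ 2 := by positivity
      nlinarith) le_rfl (1 + C * (2 : ℝ) ^ p * (1 - r)⁻¹) (by positivity) (by
      intro y hy
      obtain ⟨hXm, hX0, ⟨B, hB⟩, hXw, hXp, hY⟩ := hX y hy
      have hYpos : 0 < Real.log y := by linarith
      set Q : ℝ := (Real.log y) ^ ((al γ) ^ 2 / 4) with hQ
      have hQpos : 0 < Q := by positivity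
      obtain ⟨K, hK⟩ : ∃ K : ℕ, B < (2 : ℝ) ^ K * Q := by
        obtain ⟨K, hK⟩ := pow_unbounded_of_one_lt (B / Q) (by norm_num : (1 : ℝ) < 2)
        exact ⟨K, by rwa [div_lt_iff₀ hQpos] at hK⟩
      have h3 := layer_bound hXm hX0 hB hp hQpos hXw K
      have h4 : ∫ ω : Om, (if (2 : ℝ) ^ K * Q ≤ XJ γ p0 y ω then XJ γ p0 y ω ^ p else 0) ∂P = 0 := by
        have : (fun ω : Om => if (2 : ℝ) ^ K * Q ≤ XJ γ p0 y ω then XJ γ p0 y ω ^ p else 0) =
            fun _ => 0 := by
          ext ω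
          rw [if_neg]
          have := hB ω
          linarith
        rw [this, integral_zero]
      rw [h4, add_zero] at h3
      simp only [hXp] at h3
      have h5 : ∑ k ∈ Finset.range K, (2 : ℝ) ^ (((k : ℝ) + 1) * p) * (C / (2 : ℝ) ^ k) ≤
          C * (2 : ℝ) ^ p * (1 - r)⁻¹ := by
        have h6 : ∀ k : ℕ, (2 : ℝ) ^ (((k : ℝ) + 1) * p) * (C / (2 : ℝ) ^ k) =
            C * (2 : ℝ) ^ p * r ^ k := by
          intro k
          have : r ^ k = (2 : ℝ) ^ ((k : ℝ) * p) / (2 : ℝ) ^ k := by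
            rw [hr, ← Real.rpow_natCast, ← Real.rpow_mul (by norm_num), ← Real.rpow_natCast 2 k,
              ← Real.rpow_sub (by norm_num)]
            congr 1
            ring
          rw [this, add_mul, one_mul, Real.rpow_add (by norm_num)]
          ring
        simp only [h6]
        rw [← Finset.mul_sum]
        apply mul_le_mul_of_nonneg_left _ (by positivity)
        calc _ ≤ ∑' k : ℕ, r ^ k := (summable_geometric_of_lt_one hr0.le hr1).sum_le_tsum _
              (fun k _ => by positivity)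
          _ = _ := tsum_geometric_of_lt_one hr0.le hr1
      rw [Real.rpow_zero, mul_one]
      refine h3.trans ?_
      have h7 : Q ^ p = (Real.log y) ^ ((al γ) ^ 2 * p / 4) := by
        rw [hQ, ← Real.rpow_mul hYpos.le]
        congr 1
        ring
      rw [h7, mul_comm]
      apply mul_le_mul_of_nonneg_right _ (by positivity)
      linarith)
  refine ⟨C', hC', fun N hN => ?_⟩
  have h4 := h2 N hN
  rwa [Real.rpow_zero, mul_one] at h4

theorem UE1 (hR : S_URED) (hW : S_WEAK) (hM1 : S_M1) (hSM : S_SMU) (hG : S_GOOD) (hJ : S_JM)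
    (hCo : S_CONT) : S_UE1 := by
  intro γ
  obtain ⟨p0, hg⟩ := hG γ
  have hal0 := al_pos γ
  obtain ⟨C, hC, hX⟩ := XJ_facts hJ hW γ p0 hg
  obtain ⟨C2, hC2, hX2⟩ := mean_JF hCo hJ hM1 γ p0 hg
  -- number of layers: 2 ^ K is at least Y ^ (al ^ 2)
  set D0 : ℝ := (al γ) ^ 2 / Real.log 2 + 1 with hD0
  have hl2 : 0 < Real.log 2 := Real.log_pos (by norm_num)
  have hD0p : 0 < D0 := by positivity
  obtain ⟨C', hC', h2⟩ := red_upper hR hM1 hSM γ 1 one_pos le_rfl p0 hg ((al γ) ^ 2 / 4) 1
    (by positivity) (by norm_num) zero_le_one (1 + 2 * C * D0 + C2) (by positivity) (by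
      intro y hy
      obtain ⟨hXm, hX0, ⟨B, hB⟩, hXw, hXp, hY⟩ := hX y hy
      have hYpos : 0 < Real.log y := by linarith
      have hLL : 0 ≤ Real.log (Real.log y) := Real.log_nonneg (by linarith)
      set Q : ℝ := (Real.log y) ^ ((al γ) ^ 2 / 4) with hQ
      have hQ1 : 1 ≤ Q := Real.one_le_rpow (by linarith) (by positivity)
      have hQpos : 0 < Q := by linarith
      set K : ℕ := ⌈(al γ) ^ 2 / Real.log 2 * Real.log (Real.log y)⌉₊ with hK
      have hK1 : (K : ℝ) ≤ D0 * (1 + Real.log (Real.log y)) := by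
        have h3 : (K : ℝ) < (al γ) ^ 2 / Real.log 2 * Real.log (Real.log y) + 1 :=
          Nat.ceil_lt_add_one (by positivity)
        have h4 : 0 ≤ (al γ) ^ 2 / Real.log 2 := by positivity
        rw [hD0]
        nlinarith
      have hK2 : (Real.log y) ^ ((al γ) ^ 2) ≤ (2 : ℝ) ^ K := by
        rw [show (2 : ℝ) ^ K = (2 : ℝ) ^ (K : ℝ) from (Real.rpow_natCast 2 K).symm]
        have h3 : (al γ) ^ 2 / Real.log 2 * Real.log (Real.log y) ≤ K := Nat.le_ceil _
        calc (Real.log y) ^ ((al γ) ^ 2) = Real.exp (Real.log (Real.log y) * (al γ) ^ 2) := by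
              rw [Real.rpow_def_of_pos hYpos]
          _ ≤ Real.exp (Real.log 2 * K) := by
              apply Real.exp_le_exp.2
              calc Real.log (Real.log y) * (al γ) ^ 2 =
                    Real.log 2 * ((al γ) ^ 2 / Real.log 2 * Real.log (Real.log y)) := by
                    field_simp
                _ ≤ _ := mul_le_mul_of_nonneg_left h3 hl2.le
          _ = _ := by rw [Real.rpow_def_of_pos (by norm_num)]
      have h3 := layer_bound hXm hX0 hB one_pos hQpos hXw K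
      have hX2' : ∀ ω, XJ γ p0 y ω ^ 2 = JF γ (PrS p0 y) (-(1 / Real.log y)) ω / Real.log y := by
        intro ω
        have := hXp 2 ω
        rw [show (2 : ℝ) / 2 = 1 by norm_num, Real.rpow_one] at this
        rw [← this, ← Real.rpow_natCast]
        norm_num
      have h4 : ∫ ω : Om, (if (2 : ℝ) ^ K * Q ≤ XJ γ p0 y ω then XJ γ p0 y ω ^ (1 : ℝ) else 0) ∂P ≤
          C2 := by
        have h5 : ∫ ω : Om, (if (2 : ℝ) ^ K * Q ≤ XJ γ p0 y ω then XJ γ p0 y ω ^ (1 : ℝ) else 0) ∂P ≤
            ∫ ω : Om, (JF γ (PrS p0 y) (-(1 / Real.log y)) ω / Real.log y) * ((2 : ℝ) ^ K)⁻¹ ∂P := by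
          apply integral_mono_of_nonneg
          · filter_upwards with ω
            split_ifs
            · exact Real.rpow_nonneg (hX0 ω) _
            · exact le_rfl
          · have hm : Measurable (fun ω => (JF γ (PrS p0 y) (-(1 / Real.log y)) ω / Real.log y) *
                ((2 : ℝ) ^ K)⁻¹) := by
              have : (fun ω => (JF γ (PrS p0 y) (-(1 / Real.log y)) ω / Real.log y) *
                ((2 : ℝ) ^ K)⁻¹) = fun ω => XJ γ p0 y ω ^ 2 * ((2 : ℝ) ^ K)⁻¹ := by
                ext ω; rw [hX2']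
              rw [this]
              exact (hXm.pow_const 2).mul_const _
            apply Integrable.of_bound hm.aestronglyMeasurable (B ^ 2 * ((2 : ℝ) ^ K)⁻¹)
            filter_upwards with ω
            rw [← hX2', Real.norm_of_nonneg (by positivity)]
            apply mul_le_mul_of_nonneg_right _ (by positivity)
            exact pow_le_pow_left₀ (hX0 ω) (hB ω) 2
          · filter_upwards with ω
            rw [← hX2']
            split_ifs with h6
            · rw [Real.rpow_one, ← div_eq_mul_inv, le_div_iff₀ (by positivity)]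
              have h7 : (2 : ℝ) ^ K ≤ XJ γ p0 y ω := by
                refine le_trans ?_ h6
                exact le_mul_of_one_le_right (by positivity) hQ1
              have := hX0 ω
              nlinarith
            · positivity
        refine h5.trans ?_
        rw [integral_mul_const, ← div_eq_mul_inv, div_le_iff₀ (by positivity)]
        exact (hX2 y hy).trans (mul_le_mul_of_nonneg_left hK2 hC2.le)
      simp only [hXp] at h3 h4
      have h5 : ∑ k ∈ Finset.range K, (2 : ℝ) ^ (((k : ℝ) + 1) * 1) * (C / (2 : ℝ) ^ k) =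
          2 * C * K := by
        have h6 : ∀ k : ℕ, (2 : ℝ) ^ (((k : ℝ) + 1) * 1) * (C / (2 : ℝ) ^ k) = 2 * C := by
          intro k
          rw [mul_one, Real.rpow_add (by norm_num), Real.rpow_natCast, Real.rpow_one]
          field_simp
        simp only [h6]
        rw [Finset.sum_const, Finset.card_range, nsmul_eq_mul]
        ring
      rw [h5, Real.rpow_one] at h3
      rw [Real.rpow_one]
      refine h3.trans ?_
      have h8 : Q * (1 + 2 * C * K) ≤ Q * (1 + 2 * C * D0) * (1 + Real.log (Real.log y)) := by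
        have h9 : 2 * C * (K : ℝ) ≤ 2 * C * (D0 * (1 + Real.log (Real.log y))) :=
          mul_le_mul_of_nonneg_left hK1 (by positivity)
        have h10 : 0 ≤ 2 * C * D0 := by positivity
        rw [mul_assoc Q (1 + 2 * C * D0)]
        apply mul_le_mul_of_nonneg_left _ hQpos.le
        nlinarith
      have h9 : C2 ≤ C2 * (Q * (1 + Real.log (Real.log y))) := by
        apply le_mul_of_one_le_right hC2.le
        exact one_le_mul_of_one_le_of_one_le hQ1 (by linarith)
      calc _ ≤ Q * (1 + 2 * C * D0) * (1 + Real.log (Real.log y)) +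
            C2 * (Q * (1 + Real.log (Real.log y))) := add_le_add h8 (h4.trans h9)
        _ = _ := by ring)
  refine ⟨C' * 2, by positivity, fun N hN => ?_⟩
  have h4 := h2 N (by omega)
  simp only [Real.rpow_one] at h4
  refine h4.trans ?_
  have hN' : (16 : ℝ) ≤ N := by exact_mod_cast hN
  have h16 : Real.exp 1 ≤ Real.log N := by
    have : Real.log 16 ≤ Real.log N := Real.log_le_log (by norm_num) hN'
    refine le_trans ?_ this
    have h5 : Real.log 16 = 4 * Real.log 2 := by
      rw [show (16 : ℝ) = 2 ^ (4 : ℕ) by norm_num, Real.log_pow]; norm_num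
    rw [h5]
    have := Real.log_two_gt_d9
    have := Real.exp_one_lt_d9
    linarith
  have h5 : 1 ≤ Real.log (Real.log N) := by
    rw [Real.le_log_iff_exp_le (lt_of_lt_of_le (Real.exp_pos 1) h16)]
    exact h16
  have h6 : 0 ≤ Real.log N := le_trans (Real.exp_pos 1).le h16
  have h7 : 0 ≤ (Real.log N) ^ ((al γ) ^ 2 / 4) := Real.rpow_nonneg h6 _
  calc C' * ((Real.log N) ^ ((al γ) ^ 2 / 4) * (1 + Real.log (Real.log N)))
      ≤ C' * ((Real.log N) ^ ((al γ) ^ 2 / 4) * (2 * Real.log (Real.log N))) := by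
        apply mul_le_mul_of_nonneg_left _ hC'.le
        apply mul_le_mul_of_nonneg_left _ h7
        linarith
    _ = _ := by ring

end PM
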