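import Pool.Agent.H24.PM.Stmts

/-! Project PM, module URE. -/

namespace PM.H61
open MeasureTheory Complex

theorem int_cont {E : Type*} [NormedAddCommGroup E] {f : Om → E} (hf : Continuous f) :
    Integrable f P :=
  hf.integrable_of_hasCompactSupport (HasCompactSupport.of_compactSpace f)

theorem b_mul (γ : ℝ) {m n : ℕ} (h : Nat.Coprime m n) : b γ (m * n) = b γ m * b γ n := by
  unfold b
  rw [Nat.Coprime.card_divisors_mul h, Nat.cast_mul, Real.mul_rpow (by positivity) (by positivity),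
    Nat.cast_mul, Real.sqrt_mul (by positivity), mul_div_mul_comm]

/-- indicator of m at most z, minus the one at v -/
noncomputable def ee (v : ℝ) (m : ℕ) (z : ℝ) : ℝ :=
  (if (m : ℝ) ≤ z then (1 : ℝ) else 0) - (if (m : ℝ) ≤ v then (1 : ℝ) else 0)

theorem ee_meas (v : ℝ) (m : ℕ) : Measurable (ee v m) := by
  unfold ee
  refine Measurable.sub (Measurable.ite measurableSet_Ici measurable_const measurable_const)
    measurable_const

theorem ee_abs (v : ℝ) (m : ℕ) (z : ℝ) : |ee v m z| ≤ 1 := by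
  unfold ee
  split_ifs <;> norm_num

theorem ee_zero {v : ℝ} {m : ℕ} {z : ℝ} (hz : v ≤ z) (hm : (m : ℝ) ≤ v) : ee v m z = 0 := by
  unfold ee
  rw [if_pos hm, if_pos (hm.trans hz)]; ring

theorem DA_eq (γ : ℝ) (A : Finset ℕ) (M : ℕ) (z : ℝ) (ω : Om) (hz : 0 ≤ z) (hzM : ⌊z⌋₊ ≤ M) :
    DA γ A z ω = ∑ m ∈ (Finset.Icc 1 M).filter (fun n => n.primeFactors ⊆ A),
      ((if (m : ℝ) ≤ z then (1 : ℝ) else 0 : ℝ) : ℂ) * ((b γ m : ℂ) * chi m ω) := by
  unfold DA
  have h1 : (Finset.Icc 1 ⌊z⌋₊).filter (fun n => n.primeFactors ⊆ A) =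
      ((Finset.Icc 1 M).filter (fun n => n.primeFactors ⊆ A)).filter (fun m : ℕ => (m : ℝ) ≤ z) := by
    ext m
    simp only [Finset.mem_filter, Finset.mem_Icc]
    rw [← Nat.le_floor_iff hz]
    constructor
    · rintro ⟨⟨h1, h2⟩, h3⟩; exact ⟨⟨⟨h1, h2.trans hzM⟩, h3⟩, h2⟩
    · rintro ⟨⟨⟨h1, h2⟩, h3⟩, h4⟩; exact ⟨⟨h1, h4⟩, h3⟩
  rw [h1, Finset.sum_filter]
  refine Finset.sum_congr rfl fun m _ => ?_
  split_ifs <;> simp

theorem norm_sq_sum {ι : Type*} (T : Finset ι) (e : ι → ℝ) (a : ι → ℂ) :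
    ‖∑ m ∈ T, (e m : ℂ) * a m‖ ^ 2 =
      ∑ m ∈ T, ∑ m' ∈ T, e m * e m' * (a m * (starRingEnd ℂ) (a m')).re := by
  have h : ((‖∑ m ∈ T, (e m : ℂ) * a m‖ ^ 2 : ℝ) : ℂ) =
      ∑ m ∈ T, ∑ m' ∈ T, ((e m * e m' : ℝ) : ℂ) * (a m * (starRingEnd ℂ) (a m')) := by
    rw [← Complex.normSq_eq_norm_sq, ← Complex.mul_conj, map_sum, Finset.sum_mul_sum]
    refine Finset.sum_congr rfl fun m _ => Finset.sum_congr rfl fun m' _ => ?_
    rw [map_mul, Complex.conj_ofReal]; push_cast; ring
  have h2 := congrArg Complex.re h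
  rw [Complex.ofReal_re] at h2
  rw [h2, Complex.re_sum]
  refine Finset.sum_congr rfl fun m _ => ?_
  rw [Complex.re_sum]
  refine Finset.sum_congr rfl fun m' _ => ?_
  rw [Complex.re_ofReal_mul]

/-- the weights -/
noncomputable def kap (v v' : ℝ) (m m' : ℕ) : ℝ :=
  ∫ z in Set.Ioc v v', ee v m z * ee v m' z / z

theorem kap_int {v v' : ℝ} (hv : 0 < v) (m m' : ℕ) :
    IntegrableOn (fun z => ee v m z * ee v m' z / z) (Set.Ioc v v') := by
  have h1 : IntegrableOn (fun _ : ℝ => 1 / v) (Set.Ioc v v') := by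
    exact integrableOn_const (by simp)
  refine Integrable.mono' h1 ?_ ?_
  · exact (((ee_meas v m).mul (ee_meas v m')).div measurable_id).aestronglyMeasurable
  · refine (ae_restrict_iff' measurableSet_Ioc).mpr (Filter.Eventually.of_forall fun z hz => ?_)
    have hz0 : 0 < z := hv.trans hz.1
    rw [Real.norm_eq_abs, abs_div, abs_mul, abs_of_pos hz0]
    have h2 : |ee v m z| * |ee v m' z| ≤ 1 := by
      have := mul_le_mul (ee_abs v m z) (ee_abs v m' z) (abs_nonneg _) zero_le_one
      simpa using this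
    calc |ee v m z| * |ee v m' z| / z ≤ 1 / z := by gcongr
      _ ≤ 1 / v := by gcongr; exact hz.1.le

theorem kap_zero {v v' : ℝ} {m : ℕ} (hm : (m : ℝ) ≤ v) : kap v v' m m = 0 := by
  unfold kap
  rw [setIntegral_congr_fun (g := fun _ => (0 : ℝ)) measurableSet_Ioc]
  · simp
  · intro z hz
    simp only [ee_zero hz.1.le hm]; simp

theorem kap_le {v X : ℝ} (hv : 0 < v) (hX : 1 ≤ X) (m : ℕ) :
    kap v (v * (1 + 1 / X)) m m ≤ 1 / X := by
  unfold kap
  have hX0 : 0 < X := by linarith
  have hvv : v ≤ v * (1 + 1 / X) := by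
    have : 0 ≤ v * (1 / X) := by positivity
    nlinarith
  have h1 : IntegrableOn (fun _ : ℝ => 1 / v) (Set.Ioc v (v * (1 + 1 / X))) :=
    integrableOn_const (by simp)
  calc ∫ z in Set.Ioc v (v * (1 + 1 / X)), ee v m z * ee v m z / z
      ≤ ∫ z in Set.Ioc v (v * (1 + 1 / X)), 1 / v := by
        refine setIntegral_mono_on (kap_int hv m m) h1 measurableSet_Ioc ?_
        intro z hz
        have hz0 : 0 < z := hv.trans hz.1
        have h2 : ee v m z * ee v m z ≤ 1 := by
          have := mul_le_mul (ee_abs v m z) (ee_abs v m z) (abs_nonneg _) zero_le_one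
          rw [← abs_mul, abs_mul_self] at this
          simpa using this
        calc ee v m z * ee v m z / z ≤ 1 / z := by gcongr
          _ ≤ 1 / v := by gcongr; exact hz.1.le
    _ = 1 / X := by
        rw [setIntegral_const, smul_eq_mul, Real.volume_real_Ioc_of_le hvv]
        field_simp
        ring

theorem inner_eq (γ : ℝ) (A : Finset ℕ) {v v' : ℝ} (hv : 0 < v) (ω : Om) :
    ∫ z in Set.Ioc v v', ‖DA γ A z ω - DA γ A v ω‖ ^ 2 / z =
      ∑ m ∈ (Finset.Icc 1 ⌊v'⌋₊).filter (fun n => n.primeFactors ⊆ A),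
      ∑ m' ∈ (Finset.Icc 1 ⌊v'⌋₊).filter (fun n => n.primeFactors ⊆ A),
        kap v v' m m' * (((b γ m : ℂ) * chi m ω) *
          (starRingEnd ℂ) ((b γ m' : ℂ) * chi m' ω)).re := by
  set T := (Finset.Icc 1 ⌊v'⌋₊).filter (fun n => n.primeFactors ⊆ A) with hT
  have h1 : ∀ z ∈ Set.Ioc v v', ‖DA γ A z ω - DA γ A v ω‖ ^ 2 / z =
      ∑ m ∈ T, ∑ m' ∈ T, (ee v m z * ee v m' z / z) * (((b γ m : ℂ) * chi m ω) *
          (starRingEnd ℂ) ((b γ m' : ℂ) * chi m' ω)).re := by
    intro z hz
    have hz0 : 0 < z := hv.trans hz.1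
    rw [DA_eq γ A ⌊v'⌋₊ z ω hz0.le (Nat.floor_le_floor hz.2),
      DA_eq γ A ⌊v'⌋₊ v ω hv.le (Nat.floor_le_floor (hz.1.le.trans hz.2)), ← Finset.sum_sub_distrib]
    have h2 : ∀ m ∈ T, ((if (m : ℝ) ≤ z then (1 : ℝ) else 0 : ℝ) : ℂ) * ((b γ m : ℂ) * chi m ω) -
        ((if (m : ℝ) ≤ v then (1 : ℝ) else 0 : ℝ) : ℂ) * ((b γ m : ℂ) * chi m ω) =
        (ee v m z : ℂ) * ((b γ m : ℂ) * chi m ω) := by
      intro m _
      unfold ee; push_cast; ring
    rw [Finset.sum_congr rfl h2, norm_sq_sum, Finset.sum_div]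
    refine Finset.sum_congr rfl fun m _ => ?_
    rw [Finset.sum_div]
    refine Finset.sum_congr rfl fun m' _ => ?_
    ring
  rw [setIntegral_congr_fun measurableSet_Ioc h1]
  rw [integral_finsetSum]
  · refine Finset.sum_congr rfl fun m _ => ?_
    rw [integral_finsetSum]
    · refine Finset.sum_congr rfl fun m' _ => ?_
      rw [integral_mul_const]
      rfl
    · intro m' _
      exact (kap_int hv m m').mul_const _
  · intro m _
    exact integrable_finsetSum _ fun m' _ => (kap_int hv m m').mul_const _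

end PM.H61

namespace PM
open MeasureTheory Complex PM.H61

theorem URE (hC : S_CHI) : S_URE := by
  intro γ p0 p hp hp1 N y w X hN hp0 hyw hX
  obtain ⟨-, hC2, hC3, hC4⟩ := hC
  have hX0 : 0 < X := by linarith
  set A := PrS p0 y with hA
  have hN0 : (0 : ℝ) < N := by
    have : 0 < N := by omega
    exact_mod_cast this
  -- facts on r
  have hr : ∀ r ∈ RR N y w, 2 ≤ r ∧ r.primeFactors ⊆ PrS y w := by
    intro r hr
    unfold RR at hr
    rw [Finset.mem_filter, Finset.mem_Icc] at hr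
    exact ⟨hr.1.1, hr.2⟩
  have hv : ∀ r ∈ RR N y w, (0 : ℝ) < (N : ℝ) / r := by
    intro r h
    have : (0 : ℝ) < r := by
      have := (hr r h).1
      exact_mod_cast (by omega : 0 < r)
    positivity
  set T : ℕ → Finset ℕ := fun r =>
    (Finset.Icc 1 ⌊(N : ℝ) / r * (1 + 1 / X)⌋₊).filter (fun n => n.primeFactors ⊆ A) with hT
  set K : ℕ → ℕ → ℕ → ℝ := fun r m m' => kap ((N : ℝ) / r) ((N : ℝ) / r * (1 + 1 / X)) m m' with hK
  set R : ℕ → ℕ → Om → ℝ := fun m m' ω => (((b γ m : ℂ) * chi m ω) *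
          (starRingEnd ℂ) ((b γ m' : ℂ) * chi m' ω)).re with hR
  set Y : Om → ℝ := fun ω => X * ∑ r ∈ RR N y w, b γ r ^ 2 *
      ∫ z in Set.Ioc ((N : ℝ) / r) ((N : ℝ) / r * (1 + 1 / X)),
        ‖DA γ A z ω - DA γ A (N / r) ω‖ ^ 2 / z with hY
  have hY0 : ∀ ω, 0 ≤ Y ω := by
    intro ω
    refine mul_nonneg hX0.le (Finset.sum_nonneg fun r h => mul_nonneg (sq_nonneg _) ?_)
    refine setIntegral_nonneg measurableSet_Ioc fun z hz => ?_
    have : 0 < z := (hv r h).trans hz.1
    positivity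
  have hYeq : ∀ ω, Y ω = X * ∑ r ∈ RR N y w, b γ r ^ 2 *
      ∑ m ∈ T r, ∑ m' ∈ T r, K r m m' * R m m' ω := by
    intro ω
    rw [hY]
    simp only
    congr 1
    refine Finset.sum_congr rfl fun r h => ?_
    rw [inner_eq γ A (hv r h) ω]
  have hRc : ∀ m m', Continuous (R m m') := by
    intro m m'
    have h1 := hC3 m
    have h2 := hC3 m'
    exact Complex.continuous_re.comp ((continuous_const.mul h1).mul
      (Complex.continuous_conj.comp (continuous_const.mul h2)))
  have hRi : ∀ m m', m ≠ 0 → m' ≠ 0 → ∫ ω, R m m' ω ∂P = if m = m' then b γ m ^ 2 else 0 := by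
    intro m m' hm hm'
    have h1 : ∀ ω, ((b γ m : ℂ) * chi m ω) * (starRingEnd ℂ) ((b γ m' : ℂ) * chi m' ω) =
        ((b γ m * b γ m' : ℝ) : ℂ) * (chi m ω * (starRingEnd ℂ) (chi m' ω)) := by
      intro ω
      rw [map_mul, Complex.conj_ofReal]; push_cast; ring
    have h2 : ∀ ω, R m m' ω = (b γ m * b γ m') * (chi m ω * (starRingEnd ℂ) (chi m' ω)).re := by
      intro ω
      rw [hR]
      simp only
      rw [h1, Complex.re_ofReal_mul]
    simp_rw [h2]
    rw [integral_const_mul]
    have h3 : Integrable (fun ω => chi m ω * (starRingEnd ℂ) (chi m' ω)) P :=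
      int_cont ((hC3 m).mul (Complex.continuous_conj.comp (hC3 m')))
    have h4 : ∫ ω, (chi m ω * (starRingEnd ℂ) (chi m' ω)).re ∂P =
        (∫ ω, chi m ω * (starRingEnd ℂ) (chi m' ω) ∂P).re := integral_re h3
    rw [h4, hC4 m m' hm hm']
    split_ifs with h
    · subst h; simp [sq]
    · simp
  have hYc : Continuous Y := by
    have : Y = fun ω => X * ∑ r ∈ RR N y w, b γ r ^ 2 *
      ∑ m ∈ T r, ∑ m' ∈ T r, K r m m' * R m m' ω := funext hYeq
    rw [this]
    refine continuous_const.mul (continuous_finsetSum _ fun r _ => continuous_const.mul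
      (continuous_finsetSum _ fun m _ => continuous_finsetSum _ fun m' _ =>
        continuous_const.mul (hRc m m')))
  have hq0 : 0 ≤ p / 2 := by linarith
  have hq1 : p / 2 ≤ 1 := by linarith
  have hJ : ∫ ω, Y ω ^ (p / 2) ∂P ≤ (∫ ω, Y ω ∂P) ^ (p / 2) := by
    have := ConcaveOn.le_map_integral (μ := P) (f := Y) (g := fun x : ℝ => x ^ (p / 2))
      (s := Set.Ici 0) (Real.concaveOn_rpow hq0 hq1)
      (Real.continuous_rpow_const hq0).continuousOn isClosed_Ici
      (Filter.Eventually.of_forall hY0) (int_cont hYc)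
      (int_cont ((Real.continuous_rpow_const hq0).comp hYc))
    exact this
  have hTm : ∀ r m, m ∈ T r → 1 ≤ m ∧ (m : ℝ) ≤ (N : ℝ) / r * (1 + 1 / X) ∧ m.primeFactors ⊆ A := by
    intro r m hm
    rw [hT] at hm
    simp only [Finset.mem_filter, Finset.mem_Icc] at hm
    refine ⟨hm.1.1, ?_, hm.2⟩
    exact (Nat.le_floor_iff (by positivity)).mp hm.1.2
  have hEY : ∫ ω, Y ω ∂P ≤ ∑ n ∈ (Finset.Icc 1 ⌊(N : ℝ) * (1 + 1 / X)⌋₊).filter
      (fun n : ℕ => N < n), b γ n ^ 2 := by
    have h1 : ∫ ω, Y ω ∂P = X * ∑ r ∈ RR N y w, b γ r ^ 2 *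
        ∑ m ∈ T r, K r m m * b γ m ^ 2 := by
      simp_rw [hYeq]
      rw [integral_const_mul, integral_finsetSum]
      · congr 1
        refine Finset.sum_congr rfl fun r h => ?_
        rw [integral_const_mul, integral_finsetSum]
        · congr 1
          refine Finset.sum_congr rfl fun m hm => ?_
          rw [integral_finsetSum]
          · rw [Finset.sum_eq_single m]
            · rw [integral_const_mul, hRi m m (by have := (hTm r m hm).1; omega)
                (by have := (hTm r m hm).1; omega), if_pos rfl]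
            · intro m' hm' hne
              rw [integral_const_mul, hRi m m' (by have := (hTm r m hm).1; omega)
                (by have := (hTm r m' hm').1; omega), if_neg (Ne.symm hne), mul_zero]
            · intro h; exact absurd hm h
          · intro m' _
            exact int_cont (continuous_const.mul (hRc m m'))
        · intro m _
          exact int_cont (continuous_finsetSum _ fun m' _ => continuous_const.mul (hRc m m'))
      · intro r _
        exact int_cont (continuous_const.mul (continuous_finsetSum _ fun m _ =>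
          continuous_finsetSum _ fun m' _ => continuous_const.mul (hRc m m')))
    have h2 : ∀ r ∈ RR N y w, ∀ m ∈ T r, X * (b γ r ^ 2 * (K r m m * b γ m ^ 2)) ≤
        if (N : ℝ) / r < m then b γ (r * m) ^ 2 else 0 := by
      intro r h m hm
      by_cases hc : (N : ℝ) / r < m
      · rw [if_pos hc]
        have hcop : Nat.Coprime r m := by
          rw [Nat.coprime_iff_gcd_eq_one]
          by_contra hg
          obtain ⟨l, hl, hld⟩ := Nat.exists_prime_and_dvd hg
          have hlr : l ∣ r := hld.trans (Nat.gcd_dvd_left _ _)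
          have hlm : l ∣ m := hld.trans (Nat.gcd_dvd_right _ _)
          have h3 : l ∈ PrS y w := (hr r h).2 (Nat.mem_primeFactors.mpr
            ⟨hl, hlr, by have := (hr r h).1; omega⟩)
          have h4 : l ∈ A := (hTm r m hm).2.2 (Nat.mem_primeFactors.mpr
            ⟨hl, hlm, by have := (hTm r m hm).1; omega⟩)
          rw [hA] at h4
          unfold PrS at h3 h4
          simp only [Finset.mem_filter, Finset.mem_range] at h3 h4
          have h5 : (l : ℝ) ≤ y := by
            have : l ≤ ⌊y⌋₊ := by omega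
            by_cases hy : 0 ≤ y
            · exact (Nat.le_floor_iff hy).mp this
            · have : (0 : ℝ) ≤ p0 := Nat.cast_nonneg _
              linarith
          linarith [h3.2.2]
        rw [b_mul γ hcop]
        have hk : K r m m ≤ 1 / X := kap_le (hv r h) hX m
        have h5 : X * (b γ r ^ 2 * (K r m m * b γ m ^ 2)) ≤
            X * (b γ r ^ 2 * (1 / X * b γ m ^ 2)) := by gcongr
        refine h5.trans (le_of_eq ?_)
        field_simp
      · rw [if_neg hc]
        have : K r m m = 0 := kap_zero (not_lt.mp hc)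
        rw [this]; simp
    rw [h1]
    have h3 : X * ∑ r ∈ RR N y w, b γ r ^ 2 * ∑ m ∈ T r, K r m m * b γ m ^ 2 =
        ∑ r ∈ RR N y w, ∑ m ∈ T r, X * (b γ r ^ 2 * (K r m m * b γ m ^ 2)) := by
      simp_rw [Finset.mul_sum]
    rw [h3]
    have h4 : ∑ r ∈ RR N y w, ∑ m ∈ T r, X * (b γ r ^ 2 * (K r m m * b γ m ^ 2)) ≤
        ∑ r ∈ RR N y w, ∑ m ∈ T r, (if (N : ℝ) / r < m then b γ (r * m) ^ 2 else 0) :=
      Finset.sum_le_sum fun r h => Finset.sum_le_sum fun m hm => h2 r h m hm
    refine h4.trans ?_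
    have h5 : ∑ r ∈ RR N y w, ∑ m ∈ T r, (if (N : ℝ) / r < m then b γ (r * m) ^ 2 else 0) =
        ∑ q ∈ ((RR N y w).sigma T).filter (fun q => (N : ℝ) / q.1 < q.2), b γ (q.1 * q.2) ^ 2 := by
      rw [Finset.sum_filter, Finset.sum_sigma]
    rw [h5]
    have h6 : ∑ q ∈ ((RR N y w).sigma T).filter (fun q => (N : ℝ) / q.1 < q.2), b γ (q.1 * q.2) ^ 2
        = ∑ n ∈ (((RR N y w).sigma T).filter (fun q => (N : ℝ) / q.1 < q.2)).image
          (fun q => q.1 * q.2), b γ n ^ 2 := by
      rw [Finset.sum_image]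
      rintro ⟨r, m⟩ hq ⟨r', m'⟩ hq' heq
      simp only [Finset.coe_filter, Finset.mem_sigma, Set.mem_ofPred_eq] at hq hq'
      simp only at heq
      -- primes of r are above y, primes of m at most y
      have cop : ∀ r m, r ∈ RR N y w → ∀ r', m ∈ T r' → Nat.Coprime r m := by
        intro r m h r' hm
        rw [Nat.coprime_iff_gcd_eq_one]
        by_contra hg
        obtain ⟨l, hl, hld⟩ := Nat.exists_prime_and_dvd hg
        have hlr : l ∣ r := hld.trans (Nat.gcd_dvd_left _ _)
        have hlm : l ∣ m := hld.trans (Nat.gcd_dvd_right _ _)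
        have h3 : l ∈ PrS y w := (hr r h).2 (Nat.mem_primeFactors.mpr
          ⟨hl, hlr, by have := (hr r h).1; omega⟩)
        have h4 : l ∈ A := (hTm r' m hm).2.2 (Nat.mem_primeFactors.mpr
          ⟨hl, hlm, by have := (hTm r' m hm).1; omega⟩)
        rw [hA] at h4
        unfold PrS at h3 h4
        simp only [Finset.mem_filter, Finset.mem_range] at h3 h4
        have h5 : (l : ℝ) ≤ y := by
          have : l ≤ ⌊y⌋₊ := by omega
          by_cases hy : 0 ≤ y
          · exact (Nat.le_floor_iff hy).mp this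
          · have : (0 : ℝ) ≤ p0 := Nat.cast_nonneg _
            linarith
        linarith [h3.2.2]
      have c1 : Nat.Coprime r m' := cop r m' hq.1.1 r' hq'.1.2
      have c2 : Nat.Coprime r' m := cop r' m hq'.1.1 r hq.1.2
      have d1 : r ∣ r' := c1.dvd_of_dvd_mul_right (heq ▸ Dvd.intro m rfl)
      have d2 : r' ∣ r := c2.dvd_of_dvd_mul_right (heq ▸ Dvd.intro m' rfl)
      have e1 : r = r' := Nat.dvd_antisymm d1 d2
      subst e1
      have e2 : m = m' := by
        have : 0 < r := by have := (hr r hq.1.1).1; omega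
        exact Nat.eq_of_mul_eq_mul_left this heq
      subst e2
      rfl
    rw [h6]
    refine Finset.sum_le_sum_of_subset_of_nonneg ?_ (fun _ _ _ => sq_nonneg _)
    intro n hn
    rw [Finset.mem_image] at hn
    obtain ⟨⟨r, m⟩, hq, rfl⟩ := hn
    simp only [Finset.mem_filter, Finset.mem_sigma] at hq
    obtain ⟨⟨h7, h8⟩, h9⟩ := hq
    have hr0 : (0 : ℝ) < r := by
      have := (hr r h7).1
      exact_mod_cast (by omega : 0 < r)
    have h10 := hTm r m h8
    simp only [Finset.mem_filter, Finset.mem_Icc]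
    refine ⟨⟨?_, ?_⟩, ?_⟩
    · have := (hr r h7).1
      have := h10.1
      exact Nat.mul_pos (by omega) (by omega)
    · refine Nat.le_floor ?_
      push_cast
      calc (r : ℝ) * m ≤ r * ((N : ℝ) / r * (1 + 1 / X)) := by gcongr; exact h10.2.1
        _ = N * (1 + 1 / X) := by field_simp
    · have : (N : ℝ) < r * m := by
        rw [div_lt_iff₀ hr0] at h9
        linarith
      exact_mod_cast this
  calc ∫ ω, Y ω ^ (p / 2) ∂P ≤ (∫ ω, Y ω ∂P) ^ (p / 2) := hJ
    _ ≤ _ := Real.rpow_le_rpow (integral_nonneg hY0) hEY hq0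

end PM
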