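import Pool.Agent.H24.PM.Stmts

/-! Project PM, module URED. -/

namespace PM.H61D
open MeasureTheory Complex

theorem int_cont {E : Type*} [NormedAddCommGroup E] {f : Om → E} (hf : Continuous f) :
    Integrable f P :=
  hf.integrable_of_hasCompactSupport (HasCompactSupport.of_compactSpace f)

theorem rpow_sum_le {ι : Type*} (s : Finset ι) (f : ι → ℝ) (hf : ∀ i ∈ s, 0 ≤ f i) {p : ℝ}
    (hp : 0 < p) (hp1 : p ≤ 1) : (∑ i ∈ s, f i) ^ p ≤ ∑ i ∈ s, f i ^ p := by
  classical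
  induction s using Finset.induction_on with
  | empty => simp [Real.zero_rpow hp.ne']
  | insert a s ha ih =>
    rw [Finset.sum_insert ha, Finset.sum_insert ha]
    have h1 := Real.rpow_add_le_add_rpow (hf a (Finset.mem_insert_self _ _))
      (Finset.sum_nonneg fun i hi => hf i (Finset.mem_insert_of_mem hi)) hp.le hp1
    have h2 := ih fun i hi => hf i (Finset.mem_insert_of_mem hi)
    linarith

theorem DA_cont (hC : S_CHI) (γ : ℝ) (A : Finset ℕ) (z : ℝ) : Continuous (DA γ A z) := by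
  unfold DA
  exact continuous_finsetSum _ fun n _ => continuous_const.mul (hC.2.2.1 n)

/-- second moment of the partial sums -/
theorem DA_sq (hC : S_CHI) (γ : ℝ) (A : Finset ℕ) (z : ℝ) :
    ∫ ω : Om, ‖DA γ A z ω‖ ^ 2 ∂P =
      ∑ n ∈ (Finset.Icc 1 ⌊z⌋₊).filter (fun n => n.primeFactors ⊆ A), b γ n ^ 2 := by
  obtain ⟨-, -, hC3, hC4⟩ := hC
  set T := (Finset.Icc 1 ⌊z⌋₊).filter (fun n => n.primeFactors ⊆ A) with hT
  have hT0 : ∀ m ∈ T, m ≠ 0 := by
    intro m hm
    rw [hT, Finset.mem_filter, Finset.mem_Icc] at hm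
    omega
  have h1 : ∀ ω : Om, ‖DA γ A z ω‖ ^ 2 = (∑ m ∈ T, ∑ m' ∈ T,
      ((b γ m * b γ m' : ℝ) : ℂ) * (chi m ω * (starRingEnd ℂ) (chi m' ω))).re := by
    intro ω
    have h : ((‖DA γ A z ω‖ ^ 2 : ℝ) : ℂ) = ∑ m ∈ T, ∑ m' ∈ T,
        ((b γ m * b γ m' : ℝ) : ℂ) * (chi m ω * (starRingEnd ℂ) (chi m' ω)) := by
      rw [← Complex.normSq_eq_norm_sq, ← Complex.mul_conj]
      unfold DA
      rw [map_sum, Finset.sum_mul_sum]
      refine Finset.sum_congr rfl fun m _ => Finset.sum_congr rfl fun m' _ => ?_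
      rw [map_mul, Complex.conj_ofReal]; push_cast; ring
    rw [← h, Complex.ofReal_re]
  simp_rw [h1]
  have hc : ∀ m m', Continuous fun ω : Om =>
      ((b γ m * b γ m' : ℝ) : ℂ) * (chi m ω * (starRingEnd ℂ) (chi m' ω)) := fun m m' =>
    continuous_const.mul ((hC3 m).mul (Complex.continuous_conj.comp (hC3 m')))
  have h2 : ∫ ω : Om, (∑ m ∈ T, ∑ m' ∈ T,
      ((b γ m * b γ m' : ℝ) : ℂ) * (chi m ω * (starRingEnd ℂ) (chi m' ω))).re ∂P =
      (∫ ω : Om, ∑ m ∈ T, ∑ m' ∈ T,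
      ((b γ m * b γ m' : ℝ) : ℂ) * (chi m ω * (starRingEnd ℂ) (chi m' ω)) ∂P).re :=
    integral_re (int_cont (continuous_finsetSum _ fun m _ => continuous_finsetSum _ fun m' _ => hc m m'))
  rw [h2, integral_finsetSum, Complex.re_sum]
  · refine Finset.sum_congr rfl fun m hm => ?_
    rw [integral_finsetSum]
    · rw [Finset.sum_eq_single m]
      · rw [integral_const_mul, hC4 m m (hT0 m hm) (hT0 m hm), if_pos rfl, mul_one,
          Complex.ofReal_re, sq]
      · intro m' hm' hne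
        rw [integral_const_mul, hC4 m m' (hT0 m hm) (hT0 m' hm'), if_neg (Ne.symm hne), mul_zero]
      · intro h; exact absurd hm h
    · intro m' _; exact int_cont (hc m m')
  · intro m _; exact int_cont (continuous_finsetSum _ fun m' _ => hc m m')

/-- levels -/
noncomputable def Yk (N k : ℕ) : ℝ := Real.exp (Real.log N * Real.exp (-(k : ℝ)))

theorem Yk_succ (N k : ℕ) : Yk N (k + 1) = yk N k := by
  unfold Yk yk; push_cast; rfl

theorem Yk_zero {N : ℕ} (hN : 0 < N) : Yk N 0 = N := by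
  unfold Yk
  rw [Nat.cast_zero, neg_zero, Real.exp_zero, mul_one, Real.exp_log (by exact_mod_cast hN)]

theorem Yk_eq (N k : ℕ) : Yk N k = yk N k ^ Real.exp 1 := by
  unfold Yk yk
  rw [← Real.exp_mul, mul_assoc, ← Real.exp_add]
  congr 3
  ring

end PM.H61D

namespace PM
open MeasureTheory Complex PM.H61D

theorem URED (hK : S_URK) (hS : S_SS) (hC : S_CHI) : S_URED := by
  intro γ p0 hg p hp hp1
  obtain ⟨C1, N1, hC1, hN1, hK⟩ := hK γ p0 hg p hp hp1
  obtain ⟨C2, B2, hC2, hB2, hS⟩ := hS γ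
  -- constants
  set q := p / 2 with hq
  have hq0 : 0 < q := by rw [hq]; linarith
  have hq1 : q ≤ 1 := by rw [hq]; linarith
  have hlogpos : ∀ N : ℕ, 16 ≤ N → 1 ≤ Real.log (Real.log N) := by
    intro N hN
    have h1 : Real.exp 1 ≤ Real.log N := by
      rw [Real.le_log_iff_exp_le (by positivity)]
      have h2 : Real.exp (Real.exp 1) ≤ Real.exp (2.7182818286 : ℝ) :=
        Real.exp_le_exp.mpr Real.exp_one_lt_d9.le
      have h3 : Real.exp (2.7182818286 : ℝ) ≤ 16 := by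
        have h4 : Real.exp (2.7182818286 : ℝ) ≤ Real.exp (4 * Real.log 2) := by
          refine Real.exp_le_exp.mpr ?_
          have := Real.log_two_gt_d9
          linarith
        have h5 : Real.exp (4 * Real.log 2) = 16 := by
          rw [mul_comm, Real.exp_mul, Real.exp_log (by norm_num)]; norm_num
        linarith
      have h6 : (16 : ℝ) ≤ N := by exact_mod_cast hN
      linarith
    rw [Real.le_log_iff_exp_le (by linarith [Real.exp_pos 1])]
    exact h1
  refine ⟨C1 + 4 * C1 + C2 ^ q * (Real.exp 1) ^ (B2 * q) + 1, 2 * B2 * q + 1, N1, ?_, ?_, hN1, ?_⟩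
  · positivity
  · positivity
  intro N hN
  have hN16 : 16 ≤ N := hN1.trans hN
  have hNpos : (0 : ℝ) < N := by
    have : 0 < N := by omega
    exact_mod_cast this
  set L := Real.log (Real.log N) with hL
  have hL1 : 1 ≤ L := hlogpos N hN16
  have hlogN : 1 < Real.log N := by
    by_contra hcon
    have h0 : 0 ≤ Real.log N := Real.log_natCast_nonneg N
    have : L ≤ 0 := Real.log_nonpos h0 (not_lt.mp hcon)
    linarith
  have hLN : L ≤ Real.log N := by
    have := Real.log_le_sub_one_of_pos (by linarith : 0 < Real.log N)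
    linarith
  -- log of the levels
  have hlyk : ∀ k : ℕ, Real.log (yk N k) = Real.log N * Real.exp (-((k : ℝ) + 1)) := by
    intro k; unfold yk; rw [Real.log_exp]
  have hlYk : ∀ k : ℕ, Real.log (Yk N k) = Real.log N * Real.exp (-(k : ℝ)) := by
    intro k; unfold Yk; rw [Real.log_exp]
  -- number of levels
  have hex : ∃ n : ℕ, Real.log (yk N n) < L ^ 2 := by
    refine ⟨⌈L⌉₊, ?_⟩
    rw [hlyk]
    have h1 : Real.log N = Real.exp L := by rw [hL, Real.exp_log (by linarith)]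
    rw [h1, ← Real.exp_add]
    have h2 : L + -(((⌈L⌉₊ : ℕ) : ℝ) + 1) ≤ -1 := by
      have := Nat.le_ceil L
      linarith
    calc Real.exp (L + -(((⌈L⌉₊ : ℕ) : ℝ) + 1)) ≤ Real.exp (-1) := Real.exp_le_exp.mpr h2
      _ < 1 := by rw [Real.exp_lt_one_iff]; norm_num
      _ ≤ L ^ 2 := by nlinarith
  classical
  set n0 := Nat.find hex with hn0
  have hn0a : Real.log (yk N n0) < L ^ 2 := Nat.find_spec hex
  have hn0b : ∀ k < n0, L ^ 2 ≤ Real.log (yk N k) := fun k hk => not_lt.mp (Nat.find_min hex hk)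
  have hn0c : n0 ≤ ⌈L⌉₊ := by
    refine Nat.find_min' hex ?_
    rw [hlyk]
    have h1 : Real.log N = Real.exp L := by rw [hL, Real.exp_log (by linarith)]
    rw [h1, ← Real.exp_add]
    have h2 : L + -(((⌈L⌉₊ : ℕ) : ℝ) + 1) ≤ -1 := by
      have := Nat.le_ceil L
      linarith
    calc Real.exp (L + -(((⌈L⌉₊ : ℕ) : ℝ) + 1)) ≤ Real.exp (-1) := Real.exp_le_exp.mpr h2
      _ < 1 := by rw [Real.exp_lt_one_iff]; norm_num
      _ ≤ L ^ 2 := by nlinarith
  have hKU : Finset.range n0 ⊆ KU N := by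
    intro k hk
    rw [Finset.mem_range] at hk
    unfold KU
    rw [Finset.mem_filter, Finset.mem_range]
    refine ⟨?_, hn0b k hk⟩
    rw [← hL]
    omega
  -- telescoping
  have htel : ∀ ω : Om, DA γ (PrS p0 N) N ω = DA γ (PrS p0 (Yk N n0)) N ω +
      ∑ k ∈ Finset.range n0, (DA γ (PrS p0 (Yk N k)) N ω - DA γ (PrS p0 (Yk N (k + 1))) N ω) := by
    intro ω
    rw [Finset.sum_range_sub' (fun k => DA γ (PrS p0 (Yk N k)) N ω), Yk_zero (by omega)]
    ring
  have hint : ∀ (f : Om → ℂ), Continuous f → Integrable (fun ω => ‖f ω‖ ^ p) P := by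
    intro f hf
    exact int_cont ((Real.continuous_rpow_const hp.le).comp hf.norm)
  have hstep1 : ∫ ω : Om, ‖DA γ (PrS p0 N) N ω‖ ^ p ∂P ≤
      ∫ ω : Om, ‖DA γ (PrS p0 (Yk N n0)) N ω‖ ^ p ∂P +
      ∑ k ∈ Finset.range n0, ∫ ω : Om, ‖DA γ (PrS p0 (Yk N k)) N ω -
        DA γ (PrS p0 (Yk N (k + 1))) N ω‖ ^ p ∂P := by
    rw [← integral_finsetSum, ← integral_add]
    · refine integral_mono (hint _ (DA_cont hC _ _ _)) ?_ ?_
      · exact (hint _ (DA_cont hC _ _ _)).add (integrable_finsetSum _ fun k _ =>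
          hint _ ((DA_cont hC _ _ _).sub (DA_cont hC _ _ _)))
      · intro ω
        simp only
        rw [htel ω]
        refine (Real.rpow_le_rpow (norm_nonneg _) (norm_add_le _ _) hp.le).trans ?_
        refine (Real.rpow_add_le_add_rpow (norm_nonneg _) (norm_nonneg _) hp.le hp1).trans ?_
        refine add_le_add le_rfl ?_
        refine (Real.rpow_le_rpow (norm_nonneg _) (norm_sum_le _ _) hp.le).trans ?_
        exact rpow_sum_le _ _ (fun _ _ => norm_nonneg _) hp hp1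
    · exact hint _ (DA_cont hC _ _ _)
    · exact integrable_finsetSum _ fun k _ => hint _ ((DA_cont hC _ _ _).sub (DA_cont hC _ _ _))
    · intro k _; exact hint _ ((DA_cont hC _ _ _).sub (DA_cont hC _ _ _))
  -- the steps
  have hstep2 : ∀ k ∈ Finset.range n0, ∫ ω : Om, ‖DA γ (PrS p0 (Yk N k)) N ω -
        DA γ (PrS p0 (Yk N (k + 1))) N ω‖ ^ p ∂P ≤ C1 * (Real.log N)⁻¹ +
      C1 * (∫ ω : Om, ‖F γ (PrS p0 (yk N k)) 0 0 ω‖ ^ p ∂P +
        ∫ ω : Om, (JF γ (PrS p0 (yk N k)) (-(1 / Real.log (yk N k))) ω /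
          Real.log (yk N k)) ^ (p / 2) ∂P) := by
    intro k hk
    rw [Finset.mem_range] at hk
    rw [Yk_succ]
    have h1 := hn0b k hk
    have h1' : 1 < yk N k := by
      unfold yk
      rw [Real.one_lt_exp_iff]
      have := Real.exp_pos (-((k : ℝ) + 1))
      positivity
    refine hK N (yk N k) (Yk N k) hN h1 ?_ ?_ h1' ?_
    · rw [Yk_eq]
      exact Real.self_le_rpow_of_one_le h1'.le (Real.one_le_exp (by norm_num))
    · rw [Yk_eq]
    · rw [← Real.log_le_log_iff (by unfold Yk; positivity) hNpos, hlYk]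
      have : Real.exp (-(k : ℝ)) ≤ 1 := Real.exp_le_one_iff.mpr (by simp)
      nlinarith
  -- the last piece
  have hlast : ∫ ω : Om, ‖DA γ (PrS p0 (Yk N n0)) N ω‖ ^ p ∂P ≤
      C2 ^ q * (Real.exp 1) ^ (B2 * q) * L ^ (2 * B2 * q) := by
    have h1 : ∀ ω : Om, ‖DA γ (PrS p0 (Yk N n0)) N ω‖ ^ p =
        (‖DA γ (PrS p0 (Yk N n0)) N ω‖ ^ 2) ^ q := by
      intro ω
      rw [← Real.rpow_natCast, ← Real.rpow_mul (norm_nonneg _), hq]
      congr 1; push_cast; ring
    simp_rw [h1]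
    have hcont : Continuous fun ω : Om => ‖DA γ (PrS p0 (Yk N n0)) N ω‖ ^ 2 :=
      ((DA_cont hC _ _ _).norm).pow 2
    have hJ : ∫ ω : Om, (‖DA γ (PrS p0 (Yk N n0)) N ω‖ ^ 2) ^ q ∂P ≤
        (∫ ω : Om, ‖DA γ (PrS p0 (Yk N n0)) N ω‖ ^ 2 ∂P) ^ q := by
      have := ConcaveOn.le_map_integral (μ := P)
        (f := fun ω : Om => ‖DA γ (PrS p0 (Yk N n0)) N ω‖ ^ 2) (g := fun x : ℝ => x ^ q)
        (s := Set.Ici 0) (Real.concaveOn_rpow hq0.le hq1)
        (Real.continuous_rpow_const hq0.le).continuousOn isClosed_Ici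
        (Filter.Eventually.of_forall fun ω => by
          show (0 : ℝ) ≤ _
          positivity)
        (int_cont hcont)
        (int_cont ((Real.continuous_rpow_const hq0.le).comp hcont))
      exact this
    refine hJ.trans ?_
    rw [DA_sq hC]
    -- compare with the sum over the smooth numbers with all primes
    set y := max 2 (Yk N n0) with hy
    have h2 : ∑ n ∈ (Finset.Icc 1 ⌊(N : ℝ)⌋₊).filter
        (fun n => n.primeFactors ⊆ PrS p0 (Yk N n0)), b γ n ^ 2 ≤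
        ∑ n ∈ (Finset.Icc 1 ⌊(N : ℝ)⌋₊).filter (fun n : ℕ => n.primeFactors ⊆ PrS 1 y), b γ n ^ 2 := by
      refine Finset.sum_le_sum_of_subset_of_nonneg ?_ (fun _ _ _ => sq_nonneg _)
      intro n hn
      rw [Finset.mem_filter] at hn ⊢
      refine ⟨hn.1, hn.2.trans ?_⟩
      intro l hl
      unfold PrS at hl ⊢
      rw [Finset.mem_filter, Finset.mem_range] at hl ⊢
      refine ⟨?_, hl.2.1, ?_⟩
      · have : ⌊Yk N n0⌋₊ ≤ ⌊y⌋₊ := Nat.floor_le_floor (le_max_right _ _)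
        omega
      · exact_mod_cast hl.2.1.one_lt
    have h3 := hS y ⌊(N : ℝ)⌋₊ (le_max_left _ _)
    have hlogy : Real.log y ≤ Real.exp 1 * L ^ 2 := by
      have h4 : Real.log (Yk N n0) ≤ Real.exp 1 * L ^ 2 := by
        have h5 : Real.log (Yk N n0) = Real.exp 1 * Real.log (yk N n0) := by
          rw [hlYk, hlyk]
          have : Real.exp (-(n0 : ℝ)) = Real.exp 1 * Real.exp (-((n0 : ℝ) + 1)) := by
            rw [← Real.exp_add]; congr 1; ring
          rw [this]; ring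
        rw [h5]
        have := Real.exp_pos 1
        nlinarith
      have h6 : Real.log 2 ≤ Real.exp 1 * L ^ 2 := by
        have h7 := Real.log_two_lt_d9
        have h8 := Real.exp_one_gt_d9
        nlinarith
      rcases max_cases (2 : ℝ) (Yk N n0) with h | h
      · rw [hy, h.1]; exact h6
      · rw [hy, h.1]; exact h4
    have hlogy0 : 0 ≤ Real.log y := Real.log_nonneg (by
      have : (2 : ℝ) ≤ y := le_max_left _ _
      linarith)
    calc (∑ n ∈ (Finset.Icc 1 ⌊(N : ℝ)⌋₊).filter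
        (fun n => n.primeFactors ⊆ PrS p0 (Yk N n0)), b γ n ^ 2) ^ q
        ≤ (C2 * (Real.exp 1 * L ^ 2) ^ B2) ^ q := by
          refine Real.rpow_le_rpow (Finset.sum_nonneg fun _ _ => sq_nonneg _) ?_ hq0.le
          refine h2.trans (h3.trans ?_)
          have := Real.rpow_le_rpow hlogy0 hlogy hB2.le
          nlinarith
      _ = C2 ^ q * (Real.exp 1) ^ (B2 * q) * L ^ (2 * B2 * q) := by
          have hL0 : 0 ≤ L := by linarith
          have he := Real.exp_pos 1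
          rw [Real.mul_rpow hC2.le (by positivity), Real.mul_rpow he.le (by positivity),
            Real.mul_rpow (by positivity) (by positivity), ← Real.rpow_mul he.le,
            ← Real.rpow_natCast L 2, ← Real.rpow_mul hL0, ← Real.rpow_mul hL0]
          rw [mul_assoc (C2 ^ q)]
          norm_num
  -- assembly
  have hterm0 : ∀ k : ℕ, 0 ≤ ∫ ω : Om, ‖F γ (PrS p0 (yk N k)) 0 0 ω‖ ^ p ∂P +
        ∫ ω : Om, (JF γ (PrS p0 (yk N k)) (-(1 / Real.log (yk N k))) ω /
          Real.log (yk N k)) ^ (p / 2) ∂P := by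
    intro k
    refine add_nonneg (integral_nonneg fun ω => Real.rpow_nonneg (norm_nonneg _) _)
      (integral_nonneg fun ω => Real.rpow_nonneg (div_nonneg ?_ ?_) _)
    · unfold JF
      exact integral_nonneg fun t => by positivity
    · rw [hlyk]
      positivity
  have hsum : ∑ k ∈ Finset.range n0, ∫ ω : Om, ‖DA γ (PrS p0 (Yk N k)) N ω -
        DA γ (PrS p0 (Yk N (k + 1))) N ω‖ ^ p ∂P ≤ 2 * C1 +
      C1 * ∑ k ∈ KU N, (∫ ω : Om, ‖F γ (PrS p0 (yk N k)) 0 0 ω‖ ^ p ∂P +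
        ∫ ω : Om, (JF γ (PrS p0 (yk N k)) (-(1 / Real.log (yk N k))) ω /
          Real.log (yk N k)) ^ (p / 2) ∂P) := by
    refine (Finset.sum_le_sum hstep2).trans ?_
    rw [Finset.sum_add_distrib, Finset.sum_const, Finset.card_range, nsmul_eq_mul,
      ← Finset.mul_sum]
    have h1 : (n0 : ℝ) * (C1 * (Real.log N)⁻¹) ≤ 2 * C1 := by
      have h2 : (n0 : ℝ) ≤ L + 1 := by
        have h3 : (n0 : ℝ) ≤ (⌈L⌉₊ : ℝ) := by exact_mod_cast hn0c
        have := Nat.ceil_lt_add_one (by linarith : 0 ≤ L)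
        linarith
      have h4 : (n0 : ℝ) ≤ 2 * Real.log N := by linarith
      have h5 : 0 < Real.log N := by linarith
      calc (n0 : ℝ) * (C1 * (Real.log N)⁻¹) ≤ (2 * Real.log N) * (C1 * (Real.log N)⁻¹) := by gcongr
        _ = 2 * C1 := by field_simp
    have h6 : ∑ k ∈ Finset.range n0, (∫ ω : Om, ‖F γ (PrS p0 (yk N k)) 0 0 ω‖ ^ p ∂P +
        ∫ ω : Om, (JF γ (PrS p0 (yk N k)) (-(1 / Real.log (yk N k))) ω /
          Real.log (yk N k)) ^ (p / 2) ∂P) ≤
        ∑ k ∈ KU N, (∫ ω : Om, ‖F γ (PrS p0 (yk N k)) 0 0 ω‖ ^ p ∂P +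
        ∫ ω : Om, (JF γ (PrS p0 (yk N k)) (-(1 / Real.log (yk N k))) ω /
          Real.log (yk N k)) ^ (p / 2) ∂P) :=
      Finset.sum_le_sum_of_subset_of_nonneg hKU fun k _ _ => hterm0 k
    have h7 := mul_le_mul_of_nonneg_left h6 hC1.le
    linarith
  have hS0 : 0 ≤ ∑ k ∈ KU N, (∫ ω : Om, ‖F γ (PrS p0 (yk N k)) 0 0 ω‖ ^ p ∂P +
        ∫ ω : Om, (JF γ (PrS p0 (yk N k)) (-(1 / Real.log (yk N k))) ω /
          Real.log (yk N k)) ^ (p / 2) ∂P) := Finset.sum_nonneg fun k _ => hterm0 k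
  have hLB : L ^ (2 * B2 * q) ≤ L ^ (2 * B2 * q + 1) :=
    Real.rpow_le_rpow_of_exponent_le hL1 (by linarith)
  have hLB1 : 1 ≤ L ^ (2 * B2 * q + 1) := Real.one_le_rpow hL1 (by positivity)
  set E := C2 ^ q * (Real.exp 1) ^ (B2 * q) with hE
  have hE0 : 0 ≤ E := by positivity
  set Sg := ∑ k ∈ KU N, (∫ ω : Om, ‖F γ (PrS p0 (yk N k)) 0 0 ω‖ ^ p ∂P +
        ∫ ω : Om, (JF γ (PrS p0 (yk N k)) (-(1 / Real.log (yk N k))) ω /
          Real.log (yk N k)) ^ (p / 2) ∂P) with hSg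
  have f1 : E * L ^ (2 * B2 * q) ≤ E * L ^ (2 * B2 * q + 1) := mul_le_mul_of_nonneg_left hLB hE0
  have f2 : 2 * C1 ≤ 2 * C1 * L ^ (2 * B2 * q + 1) := by nlinarith
  have f3 : C1 * Sg ≤ (C1 + 4 * C1 + E + 1) * Sg := by nlinarith
  have f4 : E * L ^ (2 * B2 * q + 1) + 2 * C1 * L ^ (2 * B2 * q + 1) ≤
      (C1 + 4 * C1 + E + 1) * L ^ (2 * B2 * q + 1) := by nlinarith
  linarith

end PM
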