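import Pool.Agent.H24.PM.URC

/-! Module URK: one smoothness step, all together. -/

namespace PM
open MeasureTheory Complex

theorem urk_DA_floor (γ : ℝ) (A : Finset ℕ) (z : ℝ) (ω : Om) :
    DA γ A z ω = DA γ A (⌊z⌋₊ : ℝ) ω := by
  unfold DA
  rw [Nat.floor_natCast]

theorem urk_DA_meas (γ : ℝ) (A : Finset ℕ) (ω : Om) : Measurable (fun z : ℝ => DA γ A z ω) := by
  have h : (fun z : ℝ => DA γ A z ω) = (fun n : ℕ => DA γ A (n : ℝ) ω) ∘ Nat.floor := by
    funext z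
    exact urk_DA_floor γ A z ω
  rw [h]
  exact (measurable_from_nat).comp Nat.measurable_floor

theorem urk_b_nonneg (γ : ℝ) (n : ℕ) : 0 ≤ b γ n := by unfold b; positivity

theorem urk_DA_le (hC : S_CHI) (γ : ℝ) (A : Finset ℕ) (z M : ℝ) (hz : z ≤ M) (ω : Om) :
    ‖DA γ A z ω‖ ≤ ∑ n ∈ Finset.Icc 1 ⌊M⌋₊, b γ n := by
  unfold DA
  refine (norm_sum_le _ _).trans ?_
  have h1 : ∀ n ∈ (Finset.Icc 1 ⌊z⌋₊).filter (fun n => n.primeFactors ⊆ A),
      ‖(b γ n : ℂ) * chi n ω‖ = b γ n := by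
    intro n _
    rw [norm_mul, hC.2.1, mul_one, Complex.norm_real, Real.norm_of_nonneg (urk_b_nonneg γ n)]
  rw [Finset.sum_congr rfl h1]
  refine Finset.sum_le_sum_of_subset_of_nonneg ?_ (fun n _ _ => urk_b_nonneg γ n)
  intro n hn
  have h2 := Finset.mem_Icc.1 (Finset.mem_filter.1 hn).1
  exact Finset.mem_Icc.2 ⟨h2.1, h2.2.trans (Nat.floor_le_floor hz)⟩

/-- the inner integral is continuous -/
theorem urk_int_cont (hC : S_CHI) (γ : ℝ) (A : Finset ℕ) (v M : ℝ) (hv : 0 < v) :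
    Continuous (fun ω : Om => ∫ z in Set.Ioc v M, ‖DA γ A z ω - DA γ A v ω‖ ^ 2 / z) := by
  have hB : 0 ≤ ∑ n ∈ Finset.Icc 1 ⌊M⌋₊, b γ n := Finset.sum_nonneg fun n _ => urk_b_nonneg γ n
  refine continuous_of_dominated (bound := fun _ => (2 * ∑ n ∈ Finset.Icc 1 ⌊M⌋₊, b γ n) ^ 2 / v)
    ?_ ?_ ?_ ?_
  · intro ω
    have h1 : Measurable (fun z : ℝ => ‖DA γ A z ω - DA γ A v ω‖ ^ 2 / z) :=
      (((urk_DA_meas γ A ω).sub_const _).norm.pow_const 2).div measurable_id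
    exact h1.aestronglyMeasurable
  · intro ω
    refine (ae_restrict_iff' measurableSet_Ioc).2 (Filter.Eventually.of_forall fun z hz => ?_)
    have hz0 : 0 < z := hv.trans hz.1
    have h2 : ‖DA γ A z ω - DA γ A v ω‖ ≤ 2 * ∑ n ∈ Finset.Icc 1 ⌊M⌋₊, b γ n := by
      have h3 := urk_DA_le hC γ A z M hz.2 ω
      have h4 := urk_DA_le hC γ A v M (hz.1.le.trans hz.2) ω
      have h5 := norm_sub_le (DA γ A z ω) (DA γ A v ω)
      linarith
    rw [Real.norm_of_nonneg (by positivity)]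
    exact div_le_div₀ (by positivity) (pow_le_pow_left₀ (norm_nonneg _) h2 2) hv hz.1.le
  · exact integrable_const _
  · refine Filter.Eventually.of_forall fun z => ?_
    exact (((urc_DA_cont hC γ A z).sub (urc_DA_cont hC γ A v)).norm.pow 2).div_const _

theorem urk_integrable (f : Om → ℝ) (hf : Continuous f) : Integrable f P := by
  obtain ⟨C, hC⟩ := isCompact_univ.exists_bound_of_continuousOn hf.continuousOn
  exact Integrable.of_bound hf.aestronglyMeasurable C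
    (Filter.Eventually.of_forall fun ω => hC ω (Set.mem_univ _))

theorem urk_F_cont (hCONT : S_CONT) (γ : ℝ) (A : Finset ℕ) (hA : ∀ l ∈ A, l.Prime) :
    Continuous (fun ω : Om => F γ A 0 0 ω) := by
  have h1 := hCONT γ A hA
  have h2 : Continuous (fun ω : Om => (((0 : ℝ), (0 : ℝ), ω) : ℝ × ℝ × Om)) :=
    continuous_const.prodMk (continuous_const.prodMk continuous_id)
  have h4 : -(1 / 2) < (0 : ℝ) := by norm_num
  have h5 := ContinuousOn.comp_continuous h1 h2 (fun ω => h4)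
  exact h5

theorem urk_int (f g1 g2 g3 : Om → ℝ) (a c : ℝ) (h0 : Integrable f P) (h1 : Integrable g1 P)
    (h2 : Integrable g2 P) (h3 : Integrable g3 P)
    (h : ∀ ω, f ω ≤ a * (g1 ω + g2 ω) + c * g3 ω) :
    ∫ ω : Om, f ω ∂P ≤ a * (∫ ω : Om, g1 ω ∂P + ∫ ω : Om, g2 ω ∂P) + c * ∫ ω : Om, g3 ω ∂P := by
  have e1 : Integrable (fun ω => a * (g1 ω + g2 ω)) P := (h1.add h2).const_mul a
  have e2 : Integrable (fun ω => c * g3 ω) P := h3.const_mul c
  have e3 : Integrable (fun ω => a * (g1 ω + g2 ω) + c * g3 ω) P := e1.add e2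
  refine (integral_mono h0 e3 h).trans (le_of_eq ?_)
  rw [integral_add e1 e2, integral_const_mul, integral_const_mul, integral_add h1 h2]

theorem URK (hURC : S_URC) (hURS : S_URS) (hURM : S_URM) (hURE : S_URE) (hSE : S_SE) (hJM : S_JM)
    (hCONT : S_CONT) (hC : S_CHI) : S_URK := by
  intro γ p0 hG p hp hp1
  obtain ⟨C1, y0, hC1, hy0, hM⟩ := hURM γ p0 hG
  obtain ⟨C2, B, hC2, hB, hE⟩ := hSE γ
  set q : ℝ := p / 2 with hq
  have hq0 : 0 < q := by rw [hq]; linarith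
  have hq1 : q ≤ 1 := by rw [hq]; linarith
  set A0 : ℝ := 2 * B + 4 / p with hA0
  have hA0pos : 0 < A0 := by rw [hA0]; positivity
  set L0 : ℝ := 2 * A0 + 3 + |Real.log y0| with hL0
  refine ⟨(4 * C1) ^ q + 4 ^ q * (2 * C2) ^ q, ⌈Real.exp (Real.exp L0)⌉₊ + 16, by positivity,
    by omega, ?_⟩
  intro N y w hN hy hyw hwy hy1 hwN
  have hL03 : 3 ≤ L0 := by
    rw [hL0]; have := abs_nonneg (Real.log y0); linarith
  have hNr : Real.exp (Real.exp L0) ≤ N := by
    refine (Nat.le_ceil _).trans ?_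
    exact_mod_cast (by omega : ⌈Real.exp (Real.exp L0)⌉₊ ≤ N)
  have hNpos : (0 : ℝ) < N := (Real.exp_pos _).trans_le hNr
  have hlogN : Real.exp L0 ≤ Real.log N := (Real.le_log_iff_exp_le hNpos).2 hNr
  have hlogNpos : 0 < Real.log N := (Real.exp_pos _).trans_le hlogN
  have hloglogN : L0 ≤ Real.log (Real.log N) := (Real.le_log_iff_exp_le hlogNpos).2 hlogN
  have hypos : 0 < y := by linarith
  have hlogy : L0 ≤ Real.log y := by nlinarith
  have hlogy3 : 3 ≤ Real.log y := by linarith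
  have hyy0 : y0 ≤ y := by
    have hy0pos : 0 < y0 := by
      have : (0 : ℝ) ≤ p0 := Nat.cast_nonneg _
      linarith
    refine (Real.log_le_log_iff hy0pos hypos).1 ?_
    have := le_abs_self (Real.log y0)
    rw [hL0] at hlogy
    linarith
  have hp0y : (p0 : ℝ) ≤ y := by linarith
  have hlog1 : 1 ≤ Real.log N := by
    have := Real.add_one_le_exp L0
    linarith
  set X : ℝ := (Real.log N) ^ A0 with hX
  have hXpos : 0 < X := by positivity
  have hX1 : 1 ≤ X := Real.one_le_rpow hlog1 hA0pos.le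
  have hX2 : X ^ 2 ≤ y := by
    have h1 : X ^ 2 = Real.exp (2 * A0 * Real.log (Real.log N)) := by
      rw [hX, ← Real.rpow_natCast, ← Real.rpow_mul hlogNpos.le, Real.rpow_def_of_pos hlogNpos]
      congr 1
      push_cast
      ring
    rw [h1, ← Real.le_log_iff_exp_le hypos]
    have h2 : 2 * A0 ≤ Real.log (Real.log N) := by
      have := abs_nonneg (Real.log y0)
      rw [hL0] at hloglogN
      linarith
    nlinarith
  have hN3 : 3 ≤ N := by omega
  have hN1 : 1 ≤ N := by omega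
  have hXN : X ≤ N := by nlinarith
  -- the functions
  set A := PrS p0 y with hA
  have hAp : ∀ l ∈ A, l.Prime := urc_prime _ _
  set f : Om → ℝ := fun ω => ∑ r ∈ RR N y w, b γ r ^ 2 * ‖DA γ A (N / r) ω‖ ^ 2 with hf
  set S2 : Om → ℝ := fun ω => ∑ r ∈ RR N y w, b γ r ^ 2 *
      ∫ z in Set.Ioc ((N : ℝ) / r) ((N : ℝ) / r * (1 + 1 / X)),
        ‖DA γ A z ω - DA γ A (N / r) ω‖ ^ 2 / z with hS2
  have hS2c : Continuous S2 := by
    rw [hS2]
    refine continuous_finsetSum _ fun r hr => continuous_const.mul ?_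
    have hr2 := Finset.mem_Icc.1 (Finset.mem_filter.1 hr).1
    have hr0 : (0 : ℝ) < r := by
      have : 0 < r := by omega
      exact_mod_cast this
    exact urk_int_cont hC γ A _ _ (by positivity)
  have hS2n : ∀ ω, 0 ≤ S2 ω := by
    intro ω
    rw [hS2]
    refine Finset.sum_nonneg fun r hr => mul_nonneg (sq_nonneg _) ?_
    refine setIntegral_nonneg measurableSet_Ioc fun z hz => ?_
    have hz0 : 0 ≤ z := by
      have : (0 : ℝ) ≤ (N : ℝ) / r := by positivity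
      linarith [hz.1]
    positivity
  have hfn : ∀ ω, 0 ≤ f ω := fun ω => Finset.sum_nonneg fun r _ => by positivity
  have hJ := hJM γ A (-(1 / Real.log y)) hAp (by
    have : 1 / Real.log y ≤ 1 / 3 := one_div_le_one_div_of_le (by norm_num) hlogy3
    linarith) (by
    have : 0 < 1 / Real.log y := by positivity
    linarith)
  obtain ⟨hJm, ⟨BJ, hBJ⟩, hJint, -⟩ := hJ
  have hFc : Continuous (fun ω : Om => F γ A 0 0 ω) := urk_F_cont hCONT γ A hAp
  have hpt : ∀ ω, f ω ^ q ≤ (4 * C1) ^ q * (‖F γ A 0 0 ω‖ ^ p +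
      (JF γ A (-(1 / Real.log y)) ω / Real.log y) ^ q) + 4 ^ q * (X * S2 ω) ^ q := by
    intro ω
    have h1 := hURS γ A N y w X ω hX1 hN1
    have h2 := hM N y w X ω hN1 hyy0 hyw hwy hX1 hX2
    have h3 : f ω ≤ 4 * C1 * (‖F γ A 0 0 ω‖ ^ 2 + JF γ A (-(1 / Real.log y)) ω / Real.log y) +
        4 * (X * S2 ω) := by
      have h1' : f ω ≤ 4 * X * (∑ r ∈ RR N y w, b γ r ^ 2 *
        ∫ z in Set.Ioc ((N : ℝ) / r) ((N : ℝ) / r * (1 + 1 / X)), ‖DA γ A z ω‖ ^ 2 / z) +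
          4 * X * S2 ω := h1
      nlinarith
    have hJn : 0 ≤ JF γ A (-(1 / Real.log y)) ω / Real.log y :=
      div_nonneg (hBJ ω).1 (by linarith)
    have hXS : 0 ≤ X * S2 ω := mul_nonneg hXpos.le (hS2n ω)
    have h4 := Real.rpow_le_rpow (hfn ω) h3 hq0.le
    refine h4.trans ?_
    refine (Real.rpow_add_le_add_rpow (by positivity) (by positivity) hq0.le hq1).trans ?_
    rw [Real.mul_rpow (by norm_num) hXS]
    refine add_le_add ?_ le_rfl
    rw [Real.mul_rpow (by positivity) (by positivity)]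
    refine mul_le_mul_of_nonneg_left ?_ (by positivity)
    refine (Real.rpow_add_le_add_rpow (by positivity) hJn hq0.le hq1).trans (le_of_eq ?_)
    congr 1
    rw [← Real.rpow_natCast, ← Real.rpow_mul (norm_nonneg _)]
    congr 1
    rw [hq]
    push_cast
    ring
  have hi1 : Integrable (fun ω : Om => ‖F γ A 0 0 ω‖ ^ p) P :=
    urk_integrable _ (hFc.norm.rpow_const fun _ => Or.inr hp.le)
  have hi2 : Integrable (fun ω : Om => (JF γ A (-(1 / Real.log y)) ω / Real.log y) ^ q) P := by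
    refine Integrable.of_bound ((hJm.div_const _).pow_const q).aestronglyMeasurable
      ((BJ / Real.log y) ^ q) (Filter.Eventually.of_forall fun ω => ?_)
    have hJn : 0 ≤ JF γ A (-(1 / Real.log y)) ω / Real.log y :=
      div_nonneg (hBJ ω).1 (by linarith)
    rw [Real.norm_of_nonneg (by positivity)]
    refine Real.rpow_le_rpow hJn ?_ hq0.le
    exact div_le_div_of_nonneg_right (hBJ ω).2 (by linarith)
  have hi3 : Integrable (fun ω : Om => (X * S2 ω) ^ q) P :=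
    urk_integrable _ ((continuous_const.mul hS2c).rpow_const fun _ => Or.inr hq0.le)
  have hi0 : Integrable (fun ω : Om => f ω ^ q) P := by
    refine urk_integrable _ (Continuous.rpow_const ?_ fun _ => Or.inr hq0.le)
    exact continuous_finsetSum _ fun r _ =>
      continuous_const.mul ((urc_DA_cont hC γ A _).norm.pow 2)
  have hmain : ∫ ω : Om, f ω ^ q ∂P ≤ (4 * C1) ^ q * (∫ ω : Om, ‖F γ A 0 0 ω‖ ^ p ∂P +
      ∫ ω : Om, (JF γ A (-(1 / Real.log y)) ω / Real.log y) ^ q ∂P) +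
        4 ^ q * ∫ ω : Om, (X * S2 ω) ^ q ∂P := by
    exact urk_int _ _ _ _ _ _ hi0 hi1 hi2 hi3 hpt
  have hS2i : ∫ ω : Om, (X * S2 ω) ^ q ∂P ≤ (2 * C2) ^ q * (Real.log N)⁻¹ := by
    have h6 := hURE γ p0 p hp hp1 N y w X hN3 hp0y hyw hX1
    refine h6.trans ?_
    have h7 := hE N X hN3 hX1
    have h8 : (0 : ℝ) ≤ ∑ n ∈ (Finset.Icc 1 ⌊(N : ℝ) * (1 + 1 / X)⌋₊).filter
      (fun n : ℕ => N < n), b γ n ^ 2 := Finset.sum_nonneg fun n _ => sq_nonneg _
    have h9 : (1 / (N : ℝ)) ^ (1 / 2 : ℝ) ≤ (1 / X) ^ (1 / 2 : ℝ) :=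
      Real.rpow_le_rpow (by positivity) (one_div_le_one_div_of_le hXpos hXN) (by norm_num)
    have h10 : (1 / X) ^ (1 / 2 : ℝ) = (Real.log N) ^ (-(A0 / 2)) := by
      rw [hX, one_div, ← Real.rpow_neg hlogNpos.le, ← Real.rpow_mul hlogNpos.le]
      congr 1
      ring
    have h11 : ∑ n ∈ (Finset.Icc 1 ⌊(N : ℝ) * (1 + 1 / X)⌋₊).filter
      (fun n : ℕ => N < n), b γ n ^ 2 ≤ 2 * C2 * (Real.log N) ^ (-(2 / p)) := by
      refine h7.trans ?_
      have h12 : (Real.log N) ^ (-(2 / p)) = (Real.log N) ^ B * (Real.log N) ^ (-(A0 / 2)) := by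
        rw [← Real.rpow_add hlogNpos]
        congr 1
        rw [hA0]
        ring
      rw [h12, ← h10]
      have h13 : 0 ≤ C2 * (Real.log N) ^ B := by positivity
      nlinarith
    have h14 := Real.rpow_le_rpow h8 h11 hq0.le
    refine h14.trans (le_of_eq ?_)
    rw [Real.mul_rpow (by positivity) (by positivity), ← Real.rpow_mul hlogNpos.le]
    congr 1
    rw [← Real.rpow_neg_one]
    congr 1
    rw [hq]
    field_simp
  have hfin := hURC γ p0 p hp hp1 N y w hp0y hyw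
  have hI1 : 0 ≤ ∫ ω : Om, ‖F γ A 0 0 ω‖ ^ p ∂P := integral_nonneg fun ω => by positivity
  have hI2 : 0 ≤ ∫ ω : Om, (JF γ A (-(1 / Real.log y)) ω / Real.log y) ^ q ∂P :=
    integral_nonneg fun ω => Real.rpow_nonneg (div_nonneg (hBJ ω).1 (by linarith)) _
  have ha : 0 < (4 * C1) ^ q := by positivity
  have hb : 0 < (4 : ℝ) ^ q * (2 * C2) ^ q := by positivity
  have hc : 0 < (4 : ℝ) ^ q := by positivity
  have hl : 0 < (Real.log N)⁻¹ := by positivity
  calc ∫ ω : Om, ‖DA γ (PrS p0 w) N ω - DA γ (PrS p0 y) N ω‖ ^ p ∂P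
      ≤ ∫ ω : Om, f ω ^ q ∂P := hfin
    _ ≤ (4 * C1) ^ q * (∫ ω : Om, ‖F γ A 0 0 ω‖ ^ p ∂P +
      ∫ ω : Om, (JF γ A (-(1 / Real.log y)) ω / Real.log y) ^ q ∂P) +
        4 ^ q * ((2 * C2) ^ q * (Real.log N)⁻¹) :=
        hmain.trans (add_le_add le_rfl (mul_le_mul_of_nonneg_left hS2i hc.le))
    _ ≤ _ := by
        have e1 : 0 ≤ (4 * C1) ^ q * (Real.log N)⁻¹ := by positivity
        have e2 : 0 ≤ (4 : ℝ) ^ q * (2 * C2) ^ q * (∫ ω : Om, ‖F γ A 0 0 ω‖ ^ p ∂P +
          ∫ ω : Om, (JF γ A (-(1 / Real.log y)) ω / Real.log y) ^ q ∂P) :=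
          mul_nonneg hb.le (add_nonneg hI1 hI2)
        linarith

end PM
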