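import Pool.Agent.H24.PM.Stmts

namespace PM
open MeasureTheory Complex

/-- the primes of an element of RR lie in the block -/
private lemma mem_RR_primes {N : ℕ} {y w : ℝ} {r : ℕ} (h : r ∈ RR N y w) :
    2 ≤ r ∧ r ≤ N ∧ ∀ l ∈ r.primeFactors, y < (l : ℝ) ∧ (0 ≤ w → (l : ℝ) ≤ w) := by
  unfold RR at h
  rw [Finset.mem_filter, Finset.mem_Icc] at h
  refine ⟨h.1.1, h.1.2, ?_⟩
  intro l hl
  have h2 := h.2 hl
  unfold PrS at h2
  rw [Finset.mem_filter, Finset.mem_range] at h2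
  refine ⟨h2.2.2, fun hw => ?_⟩
  have h3 : l ≤ ⌊w⌋₊ := by omega
  exact (Nat.le_floor_iff hw).1 h3

theorem URM (hRS : S_RS) (hRT : S_RT) (hPLT : S_PLT) : S_URM := by
  intro γ p0 _
  obtain ⟨C1, y1, hC1, hy1, hRS⟩ := hRS γ
  obtain ⟨C2, hC2, hRT⟩ := hRT γ
  refine ⟨2 * C2 + 2 * C1, max (max y1 ((p0 : ℝ) + 1)) (Real.exp 3), by positivity,
    le_trans (le_max_right _ _) (le_max_left _ _), ?_⟩
  intro N y w X ω hN hy hyw hw hX hXy
  have hyy1 : y1 ≤ y := le_trans (le_trans (le_max_left _ _) (le_max_left _ _)) hy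
  have hye : Real.exp 3 ≤ y := le_trans (le_max_right _ _) hy
  have hy0 : 0 < y := lt_of_lt_of_le (Real.exp_pos _) hye
  have hw0 : 0 ≤ w := hy0.le.trans hyw
  have hlog3 : 3 ≤ Real.log y := by
    rw [Real.le_log_iff_exp_le hy0]; exact hye
  have hL : 0 < Real.log y := by linarith
  set σ : ℝ := 1 / Real.log y with hσ
  have hσ0 : 0 < σ := by rw [hσ]; positivity
  have hσ2 : σ < 1 / 2 := by
    rw [hσ, div_lt_div_iff₀ hL (by norm_num)]; linarith
  set A := PrS p0 y with hA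
  have hAp : ∀ l ∈ A, l.Prime := by
    intro l hl
    rw [hA, PrS, Finset.mem_filter] at hl
    exact hl.2.1
  obtain ⟨hint, hle⟩ := hPLT γ A σ ω hAp hσ0 hσ2
  set F0 := F γ A 0 0 ω with hF0
  set g : ℝ → ℝ := fun z => ‖F0 - DA γ A z ω‖ ^ 2 * z ^ (2 * σ - 1) with hg
  have hX0 : 0 < X := by linarith
  -- one term
  have hNr : ∀ r ∈ RR N y w, 1 ≤ (N : ℝ) / r := by
    intro r hr
    have h := mem_RR_primes hr
    have hr0 : (0 : ℝ) < r := by
      have : 0 < r := by omega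
      exact_mod_cast this
    rw [le_div_iff₀ hr0, one_mul]
    exact_mod_cast h.2.1
  have hsub : ∀ r ∈ RR N y w, Set.Ioc ((N : ℝ) / r) ((N : ℝ) / r * (1 + 1 / X)) ⊆ Set.Ioi 1 := by
    intro r hr z hz
    exact lt_of_le_of_lt (hNr r hr) hz.1
  have hterm : ∀ r ∈ RR N y w,
      ∫ z in Set.Ioc ((N : ℝ) / r) ((N : ℝ) / r * (1 + 1 / X)), ‖DA γ A z ω‖ ^ 2 / z ≤
        2 * ‖F0‖ ^ 2 * (1 / X) +
          2 * ∫ z in Set.Ioc ((N : ℝ) / r) ((N : ℝ) / r * (1 + 1 / X)), g z := by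
    intro r hr
    have ha : 1 ≤ (N : ℝ) / r := hNr r hr
    have ha0 : 0 < (N : ℝ) / r := by linarith
    set a := (N : ℝ) / r with haa
    have hab : a ≤ a * (1 + 1 / X) := by
      have : 0 ≤ a * (1 / X) := by positivity
      nlinarith
    have hgi : IntegrableOn g (Set.Ioc a (a * (1 + 1 / X))) := hint.mono_set (hsub r hr)
    have hii : IntegrableOn (fun z : ℝ => 1 / z) (Set.Ioc a (a * (1 + 1 / X))) := by
      rw [← intervalIntegrable_iff_integrableOn_Ioc_of_le hab]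
      apply intervalIntegral.intervalIntegrable_one_div
      · intro x hx
        rw [Set.uIcc_of_le hab] at hx
        linarith [hx.1]
      · exact continuousOn_id
    have h1 : ∫ z in Set.Ioc a (a * (1 + 1 / X)), ‖DA γ A z ω‖ ^ 2 / z ≤
        ∫ z in Set.Ioc a (a * (1 + 1 / X)), (2 * ‖F0‖ ^ 2 * (1 / z) + 2 * g z) := by
      apply integral_mono_of_nonneg
      · filter_upwards [ae_restrict_mem measurableSet_Ioc] with z hz
        have hz0 : 0 < z := lt_trans ha0 hz.1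
        simp only [Pi.zero_apply]
        positivity
      · exact (hii.const_mul _).add (hgi.const_mul _)
      · filter_upwards [ae_restrict_mem measurableSet_Ioc] with z hz
        have hz1 : 1 < z := lt_of_le_of_lt ha hz.1
        have hz0 : 0 < z := by linarith
        have hzp : 1 / z ≤ z ^ (2 * σ - 1) := by
          rw [one_div, ← Real.rpow_neg_one z]
          apply Real.rpow_le_rpow_of_exponent_le hz1.le
          linarith
        have hn : ‖DA γ A z ω‖ ^ 2 ≤ 2 * ‖F0‖ ^ 2 + 2 * ‖F0 - DA γ A z ω‖ ^ 2 := by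
          have h3 : ‖DA γ A z ω‖ ≤ ‖F0‖ + ‖F0 - DA γ A z ω‖ := by
            calc ‖DA γ A z ω‖ = ‖F0 - (F0 - DA γ A z ω)‖ := by congr 1; ring
              _ ≤ _ := norm_sub_le _ _
          have h4 := norm_nonneg (DA γ A z ω)
          nlinarith [sq_nonneg (‖F0‖ - ‖F0 - DA γ A z ω‖)]
        show ‖DA γ A z ω‖ ^ 2 / z ≤ 2 * ‖F0‖ ^ 2 * (1 / z) + 2 * (‖F0 - DA γ A z ω‖ ^ 2 * z ^ (2 * σ - 1))
        calc ‖DA γ A z ω‖ ^ 2 / z = ‖DA γ A z ω‖ ^ 2 * (1 / z) := by ring
          _ ≤ (2 * ‖F0‖ ^ 2 + 2 * ‖F0 - DA γ A z ω‖ ^ 2) * (1 / z) := by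
              apply mul_le_mul_of_nonneg_right hn; positivity
          _ = 2 * ‖F0‖ ^ 2 * (1 / z) + 2 * (‖F0 - DA γ A z ω‖ ^ 2 * (1 / z)) := by ring
          _ ≤ _ := by
              have := mul_le_mul_of_nonneg_left hzp (sq_nonneg ‖F0 - DA γ A z ω‖)
              linarith
    have h2 : ∫ z in Set.Ioc a (a * (1 + 1 / X)), (2 * ‖F0‖ ^ 2 * (1 / z) + 2 * g z) =
        2 * ‖F0‖ ^ 2 * (∫ z in Set.Ioc a (a * (1 + 1 / X)), 1 / z) +
          2 * ∫ z in Set.Ioc a (a * (1 + 1 / X)), g z := by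
      rw [integral_add (hii.const_mul _) (hgi.const_mul _), integral_const_mul, integral_const_mul]
    have h3 : ∫ z in Set.Ioc a (a * (1 + 1 / X)), 1 / z ≤ 1 / X := by
      rw [← intervalIntegral.integral_of_le hab, integral_one_div_of_pos ha0 (by positivity)]
      have : a * (1 + 1 / X) / a = 1 + 1 / X := by field_simp
      rw [this]
      have := Real.log_le_sub_one_of_pos (show 0 < 1 + 1 / X by positivity)
      linarith
    have h4 : 2 * ‖F0‖ ^ 2 * (∫ z in Set.Ioc a (a * (1 + 1 / X)), 1 / z) ≤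
        2 * ‖F0‖ ^ 2 * (1 / X) := mul_le_mul_of_nonneg_left h3 (by positivity)
    linarith
  -- sum of the squares of the coefficients
  have hRTs : ∑ r ∈ RR N y w, b γ r ^ 2 ≤ C2 := by
    refine le_trans ?_ (hRT y N (by linarith))
    apply Finset.sum_le_sum_of_subset_of_nonneg
    · intro r hr
      have h := mem_RR_primes hr
      rw [Finset.mem_filter, Finset.mem_Icc]
      refine ⟨⟨by omega, h.2.1⟩, ?_⟩
      intro l hl
      exact ⟨(h.2.2 l hl).1, ((h.2.2 l hl).2 hw0).trans hw⟩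
    · intro i _ _
      positivity
  -- swapped sum
  have hgnn : ∀ z ∈ Set.Ioi (1 : ℝ), 0 ≤ g z := by
    intro z hz
    have : (0 : ℝ) < z := lt_trans one_pos hz
    simp only [hg]
    positivity
  have hswap : ∑ r ∈ RR N y w, b γ r ^ 2 *
      ∫ z in Set.Ioc ((N : ℝ) / r) ((N : ℝ) / r * (1 + 1 / X)), g z ≤
      C1 / (X * Real.log y) * ∫ z in Set.Ioi (1 : ℝ), g z := by
    have e1 : ∀ r ∈ RR N y w, b γ r ^ 2 *
        ∫ z in Set.Ioc ((N : ℝ) / r) ((N : ℝ) / r * (1 + 1 / X)), g z =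
        ∫ z in Set.Ioi (1 : ℝ), b γ r ^ 2 *
          (Set.Ioc ((N : ℝ) / r) ((N : ℝ) / r * (1 + 1 / X))).indicator g z := by
      intro r hr
      rw [integral_const_mul, setIntegral_indicator measurableSet_Ioc,
        Set.inter_eq_right.2 (hsub r hr)]
    rw [Finset.sum_congr rfl e1, ← integral_finset_sum, ← integral_const_mul]
    · apply setIntegral_mono_on
      · apply integrable_finset_sum
        intro r _
        exact (hint.indicator measurableSet_Ioc).const_mul _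
      · exact hint.const_mul _
      · exact measurableSet_Ioi
      · intro z hz
        have hz0 : (0 : ℝ) < z := lt_trans one_pos hz
        have hv : 0 < (N : ℝ) / z := by
          have : (0 : ℝ) < N := by exact_mod_cast hN
          positivity
        have hb := hRS y ((N : ℝ) / z) X hyy1 hX hXy hv
        have h5 : ∑ r ∈ RR N y w, b γ r ^ 2 *
            (Set.Ioc ((N : ℝ) / r) ((N : ℝ) / r * (1 + 1 / X))).indicator g z =
            (∑ r ∈ (RR N y w).filter (fun r : ℕ => z ∈ Set.Ioc ((N : ℝ) / r)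
              ((N : ℝ) / r * (1 + 1 / X))), b γ r ^ 2) * g z := by
          rw [Finset.sum_mul, Finset.sum_filter]
          apply Finset.sum_congr rfl
          intro r _
          by_cases h : z ∈ Set.Ioc ((N : ℝ) / r) ((N : ℝ) / r * (1 + 1 / X))
          · rw [Set.indicator_of_mem h, if_pos h]
          · rw [Set.indicator_of_notMem h, if_neg h, mul_zero]
        rw [h5]
        apply mul_le_mul_of_nonneg_right _ (hgnn z hz)
        refine le_trans ?_ hb
        apply Finset.sum_le_sum_of_subset_of_nonneg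
        · intro r hr
          rw [Finset.mem_filter] at hr
          have h := mem_RR_primes hr.1
          have hr0 : (0 : ℝ) < r := by
            have : 0 < r := by omega
            exact_mod_cast this
          obtain ⟨hz1, hz2⟩ := hr.2
          have hb1 : (N : ℝ) / z ≤ r := by
            rw [div_le_iff₀ hz0]
            rw [div_lt_iff₀ hr0] at hz1
            linarith
          have hb2 : (r : ℝ) ≤ (N : ℝ) / z * (1 + 1 / X) := by
            rw [div_mul_eq_mul_div, le_div_iff₀ hz0]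
            rw [div_mul_eq_mul_div, le_div_iff₀ hr0] at hz2
            linarith
          rw [Finset.mem_filter, Finset.mem_Icc]
          refine ⟨⟨h.1, Nat.le_floor hb2⟩, hb1, ?_⟩
          intro l hl
          exact ⟨(h.2.2 l hl).1, ((h.2.2 l hl).2 hw0).trans hw⟩
        · intro i _ _
          positivity
    · intro r _
      exact (hint.indicator measurableSet_Ioc).const_mul _
  -- conclusion
  have hsum : ∑ r ∈ RR N y w, b γ r ^ 2 *
      ∫ z in Set.Ioc ((N : ℝ) / r) ((N : ℝ) / r * (1 + 1 / X)), ‖DA γ A z ω‖ ^ 2 / z ≤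
      2 * ‖F0‖ ^ 2 * (1 / X) * C2 + 2 * (C1 / (X * Real.log y) * ∫ z in Set.Ioi (1 : ℝ), g z) := by
    calc _ ≤ ∑ r ∈ RR N y w, (2 * ‖F0‖ ^ 2 * (1 / X) * b γ r ^ 2 + 2 * (b γ r ^ 2 *
          ∫ z in Set.Ioc ((N : ℝ) / r) ((N : ℝ) / r * (1 + 1 / X)), g z)) := by
          apply Finset.sum_le_sum
          intro r hr
          have := mul_le_mul_of_nonneg_left (hterm r hr) (sq_nonneg (b γ r))
          linarith
      _ = 2 * ‖F0‖ ^ 2 * (1 / X) * ∑ r ∈ RR N y w, b γ r ^ 2 + 2 * ∑ r ∈ RR N y w, b γ r ^ 2 *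
          ∫ z in Set.Ioc ((N : ℝ) / r) ((N : ℝ) / r * (1 + 1 / X)), g z := by
          rw [Finset.sum_add_distrib, Finset.mul_sum, Finset.mul_sum]
      _ ≤ _ := by
          have h6 : 2 * ‖F0‖ ^ 2 * (1 / X) * ∑ r ∈ RR N y w, b γ r ^ 2 ≤
              2 * ‖F0‖ ^ 2 * (1 / X) * C2 := mul_le_mul_of_nonneg_left hRTs (by positivity)
          linarith
  have hJ : 0 ≤ JF γ A (-σ) ω := by
    have h0 : 0 ≤ ∫ z in Set.Ioi (1 : ℝ), g z := setIntegral_nonneg measurableSet_Ioi hgnn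
    have h1 := le_trans h0 hle
    have hpi := Real.pi_pos
    by_contra hcon
    push Not at hcon
    have : 1 / (2 * Real.pi) * JF γ A (-σ) ω < 0 := mul_neg_of_pos_of_neg (by positivity) hcon
    linarith
  have hle2 : ∫ z in Set.Ioi (1 : ℝ), g z ≤ JF γ A (-σ) ω := by
    refine hle.trans ?_
    have hpi : 1 / (2 * Real.pi) ≤ 1 := by
      rw [div_le_one (by positivity)]
      linarith [Real.pi_gt_three]
    nlinarith
  calc X * ∑ r ∈ RR N y w, b γ r ^ 2 *
      ∫ z in Set.Ioc ((N : ℝ) / r) ((N : ℝ) / r * (1 + 1 / X)), ‖DA γ A z ω‖ ^ 2 / z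
      ≤ X * (2 * ‖F0‖ ^ 2 * (1 / X) * C2 +
        2 * (C1 / (X * Real.log y) * ∫ z in Set.Ioi (1 : ℝ), g z)) :=
        mul_le_mul_of_nonneg_left hsum hX0.le
    _ = 2 * C2 * ‖F0‖ ^ 2 + 2 * C1 * ((∫ z in Set.Ioi (1 : ℝ), g z) / Real.log y) := by
        field_simp
    _ ≤ 2 * C2 * ‖F0‖ ^ 2 + 2 * C1 * (JF γ A (-σ) ω / Real.log y) := by
        have := div_le_div_of_nonneg_right hle2 hL.le
        have := mul_le_mul_of_nonneg_left this (show 0 ≤ 2 * C1 by positivity)
        linarith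
    _ ≤ (2 * C2 + 2 * C1) * (‖F0‖ ^ 2 + JF γ A (-σ) ω / Real.log y) := by
        have h7 : 0 ≤ JF γ A (-σ) ω / Real.log y := div_nonneg hJ hL.le
        have h8 : 0 ≤ ‖F0‖ ^ 2 := sq_nonneg _
        nlinarith [mul_nonneg hC2.le h7, mul_nonneg hC1.le h8]

end PM
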