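import Pool.Agent.H24.PM.Stmts

namespace PM
open Finset MeasureTheory

theorem meas_DA (γ : ℝ) (A : Finset ℕ) (ω : Om) : Measurable (fun z : ℝ => DA γ A z ω) := by
  unfold DA
  exact (measurable_from_nat (f := fun k : ℕ =>
    ∑ n ∈ (Finset.Icc 1 k).filter (fun n => n.primeFactors ⊆ A), (b γ n : ℂ) * chi n ω)).comp
    Nat.measurable_floor

theorem bdd_DA (γ : ℝ) (A : Finset ℕ) (ω : Om) (M : ℝ) : ∃ B : ℝ, 0 ≤ B ∧
    ∀ z : ℝ, z ≤ M → ‖DA γ A z ω‖ ≤ B := by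
  refine ⟨∑ n ∈ (Finset.Icc 1 ⌊M⌋₊).filter (fun n => n.primeFactors ⊆ A),
    ‖(b γ n : ℂ) * chi n ω‖, Finset.sum_nonneg fun _ _ => norm_nonneg _, fun z hz => ?_⟩
  unfold DA
  refine (norm_sum_le _ _).trans ?_
  refine Finset.sum_le_sum_of_subset_of_nonneg ?_ fun _ _ _ => norm_nonneg _
  refine Finset.filter_subset_filter _ ?_
  exact Finset.Icc_subset_Icc le_rfl (Nat.floor_le_floor hz)

theorem integrable_aux {f : ℝ → ℝ} (hf : Measurable f) {v w B : ℝ} (hv : 0 < v)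
    (hB : ∀ z, z ≤ w → |f z| ≤ B) : IntegrableOn (fun z => f z / z) (Set.Ioc v w) := by
  have hB0 : ∀ z, z ≤ w → 0 ≤ B := fun z hz => (abs_nonneg _).trans (hB z hz)
  refine Measure.integrableOn_of_bounded (M := B / v) (by simp) ?_ ?_
  · exact (hf.div measurable_id).aestronglyMeasurable
  · refine (ae_restrict_iff' measurableSet_Ioc).mpr (Filter.Eventually.of_forall fun z hz => ?_)
    have hz0 : 0 < z := hv.trans hz.1
    rw [Real.norm_eq_abs, abs_div, abs_of_pos hz0]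
    exact div_le_div₀ (hB0 z hz.2) (hB z hz.2) hv hz.1.le

theorem URS : S_URS := by
  intro γ A N y w X ω hX hN
  rw [Finset.mul_sum, Finset.mul_sum, ← Finset.sum_add_distrib]
  refine Finset.sum_le_sum fun r hr => ?_
  unfold RR at hr
  rw [Finset.mem_filter, Finset.mem_Icc] at hr
  have hr0 : (0 : ℝ) < r := by exact_mod_cast (by omega : 0 < r)
  have hN0 : (0 : ℝ) < N := by exact_mod_cast hN
  set v : ℝ := (N : ℝ) / r with hv
  have hv0 : 0 < v := by positivity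
  have hX0 : 0 < X := by linarith
  set q : ℝ := v * (1 + 1 / X) with hq
  obtain ⟨B, hB0, hB⟩ := bdd_DA γ A ω (max q v)
  have hmf : Measurable (fun z : ℝ => ‖DA γ A z ω‖ ^ 2) := (meas_DA γ A ω).norm.pow_const 2
  have hmg : Measurable (fun z : ℝ => ‖DA γ A z ω - DA γ A v ω‖ ^ 2) :=
    ((meas_DA γ A ω).sub_const _).norm.pow_const 2
  have hif : IntegrableOn (fun z : ℝ => ‖DA γ A z ω‖ ^ 2 / z) (Set.Ioc v q) := by
    refine integrable_aux hmf hv0 (B := B ^ 2) fun z hz => ?_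
    rw [abs_of_nonneg (by positivity)]
    exact pow_le_pow_left₀ (norm_nonneg _) (hB z (hz.trans (le_max_left _ _))) 2
  have hig : IntegrableOn (fun z : ℝ => ‖DA γ A z ω - DA γ A v ω‖ ^ 2 / z) (Set.Ioc v q) := by
    refine integrable_aux hmg hv0 (B := (B + B) ^ 2) fun z hz => ?_
    rw [abs_of_nonneg (by positivity)]
    refine pow_le_pow_left₀ (norm_nonneg _) ?_ 2
    refine (norm_sub_le _ _).trans (add_le_add (hB z (hz.trans (le_max_left _ _))) ?_)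
    exact hB v (le_max_right _ _)
  have hi1 : IntegrableOn (fun z : ℝ => ‖DA γ A v ω‖ ^ 2 / z) (Set.Ioc v q) := by
    refine integrable_aux measurable_const hv0 (B := ‖DA γ A v ω‖ ^ 2) fun z _ => ?_
    rw [abs_of_nonneg (by positivity)]
  have hvq : v ≤ q := by
    rw [hq]
    have : 0 ≤ 1 / X := by positivity
    nlinarith
  have hlog : ∫ z in Set.Ioc v q, ‖DA γ A v ω‖ ^ 2 / z = ‖DA γ A v ω‖ ^ 2 * Real.log (1 + 1 / X) := by
    have h1 : ∀ z : ℝ, ‖DA γ A v ω‖ ^ 2 / z = ‖DA γ A v ω‖ ^ 2 * z⁻¹ := fun z => div_eq_mul_inv _ _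
    simp_rw [h1]
    rw [integral_const_mul, ← intervalIntegral.integral_of_le hvq, integral_inv_of_pos hv0
      (lt_of_lt_of_le hv0 hvq)]
    congr 2
    rw [hq, mul_comm v, mul_div_assoc, div_self hv0.ne', mul_one]
  have hle : ∫ z in Set.Ioc v q, ‖DA γ A v ω‖ ^ 2 / z ≤
      ∫ z in Set.Ioc v q, (2 * (‖DA γ A z ω‖ ^ 2 / z) + 2 * (‖DA γ A z ω - DA γ A v ω‖ ^ 2 / z)) := by
    refine setIntegral_mono_on hi1 ((hif.const_mul 2).add (hig.const_mul 2)) measurableSet_Ioc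
      fun z hz => ?_
    have hz0 : 0 < z := hv0.trans hz.1
    have h1 : ‖DA γ A v ω‖ ≤ ‖DA γ A z ω‖ + ‖DA γ A z ω - DA γ A v ω‖ := by
      have := norm_sub_le (DA γ A z ω) (DA γ A z ω - DA γ A v ω)
      rwa [sub_sub_cancel] at this
    have h2 : ‖DA γ A v ω‖ ^ 2 ≤ 2 * ‖DA γ A z ω‖ ^ 2 + 2 * ‖DA γ A z ω - DA γ A v ω‖ ^ 2 := by
      nlinarith [norm_nonneg (DA γ A v ω), norm_nonneg (DA γ A z ω),
        norm_nonneg (DA γ A z ω - DA γ A v ω),
        sq_nonneg (‖DA γ A z ω‖ - ‖DA γ A z ω - DA γ A v ω‖)]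
    calc ‖DA γ A v ω‖ ^ 2 / z ≤
        (2 * ‖DA γ A z ω‖ ^ 2 + 2 * ‖DA γ A z ω - DA γ A v ω‖ ^ 2) / z :=
          div_le_div_of_nonneg_right h2 hz0.le
      _ = _ := by ring
  rw [hlog, integral_add (hif.const_mul 2) (hig.const_mul 2), integral_const_mul,
    integral_const_mul] at hle
  have hlg : 1 / (2 * X) ≤ Real.log (1 + 1 / X) := by
    have h1 := Real.one_sub_inv_le_log_of_pos (show 0 < 1 + 1 / X by positivity)
    refine le_trans ?_ h1
    have h2 : 1 - (1 + 1 / X)⁻¹ = 1 / (X + 1) := by field_simp; ring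
    rw [h2]
    exact one_div_le_one_div_of_le (by linarith) (by linarith)
  have hmain : ‖DA γ A v ω‖ ^ 2 ≤ 4 * X * (∫ z in Set.Ioc v q, ‖DA γ A z ω‖ ^ 2 / z) +
      4 * X * ∫ z in Set.Ioc v q, ‖DA γ A z ω - DA γ A v ω‖ ^ 2 / z := by
    have h1 : ‖DA γ A v ω‖ ^ 2 * (1 / (2 * X)) ≤
        2 * (∫ z in Set.Ioc v q, ‖DA γ A z ω‖ ^ 2 / z) +
        2 * ∫ z in Set.Ioc v q, ‖DA γ A z ω - DA γ A v ω‖ ^ 2 / z :=
      (mul_le_mul_of_nonneg_left hlg (by positivity)).trans hle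
    have h2 := mul_le_mul_of_nonneg_left h1 (show 0 ≤ 2 * X by positivity)
    have h3 : 2 * X * (‖DA γ A v ω‖ ^ 2 * (1 / (2 * X))) = ‖DA γ A v ω‖ ^ 2 := by
      field_simp
    rw [h3] at h2
    linarith
  have hb : 0 ≤ b γ r ^ 2 := sq_nonneg _
  have := mul_le_mul_of_nonneg_left hmain hb
  calc b γ r ^ 2 * ‖DA γ A v ω‖ ^ 2 ≤ _ := this
    _ = _ := by ring

end PM
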