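import Pool.Agent.H24.PM.Stmts

namespace PM
open MeasureTheory Complex

lemma weak_min (v : ℝ) (hv : 0 ≤ v) (n : ℕ) :
    min 1 ((v / ((n : ℝ) + 1)) ^ 2) ≤ 4 * v ^ 2 / (v + ((n : ℝ) + 1)) ^ 2 := by
  have hn : (0 : ℝ) ≤ n := Nat.cast_nonneg n
  rcases le_total ((n : ℝ) + 1) v with h | h
  · refine (min_le_left _ _).trans ?_
    rw [le_div_iff₀ (by positivity)]
    nlinarith
  · refine (min_le_right _ _).trans ?_
    rw [div_pow, div_le_div_iff₀ (by positivity) (by positivity)]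
    have h1 : (v + ((n : ℝ) + 1)) ^ 2 ≤ 4 * ((n : ℝ) + 1) ^ 2 := by nlinarith
    have h2 : 0 ≤ v ^ 2 := sq_nonneg v
    nlinarith

lemma weak_range (v : ℝ) (hv : 0 < v) (N : ℕ) :
    ∑ n ∈ Finset.range N, min 1 ((v / ((n : ℝ) + 1)) ^ 2) ≤
      4 * v ^ 2 * (1 / v - 1 / (v + N)) := by
  induction N with
  | zero => simp
  | succ N ih =>
    rw [Finset.sum_range_succ]
    have h1 := weak_min v hv.le N
    have hN : (0 : ℝ) ≤ N := Nat.cast_nonneg N
    have h2 : 4 * v ^ 2 / (v + ((N : ℝ) + 1)) ^ 2 ≤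
        4 * v ^ 2 * (1 / (v + N) - 1 / (v + ((N : ℝ) + 1))) := by
      have h3 : 1 / (v + (N : ℝ)) - 1 / (v + ((N : ℝ) + 1)) =
          1 / ((v + N) * (v + ((N : ℝ) + 1))) := by
        have : v + (N : ℝ) ≠ 0 := by positivity
        have : v + ((N : ℝ) + 1) ≠ 0 := by positivity
        field_simp
        ring
      rw [h3, div_eq_mul_one_div (4 * v ^ 2)]
      gcongr
      nlinarith
    push_cast
    have h4 : 4 * v ^ 2 * (1 / v - 1 / (v + ((N : ℝ) + 1))) =
      4 * v ^ 2 * (1 / v - 1 / (v + N)) + 4 * v ^ 2 * (1 / (v + N) - 1 / (v + ((N : ℝ) + 1))) := by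
      ring
    rw [h4]
    linarith

lemma weak_sum_nat (v : ℝ) (hv : 0 ≤ v) :
    ∑' n : ℕ, ENNReal.ofReal (min 1 ((v / ((n : ℝ) + 1)) ^ 2)) ≤ ENNReal.ofReal (4 * v) := by
  rcases hv.eq_or_lt with h | h
  · rw [← h]; simp
  apply ENNReal.tsum_le_of_sum_range_le
  intro N
  rw [← ENNReal.ofReal_sum_of_nonneg (fun n _ => by positivity)]
  apply ENNReal.ofReal_le_ofReal
  refine (weak_range v h N).trans ?_
  have h1 : 4 * v ^ 2 * (1 / v - 1 / (v + N)) = 4 * v - 4 * v ^ 2 * (1 / (v + N)) := by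
    field_simp
  rw [h1]
  have : 0 ≤ 4 * v ^ 2 * (1 / (v + (N : ℝ))) := by positivity
  linarith

lemma weak_sum_int (v : ℝ) (hv : 0 ≤ v) :
    ∑' i : ℤ, ENNReal.ofReal (min 1 ((v / (|(i : ℝ)| + 1)) ^ 2)) ≤ ENNReal.ofReal (8 * v) := by
  have h1 : HasSum (fun i : ℤ => ENNReal.ofReal (min 1 ((v / (|(i : ℝ)| + 1)) ^ 2)))
      ((∑' n : ℕ, ENNReal.ofReal (min 1 ((v / ((n : ℝ) + 1)) ^ 2))) +
        ∑' n : ℕ, ENNReal.ofReal (min 1 ((v / (((n + 1 : ℕ) : ℝ) + 1)) ^ 2))) := by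
    apply HasSum.of_nat_of_neg_add_one
    · have : (fun n : ℕ => ENNReal.ofReal (min 1 ((v / (|((n : ℤ) : ℝ)| + 1)) ^ 2))) =
          fun n : ℕ => ENNReal.ofReal (min 1 ((v / ((n : ℝ) + 1)) ^ 2)) := by
        funext n
        simp
      rw [this]
      exact ENNReal.summable.hasSum
    · have : (fun n : ℕ => ENNReal.ofReal (min 1 ((v / (|((-((n : ℤ) + 1) : ℤ) : ℝ)| + 1)) ^ 2))) =
          fun n : ℕ => ENNReal.ofReal (min 1 ((v / (((n + 1 : ℕ) : ℝ) + 1)) ^ 2)) := by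
        funext n
        congr 5
        push_cast
        rw [abs_of_nonpos (by have : (0 : ℝ) ≤ n := Nat.cast_nonneg n; linarith)]
        ring
      rw [this]
      exact ENNReal.summable.hasSum
  rw [h1.tsum_eq]
  have h2 : ∑' n : ℕ, ENNReal.ofReal (min 1 ((v / (((n + 1 : ℕ) : ℝ) + 1)) ^ 2)) ≤
      ∑' n : ℕ, ENNReal.ofReal (min 1 ((v / ((n : ℝ) + 1)) ^ 2)) := by
    apply ENNReal.tsum_le_tsum
    intro n
    apply ENNReal.ofReal_le_ofReal
    push_cast
    have hn : (0 : ℝ) ≤ n := Nat.cast_nonneg n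
    gcongr
    linarith
  have h3 := weak_sum_nat v hv
  calc _ ≤ ENNReal.ofReal (4 * v) + ENNReal.ofReal (4 * v) := add_le_add h3 (h2.trans h3)
    _ = ENNReal.ofReal (8 * v) := by
      rw [← ENNReal.ofReal_add (by positivity) (by positivity)]
      congr 1; ring

lemma weak_den (Y σ t : ℝ) (i : ℤ) (hY : 0 < Y) (hσ : 1 ≤ 4 * |σ| * Y) (h1 : (i : ℝ) / Y ≤ t)
    (h2 : t < ((i : ℝ) + 1) / Y) : (|(i : ℝ)| + 1) ^ 2 / (100 * Y ^ 2) ≤ σ ^ 2 + t ^ 2 := by
  rw [div_le_iff₀ hY] at h1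
  rw [lt_div_iff₀ hY] at h2
  rw [div_le_iff₀ (by positivity)]
  have h3 : (σ ^ 2 + t ^ 2) * (100 * Y ^ 2) = 100 * ((|σ| * Y) ^ 2 + (t * Y) ^ 2) := by
    rw [mul_pow, sq_abs]; ring
  rw [h3]
  set s := |σ| * Y with hs
  set τ := t * Y with hτ
  have hs4 : 1 / 4 ≤ s := by linarith
  have hs2 : 1 / 16 ≤ s ^ 2 := by nlinarith
  have hτ2 : 0 ≤ τ ^ 2 := sq_nonneg τ
  rcases lt_or_ge i 2 with hi | hi
  · rcases lt_or_ge i (-1) with hi' | hi'
    · have h4 : (i : ℝ) ≤ -2 := by exact_mod_cast (by omega : i ≤ -2)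
      rw [abs_of_nonpos (by linarith)]
      nlinarith
    · have h4 : |(i : ℝ)| ≤ 1 := by
        rw [abs_le]
        constructor
        · exact_mod_cast hi'
        · exact_mod_cast (by omega : i ≤ 1)
      have h5 : 0 ≤ |(i : ℝ)| := abs_nonneg _
      nlinarith
  · have h4 : (2 : ℝ) ≤ i := by exact_mod_cast hi
    rw [abs_of_nonneg (by linarith)]
    nlinarith

theorem WEAK (hC : S_CIR) (hI : S_INV) (hJ : S_JM) : S_WEAK := by
  intro γ p0 hg
  obtain ⟨C, hC0, hC1⟩ := hC γ p0 hg 1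
  refine ⟨80 * C, by positivity, ?_⟩
  intro y σ μ hy hσ1 hσ2 hμ
  set Y := Real.log y with hY
  have hp0 : 4 * Real.exp 16 ≤ p0 := hg.1
  have hexp : Real.exp 16 ≤ y := by
    have : 0 < Real.exp 16 := Real.exp_pos _
    linarith
  have hY16 : 16 ≤ Y := by
    rw [hY, Real.le_log_iff_exp_le (lt_of_lt_of_le (Real.exp_pos _) hexp)]
    exact hexp
  have hY0 : 0 < Y := by linarith
  have hprime : ∀ l ∈ PrS p0 y, l.Prime := by
    intro l hl
    rw [PrS, Finset.mem_filter] at hl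
    exact hl.2.1
  have hσ0 : σ ≠ 0 := by
    rintro rfl
    simp at hσ1
    linarith
  have hσabs : |σ| ≤ 1 / 8 := by
    by_contra hcon
    push Not at hcon
    nlinarith
  have hσhalf : -(1 / 2) < σ := by
    have := neg_abs_le σ
    linarith
  obtain ⟨-, -, hint, -⟩ := hJ γ (PrS p0 y) σ hprime hσhalf hσ0
  set ti : ℤ → ℝ := fun i => ((i : ℝ) + 1 / 2) / Y with hti
  set Ui : ℤ → Om → ℝ := fun i => U γ (PrS p0 y) 1 σ (ti i) (1 / Y) with hUi
  have hcond : (|σ| + 2 * (1 / Y)) * Real.log y ≤ 8 := by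
    rw [← hY]
    have : (|σ| + 2 * (1 / Y)) * Y = |σ| * Y + 2 := by field_simp
    rw [this]; linarith
  have hcir := fun i : ℤ => hC1 p0 y 1 σ (ti i) (1 / Y) le_rfl (by linarith) (by positivity) hcond
    (by norm_num) le_rfl
  have hmeas : ∀ i, Measurable (Ui i) := fun i => (hcir i).1
  have hnn : ∀ i ω, 0 ≤ Ui i ω := by
    intro i ω
    obtain ⟨B, hB⟩ := (hcir i).2.1
    exact (hB ω).1
  -- pointwise bound of JF
  have hJF : ∀ ω : Om, ENNReal.ofReal (JF γ (PrS p0 y) σ ω) ≤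
      ENNReal.ofReal (100 * Y) * ∑' i : ℤ, ENNReal.ofReal ((Ui i ω / (|(i : ℝ)| + 1)) ^ 2) := by
    intro ω
    rw [JF, ofReal_integral_eq_lintegral_ofReal (hint ω)
      (Filter.Eventually.of_forall fun t => by simp only [Pi.zero_apply]; positivity)]
    have huniv : (⋃ i : ℤ, Set.Ico ((i : ℝ) / Y) (((i : ℝ) + 1) / Y)) = Set.univ := by
      apply Set.eq_univ_of_forall
      intro t
      rw [Set.mem_iUnion]
      refine ⟨⌊t * Y⌋, ?_, ?_⟩
      · rw [div_le_iff₀ hY0]; exact Int.floor_le _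
      · rw [lt_div_iff₀ hY0]; exact Int.lt_floor_add_one _
    rw [← setLIntegral_univ, ← huniv]
    refine (lintegral_iUnion_le _ _).trans ?_
    rw [← ENNReal.tsum_mul_left]
    apply ENNReal.tsum_le_tsum
    intro i
    have hpt : ∀ t ∈ Set.Ico ((i : ℝ) / Y) (((i : ℝ) + 1) / Y),
        ENNReal.ofReal (‖F γ (PrS p0 y) σ t ω‖ ^ 2 / (σ ^ 2 + t ^ 2)) ≤
          ENNReal.ofReal (100 * Y ^ 2 * (Ui i ω / (|(i : ℝ)| + 1)) ^ 2) := by
      intro t ht
      apply ENNReal.ofReal_le_ofReal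
      have hden := weak_den Y σ t i hY0 hσ1 ht.1 ht.2
      have hball : (σ - σ) ^ 2 + (t - ti i) ^ 2 ≤ (1 / Y) ^ 2 := by
        have h1 := ht.1
        have h2 := ht.2
        have h3 : |t - ti i| ≤ 1 / Y := by
          rw [abs_le]
          have h4 : ti i = (i : ℝ) / Y + (1 / 2) * (1 / Y) := by
            rw [hti]; field_simp
          have h5 : ((i : ℝ) + 1) / Y = (i : ℝ) / Y + 1 / Y := by ring
          have h6 : 0 < 1 / Y := by positivity
          rw [h4]
          rw [h5] at h2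
          constructor <;> linarith
        have h7 := sq_le_sq' (abs_le.mp h3).1 (abs_le.mp h3).2
        simpa using h7
      have hF := (hcir i).2.2.1 σ t ω hball
      rw [Real.rpow_one] at hF
      have hF' : ‖F γ (PrS p0 y) σ t ω‖ ≤ Ui i ω := hF
      have hpos : 0 < (|(i : ℝ)| + 1) ^ 2 / (100 * Y ^ 2) := by positivity
      calc ‖F γ (PrS p0 y) σ t ω‖ ^ 2 / (σ ^ 2 + t ^ 2) ≤
          (Ui i ω) ^ 2 / ((|(i : ℝ)| + 1) ^ 2 / (100 * Y ^ 2)) := by
            gcongr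
        _ = 100 * Y ^ 2 * (Ui i ω / (|(i : ℝ)| + 1)) ^ 2 := by
            field_simp
    refine (setLIntegral_mono' measurableSet_Ico hpt).trans ?_
    rw [setLIntegral_const, Real.volume_Ico, ← ENNReal.ofReal_mul (by positivity),
      ← ENNReal.ofReal_mul (by positivity)]
    apply ENNReal.ofReal_le_ofReal
    have : ((i : ℝ) + 1) / Y - (i : ℝ) / Y = 1 / Y := by ring
    rw [this]
    apply le_of_eq
    field_simp
  -- the truncated sum
  set lam := μ / 10 with hlam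
  have hlam0 : 0 < lam := by positivity
  set g : ℤ → ℝ → ENNReal := fun i u =>
    ENNReal.ofReal (min 1 ((u / lam / (|(i : ℝ)| + 1)) ^ 2)) with hgdef
  have hgm : ∀ i, Measurable (g i) := by
    intro i
    apply ENNReal.measurable_ofReal.comp
    fun_prop
  have hevent : {ω | μ ^ 2 * Y ≤ JF γ (PrS p0 y) σ ω} ⊆
      {ω | 1 ≤ ∑' i : ℤ, g i (Ui i ω)} := by
    intro ω hω
    simp only [Set.mem_ofPred_eq] at hω ⊢
    have h1 := (ENNReal.ofReal_le_ofReal hω).trans (hJF ω)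
    have h2 : ENNReal.ofReal (μ ^ 2 * Y) = ENNReal.ofReal (100 * Y) * ENNReal.ofReal (lam ^ 2) := by
      rw [← ENNReal.ofReal_mul (by positivity)]
      congr 1
      rw [hlam]; ring
    rw [h2] at h1
    have h3 : ENNReal.ofReal (lam ^ 2) ≤ ∑' i : ℤ, ENNReal.ofReal ((Ui i ω / (|(i : ℝ)| + 1)) ^ 2) :=
      (ENNReal.mul_le_mul_iff_right (by
        rw [Ne, ENNReal.ofReal_eq_zero, not_le]; positivity) ENNReal.ofReal_ne_top).mp h1
    have h4 : ∀ i : ℤ, ENNReal.ofReal ((Ui i ω / (|(i : ℝ)| + 1)) ^ 2) =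
        ENNReal.ofReal (lam ^ 2) * ENNReal.ofReal ((Ui i ω / lam / (|(i : ℝ)| + 1)) ^ 2) := by
      intro i
      rw [← ENNReal.ofReal_mul (by positivity)]
      congr 1
      have : |(i : ℝ)| + 1 ≠ 0 := by positivity
      field_simp
    rw [tsum_congr h4, ENNReal.tsum_mul_left] at h3
    have h5 : (1 : ENNReal) ≤ ∑' i : ℤ, ENNReal.ofReal ((Ui i ω / lam / (|(i : ℝ)| + 1)) ^ 2) := by
      by_contra hcon
      push Not at hcon
      have hne : ENNReal.ofReal (lam ^ 2) ≠ 0 := by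
        rw [Ne, ENNReal.ofReal_eq_zero, not_le]; positivity
      have := ENNReal.mul_lt_mul_right hne ENNReal.ofReal_ne_top hcon
      rw [mul_one] at this
      exact absurd h3 (not_le.mpr this)
    by_cases hex : ∃ i : ℤ, 1 ≤ (Ui i ω / lam / (|(i : ℝ)| + 1)) ^ 2
    · obtain ⟨i, hi⟩ := hex
      calc (1 : ENNReal) = g i (Ui i ω) := by
            rw [hgdef]
            simp only
            rw [min_eq_left hi, ENNReal.ofReal_one]
        _ ≤ _ := ENNReal.le_tsum i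
    · push Not at hex
      have : ∀ i : ℤ, g i (Ui i ω) = ENNReal.ofReal ((Ui i ω / lam / (|(i : ℝ)| + 1)) ^ 2) := by
        intro i
        rw [hgdef]
        simp only
        rw [min_eq_right (hex i).le]
      rw [tsum_congr this]
      exact h5
  have hmeasum : Measurable (fun ω : Om => ∑' i : ℤ, g i (Ui i ω)) :=
    Measurable.ennreal_tsum fun i => (hgm i).comp (hmeas i)
  have hlaw : ∀ i : ℤ, ∫⁻ ω : Om, g i (Ui i ω) ∂P = ∫⁻ ω : Om, g i (Ui 0 ω) ∂P := by
    intro i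
    obtain ⟨s, hs⟩ := (hcir 0).2.2.2.1 (ti i)
    have h1 : ∀ ω : Om, Ui i ω = Ui 0 (ω + s) := hs
    simp_rw [h1]
    exact (hI s).lintegral_comp ((hgm i).comp (hmeas 0))
  have hmain : P {ω | μ ^ 2 * Y ≤ JF γ (PrS p0 y) σ ω} ≤
      ENNReal.ofReal (80 * C * Y ^ ((al γ) ^ 2 / 4) / μ) := by
    calc P {ω | μ ^ 2 * Y ≤ JF γ (PrS p0 y) σ ω} ≤ P {ω | 1 ≤ ∑' i : ℤ, g i (Ui i ω)} :=
          measure_mono hevent
      _ ≤ ∫⁻ ω : Om, ∑' i : ℤ, g i (Ui i ω) ∂P := by
          have := mul_meas_ge_le_lintegral (μ := P) hmeasum 1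
          rwa [one_mul] at this
      _ = ∑' i : ℤ, ∫⁻ ω : Om, g i (Ui i ω) ∂P :=
          lintegral_tsum fun i => ((hgm i).comp (hmeas i)).aemeasurable
      _ = ∑' i : ℤ, ∫⁻ ω : Om, g i (Ui 0 ω) ∂P := tsum_congr hlaw
      _ = ∫⁻ ω : Om, ∑' i : ℤ, g i (Ui 0 ω) ∂P :=
          (lintegral_tsum fun i => ((hgm i).comp (hmeas 0)).aemeasurable).symm
      _ ≤ ∫⁻ ω : Om, ENNReal.ofReal (8 * (Ui 0 ω / lam)) ∂P := by
          apply lintegral_mono
          intro ω
          exact weak_sum_int _ (div_nonneg (hnn 0 ω) hlam0.le)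
      _ = ENNReal.ofReal (∫ ω : Om, 8 * (Ui 0 ω / lam) ∂P) := by
          rw [ofReal_integral_eq_lintegral_ofReal]
          · obtain ⟨B, hB⟩ := (hcir 0).2.1
            apply Integrable.const_mul
            apply Integrable.div_const
            apply Integrable.of_bound (hmeas 0).aestronglyMeasurable B
            exact Filter.Eventually.of_forall fun ω => by
              rw [Real.norm_eq_abs, abs_of_nonneg (hnn 0 ω)]
              exact (hB ω).2
          · exact Filter.Eventually.of_forall fun ω => by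
              simp only [Pi.zero_apply]
              have := hnn 0 ω
              positivity
      _ ≤ _ := by
          apply ENNReal.ofReal_le_ofReal
          rw [integral_const_mul, integral_div]
          have h1 : ∫ ω : Om, Ui 0 ω ∂P ≤
              C * (Real.log y / Real.log p0) ^ ((al γ) ^ 2 * 1 ^ 2 / 4) := (hcir 0).2.2.2.2
          have hlogp : 1 ≤ Real.log p0 := by
            have h2 : Real.exp 1 ≤ (p0 : ℝ) := by
              have h3 : Real.exp 1 ≤ Real.exp 16 := Real.exp_le_exp.mpr (by norm_num)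
              have h4 : 0 < Real.exp 16 := Real.exp_pos _
              linarith
            rw [Real.le_log_iff_exp_le (lt_of_lt_of_le (Real.exp_pos _) h2)]
            exact h2
          have h5 : (Real.log y / Real.log p0) ^ ((al γ) ^ 2 * 1 ^ 2 / 4) ≤
              Y ^ ((al γ) ^ 2 / 4) := by
            rw [one_pow, mul_one]
            apply Real.rpow_le_rpow (by rw [← hY]; positivity) _ (by positivity)
            rw [← hY]
            exact div_le_self hY0.le hlogp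
          have h6 : ∫ ω : Om, Ui 0 ω ∂P ≤ C * Y ^ ((al γ) ^ 2 / 4) :=
            h1.trans (by gcongr)
          calc 8 * ((∫ ω : Om, Ui 0 ω ∂P) / lam) ≤ 8 * ((C * Y ^ ((al γ) ^ 2 / 4)) / lam) := by
                gcongr
            _ = _ := by
                rw [hlam]
                field_simp
                ring
  rw [Measure.real]
  exact ENNReal.toReal_le_of_le_ofReal (by positivity) hmain

end PM
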