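import Pool.Agent.H24.PM.Stmts

/-! Module WM of project PM: measurability and boundedness of the counting functional. -/

namespace PM
open MeasureTheory Complex

theorem WM_pa (p0 : ℕ) (v : ℝ) : PA p0 (PrS p0 v) := by
  intro l hl
  simp only [PrS, Finset.mem_filter, Finset.mem_range] at hl
  exact ⟨hl.2.1, by exact_mod_cast hl.2.2⟩

theorem WM_le {p0 : ℕ} {v : ℝ} (hv : 0 ≤ v) {l : ℕ} (hl : l ∈ PrS p0 v) : (l : ℝ) ≤ v := by
  simp only [PrS, Finset.mem_filter, Finset.mem_range] at hl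
  exact (Nat.le_floor_iff hv).1 (Nat.lt_succ_iff.1 hl.1)

theorem WM_one {p0 : ℕ} {v : ℝ} {l : ℕ} (hl : l ∈ PrS p0 v) : (1 : ℝ) ≤ l := by
  simp only [PrS, Finset.mem_filter, Finset.mem_range] at hl
  exact_mod_cast hl.2.1.one_lt.le

theorem WM_ln (p0 : ℕ) {v y : ℝ} (hv : 0 ≤ v) (hvy : v ≤ y) (hy : Real.exp 3 ≤ y) :
    Ln (PrS p0 v) (2 / Real.log y) := by
  have hy1 : 1 < y := by
    have : (1 : ℝ) < Real.exp 3 := by
      rw [Real.one_lt_exp_iff]; norm_num
    linarith
  have hlog : 0 < Real.log y := Real.log_pos hy1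
  intro l hl
  have h1 := WM_le hv hl
  have h0 := WM_one hl
  have h2 : Real.log l ≤ Real.log y := Real.log_le_log (by linarith) (by linarith)
  have h3 : 0 ≤ Real.log l := Real.log_nonneg h0
  rw [abs_of_pos (by positivity)]
  calc 2 / Real.log y * Real.log l ≤ 2 / Real.log y * Real.log y := by
        apply mul_le_mul_of_nonneg_left h2; positivity
    _ = 2 := by field_simp
    _ ≤ 8 := by norm_num

theorem WM_xs {y : ℝ} (hy : Real.exp 3 ≤ y) {s : ℕ} (hs : (s : ℝ) ≤ Real.log (Real.log y)) :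
    xs s ≤ y := by
  have hy1 : 1 < y := by
    have : (1 : ℝ) < Real.exp 3 := by
      rw [Real.one_lt_exp_iff]; norm_num
    linarith
  have hlog : 0 < Real.log y := Real.log_pos hy1
  unfold xs
  rw [← Real.le_log_iff_exp_le (by linarith)]
  rw [← Real.le_log_iff_exp_le hlog]
  exact hs

/-- the set of pairs in the good event is closed -/
theorem WM_closed (h : S_GC) (γ : ℝ) (p0 : ℕ) (hg : Good γ p0) (y β κ lam : ℝ)
    (hy : Real.exp 3 ≤ y) (k : ℕ) :
    IsClosed {q : ℝ × Om | q.2 ∈ Ev γ p0 y β κ lam k q.1} := by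
  have hy0 : 0 ≤ y := le_trans (Real.exp_pos 3).le hy
  have c1 := (h γ p0 hg (PrS p0 y) (WM_pa p0 y) (2 / Real.log y) (WM_ln p0 hy0 le_rfl hy)).1
  have e : {q : ℝ × Om | q.2 ∈ Ev γ p0 y β κ lam k q.1} =
      ({q : ℝ × Om | xk y lam k ≤ G γ (PrS p0 y) (2 / Real.log y) q.1 q.2} ∩
       {q : ℝ × Om | G γ (PrS p0 y) (2 / Real.log y) q.1 q.2 ≤ xk y lam k + 1}) ∩
      ⋂ (s : ℕ) (_ : (s : ℝ) ≤ Real.log (Real.log y)), {q : ℝ × Om |
        ((al γ) ^ 2 / 2 - β) * (Real.log (Real.log y) - s) - κ ≤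
        G γ (PrS p0 y) (2 / Real.log y) q.1 q.2 - G γ (PrS p0 (xs s)) (2 / Real.log y) q.1 q.2} := by
    ext q
    simp [Ev]
  rw [e]
  refine (IsClosed.inter ?_ ?_).inter ?_
  · exact isClosed_le continuous_const c1
  · exact isClosed_le c1 continuous_const
  · refine isClosed_iInter fun s => isClosed_iInter fun hs => ?_
    have c2 := (h γ p0 hg (PrS p0 (xs s)) (WM_pa p0 _) (2 / Real.log y)
      (WM_ln p0 (Real.exp_pos _).le (WM_xs hy hs) hy)).1
    exact isClosed_le continuous_const (c1.sub c2)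

theorem WM_meas (h : S_GC) (γ : ℝ) (p0 : ℕ) (hg : Good γ p0) (y β κ lam : ℝ)
    (hy : Real.exp 3 ≤ y) (k : ℕ) : Measurable (fun q : ℝ × Om =>
    Set.indicator (Ev γ p0 y β κ lam k q.1) (fun _ => (1 : ℝ)) q.2) := by
  have e : (fun q : ℝ × Om =>
    Set.indicator (Ev γ p0 y β κ lam k q.1) (fun _ => (1 : ℝ)) q.2) =
    Set.indicator {q : ℝ × Om | q.2 ∈ Ev γ p0 y β κ lam k q.1} (fun _ => (1 : ℝ)) := by
    funext q
    by_cases hq : q.2 ∈ Ev γ p0 y β κ lam k q.1
    · rw [Set.indicator_of_mem hq, Set.indicator_of_mem (by exact hq)]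
    · rw [Set.indicator_of_notMem hq, Set.indicator_of_notMem (by exact hq)]
  rw [e]
  exact measurable_const.indicator (WM_closed h γ p0 hg y β κ lam hy k).measurableSet

theorem WM (h : S_GC) : S_WM := by
  intro γ p0 hg y β κ A lam hy
  have hy1 : 1 < y := by
    have : (1 : ℝ) < Real.exp 3 := by
      rw [Real.one_lt_exp_iff]; norm_num
    linarith
  have hlog : 0 < Real.log y := Real.log_pos hy1
  have hm := WM_meas h γ p0 hg y β κ lam hy
  have hnn : ∀ (k : ℕ) (ω : Om), 0 ≤ ∫ t in Set.Ioc (Real.exp k) (Real.exp (k + 1)),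
      Set.indicator (Ev γ p0 y β κ lam k t) (fun _ => (1 : ℝ)) ω := by
    intro k ω
    refine integral_nonneg fun t => ?_
    exact Set.indicator_nonneg (fun _ _ => zero_le_one) _
  have hle : ∀ (k : ℕ) (ω : Om), ∫ t in Set.Ioc (Real.exp k) (Real.exp (k + 1)),
      Set.indicator (Ev γ p0 y β κ lam k t) (fun _ => (1 : ℝ)) ω ≤ Real.exp (k + 1) - Real.exp k := by
    intro k ω
    have h1 : ∫ t in Set.Ioc (Real.exp k) (Real.exp (k + 1)), (1 : ℝ) =
        Real.exp (k + 1) - Real.exp k := by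
      rw [← intervalIntegral.integral_of_le (Real.exp_le_exp.2 (by linarith))]
      simp
    rw [← h1]
    refine integral_mono_of_nonneg ?_ ?_ ?_
    · exact Filter.Eventually.of_forall fun t => Set.indicator_nonneg (fun _ _ => zero_le_one) _
    · exact integrableOn_const (by simp)
    · exact Filter.Eventually.of_forall fun t => Set.indicator_le_self' (fun _ _ => zero_le_one) _
  refine ⟨hm, ?_, ?_, ?_⟩
  · unfold W
    refine Measurable.const_mul ?_ _
    refine Finset.measurable_sum _ fun k _ => ?_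
    exact ((hm k).stronglyMeasurable.integral_prod_left).measurable
  · refine ⟨Real.log y * ∑ k ∈ KW γ y A lam, (Real.exp (k + 1) - Real.exp k), fun ω => ⟨?_, ?_⟩⟩
    · unfold W
      exact mul_nonneg hlog.le (Finset.sum_nonneg fun k _ => hnn k ω)
    · unfold W
      exact mul_le_mul_of_nonneg_left (Finset.sum_le_sum fun k _ => hle k ω) hlog.le
  · intro ω hω
    unfold W at hω
    have h1 : 0 < ∑ k ∈ KW γ y A lam, ∫ t in Set.Ioc (Real.exp k) (Real.exp (k + 1)),
      Set.indicator (Ev γ p0 y β κ lam k t) (fun _ => (1 : ℝ)) ω := by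
      by_contra hc
      have : Real.log y * _ ≤ 0 := mul_nonpos_of_nonneg_of_nonpos hlog.le (not_lt.1 hc)
      linarith
    obtain ⟨k, _, hk⟩ := Finset.exists_lt_of_sum_lt (s := KW γ y A lam) (f := fun _ => (0 : ℝ))
      (by simpa using h1)
    have h2 : ∃ t ∈ Set.Ioc (Real.exp k) (Real.exp (k + 1)), ω ∈ Ev γ p0 y β κ lam k t := by
      by_contra hc
      push Not at hc
      have : ∫ t in Set.Ioc (Real.exp k) (Real.exp (k + 1)),
        Set.indicator (Ev γ p0 y β κ lam k t) (fun _ => (1 : ℝ)) ω = 0 := by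
        refine setIntegral_eq_zero_of_forall_eq_zero fun t ht => ?_
        exact Set.indicator_of_notMem (hc t ht) _
      rw [this] at hk
      exact lt_irrefl _ hk
    obtain ⟨t, ht, hev⟩ := h2
    refine ⟨t, ?_, k, ht.1.le, ht.2, hev⟩
    have : (1 : ℝ) ≤ Real.exp k := Real.one_le_exp (Nat.cast_nonneg k)
    linarith [ht.1]

end PM
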