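import Pool.Agent.H24.PM.Stmts

/-! the approximation of zeta by its partial sums on the right of the line 1 -/

namespace PM
open MeasureTheory Complex Filter Topology

namespace ZAPaux

/-- the comparison function x^(1-s)/(s-1) -/
private noncomputable def h (s : ℂ) (x : ℝ) : ℂ := (x : ℂ) ^ (1 - s) / (s - 1)

private lemma h_deriv {s : ℂ} (hs : s ≠ 1) {x : ℝ} (hx : 0 < x) :
    HasDerivAt (h s) (-(x : ℂ) ^ (-s)) x := by
  have h1 : HasDerivAt (fun y : ℝ => (y : ℂ) ^ (1 - s)) ((1 - s) * (x : ℂ) ^ (1 - s - 1)) x := by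
    have := (hasDerivAt_id (x : ℂ)).cpow_const (c := 1 - s) (Or.inl (by simpa using hx))
    simpa using this.comp_ofReal
  have h2 := h1.div_const (s - 1)
  have hs' : s - 1 ≠ 0 := sub_ne_zero.2 hs
  have e : (1 - s) * (x : ℂ) ^ (1 - s - 1) / (s - 1) = -(x : ℂ) ^ (-s) := by
    rw [show (1 - s - 1 : ℂ) = -s by ring]
    field_simp
    ring
  exact h2.congr_deriv e

private lemma pow_diff {s : ℂ} (hs : 1 ≤ s.re) {a x y : ℝ} (ha : 0 < a) (hx : a ≤ x) (hy : a ≤ y) :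
    ‖(x : ℂ) ^ (-s) - (y : ℂ) ^ (-s)‖ ≤ ‖s‖ * a ^ (-s.re - 1) * |x - y| := by
  have hd : ∀ z ∈ Set.Ici a, HasDerivWithinAt (fun y : ℝ => (y : ℂ) ^ (-s))
      (-s * (z : ℂ) ^ (-s - 1)) (Set.Ici a) z := by
    intro z hz
    have hz' : 0 < z := lt_of_lt_of_le ha hz
    have := (hasDerivAt_id (z : ℂ)).cpow_const (c := -s) (Or.inl (by simpa using hz'))
    simpa using this.comp_ofReal.hasDerivWithinAt
  have hb : ∀ z ∈ Set.Ici a, ‖-s * (z : ℂ) ^ (-s - 1)‖ ≤ ‖s‖ * a ^ (-s.re - 1) := by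
    intro z hz
    have hz' : 0 < z := lt_of_lt_of_le ha hz
    rw [norm_mul, norm_neg, Complex.norm_cpow_eq_rpow_re_of_pos hz']
    gcongr
    have : (-s - 1).re = -s.re - 1 := by simp
    rw [this]
    exact Real.rpow_le_rpow_of_nonpos ha hz (by linarith)
  have := (convex_Ici a).norm_image_sub_le_of_norm_hasDerivWithin_le hd hb hy hx
  simpa using this

private lemma step {s : ℂ} (hs : 1 < s.re) (n : ℕ) (hn : 1 ≤ n) :
    ‖((n + 1 : ℕ) : ℂ) ^ (-s) + h s ((n + 1 : ℕ) : ℝ) - h s (n : ℝ)‖ ≤ ‖s‖ * (n : ℝ) ^ (-s.re - 1) := by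
  have hs1 : s ≠ 1 := by
    rintro rfl
    simp at hs
  have hn' : (0 : ℝ) < n := by exact_mod_cast hn
  set c : ℂ := ((n + 1 : ℕ) : ℂ) ^ (-s) with hc
  have hc' : c = (((n : ℝ) + 1 : ℝ) : ℂ) ^ (-s) := by
    rw [hc]; push_cast; rfl
  have hd : ∀ z ∈ Set.Icc (n : ℝ) (n + 1), HasDerivWithinAt (fun y : ℝ => h s y + (y : ℂ) * c)
      (-(z : ℂ) ^ (-s) + c) (Set.Icc (n : ℝ) (n + 1)) z := by
    intro z hz
    have hz' : 0 < z := lt_of_lt_of_le hn' hz.1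
    have h1 := h_deriv hs1 hz'
    have h2 : HasDerivAt (fun y : ℝ => (y : ℂ) * c) c z := by
      have := (Complex.ofRealCLM.hasDerivAt (x := z)).mul_const c
      simpa using this
    exact (h1.add h2).hasDerivWithinAt
  have hb : ∀ z ∈ Set.Icc (n : ℝ) (n + 1), ‖-(z : ℂ) ^ (-s) + c‖ ≤ ‖s‖ * (n : ℝ) ^ (-s.re - 1) := by
    intro z hz
    have := pow_diff hs.le (a := n) (x := n + 1) (y := z) hn' (by linarith) hz.1
    rw [hc']
    rw [show (-(z : ℂ) ^ (-s) + (((n : ℝ) + 1 : ℝ) : ℂ) ^ (-s)) =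
      (((n : ℝ) + 1 : ℝ) : ℂ) ^ (-s) - (z : ℂ) ^ (-s) by ring]
    refine this.trans ?_
    have h3 : |(n : ℝ) + 1 - z| ≤ 1 := by
      rw [abs_le]; constructor <;> linarith [hz.1, hz.2]
    have h4 : 0 ≤ ‖s‖ * (n : ℝ) ^ (-s.re - 1) := by positivity
    nlinarith
  have := (convex_Icc (n : ℝ) (n + 1)).norm_image_sub_le_of_norm_hasDerivWithin_le hd hb
    (x := (n : ℝ)) (y := (n : ℝ) + 1) ⟨le_refl _, by linarith⟩ ⟨by linarith, le_refl _⟩
  have h5 : (n : ℝ) + 1 - n = 1 := by ring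
  rw [h5] at this
  simp only [norm_one, mul_one] at this
  have h6 : h s ((n : ℝ) + 1) + (((n : ℝ) + 1 : ℝ) : ℂ) * c - (h s (n : ℝ) + ((n : ℝ) : ℂ) * c) =
      c + h s ((n + 1 : ℕ) : ℝ) - h s (n : ℝ) := by
    push_cast; ring
  rwa [h6] at this

private lemma h_norm {s : ℂ} (hs : 1 < s.re) (hI : 1 ≤ |s.im|) {x : ℝ} (hx : 1 ≤ x) :
    ‖h s x‖ ≤ 1 := by
  unfold h
  rw [norm_div, Complex.norm_cpow_eq_rpow_re_of_pos (by linarith)]
  have h1 : x ^ (1 - s).re ≤ 1 := by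
    apply Real.rpow_le_one_of_one_le_of_nonpos hx
    simp; linarith
  have h2 : 1 ≤ ‖s - 1‖ := by
    refine hI.trans ?_
    have := Complex.abs_im_le_norm (s - 1)
    simpa using this
  rw [div_le_one (by linarith)]
  linarith

private lemma tele {s : ℂ} (hs : 1 < s.re) (N : ℕ) (hN : 1 ≤ N) (k : ℕ) :
    ‖∑ n ∈ Finset.Ico N (N + k), (((n + 1 : ℕ) : ℂ) ^ (-s)) + h s ((N + k : ℕ) : ℝ) - h s (N : ℝ)‖ ≤
      ‖s‖ * (2 / N - 2 / (N + k)) := by
  induction k with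
  | zero => simp
  | succ k ih =>
    rw [show N + (k + 1) = (N + k) + 1 by ring, Finset.sum_Ico_succ_top (by omega)]
    have h1 := step hs (N + k) (by omega)
    have hpos : (1 : ℝ) ≤ ((N + k : ℕ) : ℝ) := by exact_mod_cast (by omega : 1 ≤ N + k)
    have h2 : ((N + k : ℕ) : ℝ) ^ (-s.re - 1) ≤ 2 / (N + k) - 2 / (N + k + 1) := by
      have e1 : ((N + k : ℕ) : ℝ) ^ (-s.re - 1) ≤ ((N + k : ℕ) : ℝ) ^ (-2 : ℝ) :=
        Real.rpow_le_rpow_of_exponent_le hpos (by linarith)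
      refine e1.trans ?_
      rw [Real.rpow_neg (by linarith), show (2 : ℝ) = ((2 : ℕ) : ℝ) by norm_num, Real.rpow_natCast]
      push_cast
      push_cast at hpos
      have hp : (0 : ℝ) < N + k := by linarith
      rw [div_sub_div _ _ hp.ne' (by positivity), inv_eq_one_div, div_le_div_iff₀ (by positivity) (by positivity)]
      nlinarith
    have e2 : ∑ n ∈ Finset.Ico N (N + k), ((n + 1 : ℕ) : ℂ) ^ (-s) + ((N + k + 1 : ℕ) : ℂ) ^ (-s) +
        h s ((N + k + 1 : ℕ) : ℝ) - h s (N : ℝ) =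
        (∑ n ∈ Finset.Ico N (N + k), ((n + 1 : ℕ) : ℂ) ^ (-s) + h s ((N + k : ℕ) : ℝ) - h s (N : ℝ)) +
        (((N + k + 1 : ℕ) : ℂ) ^ (-s) + h s ((N + k + 1 : ℕ) : ℝ) - h s ((N + k : ℕ) : ℝ)) := by ring
    rw [e2]
    refine (norm_add_le _ _).trans ?_
    have h3 : ‖s‖ * ((N + k : ℕ) : ℝ) ^ (-s.re - 1) ≤ ‖s‖ * (2 / (N + k) - 2 / (N + k + 1)) := by
      gcongr
    have h4 : (2 / (N : ℝ) - 2 / (N + (k + 1 : ℕ))) = (2 / N - 2 / (N + k)) + (2 / (N + k) - 2 / (N + k + 1)) := by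
      push_cast; ring
    rw [h4, mul_add]
    linarith

end ZAPaux

open ZAPaux in
theorem ZAP : S_ZAP := by
  refine ⟨18, by norm_num, fun ε τ T hε hε2 hτ hT => ?_⟩
  set s : ℂ := 1 + ε + τ * I with hsdef
  have hre : s.re = 1 + ε := by simp [hsdef]
  have him : s.im = τ := by simp [hsdef]
  have hs : 1 < s.re := by rw [hre]; linarith
  have hT1 : 1 ≤ T := hτ.trans hT
  set N : ℕ := ⌊T⌋₊ with hN
  have hN1 : 1 ≤ N := Nat.le_floor (by simpa using hT1)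
  have hN1' : (1 : ℝ) ≤ N := by exact_mod_cast hN1
  have hNT : T < N + 1 := Nat.lt_floor_add_one T
  have hsn : ‖s‖ ≤ 3 + T := by
    have h1 : ‖s‖ ≤ ‖((1 + ε : ℝ) : ℂ)‖ + ‖(τ : ℂ) * I‖ := by
      rw [hsdef]
      refine le_trans (le_of_eq ?_) (norm_add_le _ _)
      push_cast; rfl
    rw [norm_mul, Complex.norm_I, mul_one, Complex.norm_real, Complex.norm_real, Real.norm_eq_abs,
      Real.norm_eq_abs, abs_of_pos (by linarith)] at h1
    linarith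
  -- partial sums
  have hsum : Summable (fun n : ℕ => 1 / ((n : ℂ)) ^ s) := Complex.summable_one_div_nat_cpow.2 hs
  have hs0 : s ≠ 0 := by
    intro h0
    rw [h0] at hs
    simp at hs
    linarith
  have hlim : Tendsto (fun M : ℕ => ∑ n ∈ Finset.range (M + 1), 1 / ((n : ℂ)) ^ s) atTop
      (𝓝 (riemannZeta s)) := by
    rw [zeta_eq_tsum_one_div_nat_cpow hs]
    exact hsum.hasSum.tendsto_sum_nat.comp (tendsto_add_atTop_nat 1)
  have hpart : ∀ M : ℕ, ∑ n ∈ Finset.range (M + 1), 1 / ((n : ℂ)) ^ s =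
      ∑ n ∈ Finset.range M, ((n + 1 : ℕ) : ℂ) ^ (-s) := by
    intro M
    rw [Finset.sum_range_succ']
    simp [Complex.zero_cpow hs0, Complex.cpow_neg]
  have hIcc : ∑ n ∈ Finset.Icc 1 N, (n : ℂ) ^ (-s) = ∑ n ∈ Finset.range N, ((n + 1 : ℕ) : ℂ) ^ (-s) := by
    rw [Finset.range_eq_Ico, Finset.sum_Ico_add' (fun n : ℕ => (n : ℂ) ^ (-s)) 0 N 1]
    congr 1
  rw [hIcc]
  have hlim2 : Tendsto (fun M : ℕ => ‖(∑ n ∈ Finset.range (M + 1), 1 / ((n : ℂ)) ^ s) -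
      ∑ n ∈ Finset.range N, ((n + 1 : ℕ) : ℂ) ^ (-s)‖) atTop
      (𝓝 ‖riemannZeta s - ∑ n ∈ Finset.range N, ((n + 1 : ℕ) : ℂ) ^ (-s)‖) :=
    (hlim.sub_const _).norm
  refine le_of_tendsto hlim2 ?_
  filter_upwards [eventually_ge_atTop N] with M hM
  rw [hpart M]
  obtain ⟨k, rfl⟩ := Nat.exists_eq_add_of_le hM
  rw [← Finset.sum_range_add_sum_Ico (fun n : ℕ => ((n + 1 : ℕ) : ℂ) ^ (-s)) (Nat.le_add_right N k)]
  rw [add_sub_cancel_left]
  have h1 := tele hs N hN1 k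
  have h2 := h_norm hs (by rw [him]; exact hτ) hN1'
  have h3 := h_norm hs (by rw [him]; exact hτ) (x := ((N + k : ℕ) : ℝ)) (by
    exact_mod_cast (by omega : 1 ≤ N + k))
  set S : ℂ := ∑ n ∈ Finset.Ico N (N + k), (((n + 1 : ℕ) : ℂ) ^ (-s)) with hS
  have h4 : S = (S + h s ((N + k : ℕ) : ℝ) - h s (N : ℝ)) - h s ((N + k : ℕ) : ℝ) + h s (N : ℝ) := by ring
  rw [h4]
  refine (norm_add_le _ _).trans ?_
  have h5 := norm_sub_le (S + h s ((N + k : ℕ) : ℝ) - h s (N : ℝ)) (h s ((N + k : ℕ) : ℝ))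
  have h6 : ‖s‖ * (2 / N - 2 / (N + k)) ≤ 16 := by
    have e1 : (2 / (N : ℝ) - 2 / (N + k)) ≤ 2 / N := by
      have : (0 : ℝ) ≤ 2 / (N + k) := by positivity
      linarith
    have e2 : ‖s‖ * (2 / N - 2 / (N + k)) ≤ ‖s‖ * (2 / N) := by gcongr
    refine e2.trans ?_
    have e3 : ‖s‖ * (2 / N) ≤ (3 + T) * (2 / N) := by gcongr
    refine e3.trans ?_
    rw [mul_div_assoc', div_le_iff₀ (by linarith)]
    nlinarith
  linarith

end PM
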