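import Pool.Agent.H24.PM.BIG
import Pool.Agent.H24.PM.BOHR
import Pool.Agent.H24.PM.BT
import Pool.Agent.H24.PM.BW
import Pool.Agent.H24.PM.BW1
import Pool.Agent.H24.PM.CHI
import Pool.Agent.H24.PM.CIR
import Pool.Agent.H24.PM.CND
import Pool.Agent.H24.PM.CNL
import Pool.Agent.H24.PM.CONT
import Pool.Agent.H24.PM.CSL
import Pool.Agent.H24.PM.EUL
import Pool.Agent.H24.PM.EWF
import Pool.Agent.H24.PM.EWL
import Pool.Agent.H24.PM.EWN
import Pool.Agent.H24.PM.EWU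
import Pool.Agent.H24.PM.EXP
import Pool.Agent.H24.PM.FAR
import Pool.Agent.H24.PM.GC
import Pool.Agent.H24.PM.GOOD
import Pool.Agent.H24.PM.IND
import Pool.Agent.H24.PM.INV
import Pool.Agent.H24.PM.JM
import Pool.Agent.H24.PM.LA
import Pool.Agent.H24.PM.LE
import Pool.Agent.H24.PM.LE1
import Pool.Agent.H24.PM.LOC
import Pool.Agent.H24.PM.LRED
import Pool.Agent.H24.PM.M1
import Pool.Agent.H24.PM.MA
import Pool.Agent.H24.PM.MAF
import Pool.Agent.H24.PM.MAN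
import Pool.Agent.H24.PM.MIX
import Pool.Agent.H24.PM.MOM
import Pool.Agent.H24.PM.MOML
import Pool.Agent.H24.PM.MVT
import Pool.Agent.H24.PM.NEAR
import Pool.Agent.H24.PM.NTA
import Pool.Agent.H24.PM.NTC
import Pool.Agent.H24.PM.NTD
import Pool.Agent.H24.PM.NTE
import Pool.Agent.H24.PM.NTF
import Pool.Agent.H24.PM.NTZ
import Pool.Agent.H24.PM.ONE
import Pool.Agent.H24.PM.PLT
import Pool.Agent.H24.PM.PLU
import Pool.Agent.H24.PM.PM
import Pool.Agent.H24.PM.PP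
import Pool.Agent.H24.PM.PROD
import Pool.Agent.H24.PM.RS
import Pool.Agent.H24.PM.RT
import Pool.Agent.H24.PM.SE
import Pool.Agent.H24.PM.SHIFT
import Pool.Agent.H24.PM.SIEVE
import Pool.Agent.H24.PM.SML
import Pool.Agent.H24.PM.SMU
import Pool.Agent.H24.PM.SPLIT
import Pool.Agent.H24.PM.SQF
import Pool.Agent.H24.PM.SS
import Pool.Agent.H24.PM.SUP
import Pool.Agent.H24.PM.TLT
import Pool.Agent.H24.PM.UA
import Pool.Agent.H24.PM.UE
import Pool.Agent.H24.PM.URC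
import Pool.Agent.H24.PM.URE
import Pool.Agent.H24.PM.URED
import Pool.Agent.H24.PM.URK
import Pool.Agent.H24.PM.URM
import Pool.Agent.H24.PM.URS
import Pool.Agent.H24.PM.WEAK
import Pool.Agent.H24.PM.WM
import Pool.Agent.H24.PM.ZAP
import Pool.Agent.H24.PM.ASM

/-! All modules of part 1 put together. -/

namespace PM

theorem tPROD : S_PROD := PROD
theorem tINV : S_INV := INV
theorem tMIX : S_MIX := MIX
theorem tIND : S_IND := IND tMIX
theorem tSHIFT : S_SHIFT := SHIFT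
theorem tCHI : S_CHI := CHI tPROD
theorem tCONT : S_CONT := CONT
theorem tEXP : S_EXP := EXP
theorem tGOOD : S_GOOD := GOOD tEXP
theorem tGC : S_GC := GC
theorem tSUP : S_SUP := SUP tCONT tGC
theorem tLOC : S_LOC := LOC tEXP
theorem tMOM : S_MOM := MOM tPROD tLOC tGC
theorem tMOML : S_MOML := MOML tPROD tLOC tGC
theorem tNTA : S_NTA := NTA
theorem tNTZ : S_NTZ := NTZ
theorem tNTC : S_NTC := NTC tNTZ
theorem tZAP : S_ZAP := ZAP
theorem tMVT : S_MVT := MVT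
theorem tNTD : S_NTD := NTD tNTZ tZAP
theorem tNTE : S_NTE := NTE tNTA tNTD
theorem tNTF : S_NTF := NTF tNTZ tZAP tMVT
theorem tBT : S_BT := BT
theorem tSIEVE : S_SIEVE := SIEVE
theorem tRS : S_RS := RS tBT tNTA
theorem tRT : S_RT := RT tNTA
theorem tSE : S_SE := SE tNTA
theorem tSS : S_SS := SS tNTA
theorem tSQF : S_SQF := SQF tNTA
theorem tEUL : S_EUL := EUL
theorem tPP : S_PP := PP
theorem tPM : S_PM := PM
theorem tPLU : S_PLU := PLU tPP tEUL
theorem tPLT : S_PLT := PLT tPM tEUL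
theorem tJM : S_JM := JM tCONT tEUL
theorem tONE : S_ONE := ONE tMOM tGC tNTA
theorem tFAR : S_FAR := FAR tMOM tGC tNTA tNTD tNTE
theorem tNEAR : S_NEAR := NEAR tMOM tGC tNTA tNTC
theorem tWM : S_WM := WM tGC
theorem tEWF : S_EWF := EWF tFAR tNTF tGC tWM
theorem tEWN : S_EWN := EWN tNEAR tGC tWM
theorem tEWU : S_EWU := EWU tEWF tEWN tWM
theorem tSPLIT : S_SPLIT := SPLIT
theorem tCND : S_CND := CND tMIX tCHI
theorem tCNL : S_CNL := CNL tMIX tCHI
theorem tURC : S_URC := URC tSPLIT tCND tCHI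
theorem tURS : S_URS := URS
theorem tURM : S_URM := URM tRS tRT tPLT
theorem tURE : S_URE := URE tCHI
theorem tURK : S_URK := URK tURC tURS tURM tURE tSE tJM tCONT tCHI
theorem tURED : S_URED := URED tURK tSS tCHI
theorem tLRED : S_LRED := LRED tSPLIT tCNL tSIEVE tCHI
theorem tSMU : S_SMU := SMU tSPLIT tEUL
theorem tBW1 : S_BW1 := BW1
theorem tBW : S_BW := BW tBW1 tMIX
theorem tLA : S_LA := LA tBW tSQF
theorem tBOHR : S_BOHR := BOHR tCHI
theorem tM1 : S_M1 := M1 tMOM tMOML tNTA tGC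
theorem tCIR : S_CIR := CIR tSUP tSHIFT tM1 tCONT
theorem tCSL : S_CSL := CSL tEUL tJM
theorem tWEAK : S_WEAK := WEAK tCIR tINV tJM
theorem tMAN : S_MAN := MAN tCIR tIND tM1 tCONT
theorem tMAF : S_MAF := MAF tCIR tM1 tJM tCONT
theorem tMA : S_MA := MA tMAN tMAF tJM tGC
theorem tTLT : S_TLT := TLT tM1 tGC
theorem tEWL : S_EWL := EWL tONE tTLT tGC tWM tINV tSHIFT
theorem tBIG : S_BIG := BIG tEWL tEWU tCSL tWM tGC
theorem tSML : S_SML := SML tSPLIT tBW1 tMIX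
theorem tUA : S_UA := UA tURED tMA tM1 tSMU tGOOD
theorem tUE : S_UE := UE tURED tWEAK tM1 tSMU tGOOD tJM
theorem tUE1 : S_UE1 := UE1 tURED tWEAK tM1 tSMU tGOOD tJM tCONT
theorem tLE : S_LE := LE tLRED tBIG tWEAK tPLU tJM tSML tGOOD
theorem tLE1 : S_LE1 := LE1 tLRED tBIG tWEAK tPLU tJM tSML tGOOD

end PM
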