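import Pool.Agent.H24.PM.Stmts

/-! Module BIG of project PM: the weak type bound is sharp (second moment method). -/

namespace PM
open MeasureTheory Complex

/-- second moment method -/
theorem BIG_moment {Ω : Type*} [MeasurableSpace Ω] (P : Measure Ω) [IsProbabilityMeasure P]
    (f : Ω → ℝ) (hf : Measurable f) {B : ℝ} (hB : ∀ ω, 0 ≤ f ω ∧ f ω ≤ B) {s : ℝ} (hs : 0 < s) :
    ∫ ω, f ω ∂P ≤ s * P.real {ω | 0 < f ω} + (∫ ω, f ω ^ 2 ∂P) / (4 * s) := by
  have hm : MeasurableSet {ω | 0 < f ω} := measurableSet_lt measurable_const hf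
  have i1 : Integrable (fun ω => s * Set.indicator {ω | 0 < f ω} (fun _ => (1 : ℝ)) ω) P :=
    ((integrable_const (1 : ℝ)).indicator hm).const_mul s
  have i2 : Integrable (fun ω => f ω ^ 2 / (4 * s)) P := by
    refine Integrable.div_const ?_ _
    refine Integrable.of_bound (hf.pow_const 2).aestronglyMeasurable (B ^ 2)
      (Filter.Eventually.of_forall fun ω => ?_)
    rw [Real.norm_eq_abs, abs_of_nonneg (by positivity)]
    exact pow_le_pow_left₀ (hB ω).1 (hB ω).2 2
  have i0 : Integrable f P := by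
    refine Integrable.of_bound hf.aestronglyMeasurable B (Filter.Eventually.of_forall fun ω => ?_)
    rw [Real.norm_eq_abs, abs_of_nonneg (hB ω).1]
    exact (hB ω).2
  have e1 : ∫ ω, Set.indicator {ω | 0 < f ω} (fun _ => (1 : ℝ)) ω ∂P = P.real {ω | 0 < f ω} :=
    integral_indicator_one hm
  rw [← e1, ← integral_const_mul, ← integral_div, ← integral_add i1 i2]
  refine integral_mono i0 (i1.add i2) fun ω => ?_
  show f ω ≤ s * Set.indicator {ω | 0 < f ω} (fun _ => (1 : ℝ)) ω + f ω ^ 2 / (4 * s)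
  by_cases hω : 0 < f ω
  · rw [Set.indicator_of_mem (show ω ∈ {ω | 0 < f ω} from hω), mul_one]
    have : f ω ^ 2 / (4 * s) - (f ω - s) = (f ω - 2 * s) ^ 2 / (4 * s) := by
      field_simp
      ring
    have h2 : 0 ≤ (f ω - 2 * s) ^ 2 / (4 * s) := by positivity
    linarith
  · rw [Set.indicator_of_notMem (show ω ∉ {ω | 0 < f ω} from hω), mul_zero, zero_add]
    have : f ω = 0 := le_antisymm (not_lt.1 hω) (hB ω).1
    rw [this]
    positivity

theorem BIG (hL : S_EWL) (hU : S_EWU) (hC : S_CSL) (hW : S_WM) (hG : S_GC) : S_BIG := by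
  intro γ p0 hg hγ
  have hal : 2 < al γ := by
    unfold al
    have := Real.rpow_lt_rpow_of_exponent_lt (show (1 : ℝ) < 2 by norm_num) hγ
    simpa using this
  have hα : 1 < (al γ) ^ 2 / 4 := by nlinarith
  set β := ((al γ) ^ 2 / 4 - 1) / 2 with hβ
  have hβ0 : 0 < β := by rw [hβ]; linarith
  have hβ1 : β < (al γ) ^ 2 / 4 - 1 := by rw [hβ]; linarith
  obtain ⟨A, κ, c, y1, hA, hκ, hc, hy1, H1⟩ := hL γ p0 hg hγ β hβ0 hβ1
  obtain ⟨C, y2, hCC, hy2, H2⟩ := hU γ p0 hg hγ β A κ hβ0 hβ1 hA hκ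
  refine ⟨Real.exp (-2), c ^ 2 / C, β, max y1 y2, Real.exp_pos _, by positivity, hβ0,
    le_max_of_le_left hy1, ?_⟩
  intro y lam hy hlam1 hlam2
  have hya : y1 ≤ y := (le_max_left _ _).trans hy
  have hyb : y2 ≤ y := (le_max_right _ _).trans hy
  have hy3 : Real.exp 3 ≤ y := hy1.trans hya
  have hY3 : 3 ≤ Real.log y := by
    rw [Real.le_log_iff_exp_le (lt_of_lt_of_le (Real.exp_pos 3) hy3)]; exact hy3
  have hY0 : 0 < Real.log y := by linarith
  have hlam0 : 0 < lam := lt_of_lt_of_le (Real.rpow_pos_of_pos hY0 _) hlam1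
  have hQ0 : 0 < (Real.log y) ^ ((al γ) ^ 2 / 4) := Real.rpow_pos_of_pos hY0 _
  have a1 := H1 y lam hya hlam1 hlam2
  have a2 := H2 y lam hyb hlam1
  obtain ⟨-, w1, ⟨B, w2⟩, w3⟩ := hW γ p0 hg y β κ A lam hy3
  have a3 := BIG_moment P (W γ p0 y β κ A lam) w1 w2 (s := C / (2 * c)) (by positivity)
  set Q := (Real.log y) ^ ((al γ) ^ 2 / 4) with hQ
  have a4 : c ^ 2 / C * Q / lam ≤ P.real {ω | 0 < W γ p0 y β κ A lam ω} := by
    have h1 : (∫ ω, W γ p0 y β κ A lam ω ^ 2 ∂P) / (4 * (C / (2 * c))) ≤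
        (C * Q / lam) / (4 * (C / (2 * c))) :=
      div_le_div_of_nonneg_right a2 (by positivity)
    have h2 : (C * Q / lam) / (4 * (C / (2 * c))) = (c * Q / lam) / 2 := by
      field_simp
      ring
    have h3 : (c * Q / lam) / 2 ≤ C / (2 * c) * P.real {ω | 0 < W γ p0 y β κ A lam ω} := by
      linarith
    have h4 := mul_le_mul_of_nonneg_left h3 (show 0 ≤ 2 * c / C by positivity)
    have h5 : 2 * c / C * (c * Q / lam / 2) = c ^ 2 / C * Q / lam := by
      field_simp
    have h6 : 2 * c / C * (C / (2 * c) * P.real {ω | 0 < W γ p0 y β κ A lam ω}) =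
        P.real {ω | 0 < W γ p0 y β κ A lam ω} := by
      field_simp
    rw [h5, h6] at h4
    exact h4
  refine a4.trans (measureReal_mono ?_)
  intro ω hω
  obtain ⟨t, ht1, k, hk1, hk2, hev⟩ := w3 ω hω
  have hev1 : xk y lam k ≤ G γ (PrS p0 y) (2 / Real.log y) t ω := hev.1.1
  have hpa : PA p0 (PrS p0 y) := by
    intro l hl
    simp only [PrS, Finset.mem_filter, Finset.mem_range] at hl
    exact ⟨hl.2.1, by exact_mod_cast hl.2.2⟩
  have hprime : ∀ l ∈ PrS p0 y, l.Prime := fun l hl => (hpa l hl).1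
  have hln : Ln (PrS p0 y) (2 / Real.log y) := by
    intro l hl
    have hy0 : 0 ≤ y := (Real.exp_pos 3).le.trans hy3
    have hl' := hl
    simp only [PrS, Finset.mem_filter, Finset.mem_range] at hl
    have h1 : (l : ℝ) ≤ y := (Nat.le_floor_iff hy0).1 (Nat.lt_succ_iff.1 hl.1)
    have h0 : (1 : ℝ) ≤ l := by exact_mod_cast hl.2.1.one_lt.le
    have h2 : Real.log l ≤ Real.log y := Real.log_le_log (by linarith) h1
    rw [abs_of_pos (by positivity)]
    calc 2 / Real.log y * Real.log l ≤ 2 / Real.log y * Real.log y := by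
          apply mul_le_mul_of_nonneg_left h2; positivity
      _ = 2 := by field_simp
      _ ≤ 8 := by norm_num
  have hFG := (hG γ p0 hg (PrS p0 y) hpa (2 / Real.log y) hln).2.1 t ω
  have hF : lam * Real.log y * t / Real.exp 1 ≤ ‖F γ (PrS p0 y) (2 / Real.log y) t ω‖ := by
    rw [hFG]
    have h1 : Real.exp (xk y lam k) = lam * Real.log y * Real.exp k := by
      unfold xk
      rw [Real.exp_add, Real.exp_add, Real.exp_log hlam0, Real.exp_log hY0]
    have h2 : t / Real.exp 1 ≤ Real.exp k := by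
      rw [div_le_iff₀ (Real.exp_pos 1), ← Real.exp_add]
      exact hk2
    calc lam * Real.log y * t / Real.exp 1 = lam * Real.log y * (t / Real.exp 1) := by ring
      _ ≤ lam * Real.log y * Real.exp k := mul_le_mul_of_nonneg_left h2 (by positivity)
      _ = Real.exp (xk y lam k) := h1.symm
      _ ≤ _ := Real.exp_le_exp.2 hev1
  have hcs := hC γ (PrS p0 y) (1 / Real.log y) t ω hprime (by positivity)
  have e2 : 2 * (1 / Real.log y) = 2 / Real.log y := by ring
  rw [e2] at hcs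
  show Real.exp (-2) * lam ^ 2 * Real.log y ≤ JD γ (PrS p0 y) (1 / Real.log y) ω
  refine le_trans ?_ hcs
  have hden : (2 / Real.log y) ^ 2 + t ^ 2 ≤ 2 * t ^ 2 := by
    have h1 : 2 / Real.log y ≤ 1 := by
      rw [div_le_one hY0]; linarith
    have h2 : (2 / Real.log y) ^ 2 ≤ 1 := pow_le_one₀ (by positivity) h1
    have h3 : 1 ≤ t ^ 2 := one_le_pow₀ ht1
    linarith
  have hden0 : 0 < (2 / Real.log y) ^ 2 + t ^ 2 := by positivity
  have ht0 : 0 < t := by linarith
  have hsq : (lam * Real.log y * t / Real.exp 1) ^ 2 ≤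
      ‖F γ (PrS p0 y) (2 / Real.log y) t ω‖ ^ 2 := pow_le_pow_left₀ (by positivity) hF 2
  have hexp : Real.exp (-2) = 1 / (Real.exp 1) ^ 2 := by
    rw [← Real.exp_nat_mul, Real.exp_neg]
    norm_num
  calc Real.exp (-2) * lam ^ 2 * Real.log y
      = 2 / Real.log y * (lam * Real.log y * t / Real.exp 1) ^ 2 / (2 * t ^ 2) := by
        rw [hexp]
        field_simp
    _ ≤ 2 / Real.log y * ‖F γ (PrS p0 y) (2 / Real.log y) t ω‖ ^ 2 / (2 * t ^ 2) := by
        apply div_le_div_of_nonneg_right _ (by positivity)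
        exact mul_le_mul_of_nonneg_left hsq (by positivity)
    _ ≤ 2 / Real.log y * ‖F γ (PrS p0 y) (2 / Real.log y) t ω‖ ^ 2 /
        ((2 / Real.log y) ^ 2 + t ^ 2) := by
        apply div_le_div_of_nonneg_left _ hden0 hden
        positivity

end PM
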