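import Mathlib

/-! Pseudomoments of divisor weighted Dirichlet polynomials (MP_d91868_an): definitions. -/

namespace PM
open MeasureTheory Complex

/-- sample space: one point of the circle for every natural number (used at primes only) -/
abbrev Om : Type := ℕ → UnitAddCircle

instance : IsProbabilityMeasure (volume : Measure UnitAddCircle) :=
  ⟨by rw [AddCircle.measure_univ]; simp⟩

/-- infinite product of the Haar probability measures -/
noncomputable def P : Measure Om := Measure.infinitePi (fun _ : ℕ => (volume : Measure UnitAddCircle))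

instance : IsProbabilityMeasure P := by unfold P; infer_instance

/-- the complex coordinate of a point of the circle, exp (2 pi i x) -/
noncomputable def zc (x : UnitAddCircle) : ℂ := fourier 1 x

/-- the random completely multiplicative function -/
noncomputable def chi (n : ℕ) (ω : Om) : ℂ := ∏ p ∈ n.primeFactors, (zc (ω p)) ^ (n.factorization p)

/-- the coefficients d(n)^gamma / sqrt n -/
noncomputable def b (γ : ℝ) (n : ℕ) : ℝ := ((n.divisors.card : ℝ)) ^ γ / Real.sqrt n

/-- the Dirichlet polynomial D_(N,gamma) on the infinite torus -/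
noncomputable def D (γ : ℝ) (N : ℕ) (ω : Om) : ℂ := ∑ n ∈ Finset.Icc 1 N, (b γ n : ℂ) * chi n ω

/-- alpha = 2^gamma, the weight at primes -/
noncomputable def al (γ : ℝ) : ℝ := (2 : ℝ) ^ γ

/-- primes l with u < l and l at most v -/
noncomputable def PrS (u v : ℝ) : Finset ℕ :=
  (Finset.range (⌊v⌋₊ + 1)).filter (fun l => l.Prime ∧ u < l)

/-- partial sum up to z over the integers composed of primes of A -/
noncomputable def DA (γ : ℝ) (A : Finset ℕ) (z : ℝ) (ω : Om) : ℂ :=
  ∑ n ∈ (Finset.Icc 1 ⌊z⌋₊).filter (fun n => n.primeFactors ⊆ A), (b γ n : ℂ) * chi n ω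

/-- local power series sum (k+1)^gamma x^k -/
noncomputable def phi (γ : ℝ) (x : ℂ) : ℂ := ∑' k : ℕ, (((((k : ℝ) + 1) ^ γ : ℝ)) : ℂ) * x ^ k

/-- the local variable z_l l^(-1/2-sigma-it) -/
noncomputable def pt (σ t : ℝ) (l : ℕ) (ω : Om) : ℂ :=
  zc (ω l) * (l : ℂ) ^ (-(1 / 2 + σ + t * I) : ℂ)

/-- the Euler product over A on the line 1/2+sigma at height t -/
noncomputable def F (γ : ℝ) (A : Finset ℕ) (σ t : ℝ) (ω : Om) : ℂ :=
  ∏ l ∈ A, phi γ (pt σ t l ω)

/-- log |F| -/
noncomputable def G (γ : ℝ) (A : Finset ℕ) (σ t : ℝ) (ω : Om) : ℝ :=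
  ∑ l ∈ A, Real.log ‖phi γ (pt σ t l ω)‖

/-- weighted mean square of F on the line 1/2+sigma -/
noncomputable def JF (γ : ℝ) (A : Finset ℕ) (σ : ℝ) (ω : Om) : ℝ :=
  ∫ t : ℝ, ‖F γ A σ t ω‖ ^ 2 / (σ ^ 2 + t ^ 2)

/-- weighted mean square of the partial sums -/
noncomputable def JD (γ : ℝ) (A : Finset ℕ) (σ : ℝ) (ω : Om) : ℝ :=
  ∫ z in Set.Ioi (1 : ℝ), ‖DA γ A z ω‖ ^ 2 * z ^ (-1 - 2 * σ)

/-- sum over l in A of l^(-1-sigma) cos (tau log l) -/
noncomputable def CS (A : Finset ℕ) (σ τ : ℝ) : ℝ :=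
  ∑ l ∈ A, (l : ℝ) ^ (-(1 + σ)) * Real.cos (τ * Real.log l)

/-- p0 is large enough: the local factors are close to 1 for all primes above p0 on all lines used -/
def Good (γ : ℝ) (p0 : ℕ) : Prop :=
  4 * Real.exp 16 ≤ p0 ∧ ∀ x : ℂ, ‖x‖ ≤ Real.exp 8 / Real.sqrt p0 → ‖phi γ x - 1‖ ≤ 1 / 2

/-- A consists of primes above p0 -/
def PA (p0 : ℕ) (A : Finset ℕ) : Prop := ∀ l ∈ A, l.Prime ∧ p0 < l

/-- the line 1/2+sigma is within 8 / log l of the critical line for all l in A -/
def Ln (A : Finset ℕ) (σ : ℝ) : Prop := ∀ l ∈ A, |σ| * Real.log l ≤ 8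

open Classical in
/-- take the coordinates of A from the first point and the others from the second point -/
noncomputable def mix (A : Set ℕ) (q : Om × Om) : Om := fun l => if l ∈ A then q.1 l else q.2 l

end PM
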