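import Pool.Agent.H24.PM.Stmts

/-! Common facts for the modules EWN and EWF. -/

namespace PM
open MeasureTheory Complex

attribute [local irreducible] G PrS

theorem ewb_mem {u v : ℝ} {l : ℕ} (h : l ∈ PrS u v) : l.Prime ∧ u < l ∧ (l : ℝ) ≤ v := by
  rw [PrS] at h
  simp only [Finset.mem_filter, Finset.mem_range] at h
  obtain ⟨h1, h2, h3⟩ := h
  exact ⟨h2, h3, (Nat.le_floor_iff' h2.ne_zero).1 (by omega)⟩

theorem ewb_PA (p0 : ℕ) (v : ℝ) : PA p0 (PrS p0 v) := fun l hl =>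
  ⟨(ewb_mem hl).1, by exact_mod_cast (ewb_mem hl).2.1⟩

theorem ewb_Ln {p0 : ℕ} {y v : ℝ} (hy : 1 ≤ Real.log y) (hv : Real.log v ≤ Real.log y) :
    Ln (PrS p0 v) (2 / Real.log y) := by
  intro l hl
  obtain ⟨h1, h2, h3⟩ := ewb_mem hl
  have hl0 : (0 : ℝ) < l := by exact_mod_cast h1.pos
  have h4 : Real.log l ≤ Real.log y := (Real.log_le_log hl0 h3).trans hv
  have h5 : 0 ≤ Real.log l := Real.log_natCast_nonneg l
  have hY : 0 < Real.log y := by linarith
  rw [abs_of_pos (by positivity)]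
  calc 2 / Real.log y * Real.log l ≤ 2 / Real.log y * Real.log y := by gcongr
    _ = 2 := by field_simp
    _ ≤ 8 := by norm_num

theorem ewb_logxs (s : ℕ) : Real.log (xs s) = Real.exp s := by
  unfold xs; rw [Real.log_exp]

theorem ewb_xs {y : ℝ} {s : ℕ} (hy : 1 ≤ Real.log y) (hs : (s : ℝ) ≤ Real.log (Real.log y)) :
    Real.log (xs s) ≤ Real.log y := by
  rw [ewb_logxs, ← Real.exp_log (show 0 < Real.log y by linarith)]
  exact Real.exp_le_exp.2 hs

theorem ewb_cont (hGC : S_GC) {γ : ℝ} {p0 : ℕ} (hp : Good γ p0) {y v : ℝ}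
    (hy : 1 ≤ Real.log y) (hv : Real.log v ≤ Real.log y) (t : ℝ) :
    Continuous (fun ω : Om => G γ (PrS p0 v) (2 / Real.log y) t ω) ∧
    ∀ ω : Om, |G γ (PrS p0 v) (2 / Real.log y) t ω| ≤ (PrS p0 v).card := by
  obtain ⟨h1, _, h3⟩ := hGC γ p0 hp (PrS p0 v) (ewb_PA p0 v) (2 / Real.log y) (ewb_Ln hy hv)
  have h4 : Continuous (fun ω : Om => ((t, ω) : ℝ × Om)) := by fun_prop
  have h5 := h1.comp h4
  refine ⟨?_, fun ω => h3 t ω⟩
  simpa only [Function.comp_def] using h5

/-- Markov inequality for indicators -/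
theorem ewb_markov {S E : Set Om} (hS : MeasurableSet S) {h : Om → ℝ} (hc : Continuous h)
    {B : ℝ} (hB : ∀ ω, h ω ≤ B) (m : ℝ)
    (hE : E ⊆ {ω | ω ∈ S ∧ m ≤ h ω}) :
    P.real E ≤ Real.exp (-m) * ∫ ω : Om, Set.indicator S (fun ω => Real.exp (h ω)) ω ∂P := by
  have hint : Integrable (Set.indicator S (fun ω => Real.exp (h ω))) P := by
    refine Integrable.indicator ?_ hS
    refine Integrable.of_bound (C := Real.exp B) ((Real.continuous_exp.comp hc).aestronglyMeasurable) ?_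
    refine Filter.Eventually.of_forall fun ω => ?_
    rw [Real.norm_eq_abs, abs_of_pos (Real.exp_pos _)]
    exact Real.exp_le_exp.2 (hB ω)
  have h0 : 0 ≤ᵐ[P] Set.indicator S (fun ω => Real.exp (h ω)) :=
    Filter.Eventually.of_forall fun ω => Set.indicator_nonneg (fun _ _ => (Real.exp_pos _).le) ω
  have h1 := mul_meas_ge_le_integral_of_nonneg h0 hint (Real.exp m)
  have h2 : P.real E ≤ P.real {ω | Real.exp m ≤ Set.indicator S (fun ω => Real.exp (h ω)) ω} := by
    refine measureReal_mono ?_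
    intro ω hω
    obtain ⟨h3, h4⟩ := hE hω
    simp only [Set.mem_ofPred_eq, Set.indicator_of_mem h3]
    exact Real.exp_le_exp.2 h4
  calc P.real E = Real.exp (-m) * (Real.exp m * P.real E) := by
        rw [← mul_assoc, ← Real.exp_add]; simp
    _ ≤ Real.exp (-m) * (Real.exp m *
        P.real {ω | Real.exp m ≤ Set.indicator S (fun ω => Real.exp (h ω)) ω}) := by gcongr
    _ ≤ _ := by gcongr

/-- exp of the level -/
theorem ewb_exk {y lam : ℝ} (hy : 0 < Real.log y) (hl : 0 < lam) (k : ℕ) :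
    Real.exp (-(xk y lam k)) = 1 / (lam * Real.log y * Real.exp k) := by
  unfold xk
  rw [Real.exp_neg, Real.exp_add, Real.exp_add, Real.exp_log hl, Real.exp_log hy, one_div]

end PM
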