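import Pool.Agent.H24.PM.Stmts

/-! Module EWU of project PM: the second moment of the counting functional. -/

namespace PM
open MeasureTheory Complex

theorem EWU_integrable {X : Type*} [MeasurableSpace X] {μ : Measure X} [IsFiniteMeasure μ]
    {f : X → ℝ} (hf : Measurable f) {B : ℝ} (h : ∀ x, |f x| ≤ B) : Integrable f μ :=
  Integrable.of_bound hf.aestronglyMeasurable B (Filter.Eventually.of_forall fun x => by
    simpa [Real.norm_eq_abs] using h x)

theorem EWU_int_bound {X : Type*} [MeasurableSpace X] {μ : Measure X} [IsFiniteMeasure μ]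
    {f : X → ℝ} {B : ℝ} (h0 : ∀ x, 0 ≤ f x) (h1 : ∀ x, f x ≤ B) :
    0 ≤ ∫ x, f x ∂μ ∧ ∫ x, f x ∂μ ≤ B * μ.real Set.univ := by
  refine ⟨integral_nonneg h0, ?_⟩
  have : ∫ x, f x ∂μ ≤ ∫ _x, B ∂μ := by
    refine integral_mono_of_nonneg (Filter.Eventually.of_forall h0) (integrable_const B)
      (Filter.Eventually.of_forall h1)
  simpa [mul_comm] using this

/-- product of two parametric integrals -/
theorem EWU_fubini {Ω : Type*} [MeasurableSpace Ω] (P : Measure Ω) [IsProbabilityMeasure P]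
    (μ ν : Measure ℝ) [IsFiniteMeasure μ] [IsFiniteMeasure ν] (f g : ℝ × Ω → ℝ)
    (hf : Measurable f) (hg : Measurable g) (f0 : ∀ q, 0 ≤ f q) (f1 : ∀ q, f q ≤ 1)
    (g0 : ∀ q, 0 ≤ g q) (g1 : ∀ q, g q ≤ 1) :
    ∫ ω, (∫ t, f (t, ω) ∂μ) * (∫ s, g (s, ω) ∂ν) ∂P =
      ∫ t, ∫ s, (∫ ω, f (t, ω) * g (s, ω) ∂P) ∂ν ∂μ := by
  have hgI : ∀ ω, 0 ≤ (∫ s, g (s, ω) ∂ν) ∧ (∫ s, g (s, ω) ∂ν) ≤ 1 * ν.real Set.univ := fun ω =>
    EWU_int_bound (fun s => g0 (s, ω)) (fun s => g1 (s, ω))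
  have hgm : Measurable fun ω => ∫ s, g (s, ω) ∂ν :=
    (hg.stronglyMeasurable.integral_prod_left').measurable
  have e1 : ∀ ω, (∫ t, f (t, ω) ∂μ) * (∫ s, g (s, ω) ∂ν) =
      ∫ t, f (t, ω) * (∫ s, g (s, ω) ∂ν) ∂μ := fun ω => (integral_mul_const _ _).symm
  simp_rw [e1]
  rw [integral_integral_swap]
  · refine integral_congr_ae (Filter.Eventually.of_forall fun t => ?_)
    have e2 : ∀ ω, f (t, ω) * (∫ s, g (s, ω) ∂ν) = ∫ s, f (t, ω) * g (s, ω) ∂ν :=
      fun ω => (integral_const_mul _ _).symm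
    simp only [e2]
    rw [integral_integral_swap]
    refine EWU_integrable (B := 1) ?_ ?_
    · exact (hf.comp (measurable_const.prodMk measurable_fst)).mul
        (hg.comp (measurable_snd.prodMk measurable_fst))
    · rintro ⟨ω, s⟩
      simp only [Function.uncurry]
      rw [abs_of_nonneg (mul_nonneg (f0 _) (g0 _))]
      exact mul_le_one₀ (f1 _) (g0 _) (g1 _)
  · refine EWU_integrable (B := ν.real Set.univ) ?_ ?_
    · exact (hf.comp (measurable_snd.prodMk measurable_fst)).mul (hgm.comp measurable_fst)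
    · rintro ⟨ω, t⟩
      simp only [Function.uncurry]
      rw [abs_of_nonneg (mul_nonneg (f0 _) (hgI ω).1)]
      calc f (t, ω) * (∫ s, g (s, ω) ∂ν) ≤ 1 * (1 * ν.real Set.univ) :=
            mul_le_mul (f1 _) (hgI ω).2 (hgI ω).1 zero_le_one
        _ = _ := by ring

theorem EWU_card {γ y A lam : ℝ} (hA : 0 ≤ A) :
    ((KW γ y A lam).card : ℝ) ≤ 2 * A * Real.sqrt (Real.log (Real.log y)) + 1 := by
  set S := KW γ y A lam with hS
  set L := 2 * A * Real.sqrt (Real.log (Real.log y)) with hL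
  have hL0 : 0 ≤ L := by positivity
  rcases S.eq_empty_or_nonempty with he | hne
  · rw [he]; simp; linarith
  · have hsub : S ⊆ Finset.Icc (S.min' hne) (S.min' hne + ⌊L⌋₊) := by
      intro k hk
      rw [Finset.mem_Icc]
      refine ⟨Finset.min'_le _ _ hk, ?_⟩
      have hm := Finset.min'_mem S hne
      have h1 : |xk y lam k - (al γ) ^ 2 / 2 * Real.log (Real.log y)| ≤
        A * Real.sqrt (Real.log (Real.log y)) := (Finset.mem_filter.1 hk).2
      have h2 : |xk y lam (S.min' hne) - (al γ) ^ 2 / 2 * Real.log (Real.log y)| ≤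
        A * Real.sqrt (Real.log (Real.log y)) := (Finset.mem_filter.1 hm).2
      have h3 : ((k : ℝ) - (S.min' hne : ℕ)) ≤ L := by
        have a1 := (abs_le.1 h1).2
        have a2 := (abs_le.1 h2).1
        unfold xk at a1 a2
        linarith
      have h4 : k - S.min' hne ≤ ⌊L⌋₊ := by
        apply Nat.le_floor
        rw [Nat.cast_sub (Finset.min'_le _ _ hk)]
        exact h3
      omega
    have h5 := Finset.card_le_card hsub
    rw [Nat.card_Icc] at h5
    have h6 : S.card ≤ ⌊L⌋₊ + 1 := by omega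
    have h7 : (S.card : ℝ) ≤ (⌊L⌋₊ : ℝ) + 1 := by exact_mod_cast h6
    linarith [Nat.floor_le hL0]

/-- separated blocks have no close points -/
theorem EWU_sep {k1 k2 : ℕ} (h : k1 + 2 ≤ k2) {t1 t2 : ℝ}
    (h1 : t1 ∈ Set.Ioc (Real.exp k1) (Real.exp (k1 + 1)))
    (h2 : t2 ∈ Set.Ioc (Real.exp k2) (Real.exp (k2 + 1))) : 1 < t2 - t1 := by
  have a1 : Real.exp (k1 + 2) ≤ Real.exp k2 := by
    apply Real.exp_le_exp.2; exact_mod_cast h
  have a2 : Real.exp ((k1 : ℝ) + 2) = Real.exp (k1 + 1) * Real.exp 1 := by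
    rw [← Real.exp_add]; ring_nf
  have a3 : (2 : ℝ) ≤ Real.exp 1 := by
    have := Real.add_one_le_exp (1 : ℝ); linarith
  have a4 : (2 : ℝ) ≤ Real.exp ((k1 : ℝ) + 1) := by
    have := Real.add_one_le_exp ((k1 : ℝ) + 1)
    have h0 : (0 : ℝ) ≤ k1 := Nat.cast_nonneg _
    linarith
  have a5 : Real.exp (k1 + 1) * 2 ≤ Real.exp ((k1 : ℝ) + 2) := by
    rw [a2]; exact mul_le_mul_of_nonneg_left a3 (Real.exp_pos _).le
  linarith [h1.2, h2.1]

/-- generic second moment functional for a family of events -/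
theorem EWU_setm {Ω : Type*} [MeasurableSpace Ω] {E : ℕ → ℝ → Set Ω}
    (hm : ∀ k : ℕ, Measurable (fun q : ℝ × Ω => Set.indicator (E k q.1) (fun _ => (1 : ℝ)) q.2))
    (k : ℕ) (t : ℝ) : MeasurableSet (E k t) := by
  have h0 : Measurable (fun ω : Ω => ((t, ω) : ℝ × Ω)) := measurable_prodMk_left
  have h1 : Measurable ((fun q : ℝ × Ω => Set.indicator (E k q.1) (fun _ => (1 : ℝ)) q.2) ∘
    (fun ω : Ω => ((t, ω) : ℝ × Ω))) := (hm k).comp h0
  have h2 : E k t = ((fun q : ℝ × Ω => Set.indicator (E k q.1) (fun _ => (1 : ℝ)) q.2) ∘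
    (fun ω : Ω => ((t, ω) : ℝ × Ω))) ⁻¹' {1} := by
    ext ω
    by_cases hω : ω ∈ E k t
    · simp [hω]
    · simp [hω]
  rw [h2]
  exact h1 (measurableSet_singleton 1)

theorem EWU_prob {Ω : Type*} [MeasurableSpace Ω] (P : Measure Ω) {E : ℕ → ℝ → Set Ω}
    (hm : ∀ k : ℕ, Measurable (fun q : ℝ × Ω => Set.indicator (E k q.1) (fun _ => (1 : ℝ)) q.2))
    (k1 k2 : ℕ) (t s : ℝ) :
    ∫ ω, Set.indicator (E k1 t) (fun _ => (1 : ℝ)) ω *
      Set.indicator (E k2 s) (fun _ => (1 : ℝ)) ω ∂P = P.real (E k1 t ∩ E k2 s) := by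
  have h1 := (EWU_setm hm k1 t).inter (EWU_setm hm k2 s)
  rw [← integral_indicator_one h1]
  refine integral_congr_ae (Filter.Eventually.of_forall fun ω => ?_)
  by_cases ha : ω ∈ E k1 t <;> by_cases hb : ω ∈ E k2 s <;> simp [ha, hb]

theorem EWU_pm {Ω : Type*} [MeasurableSpace Ω] (P : Measure Ω) [SFinite P] {E : ℕ → ℝ → Set Ω}
    (hm : ∀ k : ℕ, Measurable (fun q : ℝ × Ω => Set.indicator (E k q.1) (fun _ => (1 : ℝ)) q.2))
    (k1 k2 : ℕ) : Measurable (fun q : ℝ × ℝ => P.real (E k1 q.1 ∩ E k2 q.2)) := by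
  have h1 : (fun q : ℝ × ℝ => P.real (E k1 q.1 ∩ E k2 q.2)) =
      fun q : ℝ × ℝ => ∫ ω, Set.indicator (E k1 q.1) (fun _ => (1 : ℝ)) ω *
      Set.indicator (E k2 q.2) (fun _ => (1 : ℝ)) ω ∂P := by
    funext q
    rw [EWU_prob P hm]
  rw [h1]
  have a1 : Measurable (fun r : (ℝ × ℝ) × Ω => ((r.1.1, r.2) : ℝ × Ω)) :=
    (measurable_fst.comp measurable_fst).prodMk measurable_snd
  have a2 : Measurable (fun r : (ℝ × ℝ) × Ω => ((r.1.2, r.2) : ℝ × Ω)) :=
    (measurable_snd.comp measurable_fst).prodMk measurable_snd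
  have b1 := (hm k1).comp a1
  have b2 := (hm k2).comp a2
  have h2 : Measurable (fun r : (ℝ × ℝ) × Ω =>
      Set.indicator (E k1 r.1.1) (fun _ => (1 : ℝ)) r.2 *
      Set.indicator (E k2 r.1.2) (fun _ => (1 : ℝ)) r.2) := b1.mul b2
  exact (h2.stronglyMeasurable.integral_prod_right').measurable

/-- expansion of the second moment -/
theorem EWU_expand {Ω : Type*} [MeasurableSpace Ω] (P : Measure Ω) [IsProbabilityMeasure P]
    {E : ℕ → ℝ → Set Ω}
    (hm : ∀ k : ℕ, Measurable (fun q : ℝ × Ω => Set.indicator (E k q.1) (fun _ => (1 : ℝ)) q.2))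
    (K : Finset ℕ) (Y : ℝ) :
    ∫ ω, (Y * ∑ k ∈ K, ∫ t in Set.Ioc (Real.exp k) (Real.exp (k + 1)),
      Set.indicator (E k t) (fun _ => (1 : ℝ)) ω) ^ 2 ∂P =
      ∑ k1 ∈ K, ∑ k2 ∈ K, Y ^ 2 *
        ∫ t1 in Set.Ioc (Real.exp k1) (Real.exp (k1 + 1)),
          ∫ t2 in Set.Ioc (Real.exp k2) (Real.exp (k2 + 1)), P.real (E k1 t1 ∩ E k2 t2) := by
  set I : ℕ → Ω → ℝ := fun k ω => ∫ t in Set.Ioc (Real.exp k) (Real.exp (k + 1)),
      Set.indicator (E k t) (fun _ => (1 : ℝ)) ω with hI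
  have hIb : ∀ k ω, 0 ≤ I k ω ∧ I k ω ≤ 1 * (volume.restrict
      (Set.Ioc (Real.exp k) (Real.exp (k + 1)))).real Set.univ := by
    intro k ω
    refine EWU_int_bound (fun t => Set.indicator_nonneg (fun _ _ => zero_le_one) _)
      (fun t => Set.indicator_le_self' (fun _ _ => zero_le_one) _)
  have hIm : ∀ k, Measurable (I k) := fun k =>
    ((hm k).stronglyMeasurable.integral_prod_left').measurable
  have e1 : ∀ ω, (Y * ∑ k ∈ K, I k ω) ^ 2 = ∑ k1 ∈ K, ∑ k2 ∈ K,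
      Y ^ 2 * (I k1 ω * I k2 ω) := by
    intro ω
    rw [mul_pow, pow_two (∑ k ∈ K, I k ω), Finset.sum_mul_sum, Finset.mul_sum]
    refine Finset.sum_congr rfl fun k1 _ => ?_
    rw [Finset.mul_sum]
  have hint : ∀ k1 k2, Integrable (fun ω => Y ^ 2 * (I k1 ω * I k2 ω)) P := by
    intro k1 k2
    refine Integrable.const_mul ?_ _
    refine EWU_integrable (B := (1 * (volume.restrict
      (Set.Ioc (Real.exp k1) (Real.exp (k1 + 1)))).real Set.univ) * (1 * (volume.restrict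
      (Set.Ioc (Real.exp k2) (Real.exp (k2 + 1)))).real Set.univ)) ((hIm k1).mul (hIm k2)) ?_
    intro ω
    rw [abs_of_nonneg (mul_nonneg (hIb k1 ω).1 (hIb k2 ω).1)]
    exact mul_le_mul (hIb k1 ω).2 (hIb k2 ω).2 (hIb k2 ω).1
      (le_trans (hIb k1 ω).1 (hIb k1 ω).2)
  have e2 : ∫ ω, (Y * ∑ k ∈ K, I k ω) ^ 2 ∂P = ∫ ω, ∑ k1 ∈ K, ∑ k2 ∈ K,
      Y ^ 2 * (I k1 ω * I k2 ω) ∂P := integral_congr_ae (Filter.Eventually.of_forall e1)
  rw [e2]
  rw [integral_finsetSum _ fun k1 _ => integrable_finsetSum _ fun k2 _ => hint k1 k2]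
  refine Finset.sum_congr rfl fun k1 _ => ?_
  rw [integral_finsetSum _ fun k2 _ => hint k1 k2]
  refine Finset.sum_congr rfl fun k2 _ => ?_
  rw [integral_const_mul]
  congr 1
  have := EWU_fubini P (volume.restrict (Set.Ioc (Real.exp k1) (Real.exp (k1 + 1))))
    (volume.restrict (Set.Ioc (Real.exp k2) (Real.exp (k2 + 1))))
    (fun q : ℝ × Ω => Set.indicator (E k1 q.1) (fun _ => (1 : ℝ)) q.2)
    (fun q : ℝ × Ω => Set.indicator (E k2 q.1) (fun _ => (1 : ℝ)) q.2)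
    (hm k1) (hm k2)
    (fun q => Set.indicator_nonneg (fun _ _ => zero_le_one) _)
    (fun q => Set.indicator_le_self' (fun _ _ => zero_le_one) _)
    (fun q => Set.indicator_nonneg (fun _ _ => zero_le_one) _)
    (fun q => Set.indicator_le_self' (fun _ _ => zero_le_one) _)
  simp only [hI]
  rw [this]
  simp only [EWU_prob P hm]

/-- splitting the pairs into far and near ones -/
theorem EWU_split (h : ℝ × ℝ → ℝ) (hmeas : Measurable h) (h0 : ∀ q, 0 ≤ h q) (h1 : ∀ q, h q ≤ 1)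
    (k1 k2 : ℕ) :
    ∫ t1 in Set.Ioc (Real.exp k1) (Real.exp (k1 + 1)),
          ∫ t2 in Set.Ioc (Real.exp k2) (Real.exp (k2 + 1)), h (t1, t2) ≤
    (∫ t1 in Set.Ioc (Real.exp k1) (Real.exp (k1 + 1)),
          ∫ t2 in Set.Ioc (Real.exp k2) (Real.exp (k2 + 1)) ∩ {t2 | 1 ≤ |t1 - t2|}, h (t1, t2)) +
    ∫ t1 in Set.Ioc (Real.exp k1) (Real.exp (k1 + 1)),
          ∫ t2 in Set.Ioc (Real.exp k2) (Real.exp (k2 + 1)) ∩ {t2 | |t1 - t2| ≤ 1},
            h (t1, t2) := by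
  set I1 := Set.Ioc (Real.exp k1) (Real.exp (k1 + 1)) with hI1
  set I2 := Set.Ioc (Real.exp k2) (Real.exp (k2 + 1)) with hI2
  have hI2m : MeasurableSet I2 := measurableSet_Ioc
  have fin1 : IsFiniteMeasure (volume.restrict I1) := by rw [hI1]; infer_instance
  have fin2 : IsFiniteMeasure (volume.restrict I2) := by rw [hI2]; infer_instance
  -- general facts on a jointly measurable family of sets
  have key : ∀ S : Set (ℝ × ℝ), MeasurableSet S →
      Integrable (fun t1 : ℝ => ∫ t2 in I2 ∩ {t2 | (t1, t2) ∈ S}, h (t1, t2))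
        (volume.restrict I1) := by
    intro S hS
    have e : (fun t1 : ℝ => ∫ t2 in I2 ∩ {t2 | (t1, t2) ∈ S}, h (t1, t2)) =
        fun t1 : ℝ => ∫ t2 in I2, S.indicator h (t1, t2) := by
      funext t1
      have hs : MeasurableSet {t2 | (t1, t2) ∈ S} := measurable_prodMk_left hS
      rw [Set.inter_comm, ← Measure.restrict_restrict hs, ← integral_indicator hs]
      refine integral_congr_ae (Filter.Eventually.of_forall fun t2 => ?_)
      by_cases ht : (t1, t2) ∈ S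
      · simp [Set.indicator, ht]
      · simp [Set.indicator, ht]
    rw [e]
    have hSm : Measurable (S.indicator h) := hmeas.indicator hS
    refine EWU_integrable (B := 1 * (volume.restrict I2).real Set.univ)
      ((hSm.stronglyMeasurable.integral_prod_right').measurable) ?_
    intro t1
    have := EWU_int_bound (μ := volume.restrict I2) (f := fun t2 => S.indicator h (t1, t2)) (B := 1)
      (fun t2 => Set.indicator_nonneg (fun _ _ => h0 _) _)
      (fun t2 => (Set.indicator_le_self' (fun _ _ => h0 _) _).trans (h1 _))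
    rw [abs_of_nonneg this.1]
    exact this.2
  have hS1 : MeasurableSet {q : ℝ × ℝ | 1 ≤ |q.1 - q.2|} :=
    measurableSet_le measurable_const ((measurable_fst.sub measurable_snd).abs)
  have hS2 : MeasurableSet {q : ℝ × ℝ | |q.1 - q.2| ≤ 1} :=
    measurableSet_le ((measurable_fst.sub measurable_snd).abs) measurable_const
  have k1' : Integrable (fun t1 : ℝ => ∫ t2 in I2 ∩ {t2 | 1 ≤ |t1 - t2|}, h (t1, t2))
        (volume.restrict I1) := key _ hS1
  have k2' : Integrable (fun t1 : ℝ => ∫ t2 in I2 ∩ {t2 | |t1 - t2| ≤ 1}, h (t1, t2))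
        (volume.restrict I1) := key _ hS2
  have k0 : Integrable (fun t1 : ℝ => ∫ t2 in I2, h (t1, t2)) (volume.restrict I1) := by
    have := key Set.univ MeasurableSet.univ
    have e : ∀ t1 : ℝ, I2 ∩ {t2 | (t1, t2) ∈ (Set.univ : Set (ℝ × ℝ))} = I2 := by
      intro t1
      ext t2
      simp
    simp only [e] at this
    exact this
  rw [← integral_add k1' k2']
  refine integral_mono k0 (k1'.add k2') fun t1 => ?_
  have hi : IntegrableOn (fun t2 => h (t1, t2)) I2 :=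
    EWU_integrable (B := 1) (hmeas.comp measurable_prodMk_left)
      (fun t2 => by rw [abs_of_nonneg (h0 _)]; exact h1 _)
  have hm1 : MeasurableSet (I2 ∩ {t2 | |t1 - t2| ≤ 1}) :=
    hI2m.inter (measurableSet_le ((measurable_const.sub measurable_id).abs) measurable_const)
  show ∫ t2 in I2, h (t1, t2) ≤ (∫ t2 in I2 ∩ {t2 | 1 ≤ |t1 - t2|}, h (t1, t2)) +
        ∫ t2 in I2 ∩ {t2 | |t1 - t2| ≤ 1}, h (t1, t2)
  have hA := hi.mono_set (Set.inter_subset_left (s := I2) (t := {t2 | 1 ≤ |t1 - t2|}))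
  have hB := hi.mono_set (Set.inter_subset_left (s := I2) (t := {t2 | |t1 - t2| ≤ 1}))
  have hcov : I2 = ((I2 ∩ {t2 | 1 ≤ |t1 - t2|}) \ (I2 ∩ {t2 | |t1 - t2| ≤ 1})) ∪
      (I2 ∩ {t2 | |t1 - t2| ≤ 1}) := by
    ext t2
    constructor
    · intro ht
      by_cases hc : |t1 - t2| ≤ 1
      · exact Or.inr ⟨ht, hc⟩
      · exact Or.inl ⟨⟨ht, (not_le.1 hc).le⟩, fun hh => hc hh.2⟩
    · rintro (ht | ht)
      · exact ht.1.1
      · exact ht.1
  have hsplit : ∫ t2 in I2, h (t1, t2) =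
      (∫ t2 in (I2 ∩ {t2 | 1 ≤ |t1 - t2|}) \ (I2 ∩ {t2 | |t1 - t2| ≤ 1}), h (t1, t2)) +
        ∫ t2 in I2 ∩ {t2 | |t1 - t2| ≤ 1}, h (t1, t2) := by
    rw [← setIntegral_union Set.disjoint_sdiff_left hm1 (hA.mono_set Set.sdiff_subset) hB, ← hcov]
  have : ∫ t2 in (I2 ∩ {t2 | 1 ≤ |t1 - t2|}) \ (I2 ∩ {t2 | |t1 - t2| ≤ 1}), h (t1, t2) ≤
      ∫ t2 in I2 ∩ {t2 | 1 ≤ |t1 - t2|}, h (t1, t2) :=
    setIntegral_mono_set hA (Filter.Eventually.of_forall fun t2 => h0 _)
      (Set.sdiff_subset).eventuallyLE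
  linarith

theorem EWU (hF : S_EWF) (hN : S_EWN) (hW : S_WM) : S_EWU := by
  intro γ p0 hg hγ β A κ hβ0 hβ hA hκ
  obtain ⟨C1, y1, hC1, hy1, H1⟩ := hF γ p0 hg hγ β A κ hA
  obtain ⟨C2, y2, hC2, hy2, H2⟩ := hN γ p0 hg β κ hβ
  refine ⟨9 * A ^ 2 * C1 + 27 * A * C2, max y1 y2, by positivity, le_max_of_le_left hy1, ?_⟩
  intro y lam hy hlam
  have hya : y1 ≤ y := (le_max_left _ _).trans hy
  have hyb : y2 ≤ y := (le_max_right _ _).trans hy
  have hy3 : Real.exp 3 ≤ y := hy1.trans hya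
  have hY3 : 3 ≤ Real.log y := by
    rw [Real.le_log_iff_exp_le (lt_of_lt_of_le (Real.exp_pos 3) hy3)]; exact hy3
  have hLL : 1 ≤ Real.log (Real.log y) := by
    rw [Real.le_log_iff_exp_le (by linarith)]
    have := Real.exp_one_lt_d9
    linarith
  set Y := Real.log y with hYd
  set LL := Real.log Y with hLLd
  set Q := Y ^ ((al γ) ^ 2 / 4) with hQ
  have hQ0 : 0 < Q := Real.rpow_pos_of_pos (by linarith) _
  have hlam0 : 0 < lam := lt_of_lt_of_le hQ0 hlam
  have hr0 : 0 < Q / lam := by positivity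
  have hr1 : Q / lam ≤ 1 := by rw [div_le_one hlam0]; exact hlam
  have hm := (hW γ p0 hg y β κ A lam hy3).1
  have hcard : ((KW γ y A lam).card : ℝ) ≤ 3 * A * Real.sqrt LL := by
    have h1 := EWU_card (γ := γ) (y := y) (A := A) (lam := lam) (by linarith)
    have h2 : (1 : ℝ) ≤ Real.sqrt LL := by
      rw [Real.one_le_sqrt]; exact hLL
    have h3 : (1 : ℝ) ≤ A * Real.sqrt LL := by nlinarith
    have h4 : 2 * A * Real.sqrt (Real.log (Real.log y)) + 1 =
      2 * (A * Real.sqrt LL) + 1 := by rw [← hYd, ← hLLd]; ring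
    linarith
  have hsq : Real.sqrt LL * Real.sqrt LL = LL := Real.mul_self_sqrt (by linarith)
  have hsq0 : 0 < Real.sqrt LL := Real.sqrt_pos.2 (by linarith)
  have hexp : ∫ ω : Om, (W γ p0 y β κ A lam ω) ^ 2 ∂P =
      ∑ k1 ∈ KW γ y A lam, ∑ k2 ∈ KW γ y A lam, Y ^ 2 *
        ∫ t1 in Set.Ioc (Real.exp k1) (Real.exp (k1 + 1)),
          ∫ t2 in Set.Ioc (Real.exp k2) (Real.exp (k2 + 1)),
            P.real (Ev γ p0 y β κ lam k1 t1 ∩ Ev γ p0 y β κ lam k2 t2) :=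
    EWU_expand P hm (KW γ y A lam) Y
  rw [hexp]
  -- each pair
  have hpair : ∀ k1 ∈ KW γ y A lam, ∀ k2 ∈ KW γ y A lam, Y ^ 2 *
        (∫ t1 in Set.Ioc (Real.exp k1) (Real.exp (k1 + 1)),
          ∫ t2 in Set.Ioc (Real.exp k2) (Real.exp (k2 + 1)),
            P.real (Ev γ p0 y β κ lam k1 t1 ∩ Ev γ p0 y β κ lam k2 t2)) ≤
      C1 / LL * (Q / lam) ^ 2 + if (k1 ≤ k2 + 1 ∧ k2 ≤ k1 + 1) then
        C2 / Real.sqrt LL * (Q / lam) * 3 else 0 := by
    intro k1 hk1 k2 hk2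
    have s1 := EWU_split (fun q : ℝ × ℝ =>
      P.real (Ev γ p0 y β κ lam k1 q.1 ∩ Ev γ p0 y β κ lam k2 q.2)) (EWU_pm P hm k1 k2)
      (fun _ => measureReal_nonneg) (fun _ => measureReal_le_one) k1 k2
    simp only at s1
    have s2 := H1 y lam k1 k2 hya hlam0 hk1 hk2
    have s3 := H2 y lam k1 k2 hyb hlam0
    have hY2 : 0 ≤ Y ^ 2 := by positivity
    have s4 := mul_le_mul_of_nonneg_left s1 hY2
    rw [mul_add] at s4
    refine s4.trans (add_le_add s2 ?_)
    split_ifs with hc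
    · refine s3.trans ?_
      have : Real.exp ((k1 : ℝ) - k2) ≤ 3 := by
        have h1 : (k1 : ℝ) - k2 ≤ 1 := by
          have : (k1 : ℝ) ≤ k2 + 1 := by exact_mod_cast hc.1
          linarith
        have h2 := Real.exp_le_exp.2 h1
        have h3 := Real.exp_one_lt_d9
        linarith
      exact mul_le_mul_of_nonneg_left this (by positivity)
    · have hz : ∫ t1 in Set.Ioc (Real.exp k1) (Real.exp (k1 + 1)),
          ∫ t2 in Set.Ioc (Real.exp k2) (Real.exp (k2 + 1)) ∩ {t2 | |t1 - t2| ≤ 1},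
            P.real (Ev γ p0 y β κ lam k1 t1 ∩ Ev γ p0 y β κ lam k2 t2) = 0 := by
        refine setIntegral_eq_zero_of_forall_eq_zero fun t1 ht1 => ?_
        have hem : Set.Ioc (Real.exp k2) (Real.exp (k2 + 1)) ∩ {t2 | |t1 - t2| ≤ 1} = ∅ := by
          rw [Set.eq_empty_iff_forall_notMem]
          rintro t2 ⟨ht2, ht3⟩
          have ht4 := abs_le.1 (show |t1 - t2| ≤ 1 from ht3)
          rcases (not_and_or.1 hc) with h5 | h5
          · have := EWU_sep (k1 := k2) (k2 := k1) (by omega) ht2 ht1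
            linarith [ht4.2]
          · have := EWU_sep (k1 := k1) (k2 := k2) (by omega) ht1 ht2
            linarith [ht4.1]
        rw [hem]
        simp
      rw [hz, mul_zero]
  have hsum : ∑ k1 ∈ KW γ y A lam, ∑ k2 ∈ KW γ y A lam, Y ^ 2 *
        (∫ t1 in Set.Ioc (Real.exp k1) (Real.exp (k1 + 1)),
          ∫ t2 in Set.Ioc (Real.exp k2) (Real.exp (k2 + 1)),
            P.real (Ev γ p0 y β κ lam k1 t1 ∩ Ev γ p0 y β κ lam k2 t2)) ≤
      ∑ k1 ∈ KW γ y A lam, (((KW γ y A lam).card : ℝ) * (C1 / LL * (Q / lam) ^ 2) +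
        3 * (C2 / Real.sqrt LL * (Q / lam) * 3)) := by
    refine Finset.sum_le_sum fun k1 hk1 => ?_
    refine (Finset.sum_le_sum fun k2 hk2 => hpair k1 hk1 k2 hk2).trans ?_
    rw [Finset.sum_add_distrib, Finset.sum_const, nsmul_eq_mul]
    refine add_le_add le_rfl ?_
    rw [← Finset.sum_filter, Finset.sum_const, nsmul_eq_mul]
    refine mul_le_mul_of_nonneg_right ?_ (by positivity)
    have hsub : (KW γ y A lam).filter (fun k2 => k1 ≤ k2 + 1 ∧ k2 ≤ k1 + 1) ⊆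
        Finset.Icc (k1 - 1) (k1 + 1) := by
      intro k hk
      have := (Finset.mem_filter.1 hk).2
      rw [Finset.mem_Icc]
      omega
    have := Finset.card_le_card hsub
    rw [Nat.card_Icc] at this
    have h3 : ((KW γ y A lam).filter (fun k2 => k1 ≤ k2 + 1 ∧ k2 ≤ k1 + 1)).card ≤ 3 := by omega
    exact_mod_cast h3
  refine hsum.trans ?_
  rw [Finset.sum_const, nsmul_eq_mul]
  set n : ℝ := ((KW γ y A lam).card : ℝ) with hn
  have hn0 : 0 ≤ n := Nat.cast_nonneg _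
  have b1 : n * (n * (C1 / LL * (Q / lam) ^ 2)) ≤ 9 * A ^ 2 * C1 * (Q / lam) := by
    have h1 : n * n ≤ 9 * A ^ 2 * LL := by
      calc n * n ≤ (3 * A * Real.sqrt LL) * (3 * A * Real.sqrt LL) :=
            mul_le_mul hcard hcard hn0 (by positivity)
        _ = 9 * A ^ 2 * (Real.sqrt LL * Real.sqrt LL) := by ring
        _ = 9 * A ^ 2 * LL := by rw [hsq]
    have h2 : (Q / lam) ^ 2 ≤ Q / lam := by
      rw [pow_two]
      exact mul_le_of_le_one_left hr0.le hr1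
    calc n * (n * (C1 / LL * (Q / lam) ^ 2)) = (n * n) * (C1 / LL * (Q / lam) ^ 2) := by ring
      _ ≤ (9 * A ^ 2 * LL) * (C1 / LL * (Q / lam) ^ 2) :=
          mul_le_mul_of_nonneg_right h1 (by positivity)
      _ = 9 * A ^ 2 * C1 * (Q / lam) ^ 2 := by field_simp
      _ ≤ 9 * A ^ 2 * C1 * (Q / lam) := mul_le_mul_of_nonneg_left h2 (by positivity)
  have b2 : n * (3 * (C2 / Real.sqrt LL * (Q / lam) * 3)) ≤ 27 * A * C2 * (Q / lam) := by
    calc n * (3 * (C2 / Real.sqrt LL * (Q / lam) * 3)) ≤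
          (3 * A * Real.sqrt LL) * (3 * (C2 / Real.sqrt LL * (Q / lam) * 3)) :=
          mul_le_mul_of_nonneg_right hcard (by positivity)
      _ = 27 * A * C2 * (Q / lam) := by field_simp; ring
  calc n * (n * (C1 / LL * (Q / lam) ^ 2) + 3 * (C2 / Real.sqrt LL * (Q / lam) * 3))
      = n * (n * (C1 / LL * (Q / lam) ^ 2)) + n * (3 * (C2 / Real.sqrt LL * (Q / lam) * 3)) := by
        ring
    _ ≤ 9 * A ^ 2 * C1 * (Q / lam) + 27 * A * C2 * (Q / lam) := add_le_add b1 b2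
    _ = (9 * A ^ 2 * C1 + 27 * A * C2) * Q / lam := by ring

end PM
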