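import Pool.Agent.H24.PM.H5Fej
import Pool.Agent.H24.PM.M1

/-! helper5: exponents -/

namespace PM
open MeasureTheory Complex

theorem h5_al_pos (γ : ℝ) : 0 < al γ := Real.rpow_pos_of_pos (by norm_num) _

theorem h5_PrS_inter {u v w : ℝ} (hw : 0 ≤ w) (h : w ≤ v) : PrS u v ∩ PrS u w = PrS u w := by
  ext l
  rw [Finset.mem_inter, h5_mem_PrS (by linarith), h5_mem_PrS hw]
  constructor
  · rintro ⟨_, h2⟩; exact h2
  · rintro h2; exact ⟨⟨h2.1, h2.2.1, h2.2.2.trans h⟩, h2⟩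

theorem h5_PrS_empty {u v : ℝ} (hv : 0 ≤ v) (h : v ≤ u) : PrS u v = ∅ := by
  rw [Finset.eq_empty_iff_forall_notMem]
  intro l hl
  rw [h5_mem_PrS hv] at hl
  linarith [hl.2.1, hl.2.2]

theorem h5_LLB (hNTA : S_NTA) (p0 : ℕ) (hp : (2 : ℝ) ≤ p0) : ∃ C : ℝ, 0 < C ∧ ∀ w σ : ℝ,
    Real.exp 1 ≤ w → |σ| * Real.log w ≤ 16 →
    |CS (PrS p0 w) σ 0 - Real.log (Real.log w)| ≤ C := by
  obtain ⟨C, hC, h⟩ := hNTA
  refine ⟨C + |Real.log (Real.log p0)|, by positivity, fun w σ hw hσ => ?_⟩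
  have hw0 : 0 < w := (Real.exp_pos 1).trans_le hw
  have hlw : 1 ≤ Real.log w := by
    rw [← Real.log_exp 1]; exact Real.log_le_log (Real.exp_pos 1) hw
  have hlp : 0 < Real.log (p0 : ℝ) := Real.log_pos (by linarith)
  rcases le_or_gt (p0 : ℝ) w with hpw | hpw
  · have h1 := h p0 w σ hp hpw hσ
    rw [Real.log_div (by linarith) hlp.ne'] at h1
    have h2 := le_abs_self (Real.log (Real.log p0))
    have h3 := neg_abs_le (Real.log (Real.log p0))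
    rw [abs_le] at h1 ⊢
    constructor <;> linarith [h1.1, h1.2]
  · rw [h5_PrS_empty hw0.le hpw.le]
    unfold CS
    rw [Finset.sum_empty, zero_sub, abs_neg]
    have h1 : Real.log (Real.log w) ≤ Real.log (Real.log p0) :=
      Real.log_le_log (by linarith) (Real.log_le_log hw0 hpw.le)
    have h2 : 0 ≤ Real.log (Real.log w) := Real.log_nonneg hlw
    rw [abs_of_nonneg h2]
    linarith [le_abs_self (Real.log (Real.log p0))]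

theorem h5_xs_log (s : ℕ) : Real.log (xs s) = Real.exp s := by
  unfold xs; rw [Real.log_exp]

theorem h5_xs_pos (s : ℕ) : 0 < xs s := Real.exp_pos _

theorem h5_xs_ge (s : ℕ) : Real.exp 1 ≤ xs s := by
  unfold xs
  exact Real.exp_le_exp.mpr (Real.one_le_exp (Nat.cast_nonneg s))

theorem h5_exp_s_le {y : ℝ} (hy : Real.exp 3 ≤ y) {s : ℕ} (hs : (s : ℝ) ≤ Real.log (Real.log y)) :
    Real.exp s ≤ Real.log y := by
  have hly : 3 ≤ Real.log y := by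
    rw [← Real.log_exp 3]; exact Real.log_le_log (Real.exp_pos 3) hy
  rw [← Real.exp_log (by linarith : 0 < Real.log y)]
  exact Real.exp_le_exp.mpr hs

theorem h5_xs_le {y : ℝ} (hy : Real.exp 3 ≤ y) {s : ℕ} (hs : (s : ℝ) ≤ Real.log (Real.log y)) :
    xs s ≤ y := by
  have hy0 : 0 < y := (Real.exp_pos 3).trans_le hy
  unfold xs
  rw [← Real.exp_log hy0]
  exact Real.exp_le_exp.mpr (h5_exp_s_le hy hs)

theorem h5_abs_div (k : ℝ) {y w : ℝ} (hk : 0 ≤ k) (hy : 1 < y) (hw : 0 < w) (hwy : w ≤ y) :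
    |k / Real.log y| * Real.log w ≤ k := by
  have hly : 0 < Real.log y := Real.log_pos hy
  rw [abs_of_nonneg (by positivity)]
  have h1 : Real.log w ≤ Real.log y := Real.log_le_log hw hwy
  calc k / Real.log y * Real.log w ≤ k / Real.log y * Real.log y :=
        mul_le_mul_of_nonneg_left h1 (by positivity)
    _ = k := div_mul_cancel₀ _ hly.ne'

theorem h5_MOM2 (hMOM : S_MOM) (γ : ℝ) (p0 : ℕ) (hg : Good γ p0) (M : ℝ) : ∃ C : ℝ, 0 < C ∧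
    ∀ (a1 a2 : ℂ) (A1 A2 : Finset ℕ) (σ t1 t2 : ℝ), ‖a1‖ ≤ M → ‖a2‖ ≤ M → PA p0 A1 → PA p0 A2 →
    Ln A1 σ → Ln A2 σ →
    ‖∫ ω : Om, Complex.exp (a1 * G γ A1 σ t1 ω + a2 * G γ A2 σ t2 ω) ∂P‖ ≤
      C * Real.exp (((al γ) ^ 2 / 4 * (a1 ^ 2 * CS A1 (σ + σ) 0 + 2 * a1 * a2 *
        CS (A1 ∩ A2) (σ + σ) (t1 - t2) + a2 ^ 2 * CS A2 (σ + σ) 0) : ℂ)).re := by
  obtain ⟨C1, hC1, hU⟩ := hMOM γ p0 hg 2 M
  refine ⟨C1, hC1, fun a1 a2 A1 A2 σ t1 t2 h1 h2 h3 h4 h5 h6 => ?_⟩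
  have h := hU ![a1, a2] ![A1, A2] (fun _ => σ) ![t1, t2]
    (Fin.forall_fin_two.mpr ⟨h1, h2⟩) (Fin.forall_fin_two.mpr ⟨h3, h4⟩)
    (Fin.forall_fin_two.mpr ⟨h5, h6⟩)
  simp only [Fin.sum_univ_two, Matrix.cons_val_zero, Matrix.cons_val_one, sub_self,
    Finset.inter_self] at h
  rw [Finset.inter_comm A2 A1, show t2 - t1 = -(t1 - t2) by ring, h5_CS_neg] at h
  refine h.trans (le_of_eq ?_)
  congr 3
  ring

theorem h5_MOM3 (hMOM : S_MOM) (γ : ℝ) (p0 : ℕ) (hg : Good γ p0) (M : ℝ) : ∃ C : ℝ, 0 < C ∧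
    ∀ (a1 a2 a3 : ℂ) (A1 A2 A3 : Finset ℕ) (σ t1 t2 t3 : ℝ), ‖a1‖ ≤ M → ‖a2‖ ≤ M → ‖a3‖ ≤ M →
    PA p0 A1 → PA p0 A2 → PA p0 A3 → Ln A1 σ → Ln A2 σ → Ln A3 σ →
    ‖∫ ω : Om, Complex.exp (a1 * G γ A1 σ t1 ω + a2 * G γ A2 σ t2 ω + a3 * G γ A3 σ t3 ω) ∂P‖ ≤
      C * Real.exp (((al γ) ^ 2 / 4 * (a1 ^ 2 * CS A1 (σ + σ) 0 + a2 ^ 2 * CS A2 (σ + σ) 0 +
        a3 ^ 2 * CS A3 (σ + σ) 0 + 2 * a1 * a2 * CS (A1 ∩ A2) (σ + σ) (t1 - t2) +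
        2 * a1 * a3 * CS (A1 ∩ A3) (σ + σ) (t1 - t3) +
        2 * a2 * a3 * CS (A2 ∩ A3) (σ + σ) (t2 - t3)) : ℂ)).re := by
  obtain ⟨C1, hC1, hU⟩ := hMOM γ p0 hg 3 M
  refine ⟨C1, hC1, fun a1 a2 a3 A1 A2 A3 σ t1 t2 t3 h1 h2 h3 h4 h5 h6 h7 h8 h9 => ?_⟩
  have f3 : ∀ p : Fin 3 → Prop, p 0 → p 1 → p 2 → ∀ i, p i := by
    intro p q0 q1 q2 i
    fin_cases i
    · exact q0
    · exact q1
    · exact q2
  have h := hU ![a1, a2, a3] ![A1, A2, A3] (fun _ => σ) ![t1, t2, t3]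
    (f3 _ h1 h2 h3) (f3 _ h4 h5 h6) (f3 _ h7 h8 h9)
  simp only [Fin.sum_univ_three, Matrix.cons_val_zero, Matrix.cons_val_one, Matrix.cons_val_two,
    Matrix.tail_cons, Matrix.head_cons, sub_self, Finset.inter_self] at h
  rw [Finset.inter_comm A2 A1, show t2 - t1 = -(t1 - t2) by ring, h5_CS_neg,
    Finset.inter_comm A3 A1, show t3 - t1 = -(t1 - t3) by ring, h5_CS_neg,
    Finset.inter_comm A3 A2, show t3 - t2 = -(t2 - t3) by ring, h5_CS_neg] at h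
  refine h.trans (le_of_eq ?_)
  congr 3
  ring

end PM
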