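import Pool.Agent.H24.PM.H5Tools

/-! helper5: Fejer smoothing -/

namespace PM
open MeasureTheory Complex

/-- Fourier transform of the triangle -/
noncomputable def h5eta (w : ℝ) : ℝ := ∫ v in (-1 : ℝ)..1, (1 - |v|) * Real.cos (v * w)

theorem h5eta_eq (w : ℝ) : h5eta w = 2 * ∫ v in (0 : ℝ)..1, (1 - v) * Real.cos (v * w) := by
  unfold h5eta
  have hc : Continuous (fun v : ℝ => (1 - |v|) * Real.cos (v * w)) := by fun_prop
  rw [← intervalIntegral.integral_add_adjacent_intervals (b := 0) (hc.intervalIntegrable _ _)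
    (hc.intervalIntegrable _ _)]
  have h1 : ∫ v in (-1 : ℝ)..0, (1 - |v|) * Real.cos (v * w) =
      ∫ v in (0 : ℝ)..1, (1 - v) * Real.cos (v * w) := by
    have := intervalIntegral.integral_comp_neg (a := (0 : ℝ)) (b := 1)
      (fun v : ℝ => (1 - |v|) * Real.cos (v * w))
    rw [neg_zero] at this
    rw [← this]
    refine intervalIntegral.integral_congr fun v hv => ?_
    rw [Set.uIcc_of_le (by norm_num)] at hv
    simp only [abs_neg, abs_of_nonneg hv.1, neg_mul, Real.cos_neg]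
  have h2 : ∫ v in (0 : ℝ)..1, (1 - |v|) * Real.cos (v * w) =
      ∫ v in (0 : ℝ)..1, (1 - v) * Real.cos (v * w) := by
    refine intervalIntegral.integral_congr fun v hv => ?_
    rw [Set.uIcc_of_le (by norm_num)] at hv
    simp only [abs_of_nonneg hv.1]
  rw [h1, h2]; ring

theorem h5eta_nonneg (w : ℝ) : 0 ≤ h5eta w := by
  rw [h5eta_eq]
  by_cases hw : w = 0
  · subst hw
    refine mul_nonneg (by norm_num) (intervalIntegral.integral_nonneg (by norm_num) fun v hv => ?_)
    simp only [mul_zero, Real.cos_zero, mul_one]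
    linarith [hv.2]
  · have h : ∫ v in (0 : ℝ)..1, (1 - v) * Real.cos (v * w) = (1 - Real.cos w) / w ^ 2 := by
      have hd : ∀ v ∈ Set.uIcc (0 : ℝ) 1, HasDerivAt
          (fun v : ℝ => (1 - v) * Real.sin (v * w) / w - Real.cos (v * w) / w ^ 2)
          ((1 - v) * Real.cos (v * w)) v := by
        intro v _
        have h1 : HasDerivAt (fun v : ℝ => v * w) w v := by
          simpa using (hasDerivAt_id v).mul_const w
        have h0 : HasDerivAt (fun v : ℝ => 1 - v) (-1) v := by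
          simpa using (hasDerivAt_id v).const_sub 1
        have h2 : HasDerivAt (fun v : ℝ => (1 - v) * Real.sin (v * w) / w)
            ((-1 * Real.sin (v * w) + (1 - v) * (Real.cos (v * w) * w)) / w) v :=
          (h0.mul h1.sin).div_const w
        have h3 : HasDerivAt (fun v : ℝ => Real.cos (v * w) / w ^ 2)
            ((-Real.sin (v * w) * w) / w ^ 2) v := (h1.cos).div_const (w ^ 2)
        refine (h2.sub h3).congr_deriv ?_
        field_simp
        ring
      rw [intervalIntegral.integral_eq_sub_of_hasDerivAt hd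
        (Continuous.intervalIntegrable (by fun_prop) _ _)]
      simp only [sub_self, zero_mul, zero_div, one_mul, Real.cos_zero, Real.sin_zero, mul_zero]
      ring
    rw [h]
    have := Real.cos_le_one w
    have hw2 : 0 < w ^ 2 := by positivity
    exact mul_nonneg (by norm_num) (div_nonneg (by linarith) hw2.le)

theorem h5eta_ge {w : ℝ} (h0 : 0 ≤ w) (h1 : w ≤ 1) : 1 / 2 ≤ h5eta w := by
  rw [h5eta_eq]
  have h : ∫ v in (0 : ℝ)..1, (1 - v) * (1 / 2 : ℝ) ≤ ∫ v in (0 : ℝ)..1, (1 - v) * Real.cos (v * w) := by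
    refine intervalIntegral.integral_mono_on (by norm_num)
      (Continuous.intervalIntegrable (by fun_prop) _ _)
      (Continuous.intervalIntegrable (by fun_prop) _ _) fun v hv => ?_
    refine mul_le_mul_of_nonneg_left ?_ (by linarith [hv.2])
    have h3 := Real.one_sub_sq_div_two_le_cos (x := v * w)
    have h4 : v * w ≤ 1 := by nlinarith [hv.1, hv.2]
    have h5 : 0 ≤ v * w := mul_nonneg hv.1 h0
    nlinarith
  have h2 : ∫ v in (0 : ℝ)..1, (1 - v) * (1 / 2 : ℝ) = 1 / 4 := by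
    rw [intervalIntegral.integral_mul_const, intervalIntegral.integral_sub (by simp) (by simp)]
    simp
    norm_num
  rw [h2] at h
  linarith

theorem h5eta_le (w : ℝ) : |h5eta w| ≤ 2 := by
  unfold h5eta
  have := intervalIntegral.norm_integral_le_of_norm_le_const (a := (-1 : ℝ)) (b := 1)
    (f := fun v : ℝ => (1 - |v|) * Real.cos (v * w)) (C := 1) (fun v hv => by
      rw [Set.uIoc_of_le (by norm_num)] at hv
      have hv1 : |v| ≤ 1 := abs_le.mpr ⟨by linarith [hv.1], hv.2⟩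
      rw [Real.norm_eq_abs, abs_mul]
      have h1 : abs (1 - |v|) ≤ 1 := by
        rw [abs_le]; constructor <;> linarith [abs_nonneg v]
      have h2 := Real.abs_cos_le_one (v * w)
      nlinarith [abs_nonneg (1 - |v|), abs_nonneg (Real.cos (v * w))])
  rw [Real.norm_eq_abs] at this
  refine this.trans (le_of_eq ?_)
  norm_num

theorem h5eta_cont : Continuous h5eta := by
  unfold h5eta
  exact intervalIntegral.continuous_parametric_intervalIntegral_of_continuous' (by fun_prop) _ _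

/-- one dimensional Fejer smoothing bound -/
theorem h5fej {X : Om → ℝ} {Φ : Om → ℂ} (hX : Continuous X) (hΦ : Continuous Φ)
    {B : ℝ} (hB : ∀ ω, ‖Φ ω‖ ≤ B) (x : ℝ) {K c : ℝ} (hK : 0 ≤ K) (hc : 0 < c)
    (h : ∀ v : ℝ, |v| ≤ 1 → ‖∫ ω : Om, Complex.exp ((v * X ω : ℝ) * I) * Φ ω ∂P‖ ≤
      K * Real.exp (-c * v ^ 2)) :
    ‖∫ ω : Om, (h5eta (X ω - x) : ℂ) * Φ ω ∂P‖ ≤ K * Real.sqrt (Real.pi / c) := by
  have hB0 : 0 ≤ B := (norm_nonneg _).trans (hB 0)
  have e1 : ∫ ω : Om, (h5eta (X ω - x) : ℂ) * Φ ω ∂P =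
      ∫ ω : Om, (∫ v in Set.Ioc (-1 : ℝ) 1,
        (((1 - |v|) * Real.cos (v * (X ω - x)) : ℝ) : ℂ) * Φ ω) ∂P := by
    refine integral_congr_ae (Filter.Eventually.of_forall fun ω => ?_)
    simp only
    rw [integral_mul_const]
    congr 1
    unfold h5eta
    rw [intervalIntegral.integral_of_le (by norm_num)]
    exact (integral_ofReal (𝕜 := ℂ)).symm
  have hcont : Continuous (fun q : Om × ℝ =>
      (((1 - |q.2|) * Real.cos (q.2 * (X q.1 - x)) : ℝ) : ℂ) * Φ q.1) := by fun_prop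
  have hint : Integrable (fun q : Om × ℝ =>
      (((1 - |q.2|) * Real.cos (q.2 * (X q.1 - x)) : ℝ) : ℂ) * Φ q.1)
      (P.prod (volume.restrict (Set.Ioc (-1 : ℝ) 1))) := by
    refine Integrable.mono' (g := fun _ => B) (integrable_const _)
      hcont.aestronglyMeasurable ?_
    have : ∀ᵐ q ∂(P.prod (volume.restrict (Set.Ioc (-1 : ℝ) 1))), q.2 ∈ Set.Ioc (-1 : ℝ) 1 := by
      have h1 : ∀ᵐ v ∂(volume.restrict (Set.Ioc (-1 : ℝ) 1)), v ∈ Set.Ioc (-1 : ℝ) 1 :=
        ae_restrict_mem measurableSet_Ioc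
      exact Measure.quasiMeasurePreserving_snd.ae h1
    filter_upwards [this] with q hq
    rw [norm_mul, Complex.norm_real, Real.norm_eq_abs, abs_mul]
    have hv1 : |q.2| ≤ 1 := abs_le.mpr ⟨by linarith [hq.1], hq.2⟩
    have h1 : abs (1 - |q.2|) ≤ 1 := by
      rw [abs_le]; constructor <;> linarith [abs_nonneg q.2]
    have h2 := Real.abs_cos_le_one (q.2 * (X q.1 - x))
    have h3 : abs (1 - |q.2|) * |Real.cos (q.2 * (X q.1 - x))| ≤ 1 := by
      nlinarith [abs_nonneg (1 - |q.2|), abs_nonneg (Real.cos (q.2 * (X q.1 - x)))]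
    calc abs (1 - |q.2|) * |Real.cos (q.2 * (X q.1 - x))| * ‖Φ q.1‖
        ≤ 1 * B := mul_le_mul h3 (hB q.1) (norm_nonneg _) (by norm_num)
      _ = B := one_mul B
  have hswap : ∫ ω : Om, (∫ v in Set.Ioc (-1 : ℝ) 1,
        (((1 - |v|) * Real.cos (v * (X ω - x)) : ℝ) : ℂ) * Φ ω) ∂P =
      ∫ v in Set.Ioc (-1 : ℝ) 1, (∫ ω : Om,
        (((1 - |v|) * Real.cos (v * (X ω - x)) : ℝ) : ℂ) * Φ ω ∂P) :=
    integral_integral_swap hint
  have hexpint : ∀ v : ℝ, Integrable (fun ω : Om => Complex.exp ((v * X ω : ℝ) * I) * Φ ω) P := by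
    intro v
    have hc1 : Continuous (fun ω : Om => Complex.exp ((v * X ω : ℝ) * I) * Φ ω) := by fun_prop
    refine Integrable.mono' (g := fun _ => B) (integrable_const _)
      hc1.aestronglyMeasurable (Filter.Eventually.of_forall fun ω => ?_)
    rw [norm_mul, Complex.norm_exp_ofReal_mul_I, one_mul]
    exact hB ω
  have hin : ∀ v : ℝ, |v| ≤ 1 → ‖∫ ω : Om,
      (((1 - |v|) * Real.cos (v * (X ω - x)) : ℝ) : ℂ) * Φ ω ∂P‖ ≤ K * Real.exp (-c * v ^ 2) := by
    intro v hv
    have e2 : ∀ ω : Om, (((1 - |v|) * Real.cos (v * (X ω - x)) : ℝ) : ℂ) * Φ ω =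
        ((1 - |v| : ℝ) : ℂ) / 2 * (Complex.exp ((-(v * x) : ℝ) * I) *
          (Complex.exp ((v * X ω : ℝ) * I) * Φ ω) + Complex.exp ((v * x : ℝ) * I) *
          (Complex.exp (((-v) * X ω : ℝ) * I) * Φ ω)) := by
      intro ω
      rw [Complex.ofReal_mul, Complex.ofReal_cos, Complex.cos]
      rw [← mul_assoc (Complex.exp _) (Complex.exp _) (Φ ω), ← mul_assoc (Complex.exp _) (Complex.exp _) (Φ ω),
        ← Complex.exp_add, ← Complex.exp_add]
      have a1 : ((-(v * x) : ℝ) * I + ((v * X ω : ℝ) : ℂ) * I) = (v * (X ω - x) : ℝ) * I := by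
        push_cast; ring
      have a2 : (((v * x) : ℝ) * I + (((-v) * X ω : ℝ) : ℂ) * I) = -(v * (X ω - x) : ℝ) * I := by
        push_cast; ring
      rw [a1, a2]
      ring
    simp_rw [e2]
    rw [integral_const_mul, integral_add ((hexpint v).const_mul _) ((hexpint (-v)).const_mul _),
      integral_const_mul, integral_const_mul, norm_mul]
    have n1 : ‖((1 - |v| : ℝ) : ℂ) / 2‖ ≤ 1 / 2 := by
      rw [norm_div, Complex.norm_real, Real.norm_eq_abs]
      have h1 : abs (1 - |v|) ≤ 1 := by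
        rw [abs_le]; constructor <;> linarith [abs_nonneg v]
      norm_num
      linarith
    have n2 := h v hv
    have n3 := h (-v) (by rw [abs_neg]; exact hv)
    rw [neg_sq] at n3
    have n4 : ‖Complex.exp ((-(v * x) : ℝ) * I) * ∫ ω : Om, Complex.exp ((v * X ω : ℝ) * I) * Φ ω ∂P +
        Complex.exp ((v * x : ℝ) * I) * ∫ ω : Om, Complex.exp (((-v) * X ω : ℝ) * I) * Φ ω ∂P‖ ≤
        2 * (K * Real.exp (-c * v ^ 2)) := by
      refine (norm_add_le _ _).trans ?_
      rw [norm_mul, norm_mul, Complex.norm_exp_ofReal_mul_I, Complex.norm_exp_ofReal_mul_I, one_mul,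
        one_mul]
      linarith
    calc _ ≤ 1 / 2 * (2 * (K * Real.exp (-c * v ^ 2))) :=
          mul_le_mul n1 n4 (norm_nonneg _) (by norm_num)
      _ = _ := by ring
  rw [e1, hswap]
  have hgi : Integrable (fun v : ℝ => K * Real.exp (-c * v ^ 2)) :=
    (integrable_exp_neg_mul_sq hc).const_mul K
  calc ‖∫ v in Set.Ioc (-1 : ℝ) 1, (∫ ω : Om,
        (((1 - |v|) * Real.cos (v * (X ω - x)) : ℝ) : ℂ) * Φ ω ∂P)‖
      ≤ ∫ v in Set.Ioc (-1 : ℝ) 1, K * Real.exp (-c * v ^ 2) := by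
        refine norm_integral_le_of_norm_le hgi.integrableOn ?_
        filter_upwards [ae_restrict_mem measurableSet_Ioc] with v hv
        exact hin v (abs_le.mpr ⟨by linarith [hv.1], hv.2⟩)
    _ ≤ ∫ v : ℝ, K * Real.exp (-c * v ^ 2) :=
        setIntegral_le_integral hgi (Filter.Eventually.of_forall fun v => by positivity)
    _ = K * Real.sqrt (Real.pi / c) := by
        rw [integral_const_mul, integral_gaussian]

/-- the indicator of a unit window is dominated -/
theorem h5ind_le (X : Om → ℝ) (x : ℝ) (f : Om → ℝ) (hf : ∀ ω, 0 ≤ f ω) (ω : Om) :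
    Set.indicator {ω | x ≤ X ω ∧ X ω ≤ x + 1} f ω ≤ 2 * (h5eta (X ω - x) * f ω) := by
  by_cases h : ω ∈ {ω | x ≤ X ω ∧ X ω ≤ x + 1}
  · rw [Set.indicator_of_mem h]
    have h1 := h5eta_ge (w := X ω - x) (by linarith [h.1]) (by linarith [h.2])
    have := hf ω
    nlinarith
  · rw [Set.indicator_of_notMem h]
    exact mul_nonneg (by norm_num) (mul_nonneg (h5eta_nonneg _) (hf ω))

/-- one window -/
theorem h5win1 {X : Om → ℝ} {H : Om → ℝ} (hX : Continuous X) (hH : Continuous H)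
    {B : ℝ} (hB : ∀ ω, H ω ≤ B) (x : ℝ) {K c : ℝ} (hK : 0 ≤ K) (hc : 0 < c)
    (h : ∀ v : ℝ, |v| ≤ 1 → ‖∫ ω : Om, Complex.exp ((v * X ω : ℝ) * I + (H ω : ℝ)) ∂P‖ ≤
      K * Real.exp (-c * v ^ 2)) :
    ∫ ω : Om, Set.indicator {ω | x ≤ X ω ∧ X ω ≤ x + 1} (fun ω => Real.exp (H ω)) ω ∂P ≤
      2 * (K * Real.sqrt (Real.pi / c)) := by
  have hb : ∀ ω, ‖(Real.exp (H ω) : ℂ)‖ ≤ Real.exp B := by
    intro ω
    rw [Complex.norm_real, Real.norm_eq_abs, abs_of_pos (Real.exp_pos _)]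
    exact Real.exp_le_exp.mpr (hB ω)
  have hΦ : Continuous (fun ω : Om => ((Real.exp (H ω) : ℝ) : ℂ)) := by fun_prop
  have hf := h5fej hX hΦ hb x hK hc (by
    intro v hv
    refine le_trans (le_of_eq ?_) (h v hv)
    congr 1
    refine integral_congr_ae (Filter.Eventually.of_forall fun ω => ?_)
    simp only
    rw [Complex.exp_add, Complex.ofReal_exp])
  have hcont : Continuous (fun ω : Om => h5eta (X ω - x) * Real.exp (H ω)) :=
    (h5eta_cont.comp (hX.sub continuous_const)).mul hH.rexp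
  have hint : Integrable (fun ω : Om => h5eta (X ω - x) * Real.exp (H ω)) P := by
    refine Integrable.mono' (g := fun _ => 2 * Real.exp B) (integrable_const _)
      hcont.aestronglyMeasurable (Filter.Eventually.of_forall fun ω => ?_)
    rw [norm_mul, Real.norm_eq_abs, Real.norm_eq_abs, abs_of_pos (Real.exp_pos _)]
    exact mul_le_mul (h5eta_le _) (Real.exp_le_exp.mpr (hB ω)) (Real.exp_pos _).le (by norm_num)
  have h1 : ∫ ω : Om, Set.indicator {ω | x ≤ X ω ∧ X ω ≤ x + 1} (fun ω => Real.exp (H ω)) ω ∂P ≤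
      ∫ ω : Om, 2 * (h5eta (X ω - x) * Real.exp (H ω)) ∂P := by
    refine integral_mono_of_nonneg (Filter.Eventually.of_forall fun ω => ?_) (hint.const_mul 2)
      (Filter.Eventually.of_forall fun ω => ?_)
    · exact Set.indicator_nonneg (fun _ _ => (Real.exp_pos _).le) ω
    · exact h5ind_le X x _ (fun _ => (Real.exp_pos _).le) ω
  refine h1.trans ?_
  rw [integral_const_mul]
  refine mul_le_mul_of_nonneg_left ?_ (by norm_num)
  have e : ∫ ω : Om, (h5eta (X ω - x) : ℂ) * ((Real.exp (H ω) : ℝ) : ℂ) ∂P =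
      ((∫ ω : Om, h5eta (X ω - x) * Real.exp (H ω) ∂P : ℝ) : ℂ) := by
    rw [← integral_complex_ofReal]
    refine integral_congr_ae (Filter.Eventually.of_forall fun ω => ?_)
    simp only
    push_cast
    rfl
  rw [e, Complex.norm_real, Real.norm_eq_abs] at hf
  exact (le_abs_self _).trans hf

/-- two windows -/
theorem h5win2 {X Y : Om → ℝ} {H : Om → ℝ} (hX : Continuous X) (hY : Continuous Y)
    (hH : Continuous H)
    {B : ℝ} (hB : ∀ ω, H ω ≤ B) (x y : ℝ) {K c : ℝ} (hK : 0 ≤ K) (hc : 0 < c)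
    (h : ∀ v w : ℝ, |v| ≤ 1 → |w| ≤ 1 →
      ‖∫ ω : Om, Complex.exp ((v * X ω : ℝ) * I + ((w * Y ω : ℝ) * I + (H ω : ℝ))) ∂P‖ ≤
      K * Real.exp (-c * v ^ 2) * Real.exp (-c * w ^ 2)) :
    ∫ ω : Om, Set.indicator {ω | (x ≤ X ω ∧ X ω ≤ x + 1) ∧ (y ≤ Y ω ∧ Y ω ≤ y + 1)}
      (fun ω => Real.exp (H ω)) ω ∂P ≤
      4 * (K * Real.sqrt (Real.pi / c) * Real.sqrt (Real.pi / c)) := by
  have hb : ∀ ω, ‖(Real.exp (H ω) : ℂ)‖ ≤ Real.exp B := by
    intro ω
    rw [Complex.norm_real, Real.norm_eq_abs, abs_of_pos (Real.exp_pos _)]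
    exact Real.exp_le_exp.mpr (hB ω)
  have hΦ : Continuous (fun ω : Om => ((Real.exp (H ω) : ℝ) : ℂ)) := by fun_prop
  -- first smoothing in Y
  have hf1 : ∀ v : ℝ, |v| ≤ 1 → ‖∫ ω : Om, Complex.exp ((v * X ω : ℝ) * I) *
      ((h5eta (Y ω - y) : ℂ) * ((Real.exp (H ω) : ℝ) : ℂ)) ∂P‖ ≤
      K * Real.sqrt (Real.pi / c) * Real.exp (-c * v ^ 2) := by
    intro v hv
    have hΨ : Continuous (fun ω : Om => Complex.exp ((v * X ω : ℝ) * I) *
      ((Real.exp (H ω) : ℝ) : ℂ)) := by fun_prop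
    have hbΨ : ∀ ω, ‖Complex.exp ((v * X ω : ℝ) * I) * ((Real.exp (H ω) : ℝ) : ℂ)‖ ≤ Real.exp B := by
      intro ω
      rw [norm_mul, Complex.norm_exp_ofReal_mul_I, one_mul]
      exact hb ω
    have hf := h5fej hY hΨ hbΨ y (K := K * Real.exp (-c * v ^ 2)) (c := c) (by positivity) hc (by
      intro w hw
      refine le_trans (le_of_eq ?_) (h v w hv hw)
      congr 1
      refine integral_congr_ae (Filter.Eventually.of_forall fun ω => ?_)
      simp only
      rw [Complex.exp_add, Complex.exp_add, Complex.ofReal_exp]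
      ring)
    refine le_trans (le_of_eq ?_) (hf.trans (le_of_eq (by ring)))
    congr 1
    refine integral_congr_ae (Filter.Eventually.of_forall fun ω => ?_)
    simp only
    ring
  have hΘ : Continuous (fun ω : Om => (h5eta (Y ω - y) : ℂ) * ((Real.exp (H ω) : ℝ) : ℂ)) :=
    (Complex.continuous_ofReal.comp (h5eta_cont.comp (hY.sub continuous_const))).mul hΦ
  have hbΘ : ∀ ω, ‖(h5eta (Y ω - y) : ℂ) * ((Real.exp (H ω) : ℝ) : ℂ)‖ ≤ 2 * Real.exp B := by
    intro ω
    rw [norm_mul]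
    refine mul_le_mul ?_ (hb ω) (norm_nonneg _) (by norm_num)
    rw [Complex.norm_real, Real.norm_eq_abs]
    exact h5eta_le _
  have hf := h5fej hX hΘ hbΘ x (K := K * Real.sqrt (Real.pi / c)) (by positivity) hc hf1
  have hcont : Continuous (fun ω : Om => h5eta (X ω - x) * (h5eta (Y ω - y) * Real.exp (H ω))) :=
    (h5eta_cont.comp (hX.sub continuous_const)).mul
      ((h5eta_cont.comp (hY.sub continuous_const)).mul hH.rexp)
  have hint : Integrable (fun ω : Om => h5eta (X ω - x) * (h5eta (Y ω - y) * Real.exp (H ω))) P := by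
    refine Integrable.mono' (g := fun _ => 2 * (2 * Real.exp B)) (integrable_const _)
      hcont.aestronglyMeasurable (Filter.Eventually.of_forall fun ω => ?_)
    rw [norm_mul, norm_mul, Real.norm_eq_abs, Real.norm_eq_abs, Real.norm_eq_abs,
      abs_of_pos (Real.exp_pos _)]
    refine mul_le_mul (h5eta_le _) ?_ (by positivity) (by norm_num)
    exact mul_le_mul (h5eta_le _) (Real.exp_le_exp.mpr (hB ω)) (Real.exp_pos _).le (by norm_num)
  have h1 : ∫ ω : Om, Set.indicator {ω | (x ≤ X ω ∧ X ω ≤ x + 1) ∧ (y ≤ Y ω ∧ Y ω ≤ y + 1)}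
      (fun ω => Real.exp (H ω)) ω ∂P ≤
      ∫ ω : Om, 4 * (h5eta (X ω - x) * (h5eta (Y ω - y) * Real.exp (H ω))) ∂P := by
    refine integral_mono_of_nonneg (Filter.Eventually.of_forall fun ω => ?_) (hint.const_mul 4)
      (Filter.Eventually.of_forall fun ω => ?_)
    · exact Set.indicator_nonneg (fun _ _ => (Real.exp_pos _).le) ω
    · simp only
      by_cases hm : ω ∈ {ω | (x ≤ X ω ∧ X ω ≤ x + 1) ∧ (y ≤ Y ω ∧ Y ω ≤ y + 1)}
      · rw [Set.indicator_of_mem hm]
        have g1 := h5eta_ge (w := X ω - x) (by linarith [hm.1.1]) (by linarith [hm.1.2])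
        have g2 := h5eta_ge (w := Y ω - y) (by linarith [hm.2.1]) (by linarith [hm.2.2])
        have g3 := Real.exp_pos (H ω)
        have g4 : (1 / 2) * Real.exp (H ω) ≤ h5eta (Y ω - y) * Real.exp (H ω) :=
          mul_le_mul_of_nonneg_right g2 g3.le
        have g5 : (1 / 2) * ((1 / 2) * Real.exp (H ω)) ≤
            h5eta (X ω - x) * (h5eta (Y ω - y) * Real.exp (H ω)) :=
          mul_le_mul g1 g4 (by positivity) (by linarith)
        linarith
      · rw [Set.indicator_of_notMem hm]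
        exact mul_nonneg (by norm_num) (mul_nonneg (h5eta_nonneg _)
          (mul_nonneg (h5eta_nonneg _) (Real.exp_pos _).le))
  refine h1.trans ?_
  rw [integral_const_mul]
  refine mul_le_mul_of_nonneg_left ?_ (by norm_num)
  have e : ∫ ω : Om, (h5eta (X ω - x) : ℂ) * ((h5eta (Y ω - y) : ℂ) * ((Real.exp (H ω) : ℝ) : ℂ)) ∂P =
      ((∫ ω : Om, h5eta (X ω - x) * (h5eta (Y ω - y) * Real.exp (H ω)) ∂P : ℝ) : ℂ) := by
    rw [← integral_complex_ofReal]
    refine integral_congr_ae (Filter.Eventually.of_forall fun ω => ?_)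
    simp only
    push_cast
    rfl
  rw [e, Complex.norm_real, Real.norm_eq_abs] at hf
  exact (le_abs_self _).trans hf

end PM
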