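import Pool.Agent.H24.PM.Stmts

/-! helper5: small tools about PrS and CS -/

namespace PM
open MeasureTheory Complex

theorem h5_mem_PrS {u v : ℝ} (hv : 0 ≤ v) {l : ℕ} :
    l ∈ PrS u v ↔ l.Prime ∧ u < l ∧ (l : ℝ) ≤ v := by
  unfold PrS
  rw [Finset.mem_filter, Finset.mem_range]
  constructor
  · rintro ⟨h1, h2, h3⟩
    exact ⟨h2, h3, (Nat.le_floor_iff hv).mp (by omega)⟩
  · rintro ⟨h2, h3, h1⟩
    exact ⟨by have := (Nat.le_floor_iff hv).mpr h1; omega, h2, h3⟩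

theorem h5_PrS_split {u w v : ℝ} (hu : 0 ≤ u) (huw : u ≤ w) (hwv : w ≤ v) :
    PrS u v = PrS u w ∪ PrS w v := by
  ext l
  rw [Finset.mem_union, h5_mem_PrS (by linarith), h5_mem_PrS (by linarith),
    h5_mem_PrS (by linarith)]
  constructor
  · rintro ⟨h1, h2, h3⟩
    rcases le_or_gt (l : ℝ) w with h | h
    · exact Or.inl ⟨h1, h2, h⟩
    · exact Or.inr ⟨h1, h, h3⟩
  · rintro (⟨h1, h2, h3⟩ | ⟨h1, h2, h3⟩)
    · exact ⟨h1, h2, by linarith⟩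
    · exact ⟨h1, by linarith, h3⟩

theorem h5_PrS_disj {u w v : ℝ} (hu : 0 ≤ u) (huw : u ≤ w) (hwv : w ≤ v) :
    Disjoint (PrS u w) (PrS w v) := by
  rw [Finset.disjoint_left]
  intro l h1 h2
  rw [h5_mem_PrS (by linarith)] at h1 h2
  linarith [h1.2.2, h2.2.1]

theorem h5_CS_split {u w v σ τ : ℝ} (hu : 0 ≤ u) (huw : u ≤ w) (hwv : w ≤ v) :
    CS (PrS u v) σ τ = CS (PrS u w) σ τ + CS (PrS w v) σ τ := by
  unfold CS
  rw [h5_PrS_split hu huw hwv, Finset.sum_union (h5_PrS_disj hu huw hwv)]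

theorem h5_CS_le {u v σ τ : ℝ} : CS (PrS u v) σ τ ≤ CS (PrS u v) σ 0 := by
  unfold CS
  refine Finset.sum_le_sum fun l _ => ?_
  refine mul_le_mul_of_nonneg_left ?_ (by positivity)
  rw [zero_mul, Real.cos_zero]
  exact Real.cos_le_one _

theorem h5_CS_abs_le {A : Finset ℕ} {σ τ : ℝ} : |CS A σ τ| ≤ CS A σ 0 := by
  unfold CS
  refine (Finset.abs_sum_le_sum_abs _ _).trans (Finset.sum_le_sum fun l _ => ?_)
  rw [abs_mul, zero_mul, Real.cos_zero, abs_of_nonneg (by positivity : (0 : ℝ) ≤ (l : ℝ) ^ (-(1 + σ)))]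
  exact mul_le_mul_of_nonneg_left (Real.abs_cos_le_one _) (by positivity)

theorem h5_CS_neg {A : Finset ℕ} {σ τ : ℝ} : CS A σ (-τ) = CS A σ τ := by
  unfold CS
  refine Finset.sum_congr rfl fun l _ => ?_
  rw [neg_mul, Real.cos_neg]

end PM
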