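import Pool.Agent.H24.PM.EWB

/-! Common facts for the modules LE and LE1. -/

namespace PM
open MeasureTheory Complex

attribute [local irreducible] G PrS

theorem leb_chi_cont (n : ℕ) : Continuous (chi n) := by
  unfold chi
  refine continuous_finsetProd _ fun p _ => ?_
  refine Continuous.pow ?_ _
  unfold zc
  exact (fourier 1).continuous.comp (continuous_apply p)

theorem leb_chi_norm (n : ℕ) (ω : Om) : ‖chi n ω‖ = 1 := by
  unfold chi
  rw [norm_prod]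
  refine Finset.prod_eq_one fun p _ => ?_
  rw [norm_pow]
  have : ‖zc (ω p)‖ = 1 := by
    unfold zc
    rw [fourier_apply]
    exact Circle.norm_coe _
  rw [this, one_pow]

theorem leb_b_nonneg (γ : ℝ) (n : ℕ) : 0 ≤ b γ n := by unfold b; positivity

/-- bound of all partial sums up to Z -/
noncomputable def lebB (γ Z : ℝ) : ℝ := ∑ n ∈ Finset.Icc 1 ⌊Z⌋₊, b γ n

theorem leb_B_nonneg (γ Z : ℝ) : 0 ≤ lebB γ Z := Finset.sum_nonneg fun _ _ => leb_b_nonneg _ _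

theorem leb_DA_bound (γ : ℝ) (A : Finset ℕ) {z Z : ℝ} (hz : z ≤ Z) (ω : Om) :
    ‖DA γ A z ω‖ ≤ lebB γ Z := by
  unfold DA lebB
  refine (norm_sum_le _ _).trans ?_
  have h1 : ∀ n : ℕ, ‖(b γ n : ℂ) * chi n ω‖ = b γ n := fun n => by
    rw [norm_mul, leb_chi_norm, mul_one, Complex.norm_real, Real.norm_eq_abs,
      abs_of_nonneg (leb_b_nonneg _ _)]
  simp only [h1]
  refine Finset.sum_le_sum_of_subset_of_nonneg ?_ fun _ _ _ => leb_b_nonneg _ _
  refine (Finset.filter_subset _ _).trans ?_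
  exact Finset.Icc_subset_Icc_right (Nat.floor_le_floor hz)

theorem leb_DA_cont (γ : ℝ) (A : Finset ℕ) (z : ℝ) : Continuous (fun ω => DA γ A z ω) := by
  unfold DA
  exact continuous_finsetSum _ fun n _ => continuous_const.mul (leb_chi_cont n)

theorem leb_DA_meas (γ : ℝ) (A : Finset ℕ) (ω : Om) : Measurable (fun z : ℝ => DA γ A z ω) := by
  have h1 : Measurable (fun m : ℕ => ∑ n ∈ (Finset.Icc 1 m).filter (fun n => n.primeFactors ⊆ A),
      (b γ n : ℂ) * chi n ω) := measurable_from_nat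
  exact h1.comp Nat.measurable_floor

/-- the mean square in LRED -/
noncomputable def leS (γ : ℝ) (A : Finset ℕ) (Z : ℝ) (ω : Om) : ℝ :=
  ∫ z in Set.Ioc (1 : ℝ) Z, ‖DA γ A z ω‖ ^ 2 / z

theorem leb_S_meas (γ : ℝ) (A : Finset ℕ) (Z : ℝ) (ω : Om) :
    AEStronglyMeasurable (fun z : ℝ => ‖DA γ A z ω‖ ^ 2 / z)
      (volume.restrict (Set.Ioc (1 : ℝ) Z)) :=
  (((leb_DA_meas γ A ω).norm.pow_const 2).div measurable_id).aestronglyMeasurable

theorem leb_S_pt (γ : ℝ) (A : Finset ℕ) {z Z : ℝ} (hz : z ∈ Set.Ioc (1 : ℝ) Z) (ω : Om) :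
    ‖‖DA γ A z ω‖ ^ 2 / z‖ ≤ lebB γ Z ^ 2 := by
  have h1 := leb_DA_bound γ A hz.2 ω
  have hz0 : 0 < z := lt_trans one_pos hz.1
  rw [Real.norm_eq_abs, abs_of_nonneg (by positivity), div_le_iff₀ hz0]
  have h2 : ‖DA γ A z ω‖ ^ 2 ≤ lebB γ Z ^ 2 := by gcongr
  nlinarith [sq_nonneg (lebB γ Z), hz.1]

theorem leb_S_int (γ : ℝ) (A : Finset ℕ) (Z : ℝ) (ω : Om) :
    IntegrableOn (fun z : ℝ => ‖DA γ A z ω‖ ^ 2 / z) (Set.Ioc (1 : ℝ) Z) := by
  refine Measure.integrableOn_of_bounded (M := lebB γ Z ^ 2)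
    (by rw [Real.volume_Ioc]; exact ENNReal.ofReal_ne_top)
    (((leb_DA_meas γ A ω).norm.pow_const 2).div measurable_id).aestronglyMeasurable ?_
  exact (ae_restrict_iff' measurableSet_Ioc).2
    (Filter.Eventually.of_forall fun z hz => leb_S_pt γ A hz ω)

theorem leb_S_cont (γ : ℝ) (A : Finset ℕ) (Z : ℝ) : Continuous (leS γ A Z) := by
  unfold leS
  refine continuous_of_dominated (bound := fun _ => lebB γ Z ^ 2)
    (fun ω => leb_S_meas γ A Z ω) (fun ω => ?_) (integrable_const _)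
    (Filter.Eventually.of_forall fun z => ?_)
  · exact (ae_restrict_iff' measurableSet_Ioc).2
      (Filter.Eventually.of_forall fun z hz => leb_S_pt γ A hz ω)
  · exact ((leb_DA_cont γ A z).norm.pow 2).div_const z

theorem leb_S_nonneg (γ : ℝ) (A : Finset ℕ) (Z : ℝ) (ω : Om) : 0 ≤ leS γ A Z ω := by
  unfold leS
  refine setIntegral_nonneg measurableSet_Ioc fun z hz => ?_
  have hz0 : 0 < z := lt_trans one_pos hz.1
  positivity

theorem leb_S_bound (γ : ℝ) (A : Finset ℕ) (Z : ℝ) : ∃ B : ℝ, ∀ ω, leS γ A Z ω ≤ B := by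
  refine ⟨lebB γ Z ^ 2 * volume.real (Set.Ioc (1 : ℝ) Z), fun ω => ?_⟩
  have h1 := norm_setIntegral_le_of_norm_le_const (μ := volume) (s := Set.Ioc (1 : ℝ) Z)
    (f := fun z : ℝ => ‖DA γ A z ω‖ ^ 2 / z) (C := lebB γ Z ^ 2)
    (by rw [Real.volume_Ioc]; exact ENNReal.ofReal_lt_top) (fun z hz => leb_S_pt γ A hz ω)
  exact (le_abs_self _).trans h1

/-- comparison of the two weighted means -/
theorem leb_JD (hJM : S_JM) (γ : ℝ) (A : Finset ℕ) (hA : ∀ l ∈ A, l.Prime) {Y Z κ : ℝ}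
    (hY : 0 < Y) (hZ : 1 ≤ Z) (hκ : Real.log Z = κ * Y) (ω : Om) :
    JD γ A (1 / Y) ω ≤ leS γ A Z ω + Real.exp (-κ) * JD γ A (1 / (2 * Y)) ω := by
  have hi1 := (hJM γ A (1 / Y) hA (by have : 0 < 1 / Y := by positivity
                                      linarith) (by positivity)).2.2.2 (by positivity)
  have hi2 := (hJM γ A (1 / (2 * Y)) hA (by have : 0 < 1 / (2 * Y) := by positivity
                                            linarith) (by positivity)).2.2.2 (by positivity)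
  have hi1 := hi1.2 ω
  have hi2 := hi2.2 ω
  unfold JD
  rw [← Set.Ioc_union_Ioi_eq_Ioi hZ, setIntegral_union Set.Ioc_disjoint_Ioi_same measurableSet_Ioi
    (hi1.mono_set Set.Ioc_subset_Ioi_self) (hi1.mono_set (Set.Ioi_subset_Ioi hZ))]
  have h1 : ∫ z in Set.Ioc (1 : ℝ) Z, ‖DA γ A z ω‖ ^ 2 * z ^ (-1 - 2 * (1 / Y)) ≤ leS γ A Z ω := by
    unfold leS
    refine setIntegral_mono_on (hi1.mono_set Set.Ioc_subset_Ioi_self) (leb_S_int γ A Z ω)
      measurableSet_Ioc fun z hz => ?_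
    rw [div_eq_mul_inv]
    refine mul_le_mul_of_nonneg_left ?_ (by positivity)
    have h0 : 0 < 1 / Y := by positivity
    calc z ^ (-1 - 2 * (1 / Y)) ≤ z ^ (-1 : ℝ) :=
          Real.rpow_le_rpow_of_exponent_le hz.1.le (by linarith)
      _ = z⁻¹ := Real.rpow_neg_one z
  have h2 : ∫ z in Set.Ioi Z, ‖DA γ A z ω‖ ^ 2 * z ^ (-1 - 2 * (1 / Y)) ≤
      Real.exp (-κ) * ∫ z in Set.Ioi Z, ‖DA γ A z ω‖ ^ 2 * z ^ (-1 - 2 * (1 / (2 * Y))) := by
    rw [← integral_const_mul]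
    refine setIntegral_mono_on (hi1.mono_set (Set.Ioi_subset_Ioi hZ))
      ((hi2.mono_set (Set.Ioi_subset_Ioi hZ)).const_mul _) measurableSet_Ioi fun z hz => ?_
    have hz0 : 0 < z := lt_of_lt_of_le one_pos (hZ.trans (le_of_lt hz))
    have hZ0 : 0 < Z := by linarith
    have h3 : z ^ (-1 - 2 * (1 / Y)) = z ^ (-(1 / Y)) * z ^ (-1 - 2 * (1 / (2 * Y))) := by
      rw [← Real.rpow_add hz0]; congr 1; field_simp; ring
    have h4 : z ^ (-(1 / Y)) ≤ Real.exp (-κ) := by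
      calc z ^ (-(1 / Y)) ≤ Z ^ (-(1 / Y)) :=
            Real.rpow_le_rpow_of_nonpos hZ0 (le_of_lt hz) (by
              have : 0 < 1 / Y := by positivity
              linarith)
        _ = Real.exp (-κ) := by
            rw [Real.rpow_def_of_pos hZ0, hκ]; congr 1; field_simp
    rw [h3]
    have h5 : 0 ≤ ‖DA γ A z ω‖ ^ 2 * z ^ (-1 - 2 * (1 / (2 * Y))) := by positivity
    calc ‖DA γ A z ω‖ ^ 2 * (z ^ (-(1 / Y)) * z ^ (-1 - 2 * (1 / (2 * Y)))) =
          z ^ (-(1 / Y)) * (‖DA γ A z ω‖ ^ 2 * z ^ (-1 - 2 * (1 / (2 * Y)))) := by ring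
      _ ≤ _ := mul_le_mul_of_nonneg_right h4 h5
  have h6 : ∫ z in Set.Ioi Z, ‖DA γ A z ω‖ ^ 2 * z ^ (-1 - 2 * (1 / (2 * Y))) ≤
      ∫ z in Set.Ioc 1 Z ∪ Set.Ioi Z, ‖DA γ A z ω‖ ^ 2 * z ^ (-1 - 2 * (1 / (2 * Y))) := by
    rw [Set.Ioc_union_Ioi_eq_Ioi hZ]
    refine setIntegral_mono_set hi2 ?_ (Filter.Eventually.of_forall (Set.Ioi_subset_Ioi hZ))
    exact (ae_restrict_iff' measurableSet_Ioi).2 (Filter.Eventually.of_forall fun z hz => by
      have hz0 : (0 : ℝ) < z := lt_trans one_pos hz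
      have : 0 ≤ ‖DA γ A z ω‖ ^ 2 * z ^ (-1 - 2 * (1 / (2 * Y))) := by positivity
      exact this)
  have h7 := mul_le_mul_of_nonneg_left h6 (Real.exp_pos (-κ)).le
  linarith

/-- the mean square is large with the expected probability -/
theorem leb_main (hBIG : S_BIG) (hWEAK : S_WEAK) (hPLU : S_PLU) (hJM : S_JM) {γ : ℝ} {p0 : ℕ}
    (hp : Good γ p0) (hγ : 1 < γ) : ∃ c1 c2 c3 : ℝ, 0 < c1 ∧ 0 < c2 ∧ 0 < c3 ∧ ∃ K1 : ℕ,
    ∀ K : ℕ, K1 ≤ K → 1 ≤ K → ∃ y1 : ℝ, Real.exp 3 ≤ y1 ∧ ∀ (N : ℕ) (y lam : ℝ), y1 ≤ y →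
    y = (N : ℝ) ^ (1 / (K : ℝ)) → (Real.log y) ^ ((al γ) ^ 2 / 4) ≤ lam →
    lam ≤ (Real.log y) ^ ((al γ) ^ 2 / 4 + c3) →
    c2 * (Real.log y) ^ ((al γ) ^ 2 / 4) / lam ≤
      P.real {ω | c1 * lam ^ 2 * Real.log y ≤ leS γ (PrS p0 y) ((N : ℝ) ^ (1 / 3 : ℝ)) ω} := by
  obtain ⟨c1, c2, c3, y0, hc1, hc2, hc3, hy0, hB⟩ := hBIG γ p0 hp hγ
  obtain ⟨C, hC, hW⟩ := hWEAK γ p0 hp
  -- K with C / (sqrt (pi c1) exp (K/6)) ≤ c2 / 2
  obtain ⟨K1, hK1⟩ := exists_nat_ge (6 * (2 * C / (c2 * Real.sqrt (Real.pi * c1))))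
  refine ⟨c1 / 2, c2 / 2, c3, by positivity, by positivity, hc3, K1, fun K hK hK1' => ?_⟩
  refine ⟨max y0 ((p0 : ℝ) + 1), hy0.trans (le_max_left _ _), fun N y lam hy hyN hl1 hl2 => ?_⟩
  have hyy0 : y0 ≤ y := (le_max_left _ _).trans hy
  have hyp : (p0 : ℝ) + 1 ≤ y := (le_max_right _ _).trans hy
  have hy00 : 0 < y := lt_of_lt_of_le (Real.exp_pos _) (hy0.trans hyy0)
  have h3 : 3 ≤ Real.log y := by
    rw [Real.le_log_iff_exp_le hy00]; exact hy0.trans hyy0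
  set Y := Real.log y with hY
  have hY0 : 0 < Y := by linarith
  set Q := Y ^ ((al γ) ^ 2 / 4) with hQ
  have hQ0 : 0 < Q := Real.rpow_pos_of_pos hY0 _
  have hlam : 0 < lam := hQ0.trans_le hl1
  have hN0 : 0 < N := by
    rcases Nat.eq_zero_or_pos N with h | h
    · exfalso
      rw [h] at hyN
      rw [Nat.cast_zero, Real.zero_rpow (by positivity)] at hyN
      linarith
    · exact h
  have hN1 : (1 : ℝ) ≤ N := by exact_mod_cast hN0
  have hYN : Y = Real.log N / K := by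
    rw [hY, hyN, Real.log_rpow (by linarith)]; ring
  have hKpos : (0 : ℝ) < K := by exact_mod_cast hK1'
  set Z := (N : ℝ) ^ (1 / 3 : ℝ) with hZ
  have hZ1 : 1 ≤ Z := Real.one_le_rpow hN1 (by norm_num)
  have hZl : Real.log Z = (K : ℝ) / 3 * Y := by
    rw [hZ, Real.log_rpow (by linarith), hYN]; field_simp
  have hA : ∀ l ∈ PrS p0 y, l.Prime := fun l hl => (ewb_mem hl).1
  have hcmp := fun ω => leb_JD hJM γ (PrS p0 y) hA hY0 hZ1 hZl ω
  -- big
  have hbig := hB y lam hyy0 hl1 hl2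
  rw [← hY, ← hQ] at hbig
  -- weak
  set μ : ℝ := lam * Real.sqrt (Real.pi * c1) * Real.exp (K / 6) with hμ
  have hsq : 0 < Real.sqrt (Real.pi * c1) := Real.sqrt_pos.2 (by positivity)
  have hμ0 : 0 < μ := by rw [hμ]; positivity
  have hsmall := hW y (1 / (2 * Y)) μ hyp (by
      rw [← hY, abs_of_pos (by positivity)]
      rw [show 4 * (1 / (2 * Y)) * Y = 2 by field_simp; norm_num]; norm_num) (by
      rw [← hY, abs_of_pos (by positivity)]
      rw [show 1 / (2 * Y) * Y = 1 / 2 by field_simp]; norm_num) hμ0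
  rw [← hY, ← hQ] at hsmall
  have hCμ : C * Q / μ ≤ c2 / 2 * Q / lam := by
    rw [hμ, div_le_div_iff₀ (by positivity) hlam]
    have h5 : 2 * C / (c2 * Real.sqrt (Real.pi * c1)) ≤ Real.exp (K / 6) := by
      have h6 : 2 * C / (c2 * Real.sqrt (Real.pi * c1)) ≤ (K : ℝ) / 6 := by
        have : (K1 : ℝ) ≤ K := by exact_mod_cast hK
        linarith
      have := Real.add_one_le_exp ((K : ℝ) / 6)
      linarith
    have h6 : 2 * C ≤ Real.exp (K / 6) * (c2 * Real.sqrt (Real.pi * c1)) := by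
      rwa [div_le_iff₀ (by positivity)] at h5
    have h7 : 0 ≤ Q * lam := by positivity
    nlinarith
  have hμ2 : μ ^ 2 = Real.pi * c1 * lam ^ 2 * Real.exp (K / 3) := by
    rw [hμ, mul_pow, mul_pow, Real.sq_sqrt (by positivity), ← Real.exp_nat_mul]
    rw [show ((2 : ℕ) : ℝ) * ((K : ℝ) / 6) = (K : ℝ) / 3 by push_cast; ring]
    ring
  have hset : {ω | c1 * lam ^ 2 * Y ≤ JD γ (PrS p0 y) (1 / Y) ω} ⊆
      {ω | c1 / 2 * lam ^ 2 * Y ≤ leS γ (PrS p0 y) Z ω} ∪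
      {ω | μ ^ 2 * Y ≤ JF γ (PrS p0 y) (1 / (2 * Y)) ω} := by
    intro ω hω
    by_contra hcon
    rw [Set.mem_union, not_or] at hcon
    obtain ⟨h5, h6⟩ := hcon
    rw [Set.mem_ofPred_eq, not_le] at h5 h6
    have h7 := hcmp ω
    rw [hPLU γ (PrS p0 y) (1 / (2 * Y)) ω hA (by positivity)] at h7
    have h8 : c1 * lam ^ 2 * Y ≤ JD γ (PrS p0 y) (1 / Y) ω := hω
    rw [hμ2] at h6
    have h9 : Real.exp (-((K : ℝ) / 3)) * (1 / (2 * Real.pi) * JF γ (PrS p0 y) (1 / (2 * Y)) ω) <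
        c1 / 2 * lam ^ 2 * Y := by
      have h10 : Real.exp (-((K : ℝ) / 3)) * Real.exp (K / 3) = 1 := by
        rw [← Real.exp_add]; simp
      calc _ < Real.exp (-((K : ℝ) / 3)) * (1 / (2 * Real.pi) *
            (Real.pi * c1 * lam ^ 2 * Real.exp (K / 3) * Y)) := by gcongr
        _ = (Real.exp (-((K : ℝ) / 3)) * Real.exp (K / 3)) * (c1 / 2 * lam ^ 2 * Y) := by
            field_simp
        _ = _ := by rw [h10, one_mul]
    linarith
  have h1 := (measureReal_mono (μ := P) hset).trans (measureReal_union_le _ _)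
  have h2 : c2 * Q / lam = c2 / 2 * Q / lam + c2 / 2 * Q / lam := by ring
  linarith

/-- trivial lower bound -/
theorem leb_small (hSML : S_SML) (γ p : ℝ) (hp : 0 < p) (N : ℕ) (hN : 1 ≤ N) :
    1 ≤ ∫ ω : Om, ‖D γ N ω‖ ^ p ∂P := by
  refine le_trans (le_of_eq ?_) (hSML γ N p hp N hN)
  have h1 : ∀ ω : Om, ‖DA γ (PrS (N : ℝ) (N : ℝ)) (N : ℝ) ω‖ ^ p = 1 := by
    intro ω
    have hA : PrS (N : ℝ) (N : ℝ) = ∅ := by
      rw [Finset.eq_empty_iff_forall_notMem]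
      intro l hl
      obtain ⟨_, h2, h3⟩ := ewb_mem hl
      linarith
    have hDA : DA γ (PrS (N : ℝ) (N : ℝ)) (N : ℝ) ω = 1 := by
      rw [hA]
      unfold DA
      have hf : (Finset.Icc 1 ⌊(N : ℝ)⌋₊).filter (fun n => n.primeFactors ⊆ ∅) = {1} := by
        ext n
        simp only [Nat.floor_natCast, Finset.mem_filter, Finset.mem_Icc, Finset.subset_empty,
          Finset.mem_singleton, Nat.primeFactors_eq_empty]
        omega
      rw [hf, Finset.sum_singleton]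
      unfold b chi
      simp
    rw [hDA, norm_one, Real.one_rpow]
  simp only [h1]
  simp

end PM
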