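import Pool.Agent.H24.PM.Red

/-! Layer decomposition and crude second moment. -/

namespace PM
open MeasureTheory Complex

lemma layer_point {p Q X : ℝ} (hp : 0 < p) (hQ : 0 < Q) (hX : 0 ≤ X) (K : ℕ) :
    X ^ p ≤ Q ^ p * (1 + ∑ k ∈ Finset.range K, (2 : ℝ) ^ (((k : ℝ) + 1) * p) *
      (if (2 : ℝ) ^ k * Q ≤ X then 1 else 0)) + (if (2 : ℝ) ^ K * Q ≤ X then X ^ p else 0) := by
  induction K with
  | zero =>
    simp only [Finset.range_zero, Finset.sum_empty, add_zero, mul_one, pow_zero, one_mul]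
    split_ifs with h
    · linarith [Real.rpow_nonneg hQ.le p]
    · have : X ^ p ≤ Q ^ p := Real.rpow_le_rpow hX (not_le.1 h).le hp.le
      linarith
  | succ K ih =>
    rw [Finset.sum_range_succ]
    refine ih.trans ?_
    have hQp : 0 ≤ Q ^ p := Real.rpow_nonneg hQ.le p
    by_cases h1 : (2 : ℝ) ^ K * Q ≤ X
    · simp only [h1, if_true, mul_one]
      split_ifs with h2
      · have h3 : 0 ≤ Q ^ p * (2 : ℝ) ^ (((K : ℝ) + 1) * p) := by positivity
        nlinarith
      · have h3 : X ^ p ≤ Q ^ p * (2 : ℝ) ^ (((K : ℝ) + 1) * p) := by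
          have h4 : X ≤ Q * (2 : ℝ) ^ ((K : ℝ) + 1) := by
            have : (2 : ℝ) ^ ((K : ℝ) + 1) = (2 : ℝ) ^ (K + 1) := by
              rw [← Real.rpow_natCast]; push_cast; rfl
            rw [this]
            linarith [not_le.1 h2]
          calc X ^ p ≤ (Q * (2 : ℝ) ^ ((K : ℝ) + 1)) ^ p := Real.rpow_le_rpow hX h4 hp.le
            _ = _ := by rw [Real.mul_rpow hQ.le (by positivity), ← Real.rpow_mul (by norm_num)]
        nlinarith
    · have h2 : ¬ (2 : ℝ) ^ (K + 1) * Q ≤ X := by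
        intro h2
        apply h1
        refine le_trans ?_ h2
        apply mul_le_mul_of_nonneg_right _ hQ.le
        exact pow_le_pow_right₀ (by norm_num) (Nat.le_succ K)
      simp [h1, h2]

/-- layer bound for the moments from a weak type bound -/
lemma layer_bound {X : Om → ℝ} (hXm : Measurable X) (hX0 : ∀ ω, 0 ≤ X ω) {B : ℝ}
    (hXB : ∀ ω, X ω ≤ B) {p Q C : ℝ} (hp : 0 < p) (hQ : 0 < Q)
    (hw : ∀ μ : ℝ, 0 < μ → P.real {ω | μ ≤ X ω} ≤ C * Q / μ) (K : ℕ) :
    ∫ ω : Om, X ω ^ p ∂P ≤ Q ^ p * (1 + ∑ k ∈ Finset.range K, (2 : ℝ) ^ (((k : ℝ) + 1) * p) *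
      (C / (2 : ℝ) ^ k)) + ∫ ω : Om, (if (2 : ℝ) ^ K * Q ≤ X ω then X ω ^ p else 0) ∂P := by
  have hms : ∀ μ : ℝ, MeasurableSet {ω | μ ≤ X ω} := fun μ => measurableSet_le measurable_const hXm
  have hXp : Measurable (fun ω => X ω ^ p) := hXm.pow_const p
  have hbd : ∀ ω, X ω ^ p ≤ B ^ p := fun ω => Real.rpow_le_rpow (hX0 ω) (hXB ω) hp.le
  have i1 : Integrable (fun ω => X ω ^ p) P := by
    apply Integrable.of_bound hXp.aestronglyMeasurable (B ^ p)
    filter_upwards with ω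
    rw [Real.norm_of_nonneg (Real.rpow_nonneg (hX0 ω) _)]
    exact hbd ω
  have i2 : ∀ μ : ℝ, Integrable (fun ω => if μ ≤ X ω then (1 : ℝ) else 0) P := by
    intro μ
    apply Integrable.of_bound (C := 1)
    · exact (Measurable.ite (hms μ) measurable_const measurable_const).aestronglyMeasurable
    · filter_upwards with ω
      split_ifs <;> simp
  have i3 : Integrable (fun ω => if (2 : ℝ) ^ K * Q ≤ X ω then X ω ^ p else 0) P := by
    apply Integrable.mono i1
    · exact (Measurable.ite (hms _) hXp measurable_const).aestronglyMeasurable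
    · filter_upwards with ω
      split_ifs
      · exact le_rfl
      · simp
  have e1 : ∀ μ : ℝ, ∫ ω : Om, (if μ ≤ X ω then (1 : ℝ) else 0) ∂P = P.real {ω | μ ≤ X ω} := by
    intro μ
    have : (fun ω => if μ ≤ X ω then (1 : ℝ) else 0) = Set.indicator {ω | μ ≤ X ω} (fun _ => 1) := by
      ext ω
      simp [Set.indicator_apply]
    rw [this, integral_indicator (hms μ)]
    simp
  calc ∫ ω : Om, X ω ^ p ∂P
      ≤ ∫ ω : Om, (Q ^ p * (1 + ∑ k ∈ Finset.range K, (2 : ℝ) ^ (((k : ℝ) + 1) * p) *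
      (if (2 : ℝ) ^ k * Q ≤ X ω then 1 else 0)) + (if (2 : ℝ) ^ K * Q ≤ X ω then X ω ^ p else 0)) ∂P := by
        apply integral_mono i1
        · apply Integrable.add _ i3
          apply Integrable.const_mul
          apply Integrable.add (integrable_const _)
          apply integrable_finsetSum
          intro k _
          exact (i2 _).const_mul _
        · intro ω
          exact layer_point hp hQ (hX0 ω) K
    _ = Q ^ p * (1 + ∑ k ∈ Finset.range K, (2 : ℝ) ^ (((k : ℝ) + 1) * p) *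
      P.real {ω | (2 : ℝ) ^ k * Q ≤ X ω}) +
      ∫ ω : Om, (if (2 : ℝ) ^ K * Q ≤ X ω then X ω ^ p else 0) ∂P := by
        have i4 : Integrable (fun ω => ∑ k ∈ Finset.range K, (2 : ℝ) ^ (((k : ℝ) + 1) * p) *
            (if (2 : ℝ) ^ k * Q ≤ X ω then (1 : ℝ) else 0)) P := by
          apply integrable_finsetSum
          intro k _
          exact (i2 _).const_mul _
        rw [integral_add _ i3]
        · congr 1
          rw [integral_const_mul, integral_add (integrable_const _) i4, integral_finsetSum]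
          · simp only [integral_const, probReal_univ, smul_eq_mul, mul_one]
            congr 2
            apply Finset.sum_congr rfl
            intro k _
            rw [integral_const_mul, e1]
          · intro k _
            exact (i2 _).const_mul _
        · exact ((integrable_const _).add i4).const_mul _
    _ ≤ _ := by
        gcongr with k hk
        have := hw ((2 : ℝ) ^ k * Q) (by positivity)
        refine this.trans (le_of_eq ?_)
        field_simp

lemma cont_F (hC : S_CONT) (γ : ℝ) (A : Finset ℕ) (hA : ∀ l ∈ A, l.Prime) (σ : ℝ)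
    (hσ : -(1 / 2) < σ) : Continuous (fun q : ℝ × Om => F γ A σ q.1 q.2) := by
  have h1 : ContinuousOn (fun q : ℝ × ℝ × Om => F γ A q.1 q.2.1 q.2.2) {q | -(1 / 2) < q.1} :=
    hC γ A hA
  have h3 : Continuous (fun q : ℝ × Om => ((σ, q.1, q.2) : ℝ × ℝ × Om)) := by fun_prop
  have h5 := h1.comp_continuous h3 (fun q => hσ)
  simpa only [Function.comp_def] using h5

/-- mean of a parametric integral -/
lemma mean_swap (f : ℝ → Om → ℝ) (hf : Continuous (fun q : ℝ × Om => f q.1 q.2))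
    (h0 : ∀ t ω, 0 ≤ f t ω) (hi : ∀ ω, Integrable (fun t => f t ω)) (g : ℝ → ℝ)
    (hg : Integrable g) (hg0 : ∀ t, 0 ≤ g t) (hfg : ∀ t, ∫ ω : Om, f t ω ∂P ≤ g t) :
    ∫ ω : Om, (∫ t : ℝ, f t ω) ∂P ≤ ∫ t : ℝ, g t := by
  have hJnn : ∀ ω, 0 ≤ ∫ t : ℝ, f t ω := fun ω => integral_nonneg (fun t => h0 t ω)
  have hJm : AEStronglyMeasurable (fun ω : Om => ∫ t : ℝ, f t ω) P := by
    have : StronglyMeasurable (fun ω : Om => ∫ t : ℝ, f t ω) := by
      apply StronglyMeasurable.integral_prod_right (f := fun ω t => f t ω)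
      exact (hf.comp continuous_swap).stronglyMeasurable
    exact this.aestronglyMeasurable
  have hc1 : ∀ t, Continuous (fun ω : Om => f t ω) := fun t =>
    hf.comp (Continuous.prodMk_right t)
  have hi2 : ∀ t, Integrable (fun ω : Om => f t ω) P := by
    intro t
    obtain ⟨b, hb⟩ := (isCompact_range (hc1 t)).isBounded.exists_norm_le
    apply Integrable.of_bound (hc1 t).aestronglyMeasurable b
    exact Filter.Eventually.of_forall fun ω => hb _ ⟨ω, rfl⟩
  have hmain : ∫⁻ ω : Om, ENNReal.ofReal (∫ t : ℝ, f t ω) ∂P ≤ ENNReal.ofReal (∫ t : ℝ, g t) := by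
    calc ∫⁻ ω : Om, ENNReal.ofReal (∫ t : ℝ, f t ω) ∂P
        = ∫⁻ ω : Om, (∫⁻ t : ℝ, ENNReal.ofReal (f t ω)) ∂P := by
          apply lintegral_congr
          intro ω
          rw [ofReal_integral_eq_lintegral_ofReal (hi ω)]
          exact Filter.Eventually.of_forall fun t => h0 t ω
      _ = ∫⁻ t : ℝ, (∫⁻ ω : Om, ENNReal.ofReal (f t ω) ∂P) := by
          apply lintegral_lintegral_swap
          apply Measurable.aemeasurable
          apply Measurable.ennreal_ofReal
          exact (hf.comp continuous_swap).measurable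
      _ ≤ ∫⁻ t : ℝ, ENNReal.ofReal (g t) := by
          apply lintegral_mono
          intro t
          simp only
          rw [← ofReal_integral_eq_lintegral_ofReal (hi2 t)
            (Filter.Eventually.of_forall fun ω => h0 t ω)]
          exact ENNReal.ofReal_le_ofReal (hfg t)
      _ = _ := by
          rw [← ofReal_integral_eq_lintegral_ofReal hg (Filter.Eventually.of_forall hg0)]
  rw [integral_eq_lintegral_of_nonneg_ae (Filter.Eventually.of_forall hJnn) hJm]
  exact ENNReal.toReal_le_of_le_ofReal (integral_nonneg hg0) hmain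

lemma ker_int {σ : ℝ} (hσ0 : σ ≠ 0) : Integrable (fun t : ℝ => 1 / (σ ^ 2 + t ^ 2)) ∧
    ∫ t : ℝ, 1 / (σ ^ 2 + t ^ 2) = Real.pi / |σ| := by
  have h2 : ∀ t : ℝ, 1 / (σ ^ 2 + t ^ 2) = (σ ^ 2)⁻¹ * (1 + (σ⁻¹ * t) ^ 2)⁻¹ := by
    intro t; field_simp
  constructor
  · have h1 : Integrable (fun t : ℝ => (1 + t ^ 2)⁻¹) := integrable_inv_one_add_sq
    have h2' : Integrable (fun t : ℝ => (1 + (σ⁻¹ * t) ^ 2)⁻¹) :=
      h1.comp_mul_left' (inv_ne_zero hσ0)
    refine (h2'.const_mul ((σ ^ 2)⁻¹)).congr (Filter.Eventually.of_forall fun t => ?_)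
    simp only
    rw [h2]
  · simp only [h2]
    rw [integral_const_mul, Measure.integral_comp_mul_left (fun t : ℝ => (1 + t ^ 2)⁻¹) σ⁻¹,
      integral_univ_inv_one_add_sq, inv_inv, smul_eq_mul]
    have : |σ| ≠ 0 := abs_ne_zero.2 hσ0
    have h3 : σ ^ 2 = |σ| ^ 2 := (sq_abs σ).symm
    rw [h3]
    field_simp

theorem mean_JF (hC : S_CONT) (hJ : S_JM) (hM1 : S_M1) (γ : ℝ) (p0 : ℕ) (hG : Good γ p0) :
    ∃ C : ℝ, 0 < C ∧ ∀ y : ℝ, (p0 : ℝ) + 1 ≤ y →
      ∫ ω : Om, JF γ (PrS p0 y) (-(1 / Real.log y)) ω / Real.log y ∂P ≤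
        C * (Real.log y) ^ ((al γ) ^ 2) := by
  obtain ⟨c2, C2, hc2, hC2, hM⟩ := hM1 γ p0 hG 2
  obtain ⟨hp04, hlp0⟩ := good_p0 hG
  have hl16 : 16 ≤ Real.log p0 := by
    have h1 := hG.1
    rw [Real.le_log_iff_exp_le (by linarith)]
    linarith [Real.exp_pos 16]
  refine ⟨C2 * Real.pi, by positivity, ?_⟩
  intro y hy
  have hy0 : Real.log p0 ≤ Real.log y := Real.log_le_log (by linarith) (by linarith)
  have hY1 : 16 ≤ Real.log y := by linarith
  have hYpos : 0 < Real.log y := by linarith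
  obtain ⟨σ, hσ⟩ : ∃ σ : ℝ, σ = -(1 / Real.log y) := ⟨_, rfl⟩
  rw [← hσ]
  have habs : |σ| = 1 / Real.log y := by rw [hσ, abs_neg, abs_of_pos (by positivity)]
  have hσ1 : -(1 / 2) < σ := by
    rw [hσ]
    have : 1 / Real.log y < 1 / 2 := by
      apply one_div_lt_one_div_of_lt (by norm_num) (by linarith)
    linarith
  have hσ0 : σ ≠ 0 := by
    rw [hσ]; apply neg_ne_zero.2; positivity
  have hprime : ∀ l ∈ PrS p0 y, l.Prime := by
    intro l hl
    unfold PrS at hl
    exact (Finset.mem_filter.1 hl).2.1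
  obtain ⟨hJm, ⟨B, hB⟩, hJi, -⟩ := hJ γ (PrS p0 y) σ hprime hσ1 hσ0
  have hcont : Continuous (fun q : ℝ × Om => ‖F γ (PrS p0 y) σ q.1 q.2‖ ^ 2 / (σ ^ 2 + q.1 ^ 2)) := by
    have h2 := cont_F hC γ (PrS p0 y) hprime σ hσ1
    apply Continuous.div (h2.norm.pow 2) (by fun_prop)
    intro q
    positivity
  have hM2 : ∀ t : ℝ, ∫ ω : Om, ‖F γ (PrS p0 y) σ t ω‖ ^ 2 ∂P ≤
      C2 * (Real.log y) ^ ((al γ) ^ 2) := by
    intro t
    have h1 := (hM p0 y σ t 2 le_rfl (by linarith) (by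
      rw [habs, one_div, inv_mul_cancel₀ hYpos.ne']; norm_num) (by norm_num) le_rfl).2
    have h2 : ∀ ω, ‖F γ (PrS p0 y) σ t ω‖ ^ (2 : ℝ) = ‖F γ (PrS p0 y) σ t ω‖ ^ 2 := fun ω => by
      rw [← Real.rpow_natCast]; norm_num
    simp only [h2] at h1
    refine h1.trans (mul_le_mul_of_nonneg_left ?_ hC2.le)
    calc (Real.log y / Real.log p0) ^ ((al γ) ^ 2 * 2 ^ 2 / 4) ≤
          (Real.log y) ^ ((al γ) ^ 2 * 2 ^ 2 / 4) :=
          Real.rpow_le_rpow (by positivity) (div_le_self hYpos.le hlp0) (by positivity)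
      _ = _ := by congr 1; ring
  obtain ⟨hker, hkerv⟩ := ker_int hσ0
  have hint : ∫ ω : Om, JF γ (PrS p0 y) σ ω ∂P ≤
      C2 * (Real.log y) ^ ((al γ) ^ 2) * (Real.pi * Real.log y) := by
    have h1 := mean_swap (fun t ω => ‖F γ (PrS p0 y) σ t ω‖ ^ 2 / (σ ^ 2 + t ^ 2)) hcont
      (fun t ω => by positivity) hJi (fun t => (C2 * (Real.log y) ^ ((al γ) ^ 2)) *
        (1 / (σ ^ 2 + t ^ 2))) (hker.const_mul _) (fun t => by positivity) (by
        intro t
        have : ∫ ω : Om, ‖F γ (PrS p0 y) σ t ω‖ ^ 2 / (σ ^ 2 + t ^ 2) ∂P =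
            (∫ ω : Om, ‖F γ (PrS p0 y) σ t ω‖ ^ 2 ∂P) * (1 / (σ ^ 2 + t ^ 2)) := by
          rw [← integral_mul_const]
          congr 1
          ext ω
          ring
        rw [this]
        exact mul_le_mul_of_nonneg_right (hM2 t) (by positivity))
    rw [integral_const_mul, hkerv, habs] at h1
    unfold JF
    refine h1.trans (le_of_eq ?_)
    field_simp
  rw [integral_div, div_le_iff₀ hYpos]
  refine hint.trans (le_of_eq (by ring))

end PM
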