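import Pool.Agent.H31.PM.Tools

set_option autoImplicit false

namespace PM
open MeasureTheory Complex PM.T31

/-- the majorant of the first factor -/
private theorem man_one (hCIR : S_CIR) (γ p : ℝ) (hp0 : 0 < p) (hp1 : p ≤ 1) (p0 : ℕ)
    (hg : Good γ p0) : ∃ C : ℝ, 0 < C ∧ ∀ (y σ : ℝ) (n : ℕ), (p0 : ℝ) + 1 ≤ y →
    |σ| * Real.log y ≤ 2 → (n : ℝ) ≤ Real.log (Real.log y) →
    ∃ u : ℝ, (p0 : ℝ) ≤ u ∧ u ≤ y ∧ Real.log y ≤ Real.exp n * Real.log u ∧
      ∃ U1 : Om → ℝ, Measurable U1 ∧ (∃ B : ℝ, ∀ ω, 0 ≤ U1 ω ∧ U1 ω ≤ B) ∧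
      (∀ ω ω' : Om, (∀ l ∈ {l : ℕ | (l : ℝ) ≤ u}, ω l = ω' l) → U1 ω = U1 ω') ∧
      (∀ t ∈ Set.Icc (-(Real.exp (n + 1) / Real.log y)) (Real.exp (n + 1) / Real.log y),
        ∀ ω, ‖F γ (PrS p0 u) σ t ω‖ ^ p ≤ U1 ω) ∧
      ∫ ω, U1 ω ∂P ≤ C * (Real.log y * Real.exp (-n)) ^ ((al γ) ^ 2 * p ^ 2 / 4) := by
  obtain ⟨C2, hC2, hC⟩ := hCIR γ p0 hg 2
  refine ⟨C2 + 1, by positivity, ?_⟩
  intro y σ n hy hσ hn
  have hp0' : 4 * Real.exp 16 ≤ (p0 : ℝ) := hg.1
  have he16 := Real.exp_pos 16
  have hp00 : 0 < (p0 : ℝ) := by linarith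
  have hlp : 16 < Real.log p0 := by
    rw [Real.lt_log_iff_exp_lt hp00]
    linarith
  have hy0 : 0 < y := by linarith
  have hlpy : Real.log p0 ≤ Real.log y := Real.log_le_log hp00 (by linarith)
  set Y := Real.log y with hY
  have hY16 : 16 < Y := by linarith
  have hYpos : 0 < Y := by linarith
  set L := Y * Real.exp (-n) with hL
  have hen : Real.exp n ≤ Y := by
    rw [← Real.le_log_iff_exp_le hYpos]
    exact hn
  have hL1 : 1 ≤ L := by
    rw [hL, Real.exp_neg, ← div_eq_mul_inv, one_le_div (Real.exp_pos _)]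
    exact hen
  have hLY : L ≤ Y := by
    rw [hL]
    have : Real.exp (-(n:ℝ)) ≤ 1 := Real.exp_le_one_iff.2 (by simp)
    nlinarith
  have hLe : L * Real.exp n = Y := by
    rw [hL, mul_assoc, ← Real.exp_add]; simp
  have hexp0 : 0 ≤ (al γ) ^ 2 * p ^ 2 / 4 := by positivity
  by_cases hcase : Real.exp L ≤ p0
  · -- trivial first factor
    have hempty : PrS (p0 : ℝ) p0 = ∅ := by
      rw [Finset.eq_empty_iff_forall_notMem]
      intro l hl
      have := mem_prs hl hp00.le
      linarith [this.2.1, this.2.2]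
    refine ⟨p0, le_rfl, by linarith, ?_, fun _ => 1, measurable_const, ⟨1, fun _ => ⟨zero_le_one, le_rfl⟩⟩,
      fun _ _ _ => rfl, ?_, ?_⟩
    · have h1 : L ≤ Real.log p0 := by
        rw [Real.le_log_iff_exp_le hp00]
        exact hcase
      rw [← hLe, mul_comm]
      exact mul_le_mul_of_nonneg_left h1 (Real.exp_pos _).le
    · intro t _ ω
      rw [hempty]
      unfold F
      simp
    · have h1 : (1:ℝ) ≤ L ^ ((al γ) ^ 2 * p ^ 2 / 4) := Real.one_le_rpow hL1 hexp0
      simp only [integral_const, probReal_univ, smul_eq_mul, mul_one]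
      nlinarith
  · push Not at hcase
    have hR : 0 < Real.exp (n + 1) / Y := by positivity
    have hul : Real.log (Real.exp L) = L := Real.log_exp L
    have huy : Real.exp L ≤ y := by
      rw [← Real.le_log_iff_exp_le hy0]
      exact hLY
    have hcond : (|σ| + 2 * (Real.exp (n + 1) / Y)) * Real.log (Real.exp L) ≤ 8 := by
      rw [hul]
      have e1 : Real.exp (n + 1) / Y * L = Real.exp 1 := by
        rw [hL, Real.exp_add, Real.exp_neg]
        have := Real.exp_pos (n:ℝ)
        field_simp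
      have e2 : |σ| * L ≤ 2 := le_trans (mul_le_mul_of_nonneg_left hLY (abs_nonneg _)) hσ
      have e3 := Real.exp_one_lt_d9
      nlinarith
    obtain ⟨k1, k2, k3, -, k5⟩ := hC p0 (Real.exp L) p σ 0 (Real.exp (n + 1) / Y) le_rfl hcase.le hR
      hcond hp0 (by linarith)
    refine ⟨Real.exp L, hcase.le, huy, ?_, U γ (PrS p0 (Real.exp L)) p σ 0 (Real.exp (n + 1) / Y), k1, k2,
      ?_, ?_, ?_⟩
    · rw [hul, mul_comm, hLe]
    · intro ω ω' h
      apply U_dep
      intro l hl
      exact h l (mem_prs hl (Real.exp_pos _).le).2.2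
    · intro t ht ω
      apply k3
      have : |t| ≤ Real.exp (n + 1) / Y := abs_le.2 ht
      have h2 : t ^ 2 ≤ (Real.exp (n + 1) / Y) ^ 2 := by
        rw [← sq_abs t]
        exact pow_le_pow_left₀ (abs_nonneg _) this 2
      simpa using h2
    · refine k5.trans ?_
      rw [hul]
      have h1 : (L / Real.log p0) ^ ((al γ) ^ 2 * p ^ 2 / 4) ≤ L ^ ((al γ) ^ 2 * p ^ 2 / 4) := by
        apply Real.rpow_le_rpow (by positivity) _ hexp0
        rw [div_le_iff₀ (by linarith)]
        nlinarith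
      have h2 : 0 ≤ L ^ ((al γ) ^ 2 * p ^ 2 / 4) := by positivity
      nlinarith

/-- the mean of the second factor -/
private theorem man_two (hCIR : S_CIR) (hM1 : S_M1) (hCONT : S_CONT) (γ p : ℝ) (hp0 : 0 < p)
    (hp1 : p ≤ 1) (hαp : al γ * p ≤ 2) (p0 : ℕ)
    (hg : Good γ p0) : ∃ C : ℝ, 0 < C ∧ ∀ (y σ : ℝ) (n : ℕ) (u : ℝ), (p0 : ℝ) + 1 ≤ y →
    |σ| * Real.log y ≤ 2 → (n : ℝ) ≤ Real.log (Real.log y) → (p0 : ℝ) ≤ u → u ≤ y →
    Real.log y ≤ Real.exp n * Real.log u →
    ∫ ω : Om, (Real.log y * Real.exp (-2 * n) *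
      ∫ t in Set.Icc (-(Real.exp (n + 1) / Real.log y)) (Real.exp (n + 1) / Real.log y),
        ‖F γ (PrS u y) σ t ω‖ ^ 2) ^ (p / 2) ∂P ≤ C * Real.exp (p * max (al γ - 1) 0 * n) := by
  obtain ⟨c1, C1, hc1, hC1, hM⟩ := hM1 γ p0 hg 2
  have hα : 0 < al γ := Real.rpow_pos_of_pos two_pos _
  set α := al γ with hαdef
  rcases le_or_gt α 1 with hα1 | hα1
  · -- second moment
    refine ⟨(2 * Real.exp 1 * C1) ^ (p / 2), by positivity, ?_⟩
    intro y σ n u hy hσ hn hu huy hlog
    have hp0' : 4 * Real.exp 16 ≤ (p0 : ℝ) := hg.1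
    have he16 := Real.exp_pos 16
    have hp00 : 0 < (p0 : ℝ) := by linarith
    have hlp : 16 < Real.log p0 := by
      rw [Real.lt_log_iff_exp_lt hp00]
      linarith
    have hy0 : 0 < y := by linarith
    have hlpy : Real.log p0 ≤ Real.log y := Real.log_le_log hp00 (by linarith)
    have hlu : Real.log p0 ≤ Real.log u := Real.log_le_log hp00 hu
    set Y := Real.log y with hY
    have hYpos : 0 < Y := by linarith
    have hsmall : |σ| < 1 / 2 := by
      by_contra hc
      push Not at hc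
      nlinarith
    have hprime : ∀ l ∈ PrS u y, l.Prime := fun l hl => (mem_prs hl hy0.le).1
    set R := Real.exp (n + 1) / Y with hR
    have hRpos : 0 < R := by positivity
    have hFc := F_cont hCONT γ (PrS u y) hprime (σ := σ) (by linarith [(abs_lt.1 hsmall).1])
    have hF2 : Continuous (fun q : Om × ℝ => ‖F γ (PrS u y) σ q.2 q.1‖ ^ 2) := hFc.norm.pow 2
    have hX : Continuous (fun ω : Om => ∫ t in Set.Icc (-R) R, ‖F γ (PrS u y) σ t ω‖ ^ 2) :=
      continuous_parametric_integral_of_continuous (f := fun (ω : Om) (t : ℝ) =>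
        ‖F γ (PrS u y) σ t ω‖ ^ 2) hF2 isCompact_Icc
    have hX0 : ∀ ω, 0 ≤ ∫ t in Set.Icc (-R) R, ‖F γ (PrS u y) σ t ω‖ ^ 2 :=
      fun ω => integral_nonneg fun t => by positivity
    obtain ⟨B, hB⟩ := (isCompact_univ (X := Om)).exists_bound_of_continuousOn hX.continuousOn
    have hB' : ∀ ω, ∫ t in Set.Icc (-R) R, ‖F γ (PrS u y) σ t ω‖ ^ 2 ≤ B := by
      intro ω
      have := hB ω (Set.mem_univ _)
      rw [Real.norm_eq_abs] at this
      exact (le_abs_self _).trans this
    have hk : 0 ≤ Y * Real.exp (-2 * n) := by positivity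
    have hj := jensen (f := fun ω => Y * Real.exp (-2 * n) *
        ∫ t in Set.Icc (-R) R, ‖F γ (PrS u y) σ t ω‖ ^ 2) (continuous_const.mul hX).measurable
        (B := Y * Real.exp (-2 * n) * B) (fun ω => mul_nonneg hk (hX0 ω))
        (fun ω => mul_le_mul_of_nonneg_left (hB' ω) hk) (r := p / 2) (by positivity) (by linarith)
    refine hj.trans ?_
    rw [integral_const_mul]
    -- Fubini
    have hint : Integrable (fun q : Om × ℝ => ‖F γ (PrS u y) σ q.2 q.1‖ ^ 2)
        (P.prod (volume.restrict (Set.Icc (-R) R))) := by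
      obtain ⟨B2, hB2⟩ := ((isCompact_univ (X := Om)).prod
        (isCompact_Icc (a := -R) (b := R))).exists_bound_of_continuousOn hF2.continuousOn
      refine Integrable.of_bound hF2.aestronglyMeasurable B2 ?_
      have h1 : ∀ᵐ q ∂(P.prod (volume.restrict (Set.Icc (-R) R))),
          q ∈ (Set.univ : Set Om) ×ˢ Set.Icc (-R) R := by
        have h2 : P.prod (volume.restrict (Set.Icc (-R) R)) =
            (P.prod volume).restrict ((Set.univ : Set Om) ×ˢ Set.Icc (-R) R) := by
          rw [← Measure.prod_restrict, Measure.restrict_univ]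
        rw [h2]
        exact ae_restrict_mem (MeasurableSet.univ.prod measurableSet_Icc)
      filter_upwards [h1] with q hq
      exact hB2 q hq
    have hsw := integral_integral_swap (f := fun (ω : Om) (t : ℝ) =>
      ‖F γ (PrS u y) σ t ω‖ ^ 2) hint
    rw [hsw]
    have hle : ∀ t : ℝ, ∫ ω : Om, ‖F γ (PrS u y) σ t ω‖ ^ 2 ∂P ≤ C1 * Real.exp n := by
      intro t
      have h1 := (hM u y σ t 2 hu huy (by linarith) zero_le_two le_rfl).2
      simp only [Real.rpow_two] at h1
      refine h1.trans ?_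
      apply mul_le_mul_of_nonneg_left _ hC1.le
      have h2 : Y / Real.log u ≤ Real.exp n := by
        rw [div_le_iff₀ (by linarith)]
        exact hlog
      have h3 : 1 ≤ Y / Real.log u := by
        rw [one_le_div (by linarith)]
        exact Real.log_le_log (by linarith) huy
      have h4 : (al γ) ^ 2 * 2 ^ 2 / 4 ≤ 1 := by
        rw [← hαdef]
        nlinarith
      calc (Y / Real.log u) ^ (al γ ^ 2 * 2 ^ 2 / 4) ≤ (Y / Real.log u) ^ (1:ℝ) :=
            Real.rpow_le_rpow_of_exponent_le h3 h4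
        _ = Y / Real.log u := Real.rpow_one _
        _ ≤ _ := h2
    have h4 : ∫ t in Set.Icc (-R) R, ∫ ω : Om, ‖F γ (PrS u y) σ t ω‖ ^ 2 ∂P ≤
        ∫ t in Set.Icc (-R) R, C1 * Real.exp n := by
      apply integral_mono_of_nonneg
      · exact Filter.Eventually.of_forall fun θ => integral_nonneg fun ω => by positivity
      · exact integrableOn_const measure_Icc_lt_top.ne
      · exact Filter.Eventually.of_forall hle
    have h5 : ∫ t in Set.Icc (-R) R, C1 * Real.exp n = 2 * R * (C1 * Real.exp n) := by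
      rw [setIntegral_const, Measure.real, Real.volume_Icc,
        ENNReal.toReal_ofReal (by linarith), smul_eq_mul]
      ring
    rw [h5] at h4
    have h6 : Y * Real.exp (-2 * n) * ∫ t in Set.Icc (-R) R, ∫ ω : Om,
        ‖F γ (PrS u y) σ t ω‖ ^ 2 ∂P ≤ 2 * Real.exp 1 * C1 := by
      calc _ ≤ Y * Real.exp (-2 * n) * (2 * R * (C1 * Real.exp n)) :=
            mul_le_mul_of_nonneg_left h4 hk
        _ = 2 * C1 * (Real.exp (-2 * n) * Real.exp (n + 1) * Real.exp n) := by
            rw [hR]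
            field_simp
        _ = 2 * C1 * Real.exp 1 := by
            rw [← Real.exp_add, ← Real.exp_add]
            congr 2
            ring
        _ = _ := by ring
    have h7 : (Y * Real.exp (-2 * n) * ∫ t in Set.Icc (-R) R, ∫ ω : Om,
        ‖F γ (PrS u y) σ t ω‖ ^ 2 ∂P) ^ (p / 2) ≤ (2 * Real.exp 1 * C1) ^ (p / 2) := by
      apply Real.rpow_le_rpow _ h6 (by positivity)
      apply mul_nonneg hk
      exact integral_nonneg fun t => integral_nonneg fun ω => by positivity
    refine h7.trans ?_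
    rw [max_eq_right (by linarith)]
    simp
  · -- cells
    obtain ⟨C2, hC2, hC⟩ := hCIR γ p0 hg 2
    refine ⟨2 ^ (p / 2) * (2 * Real.exp 1 * C2) ^ (α * (p / 2)), by positivity, ?_⟩
    intro y σ n u hy hσ hn hu huy hlog
    have hp0' : 4 * Real.exp 16 ≤ (p0 : ℝ) := hg.1
    have he16 := Real.exp_pos 16
    have hp00 : 0 < (p0 : ℝ) := by linarith
    have hlp : 16 < Real.log p0 := by
      rw [Real.lt_log_iff_exp_lt hp00]
      linarith
    have hy0 : 0 < y := by linarith
    have hlpy : Real.log p0 ≤ Real.log y := Real.log_le_log hp00 (by linarith)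
    have hlu : Real.log p0 ≤ Real.log u := Real.log_le_log hp00 hu
    set Y := Real.log y with hY
    have hYpos : 0 < Y := by linarith
    have hsmall : |σ| < 1 / 2 := by
      by_contra hc
      push Not at hc
      nlinarith
    have hprime : ∀ l ∈ PrS u y, l.Prime := fun l hl => (mem_prs hl hy0.le).1
    set R := Real.exp (n + 1) / Y with hR
    have hRpos : 0 < R := by positivity
    have hFc := F_cont hCONT γ (PrS u y) hprime (σ := σ) (by linarith [(abs_lt.1 hsmall).1])
    set N : ℕ := ⌈Real.exp (n + 1)⌉₊ with hN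
    have hN1 : Real.exp (n + 1) ≤ N := Nat.le_ceil _
    have hN2 : (N : ℝ) ≤ 2 * Real.exp (n + 1) := by
      have h1 := (Nat.ceil_lt_add_one (Real.exp_pos ((n:ℝ) + 1)).le).le
      have h2 : (1:ℝ) ≤ Real.exp (n + 1) := Real.one_le_exp (by positivity)
      linarith
    have hcond : (|σ| + 2 * (1 / Y)) * Real.log y ≤ 8 := by
      rw [← hY, add_mul]
      have : 2 * (1 / Y) * Y = 2 := by field_simp
      linarith
    have ha0 : 0 < 2 / α := by positivity
    have ha2 : 2 / α ≤ 2 := by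
      rw [div_le_iff₀ hα]; linarith
    let V : ℕ → Om → ℝ := fun j => U γ (PrS u y) (2 / α) σ (-R + (2 * j + 1) * (1 / Y)) (1 / Y)
    have hV : ∀ j, Measurable (V j) ∧ (∃ B : ℝ, ∀ ω, 0 ≤ V j ω ∧ V j ω ≤ B) ∧
        (∀ (σ' t : ℝ) (ω : Om), (σ' - σ) ^ 2 + (t - (-R + (2 * j + 1) * (1 / Y))) ^ 2 ≤ (1 / Y) ^ 2 →
          ‖F γ (PrS u y) σ' t ω‖ ^ (2 / α) ≤ V j ω) ∧
        ∫ ω, V j ω ∂P ≤ C2 * Real.exp n := by
      intro j
      obtain ⟨k1, k2, k3, -, k5⟩ := hC u y (2 / α) σ (-R + (2 * j + 1) * (1 / Y)) (1 / Y) hu huy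
        (by positivity) hcond ha0 ha2
      refine ⟨k1, k2, k3, k5.trans ?_⟩
      apply mul_le_mul_of_nonneg_left _ hC2.le
      have e : al γ ^ 2 * (2 / α) ^ 2 / 4 = 1 := by
        rw [← hαdef]
        field_simp
        norm_num
      rw [e, Real.rpow_one, div_le_iff₀ (by linarith)]
      exact hlog
    -- pointwise bound
    have hpt : ∀ ω : Om, (Y * Real.exp (-2 * n) *
        ∫ t in Set.Icc (-R) R, ‖F γ (PrS u y) σ t ω‖ ^ 2) ^ (p / 2) ≤
        (2 * Real.exp (-2 * n)) ^ (p / 2) *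
          (∑ j ∈ Finset.range N, V j ω) ^ (α * (p / 2)) := by
      intro ω
      have hgc : Continuous (fun t => ‖F γ (PrS u y) σ t ω‖ ^ 2) := by
        have h1 : Continuous (fun t : ℝ => ((ω, t) : Om × ℝ)) := by fun_prop
        exact (hFc.comp h1).norm.pow 2
      have h1 := cell_bound hgc (-R) (1 / Y) (by positivity) N (fun j => V j ω ^ α)
        (fun j _ => Real.rpow_nonneg ((hV j).2.1.choose_spec ω).1 _) (by
          intro j _ t ht
          have h2 := (hV j).2.2.1 σ t ω (by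
            rw [sub_self]
            have : (t - (-R + (2 * j + 1) * (1 / Y))) ^ 2 ≤ (1 / Y) ^ 2 := by
              rw [← sq_abs (t - _)]
              exact pow_le_pow_left₀ (abs_nonneg _) ht 2
            simpa using this)
          have h3 := Real.rpow_le_rpow (by positivity) h2 hα.le
          rw [← Real.rpow_mul (norm_nonneg _)] at h3
          have e : 2 / α * α = 2 := by field_simp
          rw [e, Real.rpow_two] at h3
          exact h3) R (by
          have e : 2 * (N:ℝ) * (1 / Y) = 2 * (N / Y) := by ring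
          have h3 : R ≤ N / Y := by
            rw [hR]
            exact div_le_div_of_nonneg_right hN1 hYpos.le
          rw [e]
          linarith) (fun t => by positivity)
      have h2 : ∑ j ∈ Finset.range N, V j ω ^ α ≤ (∑ j ∈ Finset.range N, V j ω) ^ α :=
        sum_rpow_le _ _ (fun j _ => ((hV j).2.1.choose_spec ω).1) hα1.le
      have hS0 : 0 ≤ ∑ j ∈ Finset.range N, V j ω :=
        Finset.sum_nonneg fun j _ => ((hV j).2.1.choose_spec ω).1
      have h3 : Y * Real.exp (-2 * n) * ∫ t in Set.Icc (-R) R, ‖F γ (PrS u y) σ t ω‖ ^ 2 ≤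
          (2 * Real.exp (-2 * n)) * (∑ j ∈ Finset.range N, V j ω) ^ α := by
        calc _ ≤ Y * Real.exp (-2 * n) * (2 * (1 / Y) * (∑ j ∈ Finset.range N, V j ω) ^ α) := by
              apply mul_le_mul_of_nonneg_left _ (by positivity)
              refine h1.trans ?_
              exact mul_le_mul_of_nonneg_left h2 (by positivity)
          _ = _ := by field_simp
      have h4 := Real.rpow_le_rpow (mul_nonneg (by positivity)
        (integral_nonneg fun t => by positivity)) h3 (by positivity : (0:ℝ) ≤ p / 2)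
      rw [Real.mul_rpow (x := 2 * Real.exp (-2 * n)) (by positivity) (Real.rpow_nonneg hS0 _),
        ← Real.rpow_mul hS0] at h4
      exact h4
    -- integrate
    have hSm : Measurable (fun ω => ∑ j ∈ Finset.range N, V j ω) :=
      Finset.measurable_sum _ fun j _ => (hV j).1
    have hS0 : ∀ ω, 0 ≤ ∑ j ∈ Finset.range N, V j ω := fun ω =>
      Finset.sum_nonneg fun j _ => ((hV j).2.1.choose_spec ω).1
    have hSB : ∀ ω, ∑ j ∈ Finset.range N, V j ω ≤ ∑ j ∈ Finset.range N, (hV j).2.1.choose := fun ω =>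
      Finset.sum_le_sum fun j _ => ((hV j).2.1.choose_spec ω).2
    have hαq : α * (p / 2) ≤ 1 := by linarith
    have hαq0 : 0 ≤ α * (p / 2) := by positivity
    have hj := jensen hSm hS0 hSB hαq0 hαq
    have hES : ∫ ω, ∑ j ∈ Finset.range N, V j ω ∂P ≤ 2 * Real.exp (n + 1) * (C2 * Real.exp n) := by
      rw [integral_finsetSum _ (fun j _ => int_of_bd (hV j).1
        (fun ω => ((hV j).2.1.choose_spec ω).1) (fun ω => ((hV j).2.1.choose_spec ω).2))]
      calc ∑ j ∈ Finset.range N, ∫ ω, V j ω ∂P ≤ ∑ j ∈ Finset.range N, C2 * Real.exp n :=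
            Finset.sum_le_sum fun j _ => (hV j).2.2.2
        _ = N * (C2 * Real.exp n) := by rw [Finset.sum_const, Finset.card_range, nsmul_eq_mul]
        _ ≤ _ := mul_le_mul_of_nonneg_right hN2 (by positivity)
    have hint : Integrable (fun ω => (2 * Real.exp (-2 * n)) ^ (p / 2) *
          (∑ j ∈ Finset.range N, V j ω) ^ (α * (p / 2))) P := by
      apply Integrable.const_mul
      have hm2 : Measurable (fun ω => (∑ j ∈ Finset.range N, V j ω) ^ (α * (p / 2))) :=
        hSm.pow_const _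
      exact int_of_bd hm2 (fun ω => Real.rpow_nonneg (hS0 ω) _)
        (fun ω => Real.rpow_le_rpow (hS0 ω) (hSB ω) hαq0)
    calc ∫ ω : Om, (Y * Real.exp (-2 * n) *
          ∫ t in Set.Icc (-R) R, ‖F γ (PrS u y) σ t ω‖ ^ 2) ^ (p / 2) ∂P
        ≤ ∫ ω : Om, (2 * Real.exp (-2 * n)) ^ (p / 2) *
          (∑ j ∈ Finset.range N, V j ω) ^ (α * (p / 2)) ∂P := by
          apply integral_mono_of_nonneg _ hint (Filter.Eventually.of_forall hpt)
          refine Filter.Eventually.of_forall fun ω => ?_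
          apply Real.rpow_nonneg
          exact mul_nonneg (by positivity) (integral_nonneg fun t => by positivity)
      _ = (2 * Real.exp (-2 * n)) ^ (p / 2) *
          ∫ ω : Om, (∑ j ∈ Finset.range N, V j ω) ^ (α * (p / 2)) ∂P := integral_const_mul _ _
      _ ≤ (2 * Real.exp (-2 * n)) ^ (p / 2) *
          (2 * Real.exp (n + 1) * (C2 * Real.exp n)) ^ (α * (p / 2)) := by
          apply mul_le_mul_of_nonneg_left _ (by positivity)
          refine hj.trans ?_
          exact Real.rpow_le_rpow (integral_nonneg hS0) hES hαq0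
      _ = 2 ^ (p / 2) * (2 * Real.exp 1 * C2) ^ (α * (p / 2)) *
          Real.exp (p * max (α - 1) 0 * n) := by
          have e1 : 2 * Real.exp (n + 1) * (C2 * Real.exp n) =
              (2 * Real.exp 1 * C2) * Real.exp (2 * n) := by
            rw [Real.exp_add, show (2:ℝ) * n = n + n by ring, Real.exp_add]
            ring
          rw [e1, Real.mul_rpow (by positivity) (by positivity),
            Real.mul_rpow (by positivity) (by positivity), ← Real.exp_mul, ← Real.exp_mul,
            max_eq_left (by linarith)]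
          have e2 : Real.exp (p * (α - 1) * n) = Real.exp (-2 * n * (p / 2)) *
              Real.exp (2 * n * (α * (p / 2))) := by
            rw [← Real.exp_add]
            congr 1
            ring
          rw [e2]
          ring

theorem MAN (hCIR : S_CIR) (hIND : S_IND) (hM1 : S_M1) (hCONT : S_CONT) : S_MAN := by
  intro γ p hp0 hp1 hαp p0 hg
  obtain ⟨C1, hC1, hA⟩ := man_one hCIR γ p hp0 hp1 p0 hg
  obtain ⟨C2, hC2, hB⟩ := man_two hCIR hM1 hCONT γ p hp0 hp1 hαp p0 hg
  refine ⟨C1 * C2, by positivity, ?_⟩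
  intro y σ n hy hσ1 hσ hn
  obtain ⟨u, hu, huy, hlog, U1, m1, ⟨B1, b1⟩, d1, f1, i1⟩ := hA y σ n hy hσ hn
  have h2 := hB y σ n u hy hσ hn hu huy hlog
  have hp0' : 4 * Real.exp 16 ≤ (p0 : ℝ) := hg.1
  have he16 := Real.exp_pos 16
  have hp00 : 0 < (p0 : ℝ) := by linarith
  have hlp : 16 < Real.log p0 := by
    rw [Real.lt_log_iff_exp_lt hp00]
    linarith
  have hy0 : 0 < y := by linarith
  have hlpy : Real.log p0 ≤ Real.log y := Real.log_le_log hp00 (by linarith)
  set Y := Real.log y with hY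
  have hYpos : 0 < Y := by linarith
  have hsmall : |σ| < 1 / 2 := by
    by_contra hc
    push Not at hc
    nlinarith
  have hprime : ∀ l ∈ PrS u y, l.Prime := fun l hl => (mem_prs hl hy0.le).1
  set R := Real.exp (n + 1) / Y with hR
  have hFc := F_cont hCONT γ (PrS u y) hprime (σ := σ) (by linarith [(abs_lt.1 hsmall).1])
  have hF2 : Continuous (fun q : Om × ℝ => ‖F γ (PrS u y) σ q.2 q.1‖ ^ 2) := hFc.norm.pow 2
  have hX : Continuous (fun ω : Om => ∫ t in Set.Icc (-R) R, ‖F γ (PrS u y) σ t ω‖ ^ 2) :=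
    continuous_parametric_integral_of_continuous (f := fun (ω : Om) (t : ℝ) =>
      ‖F γ (PrS u y) σ t ω‖ ^ 2) hF2 isCompact_Icc
  have hX0 : ∀ ω, 0 ≤ ∫ t in Set.Icc (-R) R, ‖F γ (PrS u y) σ t ω‖ ^ 2 :=
    fun ω => integral_nonneg fun t => by positivity
  have hk : 0 ≤ Y * Real.exp (-2 * n) := by positivity
  let V : Om → ℝ := fun ω => (Y * Real.exp (-2 * n) *
    ∫ t in Set.Icc (-R) R, ‖F γ (PrS u y) σ t ω‖ ^ 2) ^ (p / 2)
  have hVc : Continuous V := (continuous_const.mul hX).rpow_const (fun _ => Or.inr (by positivity))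
  have hV0 : ∀ ω, 0 ≤ V ω := fun ω => Real.rpow_nonneg (mul_nonneg hk (hX0 ω)) _
  obtain ⟨B, hB3⟩ := (isCompact_univ (X := Om)).exists_bound_of_continuousOn hVc.continuousOn
  have hVB : ∀ ω, V ω ≤ B := by
    intro ω
    have := hB3 ω (Set.mem_univ _)
    rw [Real.norm_eq_abs] at this
    exact (le_abs_self _).trans this
  have hind := hIND {l : ℕ | (l : ℝ) ≤ u} U1 V m1 hVc.measurable (fun ω => (b1 ω).1) hV0 d1 (by
    intro ω ω' h
    simp only [V]
    have e : ∀ t, F γ (PrS u y) σ t ω = F γ (PrS u y) σ t ω' := by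
      intro t
      apply F_dep
      intro l hl
      apply h
      have := (mem_prs hl hy0.le).2.1
      intro hc
      have hc' : (l : ℝ) ≤ u := hc
      linarith
    simp_rw [e])
  have hpt : ∀ ω, (Y * Real.exp (-2 * n) *
      ∫ t in Set.Icc (-R) R, ‖F γ (PrS p0 y) σ t ω‖ ^ 2) ^ (p / 2) ≤ U1 ω * V ω := by
    intro ω
    have hU0 := (b1 ω).1
    have h3 : ∫ t in Set.Icc (-R) R, ‖F γ (PrS p0 y) σ t ω‖ ^ 2 ≤
        ∫ t in Set.Icc (-R) R, U1 ω ^ (2 / p) * ‖F γ (PrS u y) σ t ω‖ ^ 2 := by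
      have hgc : Continuous (fun t => ‖F γ (PrS u y) σ t ω‖ ^ 2) := by
        have h1 : Continuous (fun t : ℝ => ((ω, t) : Om × ℝ)) := by fun_prop
        exact (hFc.comp h1).norm.pow 2
      apply integral_mono_of_nonneg
      · exact Filter.Eventually.of_forall fun t => by positivity
      · exact ((continuous_const.mul hgc).continuousOn).integrableOn_Icc
      · filter_upwards [ae_restrict_mem measurableSet_Icc] with t ht
        rw [F_split γ hp00.le hu huy, norm_mul, mul_pow]
        apply mul_le_mul_of_nonneg_right _ (by positivity)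
        have h4 := Real.rpow_le_rpow (by positivity) (f1 t ht ω) (by positivity : (0:ℝ) ≤ 2 / p)
        rw [← Real.rpow_mul (norm_nonneg _)] at h4
        have e : p * (2 / p) = 2 := by field_simp
        rw [e, Real.rpow_two] at h4
        exact h4
    rw [integral_const_mul] at h3
    have h4 : Y * Real.exp (-2 * n) * ∫ t in Set.Icc (-R) R, ‖F γ (PrS p0 y) σ t ω‖ ^ 2 ≤
        U1 ω ^ (2 / p) * (Y * Real.exp (-2 * n) *
          ∫ t in Set.Icc (-R) R, ‖F γ (PrS u y) σ t ω‖ ^ 2) := by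
      calc _ ≤ Y * Real.exp (-2 * n) * (U1 ω ^ (2 / p) *
          ∫ t in Set.Icc (-R) R, ‖F γ (PrS u y) σ t ω‖ ^ 2) := mul_le_mul_of_nonneg_left h3 hk
        _ = _ := by ring
    have h5 := Real.rpow_le_rpow (mul_nonneg hk (integral_nonneg fun t => by positivity)) h4
      (by positivity : (0:ℝ) ≤ p / 2)
    rw [Real.mul_rpow (Real.rpow_nonneg hU0 _) (mul_nonneg hk (hX0 ω)), ← Real.rpow_mul hU0] at h5
    have e : 2 / p * (p / 2) = 1 := by field_simp
    rw [e, Real.rpow_one] at h5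
    exact h5
  have hint : Integrable (fun ω => U1 ω * V ω) P := by
    refine int_of_bd (m1.mul hVc.measurable) (B := B1 * B)
      (fun ω => mul_nonneg (b1 ω).1 (hV0 ω)) (fun ω => ?_)
    exact mul_le_mul (b1 ω).2 (hVB ω) (hV0 ω) ((b1 ω).1.trans (b1 ω).2)
  calc ∫ ω : Om, (Y * Real.exp (-2 * n) *
        ∫ t in Set.Icc (-R) R, ‖F γ (PrS p0 y) σ t ω‖ ^ 2) ^ (p / 2) ∂P
      ≤ ∫ ω, U1 ω * V ω ∂P := by
        apply integral_mono_of_nonneg _ hint (Filter.Eventually.of_forall hpt)
        refine Filter.Eventually.of_forall fun ω => ?_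
        apply Real.rpow_nonneg
        exact mul_nonneg hk (integral_nonneg fun t => by positivity)
    _ = (∫ ω, U1 ω ∂P) * ∫ ω, V ω ∂P := hind
    _ ≤ (C1 * (Y * Real.exp (-n)) ^ ((al γ) ^ 2 * p ^ 2 / 4)) *
        (C2 * Real.exp (p * max (al γ - 1) 0 * n)) := by
        apply mul_le_mul i1 h2 (integral_nonneg hV0) (by positivity)
    _ = _ := by ring

end PM
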