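import Pool.Agent.H24.PM.Stmts
import Pool.Agent.H36.PM.Key

/-! Module PP: Plancherel for the partial sums of a Dirichlet series. -/

namespace PM
open MeasureTheory Complex

/-- the step functions -/
noncomputable def fst (n : ℕ) (z : ℝ) : ℂ := if (n : ℝ) ≤ z then 1 else 0

theorem fst_prod (n m : ℕ) (w : ℝ → ℝ) (z : ℝ) :
    fst n z * (starRingEnd ℂ) (fst m z) * (w z : ℂ) =
      Set.indicator (Set.Ici ((max n m : ℕ) : ℝ)) (fun z => (w z : ℂ)) z := by
  unfold fst
  by_cases h1 : (n : ℝ) ≤ z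
  · by_cases h2 : (m : ℝ) ≤ z
    · have : z ∈ Set.Ici ((max n m : ℕ) : ℝ) := by
        simp only [Set.mem_Ici, Nat.cast_max, max_le_iff]
        exact ⟨h1, h2⟩
      rw [Set.indicator_of_mem this]
      simp [h1, h2]
    · have : z ∉ Set.Ici ((max n m : ℕ) : ℝ) := by
        simp only [Set.mem_Ici, Nat.cast_max, max_le_iff]
        tauto
      rw [Set.indicator_of_notMem this]
      simp [h2]
  · have : z ∉ Set.Ici ((max n m : ℕ) : ℝ) := by
      simp only [Set.mem_Ici, Nat.cast_max, max_le_iff]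
      tauto
    rw [Set.indicator_of_notMem this]
    simp [h1]

theorem pp_set {M : ℕ} (hM : 1 ≤ M) :
    (Set.Ioi (1 : ℝ) ∩ Set.Ici (M : ℝ) : Set ℝ) =ᵐ[volume] Set.Ioi (M : ℝ) := by
  have hM' : (1 : ℝ) ≤ M := by exact_mod_cast hM
  have h1 : (Set.Ici (M : ℝ) : Set ℝ) =ᵐ[volume] Set.Ioi (M : ℝ) := Ioi_ae_eq_Ici.symm
  have h2 := (ae_eq_refl (Set.Ioi (1 : ℝ))).inter h1
  have h3 : Set.Ioi (1 : ℝ) ∩ Set.Ioi (M : ℝ) = Set.Ioi (M : ℝ) := by
    ext z
    simp only [Set.mem_inter_iff, Set.mem_Ioi]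
    constructor
    · exact fun h => h.2
    · exact fun h => ⟨lt_of_le_of_lt hM' h, h⟩
  rw [h3] at h2
  exact h2

theorem pp_left_int {n m : ℕ} (hn : n ≠ 0) {σ : ℝ} (hσ : 0 < σ) :
    IntegrableOn (fun z : ℝ => fst n z * (starRingEnd ℂ) (fst m z) * ((z ^ (-1 - 2 * σ) : ℝ) : ℂ))
      (Set.Ioi 1) := by
  have hM : 1 ≤ max n m := le_trans (Nat.pos_of_ne_zero hn) (le_max_left _ _)
  have h := fun z => fst_prod n m (fun z : ℝ => z ^ (-1 - 2 * σ)) z
  simp_rw [h]
  refine IntegrableOn.indicator ?_ measurableSet_Ici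
  exact ((integrableOn_Ioi_rpow_of_lt (by linarith) one_pos)).ofReal

theorem pp_left_val {n m : ℕ} (hn : n ≠ 0) (hm : m ≠ 0) {σ : ℝ} (hσ : 0 < σ) :
    ∫ z in Set.Ioi (1 : ℝ), fst n z * (starRingEnd ℂ) (fst m z) * ((z ^ (-1 - 2 * σ) : ℝ) : ℂ) =
      ((1 / (2 * Real.pi) * (Real.exp (-(σ * (Real.log n + Real.log m))) *
      (Real.pi / σ * Real.exp (-(σ * |Real.log m - Real.log n|)))) : ℝ) : ℂ) := by
  have hM : 1 ≤ max n m := le_trans (Nat.pos_of_ne_zero hn) (le_max_left _ _)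
  have hM' : (0 : ℝ) < ((max n m : ℕ) : ℝ) := by exact_mod_cast hM
  have h := fun z => fst_prod n m (fun z : ℝ => z ^ (-1 - 2 * σ)) z
  simp_rw [h]
  rw [setIntegral_indicator measurableSet_Ici, setIntegral_congr_set (pp_set hM),
    integral_complex_ofReal, integral_Ioi_rpow_of_lt (by linarith) hM']
  congr 1
  have e1 : Real.exp (-(σ * (Real.log n + Real.log m))) *
      (Real.pi / σ * Real.exp (-(σ * |Real.log m - Real.log n|))) =
      Real.pi / σ * Real.exp (-(σ * (Real.log n + Real.log m + |Real.log m - Real.log n|))) := by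
    rw [show -(σ * (Real.log n + Real.log m + |Real.log m - Real.log n|)) =
      -(σ * (Real.log n + Real.log m)) + -(σ * |Real.log m - Real.log n|) by ring, Real.exp_add]
    ring
  have hn' : (0 : ℝ) < n := by exact_mod_cast Nat.pos_of_ne_zero hn
  have hm' : (0 : ℝ) < m := by exact_mod_cast Nat.pos_of_ne_zero hm
  have e2 : Real.log n + Real.log m + |Real.log m - Real.log n| =
      2 * Real.log ((max n m : ℕ) : ℝ) := by
    rcases le_total n m with hnm | hnm
    · have hl : Real.log n ≤ Real.log m := Real.log_le_log hn' (by exact_mod_cast hnm)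
      rw [max_eq_right hnm, abs_of_nonneg (by linarith)]
      ring
    · have hl : Real.log m ≤ Real.log n := Real.log_le_log hm' (by exact_mod_cast hnm)
      rw [max_eq_left hnm, abs_of_nonpos (by linarith)]
      ring
  rw [e1, e2, show (-1 - 2 * σ + 1 : ℝ) = -2 * σ by ring, Real.rpow_def_of_pos hM',
    show -(σ * (2 * Real.log ((max n m : ℕ) : ℝ))) = Real.log ((max n m : ℕ) : ℝ) * (-2 * σ) by ring]
  have := Real.pi_pos
  field_simp

theorem pp_fin (c : ℕ → ℂ) {σ : ℝ} (hσ : 0 < σ) (N : ℕ) :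
    ∫ z in Set.Ioi (1 : ℝ), ‖∑ n ∈ Finset.Icc 1 N, c n * fst n z‖ ^ 2 * z ^ (-1 - 2 * σ) =
      1 / (2 * Real.pi) * ∫ t : ℝ,
      ‖∑ n ∈ Finset.Icc 1 N, c n * (n : ℂ) ^ (-(σ + t * I) : ℂ)‖ ^ 2 * (σ ^ 2 + t ^ 2)⁻¹ := by
  have hne : ∀ n ∈ Finset.Icc 1 N, n ≠ 0 := fun n hn => by
    simp only [Finset.mem_Icc] at hn; omega
  have h1 := gram (volume.restrict (Set.Ioi (1 : ℝ))) (Finset.Icc 1 N) c fst
    (fun z => z ^ (-1 - 2 * σ)) _
    (fun n hn m _ => pp_left_int (m := m) (hne n hn) hσ)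
    (fun n hn m hm => pp_left_val (hne n hn) (hne m hm) hσ)
  have h2 := gram volume (Finset.Icc 1 N) c (fun n (t : ℝ) => (n : ℂ) ^ (-(σ + t * I) : ℂ))
    (fun t : ℝ => (σ ^ 2 + t ^ 2)⁻¹) _
    (fun n hn m hm => kern_integrable (hne n hn) (hne m hm) σ hσ)
    (fun n hn m hm => kern_integral (hne n hn) (hne m hm) σ hσ)
  have h3 : (((∫ z in Set.Ioi (1 : ℝ), ‖∑ n ∈ Finset.Icc 1 N, c n * fst n z‖ ^ 2 *
      z ^ (-1 - 2 * σ)) : ℝ) : ℂ) = ((1 / (2 * Real.pi) * ∫ t : ℝ,
      ‖∑ n ∈ Finset.Icc 1 N, c n * (n : ℂ) ^ (-(σ + t * I) : ℂ)‖ ^ 2 *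
        (σ ^ 2 + t ^ 2)⁻¹ : ℝ) : ℂ) := by
    rw [h1, Complex.ofReal_mul, h2, Finset.mul_sum]
    refine Finset.sum_congr rfl fun n _ => ?_
    rw [Finset.mul_sum]
    refine Finset.sum_congr rfl fun m _ => ?_
    push_cast
    ring
  exact_mod_cast h3

theorem PP : S_PP := by
  intro c σ hσ h0 hc
  have hc' : Summable (fun n : ℕ => ‖c n‖ * (n : ℝ) ^ (-σ)) := by
    refine Summable.of_nonneg_of_le (fun n => by positivity) (fun n => ?_) hc
    rcases Nat.eq_zero_or_pos n with rfl | hn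
    · simp [h0]
    · have : (n : ℝ) ^ (-σ) ≤ 1 :=
        Real.rpow_le_one_of_one_le_of_nonpos (by exact_mod_cast hn) (by linarith)
      calc ‖c n‖ * (n : ℝ) ^ (-σ) ≤ ‖c n‖ * 1 := by gcongr
        _ = ‖c n‖ := mul_one _
  have hR := (rhs_tendsto c σ hσ h0 hc').const_mul (1 / (2 * Real.pi))
  have hL : Filter.Tendsto (fun N : ℕ => ∫ z in Set.Ioi (1 : ℝ),
      ‖∑ n ∈ Finset.Icc 1 N, c n * fst n z‖ ^ 2 * z ^ (-1 - 2 * σ)) Filter.atTop
      (nhds (∫ z in Set.Ioi (1 : ℝ), ‖∑ n ∈ Finset.Icc 1 ⌊z⌋₊, c n‖ ^ 2 * z ^ (-1 - 2 * σ))) := by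
    refine tendsto_integral_of_dominated_convergence
      (fun z => (∑' n, ‖c n‖) ^ 2 * z ^ (-1 - 2 * σ)) ?_ ?_ ?_ ?_
    · intro N
      have hm : Measurable (fun z : ℝ => ‖∑ n ∈ Finset.Icc 1 N, c n * fst n z‖ ^ 2 *
          z ^ (-1 - 2 * σ)) := by
        refine Measurable.mul (Measurable.pow_const (Measurable.norm ?_) 2)
          (measurable_id.pow_const _)
        refine Finset.measurable_fun_sum _ fun n _ => Measurable.const_mul ?_ _
        unfold fst
        exact Measurable.ite measurableSet_Ici measurable_const measurable_const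
      exact hm.aestronglyMeasurable
    · exact (integrableOn_Ioi_rpow_of_lt (by linarith) one_pos).const_mul _
    · intro N
      refine (ae_restrict_iff' measurableSet_Ioi).mpr (Filter.Eventually.of_forall fun z hz => ?_)
      have hz0 : (0 : ℝ) ≤ z := le_of_lt (lt_trans one_pos hz)
      rw [Real.norm_of_nonneg (by positivity)]
      have hb : ‖∑ n ∈ Finset.Icc 1 N, c n * fst n z‖ ≤ ∑' n, ‖c n‖ := by
        refine (norm_sum_le _ _).trans ?_
        refine le_trans (Finset.sum_le_sum fun n _ => ?_)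
          (hc.sum_le_tsum (Finset.Icc 1 N) (fun n _ => norm_nonneg _))
        rw [norm_mul]
        have : ‖fst n z‖ ≤ 1 := by
          unfold fst
          split_ifs <;> simp
        calc ‖c n‖ * ‖fst n z‖ ≤ ‖c n‖ * 1 := by gcongr
          _ = ‖c n‖ := mul_one _
      gcongr
    · refine (ae_restrict_iff' measurableSet_Ioi).mpr (Filter.Eventually.of_forall fun z hz => ?_)
      refine tendsto_const_nhds.congr' ?_
      filter_upwards [Filter.eventually_ge_atTop ⌊z⌋₊] with N hN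
      have hz0 : (0 : ℝ) ≤ z := le_of_lt (lt_trans one_pos hz)
      have : ∑ n ∈ Finset.Icc 1 N, c n * fst n z = ∑ n ∈ Finset.Icc 1 ⌊z⌋₊, c n := by
        rw [← Finset.sum_subset (Finset.Icc_subset_Icc_right hN)]
        rotate_left
        · intro n hn hn2
          have hlt : ¬ ((n : ℝ) ≤ z) := by
            intro hle
            apply hn2
            simp only [Finset.mem_Icc] at hn ⊢
            exact ⟨hn.1, Nat.le_floor hle⟩
          simp [fst, hlt]
        · refine Finset.sum_congr rfl fun n hn => ?_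
          simp only [Finset.mem_Icc] at hn
          have hle : (n : ℝ) ≤ z := (Nat.le_floor_iff hz0).mp hn.2
          simp [fst, hle]
      rw [this]
  have hEq := tendsto_nhds_unique (hL.congr fun N => pp_fin c hσ N) hR
  rw [hEq]
  congr 1

end PM
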