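import Pool.Agent.H24.PM.Stmts

/-! Analytic properties of the local power series (helper77). -/

namespace PM
open MeasureTheory Complex

theorem summ_aux (γ r : ℝ) (h0 : 0 ≤ r) (h1 : r < 1) :
    Summable (fun k : ℕ => ((k : ℝ) + 1) ^ γ * r ^ k) := by
  obtain ⟨n, hn⟩ := exists_nat_ge γ
  set R : ℝ := max r (1 / 2) with hR
  have hR0 : 0 < R := lt_of_lt_of_le (by norm_num) (le_max_right _ _)
  have hR1 : R < 1 := max_lt h1 (by norm_num)
  have hs := summable_pow_mul_geometric_of_norm_lt_one (R := ℝ) n (r := R)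
    (by rw [Real.norm_eq_abs, abs_of_pos hR0]; exact hR1)
  have hs1 := (summable_nat_add_iff 1).2 hs
  have hs2 := hs1.mul_left (R⁻¹)
  refine Summable.of_nonneg_of_le (fun k => ?_) (fun k => ?_) hs2
  · positivity
  · have e1 : ((k : ℝ) + 1) ^ γ ≤ ((k : ℝ) + 1) ^ n := by
      rw [← Real.rpow_natCast]
      exact Real.rpow_le_rpow_of_exponent_le (by linarith [Nat.cast_nonneg (α := ℝ) k]) hn
    have e2 : r ^ k ≤ R ^ k := pow_le_pow_left₀ h0 (le_max_left _ _) k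
    calc ((k : ℝ) + 1) ^ γ * r ^ k ≤ ((k : ℝ) + 1) ^ n * R ^ k := by
          apply mul_le_mul e1 e2 (by positivity) (by positivity)
      _ = R⁻¹ * (((k + 1 : ℕ) : ℝ) ^ n * R ^ (k + 1)) := by
          push_cast
          rw [pow_succ R k]
          field_simp

theorem phi_norm_term (γ : ℝ) (k : ℕ) (x : ℂ) :
    ‖(((((k : ℝ) + 1) ^ γ : ℝ)) : ℂ) * x ^ k‖ = ((k : ℝ) + 1) ^ γ * ‖x‖ ^ k := by
  rw [norm_mul, norm_pow, Complex.norm_real, Real.norm_eq_abs, abs_of_nonneg (by positivity)]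

theorem phi_summable (γ : ℝ) {x : ℂ} (hx : ‖x‖ < 1) :
    Summable (fun k : ℕ => (((((k : ℝ) + 1) ^ γ : ℝ)) : ℂ) * x ^ k) := by
  refine Summable.of_norm ?_
  simp_rw [phi_norm_term]
  exact summ_aux γ ‖x‖ (norm_nonneg _) hx

theorem phi_diffAt (γ : ℝ) {x : ℂ} (hx : ‖x‖ < 1) : DifferentiableAt ℂ (phi γ) x := by
  obtain ⟨r, hr1, hr2⟩ := exists_between hx
  have hr0 : 0 ≤ r := le_trans (norm_nonneg _) hr1.le
  have hd : DifferentiableOn ℂ (fun w => ∑' k : ℕ, (((((k : ℝ) + 1) ^ γ : ℝ)) : ℂ) * w ^ k)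
      (Metric.ball 0 r) := by
    refine Complex.differentiableOn_tsum_of_summable_norm (summ_aux γ r hr0 hr2) (fun k => ?_)
      Metric.isOpen_ball (fun k w hw => ?_)
    · exact ((differentiable_id.pow k).const_mul _).differentiableOn
    · rw [phi_norm_term]
      have : ‖w‖ < r := by simpa using hw
      gcongr
  exact hd.differentiableAt (Metric.isOpen_ball.mem_nhds (by simpa using hr1))

theorem phi_contAt (γ : ℝ) {x : ℂ} (hx : ‖x‖ < 1) : ContinuousAt (phi γ) x :=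
  (phi_diffAt γ hx).continuousAt

theorem norm_zc (x : UnitAddCircle) : ‖zc x‖ = 1 := by
  unfold zc; exact Circle.norm_coe _

theorem cont_zc : Continuous zc := by
  unfold zc; exact (fourier 1).continuous

theorem norm_cpow_line {l : ℕ} (hl : 0 < l) (σ t : ℝ) :
    ‖(l : ℂ) ^ (-(1 / 2 + σ + t * I) : ℂ)‖ = (l : ℝ) ^ (-(1 / 2 + σ)) := by
  rw [Complex.norm_natCast_cpow_of_pos hl]
  congr 1
  simp

theorem norm_pt {l : ℕ} (hl : 0 < l) (σ t : ℝ) (ω : Om) :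
    ‖pt σ t l ω‖ = (l : ℝ) ^ (-(1 / 2 + σ)) := by
  unfold pt
  rw [norm_mul, norm_zc, one_mul, norm_cpow_line hl]

/-- joint continuity of the local variable -/
theorem cont_pt {l : ℕ} (hl : 0 < l) :
    Continuous (fun q : ℝ × ℝ × Om => pt q.1 q.2.1 l q.2.2) := by
  unfold pt
  refine Continuous.mul (cont_zc.comp ?_) ?_
  · exact (continuous_apply l).comp (continuous_snd.comp continuous_snd)
  · have hne : (l : ℂ) ≠ 0 := by exact_mod_cast hl.ne'
    refine Continuous.const_cpow ?_ (Or.inl hne)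
    fun_prop

/-- basic estimate: on the lines used, the local variable is small -/
theorem line_small {p0 l : ℕ} (hp : 4 * Real.exp 16 ≤ (p0 : ℝ)) (hl : p0 < l) {σ : ℝ}
    (hσ : |σ| * Real.log l ≤ 8) :
    (l : ℝ) ^ (-(1 / 2 + σ)) ≤ Real.exp 8 / Real.sqrt p0 ∧
    (l : ℝ) ^ (-(1 / 2 + σ)) ≤ 1 / 2 := by
  have hp0pos : (0 : ℝ) < p0 := lt_of_lt_of_le (by positivity) hp
  have hl' : (p0 : ℝ) < l := by exact_mod_cast hl
  have hlpos : (0 : ℝ) < l := hp0pos.trans hl'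
  have hl1 : (1 : ℝ) ≤ l := by
    have : 1 ≤ l := by omega
    exact_mod_cast this
  have hlog : 0 ≤ Real.log l := Real.log_nonneg hl1
  have h1 : (l : ℝ) ^ (-(1 / 2 + σ)) ≤ Real.exp 8 / Real.sqrt l := by
    rw [Real.sqrt_eq_rpow, Real.rpow_def_of_pos hlpos, Real.rpow_def_of_pos hlpos,
      ← Real.exp_sub]
    apply Real.exp_le_exp.2
    have : -σ * Real.log l ≤ |σ| * Real.log l :=
      mul_le_mul_of_nonneg_right (neg_le_abs σ) hlog
    nlinarith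
  have hsq : 0 < Real.sqrt p0 := Real.sqrt_pos.2 hp0pos
  have h2 : Real.exp 8 / Real.sqrt l ≤ Real.exp 8 / Real.sqrt p0 := by
    apply div_le_div_of_nonneg_left (Real.exp_pos _).le hsq
    exact Real.sqrt_le_sqrt hl'.le
  have e16 : Real.exp 16 = Real.exp 8 ^ 2 := by rw [← Real.exp_nat_mul]; norm_num
  have hs1 : 2 * Real.exp 8 ≤ Real.sqrt p0 := by
    apply Real.le_sqrt_of_sq_le
    rw [mul_pow, ← e16]; linarith
  have h3 : Real.exp 8 / Real.sqrt p0 ≤ 1 / 2 := by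
    rw [div_le_iff₀ hsq]; linarith
  exact ⟨h1.trans h2, (h1.trans h2).trans h3⟩

/-- consequence of Good: the local factor is within 1/2 of 1 -/
theorem good_phi {γ : ℝ} {p0 l : ℕ} (hg : Good γ p0) (hl : p0 < l) {σ : ℝ}
    (hσ : |σ| * Real.log l ≤ 8) (t : ℝ) (ω : Om) :
    ‖phi γ (pt σ t l ω) - 1‖ ≤ 1 / 2 ∧ ‖pt σ t l ω‖ ≤ 1 / 2 := by
  have h := line_small hg.1 hl hσ
  have hn := norm_pt (l := l) (by omega) σ t ω
  exact ⟨hg.2 _ (by rw [hn]; exact h.1), by rw [hn]; exact h.2⟩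

theorem norm_ge_of_near {z : ℂ} (h : ‖z - 1‖ ≤ 1 / 2) : 1 / 2 ≤ ‖z‖ ∧ ‖z‖ ≤ 3 / 2 ∧ 1 / 2 ≤ z.re := by
  refine ⟨?_, ?_, ?_⟩
  · have : ‖(1 : ℂ)‖ ≤ ‖z‖ + ‖z - 1‖ := by
      calc ‖(1 : ℂ)‖ = ‖z - (z - 1)‖ := by ring_nf
        _ ≤ _ := norm_sub_le _ _
    rw [norm_one] at this; linarith
  · have : ‖z‖ ≤ ‖z - 1‖ + ‖(1 : ℂ)‖ := by
      calc ‖z‖ = ‖(z - 1) + 1‖ := by ring_nf
        _ ≤ _ := norm_add_le _ _
    rw [norm_one] at this; linarith
  · have := Complex.abs_re_le_norm (z - 1)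
    have h2 : |(z - 1).re| ≤ 1 / 2 := this.trans h
    rw [Complex.sub_re, Complex.one_re] at h2
    linarith [(abs_le.1 h2).1]

theorem abs_log_near {z : ℂ} (h : ‖z - 1‖ ≤ 1 / 2) : |Real.log ‖z‖| ≤ 1 := by
  obtain ⟨h1, h2, -⟩ := norm_ge_of_near h
  have hpos : 0 < ‖z‖ := by linarith
  rw [abs_le]
  constructor
  · have : Real.log (1 / 2) ≤ Real.log ‖z‖ := Real.log_le_log (by norm_num) h1
    have e : Real.log (1 / 2) = -Real.log 2 := by rw [one_div, Real.log_inv]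
    have := Real.log_two_lt_d9
    linarith
  · have : Real.log ‖z‖ ≤ ‖z‖ - 1 := Real.log_le_sub_one_of_pos hpos
    linarith

end PM
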