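import Pool.Agent.H24.PM.Stmts

/-! Common part of the upper bounds of project PM. -/

namespace PM
open MeasureTheory Complex

lemma al_pos (γ : ℝ) : 0 < al γ := by unfold al; positivity

lemma log_yk (N k : ℕ) : Real.log (yk N k) = Real.log N * Real.exp (-((k : ℝ) + 1)) := by
  unfold yk; rw [Real.log_exp]

lemma good_p0 {γ : ℝ} {p0 : ℕ} (h : Good γ p0) : (4 : ℝ) ≤ p0 ∧ 1 ≤ Real.log p0 := by
  have h1 := h.1
  have h2 : Real.exp 1 ≤ 4 * Real.exp 16 := by
    have : Real.exp 1 ≤ Real.exp 16 := Real.exp_le_exp.2 (by norm_num)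
    nlinarith [Real.exp_pos 16]
  have h3 : (1 : ℝ) ≤ Real.exp 16 := Real.one_le_exp (by norm_num)
  refine ⟨by linarith, ?_⟩
  have h4 : Real.exp 1 ≤ (p0 : ℝ) := h2.trans h1
  calc (1 : ℝ) = Real.log (Real.exp 1) := (Real.log_exp 1).symm
    _ ≤ Real.log p0 := Real.log_le_log (Real.exp_pos 1) h4

/-- geometric sum over the levels -/
lemma sum_levels {a : ℝ} (ha : 0 < a) {N : ℕ} (hN : 1 ≤ Real.log N) (S : Finset ℕ) :
    ∑ k ∈ S, (Real.log N * Real.exp (-((k : ℝ) + 1))) ^ a ≤
      (1 - Real.exp (-a))⁻¹ * (Real.log N) ^ a := by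
  have h0 : ∀ k : ℕ, (Real.log N * Real.exp (-((k : ℝ) + 1))) ^ a ≤
      (Real.log N) ^ a * (Real.exp (-a)) ^ k := by
    intro k
    rw [Real.mul_rpow (by linarith) (Real.exp_pos _).le, ← Real.exp_mul, ← Real.exp_nat_mul]
    apply mul_le_mul_of_nonneg_left _ (by positivity)
    apply Real.exp_le_exp.2
    nlinarith
  have hr : Real.exp (-a) < 1 := by rw [Real.exp_lt_one_iff]; linarith
  calc ∑ k ∈ S, (Real.log N * Real.exp (-((k : ℝ) + 1))) ^ a
      ≤ ∑ k ∈ S, (Real.log N) ^ a * (Real.exp (-a)) ^ k := Finset.sum_le_sum (fun k _ => h0 k)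
    _ = (Real.log N) ^ a * ∑ k ∈ S, (Real.exp (-a)) ^ k := by rw [Finset.mul_sum]
    _ ≤ (Real.log N) ^ a * (1 - Real.exp (-a))⁻¹ := by
        apply mul_le_mul_of_nonneg_left _ (by positivity)
        have hs : Summable (fun k : ℕ => (Real.exp (-a)) ^ k) :=
          summable_geometric_of_lt_one (Real.exp_pos _).le hr
        calc ∑ k ∈ S, (Real.exp (-a)) ^ k ≤ ∑' k : ℕ, (Real.exp (-a)) ^ k :=
              hs.sum_le_tsum S (fun k _ => by positivity)
          _ = _ := tsum_geometric_of_lt_one (Real.exp_pos _).le hr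
    _ = _ := by ring

theorem red_upper (hR : S_URED) (hM1 : S_M1) (hSM : S_SMU) (γ p : ℝ) (hp : 0 < p) (hp1 : p ≤ 1)
    (p0 : ℕ) (hG : Good γ p0) (a b : ℝ) (ha0 : 0 < a) (ha : (al γ) ^ 2 * p ^ 2 / 4 ≤ a)
    (hb : 0 ≤ b) (C1 : ℝ) (hC1 : 0 ≤ C1)
    (h : ∀ y : ℝ, (p0 : ℝ) + 1 ≤ y →
      ∫ ω : Om, (JF γ (PrS p0 y) (-(1 / Real.log y)) ω / Real.log y) ^ (p / 2) ∂P ≤
        C1 * ((Real.log y) ^ a * (1 + Real.log (Real.log y)) ^ b)) :
    ∃ C : ℝ, 0 < C ∧ ∀ N : ℕ, 3 ≤ N →
      ∫ ω : Om, ‖D γ N ω‖ ^ p ∂P ≤ C * ((Real.log N) ^ a * (1 + Real.log (Real.log N)) ^ b) := by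
  obtain ⟨C, B, N0, hC, hB, hN0, hR'⟩ := hR γ p0 hG p hp hp1
  obtain ⟨c2, C2, hc2, hC2, hM⟩ := hM1 γ p0 hG 1
  obtain ⟨C3, hC3, hS⟩ := hSM γ p0 p hp hp1
  obtain ⟨hp04, hlp0⟩ := good_p0 hG
  -- large M
  have hlog3 : (1 : ℝ) ≤ Real.log 3 := by
    rw [Real.le_log_iff_exp_le (by norm_num)]
    exact Real.exp_one_lt_d9.le.trans (by norm_num)
  have hlogN : ∀ N : ℕ, 3 ≤ N → 1 ≤ Real.log N := fun N hN =>
    hlog3.trans (Real.log_le_log (by norm_num) (by exact_mod_cast hN))
  -- eventual conditions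
  have ev1 : ∀ᶠ N : ℕ in Filter.atTop, (Real.log (Real.log N)) ^ B ≤ (Real.log N) ^ a := by
    have h1 : (fun x : ℝ => (Real.log x) ^ B) =o[Filter.atTop] (fun x : ℝ => x ^ a) :=
      isLittleO_log_rpow_rpow_atTop B ha0
    have h2 := (h1.bound (zero_lt_one)).and (Filter.eventually_ge_atTop (1 : ℝ))
    have h3 : Filter.Tendsto (fun N : ℕ => Real.log (N : ℝ)) Filter.atTop Filter.atTop :=
      Real.tendsto_log_atTop.comp tendsto_natCast_atTop_atTop
    filter_upwards [h3.eventually h2] with N hN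
    have h4 := hN.1
    rw [one_mul, Real.norm_of_nonneg (Real.rpow_nonneg (Real.log_nonneg hN.2) _),
      Real.norm_of_nonneg (Real.rpow_nonneg (by linarith [hN.2]) _)] at h4
    exact h4
  have ev2 : ∀ᶠ N : ℕ in Filter.atTop, Real.log (p0 + 1) ≤ (Real.log (Real.log N)) ^ 2 := by
    have h3 : Filter.Tendsto (fun N : ℕ => (Real.log (Real.log (N : ℝ))) ^ 2) Filter.atTop
        Filter.atTop :=
      (Filter.tendsto_pow_atTop (by norm_num)).comp (Real.tendsto_log_atTop.comp
        (Real.tendsto_log_atTop.comp tendsto_natCast_atTop_atTop))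
    exact h3.eventually (Filter.eventually_ge_atTop _)
  obtain ⟨N1, hN1⟩ := Filter.eventually_atTop.1 (ev1.and (ev2.and (Filter.eventually_ge_atTop
    (max N0 16))))
  have hyb : ∀ N : ℕ, 3 ≤ N → 1 ≤ 1 + Real.log (Real.log N) := fun N hN => by
    linarith [Real.log_nonneg (hlogN N hN)]
  have hlarge : ∀ M : ℕ, N1 ≤ M → ∫ ω : Om, ‖DA γ (PrS p0 M) M ω‖ ^ p ∂P ≤
      (C + C * ((C1 + C2) * (1 - Real.exp (-a))⁻¹)) *
        ((Real.log M) ^ a * (1 + Real.log (Real.log M)) ^ b) := by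
    intro M hM1'
    obtain ⟨e1, e2, e3⟩ := hN1 M hM1'
    have hM16 : 16 ≤ M := le_trans (le_max_right _ _) e3
    have hM3 : 3 ≤ M := by omega
    have hlM := hlogN M hM3
    have hLL : 0 ≤ Real.log (Real.log M) := Real.log_nonneg hlM
    have hb1 : 1 ≤ (1 + Real.log (Real.log M)) ^ b := Real.one_le_rpow (hyb M hM3) hb
    have hmain := hR' M (le_trans (le_max_left _ _) e3)
    refine hmain.trans ?_
    have hsum : ∑ k ∈ KU M, (∫ ω : Om, ‖F γ (PrS p0 (yk M k)) 0 0 ω‖ ^ p ∂P +
        ∫ ω : Om, (JF γ (PrS p0 (yk M k)) (-(1 / Real.log (yk M k))) ω / Real.log (yk M k)) ^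
          (p / 2) ∂P) ≤ (C1 + C2) * (1 - Real.exp (-a))⁻¹ *
          ((Real.log M) ^ a * (1 + Real.log (Real.log M)) ^ b) := by
      have hk : ∀ k ∈ KU M, (∫ ω : Om, ‖F γ (PrS p0 (yk M k)) 0 0 ω‖ ^ p ∂P +
        ∫ ω : Om, (JF γ (PrS p0 (yk M k)) (-(1 / Real.log (yk M k))) ω / Real.log (yk M k)) ^
          (p / 2) ∂P) ≤ ((C1 + C2) * (1 + Real.log (Real.log M)) ^ b) *
            (Real.log M * Real.exp (-((k : ℝ) + 1))) ^ a := by
        intro k hk
        unfold KU at hk
        rw [Finset.mem_filter] at hk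
        have hlk : Real.log (p0 + 1) ≤ Real.log (yk M k) := e2.trans hk.2
        have hykpos : 0 < yk M k := by unfold yk; positivity
        have hyk : (p0 : ℝ) + 1 ≤ yk M k := by
          rwa [Real.log_le_log_iff (by positivity) hykpos] at hlk
        have hlp1 : 1 ≤ Real.log (yk M k) := by
          refine le_trans ?_ (Real.log_le_log (by linarith) (le_trans (by linarith) hyk :
            (p0 : ℝ) ≤ yk M k))
          exact hlp0
        have f1 := (hM p0 (yk M k) 0 0 p le_rfl (by linarith) (by simp) hp.le hp1).2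
        have f1' : ∫ ω : Om, ‖F γ (PrS p0 (yk M k)) 0 0 ω‖ ^ p ∂P ≤
            C2 * (Real.log (yk M k)) ^ a := by
          refine f1.trans (mul_le_mul_of_nonneg_left ?_ hC2.le)
          calc (Real.log (yk M k) / Real.log p0) ^ ((al γ) ^ 2 * p ^ 2 / 4)
              ≤ (Real.log (yk M k)) ^ ((al γ) ^ 2 * p ^ 2 / 4) := by
                apply Real.rpow_le_rpow (by positivity) (div_le_self (by linarith) hlp0)
                positivity
            _ ≤ _ := Real.rpow_le_rpow_of_exponent_le hlp1 ha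
        have f2 := h (yk M k) hyk
        have hle : Real.log (yk M k) ≤ Real.log M := by
          rw [log_yk]
          apply mul_le_of_le_one_right (by linarith)
          rw [Real.exp_le_one_iff]
          have : (0 : ℝ) ≤ k := Nat.cast_nonneg k
          linarith
        have f3 : (1 + Real.log (Real.log (yk M k))) ^ b ≤ (1 + Real.log (Real.log M)) ^ b := by
          apply Real.rpow_le_rpow
          · linarith [Real.log_nonneg hlp1]
          · linarith [Real.log_le_log (by linarith) hle]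
          · exact hb
        have f4 : 0 ≤ (Real.log (yk M k)) ^ a := by positivity
        calc _ ≤ C2 * (Real.log (yk M k)) ^ a + C1 * ((Real.log (yk M k)) ^ a *
              (1 + Real.log (Real.log (yk M k))) ^ b) := add_le_add f1' f2
          _ ≤ C2 * ((Real.log (yk M k)) ^ a * (1 + Real.log (Real.log M)) ^ b) +
              C1 * ((Real.log (yk M k)) ^ a * (1 + Real.log (Real.log M)) ^ b) := by
              apply add_le_add
              · apply mul_le_mul_of_nonneg_left _ hC2.le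
                exact le_mul_of_one_le_right f4 hb1
              · exact mul_le_mul_of_nonneg_left (mul_le_mul_of_nonneg_left f3 f4) hC1
          _ = _ := by rw [log_yk]; ring
      calc _ ≤ ∑ k ∈ KU M, ((C1 + C2) * (1 + Real.log (Real.log M)) ^ b) *
            (Real.log M * Real.exp (-((k : ℝ) + 1))) ^ a := Finset.sum_le_sum hk
        _ = ((C1 + C2) * (1 + Real.log (Real.log M)) ^ b) *
            ∑ k ∈ KU M, (Real.log M * Real.exp (-((k : ℝ) + 1))) ^ a := by rw [Finset.mul_sum]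
        _ ≤ ((C1 + C2) * (1 + Real.log (Real.log M)) ^ b) *
            ((1 - Real.exp (-a))⁻¹ * (Real.log M) ^ a) := by
            apply mul_le_mul_of_nonneg_left (sum_levels ha0 hlM _) (by positivity)
        _ = _ := by ring
    have e1' : (Real.log (Real.log M)) ^ B ≤ (Real.log M) ^ a * (1 + Real.log (Real.log M)) ^ b :=
      e1.trans (le_mul_of_one_le_right (by positivity) hb1)
    calc _ ≤ C * ((Real.log M) ^ a * (1 + Real.log (Real.log M)) ^ b) + C * ((C1 + C2) *
          (1 - Real.exp (-a))⁻¹ * ((Real.log M) ^ a * (1 + Real.log (Real.log M)) ^ b)) :=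
          add_le_add (mul_le_mul_of_nonneg_left e1' hC.le) (mul_le_mul_of_nonneg_left hsum hC.le)
      _ = _ := by ring
  set K : ℝ := C + C * ((C1 + C2) * (1 - Real.exp (-a))⁻¹) with hK
  have hr : Real.exp (-a) < 1 := by rw [Real.exp_lt_one_iff]; linarith
  have hKpos : 0 < K := by
    have : 0 < (1 - Real.exp (-a))⁻¹ := inv_pos.2 (by linarith)
    positivity
  set K2 : ℝ := ∑ M ∈ Finset.range N1, ∫ ω : Om, ‖DA γ (PrS p0 M) M ω‖ ^ p ∂P with hK2
  have hnn : ∀ M : ℕ, 0 ≤ ∫ ω : Om, ‖DA γ (PrS p0 M) M ω‖ ^ p ∂P := fun M =>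
    integral_nonneg (fun ω => by positivity)
  have hK2nn : 0 ≤ K2 := Finset.sum_nonneg (fun M _ => hnn M)
  refine ⟨C3 * (K + K2), by positivity, ?_⟩
  intro N hN
  have hlN := hlogN N hN
  have hb1 : 1 ≤ (1 + Real.log (Real.log N)) ^ b := Real.one_le_rpow (hyb N hN) hb
  have hg1 : 1 ≤ (Real.log N) ^ a * (1 + Real.log (Real.log N)) ^ b :=
    one_le_mul_of_one_le_of_one_le (Real.one_le_rpow hlN ha0.le) hb1
  have hkey := hS N ((K + K2) * ((Real.log N) ^ a * (1 + Real.log (Real.log N)) ^ b)) (by omega) ?_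
  · refine hkey.trans (le_of_eq (by ring))
  · intro M hM1' hMN
    rcases lt_or_ge M N1 with hlt | hge
    · have : ∫ ω : Om, ‖DA γ (PrS p0 M) M ω‖ ^ p ∂P ≤ K2 :=
        Finset.single_le_sum (f := fun M : ℕ => ∫ ω : Om, ‖DA γ (PrS p0 M) M ω‖ ^ p ∂P)
          (fun M _ => hnn M) (Finset.mem_range.2 hlt)
      calc _ ≤ K2 := this
        _ ≤ (K + K2) * 1 := by linarith
        _ ≤ _ := mul_le_mul_of_nonneg_left hg1 (by positivity)
    · have hM16 : 16 ≤ M := le_trans (le_max_right _ _) (hN1 M hge).2.2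
      have hlM := hlogN M (by omega)
      have hle : Real.log M ≤ Real.log N := Real.log_le_log (by positivity) (by exact_mod_cast hMN)
      have g1 : (Real.log M) ^ a ≤ (Real.log N) ^ a := Real.rpow_le_rpow (by linarith) hle ha0.le
      have g2 : (1 + Real.log (Real.log M)) ^ b ≤ (1 + Real.log (Real.log N)) ^ b := by
        apply Real.rpow_le_rpow
        · linarith [Real.log_nonneg hlM]
        · linarith [Real.log_le_log (by linarith) hle]
        · exact hb
      calc _ ≤ K * ((Real.log M) ^ a * (1 + Real.log (Real.log M)) ^ b) := hlarge M hge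
        _ ≤ K * ((Real.log N) ^ a * (1 + Real.log (Real.log N)) ^ b) := by
            apply mul_le_mul_of_nonneg_left _ hKpos.le
            apply mul_le_mul g1 g2 _ (by positivity)
            apply Real.rpow_nonneg
            linarith [Real.log_nonneg hlM]
        _ ≤ _ := by
            apply mul_le_mul_of_nonneg_right (by linarith) (by linarith)

end PM
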