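import Pool.Agent.H24.PM.Defs

/-! Statements of all modules of part 1 of project PM (MP_d91868_an). Every module proves one of
these propositions, possibly from others given as hypotheses. -/

namespace PM
open MeasureTheory Complex

/-! probability basics -/

def S_PROD : Prop := ∀ (S : Finset ℕ) (g : ℕ → UnitAddCircle → ℂ), (∀ l ∈ S, Continuous (g l)) →
  ∫ ω : Om, ∏ l ∈ S, g l (ω l) ∂P = ∏ l ∈ S, ∫ x : UnitAddCircle, g l x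

def S_INV : Prop := ∀ h : Om, MeasurePreserving (fun ω : Om => ω + h) P P

def S_MIX : Prop := ∀ A : Set ℕ, MeasurePreserving (mix A) (P.prod P) P

def S_SHIFT : Prop := ∀ h : ℝ, ∃ s : Om, ∀ l : ℕ, 0 < l → ∀ (σ t : ℝ) (ω : Om),
  pt σ (t + h) l ω = pt σ t l (ω + s)

def S_CONT : Prop := ∀ (γ : ℝ) (A : Finset ℕ), (∀ l ∈ A, l.Prime) →
  ContinuousOn (fun q : ℝ × ℝ × Om => F γ A q.1 q.2.1 q.2.2) {q | -(1 / 2) < q.1}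

def S_GC : Prop := ∀ (γ : ℝ) (p0 : ℕ), Good γ p0 → ∀ A : Finset ℕ, PA p0 A → ∀ σ : ℝ, Ln A σ →
  Continuous (fun q : ℝ × Om => G γ A σ q.1 q.2) ∧
  (∀ (t : ℝ) (ω : Om), ‖F γ A σ t ω‖ = Real.exp (G γ A σ t ω)) ∧
  (∀ (t : ℝ) (ω : Om), |G γ A σ t ω| ≤ A.card)

def S_GOOD : Prop := ∀ γ : ℝ, ∃ p0 : ℕ, Good γ p0

/-- the characters: multiplicative, unimodular, continuous, orthonormal -/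
def S_CHI : Prop := (∀ (m n : ℕ) (ω : Om), m ≠ 0 → n ≠ 0 → chi (m * n) ω = chi m ω * chi n ω) ∧
  (∀ (n : ℕ) (ω : Om), ‖chi n ω‖ = 1) ∧ (∀ n : ℕ, Continuous (chi n)) ∧
  (∀ m n : ℕ, m ≠ 0 → n ≠ 0 →
    ∫ ω : Om, chi m ω * (starRingEnd ℂ) (chi n ω) ∂P = if m = n then 1 else 0)

/-- independence of functions of complementary sets of coordinates -/
def S_IND : Prop := ∀ (A : Set ℕ) (f g : Om → ℝ), Measurable f → Measurable g →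
  (∀ ω, 0 ≤ f ω) → (∀ ω, 0 ≤ g ω) →
  (∀ ω ω' : Om, (∀ l ∈ A, ω l = ω' l) → f ω = f ω') →
  (∀ ω ω' : Om, (∀ l ∉ A, ω l = ω' l) → g ω = g ω') →
  ∫ ω : Om, f ω * g ω ∂P = (∫ ω : Om, f ω ∂P) * ∫ ω : Om, g ω ∂P

/-! local expansion, subharmonicity, moments -/

def S_EXP : Prop := ∀ γ : ℝ, ∃ C : ℝ, 0 < C ∧ ∀ x : ℂ, ‖x‖ ≤ 1 / 2 →
  ‖phi γ x - 1 - al γ * x‖ ≤ C * ‖x‖ ^ 2

def S_SUP : Prop := ∀ (γ : ℝ) (p0 : ℕ), Good γ p0 → ∀ A : Finset ℕ, PA p0 A →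
  ∀ (a σ0 t0 δ : ℝ), 0 < a → 0 < δ → (∀ l ∈ A, (|σ0| + 2 * δ) * Real.log l ≤ 8) →
  ∀ (σ t : ℝ), (σ - σ0) ^ 2 + (t - t0) ^ 2 ≤ δ ^ 2 → ∀ ω : Om,
  ‖F γ A σ t ω‖ ^ a ≤ (1 / Real.pi) * ∫ θ in (0 : ℝ)..(2 * Real.pi),
    ‖F γ A (σ0 + 2 * δ * Real.cos θ) (t0 + 2 * δ * Real.sin θ) ω‖ ^ a

/-- expansion of the local moments -/
def S_LOC : Prop := ∀ (γ : ℝ) (p0 : ℕ), Good γ p0 → ∀ (k : ℕ) (M : ℝ), ∃ C : ℝ, 0 < C ∧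
  ∀ l : ℕ, p0 < l → ∀ (a w : Fin k → ℂ), (∀ i, ‖a i‖ ≤ M) →
  (∀ i, ‖w i‖ ≤ Real.exp 8 / Real.sqrt l) →
  ‖(∫ x : UnitAddCircle, Complex.exp (∑ i, a i * Real.log ‖phi γ (zc x * w i)‖)) - 1 -
      (al γ) ^ 2 / 4 * ∑ i, ∑ j, a i * a j * ((w i * (starRingEnd ℂ) (w j)).re : ℂ)‖ ≤
    C * (l : ℝ) ^ (-(3 / 2) : ℝ)

def S_MOM : Prop := ∀ (γ : ℝ) (p0 : ℕ), Good γ p0 → ∀ (k : ℕ) (M : ℝ), ∃ C : ℝ, 0 < C ∧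
  ∀ (a : Fin k → ℂ) (A : Fin k → Finset ℕ) (σ t : Fin k → ℝ), (∀ i, ‖a i‖ ≤ M) →
  (∀ i, PA p0 (A i)) → (∀ i, Ln (A i) (σ i)) →
  ‖∫ ω : Om, Complex.exp (∑ i, a i * G γ (A i) (σ i) (t i) ω) ∂P‖ ≤
    C * Real.exp (((al γ) ^ 2 / 4 * ∑ i, ∑ j, a i * a j *
      CS (A i ∩ A j) (σ i + σ j) (t i - t j) : ℂ)).re

def S_MOML : Prop := ∀ (γ : ℝ) (p0 : ℕ), Good γ p0 → ∀ (k : ℕ) (M : ℝ), ∃ c : ℝ, 0 < c ∧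
  ∀ (a : Fin k → ℝ) (A : Fin k → Finset ℕ) (σ t : Fin k → ℝ), (∀ i, |a i| ≤ M) →
  (∀ i, PA p0 (A i)) → (∀ i, Ln (A i) (σ i)) →
  c * Real.exp ((al γ) ^ 2 / 4 * ∑ i, ∑ j, a i * a j * CS (A i ∩ A j) (σ i + σ j) (t i - t j)) ≤
    ∫ ω : Om, Real.exp (∑ i, a i * G γ (A i) (σ i) (t i) ω) ∂P

/-- one-point moments of |F| over the primes in (u,v] -/
def S_M1 : Prop := ∀ (γ : ℝ) (p0 : ℕ), Good γ p0 → ∀ M : ℝ, ∃ c C : ℝ, 0 < c ∧ 0 < C ∧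
  ∀ (u v σ t a : ℝ), (p0 : ℝ) ≤ u → u ≤ v → |σ| * Real.log v ≤ 8 → 0 ≤ a → a ≤ M →
  c * (Real.log v / Real.log u) ^ ((al γ) ^ 2 * a ^ 2 / 4) ≤
    ∫ ω : Om, ‖F γ (PrS u v) σ t ω‖ ^ a ∂P ∧
  ∫ ω : Om, ‖F γ (PrS u v) σ t ω‖ ^ a ∂P ≤
    C * (Real.log v / Real.log u) ^ ((al γ) ^ 2 * a ^ 2 / 4)

/-- the circle average majorising a power of |F| on a disc -/
noncomputable def U (γ : ℝ) (A : Finset ℕ) (a σ0 t0 δ : ℝ) (ω : Om) : ℝ :=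
  (1 / Real.pi) * ∫ θ in (0 : ℝ)..(2 * Real.pi),
    ‖F γ A (σ0 + 2 * δ * Real.cos θ) (t0 + 2 * δ * Real.sin θ) ω‖ ^ a

def S_CIR : Prop := ∀ (γ : ℝ) (p0 : ℕ), Good γ p0 → ∀ M : ℝ, ∃ C : ℝ, 0 < C ∧
  ∀ (u v a σ0 t0 δ : ℝ), (p0 : ℝ) ≤ u → u ≤ v → 0 < δ → (|σ0| + 2 * δ) * Real.log v ≤ 8 →
  0 < a → a ≤ M →
  Measurable (U γ (PrS u v) a σ0 t0 δ) ∧
  (∃ B : ℝ, ∀ ω, 0 ≤ U γ (PrS u v) a σ0 t0 δ ω ∧ U γ (PrS u v) a σ0 t0 δ ω ≤ B) ∧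
  (∀ (σ t : ℝ) (ω : Om), (σ - σ0) ^ 2 + (t - t0) ^ 2 ≤ δ ^ 2 →
    ‖F γ (PrS u v) σ t ω‖ ^ a ≤ U γ (PrS u v) a σ0 t0 δ ω) ∧
  (∀ t1 : ℝ, ∃ s : Om, ∀ ω : Om, U γ (PrS u v) a σ0 t1 δ ω = U γ (PrS u v) a σ0 t0 δ (ω + s)) ∧
  ∫ ω : Om, U γ (PrS u v) a σ0 t0 δ ω ∂P ≤
    C * (Real.log v / Real.log u) ^ ((al γ) ^ 2 * a ^ 2 / 4)

/-! number theory -/

/-- approximation of zeta by a partial sum -/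
def S_ZAP : Prop := ∃ C : ℝ, 0 < C ∧ ∀ ε τ T : ℝ, 0 < ε → ε ≤ 2 → 1 ≤ |τ| → |τ| ≤ T →
  ‖riemannZeta (1 + ε + τ * I) - ∑ n ∈ Finset.Icc 1 ⌊T⌋₊, (n : ℂ) ^ (-(1 + ε + τ * I))‖ ≤ C

/-- moments of the partial sums of zeta on the line 1 -/
def S_MVT : Prop := ∀ m : ℕ, ∃ C : ℝ, 0 < C ∧ ∀ ε T : ℝ, 0 < ε → ε ≤ 2 → 1 ≤ T →
  ∫ τ in (1 : ℝ)..T, ‖∑ n ∈ Finset.Icc 1 ⌊T⌋₊, (n : ℂ) ^ (-(1 + ε + τ * I))‖ ^ (2 * m) ≤ C * T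

/-- the prime sums are logarithms of zeta on the right of the line 1 -/
def S_NTZ : Prop := ∃ C : ℝ, 0 < C ∧ ∀ (v σ τ : ℝ), 2 ≤ v → |σ| * Real.log v ≤ 16 →
  |CS (PrS 1 v) σ τ - Real.log ‖riemannZeta (1 + 1 / Real.log v + τ * I)‖| ≤ C

def S_NTA : Prop := ∃ C : ℝ, 0 < C ∧ ∀ (u v σ : ℝ), 2 ≤ u → u ≤ v → |σ| * Real.log v ≤ 16 →
  |CS (PrS u v) σ 0 - Real.log (Real.log v / Real.log u)| ≤ C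

def S_NTC : Prop := ∃ C : ℝ, 0 < C ∧ ∀ (u v σ τ : ℝ), 2 ≤ u → u ≤ v → |τ| ≤ 1 →
  1 ≤ |τ| * Real.log u → |σ| * Real.log v ≤ 16 → |CS (PrS u v) σ τ| ≤ C

def S_NTD : Prop := ∃ C : ℝ, 0 < C ∧ ∀ (v σ τ : ℝ), 2 ≤ v → 1 ≤ |τ| → |σ| * Real.log v ≤ 16 →
  CS (PrS 1 v) σ τ ≤ Real.log (Real.log (|τ| + 3)) + C

def S_NTE : Prop := ∃ C : ℝ, 0 < C ∧ ∀ (v σ τ : ℝ), 2 ≤ v → 1 ≤ |τ| → |σ| * Real.log v ≤ 16 →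
  -(3 / 4) * Real.log (Real.log v) - (1 / 4) * Real.log (Real.log (|τ| + 3)) - C ≤
    CS (PrS 1 v) σ τ

def S_NTF : Prop := ∀ β : ℝ, 0 < β → ∃ C : ℝ, 0 < C ∧ ∀ (T v σ : ℝ), 1 ≤ T → 2 ≤ v →
  |σ| * Real.log v ≤ 16 → ∫ τ in (1 : ℝ)..T, Real.exp (β * CS (PrS 1 v) σ τ) ≤ C * T

/-- Brun-Titchmarsh -/
def S_BT : Prop := ∃ C : ℝ, 0 < C ∧ ∀ (x h : ℝ), 0 ≤ x → 2 ≤ h →
  ((PrS x (x + h)).card : ℝ) ≤ C * h / Real.log h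

/-- lower bound sieve for integers without prime factors up to y in a short interval -/
def S_SIEVE : Prop := ∃ K : ℕ, ∃ c : ℝ, 0 < c ∧ ∀ (x y H : ℝ), 0 ≤ x → 2 ≤ y → y ^ K ≤ H →
  c * H / Real.log y ≤ (((Finset.range (⌊x + H⌋₊ + 1)).filter
    (fun n : ℕ => x < n ∧ ∀ l ∈ n.primeFactors, y < (l : ℝ))).card : ℝ)

/-- rough integers with bounded ratio of logs in very short intervals -/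
def S_RS : Prop := ∀ γ : ℝ, ∃ C y0 : ℝ, 0 < C ∧ 2 ≤ y0 ∧ ∀ (y v X : ℝ), y0 ≤ y → 1 ≤ X →
  X ^ 2 ≤ y → 0 < v →
  ∑ r ∈ (Finset.Icc 2 ⌊v * (1 + 1 / X)⌋₊).filter
    (fun r : ℕ => v ≤ r ∧ ∀ l ∈ r.primeFactors, y < (l : ℝ) ∧ (l : ℝ) ≤ y ^ Real.exp 1),
    b γ r ^ 2 ≤ C / (X * Real.log y)

/-- the same sum without short interval -/
def S_RT : Prop := ∀ γ : ℝ, ∃ C : ℝ, 0 < C ∧ ∀ (y : ℝ) (M : ℕ), 2 ≤ y →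
  ∑ r ∈ (Finset.Icc 1 M).filter
    (fun r : ℕ => ∀ l ∈ r.primeFactors, y < (l : ℝ) ∧ (l : ℝ) ≤ y ^ Real.exp 1),
    b γ r ^ 2 ≤ C

/-- short sums of the squared coefficients, and full sums over smooth numbers -/
def S_SE : Prop := ∀ γ : ℝ, ∃ C B : ℝ, 0 < C ∧ 0 < B ∧ ∀ (N : ℕ) (X : ℝ), 3 ≤ N → 1 ≤ X →
  ∑ n ∈ (Finset.Icc 1 ⌊(N : ℝ) * (1 + 1 / X)⌋₊).filter (fun n : ℕ => N < n), b γ n ^ 2 ≤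
    C * (Real.log N) ^ B * ((1 / X) ^ (1 / 2 : ℝ) + (1 / (N : ℝ)) ^ (1 / 2 : ℝ))

def S_SS : Prop := ∀ γ : ℝ, ∃ C B : ℝ, 0 < C ∧ 0 < B ∧ ∀ (y : ℝ) (M : ℕ), 2 ≤ y →
  ∑ n ∈ (Finset.Icc 1 M).filter (fun n : ℕ => n.primeFactors ⊆ PrS 1 y), b γ n ^ 2 ≤
    C * (Real.log y) ^ B

/-! Plancherel type statements -/

/-- Euler product over the integers composed of primes of A -/
def S_EUL : Prop := ∀ (γ : ℝ) (A : Finset ℕ) (σ t : ℝ) (ω : Om), (∀ l ∈ A, l.Prime) →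
  -(1 / 2) < σ →
  Summable (fun n : ℕ => if n.primeFactors ⊆ A then b γ n * (n : ℝ) ^ (-σ) else 0) ∧
  HasSum (fun n : ℕ => if n.primeFactors ⊆ A then
    (b γ n : ℂ) * chi n ω * (n : ℂ) ^ (-(σ + t * I)) else 0) (F γ A σ t ω)

/-- Plancherel for partial sums on the right -/
def S_PP : Prop := ∀ (c : ℕ → ℂ) (σ : ℝ), 0 < σ → c 0 = 0 → Summable (fun n => ‖c n‖) →
  ∫ z in Set.Ioi (1 : ℝ), ‖∑ n ∈ Finset.Icc 1 ⌊z⌋₊, c n‖ ^ 2 * z ^ (-1 - 2 * σ) =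
    1 / (2 * Real.pi) * ∫ t : ℝ, ‖∑' n : ℕ, c n * (n : ℂ) ^ (-(σ + t * I))‖ ^ 2 / (σ ^ 2 + t ^ 2)

/-- Plancherel for tails of the series on the left -/
def S_PM : Prop := ∀ (c : ℕ → ℂ) (σ : ℝ), 0 < σ → c 0 = 0 →
  Summable (fun n => ‖c n‖ * (n : ℝ) ^ σ) →
  IntegrableOn (fun z : ℝ => ‖(∑' n : ℕ, c n) - ∑ n ∈ Finset.Icc 1 ⌊z⌋₊, c n‖ ^ 2 *
    z ^ (2 * σ - 1)) (Set.Ioi 1) ∧
  ∫ z in Set.Ioi (1 : ℝ), ‖(∑' n : ℕ, c n) - ∑ n ∈ Finset.Icc 1 ⌊z⌋₊, c n‖ ^ 2 *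
    z ^ (2 * σ - 1) ≤
    1 / (2 * Real.pi) * ∫ t : ℝ, ‖∑' n : ℕ, c n * (n : ℂ) ^ (-(-σ + t * I))‖ ^ 2 / (σ ^ 2 + t ^ 2)

def S_PLU : Prop := ∀ (γ : ℝ) (A : Finset ℕ) (σ : ℝ) (ω : Om), (∀ l ∈ A, l.Prime) → 0 < σ →
  JD γ A σ ω = 1 / (2 * Real.pi) * JF γ A σ ω

def S_PLT : Prop := ∀ (γ : ℝ) (A : Finset ℕ) (σ : ℝ) (ω : Om), (∀ l ∈ A, l.Prime) → 0 < σ →
  σ < 1 / 2 →
  IntegrableOn (fun z : ℝ => ‖F γ A 0 0 ω - DA γ A z ω‖ ^ 2 * z ^ (2 * σ - 1)) (Set.Ioi 1) ∧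
  ∫ z in Set.Ioi (1 : ℝ), ‖F γ A 0 0 ω - DA γ A z ω‖ ^ 2 * z ^ (2 * σ - 1) ≤
    1 / (2 * Real.pi) * JF γ A (-σ) ω

def S_CSL : Prop := ∀ (γ : ℝ) (A : Finset ℕ) (σ t : ℝ) (ω : Om), (∀ l ∈ A, l.Prime) → 0 < σ →
  2 * σ * ‖F γ A (2 * σ) t ω‖ ^ 2 / ((2 * σ) ^ 2 + t ^ 2) ≤ JD γ A σ ω

/-- measurability and integrability of the two functionals -/
def S_JM : Prop := ∀ (γ : ℝ) (A : Finset ℕ) (σ : ℝ), (∀ l ∈ A, l.Prime) → -(1 / 2) < σ → σ ≠ 0 →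
  Measurable (fun ω : Om => JF γ A σ ω) ∧ (∃ B : ℝ, ∀ ω : Om, 0 ≤ JF γ A σ ω ∧ JF γ A σ ω ≤ B) ∧
  (∀ ω : Om, Integrable (fun t : ℝ => ‖F γ A σ t ω‖ ^ 2 / (σ ^ 2 + t ^ 2))) ∧
  (0 < σ → Measurable (fun ω : Om => JD γ A σ ω) ∧
    ∀ ω : Om, IntegrableOn (fun z : ℝ => ‖DA γ A z ω‖ ^ 2 * z ^ (-1 - 2 * σ)) (Set.Ioi 1))

/-! chaos estimates -/

/-- weak type bound -/
def S_WEAK : Prop := ∀ (γ : ℝ) (p0 : ℕ), Good γ p0 → ∃ C : ℝ, 0 < C ∧ ∀ (y σ μ : ℝ),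
  (p0 : ℝ) + 1 ≤ y → 1 ≤ 4 * |σ| * Real.log y → |σ| * Real.log y ≤ 2 → 0 < μ →
  P.real {ω | μ ^ 2 * Real.log y ≤ JF γ (PrS p0 y) σ ω} ≤ C * (Real.log y) ^ ((al γ) ^ 2 / 4) / μ

/-- part of the mean square near height exp n / log y -/
def S_MAN : Prop := ∀ (γ p : ℝ), 0 < p → p ≤ 1 → al γ * p ≤ 2 →
  ∀ p0 : ℕ, Good γ p0 → ∃ C : ℝ, 0 < C ∧ ∀ (y σ : ℝ) (n : ℕ),
  (p0 : ℝ) + 1 ≤ y → 1 ≤ 4 * |σ| * Real.log y → |σ| * Real.log y ≤ 2 →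
  (n : ℝ) ≤ Real.log (Real.log y) →
  ∫ ω : Om, (Real.log y * Real.exp (-2 * n) *
      ∫ t in Set.Icc (-(Real.exp (n + 1) / Real.log y)) (Real.exp (n + 1) / Real.log y),
        ‖F γ (PrS p0 y) σ t ω‖ ^ 2) ^ (p / 2) ∂P ≤
    C * (Real.log y * Real.exp (-n)) ^ ((al γ) ^ 2 * p ^ 2 / 4) *
      Real.exp (p * max (al γ - 1) 0 * n)

/-- part of the mean square above height 1 -/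
def S_MAF : Prop := ∀ (γ p : ℝ), 0 < p → p ≤ 1 → al γ < 2 →
  ∀ p0 : ℕ, Good γ p0 → ∃ C : ℝ, 0 < C ∧ ∀ (y σ : ℝ),
  (p0 : ℝ) + 1 ≤ y → 1 ≤ 4 * |σ| * Real.log y → |σ| * Real.log y ≤ 2 →
  ∫ ω : Om, ((∫ t in {t : ℝ | 1 < |t|}, ‖F γ (PrS p0 y) σ t ω‖ ^ 2 / (σ ^ 2 + t ^ 2)) /
      Real.log y) ^ (p / 2) ∂P ≤
    C * (Real.log y) ^ (p * max (al γ - 1) 0)

/-- moments of the mean square in the subcritical range -/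
def S_MA : Prop := ∀ (γ p : ℝ), 0 < p → p ≤ 1 → al γ * (1 + Real.sqrt (1 - p)) < 2 →
  ∀ p0 : ℕ, Good γ p0 → ∃ C : ℝ, 0 < C ∧ ∀ (y σ : ℝ),
  (p0 : ℝ) + 1 ≤ y → 1 ≤ 4 * |σ| * Real.log y → |σ| * Real.log y ≤ 2 →
  ∫ ω : Om, (JF γ (PrS p0 y) σ ω / Real.log y) ^ (p / 2) ∂P ≤
    C * (Real.log y) ^ ((al γ) ^ 2 * p ^ 2 / 4)

/-- point exp (exp s) -/
noncomputable def xs (s : ℕ) : ℝ := Real.exp (Real.exp s)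

/-- Fejer type local limit upper bound, one point, tilt reduced by θ beyond scale s -/
def S_ONE : Prop := ∀ (γ : ℝ) (p0 : ℕ), Good γ p0 → ∃ C y0 : ℝ, 0 < C ∧ Real.exp 3 ≤ y0 ∧
  ∀ (y θ x t : ℝ) (s : ℕ), y0 ≤ y → 0 ≤ θ → θ ≤ 1 → (s : ℝ) ≤ Real.log (Real.log y) →
  ∫ ω : Om, Set.indicator {ω | x ≤ G γ (PrS p0 y) (2 / Real.log y) t ω ∧
      G γ (PrS p0 y) (2 / Real.log y) t ω ≤ x + 1}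
    (fun ω => Real.exp (G γ (PrS p0 y) (2 / Real.log y) t ω - θ * (G γ (PrS p0 y) (2 / Real.log y) t ω
      - G γ (PrS p0 (xs s)) (2 / Real.log y) t ω))) ω ∂P ≤
    C / Real.sqrt (Real.log (Real.log y)) *
      Real.exp ((al γ) ^ 2 / 4 * (s + (1 - θ) ^ 2 * (Real.log (Real.log y) - s)))

/-- two points at distance at least one -/
def S_FAR : Prop := ∀ (γ : ℝ) (p0 : ℕ), Good γ p0 → ∀ B : ℝ, ∃ C y0 : ℝ, 0 < C ∧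
  Real.exp 3 ≤ y0 ∧ ∀ (y x1 x2 t1 t2 : ℝ), y0 ≤ y → 1 ≤ |t1 - t2| →
  |t1 - t2| ≤ (Real.log y) ^ B →
  ∫ ω : Om, Set.indicator {ω | (x1 ≤ G γ (PrS p0 y) (2 / Real.log y) t1 ω ∧
      G γ (PrS p0 y) (2 / Real.log y) t1 ω ≤ x1 + 1) ∧
      (x2 ≤ G γ (PrS p0 y) (2 / Real.log y) t2 ω ∧
      G γ (PrS p0 y) (2 / Real.log y) t2 ω ≤ x2 + 1)}
    (fun ω => Real.exp (G γ (PrS p0 y) (2 / Real.log y) t1 ω +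
      G γ (PrS p0 y) (2 / Real.log y) t2 ω)) ω ∂P ≤
    C / Real.log (Real.log y) * (Real.log y) ^ ((al γ) ^ 2 / 2) *
      Real.exp ((al γ) ^ 2 / 2 * CS (PrS 1 y) (4 / Real.log y) (t1 - t2))

/-- two points at distance about exp (-s) -/
def S_NEAR : Prop := ∀ (γ : ℝ) (p0 : ℕ), Good γ p0 → ∃ C y0 : ℝ, 0 < C ∧ Real.exp 3 ≤ y0 ∧
  ∀ (y x t1 t2 : ℝ) (s : ℕ), y0 ≤ y → (s : ℝ) ≤ Real.log (Real.log y) → |t1 - t2| ≤ 1 →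
  (Real.exp (-((s : ℝ) + 1)) ≤ |t1 - t2| ∨ Real.log (Real.log y) ≤ (s : ℝ) + 1) →
  ∫ ω : Om, Set.indicator {ω | x ≤ G γ (PrS p0 y) (2 / Real.log y) t1 ω ∧
      G γ (PrS p0 y) (2 / Real.log y) t1 ω ≤ x + 1}
    (fun ω => Real.exp (G γ (PrS p0 y) (2 / Real.log y) t1 ω +
      G γ (PrS p0 y) (2 / Real.log y) t2 ω - G γ (PrS p0 (xs s)) (2 / Real.log y) t1 ω)) ω ∂P ≤
    C / Real.sqrt (Real.log (Real.log y)) *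
      Real.exp ((al γ) ^ 2 / 4 * (s + 2 * (Real.log (Real.log y) - s)))

/-- under the tilt by |F| the logarithm of |F| is near its mean -/
def S_TLT : Prop := ∀ (γ : ℝ) (p0 : ℕ), Good γ p0 → ∃ A c y0 : ℝ, 1 ≤ A ∧ 0 < c ∧
  Real.exp 3 ≤ y0 ∧ ∀ (y t : ℝ), y0 ≤ y →
  c * (Real.log y) ^ ((al γ) ^ 2 / 4) ≤
  ∫ ω : Om, Set.indicator {ω | |G γ (PrS p0 y) (2 / Real.log y) t ω -
      (al γ) ^ 2 / 2 * Real.log (Real.log y)| ≤ A * Real.sqrt (Real.log (Real.log y)) - 2}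
    (fun ω => Real.exp (G γ (PrS p0 y) (2 / Real.log y) t ω)) ω ∂P

/-- level of block k -/
noncomputable def xk (y lam : ℝ) (k : ℕ) : ℝ := Real.log lam + Real.log (Real.log y) + k

/-- admissible blocks -/
noncomputable def KW (γ y A lam : ℝ) : Finset ℕ :=
  (Finset.range (⌊(al γ) ^ 2 * Real.log (Real.log y)⌋₊ + 1)).filter
    (fun k => |xk y lam k - (al γ) ^ 2 / 2 * Real.log (Real.log y)| ≤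
      A * Real.sqrt (Real.log (Real.log y)))

/-- the good event at t in block k -/
def Ev (γ : ℝ) (p0 : ℕ) (y β κ lam : ℝ) (k : ℕ) (t : ℝ) : Set Om :=
  {ω | (xk y lam k ≤ G γ (PrS p0 y) (2 / Real.log y) t ω ∧
      G γ (PrS p0 y) (2 / Real.log y) t ω ≤ xk y lam k + 1) ∧
    ∀ s : ℕ, (s : ℝ) ≤ Real.log (Real.log y) →
      ((al γ) ^ 2 / 2 - β) * (Real.log (Real.log y) - s) - κ ≤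
        G γ (PrS p0 y) (2 / Real.log y) t ω - G γ (PrS p0 (xs s)) (2 / Real.log y) t ω}

/-- the counting functional of the second moment method -/
noncomputable def W (γ : ℝ) (p0 : ℕ) (y β κ A lam : ℝ) (ω : Om) : ℝ :=
  Real.log y * ∑ k ∈ KW γ y A lam, ∫ t in Set.Ioc (Real.exp k) (Real.exp (k + 1)),
    Set.indicator (Ev γ p0 y β κ lam k t) (fun _ => (1 : ℝ)) ω

def S_WM : Prop := ∀ (γ : ℝ) (p0 : ℕ), Good γ p0 → ∀ (y β κ A lam : ℝ), Real.exp 3 ≤ y →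
  (∀ k : ℕ, Measurable (fun q : ℝ × Om =>
    Set.indicator (Ev γ p0 y β κ lam k q.1) (fun _ => (1 : ℝ)) q.2)) ∧
  Measurable (W γ p0 y β κ A lam) ∧
  (∃ B : ℝ, ∀ ω, 0 ≤ W γ p0 y β κ A lam ω ∧ W γ p0 y β κ A lam ω ≤ B) ∧
  (∀ ω, 0 < W γ p0 y β κ A lam ω → ∃ t : ℝ, 1 ≤ t ∧ ∃ k : ℕ, Real.exp k ≤ t ∧
    t ≤ Real.exp (k + 1) ∧ ω ∈ Ev γ p0 y β κ lam k t)

def S_EWL : Prop := ∀ (γ : ℝ) (p0 : ℕ), Good γ p0 → 1 < γ → ∀ β : ℝ, 0 < β →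
  β < (al γ) ^ 2 / 4 - 1 → ∃ A κ c y0 : ℝ, 1 ≤ A ∧ 0 < κ ∧ 0 < c ∧ Real.exp 3 ≤ y0 ∧
  ∀ (y lam : ℝ), y0 ≤ y → (Real.log y) ^ ((al γ) ^ 2 / 4) ≤ lam →
  lam ≤ (Real.log y) ^ ((al γ) ^ 2 / 4 + ((al γ) ^ 2 / 4 - 1) / 2) →
  c * (Real.log y) ^ ((al γ) ^ 2 / 4) / lam ≤ ∫ ω : Om, W γ p0 y β κ A lam ω ∂P

/-- pairs of points at distance at least 1 -/
def S_EWF : Prop := ∀ (γ : ℝ) (p0 : ℕ), Good γ p0 → 1 < γ → ∀ β A κ : ℝ, 1 ≤ A →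
  ∃ C y0 : ℝ, 0 < C ∧ Real.exp 3 ≤ y0 ∧
  ∀ (y lam : ℝ) (k1 k2 : ℕ), y0 ≤ y → 0 < lam → k1 ∈ KW γ y A lam → k2 ∈ KW γ y A lam →
  (Real.log y) ^ 2 * ∫ t1 in Set.Ioc (Real.exp k1) (Real.exp (k1 + 1)),
    ∫ t2 in Set.Ioc (Real.exp k2) (Real.exp (k2 + 1)) ∩ {t2 | 1 ≤ |t1 - t2|},
      P.real (Ev γ p0 y β κ lam k1 t1 ∩ Ev γ p0 y β κ lam k2 t2) ≤
    C / Real.log (Real.log y) * ((Real.log y) ^ ((al γ) ^ 2 / 4) / lam) ^ 2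

/-- pairs of points at distance at most 1 -/
def S_EWN : Prop := ∀ (γ : ℝ) (p0 : ℕ), Good γ p0 → ∀ β κ : ℝ, β < (al γ) ^ 2 / 4 - 1 →
  ∃ C y0 : ℝ, 0 < C ∧ Real.exp 3 ≤ y0 ∧
  ∀ (y lam : ℝ) (k1 k2 : ℕ), y0 ≤ y → 0 < lam →
  (Real.log y) ^ 2 * ∫ t1 in Set.Ioc (Real.exp k1) (Real.exp (k1 + 1)),
    ∫ t2 in Set.Ioc (Real.exp k2) (Real.exp (k2 + 1)) ∩ {t2 | |t1 - t2| ≤ 1},
      P.real (Ev γ p0 y β κ lam k1 t1 ∩ Ev γ p0 y β κ lam k2 t2) ≤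
    C / Real.sqrt (Real.log (Real.log y)) * ((Real.log y) ^ ((al γ) ^ 2 / 4) / lam) *
      Real.exp ((k1 : ℝ) - k2)

def S_EWU : Prop := ∀ (γ : ℝ) (p0 : ℕ), Good γ p0 → 1 < γ → ∀ β A κ : ℝ, 0 < β →
  β < (al γ) ^ 2 / 4 - 1 → 1 ≤ A → 0 < κ → ∃ C y0 : ℝ, 0 < C ∧ Real.exp 3 ≤ y0 ∧
  ∀ (y lam : ℝ), y0 ≤ y → (Real.log y) ^ ((al γ) ^ 2 / 4) ≤ lam →
  ∫ ω : Om, (W γ p0 y β κ A lam ω) ^ 2 ∂P ≤ C * (Real.log y) ^ ((al γ) ^ 2 / 4) / lam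

/-- the weak type bound is sharp -/
def S_BIG : Prop := ∀ (γ : ℝ) (p0 : ℕ), Good γ p0 → 1 < γ → ∃ c1 c2 c3 y0 : ℝ, 0 < c1 ∧ 0 < c2 ∧
  0 < c3 ∧ Real.exp 3 ≤ y0 ∧ ∀ (y lam : ℝ), y0 ≤ y →
  (Real.log y) ^ ((al γ) ^ 2 / 4) ≤ lam → lam ≤ (Real.log y) ^ ((al γ) ^ 2 / 4 + c3) →
  c2 * (Real.log y) ^ ((al γ) ^ 2 / 4) / lam ≤
    P.real {ω | c1 * lam ^ 2 * Real.log y ≤ JD γ (PrS p0 y) (1 / Real.log y) ω}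

/-! reduction -/

/-- a function on Om depends only on the coordinates in A -/
def DepOn {E : Type*} (A : Set ℕ) (f : Om → E) : Prop :=
  ∀ ω ω' : Om, (∀ l ∈ A, ω l = ω' l) → f ω = f ω'

def S_SPLIT : Prop := ∀ (γ : ℝ) (A B : Finset ℕ), (∀ l ∈ A, l.Prime) → (∀ l ∈ B, l.Prime) →
  Disjoint A B → ∀ (z : ℝ) (ω : Om), 0 ≤ z →
  DA γ (A ∪ B) z ω = ∑ r ∈ (Finset.Icc 1 ⌊z⌋₊).filter (fun r => r.primeFactors ⊆ B),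
    (b γ r : ℂ) * chi r ω * DA γ A (z / r) ω

/-- conditioning on the coordinates of A, upper bound -/
def S_CND : Prop := ∀ (A : Set ℕ) (R : Finset ℕ) (c : ℕ → Om → ℂ) (w : ℕ → ℝ) (p : ℝ), 0 < p →
  p ≤ 2 → (∀ r ∈ R, r ≠ 0 ∧ ∀ l ∈ r.primeFactors, l ∉ A) →
  (∀ r ∈ R, Continuous (c r) ∧ DepOn A (c r)) →
  ∫ ω : Om, ‖∑ r ∈ R, (w r : ℂ) * chi r ω * c r ω‖ ^ p ∂P ≤
    ∫ ω : Om, (∑ r ∈ R, w r ^ 2 * ‖c r ω‖ ^ 2) ^ (p / 2) ∂P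

/-- conditioning on the coordinates of A, lower bound for sums of bounded degree -/
def S_CNL : Prop := ∀ (K : ℕ) (p : ℝ), 0 < p → p ≤ 2 → ∃ C : ℝ, 0 < C ∧
  ∀ (A : Set ℕ) (R : Finset ℕ) (c : ℕ → Om → ℂ) (w : ℕ → ℝ),
  (∀ r ∈ R, r ≠ 0 ∧ r.primeFactorsList.length ≤ K ∧ ∀ l ∈ r.primeFactors, l ∉ A) →
  (∀ r ∈ R, Continuous (c r) ∧ DepOn A (c r)) →
  C * ∫ ω : Om, (∑ r ∈ R, w r ^ 2 * ‖c r ω‖ ^ 2) ^ (p / 2) ∂P ≤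
    ∫ ω : Om, ‖∑ r ∈ R, (w r : ℂ) * chi r ω * c r ω‖ ^ p ∂P

/-- integers in [2,N] composed of primes in (y,w] -/
noncomputable def RR (N : ℕ) (y w : ℝ) : Finset ℕ :=
  (Finset.Icc 2 N).filter (fun r => r.primeFactors ⊆ PrS y w)

/-- one smoothness step: conditioning -/
def S_URC : Prop := ∀ (γ : ℝ) (p0 : ℕ) (p : ℝ), 0 < p → p ≤ 1 → ∀ (N : ℕ) (y w : ℝ),
  (p0 : ℝ) ≤ y → y ≤ w →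
  ∫ ω : Om, ‖DA γ (PrS p0 w) N ω - DA γ (PrS p0 y) N ω‖ ^ p ∂P ≤
    ∫ ω : Om, (∑ r ∈ RR N y w, b γ r ^ 2 * ‖DA γ (PrS p0 y) (N / r) ω‖ ^ 2) ^ (p / 2) ∂P

/-- one smoothness step: smoothing in the length (pointwise) -/
def S_URS : Prop := ∀ (γ : ℝ) (A : Finset ℕ) (N : ℕ) (y w X : ℝ) (ω : Om), 1 ≤ X → 1 ≤ N →
  ∑ r ∈ RR N y w, b γ r ^ 2 * ‖DA γ A (N / r) ω‖ ^ 2 ≤
    4 * X * (∑ r ∈ RR N y w, b γ r ^ 2 * ∫ z in Set.Ioc ((N : ℝ) / r) ((N : ℝ) / r * (1 + 1 / X)),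
      ‖DA γ A z ω‖ ^ 2 / z) +
    4 * X * ∑ r ∈ RR N y w, b γ r ^ 2 * ∫ z in Set.Ioc ((N : ℝ) / r) ((N : ℝ) / r * (1 + 1 / X)),
      ‖DA γ A z ω - DA γ A (N / r) ω‖ ^ 2 / z

/-- one smoothness step: main term (pointwise) -/
def S_URM : Prop := ∀ (γ : ℝ) (p0 : ℕ), Good γ p0 → ∃ C y0 : ℝ, 0 < C ∧ (p0 : ℝ) + 1 ≤ y0 ∧
  ∀ (N : ℕ) (y w X : ℝ) (ω : Om), 1 ≤ N → y0 ≤ y → y ≤ w → w ≤ y ^ Real.exp 1 → 1 ≤ X →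
  X ^ 2 ≤ y →
  X * ∑ r ∈ RR N y w, b γ r ^ 2 * ∫ z in Set.Ioc ((N : ℝ) / r) ((N : ℝ) / r * (1 + 1 / X)),
      ‖DA γ (PrS p0 y) z ω‖ ^ 2 / z ≤
    C * (‖F γ (PrS p0 y) 0 0 ω‖ ^ 2 + JF γ (PrS p0 y) (-(1 / Real.log y)) ω / Real.log y)

/-- one smoothness step: error term in the mean -/
def S_URE : Prop := ∀ (γ : ℝ) (p0 : ℕ) (p : ℝ), 0 < p → p ≤ 1 → ∀ (N : ℕ) (y w X : ℝ),
  3 ≤ N → (p0 : ℝ) ≤ y → y ≤ w → 1 ≤ X →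
  ∫ ω : Om, (X * ∑ r ∈ RR N y w, b γ r ^ 2 *
      ∫ z in Set.Ioc ((N : ℝ) / r) ((N : ℝ) / r * (1 + 1 / X)),
        ‖DA γ (PrS p0 y) z ω - DA γ (PrS p0 y) (N / r) ω‖ ^ 2 / z) ^ (p / 2) ∂P ≤
    (∑ n ∈ (Finset.Icc 1 ⌊(N : ℝ) * (1 + 1 / X)⌋₊).filter (fun n : ℕ => N < n),
      b γ n ^ 2) ^ (p / 2)

/-- one smoothness step -/
def S_URK : Prop := ∀ (γ : ℝ) (p0 : ℕ), Good γ p0 → ∀ p : ℝ, 0 < p → p ≤ 1 →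
  ∃ C : ℝ, ∃ N0 : ℕ, 0 < C ∧ 16 ≤ N0 ∧ ∀ (N : ℕ) (y w : ℝ), N0 ≤ N →
  (Real.log (Real.log N)) ^ 2 ≤ Real.log y → y ≤ w → w ≤ y ^ Real.exp 1 → 1 < y → w ≤ N →
  ∫ ω : Om, ‖DA γ (PrS p0 w) N ω - DA γ (PrS p0 y) N ω‖ ^ p ∂P ≤ C * (Real.log N)⁻¹ +
    C * (∫ ω : Om, ‖F γ (PrS p0 y) 0 0 ω‖ ^ p ∂P +
      ∫ ω : Om, (JF γ (PrS p0 y) (-(1 / Real.log y)) ω / Real.log y) ^ (p / 2) ∂P)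

/-- the k-th smoothness level -/
noncomputable def yk (N : ℕ) (k : ℕ) : ℝ := Real.exp (Real.log N * Real.exp (-((k : ℝ) + 1)))

/-- the levels used -/
noncomputable def KU (N : ℕ) : Finset ℕ := (Finset.range (⌈Real.log (Real.log N)⌉₊ + 1)).filter
  (fun k => (Real.log (Real.log N)) ^ 2 ≤ Real.log (yk N k))

def S_URED : Prop := ∀ (γ : ℝ) (p0 : ℕ), Good γ p0 → ∀ p : ℝ, 0 < p → p ≤ 1 →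
  ∃ C B : ℝ, ∃ N0 : ℕ, 0 < C ∧ 0 < B ∧ 16 ≤ N0 ∧ ∀ N : ℕ, N0 ≤ N →
  ∫ ω : Om, ‖DA γ (PrS p0 N) N ω‖ ^ p ∂P ≤ C * (Real.log (Real.log N)) ^ B +
    C * ∑ k ∈ KU N, (∫ ω : Om, ‖F γ (PrS p0 (yk N k)) 0 0 ω‖ ^ p ∂P +
      ∫ ω : Om, (JF γ (PrS p0 (yk N k)) (-(1 / Real.log (yk N k))) ω / Real.log (yk N k)) ^ (p / 2) ∂P)

def S_LRED : Prop := ∀ (γ : ℝ) (p0 : ℕ), Good γ p0 → ∀ p : ℝ, 0 < p → p ≤ 1 →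
  ∃ K0 : ℕ, 1 ≤ K0 ∧ ∀ K : ℕ, K0 ≤ K → ∃ c : ℝ, ∃ N0 : ℕ, 0 < c ∧ 16 ≤ N0 ∧ ∀ N : ℕ, N0 ≤ N →
  c * ∫ ω : Om, ((∫ z in Set.Ioc (1 : ℝ) ((N : ℝ) ^ (1 / 3 : ℝ)),
      ‖DA γ (PrS p0 ((N : ℝ) ^ (1 / (K : ℝ)))) z ω‖ ^ 2 / z) /
      Real.log ((N : ℝ) ^ (1 / (K : ℝ)))) ^ (p / 2) ∂P ≤
    ∫ ω : Om, ‖DA γ (PrS p0 N) N ω‖ ^ p ∂P

/-- small primes, upper bound -/
def S_SMU : Prop := ∀ (γ : ℝ) (p0 : ℕ) (p : ℝ), 0 < p → p ≤ 1 → ∃ C : ℝ, 0 < C ∧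
  ∀ (N : ℕ) (U : ℝ), 1 ≤ N →
  (∀ M : ℕ, 1 ≤ M → M ≤ N → ∫ ω : Om, ‖DA γ (PrS p0 M) M ω‖ ^ p ∂P ≤ U) →
  ∫ ω : Om, ‖D γ N ω‖ ^ p ∂P ≤ C * U

/-- small primes, lower bound -/
def S_SML : Prop := ∀ (γ : ℝ) (p0 : ℕ) (p : ℝ), 0 < p → ∀ N : ℕ, 1 ≤ N →
  ∫ ω : Om, ‖DA γ (PrS p0 N) N ω‖ ^ p ∂P ≤ ∫ ω : Om, ‖D γ N ω‖ ^ p ∂P

/-! consequences for D -/

def S_UA : Prop := ∀ (γ p : ℝ), 0 < p → p ≤ 1 → al γ * (1 + Real.sqrt (1 - p)) < 2 →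
  ∃ C : ℝ, 0 < C ∧ ∀ N : ℕ, 3 ≤ N →
  ∫ ω : Om, ‖D γ N ω‖ ^ p ∂P ≤ C * (Real.log N) ^ ((al γ) ^ 2 * p ^ 2 / 4)

def S_UE : Prop := ∀ (γ p : ℝ), 0 < p → p < 1 → ∃ C : ℝ, 0 < C ∧ ∀ N : ℕ, 3 ≤ N →
  ∫ ω : Om, ‖D γ N ω‖ ^ p ∂P ≤ C * (Real.log N) ^ ((al γ) ^ 2 * p / 4)

def S_UE1 : Prop := ∀ γ : ℝ, ∃ C : ℝ, 0 < C ∧ ∀ N : ℕ, 16 ≤ N →
  ∫ ω : Om, ‖D γ N ω‖ ∂P ≤ C * ((Real.log N) ^ ((al γ) ^ 2 / 4) * Real.log (Real.log N))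

def S_LE : Prop := ∀ (γ p : ℝ), 1 < γ → 0 < p → p < 1 → ∃ c : ℝ, 0 < c ∧ ∀ N : ℕ, 3 ≤ N →
  c * (Real.log N) ^ ((al γ) ^ 2 * p / 4) ≤ ∫ ω : Om, ‖D γ N ω‖ ^ p ∂P

def S_LE1 : Prop := ∀ γ : ℝ, 1 < γ → ∃ c : ℝ, 0 < c ∧ ∀ N : ℕ, 16 ≤ N →
  c * ((Real.log N) ^ ((al γ) ^ 2 / 4) * Real.log (Real.log N)) ≤ ∫ ω : Om, ‖D γ N ω‖ ∂P

/-- Bonami-Weissler inequality in one variable -/
def S_BW1 : Prop := ∀ (p : ℝ), 0 < p → p ≤ 2 → ∀ Q : Polynomial ℂ,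
  (‖Q.coeff 0‖ ^ 2 + p / 2 * ‖Q.coeff 1‖ ^ 2) ^ (p / 2) ≤
    ∫ x : UnitAddCircle, ‖Q.eval (zc x)‖ ^ p

/-- Bonami-Weissler inequality for Dirichlet polynomials -/
def S_BW : Prop := ∀ (p : ℝ), 0 < p → p ≤ 2 → ∀ (N : ℕ) (a : ℕ → ℂ),
  (∑ n ∈ (Finset.Icc 1 N).filter Squarefree, ‖a n‖ ^ 2 * (p / 2) ^ n.primeFactors.card) ^ (p / 2) ≤
    ∫ ω : Om, ‖∑ n ∈ Finset.Icc 1 N, a n * chi n ω‖ ^ p ∂P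

def S_SQF : Prop := ∀ κ : ℝ, 0 < κ → ∃ c : ℝ, 0 < c ∧ ∀ N : ℕ, 2 ≤ N →
  c * (Real.log N) ^ κ ≤
    ∑ n ∈ (Finset.Icc 1 N).filter Squarefree, κ ^ n.primeFactors.card / (n : ℝ)

def S_LA : Prop := ∀ (γ p : ℝ), 0 < p → p ≤ 1 → ∃ c : ℝ, 0 < c ∧ ∀ N : ℕ, 3 ≤ N →
  c * (Real.log N) ^ ((al γ) ^ 2 * p ^ 2 / 4) ≤ ∫ ω : Om, ‖D γ N ω‖ ^ p ∂P

/-- the mean over the imaginary line is the torus integral -/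
def S_BOHR : Prop := ∀ (γ p : ℝ) (N : ℕ), 0 < p →
  Filter.Tendsto (fun T : ℝ => (2 * T)⁻¹ * ∫ y in (-T)..T,
    ‖∑ n ∈ Finset.Icc 1 N, ((n.divisors.card : ℝ) ^ γ : ℝ) * (n : ℂ) ^ (-(1 / 2 : ℂ) - y * I)‖ ^ p)
    Filter.atTop (nhds (∫ ω : Om, ‖D γ N ω‖ ^ p ∂P))

end PM
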