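import Pool.Agent.H24.PM.Stmts

/-! Module URC: one smoothness step, conditioning on the small primes. -/

namespace PM
open MeasureTheory Complex

theorem urc_mem_PrS (u v : ℝ) (hv : 0 ≤ v) (l : ℕ) :
    l ∈ PrS u v ↔ l.Prime ∧ u < l ∧ (l : ℝ) ≤ v := by
  unfold PrS
  simp only [Finset.mem_filter, Finset.mem_range]
  constructor
  · rintro ⟨h1, h2, h3⟩
    exact ⟨h2, h3, (Nat.le_floor_iff hv).1 (by omega)⟩
  · rintro ⟨h1, h2, h3⟩
    have := (Nat.le_floor_iff hv).2 h3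
    exact ⟨by omega, h1, h2⟩

theorem urc_prime (u v : ℝ) (l : ℕ) (h : l ∈ PrS u v) : l.Prime := by
  unfold PrS at h
  exact (Finset.mem_filter.1 h).2.1

theorem urc_union (u v w : ℝ) (h0 : 0 ≤ u) (h1 : u ≤ v) (h2 : v ≤ w) :
    PrS u w = PrS u v ∪ PrS v w := by
  ext l
  rw [Finset.mem_union, urc_mem_PrS _ _ (by linarith), urc_mem_PrS _ _ (by linarith),
    urc_mem_PrS _ _ (by linarith)]
  constructor
  · rintro ⟨a, b, c⟩
    rcases le_or_gt (l : ℝ) v with h | h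
    · exact Or.inl ⟨a, b, h⟩
    · exact Or.inr ⟨a, h, c⟩
  · rintro (⟨a, b, c⟩ | ⟨a, b, c⟩)
    · exact ⟨a, b, c.trans h2⟩
    · exact ⟨a, h1.trans_lt b, c⟩

theorem urc_disj (u v w : ℝ) (hv : 0 ≤ v) : Disjoint (PrS u v) (PrS v w) := by
  rw [Finset.disjoint_left]
  intro l h1 h2
  rw [urc_mem_PrS _ _ hv] at h1
  have : v < l := by
    unfold PrS at h2
    exact (Finset.mem_filter.1 h2).2.2
  linarith [h1.2.2]

theorem urc_DA_dep (γ : ℝ) (A : Finset ℕ) (z : ℝ) : DepOn (A : Set ℕ) (DA γ A z) := by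
  intro ω ω' h
  unfold DA
  refine Finset.sum_congr rfl fun n hn => ?_
  congr 1
  unfold chi
  refine Finset.prod_congr rfl fun p hp => ?_
  rw [h p ((Finset.mem_filter.1 hn).2 hp)]

theorem urc_DA_cont (hC : S_CHI) (γ : ℝ) (A : Finset ℕ) (z : ℝ) : Continuous (DA γ A z) := by
  unfold DA
  exact continuous_finsetSum _ fun n _ => continuous_const.mul (hC.2.2.1 n)

theorem urc_eq (hS : S_SPLIT) (γ : ℝ) (p0 : ℕ) (N : ℕ) (y w : ℝ) (h0 : (p0 : ℝ) ≤ y) (h1 : y ≤ w)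
    (ω : Om) : DA γ (PrS p0 w) N ω - DA γ (PrS p0 y) N ω =
      ∑ r ∈ RR N y w, (b γ r : ℂ) * chi r ω * DA γ (PrS p0 y) (N / r) ω := by
  have hy : 0 ≤ y := le_trans (Nat.cast_nonneg _) h0
  rcases Nat.eq_zero_or_pos N with hN | hN
  · subst hN
    simp [DA, RR]
  rw [urc_union p0 y w (Nat.cast_nonneg _) h0 h1,
    hS γ (PrS p0 y) (PrS y w) (urc_prime _ _) (urc_prime _ _) (urc_disj _ _ _ hy) N ω
      (Nat.cast_nonneg _), Nat.floor_natCast]
  have h3 : (Finset.Icc 1 N).filter (fun r => r.primeFactors ⊆ PrS y w) =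
      insert 1 (RR N y w) := by
    ext r
    simp only [RR, Finset.mem_filter, Finset.mem_Icc, Finset.mem_insert]
    constructor
    · rintro ⟨⟨a, b⟩, c⟩
      rcases Nat.eq_or_lt_of_le a with h | h
      · exact Or.inl h.symm
      · exact Or.inr ⟨⟨h, b⟩, c⟩
    · rintro (h | ⟨⟨a, b⟩, c⟩)
      · subst h
        exact ⟨⟨le_refl _, hN⟩, by simp⟩
      · exact ⟨⟨by omega, b⟩, c⟩
  rw [h3, Finset.sum_insert (by simp [RR])]
  have h4 : (b γ 1 : ℂ) * chi 1 ω * DA γ (PrS p0 y) ((N : ℝ) / (1 : ℕ)) ω =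
      DA γ (PrS p0 y) N ω := by
    simp [b, chi]
  rw [h4]
  ring

theorem URC (hS : S_SPLIT) (hD : S_CND) (hC : S_CHI) : S_URC := by
  intro γ p0 p hp hp1 N y w h0 h1
  have h := hD (PrS p0 y : Set ℕ) (RR N y w) (fun r => DA γ (PrS p0 y) (N / r)) (b γ) p hp
    (by linarith) (by
      intro r hr
      have hr' := Finset.mem_filter.1 hr
      have hr2 := Finset.mem_Icc.1 hr'.1
      refine ⟨by omega, fun l hl hl' => ?_⟩
      exact Finset.disjoint_left.1 (urc_disj p0 y w (le_trans (Nat.cast_nonneg _) h0))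
        (Finset.mem_coe.1 hl') (hr'.2 hl))
    (fun r _ => ⟨urc_DA_cont hC γ _ _, urc_DA_dep γ _ _⟩)
  refine le_trans (le_of_eq ?_) h
  refine integral_congr_ae (Filter.Eventually.of_forall fun ω => ?_)
  simp only
  rw [urc_eq hS γ p0 N y w h0 h1 ω]

end PM
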